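import Mathlib

/-!
# Hensel's lemma in several variables over formal power series
-/

set_option autoImplicit false

namespace Run7.h164.GM

open MvPolynomial

/-- the first order expansion of a polynomial -/
theorem taylor {A : Type} [CommRing A] {σ : Type} [Fintype σ] [DecidableEq σ]
    (F : MvPolynomial σ A) (x h : σ → A) (d : A) :
    ∃ r, eval (fun j => x j + d * h j) F =
      eval x F + d * (∑ j, eval x (pderiv j F) * h j) + d ^ 2 * r := by
  induction F using MvPolynomial.induction_on with
  | C a =>
    refine ⟨0, ?_⟩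
    simp
  | add p q hp hq =>
    obtain ⟨r, hr⟩ := hp
    obtain ⟨s, hs⟩ := hq
    refine ⟨r + s, ?_⟩
    simp only [map_add, hr, hs, add_mul, Finset.sum_add_distrib]
    ring
  | mul_X p i hp =>
    obtain ⟨r, hr⟩ := hp
    refine ⟨r * x i + (∑ j, eval x (pderiv j p) * h j) * h i + d * r * h i, ?_⟩
    have h1 : ∀ j, eval x (pderiv j (p * X i)) * h j =
        (eval x (pderiv j p) * h j) * x i + (if i = j then eval x p * h j else 0) := by
      intro j
      rw [pderiv_mul, pderiv_X, Pi.single_apply]
      by_cases hij : i = j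
      · subst hij
        simp
        ring
      · simp [hij, Ne.symm hij]
        ring
    rw [Finset.sum_congr rfl fun j _ => h1 j, Finset.sum_add_distrib, ← Finset.sum_mul,
      Finset.sum_ite_eq, if_pos (Finset.mem_univ _), map_mul, hr, eval_X, map_mul, eval_X]
    ring

theorem hensel {k : Type} [Field k] {n : ℕ} (F : Fin n → MvPolynomial (Fin n) (PowerSeries k))
    (P : Fin n → k) (N : Fin n → Fin n → k)
    (h0 : ∀ i, eval P (map (PowerSeries.constantCoeff (R := k)) (F i)) = 0)
    (hN : ∀ i l, ∑ j, eval P (pderiv j (map (PowerSeries.constantCoeff (R := k)) (F i))) * N j l =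
      if i = l then 1 else 0) :
    ∃ x : Fin n → PowerSeries k, (∀ i, eval x (F i) = 0) ∧
      ∀ i, PowerSeries.constantCoeff (x i) = P i := by
  classical
  have hcc : ∀ (x : Fin n → PowerSeries k), (∀ i, PowerSeries.constantCoeff (x i) = P i) →
      ∀ G : MvPolynomial (Fin n) (PowerSeries k), PowerSeries.constantCoeff (eval x G) =
        eval P (map (PowerSeries.constantCoeff (R := k)) G) := by
    intro x hx G
    have h1 := eval₂_comp_left (PowerSeries.constantCoeff (R := k)) (RingHom.id _) x G
    rw [eval_map]
    have h2 : P = PowerSeries.constantCoeff (R := k) ∘ x := by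
      funext i
      exact (hx i).symm
    rw [RingHom.comp_id] at h1
    rw [h2, ← h1]
    rfl
  let Good : ℕ → (Fin n → PowerSeries k) → Prop := fun m x =>
    (∀ i, PowerSeries.constantCoeff (x i) = P i) ∧
      ∀ i, (PowerSeries.X : PowerSeries k) ^ (m + 1) ∣ eval x (F i)
  have step : ∀ m x, Good m x → ∃ x', Good (m + 1) x' ∧
      ∀ i, (PowerSeries.X : PowerSeries k) ^ (m + 1) ∣ x' i - x i := by
    intro m x hx
    choose r hr using hx.2
    let h : Fin n → PowerSeries k := fun j => - ∑ l, PowerSeries.C (N j l) * r l
    refine ⟨fun j => x j + PowerSeries.X ^ (m + 1) * h j, ⟨?_, ?_⟩, ?_⟩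
    · intro i
      rw [map_add, map_mul, map_pow, PowerSeries.constantCoeff_X, hx.1 i]
      simp
    · intro i
      obtain ⟨s, hs⟩ := taylor (F i) x h (PowerSeries.X ^ (m + 1))
      have h1 : (PowerSeries.X : PowerSeries k) ∣
          r i + ∑ j, eval x (pderiv j (F i)) * h j := by
        rw [PowerSeries.X_dvd_iff, map_add, map_sum]
        have h2 : ∀ j, PowerSeries.constantCoeff (eval x (pderiv j (F i)) * h j) =
            - ∑ l, eval P (pderiv j (map (PowerSeries.constantCoeff (R := k)) (F i))) * N j l *
              PowerSeries.constantCoeff (r l) := by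
          intro j
          change PowerSeries.constantCoeff (_ * (- ∑ l, PowerSeries.C (N j l) * r l)) = _
          rw [map_mul, hcc x hx.1, ← pderiv_map, map_neg, map_sum, mul_neg, Finset.mul_sum]
          congr 1
          refine Finset.sum_congr rfl fun l _ => ?_
          rw [map_mul, PowerSeries.constantCoeff_C]
          ring
        rw [Finset.sum_congr rfl fun j _ => h2 j, Finset.sum_neg_distrib, Finset.sum_comm]
        have h3 : ∀ l, ∑ j, eval P (pderiv j (map (PowerSeries.constantCoeff (R := k)) (F i))) *
            N j l * PowerSeries.constantCoeff (r l) =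
            if i = l then PowerSeries.constantCoeff (r l) else 0 := by
          intro l
          rw [← Finset.sum_mul, hN]
          by_cases hil : i = l
          · simp [hil]
          · simp [hil]
        rw [Finset.sum_congr rfl fun l _ => h3 l, Finset.sum_ite_eq,
          if_pos (Finset.mem_univ _), add_neg_cancel]
      obtain ⟨u, hu⟩ := h1
      refine ⟨u + PowerSeries.X ^ m * s, ?_⟩
      rw [hs, hr i]
      have h4 : (PowerSeries.X : PowerSeries k) ^ (m + 1) * r i +
          PowerSeries.X ^ (m + 1) * ∑ j, eval x (pderiv j (F i)) * h j =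
          PowerSeries.X ^ (m + 1) * (PowerSeries.X * u) := by
        rw [← hu]
        ring
      rw [h4]
      ring
    · intro i
      exact ⟨h i, by ring⟩
  have hx0 : Good 0 (fun i => PowerSeries.C (P i)) := by
    refine ⟨fun i => by rw [PowerSeries.constantCoeff_C], fun i => ?_⟩
    rw [zero_add, pow_one, PowerSeries.X_dvd_iff, hcc _ (fun i => by
      rw [PowerSeries.constantCoeff_C])]
    exact h0 i
  choose f hf1 hf2 using step
  let seq : (m : ℕ) → {x : Fin n → PowerSeries k // Good m x} := fun m =>
    Nat.rec ⟨_, hx0⟩ (fun m s => ⟨f m s.1 s.2, hf1 m s.1 s.2⟩) m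
  have hseq : ∀ m i, (PowerSeries.X : PowerSeries k) ^ (m + 1) ∣
      (seq (m + 1)).1 i - (seq m).1 i := fun m i => hf2 m (seq m).1 (seq m).2 i
  have hseq2 : ∀ m e i, (PowerSeries.X : PowerSeries k) ^ (m + 1) ∣
      (seq (m + e)).1 i - (seq m).1 i := by
    intro m e i
    induction e with
    | zero => simp
    | succ e ih =>
      have h5 := hseq (m + e) i
      have h6 : (seq (m + (e + 1))).1 i - (seq m).1 i =
          ((seq (m + e + 1)).1 i - (seq (m + e)).1 i) + ((seq (m + e)).1 i - (seq m).1 i) := by
        rw [← add_assoc]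
        ring
      rw [h6]
      exact dvd_add ((pow_dvd_pow _ (by omega)).trans h5) ih
  let x : Fin n → PowerSeries k := fun i =>
    PowerSeries.mk fun m => PowerSeries.coeff m ((seq m).1 i)
  have hlim : ∀ m i, (PowerSeries.X : PowerSeries k) ^ (m + 1) ∣ x i - (seq m).1 i := by
    intro m i
    rw [PowerSeries.X_pow_dvd_iff]
    intro a ha
    have h7 := hseq2 a (m - a) i
    rw [PowerSeries.X_pow_dvd_iff] at h7
    have h8 := h7 a (by omega)
    rw [Nat.add_sub_cancel' (by omega), map_sub, sub_eq_zero] at h8
    rw [map_sub, PowerSeries.coeff_mk, h8, sub_self]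
  refine ⟨x, fun i => ?_, fun i => ?_⟩
  · ext m
    rw [map_zero]
    have h9 : (PowerSeries.X : PowerSeries k) ^ (m + 1) ∣ eval x (F i) := by
      choose w hw using hlim m
      obtain ⟨r, hr⟩ := taylor (F i) (seq m).1 w (PowerSeries.X ^ (m + 1))
      have h10 : (fun j => (seq m).1 j + PowerSeries.X ^ (m + 1) * w j) = x := by
        funext j
        rw [← hw j]
        ring
      rw [h10] at hr
      rw [hr]
      refine dvd_add (dvd_add ((seq m).2.2 i) (dvd_mul_right _ _)) ?_
      rw [pow_two, mul_assoc]
      exact dvd_mul_right _ _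
    rw [PowerSeries.X_pow_dvd_iff] at h9
    exact h9 m (by omega)
  · have h11 := hlim 0 i
    rw [zero_add, pow_one, PowerSeries.X_dvd_iff, map_sub, sub_eq_zero] at h11
    rw [h11]
    exact (seq 0).2.1 i

end Run7.h164.GM
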