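import Mathlib
import Pool.Agent.Run7.h164.GA

/-!
# Soundness of the certificate
-/

set_option autoImplicit false

namespace Run7.h164.GM

open Polynomial

/-- the polynomial with a given list of coefficients -/
noncomputable def toP : List ℕ → ℕ[X]
  | [] => 0
  | b :: l => C b + X * toP l

theorem toP_pk (l : List ℕ) : (toP l).eval 340282366920938463463374607431768211456 = pk l := by
  induction l with
  | nil => simp [toP, pk]
  | cons b l ih => simp only [toP, pk, eval_add, eval_C, eval_mul, eval_X, ih]

theorem toP_sm (l : List ℕ) : (toP l).eval 1 = sm l := by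
  induction l with
  | nil => simp [toP, sm]
  | cons b l ih => simp only [toP, sm, eval_add, eval_C, eval_mul, eval_X, ih, one_mul]

theorem toP_coeff (l : List ℕ) (n : ℕ) : (toP l).coeff n = l.getD n 0 := by
  induction l generalizing n with
  | nil => simp [toP]
  | cons b l ih =>
    cases n with
    | zero => simp [toP]
    | succ n =>
      rw [toP, coeff_add, coeff_X_mul, ih, coeff_C_succ, zero_add]
      rfl

theorem coeff_le_eval_one (f : ℕ[X]) (n : ℕ) : f.coeff n ≤ f.eval 1 := by
  rw [eval_eq_sum_range]
  by_cases hn : n ≤ f.natDegree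
  · have := Finset.single_le_sum (f := fun i => f.coeff i * 1 ^ i) (s := Finset.range (f.natDegree + 1))
      (fun i _ => Nat.zero_le _) (Finset.mem_range.2 (Nat.lt_succ_of_le hn))
    simpa using this
  · rw [coeff_eq_zero_of_natDegree_lt (by omega)]
    exact Nat.zero_le _

theorem eq_zero_of_eval {f : ℕ[X]} {B : ℕ} (hB : 0 < B) (h : f.eval B = 0) : f = 0 := by
  ext n
  rw [coeff_zero]
  by_contra hn
  rw [eval_eq_sum_range, Finset.sum_eq_zero_iff] at h
  have hn' : n ≤ f.natDegree := le_natDegree_of_ne_zero hn
  have := h n (Finset.mem_range.2 (Nat.lt_succ_of_le hn'))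
  rcases Nat.mul_eq_zero.1 this with h1 | h1
  · exact hn h1
  · exact (Nat.pow_pos hB).ne' h1

theorem cmp_sound (κ : Type) [Field κ] [CharP κ 101] (n : ℕ) : ∀ f g : ℕ[X],
    f.eval 1 < 340282366920938463463374607431768211456 →
    g.eval 1 < 340282366920938463463374607431768211456 →
    cmp n (f.eval 340282366920938463463374607431768211456)
      (g.eval 340282366920938463463374607431768211456) = true →
    f.map (Nat.castRingHom κ) = g.map (Nat.castRingHom κ) := by
  induction n with
  | zero =>
    intro f g _ _ h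
    rw [cmp, Bool.and_eq_true, beq_iff_eq, beq_iff_eq] at h
    rw [eq_zero_of_eval (by norm_num) h.1, eq_zero_of_eval (by norm_num) h.2]
  | succ n ih =>
    intro f g hf hg h
    rw [cmp, Bool.and_eq_true, beq_iff_eq] at h
    obtain ⟨h1, h2⟩ := h
    have key : ∀ q : ℕ[X], q.eval 1 < 340282366920938463463374607431768211456 →
        (q.eval 340282366920938463463374607431768211456) %
          340282366920938463463374607431768211456 = q.coeff 0 ∧
        (q.eval 340282366920938463463374607431768211456) /
          340282366920938463463374607431768211456 =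
            (divX q).eval 340282366920938463463374607431768211456 ∧
        (divX q).eval 1 < 340282366920938463463374607431768211456 := by
      intro q hq
      have h3 : q.coeff 0 < 340282366920938463463374607431768211456 :=
        (coeff_le_eval_one q 0).trans_lt hq
      have h4 := congrArg (eval 340282366920938463463374607431768211456) (divX_mul_X_add q)
      have h5 := congrArg (eval 1) (divX_mul_X_add q)
      rw [eval_add, eval_mul, eval_X, eval_C] at h4 h5
      refine ⟨?_, ?_, ?_⟩
      · rw [← h4]
        omega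
      · rw [← h4]
        omega
      · omega
    obtain ⟨f1, f2, f3⟩ := key f hf
    obtain ⟨g1, g2, g3⟩ := key g hg
    rw [f1, g1] at h1
    rw [f2, g2] at h2
    have h6 := ih (divX f) (divX g) f3 g3 h2
    have h7 : ((f.coeff 0 : ℕ) : κ) = ((g.coeff 0 : ℕ) : κ) := by
      rw [CharP.cast_eq_iff_mod_eq κ 101]
      exact h1
    rw [← divX_mul_X_add f, ← divX_mul_X_add g, Polynomial.map_add, Polynomial.map_mul,
      Polynomial.map_add, Polynomial.map_mul, h6, map_C, map_C]
    simp only [eq_natCast]
    rw [h7]

namespace Ex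

theorem evn_eq (x : Fin 8 → ℕ) (e : Ex) : evn x e = ev x e := by
  induction e with
  | c n => simp [evn, ev]
  | v i => rfl
  | a e f he hf => rw [evn, ev, he, hf]
  | m e f he hf => rw [evn, ev, he, hf]

theorem map_ev {A B : Type} [CommSemiring A] [CommSemiring B] (φ : A →+* B) (x : Fin 8 → A)
    (e : Ex) : φ (ev x e) = ev (fun j => φ (x j)) e := by
  induction e with
  | c n => simp [ev]
  | v i => rfl
  | a e f he hf => rw [ev, ev, map_add, he, hf]
  | m e f he hf => rw [ev, ev, map_mul, he, hf]

end Ex

open Ex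

section

variable (κ : Type) [Field κ] [CharP κ 101]

/-- the value of a list of coefficients -/
noncomputable def vl (θ : κ) (l : List ℕ) : κ := ((toP l).map (Nat.castRingHom κ)).eval θ

/-- the polynomial `h` -/
noncomputable def hK : κ[X] := (toP hL).map (Nat.castRingHom κ)

theorem chk_sound {θ : κ} (hθ : (hK κ).eval θ = 0) (f : ℕ[X]) (g : List ℕ)
    (h : chk (f.eval 1) (f.eval 340282366920938463463374607431768211456) (sm hL) (pk hL) g = true) :
    (f.map (Nat.castRingHom κ)).eval θ = 0 := by
  rw [chk, Bool.and_eq_true, Bool.and_eq_true, decide_eq_true_iff, decide_eq_true_iff] at h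
  obtain ⟨h1, h2, h3⟩ := h
  have h4 := cmp_sound κ 420 f (toP hL * toP g) h1 (by rw [eval_mul, toP_sm, toP_sm]; exact h2)
    (by rw [eval_mul, toP_pk, toP_pk]; exact h3)
  rw [h4, Polynomial.map_mul, eval_mul]
  change (hK κ).eval θ * _ = 0
  rw [hθ, zero_mul]

theorem hundred : (100 : κ) = -1 := by
  have h1 : ((101 : ℕ) : κ) = 0 := CharP.cast_eq_zero κ 101
  have h2 : ((101 : ℕ) : κ) = 100 + 1 := by norm_num
  rw [h2] at h1
  linear_combination h1

theorem eqF {θ : κ} (hθ : (hK κ).eval θ = 0) (i : Fin 8) :
    ev (fun j => vl κ θ (wL j)) (eF i) = 0 := by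
  have h1 := chk_sound κ hθ (ev (fun j => toP (wL j)) (eF i)) (gFL i) (by
    have h2 := tF i
    rw [chkF, evn_eq, evn_eq] at h2
    have h3 := map_ev (evalRingHom 1) (fun j => toP (wL j)) (eF i)
    have h4 := map_ev (evalRingHom 340282366920938463463374607431768211456)
      (fun j => toP (wL j)) (eF i)
    simp only [coe_evalRingHom, toP_sm, toP_pk] at h3 h4
    rw [h3, h4]
    exact h2)
  have h5 := map_ev ((evalRingHom θ).comp (mapRingHom (Nat.castRingHom κ)))
    (fun j => toP (wL j)) (eF i)
  simp only [RingHom.comp_apply, coe_evalRingHom, coe_mapRingHom] at h5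
  rw [h1] at h5
  exact h5.symm

set_option maxRecDepth 20000 in
theorem eqN {θ : κ} (hθ : (hK κ).eval θ = 0) (i k : Fin 8) :
    ∑ j, ev (fun j => vl κ θ (wL j)) (der j (eF i)) * vl κ θ (NL j k) =
      if i = k then 1 else 0 := by
  have h1 := chk_sound κ hθ (∑ j, ev (fun j => toP (wL j)) (der j (eF i)) * toP (NL j k) +
      C (if i = k then 100 else 0)) (gNL i k) (by
    have h2 := tN i k
    rw [chkN, rowN, rowN] at h2
    simp only [evn_eq] at h2
    have h3 := fun j => map_ev (evalRingHom 1) (fun j => toP (wL j)) (der j (eF i))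
    have h4 := fun j => map_ev (evalRingHom 340282366920938463463374607431768211456)
      (fun j => toP (wL j)) (der j (eF i))
    simp only [coe_evalRingHom, toP_sm, toP_pk] at h3 h4
    rw [eval_add, eval_finsetSum, eval_add, eval_finsetSum, eval_C, eval_C]
    simp only [eval_mul, h3, h4, toP_sm, toP_pk, Fin.sum_univ_eight]
    exact h2)
  have h5 := fun j => map_ev ((evalRingHom θ).comp (mapRingHom (Nat.castRingHom κ)))
    (fun j => toP (wL j)) (der j (eF i))
  simp only [RingHom.comp_apply, coe_evalRingHom, coe_mapRingHom] at h5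
  rw [Polynomial.map_add, Polynomial.map_sum, eval_add, eval_finsetSum, map_C, eval_C] at h1
  simp only [Polynomial.map_mul, eval_mul, h5] at h1
  have h6 : (Nat.castRingHom κ) (if i = k then 100 else 0) = if i = k then -1 else 0 := by
    by_cases h : i = k
    · rw [if_pos h, if_pos h, map_ofNat, hundred]
    · rw [if_neg h, if_neg h, map_zero]
  rw [h6] at h1
  have h7 : ∑ j, ev (fun j => vl κ θ (wL j)) (der j (eF i)) * vl κ θ (NL j k) +
    (if i = k then -1 else 0) = 0 := h1
  by_cases h : i = k
  · rw [if_pos h] at h7 ⊢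
    linear_combination h7
  · rw [if_neg h] at h7 ⊢
    linear_combination h7

theorem dl_getD (l : List ℕ) (k n : ℕ) : (dl k l).getD n 0 = (k + n) * l.getD n 0 := by
  induction l generalizing k n with
  | nil => simp [dl]
  | cons b l ih =>
    cases n with
    | zero => simp [dl]
    | succ n =>
      rw [dl]
      change (dl (k + 1) l).getD n 0 = (k + (n + 1)) * l.getD n 0
      rw [ih]
      ring

theorem toP_hD : toP hD = derivative (toP hL) := by
  ext n
  rw [coeff_derivative, toP_coeff, toP_coeff, hD, dl_getD]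
  have h1 : hL.tail.getD n 0 = hL.getD (n + 1) 0 := by
    rcases hh : hL with _ | ⟨b, l⟩
    · simp
    · simp
  rw [h1]
  push_cast
  ring

theorem hK_deg : (hK κ).natDegree = 82 ∧ (hK κ).Monic := by
  have h1 : (hK κ).natDegree ≤ 82 := by
    rw [natDegree_le_iff_coeff_eq_zero]
    intro N hN
    rw [hK, coeff_map, toP_coeff, List.getD_eq_default _ _ (by rw [hL_len]; omega), map_zero]
  have h2 : (hK κ).coeff 82 = 1 := by
    rw [hK, coeff_map, toP_coeff, hL_lead, map_one]
  have h3 : (hK κ).natDegree = 82 := le_antisymm h1 (le_natDegree_of_ne_zero (by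
    rw [h2]; exact one_ne_zero))
  exact ⟨h3, by rw [Monic, leadingCoeff, h3, h2]⟩

theorem hK_sep {θ : κ} (hθ : (hK κ).eval θ = 0) : (derivative (hK κ)).eval θ ≠ 0 := by
  intro h0
  have h1 := chk_sound κ hθ (toP hD * toP uL + C 100) guL (by
    have h2 := tU
    rw [chkU] at h2
    rw [eval_add, eval_mul, eval_add, eval_mul, eval_C, eval_C, toP_sm, toP_sm, toP_pk, toP_pk]
    exact h2)
  rw [Polynomial.map_add, Polynomial.map_mul, toP_hD, ← derivative_map, eval_add, eval_mul] at h1
  change (derivative (hK κ)).eval θ * _ + _ = 0 at h1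
  rw [h0, zero_mul, zero_add, map_C, eval_C, map_ofNat, hundred] at h1
  exact one_ne_zero (neg_eq_zero.1 h1)

theorem hK_zero : (hK κ).eval 0 ≠ 0 := by
  rw [← coeff_zero_eq_eval_zero, hK, coeff_map, toP_coeff, hL_head]
  intro h
  rw [eq_natCast, CharP.cast_eq_zero_iff κ 101] at h
  omega

theorem points [IsAlgClosed κ] : ∃ T : Finset κ, T.card = 82 ∧ ∀ θ ∈ T, θ ≠ 0 ∧
    ∃ (w : Fin 8 → κ) (N : Fin 8 → Fin 8 → κ), w 5 = θ ∧ (∀ i, ev w (eF i) = 0) ∧
      ∀ i l, ∑ j, ev w (der j (eF i)) * N j l = if i = l then 1 else 0 := by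
  classical
  refine ⟨(hK κ).roots.toFinset, ?_, ?_⟩
  · rw [Multiset.toFinset_card_of_nodup]
    · rw [← (IsAlgClosed.splits (hK κ)).natDegree_eq_card_roots]
      exact (hK_deg κ).1
    · apply nodup_roots
      rw [Polynomial.Separable, isCoprime_iff_aeval_ne_zero_of_isAlgClosed κ κ]
      intro θ
      by_cases h : (hK κ).eval θ = 0
      · right
        rw [coe_aeval_eq_eval]
        exact hK_sep κ h
      · left
        rw [coe_aeval_eq_eval]
        exact h
  · intro θ hθ
    rw [Multiset.mem_toFinset, mem_roots (hK_deg κ).2.ne_zero, IsRoot.def] at hθ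
    refine ⟨?_, fun j => vl κ θ (wL j), fun j k => vl κ θ (NL j k), ?_, eqF κ hθ, eqN κ hθ⟩
    · rintro rfl
      exact hK_zero κ hθ
    · change vl κ θ (wL 5) = θ
      rw [wL5, vl]
      have h1 : ∀ n, toP (List.replicate n 0) = 0 := by
        intro n
        induction n with
        | zero => rfl
        | succ n ih => rw [List.replicate_succ, toP, ih, mul_zero, C_0, add_zero]
      rw [toP, toP, h1]
      simp

end

end Run7.h164.GM
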