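import Mathlib
import Pool.Agent.Run7.h164.GB
import Pool.Agent.Run7.h164.GC

/-!
# The equations of the critical points in general
-/

set_option autoImplicit false

namespace Run7.h164.GM

open MvPolynomial

/-- the index set of the coordinates of Plücker -/
abbrev Sx := {p : Fin 5 × Fin 5 // p.1 < p.2}

/-- the index set of the parameters -/
abbrev Ix := Sx ⊕ (Sx × Sx)

section

variable {A B : Type} [CommRing A] [CommRing B]

/-- the matrix of a point of the chart -/
def Am (x : Fin 6 → A) : Matrix (Fin 2) (Fin 5) A := !![1, 0, x 0, x 1, x 2; 0, 1, x 3, x 4, x 5]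

/-- the direction matrix -/
def Bm (x : Fin 6 → A) : Matrix (Fin 2) (Fin 5) A := !![0, 0, x 0, x 1, x 2; 0, 0, x 3, x 4, x 5]

/-- the coordinates of Plücker -/
def pl (x : Fin 6 → A) (s : Sx) : A :=
  Am x 0 s.1.1 * Am x 1 s.1.2 - Am x 0 s.1.2 * Am x 1 s.1.1

/-- their derivatives -/
def dpl (x e : Fin 6 → A) (s : Sx) : A :=
  Bm e 0 s.1.1 * Am x 1 s.1.2 + Am x 0 s.1.1 * Bm e 1 s.1.2 -
    (Bm e 0 s.1.2 * Am x 1 s.1.1 + Am x 0 s.1.2 * Bm e 1 s.1.1)

/-- the linear form -/
def Lx (t : Ix → A) (x : Fin 6 → A) : A := ∑ s : Sx, t (Sum.inl s) * pl x s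

/-- the quadric -/
def Qx (t : Ix → A) (x : Fin 6 → A) : A :=
  ∑ s : Sx, ∑ s' : Sx, t (Sum.inr (s, s')) * pl x s * pl x s'

def dLx (t : Ix → A) (x e : Fin 6 → A) : A := ∑ s : Sx, t (Sum.inl s) * dpl x e s

def dQx (t : Ix → A) (x e : Fin 6 → A) : A :=
  ∑ s : Sx, ∑ s' : Sx, t (Sum.inr (s, s')) * (dpl x e s * pl x s' + pl x s * dpl x e s')

def px (x : Fin 6 → A) : A := x 0 * x 5 - x 2 * x 3

def dpx (x e : Fin 6 → A) : A := (e 0 * x 5 + x 0 * e 5) - (e 2 * x 3 + x 2 * e 3)

theorem map_Am (f : A →+* B) (x : Fin 6 → A) (r : Fin 2) (c : Fin 5) :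
    f (Am x r c) = Am (fun i => f (x i)) r c := by
  fin_cases r <;> fin_cases c <;> simp [Am]

theorem map_Bm (f : A →+* B) (x : Fin 6 → A) (r : Fin 2) (c : Fin 5) :
    f (Bm x r c) = Bm (fun i => f (x i)) r c := by
  fin_cases r <;> fin_cases c <;> simp [Bm]

theorem map_pl (f : A →+* B) (x : Fin 6 → A) (s : Sx) : f (pl x s) = pl (fun i => f (x i)) s := by
  simp only [pl, map_sub, map_mul, map_Am]

theorem map_dpl (f : A →+* B) (x e : Fin 6 → A) (s : Sx) :
    f (dpl x e s) = dpl (fun i => f (x i)) (fun i => f (e i)) s := by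
  simp only [dpl, map_sub, map_add, map_mul, map_Am, map_Bm]

theorem map_Lx (f : A →+* B) (t : Ix → A) (x : Fin 6 → A) :
    f (Lx t x) = Lx (fun i => f (t i)) (fun i => f (x i)) := by
  simp only [Lx, map_sum, map_mul, map_pl]

theorem map_Qx (f : A →+* B) (t : Ix → A) (x : Fin 6 → A) :
    f (Qx t x) = Qx (fun i => f (t i)) (fun i => f (x i)) := by
  simp only [Qx, map_sum, map_mul, map_pl]

theorem map_dLx (f : A →+* B) (t : Ix → A) (x e : Fin 6 → A) :
    f (dLx t x e) = dLx (fun i => f (t i)) (fun i => f (x i)) (fun i => f (e i)) := by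
  simp only [dLx, map_sum, map_mul, map_dpl]

theorem map_dQx (f : A →+* B) (t : Ix → A) (x e : Fin 6 → A) :
    f (dQx t x e) = dQx (fun i => f (t i)) (fun i => f (x i)) (fun i => f (e i)) := by
  simp only [dQx, map_sum, map_add, map_mul, map_pl, map_dpl]

section Der

variable {R : Type} [CommRing R] [Algebra R A] (D : Derivation R A A)

theorem der_Am (x : Fin 6 → A) (r : Fin 2) (c : Fin 5) :
    D (Am x r c) = Bm (fun i => D (x i)) r c := by
  fin_cases r <;> fin_cases c <;> simp [Am, Bm]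

theorem der_pl (x : Fin 6 → A) (s : Sx) : D (pl x s) = dpl x (fun i => D (x i)) s := by
  simp only [pl, dpl, map_sub, Derivation.leibniz, der_Am, smul_eq_mul]
  ring

theorem der_Lx (t : Ix → A) (ht : ∀ i, D (t i) = 0) (x : Fin 6 → A) :
    D (Lx t x) = dLx t x (fun i => D (x i)) := by
  simp only [Lx, dLx, map_sum, Derivation.leibniz, der_pl, ht, smul_eq_mul, mul_zero, add_zero]

theorem der_Qx (t : Ix → A) (ht : ∀ i, D (t i) = 0) (x : Fin 6 → A) :
    D (Qx t x) = dQx t x (fun i => D (x i)) := by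
  simp only [Qx, dQx, map_sum, Derivation.leibniz, der_pl, ht, smul_eq_mul, mul_zero, add_zero]
  refine Finset.sum_congr rfl fun s _ => Finset.sum_congr rfl fun s' _ => ?_
  ring

theorem der_px (x : Fin 6 → A) : D (px x) = dpx x (fun i => D (x i)) := by
  simp only [px, dpx, map_sub, Derivation.leibniz, smul_eq_mul]
  ring

end Der

theorem Bm_sum (e : Fin 6 → A) (r : Fin 2) (c : Fin 5) :
    Bm e r c = ∑ i, e i * Bm (Pi.single i (1 : A)) r c := by
  fin_cases r <;> fin_cases c <;> simp [Bm, Fin.sum_univ_six, Pi.single_apply]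

theorem dpl_sum (x e : Fin 6 → A) (s : Sx) :
    dpl x e s = ∑ i, e i * dpl x (Pi.single i (1 : A)) s := by
  simp only [dpl]
  rw [Bm_sum e 0 s.1.1, Bm_sum e 1 s.1.2, Bm_sum e 0 s.1.2, Bm_sum e 1 s.1.1]
  simp only [Finset.sum_mul, Finset.mul_sum, ← Finset.sum_add_distrib, ← Finset.sum_sub_distrib]
  refine Finset.sum_congr rfl fun i _ => ?_
  ring

theorem dLx_sum (t : Ix → A) (x e : Fin 6 → A) :
    dLx t x e = ∑ i, e i * dLx t x (Pi.single i (1 : A)) := by
  simp only [dLx]
  rw [Finset.sum_congr rfl fun s _ => by rw [dpl_sum x e s, Finset.mul_sum], Finset.sum_comm]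
  refine Finset.sum_congr rfl fun i _ => ?_
  rw [Finset.mul_sum]
  refine Finset.sum_congr rfl fun s _ => ?_
  ring

theorem dQx_sum (t : Ix → A) (x e : Fin 6 → A) :
    dQx t x e = ∑ i, e i * dQx t x (Pi.single i (1 : A)) := by
  simp only [dQx]
  have h1 : ∀ s s' : Sx, t (Sum.inr (s, s')) * (dpl x e s * pl x s' + pl x s * dpl x e s') =
      ∑ i, e i * (t (Sum.inr (s, s')) * (dpl x (Pi.single i (1 : A)) s * pl x s' +
        pl x s * dpl x (Pi.single i (1 : A)) s')) := by
    intro s s'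
    rw [dpl_sum x e s, dpl_sum x e s', Finset.sum_mul, Finset.mul_sum, ← Finset.sum_add_distrib,
      Finset.mul_sum]
    refine Finset.sum_congr rfl fun i _ => ?_
    ring
  rw [Finset.sum_congr rfl fun s _ => by
    rw [Finset.sum_congr rfl fun s' _ => h1 s s', Finset.sum_comm], Finset.sum_comm]
  refine Finset.sum_congr rfl fun i _ => ?_
  rw [Finset.mul_sum]
  refine Finset.sum_congr rfl fun s _ => ?_
  rw [Finset.mul_sum]

theorem dpx_sum (x e : Fin 6 → A) :
    dpx x e = ∑ i, e i * dpx x (Pi.single i (1 : A)) := by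
  simp only [dpx, Fin.sum_univ_six, Pi.single_apply]
  simp
  ring

/-- the coordinate derivatives -/
def dL (t : Ix → A) (x : Fin 6 → A) (i : Fin 6) : A := dLx t x (Pi.single i 1)
def dQ (t : Ix → A) (x : Fin 6 → A) (i : Fin 6) : A := dQx t x (Pi.single i 1)
def dp (x : Fin 6 → A) (i : Fin 6) : A := dpx x (Pi.single i 1)

theorem map_single (f : A →+* B) (i : Fin 6) :
    (fun j => f ((Pi.single i (1 : A) : Fin 6 → A) j)) = Pi.single i (1 : B) := by
  funext j
  by_cases h : j = i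
  · subst h
    simp
  · simp [h]

theorem map_dL (f : A →+* B) (t : Ix → A) (x : Fin 6 → A) (i : Fin 6) :
    f (dL t x i) = dL (fun i => f (t i)) (fun i => f (x i)) i := by
  rw [dL, map_dLx, map_single, dL]

theorem map_dQ (f : A →+* B) (t : Ix → A) (x : Fin 6 → A) (i : Fin 6) :
    f (dQ t x i) = dQ (fun i => f (t i)) (fun i => f (x i)) i := by
  rw [dQ, map_dQx, map_single, dQ]

theorem map_dp (f : A →+* B) (x : Fin 6 → A) (i : Fin 6) :
    f (dp x i) = dp (fun i => f (x i)) i := by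
  rw [dp, dp, ← map_single f i]
  simp only [dpx, map_sub, map_add, map_mul]

/-- the common denominator and the numerators of the tangent hyperplane -/
def Dl (t : Ix → A) (x : Fin 6 → A) : A := dQ t x 0 * dL t x 3 - dQ t x 3 * dL t x 0

def ix : Fin 4 → Fin 6 := ![1, 2, 4, 5]

def nn (t : Ix → A) (x : Fin 6 → A) (i : Fin 4) : A :=
  (dp x 0 * dL t x 3 - dp x 3 * dL t x 0) * dQ t x (ix i) +
    (dQ t x 0 * dp x 3 - dQ t x 3 * dp x 0) * dL t x (ix i) - Dl t x * dp x (ix i)

theorem map_Dl (f : A →+* B) (t : Ix → A) (x : Fin 6 → A) :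
    f (Dl t x) = Dl (fun i => f (t i)) (fun i => f (x i)) := by
  simp only [Dl, map_sub, map_mul, map_dQ, map_dL]

theorem map_nn (f : A →+* B) (t : Ix → A) (x : Fin 6 → A) (i : Fin 4) :
    f (nn t x i) = nn (fun i => f (t i)) (fun i => f (x i)) i := by
  simp only [nn, map_sub, map_add, map_mul, map_dQ, map_dL, map_dp, map_Dl]

/-- the coefficients of the linear function -/
def yy (Y : Fin 4 → A) : Fin 6 → A := ![0, Y 0, Y 1, 0, Y 2, Y 3]

theorem yy_ix (Y : Fin 4 → A) (i : Fin 4) : yy Y (ix i) = Y i := by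
  fin_cases i <;> rfl

theorem nn_eq (t : Ix → A) (x : Fin 6 → A) (Y : Fin 4 → A) (l r : A)
    (h : ∀ i, dp x i + yy Y i = r * dQ t x i + l * dL t x i) (i : Fin 4) :
    nn t x i = Y i * Dl t x := by
  have h0 : dp x 0 = r * dQ t x 0 + l * dL t x 0 := by
    have := h 0
    simpa [yy] using this
  have h3 : dp x 3 = r * dQ t x 3 + l * dL t x 3 := by
    have := h 3
    simpa [yy] using this
  have hi : dp x (ix i) + Y i = r * dQ t x (ix i) + l * dL t x (ix i) := by
    have := h (ix i)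
    rwa [yy_ix] at this
  simp only [nn, h0, h3]
  have h4 : dp x (ix i) = r * dQ t x (ix i) + l * dL t x (ix i) - Y i := by
    linear_combination hi
  rw [h4, Dl]
  ring

/-- the coordinates as polynomials in eight variables -/
noncomputable def X8 (A : Type) [CommRing A] (i : Fin 6) : MvPolynomial (Fin 8) A :=
  X (Fin.castAdd 2 i)

/-- the equations of the critical points -/
noncomputable def FF1 (t : Ix → A) (y : Fin 6 → A) (i : Fin 6) : MvPolynomial (Fin 8) A :=
  pderiv (Fin.castAdd 2 i) (px (X8 A)) + C (y i) -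
    X 7 * pderiv (Fin.castAdd 2 i) (Qx (fun i => C (t i)) (X8 A)) -
    X 6 * pderiv (Fin.castAdd 2 i) (Lx (fun i => C (t i)) (X8 A))

noncomputable def FF (t : Ix → A) (y : Fin 6 → A) : Fin 8 → MvPolynomial (Fin 8) A :=
  ![FF1 t y 0, FF1 t y 1, FF1 t y 2, FF1 t y 3, FF1 t y 4, FF1 t y 5,
    Qx (fun i => C (t i)) (X8 A), Lx (fun i => C (t i)) (X8 A)]

theorem map_X8 (f : A →+* B) (i : Fin 6) : map f (X8 A i) = X8 B i := by
  rw [X8, X8, map_X]

theorem map_FF1 (f : A →+* B) (t : Ix → A) (y : Fin 6 → A) (i : Fin 6) :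
    map f (FF1 t y i) = FF1 (fun i => f (t i)) (fun i => f (y i)) i := by
  simp only [FF1, map_sub, map_add, map_mul, ← pderiv_map, map_C, map_X]
  have h1 : map f (px (X8 A)) = px (X8 B) := by
    simp only [px, map_sub, map_mul, map_X8]
  have h2 : map f (Qx (fun i => C (t i)) (X8 A)) = Qx (fun i => C (f (t i))) (X8 B) := by
    rw [map_Qx]
    simp only [map_C, map_X8]
  have h3 : map f (Lx (fun i => C (t i)) (X8 A)) = Lx (fun i => C (f (t i))) (X8 B) := by
    rw [map_Lx]
    simp only [map_C, map_X8]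
  rw [h1, h2, h3]

theorem map_FF (f : A →+* B) (t : Ix → A) (y : Fin 6 → A) (i : Fin 8) :
    map f (FF t y i) = FF (fun i => f (t i)) (fun i => f (y i)) i := by
  have h2 : map f (Qx (fun i => C (t i)) (X8 A)) = Qx (fun i => C (f (t i))) (X8 B) := by
    rw [map_Qx]
    simp only [map_C, map_X8]
  have h3 : map f (Lx (fun i => C (t i)) (X8 A)) = Lx (fun i => C (f (t i))) (X8 B) := by
    rw [map_Lx]
    simp only [map_C, map_X8]
  fin_cases i
  · exact map_FF1 f t y 0
  · exact map_FF1 f t y 1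
  · exact map_FF1 f t y 2
  · exact map_FF1 f t y 3
  · exact map_FF1 f t y 4
  · exact map_FF1 f t y 5
  · exact h2
  · exact h3

theorem pderiv_X8 (i : Fin 6) :
    (fun j => pderiv (Fin.castAdd 2 i) (X8 A j)) = Pi.single i (1 : MvPolynomial (Fin 8) A) := by
  funext j
  rw [X8, pderiv_X]
  by_cases h : j = i
  · subst h
    simp
  · rw [Pi.single_eq_of_ne h, Pi.single_eq_of_ne]
    intro h'
    exact h (Fin.castAdd_injective 6 2 h')

theorem eval_pL (t : Ix → A) (w : Fin 8 → A) (i : Fin 6) :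
    eval w (pderiv (Fin.castAdd 2 i) (Lx (fun i => C (t i)) (X8 A))) =
      dL t (fun i => w (Fin.castAdd 2 i)) i := by
  rw [der_Lx _ _ (fun j => pderiv_C), pderiv_X8, map_dLx, dL, map_single]
  simp only [eval_C, X8, eval_X]

theorem eval_pQ (t : Ix → A) (w : Fin 8 → A) (i : Fin 6) :
    eval w (pderiv (Fin.castAdd 2 i) (Qx (fun i => C (t i)) (X8 A))) =
      dQ t (fun i => w (Fin.castAdd 2 i)) i := by
  rw [der_Qx _ _ (fun j => pderiv_C), pderiv_X8, map_dQx, dQ, map_single]
  simp only [eval_C, X8, eval_X]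

theorem eval_pp (w : Fin 8 → A) (i : Fin 6) :
    eval w (pderiv (Fin.castAdd 2 i) (px (X8 A))) = dp (fun i => w (Fin.castAdd 2 i)) i := by
  rw [der_px, pderiv_X8, dp, ← map_single (eval w) i]
  simp only [dpx, map_sub, map_add, map_mul, X8, eval_X]

theorem FF_all (t : Ix → A) (y : Fin 6 → A) (w : Fin 8 → A) (h : ∀ i, eval w (FF t y i) = 0) :
    Lx t (fun i => w (Fin.castAdd 2 i)) = 0 ∧ Qx t (fun i => w (Fin.castAdd 2 i)) = 0 ∧
    ∀ i, dp (fun i => w (Fin.castAdd 2 i)) i + y i =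
      w 7 * dQ t (fun i => w (Fin.castAdd 2 i)) i + w 6 * dL t (fun i => w (Fin.castAdd 2 i)) i := by
  have h1 : ∀ i : Fin 6, eval w (FF1 t y i) = 0 := by
    intro i
    fin_cases i
    · exact h 0
    · exact h 1
    · exact h 2
    · exact h 3
    · exact h 4
    · exact h 5
  refine ⟨?_, ?_, fun i => ?_⟩
  · have h2 : eval w (Lx (fun i => C (t i)) (X8 A)) = 0 := h 7
    rw [map_Lx] at h2
    simpa only [eval_C, X8, eval_X] using h2
  · have h2 : eval w (Qx (fun i => C (t i)) (X8 A)) = 0 := h 6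
    rw [map_Qx] at h2
    simpa only [eval_C, X8, eval_X] using h2
  · have h2 := h1 i
    rw [FF1, map_sub, map_sub, map_add, map_mul, map_mul, eval_pp, eval_pL, eval_pQ, eval_C,
      eval_X, eval_X] at h2
    linear_combination h2

end

end Run7.h164.GM
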