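import Mathlib
import Pool.Agent.Run7.h164.GMD

/-!
# The special member
-/

set_option autoImplicit false

namespace Run7.h164.GM

open MvPolynomial

theorem univ_Sx : (Finset.univ : Finset Sx) = {⟨(0, 1), by decide⟩, ⟨(0, 2), by decide⟩,
    ⟨(0, 3), by decide⟩, ⟨(0, 4), by decide⟩, ⟨(1, 2), by decide⟩, ⟨(1, 3), by decide⟩,
    ⟨(1, 4), by decide⟩, ⟨(2, 3), by decide⟩, ⟨(2, 4), by decide⟩, ⟨(3, 4), by decide⟩} := by
  decide

theorem sum_Sx {A : Type} [AddCommMonoid A] (f : Sx → A) : ∑ s, f s =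
    f ⟨(0, 1), by decide⟩ + (f ⟨(0, 2), by decide⟩ +
    (f ⟨(0, 3), by decide⟩ + (f ⟨(0, 4), by decide⟩ + (f ⟨(1, 2), by decide⟩ +
    (f ⟨(1, 3), by decide⟩ + (f ⟨(1, 4), by decide⟩ + (f ⟨(2, 3), by decide⟩ +
    (f ⟨(2, 4), by decide⟩ + f ⟨(3, 4), by decide⟩)))))))) := by
  rw [univ_Sx]
  repeat rw [Finset.sum_insert (by decide)]
  rw [Finset.sum_singleton]

/-- the table of the special quadric -/
def tab (a b : ℕ) : ℕ :=
  if a = 14 ∧ b = 14 then 1 else if a = 1 ∧ b = 3 then 1 else if a = 13 ∧ b = 13 then 1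
  else if a = 9 ∧ b = 14 then 1 else if a = 8 ∧ b = 8 then 100 else if a = 4 ∧ b = 14 then 100
  else if a = 7 ∧ b = 9 then 100 else if a = 3 ∧ b = 3 then 1 else 0

/-- the parameters of the special member -/
def tsN : Ix → ℕ
  | Sum.inl s => if 5 * (s.1.1 : ℕ) + (s.1.2 : ℕ) = 2 then 1 else
      if 5 * (s.1.1 : ℕ) + (s.1.2 : ℕ) = 19 then 100 else 0
  | Sum.inr p => tab (5 * (p.1.1.1 : ℕ) + (p.1.1.2 : ℕ)) (5 * (p.2.1.1 : ℕ) + (p.2.1.2 : ℕ))

/-- the parameters of the special linear function -/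
def ysN : Fin 4 → ℕ := ![1, 1, 0, 1]

variable {A : Type} [CommRing A]

theorem Lx_special (x : Fin 6 → A) :
    Lx (fun i => (tsN i : A)) x = x 3 + 100 * (x 1 * x 5 - x 2 * x 4) := by
  rw [Lx, sum_Sx]
  simp [tsN, pl, Am]

theorem Qx_special (x : Fin 6 → A) :
    Qx (fun i => (tsN i : A)) x = (x 0 * x 5 - x 2 * x 3) * (x 0 * x 5 - x 2 * x 3) + x 4 +
      (x 0 * x 4 - x 1 * x 3) * (x 0 * x 4 - x 1 * x 3) - x 2 * (x 0 * x 5 - x 2 * x 3) +
      100 * (x 1 * x 1) + 100 * (x 5 * (x 0 * x 5 - x 2 * x 3)) + 100 * (x 0 * x 2) +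
      x 4 * x 4 := by
  rw [Qx, sum_Sx]
  simp only [sum_Sx]
  simp [tsN, tab, pl, Am]
  ring

theorem pderiv_ev (j : Fin 8) (e : Ex) :
    pderiv j (Ex.ev (fun i => (X i : MvPolynomial (Fin 8) A)) e) =
      Ex.ev (fun i => (X i : MvPolynomial (Fin 8) A)) (Ex.der j e) := by
  induction e with
  | c n => simp [Ex.ev, Ex.der]
  | v i =>
    rw [Ex.ev, Ex.der, pderiv_X]
    by_cases h : i = j
    · subst h
      simp [Ex.ev]
    · rw [if_neg h, Pi.single_eq_of_ne h]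
      simp [Ex.ev]
  | a e f he hf => rw [Ex.ev, Ex.der, Ex.ev, map_add, he, hf]
  | m e f he hf =>
    rw [Ex.ev, Ex.der, Ex.ev, Ex.ev, Ex.ev, pderiv_mul, he, hf]

section

variable (κ : Type) [Field κ] [CharP κ 101]

theorem hundredP : (100 : MvPolynomial (Fin 8) κ) = -1 := by
  have h1 : (100 : MvPolynomial (Fin 8) κ) = C 100 := by rw [map_ofNat]
  rw [h1, hundred, map_neg, map_one]

theorem ev_e24 : Ex.ev (fun i => (X i : MvPolynomial (Fin 8) κ)) e24 = px (X8 κ) := by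
  simp only [e24, Ex.ev, px, X8]
  have h1 := hundredP κ
  push_cast
  rw [h1]
  change X 0 * X 5 + -1 * (X 2 * X 3) = X 0 * X 5 - X 2 * X 3
  ring

theorem ev_eL : Ex.ev (fun i => (X i : MvPolynomial (Fin 8) κ)) eL =
    Lx (fun i => C ((tsN i : κ))) (X8 κ) := by
  have h0 : (fun i => (C ((tsN i : κ)) : MvPolynomial (Fin 8) κ)) =
      fun i => ((tsN i : ℕ) : MvPolynomial (Fin 8) κ) := by
    funext i
    rw [map_natCast]
  rw [h0, Lx_special]
  simp only [eL, e34, Ex.ev]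
  have h1 := hundredP κ
  push_cast
  rw [h1]
  change X 3 + -1 * (X 1 * X 5 + -1 * (X 2 * X 4)) = X 3 + -1 * (X 1 * X 5 - X 2 * X 4)
  ring

theorem ev_eQ : Ex.ev (fun i => (X i : MvPolynomial (Fin 8) κ)) eQ =
    Qx (fun i => C ((tsN i : κ))) (X8 κ) := by
  have h0 : (fun i => (C ((tsN i : κ)) : MvPolynomial (Fin 8) κ)) =
      fun i => ((tsN i : ℕ) : MvPolynomial (Fin 8) κ) := by
    funext i
    rw [map_natCast]
  rw [h0, Qx_special]
  simp only [eQ, e23, e24, Ex.ev]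
  have h1 := hundredP κ
  push_cast
  rw [h1]
  change _ = (X 0 * X 5 - X 2 * X 3) * (X 0 * X 5 - X 2 * X 3) + X 4 +
      (X 0 * X 4 - X 1 * X 3) * (X 0 * X 4 - X 1 * X 3) - X 2 * (X 0 * X 5 - X 2 * X 3) +
      -1 * (X 1 * X 1) + -1 * (X 5 * (X 0 * X 5 - X 2 * X 3)) + -1 * (X 0 * X 2) +
      X 4 * X 4
  ring

theorem ev_eF1 (i : Fin 6) : Ex.ev (fun i => (X i : MvPolynomial (Fin 8) κ)) (eF1 i) =
    FF1 (fun i => (tsN i : κ)) (yy (fun i => (ysN i : κ))) i := by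
  rw [eF1, FF1]
  simp only [Ex.ev]
  rw [← pderiv_ev, ← pderiv_ev, ← pderiv_ev, ev_e24, ev_eQ, ev_eL]
  have h1 := hundredP κ
  have h2 : ((yv i : ℕ) : MvPolynomial (Fin 8) κ) = C (yy (fun i => (ysN i : κ)) i) := by
    rw [← map_natCast (C : κ →+* MvPolynomial (Fin 8) κ)]
    congr 1
    fin_cases i <;> simp [yv, yy, ysN]
  rw [h2]
  push_cast
  rw [h1]
  ring

theorem ev_eF (i : Fin 8) : Ex.ev (fun i => (X i : MvPolynomial (Fin 8) κ)) (eF i) =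
    FF (fun i => (tsN i : κ)) (yy (fun i => (ysN i : κ))) i := by
  fin_cases i
  · exact ev_eF1 κ 0
  · exact ev_eF1 κ 1
  · exact ev_eF1 κ 2
  · exact ev_eF1 κ 3
  · exact ev_eF1 κ 4
  · exact ev_eF1 κ 5
  · exact ev_eQ κ
  · exact ev_eL κ

theorem dL_special (x : Fin 6 → κ) : dL (fun i => (tsN i : κ)) x 3 = 1 ∧
    dL (fun i => (tsN i : κ)) x 0 = 0 := by
  constructor
  · rw [dL, dLx, sum_Sx]
    simp [tsN, dpl, Am, Bm, Pi.single_apply]
  · rw [dL, dLx, sum_Sx]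
    simp [tsN, dpl, Am, Bm, Pi.single_apply]

/-- the 82 critical points -/
theorem points' [IsAlgClosed κ] : ∃ T : Finset κ, T.card = 82 ∧ ∀ θ ∈ T, θ ≠ 0 ∧
    ∃ (w : Fin 8 → κ) (N : Fin 8 → Fin 8 → κ), w 5 = θ ∧
      (∀ i, eval w (FF (fun i => (tsN i : κ)) (yy (fun i => (ysN i : κ))) i) = 0) ∧
      (∀ i l, ∑ j, eval w (pderiv j (FF (fun i => (tsN i : κ)) (yy (fun i => (ysN i : κ))) i)) *
        N j l = if i = l then 1 else 0) ∧
      Dl (fun i => (tsN i : κ)) (fun i => w (Fin.castAdd 2 i)) ≠ 0 := by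
  obtain ⟨T, hT, h⟩ := points κ
  refine ⟨T, hT, fun θ hθ => ?_⟩
  obtain ⟨h0, w, N, hw, h1, h2⟩ := h θ hθ
  have h3 : ∀ e, eval w (Ex.ev (fun i => (X i : MvPolynomial (Fin 8) κ)) e) = Ex.ev w e := by
    intro e
    rw [Ex.map_ev]
    simp only [eval_X]
  have h4 : ∀ i, eval w (FF (fun i => (tsN i : κ)) (yy (fun i => (ysN i : κ))) i) = 0 := by
    intro i
    rw [← ev_eF, h3]
    exact h1 i
  refine ⟨h0, w, N, hw, h4, fun i l => ?_, ?_⟩
  · rw [← h2 i l]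
    refine Finset.sum_congr rfl fun j _ => ?_
    rw [← ev_eF, pderiv_ev, h3]
  · obtain ⟨_, _, h5⟩ := FF_all _ _ _ h4
    obtain ⟨h6, h7⟩ := dL_special κ (fun i => w (Fin.castAdd 2 i))
    rw [Dl, h6, h7, mul_one, mul_zero, sub_zero]
    intro h8
    have h9 := h5 0
    rw [h8, h7] at h9
    have h10 : dp (fun i => w (Fin.castAdd 2 i)) 0 = w 5 := by
      simp [dp, dpx]
    rw [h10, hw] at h9
    apply h0
    simpa [yy] using h9

end

end Run7.h164.GM
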