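import Mathlib
import Pool.Agent.Run7.h164.GE

/-!
# No relation of small degree modulo 101
-/

set_option autoImplicit false

namespace Run7.h164.GM

open MvPolynomial

section

variable (κ : Type) [Field κ] [CharP κ 101] [IsAlgClosed κ]

theorem no_rel (s : Finset (Fin 4 →₀ ℕ)) (N : ℕ) (hs : ∀ α ∈ s, ∑ i, α i ≤ N)
    (m : Fin 82 → (Fin 4 →₀ ℕ) → MvPolynomial Ix κ) (hm : ∃ j, ∃ α ∈ s, m j α ≠ 0)
    (h : ∀ (t : Ix → PowerSeries κ) (x : Fin 6 → PowerSeries κ), Lx t x = 0 → Qx t x = 0 →
      ∑ j, ∑ α ∈ s, aeval t (m j α) *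
        ((∏ i, nn t x i ^ α i) * Dl t x ^ (N - ∑ i, α i) * x 5 ^ (j : ℕ)) = 0) : False := by
  classical
  have : Infinite κ := IsAlgClosed.instInfinite
  obtain ⟨j0, α0, hα0, hj0⟩ := hm
  obtain ⟨t1, ht1⟩ : ∃ t1 : Ix → κ, eval t1 (m j0 α0) ≠ 0 := by
    by_contra hcon
    push Not at hcon
    exact hj0 (MvPolynomial.funext fun z => by rw [hcon, map_zero])
  let g : MvPolynomial (Fin 4) κ := ∑ α ∈ s, monomial α (eval t1 (m j0 α))
  have hg : g ≠ 0 := by
    intro h0
    have h1 := congrArg (coeff α0) h0
    rw [coeff_sum, coeff_zero] at h1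
    simp only [coeff_monomial] at h1
    rw [Finset.sum_ite_eq' s α0, if_pos hα0] at h1
    exact ht1 h1
  obtain ⟨y1, hy1⟩ : ∃ y1 : Fin 4 → κ, eval y1 g ≠ 0 := by
    by_contra hcon
    push Not at hcon
    exact hg (MvPolynomial.funext fun z => by rw [hcon, map_zero])
  let φ : Polynomial κ →ₐ[κ] PowerSeries κ := Polynomial.coeToPowerSeries.algHom κ
  have hφ : Function.Injective φ := by
    intro a b hab
    have h1 : (a : PowerSeries κ) = (b : PowerSeries κ) := by
      have h2 : ∀ c : Polynomial κ, φ c = (c : PowerSeries κ) := by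
        intro c
        change Polynomial.coeToPowerSeries.algHom κ c = _
        rw [Polynomial.coeToPowerSeries.algHom_apply]
        ext n
        simp
      rw [← h2, ← h2]
      exact hab
    exact Polynomial.coe_injective κ h1
  have hφ0 : ∀ c : Polynomial κ, PowerSeries.constantCoeff (φ c) = c.eval 0 := by
    intro c
    change PowerSeries.constantCoeff (Polynomial.coeToPowerSeries.algHom κ c) = _
    rw [Polynomial.coeToPowerSeries.algHom_apply, ← Polynomial.coeff_zero_eq_eval_zero]
    simp
  let tP : Ix → Polynomial κ := fun i =>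
    Polynomial.C (tsN i : κ) + Polynomial.X * Polynomial.C (t1 i - (tsN i : κ))
  let yP : Fin 4 → Polynomial κ := fun i =>
    Polynomial.C (ysN i : κ) + Polynomial.X * Polynomial.C (y1 i - (ysN i : κ))
  let t : Ix → PowerSeries κ := fun i => φ (tP i)
  let y : Fin 4 → PowerSeries κ := fun i => φ (yP i)
  have ht0 : ∀ i, PowerSeries.constantCoeff (t i) = (tsN i : κ) := by
    intro i
    rw [hφ0]
    simp [tP]
  have hy0 : ∀ i, PowerSeries.constantCoeff (y i) = (ysN i : κ) := by
    intro i
    rw [hφ0]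
    simp [yP]
  let a : Fin 82 → PowerSeries κ := fun j => ∑ α ∈ s, aeval t (m j α) * ∏ i, y i ^ α i
  have ha : a j0 ≠ 0 := by
    let b : Polynomial κ := ∑ α ∈ s, aeval tP (m j0 α) * ∏ i, yP i ^ α i
    have h1 : a j0 = φ b := by
      change _ = φ (∑ α ∈ s, aeval tP (m j0 α) * ∏ i, yP i ^ α i)
      rw [map_sum]
      refine Finset.sum_congr rfl fun α _ => ?_
      rw [map_mul, map_prod, comp_aeval_apply]
      simp only [map_pow]
      rfl
    have h2 : b.eval 1 = eval y1 g := by
      change Polynomial.eval 1 (∑ α ∈ s, aeval tP (m j0 α) * ∏ i, yP i ^ α i) =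
        eval y1 (∑ α ∈ s, monomial α (eval t1 (m j0 α)))
      rw [Polynomial.eval_finsetSum, map_sum]
      refine Finset.sum_congr rfl fun α _ => ?_
      rw [Polynomial.eval_mul, Polynomial.eval_prod, eval_monomial, Finsupp.prod_fintype _ _
        (fun i => pow_zero _)]
      congr 1
      · have h3 := comp_aeval_apply (Polynomial.aeval (1 : κ)) (f := tP) (m j0 α)
        rw [Polynomial.coe_aeval_eq_eval] at h3
        rw [h3]
        have h4 : (fun i => Polynomial.eval 1 (tP i)) = t1 := by
          funext i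
          simp [tP]
        rw [h4]
        exact aeval_eq_eval t1 ▸ rfl
      · refine Finset.prod_congr rfl fun i _ => ?_
        rw [Polynomial.eval_pow]
        simp [yP]
    rw [h1]
    intro h5
    have h6 : b = 0 := hφ (by rw [h5, map_zero])
    rw [h6, Polynomial.eval_zero] at h2
    exact hy1 h2.symm
  let f : Polynomial (PowerSeries κ) := ∑ j : Fin 82, Polynomial.monomial (j : ℕ) (a j)
  have hf : f ≠ 0 := by
    intro h0
    have h1 := congrArg (fun q => Polynomial.coeff q (j0 : ℕ)) h0
    simp only [f, Polynomial.finsetSum_coeff, Polynomial.coeff_monomial,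
      Polynomial.coeff_zero] at h1
    rw [Finset.sum_eq_single j0] at h1
    · rw [if_pos rfl] at h1
      exact ha h1
    · intro b _ hb
      rw [if_neg]
      intro h2
      exact hb (Fin.ext h2)
    · intro h2
      exact absurd (Finset.mem_univ _) h2
  obtain ⟨T, hT, hpt⟩ := points' κ
  have hroot : ∀ θ : T, ∃ r : PowerSeries κ, PowerSeries.constantCoeff r = θ.1 ∧ f.eval r = 0 := by
    intro θ
    obtain ⟨_, w, M, hw, h1, h2, h3⟩ := hpt θ.1 θ.2
    have hyy : ∀ i, PowerSeries.constantCoeff (yy y i) = yy (fun i => (ysN i : κ)) i := by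
      intro i
      fin_cases i
      · exact map_zero _
      · exact hy0 0
      · exact hy0 1
      · exact map_zero _
      · exact hy0 2
      · exact hy0 3
    have hF : ∀ i, map (PowerSeries.constantCoeff (R := κ)) (FF t (yy y) i) =
        FF (fun i => (tsN i : κ)) (yy (fun i => (ysN i : κ))) i := by
      intro i
      rw [map_FF]
      have e1 : (fun i => PowerSeries.constantCoeff (t i)) = fun i => (tsN i : κ) := funext ht0
      have e2 : (fun i => PowerSeries.constantCoeff (yy y i)) =
        fun i => yy (fun i => (ysN i : κ)) i := funext hyy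
      rw [e1, e2]
    obtain ⟨x, hx1, hx2⟩ := hensel (FF t (yy y)) w M (fun i => by rw [hF]; exact h1 i)
      (fun i l => by
        simp only [hF]
        exact h2 i l)
    obtain ⟨hL, hQ, hlag⟩ := FF_all _ _ _ hx1
    have hnn := nn_eq t (fun i => x (Fin.castAdd 2 i)) y (x 6) (x 7) hlag
    have hD : Dl t (fun i => x (Fin.castAdd 2 i)) ≠ 0 := by
      intro h4
      apply h3
      have h5 := congrArg (PowerSeries.constantCoeff (R := κ)) h4
      rw [map_Dl, map_zero] at h5
      simp only [ht0, hx2] at h5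
      exact h5
    refine ⟨x 5, by rw [hx2, hw], ?_⟩
    have h6 := h t (fun i => x (Fin.castAdd 2 i)) hL hQ
    set D := Dl t (fun i => x (Fin.castAdd 2 i)) with hDdef
    have h7 : ∀ j : Fin 82, ∀ α ∈ s, aeval t (m j α) *
        ((∏ i, nn t (fun i => x (Fin.castAdd 2 i)) i ^ α i) * D ^ (N - ∑ i, α i) *
          x (Fin.castAdd 2 5) ^ (j : ℕ)) =
        D ^ N * ((aeval t (m j α) * ∏ i, y i ^ α i) * x 5 ^ (j : ℕ)) := by
      intro j α hα
      have h8 : ∏ i, nn t (fun i => x (Fin.castAdd 2 i)) i ^ α i =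
          (∏ i, y i ^ α i) * D ^ (∑ i, α i) := by
        rw [← Finset.prod_pow_eq_pow_sum, ← Finset.prod_mul_distrib]
        refine Finset.prod_congr rfl fun i _ => ?_
        rw [hnn i, mul_pow]
      have h9 : D ^ N = D ^ (∑ i, α i) * D ^ (N - ∑ i, α i) := by
        rw [← pow_add, Nat.add_sub_cancel' (hs α hα)]
      rw [h8, h9]
      change _ * (_ * _ * x 5 ^ (j : ℕ)) = _
      ring
    rw [Finset.sum_congr rfl fun j _ => Finset.sum_congr rfl fun α hα => h7 j α hα] at h6
    simp only [← Finset.mul_sum, ← Finset.sum_mul] at h6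
    rcases mul_eq_zero.1 h6 with h10 | h10
    · exact absurd h10 (pow_ne_zero _ hD)
    · rw [Polynomial.eval_finsetSum]
      simp only [Polynomial.eval_monomial]
      exact h10
  choose r hr1 hr2 using hroot
  apply hf
  refine Polynomial.eq_zero_of_natDegree_lt_card_of_eval_eq_zero f (f := r) ?_ hr2 ?_
  · intro θ θ' hθ
    apply Subtype.ext
    rw [← hr1, ← hr1, hθ]
  · rw [Fintype.card_coe, hT]
    have h11 : f.natDegree ≤ 81 := by
      refine Polynomial.natDegree_sum_le_of_forall_le _ _ fun j _ => ?_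
      refine (Polynomial.natDegree_monomial_le _).trans ?_
      omega
    omega

end

end Run7.h164.GM
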