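import Mathlib
import Pool.Agent.Run7.h164.GMD

/-!
# From a relation over the complex numbers to relations in all rings
-/

set_option autoImplicit false

namespace Run7.h164.GM

open MvPolynomial

/-- the ring of the parameters -/
abbrev A0 := MvPolynomial Ix ℤ

/-- the universal parameters -/
noncomputable def TT (i : Ix) : MvPolynomial (Fin 6) A0 := C (X i)

noncomputable def XX (i : Fin 6) : MvPolynomial (Fin 6) A0 := X i

noncomputable def Lo : MvPolynomial (Fin 6) A0 := Lx TT XX
noncomputable def Qo : MvPolynomial (Fin 6) A0 := Qx TT XX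

def s01 : Sx := ⟨(0, 1), by decide⟩

theorem pl_s01 {A : Type} [CommRing A] (x : Fin 6 → A) : pl x s01 = 1 := by
  simp [pl, s01, Am]

/-- the shifted parameters -/
noncomputable def TS : Ix → MvPolynomial (Fin 6) A0
  | Sum.inl s => TT (Sum.inl s) - (if s = s01 then Lo else 0)
  | Sum.inr p => TT (Sum.inr p) - (if p.1 = s01 then (if p.2 = s01 then Qo else 0) else 0)

noncomputable def sg0 : A0 →+* MvPolynomial (Fin 6) A0 :=
  eval₂Hom (Int.castRingHom _) TS

noncomputable def sg : MvPolynomial (Fin 6) A0 →+* MvPolynomial (Fin 6) A0 :=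
  eval₂Hom sg0 XX

theorem sg_TT (i : Ix) : sg (TT i) = TS i := by
  rw [sg, TT, coe_eval₂Hom, eval₂_C, sg0, coe_eval₂Hom, eval₂_X]

theorem sg_XX (i : Fin 6) : sg (XX i) = XX i := by
  rw [sg, coe_eval₂Hom]
  exact eval₂_X _ _ _

theorem sg_Lo : sg Lo = 0 := by
  have h1 : sg Lo = Lx TS XX := by
    rw [Lo, map_Lx]
    simp only [sg_TT, sg_XX]
  rw [h1, Lx]
  have h2 : ∀ s, TS (Sum.inl s) * pl XX s =
      TT (Sum.inl s) * pl XX s - (if s = s01 then Lo * pl XX s else 0) := by
    intro s
    rw [TS]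
    by_cases h : s = s01
    · rw [if_pos h, if_pos h]
      ring
    · rw [if_neg h, if_neg h]
      ring
  rw [Finset.sum_congr rfl fun s _ => h2 s, Finset.sum_sub_distrib, Finset.sum_ite_eq',
    if_pos (Finset.mem_univ _), pl_s01, mul_one]
  exact sub_self _

theorem sg_Qo : sg Qo = 0 := by
  have h1 : sg Qo = Qx TS XX := by
    rw [Qo, map_Qx]
    simp only [sg_TT, sg_XX]
  rw [h1, Qx]
  have h2 : ∀ s s', TS (Sum.inr (s, s')) * pl XX s * pl XX s' =
      TT (Sum.inr (s, s')) * pl XX s * pl XX s' -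
        (if s = s01 then (if s' = s01 then Qo * pl XX s * pl XX s' else 0) else 0) := by
    intro s s'
    rw [TS]
    by_cases h : s = s01
    · by_cases h' : s' = s01
      · simp only [h, h', if_true]
        ring
      · simp only [h, h', if_true, if_false]
        ring
    · simp only [h, if_false]
      ring
  have h3 : ∀ s, ∑ s', TS (Sum.inr (s, s')) * pl XX s * pl XX s' =
      (∑ s', TT (Sum.inr (s, s')) * pl XX s * pl XX s') -
        (if s = s01 then Qo else 0) := by
    intro s
    rw [Finset.sum_congr rfl fun s' _ => h2 s s', Finset.sum_sub_distrib]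
    congr 1
    by_cases h : s = s01
    · simp only [h, if_true]
      rw [Finset.sum_ite_eq', if_pos (Finset.mem_univ _), pl_s01, mul_one, mul_one]
    · simp only [h, if_false, Finset.sum_const_zero]
  rw [Finset.sum_congr rfl fun s _ => h3 s, Finset.sum_sub_distrib, Finset.sum_ite_eq',
    if_pos (Finset.mem_univ _)]
  exact sub_self _

section

variable {R : Type} [CommRing R] (t : Ix → R) (x : Fin 6 → R)

/-- the evaluation at a point -/
noncomputable def ev0 : MvPolynomial (Fin 6) A0 →+* R :=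
  eval₂Hom (eval₂Hom (Int.castRingHom R) t) x

theorem ev0_TT (i : Ix) : ev0 t x (TT i) = t i := by
  rw [ev0, TT, coe_eval₂Hom, eval₂_C, coe_eval₂Hom, eval₂_X]

theorem ev0_XX (i : Fin 6) : ev0 t x (XX i) = x i := by
  rw [ev0, coe_eval₂Hom]
  exact eval₂_X _ _ _

theorem ev0_C (a : A0) : ev0 t x (C a) = eval₂Hom (Int.castRingHom R) t a := by
  rw [ev0, coe_eval₂Hom, eval₂_C]

theorem ev0_Lo : ev0 t x Lo = Lx t x := by
  rw [Lo, map_Lx]
  simp only [ev0_TT, ev0_XX]

theorem ev0_Qo : ev0 t x Qo = Qx t x := by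
  rw [Qo, map_Qx]
  simp only [ev0_TT, ev0_XX]

theorem ev0_sg (hL : Lx t x = 0) (hQ : Qx t x = 0) (G : MvPolynomial (Fin 6) A0) :
    ev0 t x (sg G) = ev0 t x G := by
  have h1 : (ev0 t x).comp sg = ev0 t x := by
    refine ringHom_ext' ?_ ?_
    · refine ringHom_ext' ?_ ?_
      · exact RingHom.ext_int _ _
      · intro i
        change ev0 t x (sg (TT i)) = ev0 t x (TT i)
        rw [sg_TT]
        rcases i with s | p
        · rw [TS, map_sub, ev0_TT]
          by_cases h : s = s01
          · rw [if_pos h, ev0_Lo, hL, sub_zero]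
          · rw [if_neg h, map_zero, sub_zero]
        · rw [TS, map_sub, ev0_TT]
          by_cases h : p.1 = s01
          · by_cases h' : p.2 = s01
            · rw [if_pos h, if_pos h', ev0_Qo, hQ, sub_zero]
            · rw [if_pos h, if_neg h', map_zero, sub_zero]
          · rw [if_neg h, map_zero, sub_zero]
    · intro i
      change ev0 t x (sg (XX i)) = ev0 t x (XX i)
      rw [sg_XX]
  exact RingHom.congr_fun h1 G

end

/-- division by 101 -/
theorem div_out {K : Type} [Fintype K] (G : K → MvPolynomial (Fin 6) A0) (n : ℕ) :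
    ∀ (m : K → A0) (k0 : K) (d : Ix →₀ ℕ), coeff d (m k0) ≠ 0 → (coeff d (m k0)).natAbs ≤ n →
      ∑ k, sg (C (m k)) * sg (G k) = 0 →
      ∃ m' : K → A0, (∃ k, map (Int.castRingHom (ZMod 101)) (m' k) ≠ 0) ∧
        ∑ k, sg (C (m' k)) * sg (G k) = 0 := by
  induction n with
  | zero =>
    intro m k0 d h1 h2 _
    exact absurd (Int.natAbs_eq_zero.1 (Nat.le_zero.1 h2)) h1
  | succ n ih =>
    intro m k0 d h1 h2 h3
    by_cases h4 : ∃ k, map (Int.castRingHom (ZMod 101)) (m k) ≠ 0
    · exact ⟨m, h4, h3⟩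
    · push Not at h4
      have h5 : ∀ k, ∃ q : A0, m k = C (101 : ℤ) * q := by
        intro k
        have := (C_dvd_iff_zmod 101 (m k)).2 (h4 k)
        obtain ⟨q, hq⟩ := this
        exact ⟨q, hq⟩
      choose m' hm' using h5
      have h6 : coeff d (m k0) = 101 * coeff d (m' k0) := by
        rw [hm' k0, coeff_C_mul]
      have h7 : coeff d (m' k0) ≠ 0 := by
        intro h
        rw [h, mul_zero] at h6
        exact h1 h6
      refine ih m' k0 d h7 ?_ ?_
      · rw [h6, Int.natAbs_mul] at h2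
        have h8 : 1 ≤ (coeff d (m' k0)).natAbs := Int.natAbs_pos.2 h7
        have h9 : Int.natAbs 101 = 101 := rfl
        rw [h9] at h2
        omega
      · have h10 : (101 : MvPolynomial (Fin 6) A0) * ∑ k, sg (C (m' k)) * sg (G k) = 0 := by
          rw [← h3, Finset.mul_sum]
          refine Finset.sum_congr rfl fun k _ => ?_
          rw [hm' k, map_mul, map_mul]
          have h11 : sg (C (C (101 : ℤ) : A0)) = 101 := by
            have h12 : (C (C (101 : ℤ) : A0) : MvPolynomial (Fin 6) A0) = 101 := by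
              rw [map_ofNat, map_ofNat]
            rw [h12, map_ofNat]
          rw [h11]
          ring
        rcases mul_eq_zero.1 h10 with h | h
        · exact absurd h (by norm_num)
        · exact h

/-- the descent -/
theorem descent (t : Ix → ℂ) (ht : Function.Injective (eval₂Hom (Int.castRingHom ℂ) t : A0 →+* ℂ))
    {K : Type} [Fintype K] (c : K → ℂ) (hc : ∃ k, c k ≠ 0) (G : K → MvPolynomial (Fin 6) A0)
    (A B : MvPolynomial (Fin 6) ℂ)
    (h : ∑ k, C (c k) * map (eval₂Hom (Int.castRingHom ℂ) t) (G k) =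
      A * map (eval₂Hom (Int.castRingHom ℂ) t) Lo + B * map (eval₂Hom (Int.castRingHom ℂ) t) Qo) :
    ∃ m : K → A0, (∃ k, map (Int.castRingHom (ZMod 101)) (m k) ≠ 0) ∧
      ∀ (R : Type) [CommRing R] (u : Ix → R) (x : Fin 6 → R), Lx u x = 0 → Qx u x = 0 →
        ∑ k, eval₂Hom (Int.castRingHom R) u (m k) * ev0 u x (G k) = 0 := by
  classical
  set ι : A0 →+* ℂ := eval₂Hom (Int.castRingHom ℂ) t with hι
  letI : Algebra A0 ℂ := ι.toAlgebra
  have hinj : Function.Injective (algebraMap A0 ℂ) := ht
  haveI : FaithfulSMul A0 ℂ := (faithfulSMul_iff_algebraMap_injective A0 ℂ).2 hinj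
  let F := FractionRing A0
  letI : Algebra F ℂ := FractionRing.liftAlgebra A0 ℂ
  haveI : IsScalarTower A0 F ℂ := FractionRing.isScalarTower_liftAlgebra A0 ℂ
  obtain ⟨k0, hk0⟩ := hc
  obtain ⟨φ, hφ⟩ : ∃ φ : ℂ →ₗ[F] F, φ (c k0) ≠ 0 := by
    by_contra hcon
    push Not at hcon
    exact hk0 ((Module.forall_dual_apply_eq_zero_iff F (c k0)).1 hcon)
  -- common denominator
  let W : Finset F := (Finset.univ.image fun k => φ (c k)) ∪
    (A.support.image fun d => φ (coeff d A)) ∪ (B.support.image fun d => φ (coeff d B))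
  obtain ⟨b, hb⟩ := IsLocalization.exist_integer_multiples_of_finset (nonZeroDivisors A0) W
  let ψ : ℂ → A0 := fun z => if hz : ∃ a : A0, algebraMap A0 F a = (b : A0) • φ z then hz.choose else 0
  have hψ : ∀ z, φ z ∈ W → algebraMap A0 F (ψ z) = (b : A0) • φ z := by
    intro z hz
    have h1 : ∃ a : A0, algebraMap A0 F a = (b : A0) • φ z := hb _ hz
    change algebraMap A0 F (if hz : ∃ a : A0, algebraMap A0 F a = (b : A0) • φ z then hz.choose
      else 0) = _
    rw [dif_pos h1]
    exact h1.choose_spec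
  let Pf : MvPolynomial (Fin 6) ℂ → MvPolynomial (Fin 6) A0 := fun f =>
    ∑ d ∈ f.support, monomial d (ψ (coeff d f))
  have hPf : ∀ f : MvPolynomial (Fin 6) ℂ, (∀ d ∈ f.support, φ (coeff d f) ∈ W) →
      ∀ d, algebraMap A0 F (coeff d (Pf f)) = (b : A0) • φ (coeff d f) := by
    intro f hf d
    change algebraMap A0 F (coeff d (∑ d ∈ f.support, monomial d (ψ (coeff d f)))) = _
    rw [coeff_sum]
    simp only [coeff_monomial]
    rw [Finset.sum_ite_eq' f.support d]
    by_cases hd : d ∈ f.support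
    · rw [if_pos hd, hψ _ (hf d hd)]
    · rw [if_neg hd, map_zero, notMem_support_iff.1 hd, map_zero, smul_zero]
  have hsm : ∀ (a : A0) (z : ℂ), φ (z * ι a) = algebraMap A0 F a * φ z := by
    intro a z
    have h1 : z * ι a = algebraMap A0 F a • z := by
      rw [algebraMap_smul, Algebra.smul_def, mul_comm]
      rfl
    rw [h1, map_smul, smul_eq_mul]
  have hmulc : ∀ (f : MvPolynomial (Fin 6) ℂ), (∀ d ∈ f.support, φ (coeff d f) ∈ W) →
      ∀ (q : MvPolynomial (Fin 6) A0) (d : Fin 6 →₀ ℕ),
      algebraMap A0 F (coeff d (Pf f * q)) = algebraMap A0 F (b : A0) * φ (coeff d (f * map ι q)) := by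
    intro f hf q d
    rw [coeff_mul, coeff_mul, map_sum, map_sum, Finset.mul_sum]
    refine Finset.sum_congr rfl fun p _ => ?_
    rw [map_mul, hPf f hf, coeff_map, hsm, Algebra.smul_def]
    ring
  have hid : ∑ k, C (ψ (c k)) * G k = Pf A * Lo + Pf B * Qo := by
    ext1 d
    apply IsFractionRing.injective A0 F
    rw [coeff_add, map_add, hmulc A, hmulc B, coeff_sum, map_sum]
    · have h1 : ∀ k, algebraMap A0 F (coeff d (C (ψ (c k)) * G k)) =
          algebraMap A0 F (b : A0) * φ (coeff d (C (c k) * map ι (G k))) := by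
        intro k
        rw [coeff_C_mul, coeff_C_mul, map_mul, hψ, coeff_map, hsm, Algebra.smul_def]
        · ring
        · exact Finset.mem_union_left _ (Finset.mem_union_left _
            (Finset.mem_image_of_mem _ (Finset.mem_univ k)))
      rw [Finset.sum_congr rfl fun k _ => h1 k, ← Finset.mul_sum, ← map_sum, ← coeff_sum, h,
        coeff_add, map_add, mul_add]
    · intro d hd
      exact Finset.mem_union_right _ (Finset.mem_image_of_mem _ hd)
    · intro d hd
      exact Finset.mem_union_left _ (Finset.mem_union_right _ (Finset.mem_image_of_mem _ hd))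
  have hne : ψ (c k0) ≠ 0 := by
    intro h0
    have h1 := hψ (c k0) (Finset.mem_union_left _ (Finset.mem_union_left _
            (Finset.mem_image_of_mem _ (Finset.mem_univ k0))))
    rw [h0, map_zero, Algebra.smul_def] at h1
    rcases mul_eq_zero.1 h1.symm with h2 | h2
    · have h3 : (b : A0) = 0 := IsFractionRing.injective A0 F (by rw [h2, map_zero])
      exact nonZeroDivisors.ne_zero b.2 h3
    · exact hφ h2
  obtain ⟨d0, hd0⟩ : ∃ d, coeff d (ψ (c k0)) ≠ 0 := by
    by_contra hcon
    push Not at hcon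
    exact hne (MvPolynomial.ext _ _ fun d => by rw [hcon, coeff_zero])
  have hid2 : ∑ k, sg (C (ψ (c k))) * sg (G k) = 0 := by
    have h1 := congrArg sg hid
    rw [map_add, map_mul, map_mul, sg_Lo, sg_Qo, mul_zero, mul_zero, add_zero, map_sum] at h1
    rw [← h1]
    refine Finset.sum_congr rfl fun k _ => ?_
    rw [map_mul]
  obtain ⟨m, hm1, hm2⟩ := div_out G _ (fun k => ψ (c k)) k0 d0 hd0 le_rfl hid2
  refine ⟨m, hm1, ?_⟩
  intro R _ u x hL hQ
  have h1 := congrArg (ev0 u x) hm2
  rw [map_zero, map_sum] at h1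
  rw [← h1]
  refine Finset.sum_congr rfl fun k _ => ?_
  rw [map_mul, ev0_sg u x hL hQ, ev0_sg u x hL hQ, ev0_C]

end Run7.h164.GM
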