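import Mathlib
import Pool.Agent.Run7.h164.GF
import Pool.Agent.Run7.h164.GG

/-!
# No relation of small degree over the complex numbers
-/

set_option autoImplicit false

namespace Run7.h164.GM

open MvPolynomial

instance fact101 : Fact (Nat.Prime 101) := ⟨by norm_num⟩

/-- the monomials -/
def mon {A : Type} [CommRing A] (t : Ix → A) (x : Fin 6 → A) (N : ℕ) (α : Fin 4 →₀ ℕ)
    (j : ℕ) : A :=
  (∏ i, nn t x i ^ α i) * Dl t x ^ (N - ∑ i, α i) * x 5 ^ j

theorem map_mon {A B : Type} [CommRing A] [CommRing B] (f : A →+* B) (t : Ix → A)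
    (x : Fin 6 → A) (N : ℕ) (α : Fin 4 →₀ ℕ) (j : ℕ) :
    f (mon t x N α j) = mon (fun i => f (t i)) (fun i => f (x i)) N α j := by
  simp only [mon, map_mul, map_prod, map_pow, map_nn, map_Dl]

theorem no_relC (t : Ix → ℂ)
    (ht : Function.Injective (eval₂Hom (Int.castRingHom ℂ) t : A0 →+* ℂ))
    {K : Type} [Field K] [Algebra ℂ K] (ξ : Fin 6 → K)
    (hker : ∀ G : MvPolynomial (Fin 6) ℂ, aeval ξ G = 0 →
      ∃ A B, G = A * Lx (fun i => C (t i)) X + B * Qx (fun i => C (t i)) X)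
    (s : Finset (Fin 4 →₀ ℕ)) (N : ℕ) (hs : ∀ α ∈ s, ∑ i, α i ≤ N)
    (c : Fin 82 → (Fin 4 →₀ ℕ) → ℂ)
    (h : ∑ j : Fin 82, ∑ α ∈ s, algebraMap ℂ K (c j α) *
      mon (fun i => algebraMap ℂ K (t i)) ξ N α j = 0) : ∀ j, ∀ α ∈ s, c j α = 0 := by
  classical
  by_contra hcon
  push Not at hcon
  obtain ⟨j1, α1, hα1, hc1⟩ := hcon
  set ι : A0 →+* ℂ := eval₂Hom (Int.castRingHom ℂ) t with hι
  have hιT : ∀ i, map ι (TT i) = C (t i) := by
    intro i
    rw [TT, map_C, hι, coe_eval₂Hom, eval₂_X]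
  have hιX : ∀ i, map ι (XX i) = X i := by
    intro i
    exact map_X _ _
  let Kx := Fin 82 × s
  let G : Kx → MvPolynomial (Fin 6) A0 := fun k => mon TT XX N k.2.1 k.1
  have hG : ∀ k : Kx, map ι (G k) = mon (fun i => C (t i)) X N k.2.1 k.1 := by
    intro k
    change map ι (mon TT XX N k.2.1 k.1) = _
    rw [map_mon]
    simp only [hιT, hιX]
  have hLo : map ι Lo = Lx (fun i => C (t i)) X := by
    rw [Lo, map_Lx]
    simp only [hιT, hιX]
  have hQo : map ι Qo = Qx (fun i => C (t i)) X := by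
    rw [Qo, map_Qx]
    simp only [hιT, hιX]
  have hval : aeval ξ (∑ k : Kx, C (c k.1 k.2.1) * map ι (G k)) = 0 := by
    rw [map_sum, ← h, Fintype.sum_prod_type]
    refine Finset.sum_congr rfl fun j _ => ?_
    rw [← Finset.sum_coe_sort s]
    refine Finset.sum_congr rfl fun α _ => ?_
    rw [map_mul, aeval_C, hG]
    congr 1
    have h1 := map_mon ((aeval ξ : MvPolynomial (Fin 6) ℂ →ₐ[ℂ] K) : MvPolynomial (Fin 6) ℂ →+* K)
      (fun i => C (t i)) X N α.1 j
    rw [RingHom.coe_coe] at h1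
    rw [h1]
    simp only [RingHom.coe_coe, aeval_C, aeval_X]
  obtain ⟨A, B, hAB⟩ := hker _ hval
  rw [← hLo, ← hQo] at hAB
  obtain ⟨m, hm1, hm2⟩ := descent t ht (fun k : Kx => c k.1 k.2.1) ⟨(j1, ⟨α1, hα1⟩), hc1⟩ G A B hAB
  let κ := AlgebraicClosure (ZMod 101)
  have hchar : CharP κ 101 := charP_of_injective_algebraMap (algebraMap (ZMod 101) κ).injective 101
  obtain ⟨k0, hk0⟩ := hm1
  refine no_rel κ s N hs (fun j α => if hα : α ∈ s then map (Int.castRingHom κ) (m (j, ⟨α, hα⟩))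
    else 0) ⟨k0.1, k0.2.1, k0.2.2, ?_⟩ ?_
  · rw [dif_pos k0.2.2]
    intro h0
    apply hk0
    have h1 : map (algebraMap (ZMod 101) κ) (map (Int.castRingHom (ZMod 101)) (m k0)) = 0 := by
      rw [map_map]
      have h2 : (algebraMap (ZMod 101) κ).comp (Int.castRingHom (ZMod 101)) =
          Int.castRingHom κ := RingHom.ext_int _ _
      rw [h2]
      exact h0
    exact map_injective _ (algebraMap (ZMod 101) κ).injective (by rw [h1, map_zero])
  · intro u x hL hQ
    rw [← hm2 (PowerSeries κ) u x hL hQ, Fintype.sum_prod_type]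
    refine Finset.sum_congr rfl fun j _ => ?_
    rw [← Finset.sum_coe_sort s]
    refine Finset.sum_congr rfl fun α _ => ?_
    rw [dif_pos α.2]
    have h3 : aeval u (map (Int.castRingHom κ) (m (j, α))) =
        eval₂Hom (Int.castRingHom (PowerSeries κ)) u (m (j, α)) := by
      rw [aeval_def, eval₂_map, coe_eval₂Hom]
      congr 1
      exact RingHom.ext_int _ _
    have h4 : ev0 u x (G (j, α)) = mon u x N α.1 j := by
      change ev0 u x (mon TT XX N α.1 j) = _
      rw [map_mon]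
      simp only [ev0_TT, ev0_XX]
    rw [h3, h4]
    rfl

end Run7.h164.GM
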