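import Mathlib
import Pool.Agent.Run7.h164.GH
import Pool.Agent.TH314.PD.Upper

/-!
# The tangent hyperplane at the generic point
-/

set_option autoImplicit false

namespace Run7.h164.GM

open MvPolynomial

section

variable {K : Type} [Field K] [Algebra ℂ K] (t : Ix → ℂ) (ξ : Fin 6 → K)

/-- the hypotheses on the generic point -/
structure Gen : Prop where
  inj : Function.Injective (eval₂Hom (Int.castRingHom ℂ) t : A0 →+* ℂ)
  hL : Lx (fun i => algebraMap ℂ K (t i)) ξ = 0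
  hQ : Qx (fun i => algebraMap ℂ K (t i)) ξ = 0
  ker : ∀ G : MvPolynomial (Fin 6) ℂ, aeval ξ G = 0 →
      ∃ A B, G = A * Lx (fun i => C (t i)) X + B * Qx (fun i => C (t i)) X

/-- the parameters in the field -/
def tK (K : Type) [Field K] [Algebra ℂ K] (t : Ix → ℂ) (i : Ix) : K := algebraMap ℂ K (t i)

/-- the coordinates of the tangent hyperplane -/
noncomputable def Yc (i : Fin 4) : K := nn (tK K t) ξ i / Dl (tK K t) ξ

variable {t ξ}

theorem Dl_ne (h : Gen t ξ) : Dl (tK K t) ξ ≠ 0 := by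
  intro h0
  have h1 := no_relC t h.inj ξ h.ker {0} 1 (by simp)
    (fun j _ => if j = 0 then 1 else 0) (by
      refine Finset.sum_eq_zero fun j _ => ?_
      rw [Finset.sum_singleton]
      have h2 : mon (tK K t) ξ 1 0 (j : ℕ) = 0 := by
        simp [mon, h0]
      change _ * mon (tK K t) ξ 1 0 (j : ℕ) = 0
      rw [h2, mul_zero])
  have h2 := h1 0 0 (Finset.mem_singleton_self _)
  simp at h2

theorem indep (h : Gen t ξ) (a : Fin 82 → MvPolynomial (Fin 4) ℂ)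
    (ha : ∑ j, aeval (Yc t ξ) (a j) * ξ 5 ^ (j : ℕ) = 0) : ∀ j, a j = 0 := by
  classical
  let s : Finset (Fin 4 →₀ ℕ) := Finset.univ.biUnion fun j => (a j).support
  let N : ℕ := s.sup fun α => ∑ i, α i
  have hs : ∀ α ∈ s, ∑ i, α i ≤ N := fun α hα => Finset.le_sup (f := fun α => ∑ i, α i) hα
  have hD := Dl_ne h
  have hmon : ∀ α ∈ s, ∀ j : ℕ, mon (tK K t) ξ N α j =
      Dl (tK K t) ξ ^ N * ((∏ i, Yc t ξ i ^ α i) * ξ 5 ^ j) := by
    intro α hα j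
    have h8 : ∏ i, nn (tK K t) ξ i ^ α i =
        (∏ i, Yc t ξ i ^ α i) * Dl (tK K t) ξ ^ (∑ i, α i) := by
      rw [← Finset.prod_pow_eq_pow_sum, ← Finset.prod_mul_distrib]
      refine Finset.prod_congr rfl fun i _ => ?_
      rw [← mul_pow, Yc, div_mul_cancel₀ _ hD]
    have h9 : Dl (tK K t) ξ ^ N = Dl (tK K t) ξ ^ (∑ i, α i) * Dl (tK K t) ξ ^ (N - ∑ i, α i) := by
      rw [← pow_add, Nat.add_sub_cancel' (hs α hα)]
    rw [mon, h8, h9]
    ring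
  have hev : ∀ j, aeval (Yc t ξ) (a j) = ∑ α ∈ s, algebraMap ℂ K (coeff α (a j)) *
      ∏ i, Yc t ξ i ^ α i := by
    intro j
    have h1 : a j = ∑ α ∈ s, monomial α (coeff α (a j)) := by
      conv_lhs => rw [as_sum (a j)]
      refine Finset.sum_subset (Finset.subset_biUnion_of_mem (fun j => (a j).support)
        (Finset.mem_univ j)) fun α _ hα => ?_
      rw [notMem_support_iff.1 hα, monomial_zero]
    conv_lhs => rw [h1]
    rw [map_sum]
    refine Finset.sum_congr rfl fun α _ => ?_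
    rw [aeval_monomial, Finsupp.prod_fintype _ _ (fun i => pow_zero _)]
  have h1 := no_relC t h.inj ξ h.ker s N hs (fun j α => coeff α (a j)) (by
    have h2 : ∀ j : Fin 82, ∑ α ∈ s, algebraMap ℂ K (coeff α (a j)) *
        mon (tK K t) ξ N α j = Dl (tK K t) ξ ^ N * (aeval (Yc t ξ) (a j) * ξ 5 ^ (j : ℕ)) := by
      intro j
      rw [hev, Finset.sum_mul, Finset.mul_sum]
      refine Finset.sum_congr rfl fun α hα => ?_
      rw [hmon α hα]
      ring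
    change ∑ j : Fin 82, ∑ α ∈ s, algebraMap ℂ K (coeff α (a j)) * mon (tK K t) ξ N α j = 0
    rw [Finset.sum_congr rfl fun j _ => h2 j, ← Finset.mul_sum, ha, mul_zero])
  intro j
  ext α
  rw [coeff_zero]
  by_cases hα : α ∈ (a j).support
  · exact h1 j α (Finset.mem_biUnion.2 ⟨j, Finset.mem_univ j, hα⟩)
  · exact notMem_support_iff.1 hα

theorem algInd (h : Gen t ξ) : AlgebraicIndependent ℂ (Yc t ξ) := by
  rw [algebraicIndependent_iff]
  intro p hp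
  have h1 := indep h (fun j => if j = 0 then p else 0) (by
    rw [Finset.sum_eq_single (0 : Fin 82)]
    · simp [hp]
    · intro b _ hb
      simp [hb]
    · intro hb
      exact absurd (Finset.mem_univ _) hb) 0
  simpa using h1

/-- the equations of Lagrange -/
theorem lagr (h : Gen t ξ) : ∃ l r : K, ∀ i, dp ξ i + yy (Yc t ξ) i =
    r * dQ (tK K t) ξ i + l * dL (tK K t) ξ i := by
  have hD := Dl_ne h
  refine ⟨(dQ (tK K t) ξ 0 * dp ξ 3 - dQ (tK K t) ξ 3 * dp ξ 0) / Dl (tK K t) ξ,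
    (dp ξ 0 * dL (tK K t) ξ 3 - dp ξ 3 * dL (tK K t) ξ 0) / Dl (tK K t) ξ, ?_⟩
  have hi : ∀ i : Fin 4, dp ξ (ix i) + yy (Yc t ξ) (ix i) =
      (dp ξ 0 * dL (tK K t) ξ 3 - dp ξ 3 * dL (tK K t) ξ 0) / Dl (tK K t) ξ *
        dQ (tK K t) ξ (ix i) +
      (dQ (tK K t) ξ 0 * dp ξ 3 - dQ (tK K t) ξ 3 * dp ξ 0) / Dl (tK K t) ξ *
        dL (tK K t) ξ (ix i) := by
    intro i
    rw [yy_ix, Yc, nn]
    field_simp
    ring
  have h0 : dp ξ 0 + yy (Yc t ξ) 0 =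
      (dp ξ 0 * dL (tK K t) ξ 3 - dp ξ 3 * dL (tK K t) ξ 0) / Dl (tK K t) ξ *
        dQ (tK K t) ξ 0 +
      (dQ (tK K t) ξ 0 * dp ξ 3 - dQ (tK K t) ξ 3 * dp ξ 0) / Dl (tK K t) ξ *
        dL (tK K t) ξ 0 := by
    have h1 : yy (Yc t ξ) 0 = 0 := rfl
    rw [h1, div_mul_eq_mul_div, div_mul_eq_mul_div, ← add_div, eq_div_iff hD, Dl]
    ring
  have h3 : dp ξ 3 + yy (Yc t ξ) 3 =
      (dp ξ 0 * dL (tK K t) ξ 3 - dp ξ 3 * dL (tK K t) ξ 0) / Dl (tK K t) ξ *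
        dQ (tK K t) ξ 3 +
      (dQ (tK K t) ξ 0 * dp ξ 3 - dQ (tK K t) ξ 3 * dp ξ 0) / Dl (tK K t) ξ *
        dL (tK K t) ξ 3 := by
    have h1 : yy (Yc t ξ) 3 = 0 := rfl
    rw [h1, div_mul_eq_mul_div, div_mul_eq_mul_div, ← add_div, eq_div_iff hD, Dl]
    ring
  intro i
  fin_cases i
  · exact h0
  · exact hi 0
  · exact hi 1
  · exact h3
  · exact hi 2
  · exact hi 3

theorem der_L (h : Gen t ξ) (δ : Derivation ℂ K K) :
    ∑ i, δ (ξ i) * dL (tK K t) ξ i = 0 := by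
  have h1 := der_Lx δ (tK K t) (fun i => δ.map_algebraMap _) ξ
  rw [dLx_sum] at h1
  have h2 : Lx (tK K t) ξ = 0 := h.hL
  rw [h2, map_zero] at h1
  exact h1.symm

theorem der_Q (h : Gen t ξ) (δ : Derivation ℂ K K) :
    ∑ i, δ (ξ i) * dQ (tK K t) ξ i = 0 := by
  have h1 := der_Qx δ (tK K t) (fun i => δ.map_algebraMap _) ξ
  rw [dQx_sum] at h1
  have h2 : Qx (tK K t) ξ = 0 := h.hQ
  rw [h2, map_zero] at h1
  exact h1.symm

/-- the tangent hyperplane -/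
theorem tang (h : Gen t ξ) (δ : Derivation ℂ K K) :
    δ (px ξ) + ∑ i, Yc t ξ i * δ (ξ (ix i)) = 0 := by
  obtain ⟨l, r, hlr⟩ := lagr h
  have h1 : ∑ i, Yc t ξ i * δ (ξ (ix i)) = ∑ i, yy (Yc t ξ) i * δ (ξ i) := by
    rw [Fin.sum_univ_four, Fin.sum_univ_six]
    change Yc t ξ 0 * δ (ξ 1) + Yc t ξ 1 * δ (ξ 2) + Yc t ξ 2 * δ (ξ 4) + Yc t ξ 3 * δ (ξ 5) =
      0 * δ (ξ 0) + Yc t ξ 0 * δ (ξ 1) + Yc t ξ 1 * δ (ξ 2) + 0 * δ (ξ 3) +
        Yc t ξ 2 * δ (ξ 4) + Yc t ξ 3 * δ (ξ 5)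
    ring
  rw [h1, der_px, dpx_sum, ← Finset.sum_add_distrib]
  have h2 : ∀ i, δ (ξ i) * dpx ξ (Pi.single i 1) + yy (Yc t ξ) i * δ (ξ i) =
      r * (δ (ξ i) * dQ (tK K t) ξ i) + l * (δ (ξ i) * dL (tK K t) ξ i) := by
    intro i
    have h3 := hlr i
    rw [dp] at h3
    linear_combination δ (ξ i) * h3
  rw [Finset.sum_congr rfl fun i _ => h2 i, Finset.sum_add_distrib, ← Finset.mul_sum,
    ← Finset.mul_sum, der_L h, der_Q h, mul_zero, mul_zero, add_zero]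

/-- a derivation which kills the four coordinates kills all -/
theorem der_zero (h : Gen t ξ) (δ : Derivation ℂ K K) (hδ : ∀ i, δ (ξ (ix i)) = 0) :
    ∀ i, δ (ξ i) = 0 := by
  have h1 : δ (ξ 1) = 0 := hδ 0
  have h2 : δ (ξ 2) = 0 := hδ 1
  have h4 : δ (ξ 4) = 0 := hδ 2
  have h5 : δ (ξ 5) = 0 := hδ 3
  have hL := der_L h δ
  have hQ := der_Q h δ
  rw [Fin.sum_univ_six, h1, h2, h4, h5] at hL hQ
  have hD := Dl_ne h
  have h0 : δ (ξ 0) = 0 := by
    have h6 : δ (ξ 0) * Dl (tK K t) ξ = 0 := by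
      rw [Dl]
      linear_combination dL (tK K t) ξ 3 * hQ - dQ (tK K t) ξ 3 * hL
    rcases mul_eq_zero.1 h6 with h7 | h7
    · exact h7
    · exact absurd h7 hD
  have h3 : δ (ξ 3) = 0 := by
    have h6 : δ (ξ 3) * Dl (tK K t) ξ = 0 := by
      rw [Dl]
      linear_combination dQ (tK K t) ξ 0 * hL - dL (tK K t) ξ 0 * hQ
    rcases mul_eq_zero.1 h6 with h7 | h7
    · exact h7
    · exact absurd h7 hD
  intro i
  fin_cases i
  · exact h0
  · exact h1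
  · exact h2
  · exact h3
  · exact h4
  · exact h5

end

end Run7.h164.GM
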