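import Mathlib
import Pool.Agent.Run7.h164.GI

/-!
# The inequality
-/

set_option autoImplicit false

namespace Run7.h164.GM

open MvPolynomial Pool.Agent

section

variable {K : Type} [Field K] [Algebra ℂ K] {t : Ix → ℂ} {ξ : Fin 6 → K}

/-- the field generated by the tangent hyperplane -/
noncomputable def LY (K : Type) [Field K] [Algebra ℂ K] (t : Ix → ℂ) (ξ : Fin 6 → K) :
    IntermediateField ℂ K :=
  IntermediateField.adjoin ℂ (Set.range (Yc t ξ))

theorem mem_E (f : MvPolynomial (Fin 6) ℂ) :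
    aeval ξ f ∈ IntermediateField.adjoin ℂ (Set.range ξ) := by
  induction f using MvPolynomial.induction_on with
  | C a =>
    rw [aeval_C]
    exact (IntermediateField.adjoin ℂ (Set.range ξ)).algebraMap_mem a
  | add f g hf hg =>
    rw [map_add]
    exact add_mem hf hg
  | mul_X f i hf =>
    rw [map_mul, aeval_X]
    exact mul_mem hf (IntermediateField.subset_adjoin _ _ ⟨i, rfl⟩)

theorem aeval_nn (i : Fin 4) : aeval ξ (nn (fun i => C (t i)) X i : MvPolynomial (Fin 6) ℂ) =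
    nn (tK K t) ξ i := by
  have h1 := map_nn ((aeval ξ : MvPolynomial (Fin 6) ℂ →ₐ[ℂ] K) : MvPolynomial (Fin 6) ℂ →+* K)
      (fun i => C (t i)) X i
  rw [RingHom.coe_coe] at h1
  rw [h1]
  simp only [aeval_C, aeval_X]
  rfl

theorem aeval_Dl : aeval ξ (Dl (fun i => C (t i)) X : MvPolynomial (Fin 6) ℂ) =
    Dl (tK K t) ξ := by
  have h1 := map_Dl ((aeval ξ : MvPolynomial (Fin 6) ℂ →ₐ[ℂ] K) : MvPolynomial (Fin 6) ℂ →+* K)
      (fun i => C (t i)) X
  rw [RingHom.coe_coe] at h1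
  rw [h1]
  simp only [aeval_C, aeval_X]
  rfl

theorem LY_le : LY K t ξ ≤ IntermediateField.adjoin ℂ (Set.range ξ) := by
  rw [LY, IntermediateField.adjoin_le_iff]
  rintro _ ⟨i, rfl⟩
  rw [Yc, ← aeval_nn, ← aeval_Dl]
  exact div_mem (mem_E _) (mem_E _)

/-- the lower bound -/
theorem lower (h : Gen t ξ) (M : IntermediateField (LY K t ξ) K) [FiniteDimensional (LY K t ξ) M]
    (hM : ξ 5 ∈ M) : 82 ≤ Module.finrank (LY K t ξ) M := by
  classical
  have hli : LinearIndependent (LY K t ξ) (fun j : Fin 82 => (⟨ξ 5, hM⟩ : M) ^ (j : ℕ)) := by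
    rw [Fintype.linearIndependent_iff]
    intro g hg
    have h1 : ∀ j, ∃ r s : MvPolynomial (Fin 4) ℂ, aeval (Yc t ξ) s ≠ 0 ∧
        ((g j : LY K t ξ) : K) * aeval (Yc t ξ) s = aeval (Yc t ξ) r := by
      intro j
      obtain ⟨r, s, hrs⟩ := (IntermediateField.mem_adjoin_range_iff ℂ (Yc t ξ) (g j : K)).1 (g j).2
      by_cases hs : aeval (Yc t ξ) s = 0
      · refine ⟨0, 1, by rw [map_one]; exact one_ne_zero, ?_⟩
        rw [hrs, hs, div_zero, map_zero, zero_mul]
      · exact ⟨r, s, hs, by rw [hrs, div_mul_cancel₀ _ hs]⟩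
    choose r s hs hrs using h1
    have h2 : ∑ j : Fin 82, (g j : K) * ξ 5 ^ (j : ℕ) = 0 := by
      have h3 := congrArg (fun z : M => (z : K)) hg
      simp only [AddSubmonoidClass.coe_finsetSum, ZeroMemClass.coe_zero] at h3
      rw [← h3]
      refine Finset.sum_congr rfl fun j _ => ?_
      rfl
    have h4 := indep h (fun j => r j * ∏ i ∈ Finset.univ.erase j, s i) (by
      have h5 : ∀ j : Fin 82, aeval (Yc t ξ) (r j * ∏ i ∈ Finset.univ.erase j, s i) *
          ξ 5 ^ (j : ℕ) = (∏ i, aeval (Yc t ξ) (s i)) * ((g j : K) * ξ 5 ^ (j : ℕ)) := by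
        intro j
        rw [map_mul, map_prod, ← hrs j, ← Finset.mul_prod_erase Finset.univ _ (Finset.mem_univ j)]
        ring
      rw [Finset.sum_congr rfl fun j _ => h5 j, ← Finset.mul_sum, h2, mul_zero])
    intro j
    have h6 := congrArg (aeval (Yc t ξ)) (h4 j)
    rw [map_mul, map_prod, map_zero] at h6
    have h7 : ∏ i ∈ Finset.univ.erase j, aeval (Yc t ξ) (s i) ≠ 0 :=
      Finset.prod_ne_zero_iff.2 fun i _ => hs i
    have h8 : aeval (Yc t ξ) (r j) = 0 := by
      rcases mul_eq_zero.1 h6 with h9 | h9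
      · exact h9
      · exact absurd h9 h7
    rw [← hrs j] at h8
    rcases mul_eq_zero.1 h8 with h9 | h9
    · exact Subtype.ext h9
    · exact absurd h9 (hs j)
  have h10 := hli.fintype_card_le_finrank
  rwa [Fintype.card_fin] at h10

end

/-- the field of rational functions in four variables -/
abbrev KK := FractionRing (MvPolynomial (Fin 4) ℂ)

noncomputable def al : MvPolynomial (Fin 4) ℂ →ₐ[ℂ] KK :=
  IsScalarTower.toAlgHom ℂ (MvPolynomial (Fin 4) ℂ) KK

theorem al_inj : Function.Injective al :=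
  IsFractionRing.injective (MvPolynomial (Fin 4) ℂ) KK

theorem al_basis : IsTranscendenceBasis ℂ (fun l : Fin 4 => al (X l)) := by
  have : Algebra.IsAlgebraic (MvPolynomial (Fin 4) ℂ) KK :=
    (IsFractionRing.comap_isAlgebraic_iff (K := KK)).2 inferInstance
  exact (IsTranscendenceBasis.mvPolynomial (Fin 4) ℂ).algebraMap_comp (A := KK)

theorem al_frac (z : KK) : ∃ a b, z = al a / al b := by
  obtain ⟨a, b, h⟩ := IsFractionRing.div_surjective (A := MvPolynomial (Fin 4) ℂ) z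
  exact ⟨a, b, h.2.symm⟩

instance charKK : CharZero KK := algebraRat.charZero _

theorem alg_LY {t : Ix → ℂ} {ξ : Fin 6 → KK} (h : Gen t ξ) :
    Algebra.IsAlgebraic (LY KK t ξ) KK := by
  have htr : Algebra.trdeg ℂ KK = 4 := by
    have := al_basis.cardinalMk_eq_trdeg
    rw [← this, Cardinal.mk_fin]
    rfl
  have hbas : IsTranscendenceBasis ℂ (Yc t ξ) :=
    (algInd h).isTranscendenceBasis_of_trdeg_le_of_finite (by rw [htr, Cardinal.mk_fin]; rfl)
  exact hbas.isAlgebraic_field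

/-- the six polynomials -/
noncomputable def Gm (g : Sx → MvPolynomial (Fin 4) ℂ) : Fin 6 → MvPolynomial (Fin 4) ℂ :=
  ![g ⟨(2, 4), by decide⟩, - g ⟨(1, 3), by decide⟩, - g ⟨(1, 4), by decide⟩,
    g ⟨(0, 3), by decide⟩, g ⟨(0, 4), by decide⟩, g ⟨(0, 1), by decide⟩]

/-- the six functions -/
noncomputable def zz (ξ : Fin 6 → KK) : Fin 6 → KK := ![px ξ, ξ 1, ξ 2, ξ 4, ξ 5, 1]

noncomputable def YY (t : Ix → ℂ) (ξ : Fin 6 → KK) : Fin 6 → KK :=
  ![1, Yc t ξ 0, Yc t ξ 1, Yc t ξ 2, Yc t ξ 3,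
    -(px ξ + (Yc t ξ 0 * ξ 1 + Yc t ξ 1 * ξ 2 + Yc t ξ 2 * ξ 4 + Yc t ξ 3 * ξ 5))]

theorem al_Gm {ξ : Fin 6 → KK} {g : Sx → MvPolynomial (Fin 4) ℂ}
    (hrel : ∀ s, pl ξ s * al (g s01) = al (g s)) (j : Fin 6) :
    al (Gm g j) = zz ξ j * al (g s01) := by
  have e : ∀ s, al (g s) = pl ξ s * al (g s01) := fun s => (hrel s).symm
  fin_cases j
  · change al (g ⟨(2, 4), by decide⟩) = px ξ * al (g s01)
    rw [e]
    simp [pl, Am, px]
  · change al (- g ⟨(1, 3), by decide⟩) = ξ 1 * al (g s01)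
    rw [map_neg, e]
    simp [pl, Am]
  · change al (- g ⟨(1, 4), by decide⟩) = ξ 2 * al (g s01)
    rw [map_neg, e]
    simp [pl, Am]
  · change al (g ⟨(0, 3), by decide⟩) = ξ 4 * al (g s01)
    rw [e]
    simp [pl, Am]
  · change al (g ⟨(0, 4), by decide⟩) = ξ 5 * al (g s01)
    rw [e]
    simp [pl, Am]
  · change al (g ⟨(0, 1), by decide⟩) = 1 * al (g s01)
    rw [one_mul]
    rfl

theorem upperB {t : Ix → ℂ} {ξ : Fin 6 → KK} (h : Gen t ξ) {g : Sx → MvPolynomial (Fin 4) ℂ}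
    {k : ℕ} (hk : 0 < k) (hdeg : ∀ s, (g s).totalDegree ≤ k) (hg0 : g s01 ≠ 0)
    (hrel : ∀ s, pl ξ s * al (g s01) = al (g s)) :
    Module.finrank (LY KK t ξ) KK ≤ 5 * (k - 1) ^ 4 := by
  have hG0 : al (g s01) ≠ 0 := fun h0 => hg0 (al_inj (by rw [h0, map_zero]))
  let p : Fin 5 → MvPolynomial (Fin 6) ℂ := fun j => X j.castSucc
  have hPP : ∀ j, TH314.PD.PP (YY t ξ) p j = YY t ξ j.castSucc := by
    intro j
    change aeval (YY t ξ) (X j.castSucc) = _
    rw [aeval_X]
  have hyy : ∀ j : Fin 5, TH314.PD.yy (YY t ξ) p j = YY t ξ j.castSucc := by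
    intro j
    change TH314.PD.PP (YY t ξ) p j / TH314.PD.PP (YY t ξ) p 0 = _
    rw [hPP, hPP]
    have h1 : YY t ξ (Fin.castSucc (0 : Fin 5)) = 1 := rfl
    rw [h1, div_one]
  have hLL : TH314.PD.LL (YY t ξ) p = LY KK t ξ := by
    apply le_antisymm
    · rw [TH314.PD.LL, IntermediateField.adjoin_le_iff]
      rintro _ ⟨j, rfl⟩
      rw [hyy]
      fin_cases j
      · exact one_mem _
      · exact IntermediateField.subset_adjoin _ _ ⟨0, rfl⟩
      · exact IntermediateField.subset_adjoin _ _ ⟨1, rfl⟩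
      · exact IntermediateField.subset_adjoin _ _ ⟨2, rfl⟩
      · exact IntermediateField.subset_adjoin _ _ ⟨3, rfl⟩
    · rw [LY, IntermediateField.adjoin_le_iff]
      rintro _ ⟨i, rfl⟩
      refine IntermediateField.subset_adjoin _ _ ⟨i.succ, ?_⟩
      rw [hyy]
      fin_cases i <;> rfl
  have halg : Algebra.IsAlgebraic (TH314.PD.LL (YY t ξ) p) KK := by
    rw [hLL]
    exact alg_LY h
  rw [← hLL]
  have hsum : ∀ δ : Derivation ℂ KK KK, ∑ j, YY t ξ j * δ (al (Gm g j)) = 0 := by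
    intro δ
    have h1 : ∀ j, YY t ξ j * δ (al (Gm g j)) = (YY t ξ j * zz ξ j) * δ (al (g s01)) +
        (YY t ξ j * δ (zz ξ j)) * al (g s01) := by
      intro j
      rw [al_Gm hrel, Derivation.leibniz, smul_eq_mul, smul_eq_mul]
      ring
    rw [Finset.sum_congr rfl fun j _ => h1 j, Finset.sum_add_distrib, ← Finset.sum_mul,
      ← Finset.sum_mul]
    have h2 : ∑ j, YY t ξ j * zz ξ j = 0 := by
      rw [Fin.sum_univ_six]
      change 1 * px ξ + Yc t ξ 0 * ξ 1 + Yc t ξ 1 * ξ 2 + Yc t ξ 2 * ξ 4 + Yc t ξ 3 * ξ 5 +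
        (-(px ξ + (Yc t ξ 0 * ξ 1 + Yc t ξ 1 * ξ 2 + Yc t ξ 2 * ξ 4 + Yc t ξ 3 * ξ 5))) * 1 = 0
      ring
    have h3 : ∑ j, YY t ξ j * δ (zz ξ j) = 0 := by
      have h4 := tang h δ
      rw [Fin.sum_univ_four] at h4
      rw [Fin.sum_univ_six]
      change 1 * δ (px ξ) + Yc t ξ 0 * δ (ξ 1) + Yc t ξ 1 * δ (ξ 2) + Yc t ξ 2 * δ (ξ 4) +
        Yc t ξ 3 * δ (ξ 5) + _ * δ 1 = 0
      rw [Derivation.map_one_eq_zero, mul_zero, one_mul, add_zero]
      have h5 : δ (px ξ) + (Yc t ξ 0 * δ (ξ 1) + Yc t ξ 1 * δ (ξ 2) + Yc t ξ 2 * δ (ξ 4) +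
        Yc t ξ 3 * δ (ξ 5)) = 0 := h4
      linear_combination h5
    rw [h2, h3]
    ring
  refine TH314.PD.upper (n := 4) (k := k) al al_inj al_basis al_frac (Gm g) ?_ (YY t ξ) p (YY t ξ)
    rfl (fun j => (hyy j).symm) ?_ ?_ ?_ hk ?_
  · intro j
    fin_cases j
    · exact hdeg _
    · change (- g ⟨(1, 3), by decide⟩).totalDegree ≤ k
      rw [totalDegree_neg]
      exact hdeg _
    · change (- g ⟨(1, 4), by decide⟩).totalDegree ≤ k
      rw [totalDegree_neg]
      exact hdeg _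
    · exact hdeg _
    · exact hdeg _
    · exact hdeg _
  · have h1 : ∀ j, YY t ξ j * al (Gm g j) = (YY t ξ j * zz ξ j) * al (g s01) := by
      intro j
      rw [al_Gm hrel]
      ring
    rw [Finset.sum_congr rfl fun j _ => h1 j, ← Finset.sum_mul]
    have h2 : ∑ j, YY t ξ j * zz ξ j = 0 := by
      rw [Fin.sum_univ_six]
      change 1 * px ξ + Yc t ξ 0 * ξ 1 + Yc t ξ 1 * ξ 2 + Yc t ξ 2 * ξ 4 + Yc t ξ 3 * ξ 5 +
        (-(px ξ + (Yc t ξ 0 * ξ 1 + Yc t ξ 1 * ξ 2 + Yc t ξ 2 * ξ 4 + Yc t ξ 3 * ξ 5))) * 1 = 0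
      ring
    rw [h2, zero_mul]
  · intro l
    obtain ⟨δ, hδ⟩ := TH314.PD.exists_der' al al_basis (Pi.single l 1)
    have h1 := hsum δ
    have h2 : ∀ f : MvPolynomial (Fin 4) ℂ, δ (al f) = al (pderiv l f) := by
      intro f
      rw [hδ, Finset.sum_eq_single l]
      · rw [Pi.single_eq_same, one_mul]
      · intro b _ hb
        rw [Pi.single_eq_of_ne hb, zero_mul]
      · intro hb
        exact absurd (Finset.mem_univ _) hb
    rw [← h1]
    exact Finset.sum_congr rfl fun j _ => by rw [h2]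
  · exact hg0
  · intro a w haw
    obtain ⟨δ, hδ⟩ := TH314.PD.exists_der' al al_basis w
    have h1 : ∀ j, a * al (Gm g j) + δ (al (Gm g j)) = 0 := by
      intro j
      rw [hδ]
      exact haw j
    have h5 : a * al (g s01) + δ (al (g s01)) = 0 := h1 5
    have hz : ∀ j, δ (zz ξ j) = 0 := by
      intro j
      have h2 := h1 j
      rw [al_Gm hrel, Derivation.leibniz, smul_eq_mul, smul_eq_mul] at h2
      have h3 : al (g s01) * δ (zz ξ j) = 0 := by linear_combination h2 - zz ξ j * h5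
      rcases mul_eq_zero.1 h3 with h4 | h4
      · exact absurd h4 hG0
      · exact h4
    have hξ := der_zero h δ (fun i => by
      fin_cases i
      · exact hz 1
      · exact hz 2
      · exact hz 3
      · exact hz 4)
    have hle : IntermediateField.adjoin ℂ (Set.range ξ) ≤ W602.GT.consts δ := by
      rw [IntermediateField.adjoin_le_iff]
      rintro _ ⟨i, rfl⟩
      exact hξ i
    have h6 : δ = 0 := by
      refine W602.GT.der_eq_zero δ (Set.range (Yc t ξ)) (alg_LY h) ?_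
      rintro _ ⟨i, rfl⟩
      exact hle (LY_le (IntermediateField.subset_adjoin _ _ ⟨i, rfl⟩))
    constructor
    · rw [h6, Derivation.zero_apply, add_zero] at h5
      rcases mul_eq_zero.1 h5 with h7 | h7
      · exact h7
      · exact absurd h7 hG0
    · funext l
      have h12 := hδ (X l)
      rw [h6, Derivation.zero_apply, Finset.sum_eq_single l] at h12
      · rw [pderiv_X_self, map_one, mul_one] at h12
        exact h12.symm
      · intro b _ hb'
        rw [pderiv_X_of_ne (Ne.symm hb'), map_zero, mul_zero]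
      · intro h
        exact absurd (Finset.mem_univ _) h

theorem main {t : Ix → ℂ} {ξ : Fin 6 → KK} (h : Gen t ξ) {g : Sx → MvPolynomial (Fin 4) ℂ}
    {k : ℕ} (hdeg : ∀ s, (g s).totalDegree ≤ k) (hg0 : g s01 ≠ 0)
    (hrel : ∀ s, pl ξ s * al (g s01) = al (g s)) :
    FiniteDimensional (IntermediateField.adjoin ℂ (Set.range ξ)) KK ∧
      Module.finrank (IntermediateField.adjoin ℂ (Set.range ξ)) KK * 82 ≤ 5 * (k - 1) ^ 4 := by
  wlog hk : 0 < k generalizing k
  · have h1 := this (k := 1) (fun i => (hdeg i).trans (by omega)) one_pos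
    have hk0 : k = 0 := by omega
    subst hk0
    exact h1
  have halg := alg_LY h
  have hfd : FiniteDimensional (LY KK t ξ) KK := TH314.PD.finite_dim al al_frac (LY KK t ξ)
  have hup := upperB h hk hdeg hg0 hrel
  let M : IntermediateField (LY KK t ξ) KK := IntermediateField.extendScalars (LY_le (t := t) (ξ := ξ))
  have hMfd : FiniteDimensional (LY KK t ξ) M := inferInstance
  have hlow : 82 ≤ Module.finrank (LY KK t ξ) M := lower h M (by
    rw [IntermediateField.mem_extendScalars]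
    exact IntermediateField.subset_adjoin _ _ ⟨5, rfl⟩)
  have htow := Module.finrank_mul_finrank (LY KK t ξ) M KK
  have hMK : FiniteDimensional M KK := Module.Finite.right (LY KK t ξ) M KK
  refine ⟨hMK, ?_⟩
  have hfin : Module.finrank (IntermediateField.adjoin ℂ (Set.range ξ)) KK =
    Module.finrank M KK := rfl
  rw [hfin]
  calc Module.finrank M KK * 82
      ≤ Module.finrank M KK * Module.finrank (LY KK t ξ) M := Nat.mul_le_mul_left _ hlow
    _ = Module.finrank (LY KK t ξ) KK := by rw [mul_comm, htow]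
    _ ≤ 5 * (k - 1) ^ 4 := hup

end Run7.h164.GM
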