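import Mathlib
import Pool.Agent.Run7.h164.GJ
import Pool.Agent.TH314.PD.Restr2

/-!
# Any number of parameters
-/

set_option autoImplicit false

namespace Run7.h164.GM

open MvPolynomial Pool.Agent
open scoped IntermediateField.algebraAdjoinAdjoin

section Alg

variable {K : Type} [Field K] [Algebra ℂ K] {t : Ix → ℂ} {ξ : Fin 6 → K}

/-- all the coordinates are algebraic over the four coordinates -/
theorem alg_coord [CharZero K] (h : Gen t ξ) (i : Fin 6) :
    IsAlgebraic (IntermediateField.adjoin ℂ (Set.range (ξ ∘ ix))) (ξ i) := by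
  by_contra hcon
  set F := IntermediateField.adjoin ℂ (Set.range (ξ ∘ ix)) with hF
  have h1 : AlgebraicIndependent F (fun _ : Unit => ξ i) := by
    rw [algebraicIndependent_unique_type_iff]
    exact hcon
  obtain ⟨B, hB1, hB2⟩ := exists_isTranscendenceBasis_superset (R := F) h1.coe_range
  have hmem : ξ i ∈ B := hB1 ⟨(), rfl⟩
  obtain ⟨D, hD⟩ := W602.GT.exists_der (fun b : B => (b : K)) hB2 fun _ => 1
  let δ : Derivation ℂ K K := D.restrictScalars ℂ
  have h2 : ∀ j : Fin 4, δ (ξ (ix j)) = 0 := by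
    intro j
    have hm : ξ (ix j) ∈ F := IntermediateField.subset_adjoin _ _ ⟨j, rfl⟩
    exact D.map_algebraMap (⟨ξ (ix j), hm⟩ : F)
  have h3 := der_zero h δ h2 i
  have h4 : D (ξ i) = 1 := hD ⟨ξ i, hmem⟩
  have h5 : D (ξ i) = 0 := h3
  rw [h4] at h5
  exact one_ne_zero h5

theorem alg_all [CharZero K] (h : Gen t ξ) (G : MvPolynomial (Fin 6) ℂ) :
    IsAlgebraic (IntermediateField.adjoin ℂ (Set.range (ξ ∘ ix))) (aeval ξ G) := by
  set F := IntermediateField.adjoin ℂ (Set.range (ξ ∘ ix)) with hF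
  induction G using MvPolynomial.induction_on with
  | C a =>
    rw [aeval_C, IsScalarTower.algebraMap_apply ℂ F K]
    exact isAlgebraic_algebraMap _
  | add p q hp hq =>
    rw [map_add]
    exact hp.add hq
  | mul_X p i hp =>
    rw [map_mul, aeval_X]
    exact hp.mul (alg_coord h i)

/-- an equation with nonzero constant term -/
theorem eqn [CharZero K] (h : Gen t ξ) (G : MvPolynomial (Fin 6) ℂ) (hG : aeval ξ G ≠ 0) :
    ∃ (n : ℕ) (a : ℕ → MvPolynomial (Fin 4) ℂ), a 0 ≠ 0 ∧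
      aeval ξ (∑ j ∈ Finset.range n, rename ix (a j) * G ^ j) = 0 ∧ 0 < n := by
  classical
  have h1 := alg_all h G
  have h2 : IsAlgebraic (Algebra.adjoin ℂ (Set.range (ξ ∘ ix))) (aeval ξ G) := by
    exact (IsFractionRing.isAlgebraic_iff (Algebra.adjoin ℂ (Set.range (ξ ∘ ix)))
      (IntermediateField.adjoin ℂ (Set.range (ξ ∘ ix))) K).2 h1
  obtain ⟨q, hq0, hq⟩ := h2.exists_nonzero_coeff_and_aeval_eq_zero
    (mem_nonZeroDivisors_of_ne_zero hG)
  have h3' : ∀ z ∈ Algebra.adjoin ℂ (Set.range (ξ ∘ ix)), ∃ a : MvPolynomial (Fin 4) ℂ,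
      aeval (ξ ∘ ix) a = z := by
    intro z hz
    rw [Algebra.adjoin_range_eq_range_aeval] at hz
    exact hz
  have h3 : ∀ j, ∃ a : MvPolynomial (Fin 4) ℂ, aeval (ξ ∘ ix) a = (q.coeff j : K) :=
    fun j => h3' _ (q.coeff j).2
  choose a ha using h3
  refine ⟨q.natDegree + 1, a, ?_, ?_, Nat.succ_pos _⟩
  · intro h0
    apply hq0
    apply Subtype.ext
    change (q.coeff 0 : K) = 0
    rw [← ha, h0, map_zero]
  · rw [Polynomial.aeval_eq_sum_range] at hq
    rw [map_sum, ← hq]
    refine Finset.sum_congr rfl fun j _ => ?_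
    rw [map_mul, map_pow, aeval_rename, ha, Algebra.smul_def]
    rfl

end Alg

end Run7.h164.GM
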