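import Mathlib
import Pool.Agent.Run7.h164.GL
import Pool.Agent.Y196.Sp.Newt

/-!
# The inequality for polynomials in a given space
-/

set_option autoImplicit false

namespace Run7.h164.GM

open MvPolynomial Pool.Agent

theorem upperG {t : Ix → ℂ} {ξ : Fin 6 → KK} (h : Gen t ξ) {g : Sx → MvPolynomial (Fin 4) ℂ}
    (V : Submodule ℂ (MvPolynomial (Fin 4) ℂ)) {B : ℝ} (hUp : Y196.Sp.UpB V al B)
    (hV : ∀ s, g s ∈ V) (hg0 : g s01 ≠ 0)
    (hrel : ∀ s, pl ξ s * al (g s01) = al (g s)) :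
    (Module.finrank (LY KK t ξ) KK : ℝ) ≤ B := by
  have hG0 : al (g s01) ≠ 0 := fun h0 => hg0 (al_inj (by rw [h0, map_zero]))
  let p : Fin 5 → MvPolynomial (Fin 6) ℂ := fun j => X j.castSucc
  have hPP : ∀ j, TH314.PD.PP (YY t ξ) p j = YY t ξ j.castSucc := by
    intro j
    change aeval (YY t ξ) (X j.castSucc) = _
    rw [aeval_X]
  have hyy : ∀ j : Fin 5, TH314.PD.yy (YY t ξ) p j = YY t ξ j.castSucc := by
    intro j
    change TH314.PD.PP (YY t ξ) p j / TH314.PD.PP (YY t ξ) p 0 = _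
    rw [hPP, hPP]
    have h1 : YY t ξ (Fin.castSucc (0 : Fin 5)) = 1 := rfl
    rw [h1, div_one]
  have hLL : TH314.PD.LL (YY t ξ) p = LY KK t ξ := by
    apply le_antisymm
    · rw [TH314.PD.LL, IntermediateField.adjoin_le_iff]
      rintro _ ⟨j, rfl⟩
      rw [hyy]
      fin_cases j
      · exact one_mem _
      · exact IntermediateField.subset_adjoin _ _ ⟨0, rfl⟩
      · exact IntermediateField.subset_adjoin _ _ ⟨1, rfl⟩
      · exact IntermediateField.subset_adjoin _ _ ⟨2, rfl⟩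
      · exact IntermediateField.subset_adjoin _ _ ⟨3, rfl⟩
    · rw [LY, IntermediateField.adjoin_le_iff]
      rintro _ ⟨i, rfl⟩
      refine IntermediateField.subset_adjoin _ _ ⟨i.succ, ?_⟩
      rw [hyy]
      fin_cases i <;> rfl
  have halg : Algebra.IsAlgebraic (TH314.PD.LL (YY t ξ) p) KK := by
    rw [hLL]
    exact alg_LY h
  rw [← hLL]
  have hsum : ∀ δ : Derivation ℂ KK KK, ∑ j, YY t ξ j * δ (al (Gm g j)) = 0 := by
    intro δ
    have h1 : ∀ j, YY t ξ j * δ (al (Gm g j)) = (YY t ξ j * zz ξ j) * δ (al (g s01)) +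
        (YY t ξ j * δ (zz ξ j)) * al (g s01) := by
      intro j
      rw [al_Gm hrel, Derivation.leibniz, smul_eq_mul, smul_eq_mul]
      ring
    rw [Finset.sum_congr rfl fun j _ => h1 j, Finset.sum_add_distrib, ← Finset.sum_mul,
      ← Finset.sum_mul]
    have h2 : ∑ j, YY t ξ j * zz ξ j = 0 := by
      rw [Fin.sum_univ_six]
      change 1 * px ξ + Yc t ξ 0 * ξ 1 + Yc t ξ 1 * ξ 2 + Yc t ξ 2 * ξ 4 + Yc t ξ 3 * ξ 5 +
        (-(px ξ + (Yc t ξ 0 * ξ 1 + Yc t ξ 1 * ξ 2 + Yc t ξ 2 * ξ 4 + Yc t ξ 3 * ξ 5))) * 1 = 0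
      ring
    have h3 : ∑ j, YY t ξ j * δ (zz ξ j) = 0 := by
      have h4 := tang h δ
      rw [Fin.sum_univ_four] at h4
      rw [Fin.sum_univ_six]
      change 1 * δ (px ξ) + Yc t ξ 0 * δ (ξ 1) + Yc t ξ 1 * δ (ξ 2) + Yc t ξ 2 * δ (ξ 4) +
        Yc t ξ 3 * δ (ξ 5) + _ * δ 1 = 0
      rw [Derivation.map_one_eq_zero, mul_zero, one_mul, add_zero]
      have h5 : δ (px ξ) + (Yc t ξ 0 * δ (ξ 1) + Yc t ξ 1 * δ (ξ 2) + Yc t ξ 2 * δ (ξ 4) +
        Yc t ξ 3 * δ (ξ 5)) = 0 := h4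
      linear_combination h5
    rw [h2, h3]
    ring
  refine hUp (Gm g) ?_ (YY t ξ) p halg (YY t ξ) rfl (fun j => (hyy j).symm) ?_ ?_ ?_ ?_
  · intro j
    fin_cases j
    · exact hV _
    · exact V.neg_mem (hV _)
    · exact V.neg_mem (hV _)
    · exact hV _
    · exact hV _
    · exact hV _
  · have h1 : ∀ j, YY t ξ j * al (Gm g j) = (YY t ξ j * zz ξ j) * al (g s01) := by
      intro j
      rw [al_Gm hrel]
      ring
    rw [Finset.sum_congr rfl fun j _ => h1 j, ← Finset.sum_mul]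
    have h2 : ∑ j, YY t ξ j * zz ξ j = 0 := by
      rw [Fin.sum_univ_six]
      change 1 * px ξ + Yc t ξ 0 * ξ 1 + Yc t ξ 1 * ξ 2 + Yc t ξ 2 * ξ 4 + Yc t ξ 3 * ξ 5 +
        (-(px ξ + (Yc t ξ 0 * ξ 1 + Yc t ξ 1 * ξ 2 + Yc t ξ 2 * ξ 4 + Yc t ξ 3 * ξ 5))) * 1 = 0
      ring
    rw [h2, zero_mul]
  · intro l
    obtain ⟨δ, hδ⟩ := TH314.PD.exists_der' al al_basis (Pi.single l 1)
    have h1 := hsum δ
    have h2 : ∀ f : MvPolynomial (Fin 4) ℂ, δ (al f) = al (pderiv l f) := by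
      intro f
      rw [hδ, Finset.sum_eq_single l]
      · rw [Pi.single_eq_same, one_mul]
      · intro b _ hb
        rw [Pi.single_eq_of_ne hb, zero_mul]
      · intro hb
        exact absurd (Finset.mem_univ _) hb
    rw [← h1]
    exact Finset.sum_congr rfl fun j _ => by rw [h2]
  · exact hg0
  · intro a w haw
    obtain ⟨δ, hδ⟩ := TH314.PD.exists_der' al al_basis w
    have h1 : ∀ j, a * al (Gm g j) + δ (al (Gm g j)) = 0 := by
      intro j
      rw [hδ]
      exact haw j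
    have h5 : a * al (g s01) + δ (al (g s01)) = 0 := h1 5
    have hz : ∀ j, δ (zz ξ j) = 0 := by
      intro j
      have h2 := h1 j
      rw [al_Gm hrel, Derivation.leibniz, smul_eq_mul, smul_eq_mul] at h2
      have h3 : al (g s01) * δ (zz ξ j) = 0 := by linear_combination h2 - zz ξ j * h5
      rcases mul_eq_zero.1 h3 with h4 | h4
      · exact absurd h4 hG0
      · exact h4
    have hξ := der_zero h δ (fun i => by
      fin_cases i
      · exact hz 1
      · exact hz 2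
      · exact hz 3
      · exact hz 4)
    have hle : IntermediateField.adjoin ℂ (Set.range ξ) ≤ W602.GT.consts δ := by
      rw [IntermediateField.adjoin_le_iff]
      rintro _ ⟨i, rfl⟩
      exact hξ i
    have h6 : δ = 0 := by
      refine W602.GT.der_eq_zero δ (Set.range (Yc t ξ)) (alg_LY h) ?_
      rintro _ ⟨i, rfl⟩
      exact hle (LY_le (IntermediateField.subset_adjoin _ _ ⟨i, rfl⟩))
    constructor
    · rw [h6, Derivation.zero_apply, add_zero] at h5
      rcases mul_eq_zero.1 h5 with h7 | h7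
      · exact h7
      · exact absurd h7 hG0
    · funext l
      have h12 := hδ (X l)
      rw [h6, Derivation.zero_apply, Finset.sum_eq_single l] at h12
      · rw [pderiv_X_self, map_one, mul_one] at h12
        exact h12.symm
      · intro b _ hb'
        rw [pderiv_X_of_ne (Ne.symm hb'), map_zero, mul_zero]
      · intro h
        exact absurd (Finset.mem_univ _) h

theorem mainG {t : Ix → ℂ} {ξ : Fin 6 → KK} (h : Gen t ξ) {g : Sx → MvPolynomial (Fin 4) ℂ}
    (V : Submodule ℂ (MvPolynomial (Fin 4) ℂ)) {B : ℝ} (hUp : Y196.Sp.UpB V al B)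
    (hV : ∀ s, g s ∈ V) (hg0 : g s01 ≠ 0)
    (hrel : ∀ s, pl ξ s * al (g s01) = al (g s)) :
    FiniteDimensional (IntermediateField.adjoin ℂ (Set.range ξ)) KK ∧
      82 * (Module.finrank (IntermediateField.adjoin ℂ (Set.range ξ)) KK : ℝ) ≤ B := by
  have halg := alg_LY h
  have hfd : FiniteDimensional (LY KK t ξ) KK := TH314.PD.finite_dim al al_frac (LY KK t ξ)
  have hup := upperG h V hUp hV hg0 hrel
  let M : IntermediateField (LY KK t ξ) KK := IntermediateField.extendScalars (LY_le (t := t) (ξ := ξ))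
  have hMfd : FiniteDimensional (LY KK t ξ) M := inferInstance
  have hlow : 82 ≤ Module.finrank (LY KK t ξ) M := lower h M (by
    rw [IntermediateField.mem_extendScalars]
    exact IntermediateField.subset_adjoin _ _ ⟨5, rfl⟩)
  have htow := Module.finrank_mul_finrank (LY KK t ξ) M KK
  have hMK : FiniteDimensional M KK := Module.Finite.right (LY KK t ξ) M KK
  refine ⟨hMK, ?_⟩
  have hfin : Module.finrank (IntermediateField.adjoin ℂ (Set.range ξ)) KK =
    Module.finrank M KK := rfl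
  rw [hfin]
  refine le_trans ?_ hup
  have h1 : 82 * Module.finrank M KK ≤ Module.finrank (LY KK t ξ) KK := by
    calc 82 * Module.finrank M KK
        ≤ Module.finrank (LY KK t ξ) M * Module.finrank M KK := Nat.mul_le_mul_right _ hlow
      _ = Module.finrank (LY KK t ξ) KK := htow
  exact_mod_cast h1

/-- the upper bound for prescribed exponents -/
theorem upB_newt (A : Set (Fin 4 →₀ ℕ)) {P : Set (Fin 4 → ℝ)} (hPc : Convex ℝ P)
    (hP : IsCompact P) (hA : ∀ a ∈ A, (fun l => (a l : ℝ)) ∈ P) :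
    Y196.Sp.UpB (restrictSupport ℂ A) al ((4 + 1).factorial * (MeasureTheory.volume P).toReal) := by
  intro Γ hΓ x p halg Y hY0 hYc hr0 hr1 hlast hind
  exact Y196.Sp.upper_sp (w := Y196.Sp.w0) (c := Y196.Sp.c0) (s := fun _ => 0) Y196.Sp.ind0 hPc hP A
    (fun i a ha _ => by rw [add_zero]; exact hA a ha) al al_inj al_basis al_frac Γ
    (fun j => (mem_restrictSupport_iff ℂ).1 (hΓ j)) x p Y hY0 hYc hr0 hr1 hlast hind

theorem newtG {t : Ix → ℂ} {ξ : Fin 6 → KK} (h : Gen t ξ) {g : Sx → MvPolynomial (Fin 4) ℂ}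
    {P : Set (Fin 4 → ℝ)} (hPc : Convex ℝ P) (hP : IsCompact P)
    (hA : ∀ s, ∀ a ∈ (g s).support, (fun l => (a l : ℝ)) ∈ P) (hg0 : g s01 ≠ 0)
    (hrel : ∀ s, pl ξ s * al (g s01) = al (g s)) :
    FiniteDimensional (IntermediateField.adjoin ℂ (Set.range ξ)) KK ∧
      82 * (Module.finrank (IntermediateField.adjoin ℂ (Set.range ξ)) KK : ℝ) ≤
        120 * (MeasureTheory.volume P).toReal := by
  have h1 := mainG h _ (upB_newt {a | (fun l => (a l : ℝ)) ∈ P} hPc hP fun a ha => ha)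
    (fun s => (mem_restrictSupport_iff ℂ).2 fun a ha => hA s a ha) hg0 hrel
  have h2 : ((4 + 1).factorial : ℝ) = 120 := by norm_num [Nat.factorial]
  rwa [h2] at h1

end Run7.h164.GM
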