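import Mathlib
import Pool.Agent.Run7.h164.GN

/-!
# Specialisation of parameters
-/

set_option autoImplicit false

namespace Run7.h164.GM

open MvPolynomial Pool.Agent

section Spec

variable {N : ℕ}

/-- the five polynomials -/
noncomputable def zN (g : Sx → MvPolynomial (Fin N) ℂ) (i : Fin 5) : MvPolynomial (Fin N) ℂ :=
  Fin.cases (g s01) (fun j => num g (ix j)) i

theorem matZ {t : Ix → ℂ} {ξ : Fin 6 → KN N} (h : Gen t ξ)
    {g : Sx → MvPolynomial (Fin N) ℂ} (hg0 : g s01 ≠ 0)
    (hrel : ∀ s, pl ξ s * alN N (g s01) = alN N (g s)) :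
    ∃ ω : Fin N × Fin 4 → MvPolynomial (Fin N) ℂ,
      Matrix.det (fun i r => Fin.cases (zN g i) (fun s => ∑ l, ω (l, s) * pderiv l (zN g i)) r :
        Matrix (Fin 5) (Fin 5) (MvPolynomial (Fin N) ℂ)) ≠ 0 := by
  classical
  have hd0 : alN N (g s01) ≠ 0 := fun h0 => hg0 (alN_inj (by rw [h0, map_zero]))
  let z : Fin 5 → MvPolynomial (Fin N) ℂ := zN g
  have hz0 : z 0 = g s01 := rfl
  have hzs : ∀ j : Fin 4, z j.succ = num g (ix j) := fun j => rfl
  have hzal : ∀ j : Fin 4, alN N (z j.succ) = ξ (ix j) * alN N (z 0) := by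
    intro j
    rw [hzs, hz0]
    exact al_num (alN N) hrel (ix j)
  obtain ⟨δ, hδ⟩ := TH314.PD.exists_dual (Yc t ξ) (algInd h)
  obtain ⟨q, hq⟩ := IsLocalization.exist_integer_multiples_of_finite
    (nonZeroDivisors (MvPolynomial (Fin N) ℂ))
    (fun ls : Fin N × Fin 4 => δ ls.2 (alN N (X ls.1)))
  choose ω hω using hq
  have hq0 : alN N (q : MvPolynomial (Fin N) ℂ) ≠ 0 := by
    intro h0
    exact nonZeroDivisors.coe_ne_zero q (alN_inj (by rw [h0, map_zero]))
  have hω' : ∀ (l : Fin N) (s : Fin 4), alN N (ω (l, s)) = alN N q * δ s (alN N (X l)) := by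
    intro l s
    have := hω (l, s)
    rw [Algebra.smul_def] at this
    exact this
  let Z : Matrix (Fin 5) (Fin 5) (MvPolynomial (Fin N) ℂ) := fun i r =>
    Fin.cases (z i) (fun s => ∑ l, ω (l, s) * pderiv l (z i)) r
  have hZ0 : ∀ i, Z i 0 = z i := fun i => rfl
  have hZs : ∀ i (s : Fin 4), Z i s.succ = ∑ l, ω (l, s) * pderiv l (z i) := fun i s => rfl
  have hZd : ∀ i (s : Fin 4), alN N (Z i s.succ) = alN N q * δ s (alN N (z i)) := by
    intro i s
    rw [hZs, map_sum, TH314.PD.der_al (alN N) (δ s) (z i), Finset.mul_sum]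
    refine Finset.sum_congr rfl fun l _ => ?_
    rw [map_mul, hω']
    ring
  have hdetZ : Z.det ≠ 0 := by
    intro hdet
    have h1 : ((alN N).toRingHom.mapMatrix Z).det = 0 := by
      rw [← RingHom.map_det, hdet, map_zero]
    obtain ⟨v, hv0, hv⟩ := Matrix.exists_mulVec_eq_zero_iff.2 h1
    apply hv0
    have hv' : ∀ i, ∑ r, alN N (Z i r) * v r = 0 := fun i => congrFun hv i
    let D : Derivation ℂ (KN N) (KN N) := (alN N q * v (Fin.succ 0)) • δ 0 +
      (alN N q * v (Fin.succ 1)) • δ 1 + (alN N q * v (Fin.succ 2)) • δ 2 +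
      (alN N q * v (Fin.succ 3)) • δ 3
    have hD : ∀ x, D x = ∑ s : Fin 4, (alN N q * v s.succ) * δ s x := by
      intro x
      rw [Fin.sum_univ_four]
      rfl
    have hDz : ∀ i, D (alN N (z i)) = - (v 0 * alN N (z i)) := by
      intro i
      have h2 := hv' i
      rw [Fin.sum_univ_succ, hZ0] at h2
      have h3 : ∑ s : Fin 4, alN N (Z i s.succ) * v s.succ = D (alN N (z i)) := by
        rw [hD]
        refine Finset.sum_congr rfl fun s _ => ?_
        rw [hZd]
        ring
      rw [h3] at h2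
      linear_combination h2
    have hDξ : ∀ j : Fin 4, D (ξ (ix j)) = 0 := by
      intro j
      have h2 := hDz j.succ
      rw [hzal, Derivation.leibniz, hDz 0, smul_eq_mul, smul_eq_mul] at h2
      have h3 : alN N (z 0) * D (ξ (ix j)) = 0 := by linear_combination h2
      rcases mul_eq_zero.1 h3 with h4 | h4
      · exact absurd h4 hd0
      · exact h4
    have hDall := der_zero h D hDξ
    have hle : IntermediateField.adjoin ℂ (Set.range ξ) ≤ W602.GT.consts D := by
      rw [IntermediateField.adjoin_le_iff]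
      rintro _ ⟨i, rfl⟩
      exact hDall i
    have hvs : ∀ s : Fin 4, v s.succ = 0 := by
      intro s
      have h2 : D (Yc t ξ s) = 0 :=
        hle (LY_le (IntermediateField.subset_adjoin _ _ ⟨s, rfl⟩))
      rw [hD, Finset.sum_eq_single s] at h2
      · rw [hδ, if_pos rfl, mul_one] at h2
        rcases mul_eq_zero.1 h2 with h3 | h3
        · exact absurd h3 hq0
        · exact h3
      · intro b _ hb
        rw [hδ, if_neg (Ne.symm hb), mul_zero]
      · intro hb
        exact absurd (Finset.mem_univ _) hb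
    funext r
    refine Fin.cases ?_ (fun s => hvs s) r
    have h2 := hDz 0
    have h3 : D (alN N (z 0)) = 0 := by
      rw [hD]
      refine Finset.sum_eq_zero fun s _ => ?_
      rw [hvs, mul_zero, zero_mul]
    rw [h3] at h2
    have h4 : v 0 * alN N (z 0) = 0 := neg_eq_zero.1 h2.symm
    rcases mul_eq_zero.1 h4 with h5 | h5
    · exact h5
    · exact absurd h5 hd0
  exact ⟨ω, hdetZ⟩

theorem restrOf {t : Ix → ℂ} {ξ : Fin 6 → KN N} (h : Gen t ξ)
    {g : Sx → MvPolynomial (Fin N) ℂ}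
    (hrel : ∀ s, pl ξ s * alN N (g s01) = alN N (g s)) (σ : Fin N → MvPolynomial (Fin 4) ℂ)
    (hS0 : aeval σ (g s01) ≠ 0) (hdet' : (TH314.PD.ZZ fun i => aeval σ (zN g i)).det ≠ 0) :
    ∃ ξ' : Fin 6 → KK, Gen t ξ' ∧ ∀ s, pl ξ' s * al (aeval σ (g s01)) = al (aeval σ (g s)) := by
  classical
  let S : MvPolynomial (Fin N) ℂ →ₐ[ℂ] MvPolynomial (Fin 4) ℂ := aeval σ
  change S (g s01) ≠ 0 at hS0
  have hd0' : al (S (g s01)) ≠ 0 := fun h0 => hS0 (al_inj (by rw [h0, map_zero]))
  let ξ' : Fin 6 → KK := fun i => al (S (num g i)) / al (S (g s01))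
  have hξ' : ∀ i, al (S (num g i)) = ξ' i * al (S (g s01)) := by
    intro i
    exact (div_mul_cancel₀ _ hd0').symm
  have htr := fun G => transfer (alN N) al S (g s01) (num g) ξ ξ' (al_num (alN N) hrel) hξ' G
  have htr0 : ∀ G : MvPolynomial (Fin 6) ℂ, aeval ξ G = 0 → aeval ξ' G = 0 := by
    intro G hG
    obtain ⟨M, P, e1, e2⟩ := htr G
    rw [hG, mul_zero] at e1
    have h1 : P = 0 := alN_inj (by rw [e1, map_zero])
    rw [h1, map_zero, map_zero] at e2
    rcases mul_eq_zero.1 e2.symm with h2 | h2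
    · exact absurd h2 (pow_ne_zero _ hd0')
    · exact h2
  have hplX : ∀ {K : Type} [Field K] [Algebra ℂ K] (x : Fin 6 → K) (s : Sx),
      aeval x (pl X s : MvPolynomial (Fin 6) ℂ) = pl x s := by
    intro K _ _ x s
    have h1 := map_pl ((aeval x : MvPolynomial (Fin 6) ℂ →ₐ[ℂ] K) :
      MvPolynomial (Fin 6) ℂ →+* K) X s
    rw [RingHom.coe_coe] at h1
    rw [h1]
    simp only [aeval_X]
  have hrel' : ∀ s, pl ξ' s * al (S (g s01)) = al (S (g s)) := by
    intro s
    obtain ⟨M, P, e1, e2⟩ := htr (pl X s)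
    rw [hplX] at e1 e2
    have h1 : g s01 * P = g s01 ^ M * g s := by
      apply alN_inj
      rw [map_mul, map_mul, map_pow, e1, ← hrel s]
      ring
    have h2 := congrArg (fun f => al (S f)) h1
    simp only [map_mul, map_pow] at h2
    rw [e2] at h2
    have h3 : al (S (g s01)) ^ M * (pl ξ' s * al (S (g s01)) - al (S (g s))) = 0 := by
      linear_combination h2
    rcases mul_eq_zero.1 h3 with h4 | h4
    · exact absurd h4 (pow_ne_zero _ hd0')
    · exact sub_eq_zero.1 h4
  -- independence after restriction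
  set z' : Fin 5 → MvPolynomial (Fin 4) ℂ := fun i => aeval σ (zN g i) with hz'
  have hnr := TH314.PD.no_relation z' hdet'
  have hind : ∀ a : MvPolynomial (Fin 4) ℂ, aeval (ξ' ∘ ix) a = 0 → a = 0 := by
    intro a ha
    obtain ⟨A', hA'h, hA'⟩ := TH314.PD.homogenize a
    have h1 : aeval (fun i => al (z' i)) A' = 0 := by
      have h2 : (fun i => al (z' i)) = fun i => al (S (g s01)) *
          (Fin.cons 1 (ξ' ∘ ix) : Fin 5 → KK) i := by
        funext i
        refine Fin.cases ?_ (fun l => ?_) i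
        · rw [Fin.cons_zero, mul_one]
          rfl
        · rw [Fin.cons_succ, mul_comm]
          exact hξ' (ix l)
      rw [h2, TH314.PD.aeval_smul_form hA'h, hA', ha, mul_zero]
    have h3 : aeval z' A' = 0 := by
      apply al_inj
      rw [map_zero, ← h1]
      exact comp_aeval_apply (f := z') al A'
    have h4 := hnr _ A' hA'h h3
    have h5 := hA' (X : Fin 4 → MvPolynomial (Fin 4) ℂ)
    rw [h4, map_zero, aeval_X_left_apply] at h5
    exact h5.symm
  have hLev : ∀ {K : Type} [Field K] [Algebra ℂ K] (x : Fin 6 → K),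
      aeval x (Lx (fun i => C (t i)) X : MvPolynomial (Fin 6) ℂ) =
        Lx (fun i => algebraMap ℂ K (t i)) x := by
    intro K _ _ x
    have h1 := map_Lx ((aeval x : MvPolynomial (Fin 6) ℂ →ₐ[ℂ] K) :
      MvPolynomial (Fin 6) ℂ →+* K) (fun i => C (t i)) X
    rw [RingHom.coe_coe] at h1
    rw [h1]
    simp only [aeval_C, aeval_X]
  have hQev : ∀ {K : Type} [Field K] [Algebra ℂ K] (x : Fin 6 → K),
      aeval x (Qx (fun i => C (t i)) X : MvPolynomial (Fin 6) ℂ) =
        Qx (fun i => algebraMap ℂ K (t i)) x := by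
    intro K _ _ x
    have h1 := map_Qx ((aeval x : MvPolynomial (Fin 6) ℂ →ₐ[ℂ] K) :
      MvPolynomial (Fin 6) ℂ →+* K) (fun i => C (t i)) X
    rw [RingHom.coe_coe] at h1
    rw [h1]
    simp only [aeval_C, aeval_X]
  refine ⟨ξ', ⟨h.inj, ?_, ?_, ?_⟩, hrel'⟩
  · rw [← hLev]
    exact htr0 _ (by rw [hLev]; exact h.hL)
  · rw [← hQev]
    exact htr0 _ (by rw [hQev]; exact h.hQ)
  · intro G hG
    apply h.ker
    by_contra hne
    obtain ⟨n, a, ha0, ha, hn⟩ := eqn h G hne
    have h1 := htr0 _ ha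
    obtain ⟨m, rfl⟩ := Nat.exists_eq_succ_of_ne_zero hn.ne'
    rw [map_sum, Finset.sum_range_succ', Finset.sum_eq_zero, zero_add, map_mul, pow_zero,
      map_one, mul_one, aeval_rename] at h1
    · exact ha0 (hind _ h1)
    · intro j _
      rw [map_mul, map_pow, hG, zero_pow (Nat.succ_ne_zero j), mul_zero]

/-- some four parameters -/
theorem specGM {t : Ix → ℂ} {ξ : Fin 6 → KN N} (h : Gen t ξ)
    {g : Sx → MvPolynomial (Fin N) ℂ} (hg0 : g s01 ≠ 0)
    (hrel : ∀ s, pl ξ s * alN N (g s01) = alN N (g s)) :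
    ∃ (f : Fin 4 → Fin N) (c : Fin N → ℂ), Function.Injective f ∧ (∀ s, c (f s) = 0) ∧
      aeval (Y196.Sp.spc c f) (g s01) ≠ 0 ∧ ∃ ξ' : Fin 6 → KK, Gen t ξ' ∧
      ∀ s, pl ξ' s * al (aeval (Y196.Sp.spc c f) (g s01)) =
        al (aeval (Y196.Sp.spc c f) (g s)) := by
  classical
  obtain ⟨ω, hω⟩ := matZ h hg0 hrel
  let wt : Fin 5 → Option (Fin N) → MvPolynomial (Fin N) ℂ := fun r a =>
    Fin.cases (motive := fun _ => MvPolynomial (Fin N) ℂ)
      (Option.casesOn (motive := fun _ => MvPolynomial (Fin N) ℂ) a 1 fun _ => 0)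
      (fun s => Option.casesOn (motive := fun _ => MvPolynomial (Fin N) ℂ) a 0
        fun l => ω (l, s)) r
  let vt : Fin 5 → Option (Fin N) → Fin 5 → MvPolynomial (Fin N) ℂ := fun r a i =>
    Fin.cases (motive := fun _ => MvPolynomial (Fin N) ℂ) (zN g i)
      (fun s => Option.casesOn (motive := fun _ => MvPolynomial (Fin N) ℂ) a
        0 fun l => pderiv l (zN g i)) r
  obtain ⟨e, he1, he2⟩ := TH920.MC.det_expand2 wt vt _ (by
      intro i r
      refine Fin.cases ?_ (fun s => ?_) r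
      · rw [Fintype.sum_option]
        simp [wt, vt]
      · rw [Fintype.sum_option]
        change _ = 0 * 0 + ∑ l, ω (l, s) * pderiv l (zN g i)
        rw [zero_mul, zero_add]
        rfl) hω
  have hes : ∀ s : Fin 4, ∃ l, e s.succ = some l := by
    intro s
    rcases hh : e s.succ with _ | l
    · have h1 := he1 s.succ
      rw [hh] at h1
      exact absurd rfl h1
    · exact ⟨l, rfl⟩
  choose f hf using hes
  let Z' : Matrix (Fin 5) (Fin 5) (MvPolynomial (Fin N) ℂ) := fun i r => vt r (e r) i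
  have hZ' : Z'.det ≠ 0 := he2
  have hZ'0 : ∀ i, Z' i 0 = zN g i := fun i => rfl
  have hZ's : ∀ i s, Z' i s.succ = pderiv (f s) (zN g i) := by
    intro i s
    change vt s.succ (e s.succ) i = _
    rw [hf]
    rfl
  have hfinj : Function.Injective f := by
    intro s s' hss
    by_contra hne
    apply hZ'
    refine Matrix.det_zero_of_column_eq (i := s.succ) (j := s'.succ)
      (fun h => hne (Fin.succ_injective _ h)) fun i => ?_
    rw [hZ's, hZ's, hss]
  obtain ⟨c, hc⟩ : ∃ c : Fin N → ℂ, eval c (Z'.det * g s01) ≠ 0 := by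
    by_contra hcon
    push Not at hcon
    exact mul_ne_zero hZ' hg0 (MvPolynomial.funext fun c => by rw [hcon, map_zero])
  rw [map_mul] at hc
  have hc1 : eval c Z'.det ≠ 0 := left_ne_zero_of_mul hc
  have hc2 : eval c (g s01) ≠ 0 := right_ne_zero_of_mul hc
  let c' : Fin N → ℂ := fun l => if ∃ s, f s = l then 0 else c l
  have hc' : ∀ s, c' (f s) = 0 := fun s => if_pos ⟨s, rfl⟩
  let pt : Fin 4 → ℂ := fun s => c (f s)
  have hpt : ∀ l, eval pt (Y196.Sp.spc c' f l) = c l := by
    intro l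
    by_cases hl : ∃ s, f s = l
    · obtain ⟨s, rfl⟩ := hl
      rw [Y196.Sp.spc_apply hfinj hc' s, eval_X]
    · have h5 : ∀ s, f s ≠ l := fun s hs => hl ⟨s, hs⟩
      rw [Y196.Sp.spc_const h5, eval_C]
      exact if_neg hl
  have hev : ∀ p : MvPolynomial (Fin N) ℂ, eval pt (aeval (Y196.Sp.spc c' f) p) = eval c p := by
    intro p
    have h1 : (aeval pt : MvPolynomial (Fin 4) ℂ →ₐ[ℂ] ℂ).comp (aeval (Y196.Sp.spc c' f)) =
        (aeval c : MvPolynomial (Fin N) ℂ →ₐ[ℂ] ℂ) := by
      apply MvPolynomial.algHom_ext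
      intro l
      rw [AlgHom.comp_apply, aeval_X, aeval_X]
      exact hpt l
    exact DFunLike.congr_fun h1 p
  have hpd : ∀ (s : Fin 4) (p : MvPolynomial (Fin N) ℂ),
      pderiv s (aeval (Y196.Sp.spc c' f) p) = aeval (Y196.Sp.spc c' f) (pderiv (f s) p) := by
    intro s p
    rw [TH314.PD.chain_rule (pderiv s) (Y196.Sp.spc c' f) p, Finset.sum_eq_single (f s)]
    · rw [Y196.Sp.spc_apply hfinj hc' s, pderiv_X_self, mul_one]
    · intro l _ hl
      by_cases hl' : ∃ s', f s' = l
      · obtain ⟨s', rfl⟩ := hl'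
        rw [Y196.Sp.spc_apply hfinj hc' s', pderiv_X_of_ne (fun h => hl (by rw [h])), mul_zero]
      · have h5 : ∀ s, f s ≠ l := fun s hs => hl' ⟨s, hs⟩
        rw [Y196.Sp.spc_const h5, pderiv_C, mul_zero]
    · intro h
      exact absurd (Finset.mem_univ _) h
  refine ⟨f, c', hfinj, hc', ?_, ?_⟩
  · intro h0
    apply hc2
    rw [← hev, h0, map_zero]
  · refine restrOf h hrel (Y196.Sp.spc c' f) ?_ ?_
    · intro h0
      apply hc2
      rw [← hev, h0, map_zero]
    · intro h0
      apply hc1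
      have h1 : eval pt (TH314.PD.ZZ fun i => aeval (Y196.Sp.spc c' f) (zN g i)).det =
          eval c Z'.det := by
        rw [RingHom.map_det, RingHom.map_det]
        congr 1
        ext i r
        change eval pt (TH314.PD.ZZ (fun i => aeval (Y196.Sp.spc c' f) (zN g i)) i r) =
          eval c (Z' i r)
        refine Fin.cases ?_ (fun s => ?_) r
        · exact hev (zN g i)
        · rw [hZ's]
          change eval pt (pderiv s (aeval (Y196.Sp.spc c' f) (zN g i))) = _
          rw [hpd, hev]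
      rw [← h1, h0, map_zero]

end Spec

end Run7.h164.GM
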