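import Mathlib
import Pool.Agent.Run7.h164.GO

/-!
# Embeddings of the chart
-/

set_option autoImplicit false

namespace Run7.h164.GM

open MvPolynomial Pool.Agent

/-- the very general member -/
theorem generic (Q : (Ix → ℂ) → Prop)
    (hQ : ∀ t : Ix → ℂ, Function.Injective (eval₂Hom (Int.castRingHom ℂ) t : A0 →+* ℂ) → Q t) :
    ∃ P : ℕ → MvPolynomial Ix ℂ, (∀ n, P n ≠ 0) ∧ ∀ t, (∀ n, eval t (P n) ≠ 0) → Q t := by
  classical
  have hne : Nonempty {p : A0 // p ≠ 0} := ⟨⟨1, one_ne_zero⟩⟩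
  have hcA : Countable A0 := by
    rw [← Cardinal.mk_le_aleph0_iff]
    refine MvPolynomial.cardinalMk_le_max.trans ?_
    exact max_le (max_le Cardinal.mk_le_aleph0 Cardinal.mk_le_aleph0) le_rfl
  have hcB : Countable {p : A0 // p ≠ 0} := Subtype.countable
  obtain ⟨f, hf⟩ := exists_surjective_nat {p : A0 // p ≠ 0}
  have hinjZ : Function.Injective (map (Int.castRingHom ℂ) : A0 → MvPolynomial Ix ℂ) :=
    map_injective _ (RingHom.injective_int _)
  refine ⟨fun n => map (Int.castRingHom ℂ) (f n).1, fun n h0 => (f n).2 (hinjZ (by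
    rw [map_zero]
    exact h0)), ?_⟩
  intro t ht
  refine hQ t ?_
  rw [injective_iff_map_eq_zero]
  intro p hp
  by_contra hp0
  obtain ⟨n, hn⟩ := hf ⟨p, hp0⟩
  apply ht n
  change eval t (map (Int.castRingHom ℂ) (f n).1) = 0
  rw [hn, eval_map]
  exact hp

section

variable {K : Type} [Field K] [Algebra ℂ K] {t : Ix → ℂ} {J : Ideal (MvPolynomial (Fin 6) ℂ)}

/-- an embedding of the chart gives a generic point -/
theorem gen_of (hinj : Function.Injective (eval₂Hom (Int.castRingHom ℂ) t : A0 →+* ℂ))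
    (hJ' : J = Ideal.span {Lx (fun i => C (t i)) X, Qx (fun i => C (t i)) X})
    (φ : (MvPolynomial (Fin 6) ℂ ⧸ J) →ₐ[ℂ] K) (hφ : Function.Injective φ) :
    Gen t (fun i => φ (Ideal.Quotient.mk J (X i))) ∧
      (∀ G : MvPolynomial (Fin 6) ℂ, φ (Ideal.Quotient.mk J G) =
        aeval (fun i => φ (Ideal.Quotient.mk J (X i))) G) ∧
      ∀ s, φ (Ideal.Quotient.mk J (pl X s)) = pl (fun i => φ (Ideal.Quotient.mk J (X i))) s := by
  let q : MvPolynomial (Fin 6) ℂ →ₐ[ℂ] K := φ.comp (Ideal.Quotient.mkₐ ℂ J)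
  have hq : ∀ G, q G = aeval (fun i => φ (Ideal.Quotient.mk J (X i))) G := by
    intro G
    have h1 : q = aeval (fun i => φ (Ideal.Quotient.mk J (X i))) := by
      apply MvPolynomial.algHom_ext
      intro i
      rw [aeval_X]
      rfl
    rw [h1]
  have hqpl : ∀ s, q (pl X s) = pl (fun i => φ (Ideal.Quotient.mk J (X i))) s := by
    intro s
    exact map_pl (q : MvPolynomial (Fin 6) ℂ →+* K) X s
  have hker : ∀ G : MvPolynomial (Fin 6) ℂ, q G = 0 ↔ G ∈ J := by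
    intro G
    change φ (Ideal.Quotient.mk J G) = 0 ↔ G ∈ J
    rw [map_eq_zero_iff φ hφ, Ideal.Quotient.eq_zero_iff_mem]
  have hqC : ∀ z : ℂ, q (C z) = algebraMap ℂ K z := by
    intro z
    exact q.commutes z
  refine ⟨⟨hinj, ?_, ?_, ?_⟩, hq, hqpl⟩
  · have h1 := map_Lx (q : MvPolynomial (Fin 6) ℂ →+* K) (fun i => C (t i)) X
    rw [RingHom.coe_coe] at h1
    simp only [hqC] at h1
    change Lx (fun i => algebraMap ℂ K (t i)) (fun i => q (X i)) = 0
    rw [← h1, hker, hJ']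
    exact Ideal.subset_span (Set.mem_insert _ _)
  · have h1 := map_Qx (q : MvPolynomial (Fin 6) ℂ →+* K) (fun i => C (t i)) X
    rw [RingHom.coe_coe] at h1
    simp only [hqC] at h1
    change Qx (fun i => algebraMap ℂ K (t i)) (fun i => q (X i)) = 0
    rw [← h1, hker, hJ']
    exact Ideal.subset_span (Set.mem_insert_of_mem _ rfl)
  · intro G hG
    rw [← hq, hker, hJ', Ideal.mem_span_pair] at hG
    obtain ⟨a, b, hab⟩ := hG
    exact ⟨a, b, hab.symm⟩

theorem aeval_Lx (ξ : Fin 6 → K) : aeval ξ (Lx (fun i => C (t i)) X : MvPolynomial (Fin 6) ℂ) =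
    Lx (fun i => algebraMap ℂ K (t i)) ξ := by
  have h1 := map_Lx ((aeval ξ : MvPolynomial (Fin 6) ℂ →ₐ[ℂ] K) :
    MvPolynomial (Fin 6) ℂ →+* K) (fun i => C (t i)) X
  rw [RingHom.coe_coe] at h1
  rw [h1]
  simp only [aeval_C, aeval_X]

theorem aeval_Qx (ξ : Fin 6 → K) : aeval ξ (Qx (fun i => C (t i)) X : MvPolynomial (Fin 6) ℂ) =
    Qx (fun i => algebraMap ℂ K (t i)) ξ := by
  have h1 := map_Qx ((aeval ξ : MvPolynomial (Fin 6) ℂ →ₐ[ℂ] K) :
    MvPolynomial (Fin 6) ℂ →+* K) (fun i => C (t i)) X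
  rw [RingHom.coe_coe] at h1
  rw [h1]
  simp only [aeval_C, aeval_X]

theorem aeval_pl (ξ : Fin 6 → K) (s : Sx) :
    aeval ξ (pl X s : MvPolynomial (Fin 6) ℂ) = pl ξ s := by
  have h1 := map_pl ((aeval ξ : MvPolynomial (Fin 6) ℂ →ₐ[ℂ] K) :
    MvPolynomial (Fin 6) ℂ →+* K) X s
  rw [RingHom.coe_coe] at h1
  rw [h1]
  simp only [aeval_X]

/-- a generic point gives an embedding of the chart -/
theorem phi_of (hJ' : J = Ideal.span {Lx (fun i => C (t i)) X, Qx (fun i => C (t i)) X})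
    {ξ : Fin 6 → K} (h : Gen t ξ) :
    ∃ φ : (MvPolynomial (Fin 6) ℂ ⧸ J) →ₐ[ℂ] K, Function.Injective φ ∧
      ∀ G, φ (Ideal.Quotient.mk J G) = aeval ξ G := by
  have h1 : ∀ G ∈ J, aeval ξ G = 0 := by
    intro G hG
    rw [hJ', Ideal.mem_span_pair] at hG
    obtain ⟨a, b, rfl⟩ := hG
    rw [map_add, map_mul, map_mul, aeval_Lx, aeval_Qx, h.hL, h.hQ, mul_zero, mul_zero, add_zero]
  refine ⟨Ideal.Quotient.liftₐ J (aeval ξ) h1, ?_, fun G => rfl⟩
  rw [injective_iff_map_eq_zero]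
  intro z hz
  obtain ⟨G, rfl⟩ := Ideal.Quotient.mk_surjective z
  have h2 : aeval ξ G = 0 := hz
  rw [Ideal.Quotient.eq_zero_iff_mem, hJ', Ideal.mem_span_pair]
  obtain ⟨a, b, hab⟩ := h.ker G h2
  exact ⟨a, b, hab.symm⟩

/-- the field generated by the image -/
theorem adj_eq {ξ : Fin 6 → K} (φ : (MvPolynomial (Fin 6) ℂ ⧸ J) →ₐ[ℂ] K)
    (h : ∀ G, φ (Ideal.Quotient.mk J G) = aeval ξ G) :
    IntermediateField.adjoin ℂ (Set.range φ) = IntermediateField.adjoin ℂ (Set.range ξ) := by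
  apply le_antisymm
  · rw [IntermediateField.adjoin_le_iff]
    rintro _ ⟨z, rfl⟩
    obtain ⟨G, rfl⟩ := Ideal.Quotient.mk_surjective z
    rw [h G]
    exact mem_E G
  · rw [IntermediateField.adjoin_le_iff]
    rintro _ ⟨i, rfl⟩
    exact IntermediateField.subset_adjoin _ _ ⟨Ideal.Quotient.mk J (X i), by rw [h, aeval_X]⟩

/-- an embedding of degree one is an isomorphism -/
theorem rat_of (φ : (MvPolynomial (Fin 6) ℂ ⧸ J) →ₐ[ℂ] K) (hφ : Function.Injective φ)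
    (h1 : Module.finrank (IntermediateField.adjoin ℂ (Set.range φ)) K = 1) :
    J.IsPrime ∧ Nonempty (FractionRing (MvPolynomial (Fin 6) ℂ ⧸ J) ≃ₐ[ℂ] K) := by
  have hdom : IsDomain (MvPolynomial (Fin 6) ℂ ⧸ J) :=
    Function.Injective.isDomain (φ : (MvPolynomial (Fin 6) ℂ ⧸ J) →+* K) hφ
  have hJp : J.IsPrime := (Ideal.Quotient.isDomain_iff_prime J).1 hdom
  refine ⟨hJp, ?_⟩
  let ψ : FractionRing (MvPolynomial (Fin 6) ℂ ⧸ J) →ₐ[ℂ] K :=
    IsFractionRing.liftAlgHom (K := FractionRing (MvPolynomial (Fin 6) ℂ ⧸ J)) (g := φ) hφ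
  have hψ : ∀ z, ψ (algebraMap _ _ z) = φ z := fun z =>
    IsFractionRing.lift_algebraMap (K := FractionRing (MvPolynomial (Fin 6) ℂ ⧸ J))
      (g := (φ : (MvPolynomial (Fin 6) ℂ ⧸ J) →+* K)) hφ z
  have htop : IntermediateField.adjoin ℂ (Set.range φ) = ⊤ := by
    rw [← IntermediateField.finrank_eq_one_iff_eq_top]
    exact h1
  have hle : IntermediateField.adjoin ℂ (Set.range φ) ≤ ψ.fieldRange := by
    rw [IntermediateField.adjoin_le_iff]
    rintro _ ⟨z, rfl⟩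
    exact ⟨algebraMap _ _ z, hψ z⟩
  have hsurj : Function.Surjective ψ := by
    intro y
    have h2 : y ∈ ψ.fieldRange := hle (by rw [htop]; exact IntermediateField.mem_top)
    exact h2
  exact ⟨AlgEquiv.ofBijective ψ ⟨ψ.injective, hsurj⟩⟩

end

end Run7.h164.GM
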