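import Mathlib
import Pool.Agent.Run7.h164.GP
import Pool.Agent.Y196.Sp.JF

/-!
# The linear system of derivatives
-/

set_option autoImplicit false

namespace Run7.h164.GM

open MvPolynomial Pool.Agent MeasureTheory
open scoped ENNReal

/-- the linear system of the first derivatives -/
noncomputable def dv {ι : Type} {n : ℕ} (k : ℕ) (g : ι → MvPolynomial (Fin n) ℂ) :
    Submodule ℂ (MvPolynomial (Fin n) ℂ) :=
  Submodule.span ℂ (Set.range (fun j => C (k : ℂ) * g j - ∑ l, X l * pderiv l (g j)) ∪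
    Set.range fun x : ι × Fin n => pderiv x.2 (g x.1))

theorem dv_eq {ι : Type} {n m : ℕ} (k : ℕ) (g : ι → MvPolynomial (Fin n) ℂ) (e : Fin m ≃ ι) :
    dv k g = Y196.Sp.jac k (fun i => g (e i)) := by
  unfold dv Y196.Sp.jac
  have h1 : Set.range (fun j => C (k : ℂ) * g j - ∑ l, X l * pderiv l (g j)) =
      Set.range (fun j : Fin m => C (k : ℂ) * g (e j) - ∑ l, X l * pderiv l (g (e j))) :=
    (e.surjective.range_comp (fun j => C (k : ℂ) * g j - ∑ l, X l * pderiv l (g j))).symm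
  have h2 : Set.range (fun x : ι × Fin n => pderiv x.2 (g x.1)) =
      Set.range (fun x : Fin m × Fin n => pderiv x.2 (g (e x.1))) :=
    ((e.prodCongr (Equiv.refl (Fin n))).surjective.range_comp
      (fun x : ι × Fin n => pderiv x.2 (g x.1))).symm
  rw [h1, h2]

theorem dv_fg {ι : Type} [Finite ι] {n : ℕ} (k : ℕ) (g : ι → MvPolynomial (Fin n) ℂ) :
    (dv k g).FG :=
  Submodule.fg_span ((Set.finite_range _).union (Set.finite_range _))

theorem jacG {k : ℕ} (hk : k ≠ 0) {t : Ix → ℂ} {ξ : Fin 6 → KK} (h : Gen t ξ)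
    {g : Sx → MvPolynomial (Fin 4) ℂ} (hg0 : g s01 ≠ 0)
    (hrel : ∀ s, pl ξ s * al (g s01) = al (g s)) :
    FiniteDimensional (IntermediateField.adjoin ℂ (Set.range ξ)) KK ∧
      82 * (Module.finrank (IntermediateField.adjoin ℂ (Set.range ξ)) KK : ℝ≥0∞) ≤
        5 * Y196.Sp.mvi (dv k g) := by
  classical
  obtain ⟨hfd, -⟩ := main (k := ∑ s, (g s).totalDegree) h
    (fun s => Finset.single_le_sum (f := fun s => (g s).totalDegree) (fun _ _ => Nat.zero_le _)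
      (Finset.mem_univ s)) hg0 hrel
  refine ⟨hfd, ?_⟩
  have h5 : (((4 : ℕ) : ℝ≥0∞) + 1) = 5 := by norm_num
  rw [← h5]
  by_cases htop : (((4 : ℕ) : ℝ≥0∞) + 1) * Y196.Sp.mvi (dv k g) = ⊤
  · rw [htop]
    exact le_top
  · obtain ⟨-, h1⟩ := mainG h (Y196.Sp.VD (Y196.Sp.aJ 4 k) (Y196.Sp.bJ 4) (dv k g))
      (B := ((((4 : ℕ) : ℝ≥0∞) + 1) * Y196.Sp.mvi (dv k g)).toReal)
      (fun Γ hΓ x p halg Y hY0 hYc hr0 hr1 hlast hind => by
        have h2 := Y196.Sp.upper_mi (Y196.Sp.indJ hk) (dv k g)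
          (Y196.Sp.VD (Y196.Sp.aJ 4 k) (Y196.Sp.bJ 4) (dv k g)) (dv_fg k g)
          (fun g hg i => hg i) al al_inj al_basis al_frac Γ hΓ x p Y hY0 hYc hr0 hr1 hlast hind
        have h3 := ENNReal.toReal_mono htop h2
        rwa [ENNReal.toReal_natCast] at h3) (fun s i => by
        cases i with
        | none =>
          rw [Y196.Sp.DD_none]
          exact Submodule.subset_span (Or.inl ⟨s, rfl⟩)
        | some m =>
          rw [Y196.Sp.DD_some]
          exact Submodule.subset_span (Or.inr ⟨(s, m), rfl⟩)) hg0 hrel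
    rw [← ENNReal.ofReal_toReal htop]
    have h2 : ((82 * Module.finrank (IntermediateField.adjoin ℂ (Set.range ξ)) KK : ℕ) : ℝ) ≤
        ((((4 : ℕ) : ℝ≥0∞) + 1) * Y196.Sp.mvi (dv k g)).toReal := by
      push_cast
      exact h1
    have h3 := ENNReal.ofReal_le_ofReal h2
    rw [ENNReal.ofReal_natCast] at h3
    push_cast at h3 ⊢
    exact h3

theorem mvi_dv_le {k : ℕ} (hk : k ≠ 0) (g : Sx → MvPolynomial (Fin 4) ℂ)
    (hG : ∀ j, (g j).totalDegree ≤ k) : Y196.Sp.mvi (dv k g) ≤ ((k - 1 : ℕ) : ℝ≥0∞) ^ 4 := by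
  rw [dv_eq k g (Fintype.equivFin Sx).symm]
  exact Y196.Sp.mvi_jac_le (by norm_num) hk _ fun j => hG _

theorem multG {k : ℕ} (hk : k ≠ 0) {t : Ix → ℂ} {ξ : Fin 6 → KK} (h : Gen t ξ)
    {g : Sx → MvPolynomial (Fin 4) ℂ} (hg0 : g s01 ≠ 0)
    (hrel : ∀ s, pl ξ s * al (g s01) = al (g s)) (m : Fin 5 → ℕ) (hm : ∀ i, m i ≤ k)
    (hG : ∀ j, ∀ a ∈ (g j).support,
      ∑ l, a l ≤ k ∧ m 0 ≤ ∑ l, a l ∧ ∀ l : Fin 4, a l + m l.succ ≤ k) :
    82 * (Module.finrank (IntermediateField.adjoin ℂ (Set.range ξ)) KK : ℤ) ≤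
      5 * Y196.Sp.altF 4 (k - 1) fun i => k - m i := by
  classical
  rw [Y196.Sp.altF_eq]
  set e : Option (Fin 4) → ℕ := fun i => k - m ((finSuccEquiv 4).symm i) with he
  have hG' : ∀ j, ∀ a ∈ (g j).support,
      ∑ l, a l ≤ k ∧ k ≤ ∑ l, a l + e none ∧ ∀ l, a l ≤ e (some l) := by
    intro j a ha
    obtain ⟨h1, h2, h3⟩ := hG j a ha
    refine ⟨h1, ?_, fun l => ?_⟩
    · change k ≤ ∑ l, a l + (k - m ((finSuccEquiv 4).symm none))
      rw [finSuccEquiv_symm_none]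
      have := hm 0
      omega
    · change a l ≤ k - m ((finSuccEquiv 4).symm (some l))
      rw [finSuccEquiv_symm_some]
      have := h3 l
      omega
  obtain ⟨-, h1⟩ := jacG hk h hg0 hrel
  rw [dv_eq k g (Fintype.equivFin Sx).symm] at h1
  have h2 := Y196.Sp.mvi_le' (Y196.Sp.convex_trc _ _) (Y196.Sp.compact_trc _ _)
    (Y196.Sp.jac_le hk e (fun i => g ((Fintype.equivFin Sx).symm i)) fun j => hG' _)
  have hfin : volume (Y196.Sp.trc ((k - 1 : ℕ) : ℝ) fun i => (e i : ℝ)) ≠ ⊤ :=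
    (Y196.Sp.compact_trc _ _).measure_lt_top.ne
  have h3 := h1.trans (mul_le_mul_right h2 _)
  have h4 := ENNReal.toReal_mono (by finiteness) h3
  rw [ENNReal.toReal_mul, ENNReal.toReal_mul, ENNReal.toReal_mul, ENNReal.toReal_natCast,
    ENNReal.toReal_natCast, ENNReal.toReal_ofNat, ENNReal.toReal_ofNat,
    mul_comm ((Nat.factorial 4 : ℕ) : ℝ)] at h4
  have h5 := Y196.Sp.altS_cast (n := 4) (by norm_num) (k - 1) e
  rw [measureReal_def] at h5
  rw [h5] at h4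
  have h6 : (((82 * (Module.finrank (IntermediateField.adjoin ℂ (Set.range ξ)) KK : ℤ) : ℤ)) : ℝ) ≤
      ((5 * Y196.Sp.altS 4 (k - 1) e : ℤ) : ℝ) := by
    push_cast
    exact h4
  exact Int.cast_le.1 h6

end Run7.h164.GM
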