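import Mathlib
import Pool.Agent.Run7.h164.GP
import Pool.Agent.TH920.MD.Fi

/-!
# Maps with bounded degree in some variables and bounded total degree in the others
-/

set_option autoImplicit false

namespace Run7.h164.GM

open MvPolynomial Pool.Agent

section Mix

variable {N : ℕ}

/-- restriction to a subspace compatible with a set of coordinates -/
theorem mixGM (J : Finset (Fin N)) {t : Ix → ℂ} {ξ : Fin 6 → KN N} (h : Gen t ξ)
    {g : Sx → MvPolynomial (Fin N) ℂ} (hg0 : g s01 ≠ 0)
    (hrel : ∀ s, pl ξ s * alN N (g s01) = alN N (g s)) :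
    ∃ (c : Fin N → ℂ) (A : Fin N → Fin 4 → ℂ) (f : Fin 4 → Option (Fin N)),
      (∀ s l, f s = some l → l ∈ J) ∧ (∀ s s' l, f s = some l → f s' = some l → s = s') ∧
      (∀ s l, f s = some l → ∀ l', A l' s = if l' = l then 1 else 0) ∧
      (∀ s, f s = none → ∀ l ∈ J, A l s = 0) ∧
      aeval (TH314.PD.sub c A) (g s01) ≠ 0 ∧ ∃ ξ' : Fin 6 → KK, Gen t ξ' ∧
      ∀ s, pl ξ' s * al (aeval (TH314.PD.sub c A) (g s01)) =
        al (aeval (TH314.PD.sub c A) (g s)) := by
  classical
  obtain ⟨ω, hω⟩ := matZ h hg0 hrel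
  let wt : Fin 5 → Option (Fin N) → MvPolynomial (Fin N) ℂ := fun r a =>
    Fin.cases (motive := fun _ => MvPolynomial (Fin N) ℂ)
      (Option.casesOn (motive := fun _ => MvPolynomial (Fin N) ℂ) a 1 fun _ => 0)
      (fun s => Option.casesOn (motive := fun _ => MvPolynomial (Fin N) ℂ) a 1
        fun l => if l ∈ J then ω (l, s) else 0) r
  let vt : Fin 5 → Option (Fin N) → Fin 5 → MvPolynomial (Fin N) ℂ := fun r a i =>
    Fin.cases (motive := fun _ => MvPolynomial (Fin N) ℂ) (zN g i)
      (fun s => Option.casesOn (motive := fun _ => MvPolynomial (Fin N) ℂ) a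
        (∑ l, if l ∈ J then 0 else ω (l, s) * pderiv l (zN g i)) fun l => pderiv l (zN g i)) r
  obtain ⟨e, he1, he2⟩ := TH920.MC.det_expand2 wt vt _ (by
      intro i r
      refine Fin.cases ?_ (fun s => ?_) r
      · rw [Fintype.sum_option]
        simp [wt, vt]
      · rw [Fintype.sum_option]
        change ∑ l, ω (l, s) * pderiv l (zN g i) =
          1 * (∑ l, if l ∈ J then 0 else ω (l, s) * pderiv l (zN g i)) +
          ∑ l, (if l ∈ J then ω (l, s) else 0) * pderiv l (zN g i)
        rw [one_mul, ← Finset.sum_add_distrib]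
        refine Finset.sum_congr rfl fun l _ => ?_
        by_cases hl : l ∈ J
        · rw [if_pos hl, if_pos hl, zero_add]
        · rw [if_neg hl, if_neg hl, zero_mul, add_zero]) hω
  let f : Fin 4 → Option (Fin N) := fun s => e s.succ
  have hfJ : ∀ s l, f s = some l → l ∈ J := by
    intro s l hs
    by_contra hl
    have h1 := he1 s.succ
    change wt s.succ (f s) ≠ 0 at h1
    rw [hs] at h1
    exact h1 (if_neg hl)
  let Z' : Matrix (Fin 5) (Fin 5) (MvPolynomial (Fin N) ℂ) := fun i r => vt r (e r) i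
  have hZ' : Z'.det ≠ 0 := he2
  have hZ'0 : ∀ i, Z' i 0 = zN g i := fun i => rfl
  have hZ'n : ∀ i s, f s = none → Z' i s.succ =
      ∑ l, if l ∈ J then 0 else ω (l, s) * pderiv l (zN g i) := by
    intro i s hs
    change vt s.succ (f s) i = _
    rw [hs]
    rfl
  have hZ's : ∀ i s l, f s = some l → Z' i s.succ = pderiv l (zN g i) := by
    intro i s l hs
    change vt s.succ (f s) i = _
    rw [hs]
    rfl
  obtain ⟨c, hc⟩ : ∃ c : Fin N → ℂ, eval c (Z'.det * g s01) ≠ 0 := by
    by_contra hcon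
    push Not at hcon
    exact mul_ne_zero hZ' hg0 (MvPolynomial.funext fun c => by rw [hcon, map_zero])
  rw [map_mul] at hc
  have hc1 : eval c Z'.det ≠ 0 := left_ne_zero_of_mul hc
  have hc2 : eval c (g s01) ≠ 0 := right_ne_zero_of_mul hc
  obtain ⟨A, hAs, hAn⟩ : ∃ A : Fin N → Fin 4 → ℂ,
      (∀ s l, f s = some l → ∀ l', A l' s = if l' = l then 1 else 0) ∧
      (∀ s, f s = none → ∀ l, A l s = if l ∈ J then 0 else eval c (ω (l, s))) := by
    refine ⟨fun l' s => Option.casesOn (motive := fun _ => ℂ) (f s)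
      (if l' ∈ J then 0 else eval c (ω (l', s))) fun l => if l' = l then 1 else 0, ?_, ?_⟩
    · intro s l hs l'
      dsimp only
      rw [hs]
    · intro s hs l
      dsimp only
      rw [hs]
  have h01 : aeval (TH314.PD.sub c A) (g s01) ≠ 0 := by
    intro h0
    apply hc2
    rw [← TH314.PD.eval_sub c A (g s01), h0, map_zero]
  refine ⟨c, A, f, hfJ, ?_, hAs, ?_, h01, restrOf h hrel (TH314.PD.sub c A) h01 ?_⟩
  · intro s s' l hs hs'
    by_contra hne
    apply hZ'
    refine Matrix.det_zero_of_column_eq (i := s.succ) (j := s'.succ)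
      (fun h => hne (Fin.succ_injective _ h)) fun i => ?_
    rw [hZ's i s l hs, hZ's i s' l hs']
  · intro s hs l hl
    rw [hAn s hs, if_pos hl]
  · intro h0
    have h1 : eval (0 : Fin 4 → ℂ)
        (TH314.PD.ZZ fun i => aeval (TH314.PD.sub c A) (zN g i)).det = eval c Z'.det := by
      rw [RingHom.map_det, RingHom.map_det]
      congr 1
      ext i r
      change eval 0 (TH314.PD.ZZ (fun i => aeval (TH314.PD.sub c A) (zN g i)) i r) =
        eval c (Z' i r)
      refine Fin.cases ?_ (fun s => ?_) r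
      · exact TH314.PD.eval_sub c A (zN g i)
      · change eval 0 (pderiv s (aeval (TH314.PD.sub c A) (zN g i))) = eval c (Z' i s.succ)
        rw [TH314.PD.chain_rule (pderiv s) (TH314.PD.sub c A) (zN g i), map_sum]
        rcases hfs : f s with _ | l
        · rw [hZ'n i s hfs, map_sum]
          refine Finset.sum_congr rfl fun l _ => ?_
          rw [map_mul, TH314.PD.eval_sub, TH314.PD.pderiv_sub, eval_C, hAn s hfs]
          by_cases hl : l ∈ J
          · rw [if_pos hl, if_pos hl, map_zero, mul_zero]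
          · rw [if_neg hl, if_neg hl, map_mul, mul_comm]
        · rw [hZ's i s l hfs, Finset.sum_eq_single l]
          · rw [map_mul, TH314.PD.eval_sub, TH314.PD.pderiv_sub, eval_C, hAs s l hfs, if_pos rfl,
              mul_one]
          · intro l' _ hl'
            rw [map_mul, TH314.PD.eval_sub, TH314.PD.pderiv_sub, eval_C, hAs s l hfs, if_neg hl',
              mul_zero]
          · intro h
            exact absurd (Finset.mem_univ _) h
    rw [h0, map_zero] at h1
    exact hc1 h1.symm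

end Mix

theorem Sg_mem {S : Finset (Fin 4)} {e k : ℕ} {p : MvPolynomial (Fin 4) ℂ} :
    TH920.MD.Sg S e k p ↔
      p ∈ restrictSupport ℂ {α : Fin 4 →₀ ℕ | (∀ l, l ∉ S → α l ≤ e) ∧ ∑ l ∈ S, α l ≤ k} := by
  rw [mem_restrictSupport_iff]
  exact Iff.rfl

/-- the bound -/
theorem sepG {e k : ℕ} (he : 1 ≤ e) (hk : 2 ≤ k) (S : Finset (Fin 4)) {t : Ix → ℂ}
    {ξ : Fin 6 → KK} (h : Gen t ξ) {g : Sx → MvPolynomial (Fin 4) ℂ}
    (hA : ∀ s, TH920.MD.Sg S e k (g s)) (hg0 : g s01 ≠ 0)
    (hrel : ∀ s, pl ξ s * al (g s01) = al (g s)) :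
    FiniteDimensional (IntermediateField.adjoin ℂ (Set.range ξ)) KK ∧
      82 * Module.finrank (IntermediateField.adjoin ℂ (Set.range ξ)) KK *
        ((k - 1) ^ (4 - S.card) * S.card.factorial) ≤
        120 * (e ^ (4 - S.card) * k ^ (4 - S.card) * (k - 1) ^ S.card) := by
  classical
  have hpos : (0 : ℝ) < ((k - 1) ^ (4 - S.card) * S.card.factorial : ℕ) := by
    exact_mod_cast Nat.mul_pos (pow_pos (by omega) _) (Nat.factorial_pos _)
  have hUp : Y196.Sp.UpB (restrictSupport ℂ
      {α : Fin 4 →₀ ℕ | (∀ l, l ∉ S → α l ≤ e) ∧ ∑ l ∈ S, α l ≤ k}) al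
      ((120 * (e ^ (4 - S.card) * k ^ (4 - S.card) * (k - 1) ^ S.card) : ℕ) /
        ((k - 1) ^ (4 - S.card) * S.card.factorial : ℕ)) := by
    intro Γ hΓ x p halg Y hY0 hYc hr0 hr1 hlast hind
    have h1 := TH920.MD.upper_md (k := k) he S al al_inj al_basis al_frac Γ
      (fun j => Sg_mem.2 (hΓ j)) x p Y hY0 hYc hr0 hr1 hlast hk hind
    rw [le_div_iff₀ hpos]
    have h2 : Module.finrank (TH314.PD.LL x p) KK * ((k - 1) ^ (4 - S.card) * S.card.factorial) ≤
        120 * (e ^ (4 - S.card) * k ^ (4 - S.card) * (k - 1) ^ S.card) := by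
      have h3 : (4 + 1).factorial = 120 := rfl
      rw [h3] at h1
      calc Module.finrank (TH314.PD.LL x p) KK * ((k - 1) ^ (4 - S.card) * S.card.factorial)
          = Module.finrank (TH314.PD.LL x p) KK * (k - 1) ^ (4 - S.card) * S.card.factorial := by
            ring
        _ ≤ (120 * e ^ (4 - S.card)) * (k ^ (4 - S.card) * (k - 1) ^ S.card) := h1
        _ = _ := by ring
    exact_mod_cast h2
  obtain ⟨h1, h2⟩ := mainG h _ hUp (fun s => Sg_mem.1 (hA s)) hg0 hrel
  refine ⟨h1, ?_⟩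
  rw [le_div_iff₀ hpos] at h2
  exact_mod_cast h2

end Run7.h164.GM
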