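import Pool.Agent.Run7.h164.ZC

set_option autoImplicit false
set_option linter.unusedVariables false

/-!
The alternating complex of a family of open subsets.
-/

open CategoryTheory Limits TopologicalSpace AlgebraicGeometry Opposite

namespace Run7.h164

noncomputable section

set_option backward.isDefEq.respectTransparency false

/-- Presheaves of abelian groups. -/
structure PSh (X : Scheme.{0}) where
  /-- the sections -/
  obj : X.Opens → Type
  [grp : ∀ W, AddCommGroup (obj W)]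
  /-- the restrictions -/
  res : ∀ {U V : X.Opens}, V ≤ U → obj U →+ obj V
  res_refl : ∀ (U : X.Opens) (s : obj U), res le_rfl s = s
  res_res : ∀ {U V W : X.Opens} (h : V ≤ U) (h' : W ≤ V) (s : obj U),
    res h' (res h s) = res (h'.trans h) s

attribute [instance] PSh.grp

variable {X : Scheme.{0}} (T : PSh X) {J : Type} (U : J → X.Opens)

/-- Intersections. -/
def UJ {n : ℕ} (σ : Fin (n + 1) → J) : X.Opens := ⨅ l, U (σ l)

lemma UJ_le {n m : ℕ} (σ : Fin (n + 1) → J) (φ : Fin (m + 1) → Fin (n + 1)) :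
    UJ U σ ≤ UJ U (fun l => σ (φ l)) := le_iInf fun l => iInf_le (fun l => U (σ l)) (φ l)

lemma UJ_le_one {n : ℕ} (σ : Fin (n + 1) → J) (l : Fin (n + 1)) : UJ U σ ≤ U (σ l) :=
  iInf_le (fun l => U (σ l)) l

/-- Cochains. -/
abbrev CC (n : ℕ) : Type := ∀ σ : Fin (n + 1) → J, T.obj (UJ U σ)

/-- The differential. -/
def dC (n : ℕ) : CC T U n →+ CC T U (n + 1) where
  toFun c σ := ∑ l : Fin (n + 2), (-1 : ℤ) ^ (l : ℕ) •
    T.res (UJ_le U σ l.succAbove) (c fun m => σ (l.succAbove m))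
  map_zero' := by
    funext σ
    change ∑ l : Fin (n + 2), (-1 : ℤ) ^ (l : ℕ) • T.res (UJ_le U σ l.succAbove) 0 = 0
    simp only [map_zero, smul_zero, Finset.sum_const_zero]
  map_add' c c' := by
    funext σ
    change ∑ l : Fin (n + 2), (-1 : ℤ) ^ (l : ℕ) • T.res (UJ_le U σ l.succAbove)
      (c (fun m => σ (l.succAbove m)) + c' (fun m => σ (l.succAbove m))) =
      ∑ l : Fin (n + 2), (-1 : ℤ) ^ (l : ℕ) • T.res (UJ_le U σ l.succAbove)
        (c fun m => σ (l.succAbove m)) + ∑ l : Fin (n + 2), (-1 : ℤ) ^ (l : ℕ) •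
          T.res (UJ_le U σ l.succAbove) (c' fun m => σ (l.succAbove m))
    rw [← Finset.sum_add_distrib]
    exact Finset.sum_congr rfl fun l _ => by rw [map_add, smul_add]

lemma dC_apply (n : ℕ) (c : CC T U n) (σ : Fin (n + 2) → J) : dC T U n c σ =
    ∑ l : Fin (n + 2), (-1 : ℤ) ^ (l : ℕ) •
      T.res (UJ_le U σ l.succAbove) (c fun m => σ (l.succAbove m)) := rfl

lemma res_congr {n : ℕ} {σ σ' : Fin (n + 1) → J} (h : σ = σ') (c : CC T U n) {V : X.Opens}
    (hV : V ≤ UJ U σ) (hV' : V ≤ UJ U σ') : T.res hV (c σ) = T.res hV' (c σ') := by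
  subst h
  rfl

/-- The cosimplicial group. -/
def cosim : CosimplicialObject AddCommGrpCat.{0} where
  obj Δ := AddCommGrpCat.of (∀ σ : Fin (Δ.len + 1) → J, T.obj (UJ U σ))
  map {Δ Δ'} φ := AddCommGrpCat.ofHom
    { toFun := fun c σ => T.res (UJ_le U σ φ.toOrderHom) (c fun m => σ (φ.toOrderHom m))
      map_zero' := by
        funext σ
        exact map_zero _
      map_add' := fun c c' => by
        funext σ
        exact map_add _ _ _ }
  map_id Δ := by
    ext c σ
    exact T.res_refl _ _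
  map_comp φ ψ := by
    ext c σ
    exact (T.res_res _ _ _).symm

lemma dC_eq (n : ℕ) (c : CC T U n) :
    (AlgebraicTopology.AlternatingCofaceMapComplex.objD (cosim T U) n).hom c = dC T U n c := by
  have h1 : ∀ (s : Finset (Fin (n + 2))),
      (∑ i ∈ s, (-1 : ℤ) ^ (i : ℕ) • (cosim T U).δ i).hom c =
        ∑ i ∈ s, (-1 : ℤ) ^ (i : ℕ) • ((cosim T U).δ i).hom c := by
    intro s
    induction s using Finset.induction_on with
    | empty => rfl
    | insert a s ha ih =>
      rw [Finset.sum_insert ha, Finset.sum_insert ha, ← ih]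
      rfl
  refine (h1 Finset.univ).trans ?_
  funext σ
  rw [Finset.sum_apply]
  rfl

lemma dC_dC (n : ℕ) (c : CC T U n) : dC T U (n + 1) (dC T U n c) = 0 := by
  rw [← dC_eq, ← dC_eq]
  have h := AlgebraicTopology.AlternatingCofaceMapComplex.d_squared (cosim T U) n
  exact congr($(h).hom c)

/-- Exactness in positive degrees. -/
def CEx : Prop := ∀ (n : ℕ) (c : CC T U (n + 1)), dC T U (n + 1) c = 0 → ∃ b, dC T U n b = c

variable {T U}

/-- Morphisms. -/
structure PHom (T T' : PSh X) where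
  /-- the maps -/
  f : ∀ W, T.obj W →+ T'.obj W
  nat : ∀ {V W : X.Opens} (h : W ≤ V) (s : T.obj V), f W (T.res h s) = T'.res h (f V s)

/-- The map on cochains. -/
def PHom.C {T T' : PSh X} (f : PHom T T') {n : ℕ} (c : CC T U n) : CC T' U n :=
  fun σ => f.f _ (c σ)

lemma PHom.dC {T T' : PSh X} (f : PHom T T') {n : ℕ} (c : CC T U n) :
    f.C (dC T U n c) = Run7.h164.dC T' U n (f.C c) := by
  funext σ
  change f.f _ (∑ l : Fin (n + 2), _) = _
  rw [map_sum]
  exact Finset.sum_congr rfl fun l _ => by rw [map_zsmul, f.nat]; rfl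

/-- Exactness passes to cokernels. -/
theorem CEx.coker {T₁ T₂ T₃ : PSh X} (f : PHom T₁ T₂) (g : PHom T₂ T₃)
    (hf : ∀ W, Function.Injective (f.f W))
    (hfg : ∀ W s, g.f W s = 0 ↔ ∃ t, f.f W t = s)
    (hg : ∀ (n : ℕ) (σ : Fin (n + 1) → J), Function.Surjective (g.f (UJ U σ)))
    (h₁ : CEx T₁ U) (h₂ : CEx T₂ U) : CEx T₃ U := by
  intro n c hc
  choose b hb using fun σ => hg _ σ (c σ)
  have hgb : g.C b = c := funext hb
  have h1 : g.C (dC T₂ U (n + 1) b) = 0 := by rw [g.dC, hgb, hc]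
  choose a ha using fun σ => (hfg _ _).1 (congrFun h1 σ)
  have hfa : f.C a = dC T₂ U (n + 1) b := funext ha
  have h2 : dC T₁ U (n + 2) a = 0 := by
    have h3 : f.C (dC T₁ U (n + 2) a) = 0 := by rw [f.dC, hfa, dC_dC]
    funext σ
    exact hf _ ((congrFun h3 σ).trans (map_zero _).symm)
  obtain ⟨a', rfl⟩ := h₁ _ a h2
  obtain ⟨b', hb'⟩ := h₂ n (b - f.C a') (by rw [map_sub, ← f.dC, hfa, sub_self])
  refine ⟨g.C b', ?_⟩
  rw [← g.dC, hb']
  funext σ
  change g.f _ (b σ - f.f _ (a' σ)) = c σ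
  rw [map_sub, hb, (hfg _ _).2 ⟨_, rfl⟩, sub_zero]

/-- Exactness passes to isomorphic presheaves. -/
theorem CEx.of_bij {T T' : PSh X} (f : PHom T T')
    (hf : ∀ (n : ℕ) (σ : Fin (n + 1) → J), Function.Bijective (f.f (UJ U σ)))
    (h : CEx T U) : CEx T' U := by
  intro n c hc
  choose b hb using fun σ => (hf _ σ).2 (c σ)
  have h1 : f.C b = c := funext hb
  have h2 : dC T U (n + 1) b = 0 := by
    have h3 : f.C (dC T U (n + 1) b) = 0 := by rw [f.dC, h1, hc]
    funext σ
    exact (hf _ _).1 ((congrFun h3 σ).trans (map_zero _).symm)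
  obtain ⟨a, rfl⟩ := h n b h2
  exact ⟨f.C a, by rw [← f.dC, h1]⟩

/-- Exactness passes to subobjects isomorphic presheaves. -/
theorem CEx.of_bij' {T T' : PSh X} (f : PHom T T')
    (hf : ∀ (n : ℕ) (σ : Fin (n + 1) → J), Function.Bijective (f.f (UJ U σ)))
    (h : CEx T' U) : CEx T U := by
  intro n c hc
  have h2 : dC T' U (n + 1) (f.C c) = 0 := by
    rw [← f.dC, hc]
    funext σ
    exact map_zero _
  obtain ⟨a, ha⟩ := h n _ h2
  choose b hb using fun σ => (hf _ σ).2 (a σ)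
  have h1 : f.C b = a := funext hb
  refine ⟨b, ?_⟩
  have h3 : f.C (dC T U n b) = f.C c := by rw [f.dC, h1, ha]
  funext σ
  exact (hf _ _).1 (congrFun h3 σ)

lemma UJ_cons_le {n : ℕ} (j : J) (σ : Fin (n + 1) → J) :
    UJ U (Fin.cons j σ : Fin (n + 2) → J) ≤ UJ U σ := le_iInf fun l => iInf_le
      (fun l => U ((Fin.cons j σ : Fin (n + 2) → J) l)) l.succ

lemma UJ_cons {n : ℕ} (j : J) (σ : Fin (n + 1) → J) :
    UJ U (Fin.cons j σ : Fin (n + 2) → J) = U j ⊓ UJ U σ := by
  apply le_antisymm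
  · exact le_inf (iInf_le (fun l => U ((Fin.cons j σ : Fin (n + 2) → J) l)) 0) (UJ_cons_le j σ)
  · refine le_iInf fun l => ?_
    refine Fin.cases ?_ (fun l => ?_) l
    · exact inf_le_left
    · exact inf_le_right.trans (iInf_le (fun l => U (σ l)) l)

/-- Contractions. -/
theorem cex_of_contraction [Fintype J]
    (π : ∀ (j : J) (n : ℕ) (σ : Fin (n + 1) → J), T.obj (U j ⊓ UJ U σ) →+ T.obj (UJ U σ))
    (hnat : ∀ (j : J) (n : ℕ) (σ : Fin (n + 2) → J) (l : Fin (n + 2))
      (s : T.obj (U j ⊓ UJ U (fun m => σ (l.succAbove m)))),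
      π j (n + 1) σ (T.res (inf_le_inf_left (U j) (UJ_le U σ l.succAbove)) s) =
        T.res (UJ_le U σ l.succAbove) (π j n (fun m => σ (l.succAbove m)) s))
    (hsum : ∀ (n : ℕ) (σ : Fin (n + 1) → J) (s : T.obj (UJ U σ)),
      ∑ j, π j n σ (T.res (inf_le_right : U j ⊓ UJ U σ ≤ UJ U σ) s) = s) : CEx T U := by
  intro n c hc
  -- the contraction
  refine ⟨fun σ => ∑ j, π j n σ (T.res (UJ_cons j σ).ge (c (Fin.cons j σ))), ?_⟩
  funext σ
  rw [dC_apply]
  have h1 : ∀ j, T.res (inf_le_right : U j ⊓ UJ U σ ≤ UJ U σ) (c σ) =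
      ∑ l : Fin (n + 2), (-1 : ℤ) ^ (l : ℕ) • T.res (inf_le_inf_left (U j) (UJ_le U σ l.succAbove))
        (T.res (UJ_cons j (fun m => σ (l.succAbove m))).ge
          (c (Fin.cons j (fun m => σ (l.succAbove m))))) := by
    intro j
    have h2 := congrFun hc (Fin.cons j σ : Fin (n + 3) → J)
    rw [dC_apply, Fin.sum_univ_succ] at h2
    have h3 := congrArg (T.res (UJ_cons (U := U) j σ).ge) h2
    have h0 : T.res (UJ_cons (U := U) j σ).ge ((0 : CC T U (n + 2)) (Fin.cons j σ)) = 0 :=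
      map_zero _
    rw [h0, map_add, map_zsmul, map_sum, T.res_res] at h3
    have h4 : (-1 : ℤ) ^ ((0 : Fin (n + 3)) : ℕ) = 1 := pow_zero _
    rw [h4, one_smul] at h3
    have h5 := eq_neg_of_add_eq_zero_left h3
    have h6 : T.res (inf_le_right : U j ⊓ UJ U σ ≤ UJ U σ) (c σ) =
        T.res (((UJ_cons (U := U) j σ).ge).trans (UJ_le U (Fin.cons j σ : Fin (n + 3) → J)
          (0 : Fin (n + 3)).succAbove))
          (c fun m => (Fin.cons j σ : Fin (n + 3) → J) ((0 : Fin (n + 3)).succAbove m)) := by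
      refine res_congr T U ?_ c _ _
      funext m
      rw [Fin.zero_succAbove, Fin.cons_succ]
    rw [h6]
    refine h5.trans ?_
    rw [← Finset.sum_neg_distrib]
    refine Finset.sum_congr rfl fun l _ => ?_
    rw [map_zsmul, T.res_res, T.res_res, ← neg_smul, Fin.val_succ, pow_succ, mul_neg, mul_one,
      neg_neg]
    congr 1
    refine res_congr T U ?_ c _ _
    funext m
    refine Fin.cases ?_ (fun m => ?_) m
    · rw [Fin.succ_succAbove_zero, Fin.cons_zero, Fin.cons_zero]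
    · rw [Fin.succ_succAbove_succ, Fin.cons_succ, Fin.cons_succ]
  have h7 := hsum (n + 1) σ (c σ)
  rw [← h7]
  simp only [h1, map_sum, map_zsmul, Finset.smul_sum]
  rw [Finset.sum_comm]
  refine Finset.sum_congr rfl fun j _ => Finset.sum_congr rfl fun l _ => ?_
  rw [← hnat j n σ l]

end

end Run7.h164
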