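import Pool.Agent.Run7.h164.CA

set_option autoImplicit false
set_option linter.unusedVariables false
set_option linter.unusedSectionVars false

/-!
Vanishing of higher morphisms from a line bundle, for a finite cover by affine charts.
-/

open CategoryTheory Limits TopologicalSpace AlgebraicGeometry Opposite ZeroObject

namespace Run7.h164

noncomputable section

set_option backward.isDefEq.respectTransparency false

open Pool.Agent.W506 Pool.Agent.R924 Pool.Agent.N212

variable {X : Scheme.{0}} {J : Type} {F : Frame X J} (δ : F.Div)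

section Families

variable (N : X.Modules)

lemma l₁ (W : X.Opens) (j l : J) : W ⊓ (F.U j ⊓ F.U l) ≤ W ⊓ F.U j :=
  inf_le_inf_left W inf_le_left

lemma l₂ (W : X.Opens) (j l : J) : W ⊓ (F.U j ⊓ F.U l) ≤ W ⊓ F.U l :=
  inf_le_inf_left W inf_le_right

/-- Families of sections which are compatible with respect to the transition functions. -/
def TF (W : X.Opens) : AddSubgroup (∀ j, Γ(N, W ⊓ F.U j)) where
  carrier := {s | ∀ j l, rs N (l₂ W j l) (s l) =
    ro (inf_le_right : W ⊓ (F.U j ⊓ F.U l) ≤ F.U j ⊓ F.U l) (Frame.tr δ j l) •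
      rs N (l₁ W j l) (s j)}
  add_mem' := by
    intro s t hs ht j l
    change rs N _ (s l + t l) = _ • rs N _ (s j + t j)
    rw [map_add, map_add, smul_add, hs, ht]
  zero_mem' := by
    intro j l
    change rs N _ 0 = _ • rs N _ 0
    rw [map_zero, map_zero, smul_zero]
  neg_mem' := by
    intro s hs j l
    change rs N _ (-s l) = _ • rs N _ (-s j)
    rw [map_neg, map_neg, smul_neg, hs]

variable {N} in
lemma tf_ext {W : X.Opens} {s t : TF δ N W} (h : ∀ j, s.1 j = t.1 j) : s = t :=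
  Subtype.ext (funext h)

/-- The presheaf of compatible families. -/
def TP : PSh X where
  obj W := TF δ N W
  res {U V} h :=
    { toFun := fun s => ⟨fun j => rs N (inf_le_inf_right (F.U j) h) (s.1 j), fun j l => by
        have h1 := congrArg (rs N (inf_le_inf_right (F.U j ⊓ F.U l) h)) (s.2 j l)
        rw [rs_rs, rs_smul, rs_rs, ro_ro] at h1
        rw [rs_rs, rs_rs]
        exact h1⟩
      map_zero' := tf_ext δ fun j => map_zero _
      map_add' := fun s t => tf_ext δ fun j => map_add _ _ _ }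
  res_refl U s := tf_ext δ fun j => rs_refl _ _
  res_res h h' s := tf_ext δ fun j => rs_rs _ _ _

lemma TP_res {U V : X.Opens} (h : V ≤ U) (s : TF δ N U) (j : J) :
    ((TP δ N).res h s).1 j = rs N (inf_le_inf_right (F.U j) h) (s.1 j) := rfl

end Families

section Map

variable {N N' N'' : X.Modules}

/-- The induced morphism of presheaves. -/
def tpMap (φ : N ⟶ N') : PHom (TP δ N) (TP δ N') where
  f W :=
    { toFun := fun s => ⟨fun j => ap φ _ (s.1 j), fun j l => by
        rw [← ap_rs, s.2 j l, map_smul, ap_rs]⟩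
      map_zero' := tf_ext δ fun j => map_zero _
      map_add' := fun s t => tf_ext δ fun j => map_add _ _ _ }
  nat h s := tf_ext δ fun j => ap_rs _ _ _

lemma tpMap_apply (φ : N ⟶ N') {W : X.Opens} (s : TF δ N W) (j : J) :
    ((tpMap δ φ).f W s).1 j = ap φ _ (s.1 j) := rfl

end Map

/-- The family given by a section over an open subset of a chart. -/
lemma exists_tf {N : X.Modules} {W : X.Opens} (i : J) (hW : W ≤ F.U i) (s : Γ(N, W)) :
    ∃ t : TF δ N W, t.1 i = rs N inf_le_left s := by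
  refine ⟨⟨fun j => ro (le_inf (inf_le_left.trans hW) inf_le_right : W ⊓ F.U j ≤ F.U i ⊓ F.U j)
    (Frame.tr δ i j) • rs N (inf_le_left : W ⊓ F.U j ≤ W) s, fun j l => ?_⟩, ?_⟩
  · rw [rs_smul, rs_smul, rs_rs, rs_rs, ro_ro, ro_ro, smul_smul]
    congr 1
    exact (trZ_cocycle δ i j l _ _ _).symm
  · change ro _ (Frame.tr δ i i) • rs N (inf_le_left : W ⊓ F.U i ≤ W) s = _
    rw [trZ_self, map_one, one_smul]

/-- Families are determined by one of their members over open subsets of a chart. -/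
lemma tf_inj {N : X.Modules} {W : X.Opens} (i : J) (hW : W ≤ F.U i) {s t : TF δ N W}
    (h : s.1 i = t.1 i) : s = t := by
  refine tf_ext δ fun j => ?_
  have hle : W ⊓ F.U j ≤ W ⊓ (F.U i ⊓ F.U j) := le_inf inf_le_left
    (le_inf (inf_le_left.trans hW) inf_le_right)
  have key : ∀ s : TF δ N W, s.1 j = ro (le_inf (inf_le_left.trans hW) inf_le_right :
      W ⊓ F.U j ≤ F.U i ⊓ F.U j) (Frame.tr δ i j) • rs N (le_inf inf_le_left
        (inf_le_left.trans hW) : W ⊓ F.U j ≤ W ⊓ F.U i) (s.1 i) := by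
    intro s
    have h1 := congrArg (rs N hle) (s.2 i j)
    rw [rs_rs, rs_smul, rs_rs, ro_ro] at h1
    rw [rs_refl] at h1
    exact h1
  rw [key, key, h]

section SES

variable (S : ShortComplex X.Modules) (hS : S.ShortExact)

include hS

lemma tp_inj (W : X.Opens) : Function.Injective ((tpMap δ S.f).f W) := by
  have := hS.mono_f
  intro s t hst
  refine tf_ext δ fun j => ?_
  exact ap_injective S.f _ (congrArg (fun z : TF δ S.X₂ W => z.1 j) hst)

lemma tp_exact (W : X.Opens) (s : TF δ S.X₂ W) : (tpMap δ S.g).f W s = 0 ↔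
    ∃ t, (tpMap δ S.f).f W t = s := by
  have := hS.mono_f
  constructor
  · intro h
    have h1 : ∀ j, ap S.g _ (s.1 j) = 0 := fun j =>
      congrArg (fun z : TF δ S.X₃ W => z.1 j) h
    choose t ht using fun j => ap_exact S hS.exact _ _ (h1 j)
    refine ⟨⟨t, fun j l => ?_⟩, tf_ext δ fun j => ht j⟩
    apply ap_injective S.f
    rw [map_smul, ap_rs, ap_rs, ht, ht, s.2 j l]
  · rintro ⟨t, rfl⟩
    exact tf_ext δ fun j => ap_fg_zero S _ _

lemma tp_surj {W : X.Opens} (i : J) (hW : W ≤ F.U i) (hs : SumOn S.X₁ (F.U i))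
    (haff : IsAffineOpen W) : Function.Surjective ((tpMap δ S.g).f W) := by
  intro t
  obtain ⟨s, hs'⟩ := ses_lift S hS hs haff hW (rs _ (le_inf le_rfl hW) (t.1 i))
  obtain ⟨t', ht'⟩ := exists_tf δ i hW s
  refine ⟨t', tf_inj δ i hW ?_⟩
  rw [tpMap_apply, ht', ap_rs, hs', rs_rs, rs_refl]

end SES

/-- The modules without higher cohomology. -/
structure CCls (N : X.Modules) : Prop where
  sum : ∀ j, SumOn N (F.U j)
  ex : CEx (TP δ N) F.U

variable {δ}

section Closure

variable {α : F.Div} (A : Frame.Ample F α)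

include A in
lemma affine_UJ {n : ℕ} (σ : Fin (n + 1) → J) : IsAffineOpen (UJ F.U σ) := by
  have key : ∀ (m : ℕ) (W : X.Opens) (j : J) (τ : Fin m → J), IsAffineOpen W → W ≤ F.U j →
      IsAffineOpen (W ⊓ ⨅ l, F.U (τ l)) := by
    intro m
    induction m with
    | zero =>
      intro W j τ hW hle
      rw [iInf_of_empty, inf_top_eq]
      exact hW
    | succ m ih =>
      intro W j τ hW hle
      have h1 : W ⊓ ⨅ l, F.U (τ l) = (W ⊓ F.U (τ 0)) ⊓ ⨅ l : Fin m, F.U (τ l.succ) := by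
        rw [inf_assoc]
        congr 1
        apply le_antisymm
        · exact le_inf (iInf_le (fun l => F.U (τ l)) 0) (le_iInf fun l =>
            iInf_le (fun l => F.U (τ l)) l.succ)
        · refine le_iInf fun l => ?_
          refine Fin.cases ?_ (fun l => ?_) l
          · exact inf_le_left
          · exact inf_le_right.trans (iInf_le (fun l : Fin m => F.U (τ l.succ)) l)
      rw [h1]
      have h2 : X.basicOpen (ro hle (A.co j (τ 0))) = W ⊓ F.U (τ 0) := by
        rw [basicOpen_ro, A.basicOpen_co, ← inf_assoc, inf_eq_left.2 hle]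
      refine ih _ (τ 0) (fun l => τ l.succ) ?_ inf_le_right
      rw [← h2]
      exact hW.basicOpen _
  have h3 : UJ F.U σ = F.U (σ 0) ⊓ ⨅ l : Fin (n + 1), F.U (σ l) := by
    apply le_antisymm
    · exact le_inf (UJ_le_one F.U σ 0) le_rfl
    · exact inf_le_right
  rw [h3]
  exact key _ _ (σ 0) _ (A.aff _) le_rfl

include A in
/-- Quotients. -/
theorem CCls.coker (S : ShortComplex X.Modules) (hS : S.ShortExact) (h₁ : CCls δ S.X₁)
    (h₂ : CCls δ S.X₂) : CCls δ S.X₃ where
  sum j := sumOn_coker S hS (h₁.sum j) (h₂.sum j)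
  ex := CEx.coker (tpMap δ S.f) (tpMap δ S.g) (tp_inj δ S hS) (tp_exact δ S hS)
    (fun n σ => tp_surj δ S hS (σ 0) (UJ_le_one F.U σ 0) (h₁.sum _) (affine_UJ A σ)) h₁.ex h₂.ex

variable [Finite J]

/-- Families over charts which agree on intersections. -/
lemma exists_hom_of_zero {N : X.Modules} (c : CC (TP δ N) F.U 0) (hc : dC (TP δ N) F.U 0 c = 0) :
    ∃ φ : Frame.lb δ ⟶ N, ∀ j, ap φ _ (Frame.lbE δ j) =
      rs N (le_inf (le_iInf fun _ => le_rfl) le_rfl) ((c fun _ => j).1 j) := by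
  refine Frame.lb_hom δ N _ ?_
  intro j l
  -- the cocycle condition
  let σ : Fin 2 → J := ![j, l]
  have h1 := congrFun hc σ
  rw [dC_apply, Fin.sum_univ_two] at h1
  have hle0 : F.U j ⊓ F.U l ≤ UJ F.U σ := le_iInf fun m => by
    fin_cases m
    · exact inf_le_left
    · exact inf_le_right
  have hσ0 : (fun m : Fin 1 => σ ((0 : Fin 2).succAbove m)) = fun _ => l := by
    funext m
    fin_cases m
    rfl
  have hσ1 : (fun m : Fin 1 => σ ((1 : Fin 2).succAbove m)) = fun _ => j := by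
    funext m
    fin_cases m
    rfl
  have h2 : (TP δ N).res (hle0.trans (UJ_le F.U σ (0 : Fin 2).succAbove))
      (c fun m => σ ((0 : Fin 2).succAbove m)) =
      (TP δ N).res (hle0.trans (UJ_le F.U σ (1 : Fin 2).succAbove))
        (c fun m => σ ((1 : Fin 2).succAbove m)) := by
    have h3 := congrArg ((TP δ N).res hle0) h1
    have h0 : (TP δ N).res hle0 ((0 : CC (TP δ N) F.U 1) σ) = 0 := map_zero _
    have e0 : (-1 : ℤ) ^ ((0 : Fin 2) : ℕ) = 1 := rfl
    have e1 : (-1 : ℤ) ^ ((1 : Fin 2) : ℕ) = -1 := rfl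
    rw [h0, map_add, map_zsmul, map_zsmul, (TP δ N).res_res, (TP δ N).res_res, e0, e1, one_smul,
      neg_smul, one_smul, add_neg_eq_zero] at h3
    exact h3
  have hj : F.U j ⊓ F.U l ≤ UJ F.U (fun _ : Fin 1 => j) := le_iInf fun _ => inf_le_left
  have hl : F.U j ⊓ F.U l ≤ UJ F.U (fun _ : Fin 1 => l) := le_iInf fun _ => inf_le_right
  have h4 : (TP δ N).res hl (c fun _ => l) = (TP δ N).res hj (c fun _ => j) := by
    rw [← res_congr (TP δ N) F.U hσ0 c (hle0.trans (UJ_le F.U σ (0 : Fin 2).succAbove)) hl,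
      ← res_congr (TP δ N) F.U hσ1 c (hle0.trans (UJ_le F.U σ (1 : Fin 2).succAbove)) hj]
    exact h2
  have h5 := congrArg (fun z : TF δ N (F.U j ⊓ F.U l) => z.1 l) h4
  change rs N _ ((c fun _ => l).1 l) = rs N _ ((c fun _ => j).1 l) at h5
  have h6 := (c fun _ => j).2 j l
  have hle1 : F.U j ⊓ F.U l ≤ UJ F.U (fun _ : Fin 1 => j) ⊓ (F.U j ⊓ F.U l) := le_inf hj le_rfl
  have h7 := congrArg (rs N hle1) h6
  rw [rs_rs, rs_smul, rs_rs, ro_ro, ro_refl] at h7
  rw [rs_rs, rs_rs]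
  have h8 := congrArg (rs N (le_inf le_rfl inf_le_right : F.U j ⊓ F.U l ≤
    (F.U j ⊓ F.U l) ⊓ F.U l)) h5
  rw [rs_rs, rs_rs] at h8
  exact h8.trans h7

include A in
/-- Lifting of morphisms from the line bundle. -/
theorem CCls.lift (S : ShortComplex X.Modules) (hS : S.ShortExact) (h₁ : CCls δ S.X₁)
    (q : Frame.lb δ ⟶ S.X₃) : ∃ g : Frame.lb δ ⟶ S.X₂, g ≫ S.g = q := by
  -- the family of the morphism
  have h1 : ∀ j, ∃ t : TF δ S.X₂ (F.U j), ap S.g _ (t.1 j) =
      rs _ inf_le_left (ap q _ (Frame.lbE δ j)) := by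
    intro j
    obtain ⟨g, hg⟩ := ses_lift S hS (h₁.sum j) (A.aff j) le_rfl (ap q _ (Frame.lbE δ j))
    obtain ⟨t, ht⟩ := exists_tf δ j le_rfl g
    exact ⟨t, by rw [ht, ap_rs, hg]⟩
  choose t ht using h1
  -- the cochain
  let c : CC (TP δ S.X₂) F.U 0 := fun σ => (TP δ S.X₂).res (UJ_le_one F.U σ 0) (t (σ 0))
  have hq : ∀ (W : X.Opens) (j : J) (hW : W ≤ F.U j) (l : J),
      ((tpMap δ S.g).f W ((TP δ S.X₂).res hW (t j))).1 l =
        rs _ inf_le_right (ap q _ (Frame.lbE δ l)) := by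
    intro W j hW l
    have e1 : (tpMap δ S.g).f W ((TP δ S.X₂).res hW (t j)) =
        (⟨fun l => rs _ (inf_le_right : W ⊓ F.U l ≤ F.U l) (ap q _ (Frame.lbE δ l)), fun i l => by
          rw [rs_rs, rs_rs]
          have h2 := congrArg (rs S.X₃ (inf_le_right : W ⊓ (F.U i ⊓ F.U l) ≤ _))
            (congrArg (ap q _) (Frame.lb_compat δ i l))
          rw [map_smul, ap_rs, ap_rs, rs_rs, rs_smul, rs_rs] at h2
          exact h2⟩ : TF δ S.X₃ W) := by
      refine tf_inj δ j hW ?_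
      rw [tpMap_apply, TP_res, ap_rs, ht, rs_rs]
    rw [e1]
  have h2 : (tpMap δ S.g).C (dC (TP δ S.X₂) F.U 0 c) = 0 := by
    rw [(tpMap δ S.g).dC]
    funext σ
    rw [dC_apply, Fin.sum_univ_two]
    have e0 : (-1 : ℤ) ^ ((0 : Fin 2) : ℕ) = 1 := rfl
    have e1 : (-1 : ℤ) ^ ((1 : Fin 2) : ℕ) = -1 := rfl
    rw [e0, e1, one_smul, neg_smul, one_smul]
    change _ + -_ = (0 : TF δ S.X₃ (UJ F.U σ))
    rw [add_neg_eq_zero]
    refine tf_ext δ fun l => ?_
    rw [TP_res, TP_res]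
    change rs _ _ (((tpMap δ S.g).f _ ((TP δ S.X₂).res _ (t _))).1 l) =
      rs _ _ (((tpMap δ S.g).f _ ((TP δ S.X₂).res _ (t _))).1 l)
    rw [hq, hq, rs_rs, rs_rs]
  choose a ha using fun σ => (tp_exact δ S hS _ _).1 (congrFun h2 σ)
  have hfa : (tpMap δ S.f).C a = dC (TP δ S.X₂) F.U 0 c := funext ha
  have h3 : dC (TP δ S.X₁) F.U 1 a = 0 := by
    have h4 : (tpMap δ S.f).C (dC (TP δ S.X₁) F.U 1 a) = 0 := by
      rw [(tpMap δ S.f).dC, hfa, dC_dC]
    funext σ
    exact tp_inj δ S hS _ ((congrFun h4 σ).trans (map_zero _).symm)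
  obtain ⟨b, rfl⟩ := h₁.ex 0 a h3
  obtain ⟨φ, hφ⟩ := exists_hom_of_zero (c - (tpMap δ S.f).C b)
    (by rw [map_sub, ← (tpMap δ S.f).dC, hfa, sub_self])
  refine ⟨φ, Frame.lb_ext δ fun j => ?_⟩
  rw [ap_comp, hφ]
  have h5 : ap S.g _ (((c - (tpMap δ S.f).C b) fun _ => j).1 j) =
      rs _ inf_le_right (ap q _ (Frame.lbE δ j)) := by
    change ap S.g _ (((TP δ S.X₂).res _ (t j)).1 j - ap S.f _ ((b fun _ => j).1 j)) = _
    rw [map_sub, ap_fg_zero S, sub_zero]
    exact hq _ j _ j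
  refine (ap_rs S.g _ _).trans ((congrArg (rs S.X₃ _) h5).trans ?_)
  rw [rs_rs, rs_refl]

/-! ### Injective objects -/

lemma jj_bij (i : J) (I : X.Modules) {V W : X.Opens} (h : W ≤ V) (h' : V ⊓ F.U i ≤ W) :
    Function.Bijective (rs (jj (F.U i) I) h) := by
  have h1 : ∀ s, jjE (F.U i) I _ (rs (jj (F.U i) I) h s) =
      rs I (inf_le_inf_right (F.U i) h) (jjE (F.U i) I V s) := jjE_rs _ _ _
  have h2 := rs_bijective (N := I) (inf_le_inf_right (F.U i) h : W ⊓ F.U i ≤ V ⊓ F.U i)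
    (le_inf h' inf_le_right)
  constructor
  · intro s t hst
    apply (jjE (F.U i) I V).injective
    apply h2.1
    rw [← h1, ← h1, hst]
  · intro s
    obtain ⟨t, ht⟩ := h2.2 (jjE (F.U i) I _ s)
    refine ⟨(jjE (F.U i) I V).symm t, (jjE (F.U i) I _).injective ?_⟩
    rw [h1, AddEquiv.apply_symm_apply, ht]

lemma tp_jj_bij (i : J) (I : X.Modules) (V : X.Opens) : Function.Bijective
    ((TP δ (jj (F.U i) I)).res (inf_le_right : F.U i ⊓ V ≤ V)) := by
  have hb : ∀ j, Function.Bijective (rs (jj (F.U i) I)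
      (inf_le_inf_right (F.U j) (inf_le_right : F.U i ⊓ V ≤ V))) := fun j =>
    jj_bij i I _ (le_inf (le_inf inf_le_right (inf_le_left.trans inf_le_left))
      (inf_le_left.trans inf_le_right))
  constructor
  · intro s t hst
    exact tf_ext δ fun j => (hb j).1 (congrArg (fun z : TF δ (jj (F.U i) I) _ => z.1 j) hst)
  · intro s
    choose t ht using fun j => (hb j).2 (s.1 j)
    refine ⟨⟨t, fun j l => ?_⟩, tf_ext δ fun j => ht j⟩
    have hle : (F.U i ⊓ V) ⊓ (F.U j ⊓ F.U l) ≤ V ⊓ (F.U j ⊓ F.U l) :=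
      inf_le_inf_right _ inf_le_right
    apply (jj_bij i I hle (le_inf (le_inf inf_le_right (inf_le_left.trans inf_le_left))
      (inf_le_left.trans inf_le_right))).1
    have h1 := s.2 j l
    rw [← ht j, ← ht l, rs_rs, rs_rs] at h1
    rw [rs_smul, rs_rs, rs_rs, ro_ro]
    exact h1

theorem cex_jj (i : J) (I : X.Modules) : CEx (TP δ (jj (F.U i) I)) F.U := by
  classical
  have := Fintype.ofFinite J
  let e : ∀ V : X.Opens, (TP δ (jj (F.U i) I)).obj V ≃+ (TP δ (jj (F.U i) I)).obj (F.U i ⊓ V) :=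
    fun V => AddEquiv.ofBijective _ (tp_jj_bij i I V)
  have he : ∀ V s, e V s = (TP δ (jj (F.U i) I)).res (inf_le_right : F.U i ⊓ V ≤ V) s :=
    fun V s => rfl
  let π : ∀ (j : J) (V : X.Opens), (TP δ (jj (F.U i) I)).obj (F.U j ⊓ V) →+
      (TP δ (jj (F.U i) I)).obj V := fun j V =>
    if h : j = i then (e V).symm.toAddMonoidHom.comp
      ((TP δ (jj (F.U i) I)).res (le_of_eq (by rw [h]))) else 0
  have hπ : ∀ (V : X.Opens) (s), π i V s = (e V).symm s := by
    intro V s
    change (if h : i = i then (e V).symm.toAddMonoidHom.comp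
      ((TP δ (jj (F.U i) I)).res (le_of_eq (by rw [h]))) else 0 :
        (TP δ (jj (F.U i) I)).obj (F.U i ⊓ V) →+ _) s = _
    rw [dif_pos rfl]
    change (e V).symm ((TP δ (jj (F.U i) I)).res _ s) = _
    rw [(TP δ (jj (F.U i) I)).res_refl]
  have hπ' : ∀ (j : J) (V : X.Opens) (s), j ≠ i → π j V s = 0 := by
    intro j V s hj
    change (if h : j = i then (e V).symm.toAddMonoidHom.comp
      ((TP δ (jj (F.U i) I)).res (le_of_eq (by rw [h]))) else 0 :
        (TP δ (jj (F.U i) I)).obj (F.U j ⊓ V) →+ _) s = _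
    rw [dif_neg hj]
    rfl
  refine cex_of_contraction (fun j n σ => π j _) ?_ ?_
  · intro j n σ l s
    by_cases hj : j = i
    · subst hj
      rw [hπ, hπ]
      apply (e _).injective
      rw [AddEquiv.apply_symm_apply, he, (TP δ (jj (F.U j) I)).res_res]
      have h1 : s = (TP δ (jj (F.U j) I)).res inf_le_right ((e _).symm s) := by
        rw [← he, AddEquiv.apply_symm_apply]
      conv_lhs => rw [h1]
      rw [(TP δ (jj (F.U j) I)).res_res]
    · rw [hπ' _ _ _ hj, hπ' _ _ _ hj, map_zero]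
  · intro n σ s
    rw [Finset.sum_eq_single i]
    · rw [hπ]
      apply (e _).injective
      rw [AddEquiv.apply_symm_apply, he]
    · intro j _ hj
      exact hπ' _ _ _ hj
    · intro h
      exact absurd (Finset.mem_univ _) h

omit [Finite J] in
lemma tpMap_C_add {N N' : X.Modules} (φ ψ : N ⟶ N') {n : ℕ} (c : CC (TP δ N) F.U n) :
    (tpMap δ (φ + ψ)).C c = (tpMap δ φ).C c + (tpMap δ ψ).C c := by
  funext σ
  exact tf_ext δ fun j => ap_add _ _ _ _

omit [Finite J] in
lemma tpMap_C_comp {N N' N'' : X.Modules} (φ : N ⟶ N') (ψ : N' ⟶ N'') {n : ℕ}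
    (c : CC (TP δ N) F.U n) : (tpMap δ (φ ≫ ψ)).C c = (tpMap δ ψ).C ((tpMap δ φ).C c) := by
  funext σ
  exact tf_ext δ fun j => ap_comp _ _ _ _

omit [Finite J] in
lemma tpMap_C_id {N : X.Modules} {n : ℕ} (c : CC (TP δ N) F.U n) :
    (tpMap δ (𝟙 N)).C c = c := by
  funext σ
  exact tf_ext δ fun j => ap_id _ _

omit [Finite J] in
lemma tpMap_C_zero {N N' : X.Modules} {n : ℕ} (φ : N ⟶ N') :
    (tpMap δ φ).C (0 : CC (TP δ N) F.U n) = 0 := by
  funext σ
  exact map_zero _

omit [Finite J] in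
theorem cex_biprod {M N : X.Modules} (hM : CEx (TP δ M) F.U) (hN : CEx (TP δ N) F.U) :
    CEx (TP δ (M ⊞ N)) F.U := by
  intro n c hc
  obtain ⟨a, ha⟩ := hM n ((tpMap δ biprod.fst).C c) (by
    rw [← (tpMap δ biprod.fst).dC, hc, tpMap_C_zero])
  obtain ⟨b, hb⟩ := hN n ((tpMap δ biprod.snd).C c) (by
    rw [← (tpMap δ biprod.snd).dC, hc, tpMap_C_zero])
  refine ⟨(tpMap δ biprod.inl).C a + (tpMap δ biprod.inr).C b, ?_⟩
  rw [map_add, ← (tpMap δ biprod.inl).dC, ← (tpMap δ biprod.inr).dC, ha, hb, ← tpMap_C_comp,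
    ← tpMap_C_comp, ← tpMap_C_add, biprod.total, tpMap_C_id]

omit [Finite J] in
theorem cex_zero {N : X.Modules} (hN : IsZero N) : CEx (TP δ N) F.U := by
  intro n c _
  refine ⟨0, ?_⟩
  rw [map_zero]
  have h1 := tpMap_C_id (δ := δ) c
  rw [← h1, hN.eq_of_src (𝟙 N) 0]
  funext σ
  exact (tf_ext δ fun j => rfl)

omit [Finite J] in
lemma exists_inj_aux (hf : ∀ i I, CEx (TP δ (jj (F.U i) I)) F.U) (N : X.Modules) (s : Finset J) :
    ∃ (I : X.Modules) (f : N ⟶ I), Injective I ∧ CEx (TP δ I) F.U ∧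
      ∀ j ∈ s, ∀ W : X.Opens, W ≤ F.U j → Function.Injective (ap f W) := by
  classical
  induction s using Finset.induction_on with
  | empty =>
    refine ⟨0, 0, inferInstance, cex_zero (isZero_zero _), ?_⟩
    intro j hj
    exact absurd hj (Finset.notMem_empty j)
  | insert i s _ ih =>
    obtain ⟨I, f, hI, hc, hs⟩ := ih
    have hJ : Injective (jj (F.U i) (Injective.under N)) := injective_jj _ _
    refine ⟨I ⊞ jj (F.U i) (Injective.under N),
      biprod.lift f (Injective.ι N ≫ jjU (F.U i) (Injective.under N)), inferInstance,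
      cex_biprod hc (hf i _), ?_⟩
    intro j hj W hW a b hab
    rcases Finset.mem_insert.1 hj with rfl | hj
    · have h1 := congrArg (ap (biprod.snd : I ⊞ jj (F.U j) (Injective.under N) ⟶ _) W) hab
      rw [← ap_comp, ← ap_comp, biprod.lift_snd, ap_comp, ap_comp] at h1
      have h2 := congrArg (jjE (F.U j) (Injective.under N) W) h1
      rw [jjE_jjU, jjE_jjU, ← ap_rs, ← ap_rs] at h2
      have h3 := ap_injective (Injective.ι N) _ h2
      have h4 := congrArg (rs N (le_inf le_rfl hW : W ≤ W ⊓ F.U j)) h3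
      rwa [rs_rs, rs_rs, rs_refl, rs_refl] at h4
    · have h1 := congrArg (ap (biprod.fst : I ⊞ jj (F.U i) (Injective.under N) ⟶ _) W) hab
      rw [← ap_comp, ← ap_comp, biprod.lift_fst] at h1
      exact hs j hj W hW h1

/-- Enough injectives in the class. -/
theorem CCls.exists_inj {N : X.Modules} (h : CCls δ N) :
    ∃ (I : X.Modules) (f : N ⟶ I), Injective I ∧ Mono f ∧ CCls δ I := by
  have := Fintype.ofFinite J
  obtain ⟨I, f, hI, hc, hs⟩ := exists_inj_aux (δ := δ) cex_jj N Finset.univ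
  refine ⟨I, f, hI, ?_, ⟨fun j => sumOn_of_flasque (flasque_of_injective I) _, hc⟩⟩
  apply mono_of_ap_injective
  intro W s t hst
  apply ext_rs_of_mem
  intro x hx
  obtain ⟨j, hj⟩ := F.cover x
  refine ⟨W ⊓ F.U j, inf_le_left, ⟨hx, hj⟩, ?_⟩
  apply hs j (Finset.mem_univ j) _ inf_le_right
  rw [ap_rs, ap_rs, hst]

attribute [local instance] HasDerivedCategory.standard

include A in
/-- Vanishing of higher cohomology. -/
theorem CCls.hom_eq_zero {N : X.Modules} (h : CCls δ N) (n : ℕ)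
    (f : sg (Frame.lb δ) ⟶ (sg N)⟦((n + 1 : ℕ) : ℤ)⟧) : f = 0 := by
  have : HasExt X.Modules := hasExt_of_hasDerivedCategory X.Modules
  have h1 := ext_vanish (C := X.Modules) (fun N => CCls δ N) (Frame.lb δ)
    (fun N hN => hN.exists_inj) (fun S hS h₁ h₂ => CCls.coker A S hS h₁ h₂)
    (fun S hS h₁ h₂ q => CCls.lift A S hS h₁ q) n N h
  have h2 := h1 (Abelian.Ext.homAddEquiv.symm f)
  exact (AddEquiv.map_eq_zero_iff _).1 h2

end Closure

end

end Run7.h164
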