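import Pool.Agent.Run7.h164.NW

set_option autoImplicit false
set_option linter.unusedVariables false

/-!
The sheaves associated with Clifford modules have no higher cohomology.
-/

open CategoryTheory Limits TopologicalSpace AlgebraicGeometry Opposite TopCat

namespace Run7.h164

noncomputable section

set_option backward.isDefEq.respectTransparency false

open Pool.Agent.W506 Pool.Agent.N212
open Pool.Agent.R924 (DD Frame fr fr_mul fr_one)

variable (V : Verra) {sd : Bool}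

lemma VF_U (j : Fin 3 × Fin 3) : (VF V).U j = DD (rg V.G) (gg V j) := rfl

lemma gg_mem1 (j : Fin 3 × Fin 3) : gg V j ∈ rg V.G (1 * 1) := gg_mem V j

/-- The quotient of two generators. -/
def qf (j j' : Fin 3 × Fin 3) : Γ(VX V, (VF V).U j) := fr (gg_mem V j) 1 (gg V j') (gg_mem V j')

lemma fv_mul {U : (VX V).Opens} (f g : Γ(VX V, U)) (x : ProjectiveSpectrum.top (rg V.G))
    (hx : x ∈ U) : fv (f * g) x hx = fv f x hx * fv g x hx := rfl

lemma fv_one {U : (VX V).Opens} (x : ProjectiveSpectrum.top (rg V.G))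
    (hx : x ∈ U) : fv (1 : Γ(VX V, U)) x hx = 1 := rfl

lemma qf_smul {N : GM (rg V.G)} (j j' : Fin 3 × Fin 3) (x : ProjectiveSpectrum.top (rg V.G))
    (hx : x ∈ (VF V).U j) (m : N.M) (b : pc x) :
    (fv (qf V j j') x hx).val • (LocalizedModule.mk m b : Lo N x) =
      LocalizedModule.mk (gg V j' • m) (⟨gg V j, hx⟩ * b) := by
  rw [qf, fv_fr, mk_smul_mk']
  congr 1
  apply Subtype.ext
  change gg V j ^ 1 * (b : RF V.G) = gg V j * (b : RF V.G)
  rw [pow_one]

lemma shD_one : ShD V sd 1 0 := by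
  intro A₀ _ _ a M ha k l x hx m
  have h1 : Frame.tr (1 : (VF V).Div) (ch sd 0 k) (ch sd 0 l) = 1 := by
    apply (VF V).inj₂
    rw [Frame.ro_tr, map_one]
    change ((1 * 1⁻¹ : (Γ(VX V, (VF V).T))ˣ) : Γ(VX V, (VF V).T)) = 1
    rw [inv_one, mul_one, Units.val_one]
  rw [h1, fv_one, HomogeneousLocalization.val_one, one_smul, zero_smul, shL_zero]

lemma shD_mul {δ δ' : (VF V).Div} {b b' : ℤ} (h : ShD V sd δ b) (h' : ShD V sd δ' b') :
    ShD V sd (δ * δ') (b + b') := by
  intro A₀ _ _ a M ha k l x hx m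
  have h1 : Frame.tr (δ * δ') (ch sd 0 k) (ch sd 0 l) =
      Frame.tr δ (ch sd 0 k) (ch sd 0 l) * Frame.tr δ' (ch sd 0 k) (ch sd 0 l) := by
    apply (VF V).inj₂
    rw [map_mul, Frame.ro_tr, Frame.ro_tr, Frame.ro_tr, ← Units.val_mul]
    congr 1
    change (δ.1 _ * δ'.1 _) * (δ.1 _ * δ'.1 _)⁻¹ = _
    rw [mul_inv]
    exact mul_mul_mul_comm _ _ _ _
  rw [h1, fv_mul, HomogeneousLocalization.val_mul, mul_smul, h' _ _ _ _ M ha, h _ _ _ _ M ha, shL_shL, ← add_smul]

lemma shD_inv {δ : (VF V).Div} {b : ℤ} (h : ShD V sd δ b) : ShD V sd δ⁻¹ (-b) := by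
  intro A₀ _ _ a M ha k l x hx m
  have h1 : Frame.tr δ⁻¹ (ch sd 0 k) (ch sd 0 l) * Frame.tr δ (ch sd 0 k) (ch sd 0 l) = 1 := by
    apply (VF V).inj₂
    rw [map_mul, Frame.ro_tr, Frame.ro_tr, ← Units.val_mul, map_one]
    change (((δ.1 (ch sd 0 l))⁻¹ * ((δ.1 (ch sd 0 k))⁻¹)⁻¹ * _ : (Γ(VX V, (VF V).T))ˣ) :
      Γ(VX V, (VF V).T)) = 1
    rw [inv_inv, ← Units.val_one]
    congr 1
    rw [mul_comm (δ.1 (ch sd 0 l))⁻¹, mul_assoc, inv_mul_cancel_left, mul_inv_cancel]
  have h2 := h _ _ _ _ M ha k l x hx (shL (-b • (ue l - ue k)) m)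
  rw [shL_shL, ← add_smul, add_neg_cancel, zero_smul, shL_zero] at h2
  rw [← h2, smul_smul, ← HomogeneousLocalization.val_mul, ← fv_mul, h1, fv_one,
    HomogeneousLocalization.val_one, one_smul]

lemma shD_pow {δ : (VF V).Div} {b : ℤ} (h : ShD V sd δ b) (n : ℕ) : ShD V sd (δ ^ n) (n * b) := by
  induction n with
  | zero =>
    rw [pow_zero, Nat.cast_zero, zero_mul]
    exact shD_one V
  | succ n ih =>
    rw [pow_succ, Nat.cast_succ, add_mul, one_mul]
    exact shD_mul V ih h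

lemma shD_zpow {δ : (VF V).Div} {b : ℤ} (h : ShD V sd δ b) (n : ℤ) : ShD V sd (δ ^ n) (n * b) := by
  obtain ⟨m, rfl | rfl⟩ := n.eq_nat_or_neg
  · rw [zpow_natCast]
    exact shD_pow V h m
  · rw [zpow_neg, zpow_natCast, neg_mul]
    exact shD_inv V (shD_pow V h m)

lemma shD_const {δ : (VF V).Div} (h : ∀ k, δ.1 (ch sd 0 k) = 1) : ShD V sd δ 0 := by
  intro A₀ _ _ a M ha k l x hx m
  have h1 : Frame.tr δ (ch sd 0 k) (ch sd 0 l) = 1 := by
    apply (VF V).inj₂
    rw [Frame.ro_tr, map_one, h, h, inv_one, mul_one, Units.val_one]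
  rw [h1, fv_one, HomogeneousLocalization.val_one, one_smul, zero_smul, shL_zero]

lemma shD_shift {δ : (VF V).Div} (h : ∀ k, δ.1 (ch sd 0 k) =
    qu (gg V) (gg_mem V) (gg_ne V) (0, 0) (ch sd 0 k)) : ShD V sd δ 1 := by
  intro A₀ _ _ a M ha k l x hx m
  have h1 : Frame.tr δ (ch sd 0 k) (ch sd 0 l) = ro inf_le_left (qf V (ch sd 0 k) (ch sd 0 l)) := by
    apply (VF V).inj₂
    rw [Frame.ro_tr, ro_ro, h, h, qu_inv, mul_comm, qu_mul]
    rfl
  rw [h1, fv_ro, qf_smul, one_smul, LocalizedModule.mk_eq]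
  refine ⟨1, ?_⟩
  change (1 : RF V.G) • (1 : RF V.G) • gg V (ch sd 0 l) • (m : LM M) =
    (1 : RF V.G) • (gg V (ch sd 0 k) * 1) • (shL (ue l - ue k) m : LM M)
  rw [one_smul, one_smul, one_smul, mul_one, gg_smul, gg_smul, ha, one_smul, one_smul, shL_shL]
  congr 1
  abel

lemma shD_xi_false : ShD V false (xiD V) 0 := shD_const V fun k =>
  qu_self (gg V) (gg_mem V) (gg_ne V) (0, 0)

lemma shD_et_false : ShD V false (etD V) 1 := shD_shift V fun k => rfl

lemma shD_xi_true : ShD V true (xiD V) 1 := shD_shift V fun k => rfl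

lemma shD_et_true : ShD V true (etD V) 0 := shD_const V fun k =>
  qu_self (gg V) (gg_mem V) (gg_ne V) (0, 0)

/-- The degree of `O(a, b)` in the direction of the shifts. -/
def dD (sd : Bool) (p q : ℤ) : ℤ := if sd then p else q

lemma shD_line (p q : ℤ) : ShD V sd (xiD V ^ p * etD V ^ q) (dD sd p q) := by
  cases sd
  · have := shD_mul V (shD_zpow V (shD_xi_false V) p) (shD_zpow V (shD_et_false V) q)
    rwa [show p * 0 + q * 1 = dD false p q by simp [dD]] at this
  · have := shD_mul V (shD_zpow V (shD_xi_true V) p) (shD_zpow V (shD_et_true V) q)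
    rwa [show p * 1 + q * 0 = dD true p q by simp [dD]] at this

lemma exists_ch (sd : Bool) (j : Fin 3 × Fin 3) : ∃ i k, j = ch sd i k := by
  cases sd
  · exact ⟨j.1, j.2, rfl⟩
  · exact ⟨j.2, j.1, rfl⟩

lemma gg_swap (i k i' k' : Fin 3) : gg V (ch sd i k) * gg V (ch sd i' k') =
    gg V (ch sd i k') * gg V (ch sd i' k) := by
  cases sd
  · exact gg_segre V i i' k k'
  · change gg V (k, i) * gg V (k', i') = gg V (k', i) * gg V (k, i')
    rw [gg_segre V k k' i i', mul_comm]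

/-- The charts used for one side. -/
abbrev kp (sd : Bool) (k : Fin 3) : Fin 3 × Fin 3 := ch sd 0 k

lemma inf_Zo (i k : Fin 3) {W : (VX V).Opens} (hW : W ≤ (VF V).U (ch sd i k)) :
    W ⊓ Zo (VF V) (kp sd) = (VX V).basicOpen (ro hW (qf V (ch sd i k) (ch sd 0 k))) := by
  rw [basicOpen_ro, qf, Pool.Agent.R924.basicOpen_fr]
  apply le_antisymm
  · rintro x ⟨hx, hx'⟩
    refine ⟨hx, hW hx, ?_⟩
    obtain ⟨l, hl⟩ := mem_Zo _ _ hx'
    have h1 : gg V (ch sd i k) ∈ pc (𝒜 := rg V.G) x := hW hx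
    have h2 : gg V (ch sd 0 l) ∈ pc (𝒜 := rg V.G) x := hl
    have h3 := (pc (𝒜 := rg V.G) x).mul_mem h1 h2
    rw [gg_swap] at h3
    intro h4
    exact h3 (Ideal.mul_mem_left _ _ h4)
  · rintro x ⟨hx, -, hx'⟩
    exact ⟨hx, U_le_Zo (VF V) (kp sd) k hx'⟩

lemma affine_Zo (j : Fin 3 × Fin 3) (W : (VX V).Opens) (hW : IsAffineOpen W)
    (hle : W ≤ (VF V).U j) : IsAffineOpen (W ⊓ Zo (VF V) (kp sd)) := by
  obtain ⟨i, k, rfl⟩ := exists_ch sd j
  rw [inf_Zo V i k hle]
  exact hW.basicOpen _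

variable {A₀ : Type} [CommRing A₀] [Algebra ℂ A₀] {a : Fin 3 → A₀}
  (M : CM V.G sd a)

/-- Multiplication by a scalar. -/
def scH {G : Fin 3 → Fin 3 → Fin 3 → Fin 3 → ℂ} {sd : Bool} {a : Fin 3 → A₀}
    (M : CM G sd a) (c : A₀) : CMH M M where
  f := DistribSMul.toAddMonoidHom _ c
  map_a i v := by
    change c • a i • v = a i • c • v
    rw [smul_comm]
  map_c z v := smul_comm _ _ _
  map_E k v := by
    change c • M.E k v = M.E k (c • v)
    rw [map_smul]

variable (ha : a 0 = 1)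

include ha in
lemma z_smul (j : ℤ) (i k : Fin 3) {W : (VX V).Opens} (hW : W ≤ (VF V).U (ch sd i k))
    (s : Γ(til (NV M) j, W)) :
    ro hW (qf V (ch sd i k) (ch sd 0 k)) • ap (tm (scH M (a i)) j) W s = s := by
  apply vl_ext
  intro x hx
  rw [vl_smul, vl_tm, fv_ro]
  induction (vl s x hx) using LocalizedModule.induction_on with
  | h m b =>
    rw [lmap_mk, qf_smul, LocalizedModule.mk_eq]
    refine ⟨1, ?_⟩
    change (1 : RF V.G) • (b : RF V.G) • gg V (ch sd 0 k) • (lh (scH M (a i)) m : LM M) =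
      (1 : RF V.G) • (gg V (ch sd i k) * (b : RF V.G)) • (m : LM M)
    rw [one_smul, one_smul, mul_comm, mul_smul, gg_smul, gg_smul, ha, one_smul]
    congr 1
    exact co_ext fun e => rfl

include ha in
lemma locZ_til (j : ℤ) : LocZ (F := VF V) (kp sd) (til (NV M) j) := by
  intro jj W hW hle
  obtain ⟨i, k, rfl⟩ := exists_ch sd jj
  set z := ro hle (qf V (ch sd i k) (ch sd 0 k)) with hz
  have hD := inf_Zo (sd := sd) V i k hle
  let T : Γ(til (NV M) j, W) → Γ(til (NV M) j, W) := fun s => ap (tm (scH M (a i)) j) W s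
  have h1 : ∀ s, z • T s = s := z_smul V M ha j i k hle
  have h2 : ∀ s, T (z • s) = s := by
    intro s
    change ap (tm (scH M (a i)) j) W (z • s) = s
    rw [map_smul]
    exact h1 s
  have h3 : ∀ (n : ℕ) (s), T^[n] (z ^ n • s) = s := by
    intro n
    induction n with
    | zero => intro s; rw [pow_zero, one_smul]; rfl
    | succ n ih =>
      intro s
      rw [Function.iterate_succ_apply, pow_succ', mul_smul, h2, ih]
  have h4 : ∀ n : ℕ, T^[n] 0 = 0 := by
    intro n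
    induction n with
    | zero => rfl
    | succ n ih =>
      rw [Function.iterate_succ_apply]
      have : T 0 = 0 := map_zero (ap (tm (scH M (a i)) j) W)
      rw [this, ih]
  have hq := qcOn_til (NV M) j W
  constructor
  · rw [injective_iff_map_eq_zero]
    intro s hs
    obtain ⟨n, hn⟩ := hq.uniq' (D := W ⊓ Zo (VF V) (kp sd)) hW le_rfl z hD.symm inf_le_left s hs
    rw [← h3 n s, hn, h4]
  · intro s
    obtain ⟨n, t, ht⟩ := hq.ext' (D := W ⊓ Zo (VF V) (kp sd)) hW le_rfl z hD.symm inf_le_left s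
    refine ⟨T^[n] t, ?_⟩
    have h5 : ∀ (n : ℕ) (t), rs (til (NV M) j) (inf_le_left : W ⊓ Zo (VF V) (kp sd) ≤ W) (T^[n] t) =
        (fun s => ap (tm (scH M (a i)) j) _ s)^[n] (rs (til (NV M) j) inf_le_left t) := by
      intro n
      induction n with
      | zero => intro t; rfl
      | succ n ih =>
        intro t
        rw [Function.iterate_succ_apply, Function.iterate_succ_apply, ih]
        rfl
    rw [h5, ht]
    have h6 : ∀ s, (ap (tm (scH M (a i)) j) (W ⊓ Zo (VF V) (kp sd))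
        (ro (inf_le_left : W ⊓ Zo (VF V) (kp sd) ≤ W) z • s)) = s := by
      intro s
      rw [map_smul, hz, ro_ro]
      exact z_smul V M ha j i k _ s
    have h7 : ∀ (n : ℕ) (s), (fun s => ap (tm (scH M (a i)) j) (W ⊓ Zo (VF V) (kp sd)) s)^[n]
        (ro (inf_le_left : W ⊓ Zo (VF V) (kp sd) ≤ W) z ^ n • s) = s := by
      intro n
      induction n with
      | zero => intro s; rw [pow_zero, one_smul]; rfl
      | succ n ih =>
        intro s
        rw [Function.iterate_succ_apply, pow_succ', mul_smul, h6, ih]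
    exact h7 n s

end

end Run7.h164
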