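import Pool.Agent.Run7.h164.CB
import Pool.Agent.Run7.h164.NX

set_option autoImplicit false
set_option linter.unusedVariables false
set_option linter.unusedSectionVars false

/-!
Laurent polynomials in two groups of variables and graded modules of line bundles.
-/

open CategoryTheory Limits TopologicalSpace AlgebraicGeometry Opposite TopCat

namespace Run7.h164

noncomputable section

set_option backward.isDefEq.respectTransparency false

open Pool.Agent.W506 Pool.Agent.N212
open Pool.Agent.R924 (DD Frame)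

/-- Pairs of exponents. -/
abbrev E2 : Type := Ex × Ex

/-- Laurent polynomials. -/
abbrev LP : Type := AddMonoidAlgebra ℂ E2

/-- The exponents as integers. -/
def eG : Gm →+ E2 where
  toFun m := (fun i => (m.1.1 i : ℤ), fun i => (m.1.2 i : ℤ))
  map_zero' := rfl
  map_add' m m' := by
    refine Prod.ext (funext fun i => ?_) (funext fun i => ?_)
    · exact Nat.cast_add _ _
    · exact Nat.cast_add _ _

lemma eG_inj : Function.Injective eG := by
  intro m m' h
  refine Subtype.ext (Prod.ext (funext fun i => ?_) (funext fun i => ?_))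
  · exact Int.ofNat_inj.1 (congrFun (congrArg Prod.fst h) i)
  · exact Int.ofNat_inj.1 (congrFun (congrArg Prod.snd h) i)

/-- Polynomials as Laurent polynomials. -/
def iB : Bi →+* LP := AddMonoidAlgebra.mapDomainRingHom ℂ eG

lemma iB_single (m : Gm) (c : ℂ) : iB (AddMonoidAlgebra.single m c) =
    AddMonoidAlgebra.single (eG m) c := AddMonoidAlgebra.mapDomain_single

/-- Laurent polynomials with exponents in a set. -/
def spt (S : Set E2) : Submodule ℂ LP where
  carrier := {p | ∀ e, p.coeff e ≠ 0 → e ∈ S}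
  add_mem' := by
    intro p q hp hq e he
    by_cases h1 : p.coeff e = 0
    · refine hq e fun h2 => he ?_
      change p.coeff e + q.coeff e = 0
      rw [h1, h2, add_zero]
    · exact hp e h1
  zero_mem' := fun e he => absurd rfl he
  smul_mem' := by
    intro c p hp e he
    refine hp e fun h => he ?_
    change c • p.coeff e = 0
    rw [h, smul_zero]

lemma mem_spt {S : Set E2} {p : LP} : p ∈ spt S ↔ ∀ e, p.coeff e ≠ 0 → e ∈ S := Iff.rfl

lemma spt_mono {S S' : Set E2} (h : S ⊆ S') : spt S ≤ spt S' := fun p hp e he => h (hp e he)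

lemma single_mem {S : Set E2} {e : E2} (he : e ∈ S) (c : ℂ) :
    (AddMonoidAlgebra.single e c : LP) ∈ spt S := by
  intro e' he'
  by_contra h
  apply he'
  have hne : e ≠ e' := fun h' => h (h' ▸ he)
  change (Finsupp.single e c) e' = 0
  rw [Finsupp.single_apply, if_neg hne]

lemma mul_mem_spt {S S' S'' : Set E2} (h : ∀ e ∈ S, ∀ e' ∈ S', e + e' ∈ S'') {p q : LP}
    (hp : p ∈ spt S) (hq : q ∈ spt S') : p * q ∈ spt S'' := by
  classical
  intro e he
  rw [AddMonoidAlgebra.coeff_mul] at he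
  obtain ⟨e₁, h₁, he₁⟩ := Finset.exists_ne_zero_of_sum_ne_zero he
  obtain ⟨e₂, h₂, he₂⟩ := Finset.exists_ne_zero_of_sum_ne_zero he₁
  have h3 : e₁ + e₂ = e := by
    by_contra h3
    exact he₂ (if_neg h3)
  rw [← h3]
  exact h _ (hp _ (Finsupp.mem_support_iff.1 h₁)) _ (hq _ (Finsupp.mem_support_iff.1 h₂))

/-- Exponents of a given degree, nonnegative outside a set of indices. -/
def Sx (a : ℤ) (I : Finset (Fin 3)) : Set Ex := {e | (∀ i, i ∉ I → 0 ≤ e i) ∧ ∑ i, e i = a}

/-- Pairs of such exponents. -/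
def Sp (a b : ℤ) (I K : Finset (Fin 3)) : Set E2 := {e | e.1 ∈ Sx a I ∧ e.2 ∈ Sx b K}

lemma Sx_add {a a' : ℤ} {I : Finset (Fin 3)} {e e' : Ex} (h : e ∈ Sx a ∅) (h' : e' ∈ Sx a' I) :
    e + e' ∈ Sx (a + a') I := by
  refine ⟨fun i hi => ?_, ?_⟩
  · exact add_nonneg (h.1 i (Finset.notMem_empty i)) (h'.1 i hi)
  · rw [← h.2, ← h'.2, ← Finset.sum_add_distrib]
    rfl

lemma Sp_add {a b a' b' : ℤ} {I K : Finset (Fin 3)} {e e' : E2} (h : e ∈ Sp a b ∅ ∅)
    (h' : e' ∈ Sp a' b' I K) : e + e' ∈ Sp (a + a') (b + b') I K :=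
  ⟨Sx_add h.1 h'.1, Sx_add h.2 h'.2⟩

lemma Sx_mono {a : ℤ} {I I' : Finset (Fin 3)} (h : I ⊆ I') : Sx a I ⊆ Sx a I' :=
  fun e he => ⟨fun i hi => he.1 i fun h' => hi (h h'), he.2⟩

lemma Sp_mono {a b : ℤ} {I I' K K' : Finset (Fin 3)} (h : I ⊆ I') (h' : K ⊆ K') :
    Sp a b I K ⊆ Sp a b I' K' := fun e he => ⟨Sx_mono h he.1, Sx_mono h' he.2⟩

lemma eG_mem {m : Gm} {n : ℕ} (h : dg m = n) : eG m ∈ Sp n n ∅ ∅ := by
  refine ⟨⟨fun i _ => Int.natCast_nonneg _, ?_⟩, ⟨fun i _ => Int.natCast_nonneg _, ?_⟩⟩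
  · rw [← h]
    change ∑ i, (m.1.1 i : ℤ) = ((∑ i, m.1.1 i : ℕ) : ℤ)
    push_cast
    rfl
  · have h2 := m.2
    change ∑ i, m.1.1 i = ∑ i, m.1.2 i at h2
    rw [← h]
    change ∑ i, (m.1.2 i : ℤ) = ((∑ i, m.1.1 i : ℕ) : ℤ)
    rw [h2]
    push_cast
    rfl

lemma iB_mem {n : ℕ} {r : Bi} (hr : r ∈ bg n) : iB r ∈ spt (Sp n n ∅ ∅) := by
  refine Pool.Agent.R924.gr_induction (P := fun r _ => iB r ∈ spt (Sp n n ∅ ∅)) ?_ ?_ ?_ r hr
  · rw [map_zero]
    exact zero_mem _
  · intro a _ b _ h1 h2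
    rw [map_add]
    exact add_mem h1 h2
  · intro m c hm
    rw [iB_single]
    exact single_mem (eG_mem hm) c

variable {G : Fin 3 → Fin 3 → Fin 3 → Fin 3 → ℂ}

/-- The form as a Laurent polynomial. -/
def FL (G : Fin 3 → Fin 3 → Fin 3 → Fin 3 → ℂ) : LP := iB (FD G)

/-- The quadratic extension of the ring of Laurent polynomials. -/
abbrev QL (G : Fin 3 → Fin 3 → Fin 3 → Fin 3 → ℂ) : Type := QuadraticAlgebra LP (FL G) 0

/-- The homomorphism from the coordinate ring. -/
def iR (G : Fin 3 → Fin 3 → Fin 3 → Fin 3 → ℂ) : RF G →+* QL G where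
  toFun z := ⟨iB z.re, iB z.im⟩
  map_one' := by
    refine QuadraticAlgebra.ext ?_ ?_
    · change iB (1 : RF G).re = (1 : QL G).re
      rw [QuadraticAlgebra.re_one, QuadraticAlgebra.re_one, map_one]
    · change iB (1 : RF G).im = (1 : QL G).im
      rw [QuadraticAlgebra.im_one, QuadraticAlgebra.im_one, map_zero]
  map_mul' x y := by
    refine QuadraticAlgebra.ext ?_ ?_
    · change iB (x * y).re = _
      rw [QuadraticAlgebra.re_mul, QuadraticAlgebra.re_mul, map_add, map_mul, map_mul, map_mul]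
      rfl
    · change iB (x * y).im = _
      rw [QuadraticAlgebra.im_mul, QuadraticAlgebra.im_mul]
      simp only [map_add, map_mul, zero_mul, add_zero]
  map_zero' := by
    refine QuadraticAlgebra.ext ?_ ?_
    · change iB (0 : RF G).re = (0 : QL G).re
      rw [QuadraticAlgebra.re_zero, QuadraticAlgebra.re_zero, map_zero]
    · change iB (0 : RF G).im = (0 : QL G).im
      rw [QuadraticAlgebra.im_zero, QuadraticAlgebra.im_zero, map_zero]
  map_add' x y := by
    refine QuadraticAlgebra.ext ?_ ?_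
    · change iB (x + y).re = _
      rw [QuadraticAlgebra.re_add, QuadraticAlgebra.re_add, map_add]
    · change iB (x + y).im = _
      rw [QuadraticAlgebra.im_add, QuadraticAlgebra.im_add, map_add]

/-- Elements with given bidegrees and poles. -/
def QS (G : Fin 3 → Fin 3 → Fin 3 → Fin 3 → ℂ) (a b : ℤ) (I K : Finset (Fin 3)) :
    Submodule ℂ (QL G) where
  carrier := {z | z.re ∈ spt (Sp a b I K) ∧ z.im ∈ spt (Sp (a - 1) (b - 1) I K)}
  add_mem' h h' := ⟨add_mem h.1 h'.1, add_mem h.2 h'.2⟩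
  zero_mem' := ⟨zero_mem _, zero_mem _⟩
  smul_mem' c z h := ⟨Submodule.smul_mem _ c h.1, Submodule.smul_mem _ c h.2⟩

lemma mem_QS {a b : ℤ} {I K : Finset (Fin 3)} {z : QL G} : z ∈ QS G a b I K ↔
    z.re ∈ spt (Sp a b I K) ∧ z.im ∈ spt (Sp (a - 1) (b - 1) I K) := Iff.rfl

lemma QS_mono {a b : ℤ} {I I' K K' : Finset (Fin 3)} (h : I ⊆ I') (h' : K ⊆ K') :
    QS G a b I K ≤ QS G a b I' K' := fun z hz =>
  ⟨spt_mono (Sp_mono h h') hz.1, spt_mono (Sp_mono h h') hz.2⟩

lemma FL_mem : FL G ∈ spt (Sp 2 2 ∅ ∅) := iB_mem (FD_mem G)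

lemma QS_mul {a b a' b' : ℤ} {I K : Finset (Fin 3)} {z z' : QL G} (h : z ∈ QS G a b ∅ ∅)
    (h' : z' ∈ QS G a' b' I K) : z * z' ∈ QS G (a + a') (b + b') I K := by
  have key : ∀ {a b a' b' a'' b'' : ℤ} {p q : LP}, p ∈ spt (Sp a b ∅ ∅) → q ∈ spt (Sp a' b' I K) →
      a + a' = a'' → b + b' = b'' → p * q ∈ spt (Sp a'' b'' I K) := by
    rintro a b a' b' _ _ p q hp hq rfl rfl
    exact mul_mem_spt (fun e he e' he' => Sp_add he he') hp hq
  have key0 : ∀ {a b a' b' : ℤ} {p q : LP}, p ∈ spt (Sp a b ∅ ∅) → q ∈ spt (Sp a' b' ∅ ∅) →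
      p * q ∈ spt (Sp (a + a') (b + b') ∅ ∅) := fun hp hq =>
    mul_mem_spt (fun e he e' he' => Sp_add he he') hp hq
  refine ⟨?_, ?_⟩
  · rw [QuadraticAlgebra.re_mul]
    refine add_mem (key h.1 h'.1 rfl rfl) ?_
    exact key (key0 FL_mem h.2) h'.2 (by ring) (by ring)
  · rw [QuadraticAlgebra.im_mul, zero_mul, zero_mul, add_zero]
    exact add_mem (key h.1 h'.2 (by ring) (by ring)) (key h.2 h'.1 (by ring) (by ring))

lemma iR_mem {n : ℕ} {r : RF G} (hr : r ∈ rg G n) : iR G r ∈ QS G n n ∅ ∅ := by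
  refine ⟨iB_mem hr.1, ?_⟩
  cases n with
  | zero =>
    have h1 : r.im = 0 := hr.2
    change iB r.im ∈ _
    rw [h1, map_zero]
    exact zero_mem _
  | succ n =>
    have h1 := iB_mem (show r.im ∈ bg n from hr.2)
    have e : ((n + 1 : ℕ) : ℤ) - 1 = n := by push_cast; ring
    rw [e]
    exact h1

/-- Monomials. -/
def mo (G : Fin 3 → Fin 3 → Fin 3 → Fin 3 → ℂ) (e : E2) : QL G :=
  ⟨AddMonoidAlgebra.single e 1, 0⟩

lemma re_mo_mul (e : E2) (z : QL G) : (mo G e * z).re = AddMonoidAlgebra.single e 1 * z.re := by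
  rw [QuadraticAlgebra.re_mul]
  change AddMonoidAlgebra.single e 1 * z.re + FL G * 0 * z.im = _
  rw [mul_zero, zero_mul, add_zero]

lemma im_mo_mul (e : E2) (z : QL G) : (mo G e * z).im = AddMonoidAlgebra.single e 1 * z.im := by
  rw [QuadraticAlgebra.im_mul]
  change AddMonoidAlgebra.single e 1 * z.im + 0 * z.re + 0 * 0 * z.im = _
  rw [zero_mul, zero_mul, zero_mul, add_zero, add_zero]

lemma mo_zero : mo G 0 = 1 := rfl

lemma mo_add (e e' : E2) : mo G (e + e') = mo G e * mo G e' := by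
  refine QuadraticAlgebra.ext ?_ ?_
  · rw [re_mo_mul]
    change AddMonoidAlgebra.single (e + e') 1 = AddMonoidAlgebra.single e 1 *
      AddMonoidAlgebra.single e' 1
    rw [AddMonoidAlgebra.single_mul_single, mul_one]
  · rw [im_mo_mul]
    exact (mul_zero _).symm

lemma coeff_single_mul' (e x : E2) (p : LP) :
    (AddMonoidAlgebra.single e 1 * p : LP).coeff x = p.coeff (-e + x) := by
  rw [AddMonoidAlgebra.coeff_single_mul_apply, one_mul]

/-- The total degree of exponents. -/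
def sm (e : Ex) : ℤ := ∑ i, e i

lemma sm_add (e e' : Ex) : sm (e + e') = sm e + sm e' := Finset.sum_add_distrib

lemma sm_neg (e : Ex) : sm (-e) = -sm e := Finset.sum_neg_distrib _

lemma mo_mem_gen {a b a' b' : ℤ} {I K I' K' : Finset (Fin 3)} {t : E2} {z : QL G}
    (hz : z ∈ QS G a b I K) (ha : sm t.1 + a = a') (hb : sm t.2 + b = b')
    (h : ∀ e, z.re.coeff e ≠ 0 ∨ z.im.coeff e ≠ 0 → (∀ i, i ∉ I' → 0 ≤ t.1 i + e.1 i) ∧
      ∀ k, k ∉ K' → 0 ≤ t.2 k + e.2 k) : mo G t * z ∈ QS G a' b' I' K' := by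
  subst ha hb
  have hs : ∀ (a : ℤ) (e t : Ex), ∑ i, (-t + e) i = a → ∑ i, e i = sm t + a := by
    intro a e t h
    have h1 : sm (-t + e) = a := h
    rw [sm_add, sm_neg] at h1
    change sm e = _
    linarith
  refine ⟨fun e he => ?_, fun e he => ?_⟩
  · rw [re_mo_mul, coeff_single_mul'] at he
    obtain ⟨h1, h2⟩ := h _ (Or.inl he)
    obtain ⟨h3, h4⟩ := hz.1 _ he
    refine ⟨⟨fun i hi => ?_, hs _ _ _ h3.2⟩, ⟨fun i hi => ?_, hs _ _ _ h4.2⟩⟩
    · have := h1 i hi
      simpa using this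
    · have := h2 i hi
      simpa using this
  · rw [im_mo_mul, coeff_single_mul'] at he
    obtain ⟨h1, h2⟩ := h _ (Or.inr he)
    obtain ⟨h3, h4⟩ := hz.2 _ he
    refine ⟨⟨fun i hi => ?_, ?_⟩, ⟨fun i hi => ?_, ?_⟩⟩
    · have := h1 i hi
      simpa using this
    · rw [hs _ _ _ h3.2]; ring
    · have := h2 i hi
      simpa using this
    · rw [hs _ _ _ h4.2]; ring

/-! ### Modules -/

/-- Vectors of Laurent polynomials. -/
def LM2 (G : Fin 3 → Fin 3 → Fin 3 → Fin 3 → ℂ) (n : ℕ) : Type := Fin n → QL G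

variable {n : ℕ}

instance : AddCommGroup (LM2 G n) := inferInstanceAs (AddCommGroup (Fin n → QL G))

instance : Module ℂ (LM2 G n) := inferInstanceAs (Module ℂ (Fin n → QL G))

instance : Module (QL G) (LM2 G n) := inferInstanceAs (Module (QL G) (Fin n → QL G))

instance : Module (RF G) (LM2 G n) := Module.compHom (Fin n → QL G) (iR G)

lemma rsmul_def (r : RF G) (v : LM2 G n) : r • v = iR G r • v := rfl

lemma qsmul_apply (z : QL G) (v : LM2 G n) (i : Fin n) :
    (show Fin n → QL G from z • v) i = z * (show Fin n → QL G from v) i := rfl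

/-- Vectors with given bidegrees and poles. -/
def MS (G : Fin 3 → Fin 3 → Fin 3 → Fin 3 → ℂ) (n : ℕ) (a b : ℤ) (I K : Finset (Fin 3)) :
    Submodule ℂ (LM2 G n) where
  carrier := {v | ∀ i, (show Fin n → QL G from v) i ∈ QS G a b I K}
  add_mem' h h' := fun i => add_mem (h i) (h' i)
  zero_mem' := fun i => zero_mem _
  smul_mem' c v h := fun i => Submodule.smul_mem _ c (h i)

lemma MS_mono {a b : ℤ} {I I' K K' : Finset (Fin 3)} (h : I ⊆ I') (h' : K ⊆ K') :
    MS G n a b I K ≤ MS G n a b I' K' := fun v hv i => QS_mono h h' (hv i)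

lemma MS_smul {m : ℕ} {a b : ℤ} {r : RF G} {v : LM2 G n} {I K : Finset (Fin 3)} (hr : r ∈ rg G m)
    (hv : v ∈ MS G n a b I K) : r • v ∈ MS G n (m + a) (m + b) I K := by
  intro i
  rw [rsmul_def, qsmul_apply]
  exact QS_mul (iR_mem hr) (hv i)

/-- The graded module of a sum of copies of a line bundle. -/
def NL (G : Fin 3 → Fin 3 → Fin 3 → Fin 3 → ℂ) (n : ℕ) (a b : ℤ) : GM (rg G) where
  M := LM2 G n
  deg m := (MS G n (m + a) (m + b) ∅ ∅).toAddSubgroup
  smul_mem := by
    intro i j r v hr hv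
    have h := MS_smul hr (show v ∈ MS G n (j + a) (j + b) ∅ ∅ from hv)
    rw [← add_assoc, ← add_assoc] at h
    exact h

lemma LM2_ext {v v' : LM2 G n} (h : ∀ i e,
    ((show Fin n → QL G from v) i).re.coeff e = ((show Fin n → QL G from v') i).re.coeff e ∧
    ((show Fin n → QL G from v) i).im.coeff e = ((show Fin n → QL G from v') i).im.coeff e) :
    v = v' := by
  have h1 : ∀ i, (show Fin n → QL G from v) i = (show Fin n → QL G from v') i := by
    intro i
    refine QuadraticAlgebra.ext ?_ ?_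
    · exact AddMonoidAlgebra.coeff_injective (Finsupp.ext fun e => (h i e).1)
    · exact AddMonoidAlgebra.coeff_injective (Finsupp.ext fun e => (h i e).2)
  exact funext h1

/-- Coefficients as additive maps. -/
def cfL (i : Fin n) (p : Bool) (e : E2) : LM2 G n →+ ℂ where
  toFun v := if p then ((show Fin n → QL G from v) i).im.coeff e
    else ((show Fin n → QL G from v) i).re.coeff e
  map_zero' := by
    cases p <;> rfl
  map_add' v v' := by
    cases p <;> rfl

lemma cfL_ext {v : LM2 G n} (h : ∀ i p e, cfL i p e v = 0) : v = 0 :=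
  LM2_ext fun i e => ⟨h i false e, h i true e⟩

lemma cfL_deg {a b : ℤ} {I K : Finset (Fin 3)} {v : LM2 G n} (hv : v ∈ MS G n a b I K) (i : Fin n)
    (p : Bool) (e : E2) (h : cfL i p e v ≠ 0) : sm e.1 = a - (if p then 1 else 0) := by
  cases p with
  | false =>
    have h1 := (hv i).1 e h
    rw [if_neg Bool.false_ne_true, sub_zero]
    exact h1.1.2
  | true =>
    have h1 := (hv i).2 e h
    rw [if_pos rfl]
    exact h1.1.2

instance (a b : ℤ) : IsGr (NL G n a b) where
  comp_smul := by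
    intro i m hm c hc k
    classical
    by_contra hne
    have h1 : ∃ s p e, cfL s p e ((DirectSum.decompose (rg G) c k : RF G) • m : LM2 G n) ≠ 0 := by
      by_contra! h
      exact hne (cfL_ext h)
    obtain ⟨s, p, e, he⟩ := h1
    have h2 : ∀ n' : ℕ, (DirectSum.decompose (rg G) c n' : RF G) • (m : LM2 G n) ∈
        MS G n (n' + (i + a)) (n' + (i + b)) ∅ ∅ := fun n' => MS_smul (SetLike.coe_mem _) hm
    have h3 := cfL_deg (h2 k) s p e he
    have h4 : ∀ n', n' ≠ k →
        cfL s p e ((DirectSum.decompose (rg G) c n' : RF G) • m : LM2 G n) = 0 := by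
      intro n' hn'
      by_contra h
      have := cfL_deg (h2 n') s p e h
      omega
    have h5 : (c • m : LM2 G n) = ∑ n' ∈ (DirectSum.decompose (rg G) c).support ∪ {k},
        (DirectSum.decompose (rg G) c n' : RF G) • (m : LM2 G n) := by
      rw [← Finset.sum_smul]
      congr 1
      rw [← Finset.sum_subset (Finset.subset_union_left)]
      · exact (DirectSum.sum_support_decompose (rg G) c).symm
      · intro x _ hx
        have : DirectSum.decompose (rg G) c x = 0 := by
          by_contra h0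
          exact hx (DFinsupp.mem_support_iff.2 h0)
        rw [this]
        rfl
    have h6 : cfL s p e (∑ n' ∈ (DirectSum.decompose (rg G) c).support ∪ {k},
        (DirectSum.decompose (rg G) c n' : RF G) • (m : LM2 G n)) = 0 := by
      rw [← h5]
      have : (c • m : LM2 G n) = 0 := hc
      rw [this, map_zero]
    rw [map_sum, Finset.sum_eq_single k] at h6
    · exact he h6
    · intro n' _ hn'
      exact h4 n' hn'
    · intro h
      exact absurd (Finset.mem_union_right _ (Finset.mem_singleton_self k)) h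

end

end Run7.h164
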