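import Pool.Agent.W506.H2

set_option autoImplicit false
set_option linter.unusedVariables false
set_option linter.unusedSectionVars false

/-!
Global dimension of smooth double covers of affine spaces.
-/

open CategoryTheory

namespace Run7.h164

noncomputable section

open Pool.Agent.W506

/-- Connections on projective modules. -/
theorem exists_connection {P : Type} [CommRing P] [Algebra ℂ P] {N : Type} [AddCommGroup N]
    [Module P N] [hN : Module.Projective P N] (D : Derivation ℂ P P) :
    ∃ L : N →+ N, ∀ (z : P) (x : N), L (z • x) = D z • x + z • L x := by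
  obtain ⟨s, hs⟩ := hN.out
  let δ : (N →₀ P) →+ (N →₀ P) := Finsupp.mapRange.addMonoidHom
    (D : P →+ P)
  let q : (N →₀ P) →ₗ[P] N := Finsupp.linearCombination P id
  refine ⟨(q.toAddMonoidHom.comp δ).comp s.toAddMonoidHom, fun z x => ?_⟩
  change q (δ (s (z • x))) = D z • x + z • q (δ (s x))
  have h1 : δ (z • s x) = D z • s x + z • δ (s x) := by
    ext e
    change D (z * s x e) = D z * s x e + z * D (s x e)
    rw [Derivation.leibniz, smul_eq_mul, smul_eq_mul]
    ring
  rw [map_smul, h1, map_add, map_smul, map_smul]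
  congr 2
  exact hs x

section Quad

variable {P : Type} [CommRing P] {f : P}

/-- The action of the root. -/
def wEnd (f : P) (N : Type) [AddCommGroup N] [Module (QuadraticAlgebra P f 0) N] [Module P N]
    [IsScalarTower P (QuadraticAlgebra P f 0) N] : N →ₗ[P] N where
  toFun x := (QuadraticAlgebra.omega : QuadraticAlgebra P f 0) • x
  map_add' x y := smul_add _ _ _
  map_smul' z x := by
    rw [RingHom.id_apply, ← algebraMap_smul (QuadraticAlgebra P f 0) z x,
      ← algebraMap_smul (QuadraticAlgebra P f 0) z (_ • x), smul_smul, smul_smul, mul_comm]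

variable {N : Type} [AddCommGroup N] [Module (QuadraticAlgebra P f 0) N] [Module P N]
    [IsScalarTower P (QuadraticAlgebra P f 0) N]

lemma quad_smul (r : QuadraticAlgebra P f 0) (x : N) :
    r • x = r.re • x + r.im • wEnd f N x := by
  have h1 : r = algebraMap P _ r.re + algebraMap P _ r.im * QuadraticAlgebra.omega := by
    rw [← Algebra.smul_def]
    exact QuadraticAlgebra.mk_eq_add_smul_omega r.re r.im
  conv_lhs => rw [h1]
  rw [add_smul, mul_smul, algebraMap_smul, algebraMap_smul]
  rfl

lemma wEnd_sq (x : N) : wEnd f N (wEnd f N x) = f • x := by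
  change (QuadraticAlgebra.omega : QuadraticAlgebra P f 0) •
    (QuadraticAlgebra.omega : QuadraticAlgebra P f 0) • x = f • x
  rw [smul_smul, QuadraticAlgebra.omega_mul_omega_eq_mk]
  have h1 : (⟨f, 0⟩ : QuadraticAlgebra P f 0) = algebraMap P _ f := rfl
  rw [h1, algebraMap_smul]

/-- Projectivity over the double cover. -/
theorem proj_quad [hN : Module.Projective P N] (B : N →ₗ[P] N)
    (hB : ∀ x, B (wEnd f N x) + wEnd f N (B x) = x) :
    Module.Projective (QuadraticAlgebra P f 0) N := by
  obtain ⟨s, hs⟩ := hN.out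
  let ι : (N →₀ P) →ₗ[P] (N →₀ QuadraticAlgebra P f 0) :=
    Finsupp.mapRange.linearMap (Algebra.linearMap P (QuadraticAlgebra P f 0))
  let q : (N →₀ QuadraticAlgebra P f 0) →ₗ[QuadraticAlgebra P f 0] N :=
    Finsupp.linearCombination _ id
  have hq : ∀ c, q (ι c) = Finsupp.linearCombination P id c := by
    intro c
    induction c using Finsupp.induction_linear with
    | zero => rw [map_zero, map_zero, map_zero]
    | add c d hc hd => rw [map_add, map_add, map_add, hc, hd]
    | single x z =>
      have h1 : ι (Finsupp.single x z) = Finsupp.single x (algebraMap P _ z) :=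
        Finsupp.mapRange_single (hf := map_zero _)
      rw [h1, Finsupp.linearCombination_single, Finsupp.linearCombination_single, algebraMap_smul]
  let g : N →ₗ[P] (N →₀ QuadraticAlgebra P f 0) := ι.comp s
  have hg : ∀ x, q (g x) = x := fun x => (hq (s x)).trans (hs x)
  let W' : (N →₀ QuadraticAlgebra P f 0) →ₗ[P] (N →₀ QuadraticAlgebra P f 0) :=
    wEnd f (N →₀ QuadraticAlgebra P f 0)
  let i₀ : N →ₗ[P] (N →₀ QuadraticAlgebra P f 0) :=
    g.comp (B.comp (wEnd f N)) + W'.comp (g.comp B)
  have hi : ∀ x, i₀ x = g (B (wEnd f N x)) + W' (g (B x)) := fun x => rfl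
  have hW : ∀ x, i₀ (wEnd f N x) = W' (i₀ x) := by
    intro x
    rw [hi, hi, wEnd_sq, map_add, map_smul, map_smul, add_comm]
    congr 1
    exact (wEnd_sq (N := N →₀ QuadraticAlgebra P f 0) (g (B x))).symm
  let i : N →ₗ[QuadraticAlgebra P f 0] (N →₀ QuadraticAlgebra P f 0) :=
    { toFun := i₀
      map_add' := map_add _
      map_smul' := fun r x => by
        rw [RingHom.id_apply, quad_smul, quad_smul, map_add, map_smul, map_smul, hW] }
  refine Module.Projective.of_split i q (LinearMap.ext fun x => ?_)
  change q (i₀ x) = x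
  rw [hi, map_add, hg]
  have h2 : q (W' (g (B x))) = wEnd f N (B x) := by
    change q ((QuadraticAlgebra.omega : QuadraticAlgebra P f 0) • g (B x)) = _
    rw [map_smul, hg]
    rfl
  rw [h2]
  exact hB x

variable [Algebra ℂ P]

/-- The ideal of null-homotopic multiplications. -/
def nullI (f : P) (N : Type) [AddCommGroup N] [Module (QuadraticAlgebra P f 0) N] [Module P N]
    [IsScalarTower P (QuadraticAlgebra P f 0) N] : Ideal P where
  carrier := {z | ∃ B : N →ₗ[P] N, ∀ x, B (wEnd f N x) + wEnd f N (B x) = z • x}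
  add_mem' := by
    rintro z z' ⟨B, hB⟩ ⟨B', hB'⟩
    refine ⟨B + B', fun x => ?_⟩
    rw [LinearMap.add_apply, LinearMap.add_apply, map_add, add_smul, ← hB, ← hB']
    abel
  zero_mem' := ⟨0, fun x => by simp⟩
  smul_mem' := by
    rintro c z ⟨B, hB⟩
    refine ⟨c • B, fun x => ?_⟩
    rw [LinearMap.smul_apply, LinearMap.smul_apply, map_smul, ← smul_add, hB, smul_smul,
      smul_eq_mul]

lemma f_mem_nullI : f ∈ nullI f N := by
  refine ⟨(algebraMap ℂ P (1 / 2)) • wEnd f N, fun x => ?_⟩
  rw [LinearMap.smul_apply, LinearMap.smul_apply, map_smul, ← smul_add, wEnd_sq, ← add_smul,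
    smul_smul, mul_add, ← add_mul, ← map_add]
  norm_num

lemma D_mem_nullI [Module.Projective P N] (D : Derivation ℂ P P) : D f ∈ nullI f N := by
  obtain ⟨L, hL⟩ := exists_connection (N := N) D
  refine ⟨{ toFun := fun x => L (wEnd f N x) - wEnd f N (L x), map_add' := ?_, map_smul' := ?_ },
    fun x => ?_⟩
  · intro x y
    rw [map_add, map_add, map_add, map_add]
    abel
  · intro z x
    rw [RingHom.id_apply, map_smul, hL, hL, map_add, map_smul, map_smul, smul_sub]
    abel
  · change L (wEnd f N (wEnd f N x)) - wEnd f N (L (wEnd f N x)) +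
      wEnd f N (L (wEnd f N x) - wEnd f N (L x)) = D f • x
    rw [map_sub, wEnd_sq, wEnd_sq, hL]
    abel

end Quad

section Mv

variable {n : ℕ} {f : MvPolynomial (Fin n) ℂ}

/-- Modules projective over the polynomial ring are projective over smooth double covers. -/
theorem proj_of_smooth
    (hf : f ∈ Ideal.span (Set.range fun i => MvPolynomial.pderiv i f) ⊔ Ideal.span {f} →
      (1 : MvPolynomial (Fin n) ℂ) ∈
      Ideal.span (Set.range fun i => MvPolynomial.pderiv i f) ⊔ Ideal.span {f})
    (N : Type) [AddCommGroup N]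
    [Module (QuadraticAlgebra (MvPolynomial (Fin n) ℂ) f 0) N] [Module (MvPolynomial (Fin n) ℂ) N]
    [IsScalarTower (MvPolynomial (Fin n) ℂ) (QuadraticAlgebra (MvPolynomial (Fin n) ℂ) f 0) N]
    (hN : Module.Projective (MvPolynomial (Fin n) ℂ) N) :
    Module.Projective (QuadraticAlgebra (MvPolynomial (Fin n) ℂ) f 0) N := by
  have h1 := hf (Ideal.mem_sup_right (Ideal.subset_span rfl))
  have h2 : Ideal.span (Set.range fun i => MvPolynomial.pderiv i f) ⊔ Ideal.span {f} ≤
      nullI f N := by
    refine sup_le ?_ ?_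
    · rw [Ideal.span_le]
      rintro _ ⟨i, rfl⟩
      exact D_mem_nullI _
    · rw [Ideal.span_le]
      rintro _ rfl
      exact f_mem_nullI
  obtain ⟨B, hB⟩ := h2 h1
  exact proj_quad B fun x => by rw [hB, one_smul]

instance : Module.Free (MvPolynomial (Fin n) ℂ)
    (QuadraticAlgebra (MvPolynomial (Fin n) ℂ) f 0) :=
  Module.Free.of_basis (QuadraticAlgebra.basis f 0)

open Pool.Agent.W506.Hilb in
/-- Projective dimensions over smooth double covers. -/
theorem pd_smooth
    (hf : (1 : MvPolynomial (Fin n) ℂ) ∈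
      Ideal.span (Set.range fun i => MvPolynomial.pderiv i f) ⊔ Ideal.span {f}) :
    ∀ (j : ℕ) (N : Type) [AddCommGroup N]
    [Module (QuadraticAlgebra (MvPolynomial (Fin n) ℂ) f 0) N] [Module (MvPolynomial (Fin n) ℂ) N]
    [IsScalarTower (MvPolynomial (Fin n) ℂ) (QuadraticAlgebra (MvPolynomial (Fin n) ℂ) f 0) N],
    PdLT (MvPolynomial (Fin n) ℂ) N (j + 1) →
      PdLT (QuadraticAlgebra (MvPolynomial (Fin n) ℂ) f 0) N (j + 1) := by
  intro j
  induction j with
  | zero =>
    intro N _ _ _ _ h
    exact pdLT_one_of_projective (proj_of_smooth (fun _ => hf) N (projective_of_pdLT_one h))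
  | succ j ih =>
    intro N _ _ _ _ h
    let R := QuadraticAlgebra (MvPolynomial (Fin n) ℂ) f 0
    let π : (N →₀ R) →ₗ[R] N := Finsupp.linearCombination R id
    have hπ : Function.Surjective π := Finsupp.linearCombination_id_surjective R N
    have hfree : PdLT (MvPolynomial (Fin n) ℂ) (N →₀ R) (j + 1) :=
      pdLT_mono (by omega) (pdLT_one_of_projective inferInstance)
    have hK : PdLT (MvPolynomial (Fin n) ℂ) (LinearMap.ker π) (j + 1) :=
      pdLT_left ((LinearMap.ker π).subtype.restrictScalars (MvPolynomial (Fin n) ℂ))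
        (π.restrictScalars (MvPolynomial (Fin n) ℂ)) (Submodule.injective_subtype _) hπ
        (LinearMap.exact_subtype_ker_map π) hfree h
    exact pdLT_right (LinearMap.ker π).subtype π (Submodule.injective_subtype _) hπ
      (LinearMap.exact_subtype_ker_map π) (ih _ hK)
      (pdLT_mono (by omega) (pdLT_one_of_projective inferInstance))

end Mv

end

end Run7.h164
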