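import Pool.Agent.Run7.h164.HA

set_option autoImplicit false
set_option linter.unusedVariables false

/-!
Finiteness of the modules of morphisms.
-/

open CategoryTheory Limits TopologicalSpace AlgebraicGeometry Opposite Pretriangulated ZeroObject

namespace Run7.h164

noncomputable section

set_option backward.isDefEq.respectTransparency false

open Pool.Agent.W506 Pool.Agent.N212
open Pool.Agent.R924 (DD Frame sg)

variable (V : Verra) {sd : Bool}
  {A₀ : Type} [CommRing A₀] [Algebra ℂ A₀] {a : Fin 3 → A₀}
  (M : CM V.G sd a) (m : ℤ)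

attribute [local instance] HasDerivedCategory.standard

/-- Objects with finitely generated modules of morphisms, almost all zero. -/
structure FinH (E : DerivedCategory (VX V).Modules) : Prop where
  fin : ∀ i, Module.Finite A₀ (HM V E M m i)
  bdd : ∃ n : ℕ, ∀ i : ℤ, (n : ℤ) ≤ |i| → ∀ x : HM V E M m i, x = 0

/-- The same as a property of objects. -/
def FinP : ObjectProperty (DerivedCategory (VX V).Modules) := fun E => FinH V M m E

lemma FinH.retract {E E' : DerivedCategory (VX V).Modules} (r : Retract E E')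
    (h : FinH V M m E') : FinH V M m E where
  fin i := by
    have := h.fin i
    refine Module.Finite.of_surjective (pre V M m i r.i) fun x => ⟨pre V M m i r.r x, ?_⟩
    change r.i ≫ r.r ≫ (x : E ⟶ _) = x
    rw [← Category.assoc, r.retract]
    exact Category.id_comp _
  bdd := by
    obtain ⟨n, hn⟩ := h.bdd
    refine ⟨n, fun i hi x => ?_⟩
    have h1 := hn i hi (pre V M m i r.r x)
    have h2 : r.i ≫ r.r ≫ (x : E ⟶ _) = x := by
      rw [← Category.assoc, r.retract]
      exact Category.id_comp _
    rw [← h2]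
    have h3 : r.r ≫ (x : E ⟶ _) = 0 := h1
    rw [h3]
    exact comp_zero

instance : (FinP V M m).IsStableUnderRetracts where
  of_retract r h := FinH.retract V M m r h

instance : (FinP V M m).IsClosedUnderIsomorphisms where
  of_iso e h := FinH.retract V M m ⟨e.inv, e.hom, e.inv_hom_id⟩ h

instance : (FinP V M m).ContainsZero where
  exists_zero := ⟨0, isZero_zero _, by
    have h : ∀ i, ∀ x : HM V (0 : DerivedCategory (VX V).Modules) M m i, x = 0 :=
      fun i x => (isZero_zero _).eq_of_src _ _
    refine ⟨fun i => ?_, 0, fun i _ => h i⟩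
    have : Subsingleton (HM V (0 : DerivedCategory (VX V).Modules) M m i) :=
      ⟨fun x y => (h i x).trans (h i y).symm⟩
    infer_instance⟩

instance : (FinP V M m).IsStableUnderShift ℤ where
  isStableUnderShiftBy n := ⟨fun E h => by
    refine ⟨fun i => ?_, ?_⟩
    · have := h.fin (i - n)
      exact Module.Finite.equiv (shH V M m n (i - n) i (by ring))
    · obtain ⟨k, hk⟩ := h.bdd
      refine ⟨k + n.natAbs, fun i hi x => ?_⟩
      have h1 := hk (i - n) (by
        push_cast at hi
        have : |i| ≤ |i - n| + |n| := by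
          have := abs_add_le (i - n) n
          simpa using this
        omega) ((shH V M m n (i - n) i (by ring)).symm x)
      rw [← (shH V M m n (i - n) i (by ring)).apply_symm_apply x, h1, map_zero]⟩

variable [IsNoetherianRing A₀]

instance : (FinP V M m).IsTriangulatedClosed₂ := by
  apply ObjectProperty.IsTriangulatedClosed₂.mk'
  intro T hT h₁ h₃
  refine ⟨fun i => ?_, ?_⟩
  · have := h₁.fin i
    have := h₃.fin i
    have h : LinearMap.range (pre V M m i T.mor₂) = LinearMap.ker (pre V M m i T.mor₁) := by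
      ext x
      constructor
      · rintro ⟨y, rfl⟩
        change T.mor₁ ≫ T.mor₂ ≫ (y : T.obj₃ ⟶ _) = 0
        rw [← Category.assoc, comp_distTriang_mor_zero₁₂ T hT, zero_comp]
      · intro hx
        obtain ⟨y, hy⟩ := Triangle.yoneda_exact₂ T hT (show T.obj₂ ⟶ _ from x) hx
        exact ⟨y, hy.symm⟩
    have h1 : IsNoetherian A₀ (HM V T.obj₂ M m i) := isNoetherian_of_range_eq_ker _ _ h
    infer_instance
  · obtain ⟨n₁, hn₁⟩ := h₁.bdd
    obtain ⟨n₃, hn₃⟩ := h₃.bdd
    refine ⟨max n₁ n₃, fun i hi x => ?_⟩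
    have e1 : T.mor₁ ≫ (x : T.obj₂ ⟶ _) = 0 := hn₁ i (le_trans (by exact_mod_cast le_max_left _ _) hi)
      (pre V M m i T.mor₁ x)
    obtain ⟨y, hy⟩ := Triangle.yoneda_exact₂ T hT (show T.obj₂ ⟶ _ from x) e1
    have e2 : y = 0 := hn₃ i (le_trans (by exact_mod_cast le_max_right _ _) hi) y
    rw [e2, comp_zero] at hy
    exact hy

instance : (FinP V M m).IsTriangulated where

omit [IsNoetherianRing A₀]

section Line

/-- The exponents of degree `n`. -/
def exS (n : ℤ) : Set Ex := {e | (∀ i, 0 ≤ e i) ∧ ∑ i, e i = n}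

lemma exS_finite (n : ℤ) : (exS n).Finite := by
  refine (Set.Finite.pi' (fun _ : Fin 3 => Set.finite_Icc (0 : ℤ) n)).subset ?_
  rintro e ⟨h1, h2⟩ i
  refine ⟨h1 i, ?_⟩
  rw [← h2]
  exact Finset.single_le_sum (f := fun i => e i) (fun i _ => h1 i) (Finset.mem_univ i)

instance (n : ℤ) : Finite (exS n) := (exS_finite n).to_subtype

/-- Homogeneous elements as a submodule. -/
def dgS (n : ℤ) : Submodule A₀ (LM M) where
  carrier := {l | l ∈ dgL M n}
  add_mem' := fun h h' => (dgL M n).add_mem h h'
  zero_mem' := (dgL M n).zero_mem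
  smul_mem' := by
    intro c l h e he
    exact h e fun h0 => he (by rw [co_smul, h0, smul_zero])

lemma mem_dgS {n : ℤ} {l : LM M} : l ∈ dgS V M n ↔ l ∈ dgL M n := Iff.rfl

/-- Homogeneous elements as functions. -/
def dgE (n : ℤ) : dgS V M n ≃ₗ[A₀] (exS n →₀ M.C) :=
  (LinearEquiv.ofEq (dgS V M n) (Finsupp.supported M.C A₀ (exS n) : Submodule A₀ (Ex →₀ M.C)) (by
    ext l
    rw [Finsupp.mem_supported, mem_dgS, mem_dgL]
    constructor
    · intro h e he
      exact h e (Finsupp.mem_support_iff.1 he)
    · intro h e he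
      exact h (Finsupp.mem_support_iff.2 he))).trans (Finsupp.supportedEquivFinsupp _)

/-- Morphisms of degree zero in the derived category. -/
def hz {C : Type*} [Category C] [Abelian C] [HasDerivedCategory C] (L N : C) :
    (sg L ⟶ (sg N)⟦(0 : ℤ)⟧) ≃+ (L ⟶ N) where
  toFun x := (DerivedCategory.singleFunctor C 0).preimage
    (x ≫ (shiftFunctorZero _ ℤ).hom.app (sg N))
  invFun φ := (DerivedCategory.singleFunctor C 0).map φ ≫ (shiftFunctorZero _ ℤ).inv.app (sg N)
  left_inv x := by
    change (DerivedCategory.singleFunctor C 0).map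
      ((DerivedCategory.singleFunctor C 0).preimage _) ≫ _ = _
    rw [Functor.map_preimage, Category.assoc, Iso.hom_inv_id_app]
    exact Category.comp_id _
  right_inv φ := by
    apply (DerivedCategory.singleFunctor C 0).map_injective
    rw [Functor.map_preimage, Category.assoc, Iso.inv_hom_id_app]
    exact Category.comp_id _
  map_add' x y := by
    apply (DerivedCategory.singleFunctor C 0).map_injective
    rw [Functor.map_preimage, Functor.map_add, Functor.map_preimage, Functor.map_preimage]
    exact Preadditive.add_comp _ _ _ _ _ _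

lemma hz_comp {C : Type*} [Category C] [Abelian C] [HasDerivedCategory C] {L N N' : C}
    (x : sg L ⟶ (sg N)⟦(0 : ℤ)⟧) (f : N ⟶ N') :
    hz L N' (x ≫ ((DerivedCategory.singleFunctor C 0).map f)⟦(0 : ℤ)⟧') = hz L N x ≫ f := by
  apply (DerivedCategory.singleFunctor C 0).map_injective
  change (DerivedCategory.singleFunctor C 0).map ((DerivedCategory.singleFunctor C 0).preimage _) =
    (DerivedCategory.singleFunctor C 0).map ((DerivedCategory.singleFunctor C 0).preimage _ ≫ f)
  rw [Functor.map_comp, Functor.map_preimage, Functor.map_preimage, Category.assoc, Category.assoc]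
  congr 1
  exact (shiftFunctorZero (DerivedCategory C) ℤ).hom.naturality
    ((DerivedCategory.singleFunctor C 0).map f)

variable {δ : (VF V).Div} {b : ℤ} (ha : a 0 = 1) (hδ : ShD V sd δ b)

/-- Morphisms from a line bundle in the derived category. -/
def lbA : HM V (sg (Frame.lb δ)) M m 0 ≃+ dgL M (m - b) :=
  AddEquiv.trans (hz (Frame.lb δ) (til (NV M) m) : HM V (sg (Frame.lb δ)) M m 0 ≃+ _)
    (homE V ha hδ m)

lemma lbA_smul (r : A₀) (x : HM V (sg (Frame.lb δ)) M m 0) :
    (lbA V M m ha hδ (r • x)).1 = r • (lbA V M m ha hδ x).1 := by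
  have h1 : hz (Frame.lb δ) (til (NV M) m) (r • x : HM V (sg (Frame.lb δ)) M m 0) =
      hz (Frame.lb δ) (til (NV M) m) x ≫ tm (scH M r) m := hz_comp _ _
  have h2 := homE_comp V ha hδ ha (hz (Frame.lb δ) (til (NV M) m) x) (scH M r)
  rw [← h1] at h2
  exact h2

/-- Morphisms from a line bundle in the derived category. -/
def lbH : HM V (sg (Frame.lb δ)) M m 0 ≃ₗ[A₀] dgS V M (m - b) where
  toFun x := ⟨(lbA V M m ha hδ x).1, (lbA V M m ha hδ x).2⟩
  invFun T := (lbA V M m ha hδ).symm ⟨T.1, T.2⟩
  left_inv x := (lbA V M m ha hδ).symm_apply_apply x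
  right_inv T := Subtype.ext (congrArg Subtype.val
    ((lbA V M m ha hδ).apply_symm_apply ⟨T.1, T.2⟩))
  map_add' x y := Subtype.ext (congrArg Subtype.val (map_add (lbA V M m ha hδ) x y))
  map_smul' r x := Subtype.ext (lbA_smul V M m ha hδ r x)

include ha hδ in
/-- Line bundles. -/
lemma finP_lb [Module.Finite A₀ M.C] (hm : -2 ≤ m - b) : FinP V M m (sg (Frame.lb δ)) where
  fin i := by
    by_cases hi : i = 0
    · subst hi
      have : Module.Finite A₀ (exS (m - b) →₀ M.C) := inferInstance
      exact Module.Finite.equiv ((lbH V M m ha hδ).trans (dgE V M (m - b))).symm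
    · have : Subsingleton (HM V (sg (Frame.lb δ)) M m i) :=
        ⟨fun x y => (hom_til_eq_zero V ha hδ hm hi x).trans (hom_til_eq_zero V ha hδ hm hi y).symm⟩
      infer_instance
  bdd := ⟨1, fun i hi x => hom_til_eq_zero V ha hδ hm (by
    rintro rfl
    simp at hi) x⟩

end Line

end

end Run7.h164
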