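import Pool.Agent.Run7.h164.CR
import Pool.Agent.Run7.h164.GD
import Pool.Agent.Run7.h164.HB
import Pool.Agent.R924.P6

set_option autoImplicit false
set_option linter.unusedVariables false
set_option linter.unusedSectionVars false

/-!
Bounded complexes with coherent cohomology on a Verra fourfold.
-/

open CategoryTheory Limits TopologicalSpace AlgebraicGeometry Opposite

namespace Run7.h164

noncomputable section

set_option backward.isDefEq.respectTransparency false

open Pool.Agent.R924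
open Pool.Agent.W506 (Hilb.PdLT)

section Chain

variable {σ τ : Type} [Fintype σ] [DecidableEq σ]

lemma pderiv_aeval' (φ : σ → MvPolynomial τ ℂ) (p : MvPolynomial σ ℂ) (j : τ) :
    MvPolynomial.pderiv j (MvPolynomial.aeval φ p) =
      ∑ s, MvPolynomial.aeval φ (MvPolynomial.pderiv s p) * MvPolynomial.pderiv j (φ s) := by
  induction p using MvPolynomial.induction_on with
  | C c =>
    have h1 : (MvPolynomial.aeval φ (MvPolynomial.C c) : MvPolynomial τ ℂ) =
        MvPolynomial.C c := MvPolynomial.aeval_C _ _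
    rw [h1, MvPolynomial.pderiv_C]
    exact (Finset.sum_eq_zero fun s _ => by rw [MvPolynomial.pderiv_C, map_zero, zero_mul]).symm
  | add p q hp hq =>
    rw [map_add, map_add, hp, hq, ← Finset.sum_add_distrib]
    exact Finset.sum_congr rfl fun s _ => by rw [map_add, map_add, add_mul]
  | mul_X p n hp =>
    rw [map_mul, MvPolynomial.aeval_X, Derivation.leibniz, hp, smul_eq_mul, smul_eq_mul,
      Finset.mul_sum]
    have h1 : ∀ s, MvPolynomial.aeval φ (MvPolynomial.pderiv s (p * MvPolynomial.X n)) *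
        MvPolynomial.pderiv j (φ s) = (MvPolynomial.aeval φ p * (if s = n then 1 else 0)) *
          MvPolynomial.pderiv j (φ s) +
        φ n * (MvPolynomial.aeval φ (MvPolynomial.pderiv s p) * MvPolynomial.pderiv j (φ s)) := by
      intro s
      rw [Derivation.leibniz, MvPolynomial.pderiv_X, smul_eq_mul, smul_eq_mul, map_add, map_mul,
        map_mul, MvPolynomial.aeval_X]
      by_cases h : s = n
      · subst h
        simp
        ring
      · rw [Pi.single_eq_of_ne (Ne.symm h), if_neg h, map_zero]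
        ring
    simp only [h1, Finset.sum_add_distrib]
    congr 1
    rw [Finset.sum_eq_single n]
    · simp
    · intro s _ hs
      rw [if_neg hs]
      ring
    · intro h
      exact absurd (Finset.mem_univ _) h

end Chain

/-- The polynomial ring in six variables. -/
abbrev P6 : Type := MvPolynomial (Fin 3 ⊕ Fin 3) ℂ

/-- The Euler operators. -/
def eul (s : Fin 3 → Fin 3 ⊕ Fin 3) (p : P6) : P6 :=
  ∑ i, MvPolynomial.X (s i) * MvPolynomial.pderiv (s i) p

lemma eul_mul (s : Fin 3 → Fin 3 ⊕ Fin 3) (p q : P6) : eul s (p * q) =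
    eul s p * q + p * eul s q := by
  simp only [eul, Finset.sum_mul, Finset.mul_sum, ← Finset.sum_add_distrib, Derivation.leibniz,
    smul_eq_mul]
  exact Finset.sum_congr rfl fun i _ => by ring

lemma eul_add (s : Fin 3 → Fin 3 ⊕ Fin 3) (p q : P6) : eul s (p + q) = eul s p + eul s q := by
  simp only [eul, ← Finset.sum_add_distrib, map_add, mul_add]

lemma eul_smul (s : Fin 3 → Fin 3 ⊕ Fin 3) (c : ℂ) (p : P6) : eul s (c • p) = c • eul s p := by
  rw [eul, eul, Finset.smul_sum]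
  refine Finset.sum_congr rfl fun i _ => ?_
  rw [Derivation.map_smul, mul_smul_comm]

/-- The Euler operator as a linear map. -/
def eulL (s : Fin 3 → Fin 3 ⊕ Fin 3) : P6 →ₗ[ℂ] P6 where
  toFun := eul s
  map_add' := eul_add s
  map_smul' := eul_smul s

lemma eul_inl_inl (i : Fin 3) : eul Sum.inl (MvPolynomial.X (Sum.inl i)) =
    MvPolynomial.X (Sum.inl i) := by
  rw [eul, Finset.sum_eq_single i]
  · rw [MvPolynomial.pderiv_X_self, mul_one]
  · intro j _ hj
    rw [MvPolynomial.pderiv_X_of_ne (fun h => hj (Sum.inl_injective h).symm), mul_zero]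
  · intro h
    exact absurd (Finset.mem_univ _) h

lemma eul_inl_inr (i : Fin 3) : eul Sum.inl (MvPolynomial.X (Sum.inr i)) = 0 :=
  Finset.sum_eq_zero fun j _ => by
    rw [MvPolynomial.pderiv_X_of_ne (fun h => by cases h), mul_zero]

lemma eul_inr_inr (i : Fin 3) : eul Sum.inr (MvPolynomial.X (Sum.inr i)) =
    MvPolynomial.X (Sum.inr i) := by
  rw [eul, Finset.sum_eq_single i]
  · rw [MvPolynomial.pderiv_X_self, mul_one]
  · intro j _ hj
    rw [MvPolynomial.pderiv_X_of_ne (fun h => hj (Sum.inr_injective h).symm), mul_zero]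
  · intro h
    exact absurd (Finset.mem_univ _) h

lemma eul_inr_inl (i : Fin 3) : eul Sum.inr (MvPolynomial.X (Sum.inl i)) = 0 :=
  Finset.sum_eq_zero fun j _ => by
    rw [MvPolynomial.pderiv_X_of_ne (fun h => by cases h), mul_zero]

lemma eul_inl_FP (G : Fin 3 → Fin 3 → Fin 3 → Fin 3 → ℂ) : eul Sum.inl (FP G) = 2 * FP G := by
  change eulL Sum.inl (FP G) = _
  rw [FP, fm]
  simp only [map_sum, map_smul, Finset.mul_sum]
  refine Finset.sum_congr rfl fun i _ => Finset.sum_congr rfl fun j _ =>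
    Finset.sum_congr rfl fun k _ => Finset.sum_congr rfl fun l _ => ?_
  change _ • eul Sum.inl _ = _
  rw [eul_mul, eul_mul, eul_mul, eul_inl_inl, eul_inl_inl, eul_inl_inr, eul_inl_inr,
    mul_smul_comm]
  congr 1
  ring

lemma eul_inr_FP (G : Fin 3 → Fin 3 → Fin 3 → Fin 3 → ℂ) : eul Sum.inr (FP G) = 2 * FP G := by
  change eulL Sum.inr (FP G) = _
  rw [FP, fm]
  simp only [map_sum, map_smul, Finset.mul_sum]
  refine Finset.sum_congr rfl fun i _ => Finset.sum_congr rfl fun j _ =>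
    Finset.sum_congr rfl fun k _ => Finset.sum_congr rfl fun l _ => ?_
  change _ • eul Sum.inr _ = _
  rw [eul_mul, eul_mul, eul_mul, eul_inr_inr, eul_inr_inr, eul_inr_inl, eul_inr_inl,
    mul_smul_comm]
  congr 1
  ring

lemma euler_eval (G : Fin 3 → Fin 3 → Fin 3 → Fin 3 → ℂ) (s : Fin 3 → Fin 3 ⊕ Fin 3)
    (hs : eul s (FP G) = 2 * FP G) (v : Fin 3 ⊕ Fin 3 → ℂ) :
    ∑ i, v (s i) * MvPolynomial.eval v (MvPolynomial.pderiv (s i) (FP G)) =
      2 * MvPolynomial.eval v (FP G) := by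
  have h := congrArg (MvPolynomial.eval v) hs
  rw [eul, map_sum, map_mul] at h
  simpa only [map_mul, MvPolynomial.eval_X, map_ofNat] using h

variable (V : Verra)

/-- The coordinates on a chart. -/
def phC (i₀ k₀ : Fin 3) : Fin 3 ⊕ Fin 3 → P4 := Sum.elim (xv i₀) (yv k₀)

lemma fch_eq (i₀ k₀ : Fin 3) : fch V i₀ k₀ = MvPolynomial.aeval (phC i₀ k₀) (FP V.G) := by
  rw [FP, map_fm]
  simp only [MvPolynomial.aeval_X]
  rfl

/-- The points of a chart. -/
def ptC (i₀ k₀ : Fin 3) (x : Fin 4 → ℂ) : Fin 3 ⊕ Fin 3 → ℂ :=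
  fun s => MvPolynomial.eval x (phC i₀ k₀ s)

lemma eval_phC (i₀ k₀ : Fin 3) (x : Fin 4 → ℂ) (p : P6) :
    MvPolynomial.eval x (MvPolynomial.aeval (phC i₀ k₀) p) =
      MvPolynomial.eval (ptC i₀ k₀ x) p := by
  induction p using MvPolynomial.induction_on with
  | C c =>
    rw [MvPolynomial.eval_C]
    have h1 : (MvPolynomial.aeval (phC i₀ k₀) (MvPolynomial.C c) : P4) =
        MvPolynomial.C c := MvPolynomial.aeval_C _ _
    rw [h1, MvPolynomial.eval_C]
  | add p q hp hq => rw [map_add, map_add, map_add, hp, hq]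
  | mul_X p n hp =>
    rw [map_mul, map_mul, map_mul, hp, MvPolynomial.aeval_X, MvPolynomial.eval_X]
    rfl

lemma xv_same (i₀ : Fin 3) : xv i₀ i₀ = 1 := by
  rw [xv, Fin.insertNth_apply_same]

lemma yv_same (k₀ : Fin 3) : yv k₀ k₀ = 1 := by
  rw [yv, Fin.insertNth_apply_same]

lemma xv_sA (i₀ : Fin 3) (j : Fin 2) : xv i₀ (i₀.succAbove j) =
    (![MvPolynomial.X 0, MvPolynomial.X 1] : Fin 2 → P4) j := by
  rw [xv, Fin.insertNth_apply_succAbove]

lemma yv_sA (k₀ : Fin 3) (j : Fin 2) : yv k₀ (k₀.succAbove j) =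
    (![MvPolynomial.X 2, MvPolynomial.X 3] : Fin 2 → P4) j := by
  rw [yv, Fin.insertNth_apply_succAbove]

lemma ptC_one (i₀ k₀ : Fin 3) (x : Fin 4 → ℂ) : ptC i₀ k₀ x (Sum.inl i₀) = 1 := by
  change MvPolynomial.eval x (xv i₀ i₀) = 1
  rw [xv_same, map_one]

lemma ptC_one' (i₀ k₀ : Fin 3) (x : Fin 4 → ℂ) : ptC i₀ k₀ x (Sum.inr k₀) = 1 := by
  change MvPolynomial.eval x (yv k₀ k₀) = 1
  rw [yv_same, map_one]

/-- The index of a coordinate. -/
def inC (i₀ k₀ : Fin 3) : Fin 4 → Fin 3 ⊕ Fin 3 :=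
  ![Sum.inl (i₀.succAbove 0), Sum.inl (i₀.succAbove 1), Sum.inr (k₀.succAbove 0),
    Sum.inr (k₀.succAbove 1)]

lemma phC_inC (i₀ k₀ : Fin 3) (j : Fin 4) : phC i₀ k₀ (inC i₀ k₀ j) = MvPolynomial.X j := by
  fin_cases j
  · exact xv_sA i₀ 0
  · exact xv_sA i₀ 1
  · exact yv_sA k₀ 0
  · exact yv_sA k₀ 1

lemma cases_inC (i₀ k₀ : Fin 3) (s : Fin 3 ⊕ Fin 3) : s = Sum.inl i₀ ∨ s = Sum.inr k₀ ∨
    ∃ j, s = inC i₀ k₀ j := by
  rcases s with i | k
  · rcases Fin.eq_self_or_eq_succAbove i₀ i with rfl | ⟨j, rfl⟩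
    · exact Or.inl rfl
    · fin_cases j
      · exact Or.inr (Or.inr ⟨0, rfl⟩)
      · exact Or.inr (Or.inr ⟨1, rfl⟩)
  · rcases Fin.eq_self_or_eq_succAbove k₀ k with rfl | ⟨j, rfl⟩
    · exact Or.inr (Or.inl rfl)
    · fin_cases j
      · exact Or.inr (Or.inr ⟨2, rfl⟩)
      · exact Or.inr (Or.inr ⟨3, rfl⟩)

lemma inC_inj (i₀ k₀ : Fin 3) : Function.Injective (inC i₀ k₀) := by
  intro j j' h
  have h1 := congrArg (phC i₀ k₀) h
  rw [phC_inC, phC_inC] at h1
  exact MvPolynomial.X_injective h1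

lemma pderiv_phC (i₀ k₀ : Fin 3) (j : Fin 4) (s : Fin 3 ⊕ Fin 3) :
    MvPolynomial.pderiv j (phC i₀ k₀ s) = if s = inC i₀ k₀ j then 1 else 0 := by
  rcases cases_inC i₀ k₀ s with rfl | rfl | ⟨j', rfl⟩
  · rw [if_neg]
    · have h1 : phC i₀ k₀ (Sum.inl i₀) = 1 := xv_same i₀
      rw [h1]
      exact Derivation.map_one_eq_zero _
    · intro h
      have h1 := congrArg (phC i₀ k₀) h
      have h2 : phC i₀ k₀ (Sum.inl i₀) = 1 := xv_same i₀
      rw [phC_inC, h2] at h1
      have h3 := congrArg (MvPolynomial.eval (0 : Fin 4 → ℂ)) h1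
      rw [map_one, MvPolynomial.eval_X] at h3
      exact one_ne_zero h3
  · rw [if_neg]
    · have h1 : phC i₀ k₀ (Sum.inr k₀) = 1 := yv_same k₀
      rw [h1]
      exact Derivation.map_one_eq_zero _
    · intro h
      have h1 := congrArg (phC i₀ k₀) h
      have h2 : phC i₀ k₀ (Sum.inr k₀) = 1 := yv_same k₀
      rw [phC_inC, h2] at h1
      have h3 := congrArg (MvPolynomial.eval (0 : Fin 4 → ℂ)) h1
      rw [map_one, MvPolynomial.eval_X] at h3
      exact one_ne_zero h3
  · rw [phC_inC]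
    by_cases h : j' = j
    · subst h
      rw [if_pos rfl, MvPolynomial.pderiv_X_self]
    · rw [if_neg (fun h' => h (inC_inj i₀ k₀ h')), MvPolynomial.pderiv_X_of_ne h]

lemma pderiv_fch (i₀ k₀ : Fin 3) (j : Fin 4) : MvPolynomial.pderiv j (fch V i₀ k₀) =
    MvPolynomial.aeval (phC i₀ k₀) (MvPolynomial.pderiv (inC i₀ k₀ j) (FP V.G)) := by
  rw [fch_eq, pderiv_aeval', Finset.sum_eq_single (inC i₀ k₀ j)]
  · rw [pderiv_phC, if_pos rfl, mul_one]
  · intro s _ hs
    rw [pderiv_phC, if_neg hs, mul_zero]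
  · intro h
    exact absurd (Finset.mem_univ _) h

/-- The charts of the branch divisor are smooth. -/
lemma one_mem_jac (i₀ k₀ : Fin 3) : (1 : P4) ∈
    Ideal.span (Set.range fun i => MvPolynomial.pderiv i (fch V i₀ k₀)) ⊔
      Ideal.span {fch V i₀ k₀} := by
  by_contra hne
  obtain ⟨I, hI, hle⟩ := Ideal.exists_le_maximal _ ((Ideal.ne_top_iff_one _).2 hne)
  obtain ⟨x, hx⟩ := MvPolynomial.isMaximal_iff_eq_vanishingIdeal_singleton.1 hI
  have h0 : ∀ p ∈ Ideal.span (Set.range fun i => MvPolynomial.pderiv i (fch V i₀ k₀)) ⊔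
      Ideal.span {fch V i₀ k₀}, MvPolynomial.eval x p = 0 := by
    intro p hp
    have h1 := hle hp
    rw [hx] at h1
    exact (MvPolynomial.mem_vanishingIdeal_singleton_iff x p).1 h1
  have hf : MvPolynomial.eval (ptC i₀ k₀ x) (FP V.G) = 0 := by
    rw [← eval_phC, ← fch_eq]
    exact h0 _ (Ideal.mem_sup_right (Ideal.subset_span rfl))
  have hj : ∀ j, MvPolynomial.eval (ptC i₀ k₀ x)
      (MvPolynomial.pderiv (inC i₀ k₀ j) (FP V.G)) = 0 := by
    intro j
    rw [← eval_phC, ← pderiv_fch]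
    exact h0 _ (Ideal.mem_sup_left (Ideal.subset_span ⟨j, rfl⟩))
  have e1 := euler_eval V.G Sum.inl (eul_inl_FP V.G) (ptC i₀ k₀ x)
  have e2 := euler_eval V.G Sum.inr (eul_inr_FP V.G) (ptC i₀ k₀ x)
  have h1 : MvPolynomial.eval (ptC i₀ k₀ x) (MvPolynomial.pderiv (Sum.inl i₀) (FP V.G)) = 0 := by
    rw [Finset.sum_eq_single i₀, ptC_one, one_mul, hf, mul_zero] at e1
    · exact e1
    · intro i _ hi
      rcases cases_inC i₀ k₀ (Sum.inl i) with h | h | ⟨j, h⟩
      · exact absurd (Sum.inl_injective h) hi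
      · cases h
      · rw [h, hj, mul_zero]
    · intro h
      exact absurd (Finset.mem_univ _) h
  have h2 : MvPolynomial.eval (ptC i₀ k₀ x) (MvPolynomial.pderiv (Sum.inr k₀) (FP V.G)) = 0 := by
    rw [Finset.sum_eq_single k₀, ptC_one', one_mul, hf, mul_zero] at e2
    · exact e2
    · intro i _ hi
      rcases cases_inC i₀ k₀ (Sum.inr i) with h | h | ⟨j, h⟩
      · cases h
      · exact absurd (Sum.inr_injective h) hi
      · rw [h, hj, mul_zero]
    · intro h
      exact absurd (Finset.mem_univ _) h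
  obtain ⟨s, hs⟩ := V.smooth (ptC i₀ k₀ x) ⟨i₀, by rw [ptC_one]; exact one_ne_zero⟩
    ⟨k₀, by rw [ptC_one']; exact one_ne_zero⟩
  rcases cases_inC i₀ k₀ s with rfl | rfl | ⟨j, rfl⟩
  · exact hs h1
  · exact hs h2
  · exact hs (hj j)

theorem goodV : IsGood (VF V).U 4 where
  aff := (AV V).aff
  cover := (VF V).cover
  noeth j := by
    have h1 : Module.Finite P4 (Qch V j.1 j.2) :=
      Module.Finite.of_basis (QuadraticAlgebra.basis _ _)
    have h2 : IsNoetherianRing (Qch V j.1 j.2) := IsNoetherianRing.of_finite P4 _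
    exact isNoetherianRing_of_ringEquiv _ (chQ V j.1 j.2).symm
  dim j M _ _ := by
    let i1 : Module (Qch V j.1 j.2) M := Module.compHom M (chQ V j.1 j.2).symm.toRingHom
    let i2 : Module P4 M := Module.compHom M (algebraMap P4 (Qch V j.1 j.2))
    have i3 : IsScalarTower P4 (Qch V j.1 j.2) M := ⟨fun r f m => by
      rw [Algebra.smul_def, mul_smul]
      rfl⟩
    exact Pool.Agent.W506.Hilb.pdLT_of_ringEquiv (chQ V j.1 j.2).symm M M (AddEquiv.refl _)
      (fun r m => rfl) (pd_smooth (one_mem_jac V j.1 j.2) 4 M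
        (Pool.Agent.W506.Hilb.hilbert_syzygy ℂ 4 M))

attribute [local instance] HasDerivedCategory.standard

variable {V} {sd : Bool} {A₀ : Type} [CommRing A₀] [Algebra ℂ A₀] {a : Fin 3 → A₀}

/-- The modules of morphisms from bounded complexes with coherent cohomology are finitely
generated. -/
theorem finH_of_dCoh (M : CM V.G sd a) (ha : a 0 = 1) [IsNoetherianRing A₀]
    [Module.Finite A₀ M.C] {m : ℤ} (hm : -2 ≤ m)
    {E : DerivedCategory (VX V).Modules} (hE : DCoh E) : FinH V M m E := by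
  have hT : ∀ d : ℕ, FinP V M m (sg (Frame.lb ((alD V ^ d)⁻¹))) := by
    intro d
    have h1 : ShD V sd (alD V) 1 := by
      rw [alD_eq]
      have h := shD_line V (sd := sd) 1 1
      rw [zpow_one, zpow_one] at h
      cases sd
      · exact h
      · exact h
    have h2 := shD_inv V (shD_pow V h1 d)
    exact finP_lb V M m ha h2 (by omega)
  obtain ⟨b, n, h1, h2⟩ := hE.bdd
  exact mem_of_homology (FinP V M m) n E b h1 h2 fun i =>
    coh_mem (goodV V) (FinP V M m) (fun M hM => (AV V).exists_epi hT M hM) _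
      fun j => hE.coh i _ ((AV V).aff j)

end

end Run7.h164
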