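import Pool.Agent.Run7.h164.NV

set_option autoImplicit false
set_option linter.unusedVariables false
set_option linter.unusedSectionVars false

/-!
The Clifford algebra as a module over itself, by explicit matrices.
-/

open CategoryTheory Limits TopologicalSpace AlgebraicGeometry Opposite TopCat

namespace Run7.h164

noncomputable section

/-- The sign of a set of indices below a given one. -/
def sgn8 (s k : ℕ) : ℤ :=
  if ((List.range k).filter (fun i => s.testBit i)).length % 2 = 0 then 1 else -1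

/-- Creation operators. -/
def crZ (k : Fin 3) : Matrix (Fin 8) (Fin 8) ℤ := Matrix.of fun i j =>
  if ¬ (j.1.testBit k.1) ∧ i.1 = j.1 + 2 ^ k.1 then sgn8 j.1 k.1 else 0

/-- Annihilation operators. -/
def anZ (k : Fin 3) : Matrix (Fin 8) (Fin 8) ℤ := (crZ k).transpose

/-- The parity. -/
def paZ : Matrix (Fin 8) (Fin 8) ℤ := Matrix.of fun i j => if i = j then sgn8 j.1 3 else 0

lemma cc : ∀ k l : Fin 3, crZ k * crZ l + crZ l * crZ k = 0 := by decide +kernel

lemma aa : ∀ k l : Fin 3, anZ k * anZ l + anZ l * anZ k = 0 := by decide +kernel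

lemma ca : ∀ k l : Fin 3, crZ k * anZ l + anZ l * crZ k = if k = l then 1 else 0 := by
  decide +kernel

lemma pp : paZ * paZ = 1 := by decide +kernel

lemma pc : ∀ k, paZ * crZ k = -(crZ k * paZ) := by decide +kernel

lemma pa : ∀ k, paZ * anZ k = -(anZ k * paZ) := by decide +kernel

variable (A₀ : Type) [CommRing A₀]

/-- Integral matrices as endomorphisms. -/
def mzH : Matrix (Fin 8) (Fin 8) ℤ →+* Module.End A₀ (Fin 8 → A₀) :=
  ((Matrix.toLinAlgEquiv' : Matrix (Fin 8) (Fin 8) A₀ ≃ₐ[A₀] _) :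
    Matrix (Fin 8) (Fin 8) A₀ →+* Module.End A₀ (Fin 8 → A₀)).comp (Int.castRingHom A₀).mapMatrix

lemma mzH_apply (m : Matrix (Fin 8) (Fin 8) ℤ) (v : Fin 8 → A₀) (i : Fin 8) :
    mzH A₀ m v i = ∑ j, (m i j : A₀) * v j := rfl

variable {A₀}

section Alg

variable {W : Type} [Ring W] [Algebra A₀ W] (c d : Fin 3 → W) (P : W)
  (hcc : ∀ k l, c k * c l + c l * c k = 0) (hdd : ∀ k l, d k * d l + d l * d k = 0)
  (hcd : ∀ k l, c k * d l + d l * c k = if k = l then 1 else 0)
  (hPP : P * P = 1) (hPc : ∀ k, P * c k = -(c k * P)) (hPd : ∀ k, P * d k = -(d k * P))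

/-- Combinations of annihilation operators. -/
def Dd (u : Fin 3 → A₀) : W := ∑ m, u m • d m

include hdd in
lemma Dd_comm (u v : Fin 3 → A₀) : Dd d u * Dd d v + Dd d v * Dd d u = 0 := by
  rw [Dd, Dd, Finset.sum_mul_sum, Finset.sum_mul_sum]
  rw [Finset.sum_comm (f := fun i j => v i • d i * u j • d j), ← Finset.sum_add_distrib]
  refine Finset.sum_eq_zero fun i _ => ?_
  rw [← Finset.sum_add_distrib]
  refine Finset.sum_eq_zero fun j _ => ?_
  rw [smul_mul_smul_comm, smul_mul_smul_comm, mul_comm (v j), ← smul_add, hdd, smul_zero]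

include hcd in
lemma cD_comm (k : Fin 3) (u : Fin 3 → A₀) : c k * Dd d u + Dd d u * c k =
    algebraMap A₀ W (u k) := by
  rw [Dd, Finset.mul_sum, Finset.sum_mul, ← Finset.sum_add_distrib, Finset.sum_eq_single k]
  · rw [mul_smul_comm, smul_mul_assoc, ← smul_add, hcd, if_pos rfl, Algebra.algebraMap_eq_smul_one]
  · intro l _ hl
    rw [mul_smul_comm, smul_mul_assoc, ← smul_add, hcd, if_neg (Ne.symm hl), smul_zero]
  · intro h
    exact absurd (Finset.mem_univ _) h

include hPd in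
lemma PD_comm (u : Fin 3 → A₀) : P * Dd d u = -(Dd d u * P) := by
  rw [Dd, Finset.mul_sum, Finset.sum_mul, ← Finset.sum_neg_distrib]
  refine Finset.sum_congr rfl fun i _ => ?_
  rw [mul_smul_comm, smul_mul_assoc, hPd, smul_neg]

/-- Left multiplications. -/
def Lw (g : Fin 3 → Fin 3 → A₀) (k : Fin 3) : W := c k + Dd d (g k)

/-- Right multiplications up to a sign. -/
def Rw (g : Fin 3 → Fin 3 → A₀) (k : Fin 3) : W := c k - Dd d (fun m => g m k)

variable (g : Fin 3 → Fin 3 → A₀)

include hcc hdd hcd in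
lemma Lw_rel (k l : Fin 3) : Lw c d g k * Lw c d g l + Lw c d g l * Lw c d g k =
    algebraMap A₀ W (g k l + g l k) := by
  have h1 := Dd_comm d hdd (g k) (g l)
  have h2 := cD_comm c d hcd k (g l)
  have h3 := cD_comm c d hcd l (g k)
  have h4 := hcc k l
  rw [map_add, ← h3, ← h2]
  have e : Lw c d g k * Lw c d g l + Lw c d g l * Lw c d g k =
      (c k * c l + c l * c k) + (c k * Dd d (g l) + Dd d (g l) * c k) +
      (c l * Dd d (g k) + Dd d (g k) * c l) +
      (Dd d (g k) * Dd d (g l) + Dd d (g l) * Dd d (g k)) := by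
    rw [Lw, Lw]
    noncomm_ring
  rw [e, h1, h4]
  abel

include hcc hdd hcd in
lemma Rw_rel (k l : Fin 3) : Rw c d g k * Rw c d g l + Rw c d g l * Rw c d g k =
    -algebraMap A₀ W (g k l + g l k) := by
  have h1 := Dd_comm d hdd (fun m => g m k) (fun m => g m l)
  have h2 := cD_comm c d hcd k (fun m => g m l)
  have h3 := cD_comm c d hcd l (fun m => g m k)
  have h4 := hcc k l
  rw [map_add, ← h3, ← h2]
  have e : Rw c d g k * Rw c d g l + Rw c d g l * Rw c d g k =
      (c k * c l + c l * c k) - (c k * Dd d (fun m => g m l) + Dd d (fun m => g m l) * c k) -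
      (c l * Dd d (fun m => g m k) + Dd d (fun m => g m k) * c l) +
      (Dd d (fun m => g m k) * Dd d (fun m => g m l) +
        Dd d (fun m => g m l) * Dd d (fun m => g m k)) := by
    rw [Rw, Rw]
    noncomm_ring
  rw [e, h1, h4]
  abel

include hcc hdd hcd in
lemma LR_rel (k l : Fin 3) : Lw c d g k * Rw c d g l + Rw c d g l * Lw c d g k = 0 := by
  have h1 := Dd_comm d hdd (g k) (fun m => g m l)
  have h2 := cD_comm c d hcd k (fun m => g m l)
  have h3 := cD_comm c d hcd l (g k)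
  have h4 := hcc k l
  have e : Lw c d g k * Rw c d g l + Rw c d g l * Lw c d g k =
      (c k * c l + c l * c k) - (c k * Dd d (fun m => g m l) + Dd d (fun m => g m l) * c k) +
      (c l * Dd d (g k) + Dd d (g k) * c l) -
      (Dd d (g k) * Dd d (fun m => g m l) + Dd d (fun m => g m l) * Dd d (g k)) := by
    rw [Lw, Rw]
    noncomm_ring
  rw [e, h1, h4, h2, h3]
  abel

include hPc hPd in
lemma PR_comm (k : Fin 3) : P * Rw c d g k = -(Rw c d g k * P) := by
  rw [Rw, mul_sub, hPc, PD_comm d P hPd, sub_mul]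
  abel

include hPc hPd in
lemma PL_comm (k : Fin 3) : P * Lw c d g k = -(Lw c d g k * P) := by
  rw [Lw, mul_add, hPc, PD_comm d P hPd, add_mul]
  abel

include hcc hdd hcd hPP hPc hPd in
lemma Ew_rel (k l : Fin 3) : (Rw c d g k * P) * (Rw c d g l * P) +
    (Rw c d g l * P) * (Rw c d g k * P) = algebraMap A₀ W (g k l + g l k) := by
  have h1 : ∀ k l, (Rw c d g k * P) * (Rw c d g l * P) = -(Rw c d g k * Rw c d g l) := by
    intro k l
    rw [mul_assoc, ← mul_assoc P, PR_comm c d P hPc hPd, neg_mul, mul_assoc _ P P, hPP, mul_one,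
      mul_neg]
  rw [h1, h1, ← neg_add, Rw_rel c d hcc hdd hcd, neg_neg]

include hcc hdd hcd hPP hPc hPd in
lemma LE_comm (k l : Fin 3) : Lw c d g k * (Rw c d g l * P) = (Rw c d g l * P) * Lw c d g k := by
  rw [mul_assoc, PL_comm c d P hPc hPd, mul_neg, ← mul_assoc, ← mul_assoc, ← neg_mul]
  congr 1
  exact eq_neg_of_add_eq_zero_left (LR_rel c d hcc hdd hcd g k l)

end Alg

variable [Algebra ℂ A₀]

lemma half_cancel {N : Type} [AddCommGroup N] [Module A₀ N] {x y : N} (h : x + x = y + y) :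
    x = y := by
  have h1 : ∀ z : N, (algebraMap ℂ A₀ (1 / 2)) • (z + z) = z := by
    intro z
    rw [smul_add, ← add_smul, ← map_add]
    norm_num
  rw [← h1 x, h, h1]

variable (G : Fin 3 → Fin 3 → Fin 3 → Fin 3 → ℂ) (sd : Bool) (a : Fin 3 → A₀)

lemma h_cc (k l : Fin 3) : mzH A₀ (crZ k) * mzH A₀ (crZ l) + mzH A₀ (crZ l) * mzH A₀ (crZ k) =
    0 := by
  rw [← map_mul, ← map_mul, ← map_add, cc, map_zero]

lemma h_dd (k l : Fin 3) : mzH A₀ (anZ k) * mzH A₀ (anZ l) + mzH A₀ (anZ l) * mzH A₀ (anZ k) =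
    0 := by
  rw [← map_mul, ← map_mul, ← map_add, aa, map_zero]

lemma h_cd (k l : Fin 3) : mzH A₀ (crZ k) * mzH A₀ (anZ l) + mzH A₀ (anZ l) * mzH A₀ (crZ k) =
    if k = l then 1 else 0 := by
  rw [← map_mul, ← map_mul, ← map_add, ca]
  split_ifs
  · rw [map_one]
  · rw [map_zero]

lemma h_pp : mzH A₀ paZ * mzH A₀ paZ = 1 := by
  rw [← map_mul, pp, map_one]

lemma h_pc (k : Fin 3) : mzH A₀ paZ * mzH A₀ (crZ k) = -(mzH A₀ (crZ k) * mzH A₀ paZ) := by
  rw [← map_mul, ← map_mul, ← map_neg, pc]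

lemma h_pa (k : Fin 3) : mzH A₀ paZ * mzH A₀ (anZ k) = -(mzH A₀ (anZ k) * mzH A₀ paZ) := by
  rw [← map_mul, ← map_mul, ← map_neg, pa]

/-- The Clifford algebra as a Clifford module. -/
def V8 : CM G sd a where
  C := Fin 8 → A₀
  E k := Rw (fun k => mzH A₀ (crZ k)) (fun k => mzH A₀ (anZ k)) (gk G sd a) k * mzH A₀ paZ
  sq k := by
    apply half_cancel (A₀ := A₀)
    rw [Ew_rel _ _ _ h_cc h_dd h_cd h_pp h_pc h_pa, map_add]
  rel k l := Ew_rel _ _ _ h_cc h_dd h_cd h_pp h_pc h_pa _ k l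

/-- Left multiplications. -/
def V8L (k : Fin 3) : Module.End A₀ (Fin 8 → A₀) :=
  Lw (fun k => mzH A₀ (crZ k)) (fun k => mzH A₀ (anZ k)) (gk G sd a) k

lemma V8L_rel (k l : Fin 3) : V8L G sd a k * V8L G sd a l + V8L G sd a l * V8L G sd a k =
    algebraMap A₀ _ (gk G sd a k l + gk G sd a l k) := Lw_rel _ _ h_cc h_dd h_cd _ k l

/-- Endomorphisms commuting with the action. -/
def endH {G : Fin 3 → Fin 3 → Fin 3 → Fin 3 → ℂ} {sd : Bool} {a : Fin 3 → A₀} (M : CM G sd a)
    (T : Module.End A₀ M.C) (hT : ∀ k v, T (M.E k v) = M.E k (T v)) : CMH M M where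
  f := T.toAddMonoidHom
  map_a i v := map_smul T _ _
  map_c c v := map_smul T _ _
  map_E k v := hT k v

/-- Left multiplications as endomorphisms. -/
def V8H (k : Fin 3) : CMH (V8 G sd a) (V8 G sd a) :=
  endH (V8 G sd a) (V8L G sd a k) fun l v =>
    LinearMap.congr_fun (LE_comm (fun k => mzH A₀ (crZ k)) (fun k => mzH A₀ (anZ k)) (mzH A₀ paZ)
      h_cc h_dd h_cd h_pp h_pc h_pa (gk G sd a) k l) v

section Red

variable {A₁ : Type} [CommRing A₁] [Algebra ℂ A₁] (π : A₀ →ₐ[ℂ] A₁)

lemma map_gk (k l : Fin 3) : π (gk G sd a k l) = gk G sd (fun i => π (a i)) k l := by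
  simp only [gk, map_sum, map_smul, map_mul]

lemma map_mzH (m : Matrix (Fin 8) (Fin 8) ℤ) (v : Fin 8 → A₀) :
    (fun i => π (mzH A₀ m v i)) = mzH A₁ m (fun i => π (v i)) := by
  funext i
  rw [mzH_apply, mzH_apply, map_sum]
  simp only [map_mul, map_intCast]

/-- Reduction. -/
def redH : CMH (V8 G sd a) (V8 G sd (fun i => π (a i))) where
  f := { toFun := fun v i => π (v i)
         map_zero' := funext fun i => map_zero π
         map_add' := fun v w => funext fun i => map_add π _ _ }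
  map_a i v := funext fun j => map_mul π _ _
  map_c c v := funext fun j => by
    change π (algebraMap ℂ A₀ c * v j) = algebraMap ℂ A₁ c * π (v j)
    rw [map_mul, AlgHom.commutes]
  map_E k v := by
    change (fun i => π ((Rw _ _ (gk G sd a) k * mzH A₀ paZ) v i)) =
      (Rw _ _ (gk G sd (fun i => π (a i))) k * mzH A₁ paZ) (fun i => π (v i))
    rw [Module.End.mul_apply, Module.End.mul_apply, ← map_mzH]
    generalize mzH A₀ paZ v = w
    have h1 : ∀ u : Fin 3 → A₀, (fun i => π (Dd (fun k => mzH A₀ (anZ k)) u w i)) =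
        Dd (fun k => mzH A₁ (anZ k)) (fun m => π (u m)) (fun i => π (w i)) := by
      intro u
      funext i
      rw [Dd, Dd, LinearMap.sum_apply, LinearMap.sum_apply, Finset.sum_apply, Finset.sum_apply,
        map_sum]
      refine Finset.sum_congr rfl fun m _ => ?_
      rw [LinearMap.smul_apply, LinearMap.smul_apply, Pi.smul_apply, Pi.smul_apply, smul_eq_mul,
        smul_eq_mul, map_mul, ← map_mzH]
    funext i
    rw [Rw, Rw, LinearMap.sub_apply, LinearMap.sub_apply, Pi.sub_apply, Pi.sub_apply, map_sub,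
      ← map_mzH]
    have h2 := congrFun (h1 (fun m => gk G sd a m k)) i
    rw [h2]
    simp only [map_gk]

end Red

end

end Run7.h164
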