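import Mathlib

set_option autoImplicit false
set_option linter.unusedVariables false
set_option linter.unusedSectionVars false

/-!
Ranks of modules over polynomial rings and of their specializations.
-/

open Polynomial Module

namespace Run7.h164

noncomputable section

universe v

section Six

variable {B : Type*} [CommRing B] [IsDomain B] {K₁ K₂ K₃ C₁ C₂ C₃ : Type v}
  [AddCommGroup K₁] [Module B K₁] [Module.Finite B K₁]
  [AddCommGroup K₂] [Module B K₂] [Module.Finite B K₂]
  [AddCommGroup K₃] [Module B K₃] [Module.Finite B K₃]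
  [AddCommGroup C₁] [Module B C₁] [Module.Finite B C₁]
  [AddCommGroup C₂] [Module B C₂] [Module.Finite B C₂]
  [AddCommGroup C₃] [Module B C₃] [Module.Finite B C₃]

omit [Module.Finite B K₂] in
lemma rn (f : K₁ →ₗ[B] K₂) : finrank B (LinearMap.range f) + finrank B (LinearMap.ker f) =
    finrank B K₁ := by
  rw [← f.quotKerEquivRange.finrank_eq]
  exact Submodule.finrank_quotient_add_finrank _

lemma six (f₁ : K₁ →ₗ[B] K₂) (f₂ : K₂ →ₗ[B] K₃) (d : K₃ →ₗ[B] C₁) (g₁ : C₁ →ₗ[B] C₂)
    (g₂ : C₂ →ₗ[B] C₃) (h₁ : Function.Injective f₁) (h₂ : Function.Exact f₁ f₂)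
    (h₃ : Function.Exact f₂ d) (h₄ : Function.Exact d g₁) (h₅ : Function.Exact g₁ g₂)
    (h₆ : Function.Surjective g₂) :
    (finrank B C₂ : ℤ) - finrank B K₂ = (finrank B C₁ - finrank B K₁) +
      (finrank B C₃ - finrank B K₃) := by
  have e1 := rn f₁
  have e2 := rn f₂
  have e3 := rn d
  have e4 := rn g₁
  have e5 := rn g₂
  rw [LinearMap.ker_eq_bot.2 h₁, finrank_bot, add_zero] at e1
  rw [h₂.linearMap_ker_eq] at e2
  rw [h₃.linearMap_ker_eq] at e3
  rw [h₄.linearMap_ker_eq] at e4
  rw [h₅.linearMap_ker_eq, LinearMap.range_eq_top.2 h₆, finrank_top] at e5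
  omega

end Six

section Spec

variable {B : Type*} [CommRing B]

/-- Multiplication by `X - c`. -/
def mt (N : Type v) [AddCommGroup N] [Module B[X] N] (c : B) : N →ₗ[B[X]] N :=
  LinearMap.lsmul B[X] N (X - C c)

lemma mt_apply {N : Type v} [AddCommGroup N] [Module B[X] N] (c : B) (x : N) :
    mt N c x = (X - C c) • x := rfl

lemma smul_of_killed {N : Type v} [AddCommGroup N] [Module B[X] N] (c : B)
    {x : N} (hx : (X - C c) • x = 0) (f : B[X]) : f • x = C (f.eval c) • x := by
  have h1 : (X - C c) ∣ f - C (f.eval c) := X_sub_C_dvd_sub_C_eval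
  obtain ⟨g, hg⟩ := h1
  rw [← sub_eq_zero, ← sub_smul, hg, mul_comm, mul_smul, hx, smul_zero]

lemma finite_of_killed {N : Type v} [AddCommGroup N] [Module B[X] N] [Module B N]
    [IsScalarTower B B[X] N] [hN : Module.Finite B[X] N] (c : B)
    (h : ∀ x : N, (X - C c) • x = 0) : Module.Finite B N := by
  obtain ⟨s, hs⟩ := hN.1
  refine ⟨s, ?_⟩
  rw [eq_top_iff]
  intro x _
  have hx : x ∈ Submodule.span B[X] (s : Set N) := by rw [hs]; trivial
  induction hx using Submodule.span_induction with
  | mem x hx => exact Submodule.subset_span hx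
  | zero => exact zero_mem _
  | add x y _ _ hx hy => exact add_mem (hx trivial) (hy trivial)
  | smul f x _ hx =>
    rw [smul_of_killed c (h x) f]
    have : (C (f.eval c) : B[X]) • x = (f.eval c) • x := by
      rw [← Polynomial.algebraMap_eq, algebraMap_smul]
    rw [this]
    exact Submodule.smul_mem _ _ (hx trivial)

variable [IsDomain B] [IsNoetherianRing B]

lemma finite_ker (N : Type v) [AddCommGroup N] [Module B[X] N] [Module B N]
    [IsScalarTower B B[X] N] [Module.Finite B[X] N] (c : B) :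
    Module.Finite B (LinearMap.ker (mt N c)) :=
  finite_of_killed c fun x => Subtype.ext x.2

lemma finite_coker (N : Type v) [AddCommGroup N] [Module B[X] N] [Module B N]
    [IsScalarTower B B[X] N] [Module.Finite B[X] N] (c : B) :
    Module.Finite B (N ⧸ LinearMap.range (mt N c)) :=
  finite_of_killed c fun x => by
    induction x using Submodule.Quotient.induction_on with
    | H x =>
      rw [← Submodule.Quotient.mk_smul, Submodule.Quotient.mk_eq_zero]
      exact ⟨x, rfl⟩

/-- The statement about ranks. -/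
def RkP (c : B) (N : Type v) [AddCommGroup N] [Module B[X] N] : Prop :=
  ∀ [Module B N] [IsScalarTower B B[X] N],
    (finrank B (N ⧸ LinearMap.range (mt N c)) : ℤ) - finrank B (LinearMap.ker (mt N c)) =
      finrank B[X] N

lemma rkP_exact (c : B) (N₁ N₂ N₃ : Type v) [AddCommGroup N₁] [Module B[X] N₁]
    [Module.Finite B[X] N₁] [AddCommGroup N₂] [Module B[X] N₂] [Module.Finite B[X] N₂]
    [AddCommGroup N₃] [Module B[X] N₃] [Module.Finite B[X] N₃]
    (f : N₁ →ₗ[B[X]] N₂) (g : N₂ →ₗ[B[X]] N₃) (hf : Function.Injective f)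
    (hg : Function.Surjective g) (hfg : Function.Exact f g) (h₁ : RkP c N₁) (h₃ : RkP c N₃) :
    RkP c N₂ := by
  intro _ _
  let m₁ : Module B N₁ := Module.compHom N₁ (algebraMap B B[X])
  let m₃ : Module B N₃ := Module.compHom N₃ (algebraMap B B[X])
  have t₁ : IsScalarTower B B[X] N₁ := ⟨fun b p x => by
    rw [Algebra.smul_def, mul_smul]; rfl⟩
  have t₃ : IsScalarTower B B[X] N₃ := ⟨fun b p x => by
    rw [Algebra.smul_def, mul_smul]; rfl⟩
  have e₁ := @h₁ m₁ t₁
  have e₃ := @h₃ m₃ t₃
  have c₁ := finite_ker N₁ c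
  have c₂ := finite_ker N₂ c
  have c₃ := finite_ker N₃ c
  have d₁ := finite_coker N₁ c
  have d₂ := finite_coker N₂ c
  have d₃ := finite_coker N₃ c
  have s₁ : f.comp (mt N₁ c) = (mt N₂ c).comp f := LinearMap.ext fun x => map_smul f _ x
  have s₂ : g.comp (mt N₂ c) = (mt N₃ c).comp g := LinearMap.ext fun x => map_smul g _ x
  let k₁ : LinearMap.ker (mt N₁ c) →ₗ[B[X]] LinearMap.ker (mt N₂ c) :=
    f.restrict fun x hx => by
      have h := LinearMap.congr_fun s₁ x
      rw [LinearMap.comp_apply, LinearMap.comp_apply] at h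
      rw [LinearMap.mem_ker] at hx ⊢
      rw [← h, hx, map_zero]
  let k₂ : LinearMap.ker (mt N₂ c) →ₗ[B[X]] LinearMap.ker (mt N₃ c) :=
    g.restrict fun x hx => by
      have h := LinearMap.congr_fun s₂ x
      rw [LinearMap.comp_apply, LinearMap.comp_apply] at h
      rw [LinearMap.mem_ker] at hx ⊢
      rw [← h, hx, map_zero]
  let q₁ : (N₁ ⧸ LinearMap.range (mt N₁ c)) →ₗ[B[X]] (N₂ ⧸ LinearMap.range (mt N₂ c)) :=
    Submodule.mapQ _ _ f (by
      rintro _ ⟨x, rfl⟩
      exact ⟨f x, (LinearMap.congr_fun s₁ x).symm⟩)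
  let q₂ : (N₂ ⧸ LinearMap.range (mt N₂ c)) →ₗ[B[X]] (N₃ ⧸ LinearMap.range (mt N₃ c)) :=
    Submodule.mapQ _ _ g (by
      rintro _ ⟨x, rfl⟩
      exact ⟨g x, (LinearMap.congr_fun s₂ x).symm⟩)
  let d := SnakeLemma.δ' (mt N₁ c) (mt N₂ c) (mt N₃ c) f g hfg f g hfg s₁ s₂
    (LinearMap.ker (mt N₃ c)).subtype (LinearMap.exact_subtype_ker_map _)
    (LinearMap.range (mt N₁ c)).mkQ (LinearMap.exact_map_mkQ_range _) hg hf
  have x₃ : Function.Exact k₂ d :=
    SnakeLemma.exact_δ'_right (mt N₁ c) (mt N₂ c) (mt N₃ c) f g hfg f g hfg s₁ s₂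
      (LinearMap.ker (mt N₂ c)).subtype (LinearMap.exact_subtype_ker_map _)
      (LinearMap.ker (mt N₃ c)).subtype (LinearMap.exact_subtype_ker_map _)
      (LinearMap.range (mt N₁ c)).mkQ (LinearMap.exact_map_mkQ_range _) hg hf k₂ rfl
      Subtype.val_injective
  have x₄ : Function.Exact d q₁ :=
    SnakeLemma.exact_δ'_left (mt N₁ c) (mt N₂ c) (mt N₃ c) f g hfg f g hfg s₁ s₂
      (LinearMap.ker (mt N₃ c)).subtype (LinearMap.exact_subtype_ker_map _)
      (LinearMap.range (mt N₁ c)).mkQ (LinearMap.exact_map_mkQ_range _)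
      (LinearMap.range (mt N₂ c)).mkQ (LinearMap.exact_map_mkQ_range _) hg hf q₁ rfl
      (Submodule.mkQ_surjective _)
  have x₁ : Function.Injective k₁ := fun x y h => Subtype.ext (hf (congrArg Subtype.val h))
  have x₂ : Function.Exact k₁ k₂ := by
    intro x
    constructor
    · intro h
      have h' : g x.1 = 0 := congrArg Subtype.val h
      obtain ⟨y, hy⟩ := (hfg x.1).1 h'
      refine ⟨⟨y, ?_⟩, Subtype.ext hy⟩
      rw [LinearMap.mem_ker]
      apply hf
      rw [map_zero]
      have h := LinearMap.congr_fun s₁ y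
      rw [LinearMap.comp_apply, LinearMap.comp_apply, hy] at h
      rw [h]
      exact x.2
    · rintro ⟨y, rfl⟩
      exact Subtype.ext (hfg.apply_apply_eq_zero y.1)
  have x₅ : Function.Exact q₁ q₂ := by
    intro x
    induction x using Submodule.Quotient.induction_on with
    | H x =>
      constructor
      · intro h
        have h' : g x ∈ LinearMap.range (mt N₃ c) := (Submodule.Quotient.mk_eq_zero _).1 h
        obtain ⟨y, hy⟩ := h'
        obtain ⟨z, rfl⟩ := hg y
        have h2 : g (x - mt N₂ c z) = 0 := by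
          rw [map_sub, sub_eq_zero, ← hy]
          exact (LinearMap.congr_fun s₂ z).symm
        obtain ⟨w, hw⟩ := (hfg _).1 h2
        refine ⟨Submodule.Quotient.mk w, ?_⟩
        change Submodule.Quotient.mk (f w) = _
        rw [hw, Submodule.Quotient.eq]
        refine ⟨-z, ?_⟩
        rw [map_neg]
        abel
      · rintro ⟨y, hy⟩
        rw [← hy]
        induction y using Submodule.Quotient.induction_on with
        | H y =>
          change Submodule.Quotient.mk (g (f y)) = _
          rw [hfg.apply_apply_eq_zero y]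
          rfl
  have x₆ : Function.Surjective q₂ := by
    intro x
    induction x using Submodule.Quotient.induction_on with
    | H x =>
      obtain ⟨y, rfl⟩ := hg x
      exact ⟨Submodule.Quotient.mk y, rfl⟩
  have key := six (k₁.restrictScalars B) (k₂.restrictScalars B) (d.restrictScalars B)
    (q₁.restrictScalars B) (q₂.restrictScalars B) x₁ x₂ x₃ x₄ x₅ x₆
  have e := rn g
  rw [LinearMap.range_eq_top.2 hg, finrank_top, hfg.linearMap_ker_eq,
    LinearMap.finrank_range_of_inj hf] at e
  omega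

lemma exists_eval_ne (c : B) (p : Ideal B[X]) [hp : p.IsPrime] (ht : X - C c ∉ p) :
    ∀ (n : ℕ) (f : B[X]), f ∈ p → f ≠ 0 → f.natDegree ≤ n → ∃ g ∈ p, g.eval c ≠ 0 := by
  intro n
  induction n with
  | zero =>
    intro f hf h0 hn
    by_cases hc : f.eval c = 0
    · exfalso
      obtain ⟨g, rfl⟩ := dvd_iff_isRoot.2 hc
      have hg : g ≠ 0 := right_ne_zero_of_mul h0
      rw [natDegree_mul (X_sub_C_ne_zero c) hg, natDegree_X_sub_C] at hn
      omega
    · exact ⟨f, hf, hc⟩
  | succ n ih =>
    intro f hf h0 hn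
    by_cases hc : f.eval c = 0
    · obtain ⟨g, rfl⟩ := dvd_iff_isRoot.2 hc
      have hg : g ≠ 0 := right_ne_zero_of_mul h0
      rw [natDegree_mul (X_sub_C_ne_zero c) hg, natDegree_X_sub_C] at hn
      exact ih g ((hp.mem_or_mem hf).resolve_left ht) hg (by omega)
    · exact ⟨f, hf, hc⟩

lemma range_mt (c : B) : LinearMap.range (mt B[X] c) = Ideal.span {X - C c} := by
  ext x
  rw [Ideal.mem_span_singleton']
  constructor
  · rintro ⟨y, rfl⟩
    exact ⟨y, mul_comm _ _⟩
  · rintro ⟨y, rfl⟩
    exact ⟨y, mul_comm _ _⟩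

lemma rkP_quot (c : B) (N : Type v) [AddCommGroup N] [Module B[X] N] [Module.Finite B[X] N]
    (p : PrimeSpectrum B[X]) (e : N ≃ₗ[B[X]] B[X] ⧸ p.1) : RkP c N := by
  intro _ _
  have hp := p.2
  have hkill : ∀ f ∈ p.1, ∀ x : N, f • x = 0 := by
    intro f hf x
    apply e.injective
    rw [map_smul, map_zero]
    obtain ⟨y, hy⟩ := Ideal.Quotient.mk_surjective (e x)
    rw [← hy]
    change (Ideal.Quotient.mk p.1) (f * y) = 0
    rw [Ideal.Quotient.eq_zero_iff_mem]
    exact Ideal.mul_mem_right _ _ hf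
  have ht0 : (X - C c : B[X]) ≠ 0 := X_sub_C_ne_zero c
  by_cases ht : X - C c ∈ p.1
  · have h1 : mt N c = 0 := LinearMap.ext fun x => hkill _ ht x
    have h2 : finrank B[X] N = 0 := by
      rw [Module.finrank_eq_zero_iff_isTorsion]
      intro x
      exact ⟨⟨_, mem_nonZeroDivisors_of_ne_zero ht0⟩, hkill _ ht x⟩
    rw [h2, h1, LinearMap.range_zero, LinearMap.ker_zero]
    have h3 : finrank B (N ⧸ (⊥ : Submodule B[X] N)) = finrank B N :=
      ((Submodule.quotEquivOfEqBot (⊥ : Submodule B[X] N) rfl).restrictScalars B).finrank_eq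
    have h4 : finrank B (⊤ : Submodule B[X] N) = finrank B N :=
      ((Submodule.topEquiv (R := B[X]) (M := N)).restrictScalars B).finrank_eq
    rw [h3, h4]
    simp
  · have hinj : Function.Injective (mt N c) := by
      rw [injective_iff_map_eq_zero]
      intro x hx
      apply e.injective
      rw [map_zero]
      have h1 := congrArg e hx
      rw [mt_apply, map_smul, map_zero] at h1
      obtain ⟨y, hy⟩ := Ideal.Quotient.mk_surjective (e x)
      rw [← hy] at h1 ⊢
      have h2 : (Ideal.Quotient.mk p.1) ((X - C c) * y) = 0 := h1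
      rw [Ideal.Quotient.eq_zero_iff_mem] at h2 ⊢
      exact (hp.mem_or_mem h2).resolve_left ht
    have hk : finrank B (LinearMap.ker (mt N c)) = 0 := by
      rw [LinearMap.ker_eq_bot.2 hinj]
      exact finrank_zero_of_subsingleton
    rw [hk, Nat.cast_zero, sub_zero]
    congr 1
    by_cases hp0 : p.1 = ⊥
    · let e' : N ≃ₗ[B[X]] B[X] := e.trans (Submodule.quotEquivOfEqBot p.1 hp0)
      have h1 : finrank B[X] N = 1 := by rw [e'.finrank_eq, finrank_self]
      have h2 : Submodule.map (e' : N →ₗ[B[X]] B[X]) (LinearMap.range (mt N c)) =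
          Ideal.span {X - C c} := by
        rw [← range_mt]
        ext x
        constructor
        · rintro ⟨_, ⟨y, rfl⟩, rfl⟩
          exact ⟨e' y, (map_smul e' _ y).symm⟩
        · rintro ⟨y, rfl⟩
          refine ⟨_, ⟨e'.symm y, rfl⟩, ?_⟩
          change e' ((X - C c) • e'.symm y) = (X - C c) • y
          rw [map_smul, e'.apply_symm_apply]
      have e2 : (N ⧸ LinearMap.range (mt N c)) ≃ₗ[B[X]] (B[X] ⧸ Ideal.span {X - C c}) :=
        Submodule.Quotient.equiv _ _ e' h2
      rw [h1, (e2.restrictScalars B).finrank_eq,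
        (quotientSpanXSubCAlgEquiv c).toLinearEquiv.finrank_eq, finrank_self]
    · obtain ⟨f, hf, hf0⟩ := Submodule.exists_mem_ne_zero_of_ne_bot hp0
      obtain ⟨g, hg, hgc⟩ := exists_eval_ne c p.1 ht _ f hf hf0 le_rfl
      have h2 : finrank B[X] N = 0 := by
        rw [Module.finrank_eq_zero_iff_isTorsion]
        intro x
        exact ⟨⟨_, mem_nonZeroDivisors_of_ne_zero hf0⟩, hkill _ hf x⟩
      have := finite_coker N c
      rw [h2, Module.finrank_eq_zero_iff_isTorsion]
      intro x
      refine ⟨⟨_, mem_nonZeroDivisors_of_ne_zero hgc⟩, ?_⟩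
      induction x using Submodule.Quotient.induction_on with
      | H x =>
        have h3 : (g.eval c) • (Submodule.Quotient.mk x : N ⧸ LinearMap.range (mt N c)) =
            (C (g.eval c) : B[X]) • Submodule.Quotient.mk x := by
          rw [← Polynomial.algebraMap_eq, algebraMap_smul]
        change (g.eval c) • (Submodule.Quotient.mk x : N ⧸ LinearMap.range (mt N c)) = 0
        rw [h3, ← smul_of_killed c _ g]
        · rw [← Submodule.Quotient.mk_smul, hkill g hg, Submodule.Quotient.mk_zero]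
        · rw [← Submodule.Quotient.mk_smul, Submodule.Quotient.mk_eq_zero]
          exact ⟨x, rfl⟩

/-- Ranks of specializations. -/
theorem rank_spec (c : B) (N : Type v) [AddCommGroup N] [Module B[X] N] [hN : Module.Finite B[X] N]
    [Module B N] [IsScalarTower B B[X] N] :
    (finrank B (N ⧸ LinearMap.range (mt N c)) : ℤ) - finrank B (LinearMap.ker (mt N c)) =
      finrank B[X] N := by
  have h : RkP c N := by
    refine IsNoetherianRing.induction_on_isQuotientEquivQuotientPrime B[X] hN
      (motive := fun N _ _ _ => RkP c N) ?_ ?_ ?_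
    · intro N _ _ _ _ _ _
      have h1 : Subsingleton (N ⧸ LinearMap.range (mt N c)) := inferInstance
      rw [finrank_zero_of_subsingleton, finrank_zero_of_subsingleton,
        finrank_zero_of_subsingleton]
      simp
    · intro N _ _ _ p e
      exact rkP_quot c N p e
    · intro N₁ _ _ _ N₂ _ _ _ N₃ _ _ _ f g hf hg hfg h₁ h₃
      exact rkP_exact c N₁ N₂ N₃ f g hf hg hfg h₁ h₃
  exact h

end Spec

section Euler

/-- The alternating sum of an almost everywhere vanishing family. -/
def chiZ (r : ℤ → ℤ) : ℤ := ∑ᶠ i : ℤ, (Int.negOnePow i : ℤ) * r i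

lemma chiZ_add {r s : ℤ → ℤ} (hr : r.support.Finite) (hs : s.support.Finite) :
    chiZ (fun i => r i + s i) = chiZ r + chiZ s := by
  rw [chiZ, chiZ, chiZ, ← finsum_add_distrib]
  · exact finsum_congr fun i => mul_add _ _ _
  · exact hr.subset fun i hi h => hi (by simp [h])
  · exact hs.subset fun i hi h => hi (by simp [h])

lemma chiZ_shift (r : ℤ → ℤ) : chiZ (fun i => r (i + 1)) = -chiZ r := by
  have h := finsum_comp_equiv (Equiv.addRight (1 : ℤ)) (f := fun i => (Int.negOnePow i : ℤ) * r i)
  rw [chiZ, chiZ, ← h, ← finsum_neg_distrib]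
  refine finsum_congr fun i => ?_
  rw [Equiv.coe_addRight, Int.negOnePow_succ]
  simp

lemma chiZ_zero : chiZ (fun _ => 0) = 0 := by
  simp [chiZ]

lemma chiZ_mul (n : ℤ) (r : ℤ → ℤ) : chiZ (fun i => n * r i) = n * chiZ r := by
  have h := smul_finsum n (fun i => (Int.negOnePow i : ℤ) * r i)
  rw [chiZ, chiZ, ← smul_eq_mul, h]
  refine finsum_congr fun i => ?_
  rw [smul_eq_mul]
  ring

end Euler

end

end Run7.h164
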