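import Pool.Agent.Run7.h164.HB
import Pool.Agent.Run7.h164.CL
import Pool.Agent.Run7.h164.RK

set_option autoImplicit false
set_option linter.unusedVariables false

/-!
Euler characteristics of specializations.
-/

open CategoryTheory Limits TopologicalSpace AlgebraicGeometry Opposite Pretriangulated ZeroObject
open Module

namespace Run7.h164

noncomputable section

set_option backward.isDefEq.respectTransparency false

open Pool.Agent.W506 Pool.Agent.N212
open Pool.Agent.R924 (DD Frame sg)

attribute [local instance] HasDerivedCategory.standard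

lemma supp_fin {r : ℤ → ℤ} {n : ℕ} (h : ∀ i : ℤ, (n : ℤ) ≤ |i| → r i = 0) :
    r.support.Finite := by
  refine (Set.finite_Icc (-(n : ℤ)) n).subset fun i hi => ?_
  by_contra hc
  apply hi
  apply h
  rw [Set.mem_Icc, not_and_or] at hc
  rcases hc with hc | hc
  · rw [le_abs]; right; omega
  · rw [le_abs]; left; omega

variable (V : Verra) {sd : Bool} {m : ℤ}

/-- The Euler characteristic of the modules of morphisms. -/
def chiH {A₀ : Type} [CommRing A₀] [Algebra ℂ A₀] {a : Fin 3 → A₀}
    (E : DerivedCategory (VX V).Modules) (M : CM V.G sd a) (m : ℤ) : ℤ :=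
  chiZ fun i => finrank A₀ (HM V E M m i)

section Spec

variable {B : Type} [CommRing B] [Algebra ℂ B] [IsDomain B] [IsNoetherianRing B]
  {a : Fin 3 → Polynomial B} {a₁ : Fin 3 → B} {M : CM V.G sd a} {M₁ : CM V.G sd a₁}
  (c : B) (h : CMH M M₁) (hC : ∀ (b : B) v, h.f (Polynomial.C b • v) = b • h.f v)
  (hinj : ∀ v : M.C, (Polynomial.X - Polynomial.C c) • v = 0 → v = 0)
  (hsurj : Function.Surjective h.f)
  (hker : ∀ v : M.C, h.f v = 0 ↔ ∃ w : M.C, (Polynomial.X - Polynomial.C c) • w = v)

include hC hinj hsurj hker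

/-- Specialization. -/
theorem spec_chi {E : DerivedCategory (VX V).Modules} (hE : FinH V M m E) :
    FinH V M₁ m E ∧ chiH V E M₁ m = chiH V E M m := by
  obtain ⟨w, hS⟩ := ses_tm (scH M (Polynomial.X - Polynomial.C c)) h m
    (by
      rw [injective_iff_map_eq_zero]
      exact hinj) hsurj hker
  let T := hS.singleTriangle
  have hT := hS.singleTriangle_distinguished
  let mB : ∀ i, Module B (HM V E M m i) := fun i =>
    Module.compHom _ (algebraMap B (Polynomial B))
  have tB : ∀ i, IsScalarTower B (Polynomial B) (HM V E M m i) := fun i => ⟨fun b p x => by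
    rw [Algebra.smul_def, mul_smul]; rfl⟩
  have fB : ∀ i, Module.Finite (Polynomial B) (HM V E M m i) := hE.fin
  -- the maps
  let r : ∀ i, HM V E M m i →ₗ[B] HM V E M₁ m i := fun i =>
    { toFun := hmap V h E m i
      map_add' := map_add _
      map_smul' := fun b x => hmap_smul V h (hC b) x }
  let d : ∀ i, HM V E M₁ m i →ₗ[B] HM V E M m (i + 1) := fun i =>
    { toFun := fun x => (x : E ⟶ T.obj₃⟦i⟧) ≫ conn T i
      map_add' := fun x y => Preadditive.add_comp _ _ _ _ _ _
      map_smul' := fun b x => by
        let φ : ShortComplex.mk (tm (scH M (Polynomial.X - Polynomial.C c)) m) (tm h m) w ⟶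
            ShortComplex.mk (tm (scH M (Polynomial.X - Polynomial.C c)) m) (tm h m) w :=
          { τ₁ := tm (scH M (Polynomial.C b)) m
            τ₂ := tm (scH M (Polynomial.C b)) m
            τ₃ := tm (scH M₁ b) m
            comm₁₂ := by
              change tm _ m ≫ tm _ m = tm _ m ≫ tm _ m
              rw [← tm_comp, ← tm_comp]
              exact tm_ext (fun v => smul_comm _ _ _) m
            comm₂₃ := by
              change tm _ m ≫ tm _ m = tm _ m ≫ tm _ m
              rw [← tm_comp, ← tm_comp]
              exact tm_ext (fun v => hC b v) m }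
        have h1 := conn_nat (ShortComplex.ShortExact.singleTriangle.map hS hS φ) i
        change ((x : E ⟶ T.obj₃⟦i⟧) ≫ _) ≫ conn T i = ((x : E ⟶ T.obj₃⟦i⟧) ≫ conn T i) ≫ _
        rw [Category.assoc, Category.assoc]
        congr 1 }
  have k1 : ∀ i, LinearMap.ker (r i) = (LinearMap.range (mt (HM V E M m i) c)).restrictScalars B := by
    intro i
    ext x
    constructor
    · intro hx
      obtain ⟨y, hy⟩ := les₂ T hT E i x hx
      exact ⟨y, hy⟩
    · rintro ⟨y, rfl⟩
      have := les_c₂ T hT i
      change ((y : E ⟶ T.obj₁⟦i⟧) ≫ T.mor₁⟦i⟧') ≫ T.mor₂⟦i⟧' = 0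
      rw [Category.assoc, this, comp_zero]
  have k2 : ∀ i, LinearMap.ker (d i) = LinearMap.range (r i) := by
    intro i
    ext x
    constructor
    · intro hx
      obtain ⟨y, hy⟩ := les₃ T hT E i x hx
      exact ⟨y, hy⟩
    · rintro ⟨y, rfl⟩
      have := les_c₃ T hT i
      change ((y : E ⟶ T.obj₂⟦i⟧) ≫ T.mor₂⟦i⟧') ≫ conn T i = 0
      rw [Category.assoc, this, comp_zero]
  have k3 : ∀ i, LinearMap.range (d i) =
      (LinearMap.ker (mt (HM V E M m (i + 1)) c)).restrictScalars B := by
    intro i
    ext x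
    constructor
    · rintro ⟨y, rfl⟩
      have := les_c₁ T hT i
      change ((y : E ⟶ T.obj₃⟦i⟧) ≫ conn T i) ≫ T.mor₁⟦i + 1⟧' = 0
      rw [Category.assoc, this, comp_zero]
    · intro hx
      obtain ⟨y, hy⟩ := les₁ T hT E i x hx
      exact ⟨y, hy⟩
  have c1 : ∀ i, Module.Finite B (HM V E M m i ⧸ LinearMap.range (mt (HM V E M m i) c)) :=
    fun i => finite_coker _ c
  have c2 : ∀ i, Module.Finite B (LinearMap.ker (mt (HM V E M m i) c)) :=
    fun i => finite_ker _ c
  -- the equivalences
  have e1 : ∀ i, Nonempty (LinearMap.range (r i) ≃ₗ[B]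
      (HM V E M m i ⧸ LinearMap.range (mt (HM V E M m i) c))) := fun i =>
    ⟨(r i).quotKerEquivRange.symm.trans ((Submodule.quotEquivOfEq _ _ (k1 i)).trans
      (Submodule.Quotient.restrictScalarsEquiv B _))⟩
  have e2 : ∀ i, Nonempty (LinearMap.range (d i) ≃ₗ[B]
      LinearMap.ker (mt (HM V E M m (i + 1)) c)) := fun i =>
    ⟨(LinearEquiv.ofEq _ _ (k3 i)).trans
      ((Submodule.restrictScalarsEquiv B (Polynomial B) _ _).restrictScalars B)⟩
  have f1 : ∀ i, Module.Finite B (LinearMap.range (r i)) := fun i =>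
    Module.Finite.equiv (e1 i).some.symm
  have f2 : ∀ i, Module.Finite B (LinearMap.range (d i)) := fun i =>
    Module.Finite.equiv (e2 i).some.symm
  have f3 : ∀ i, Module.Finite B (HM V E M₁ m i) := by
    intro i
    have g1 : Module.Finite B (LinearMap.ker (d i)) := by
      rw [k2]
      exact f1 i
    have g2 : Module.Finite B (HM V E M₁ m i ⧸ LinearMap.ker (d i)) :=
      Module.Finite.equiv (d i).quotKerEquivRange.symm
    exact Module.Finite.of_submodule_quotient (LinearMap.ker (d i))
  have hrank : ∀ i, (finrank B (HM V E M₁ m i) : ℤ) =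
      finrank B (HM V E M m i ⧸ LinearMap.range (mt (HM V E M m i) c)) +
      finrank B (LinearMap.ker (mt (HM V E M m (i + 1)) c)) := by
    intro i
    have := f3 i
    have h1 := rn (d i)
    rw [k2 i, (e1 i).some.finrank_eq, (e2 i).some.finrank_eq] at h1
    omega
  obtain ⟨n, hn⟩ := hE.bdd
  have z : ∀ i : ℤ, (n : ℤ) ≤ |i| → Subsingleton (HM V E M m i) := fun i hi =>
    ⟨fun x y => (hn i hi x).trans (hn i hi y).symm⟩
  refine ⟨⟨f3, n + 1, fun i hi x => ?_⟩, ?_⟩
  · have z1 := z i (by push_cast at hi; omega)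
    have z2 := z (i + 1) (by
      push_cast at hi
      have h1 : |i| ≤ |i + 1| + 1 := by
        have := abs_sub_abs_le_abs_sub i (i + 1)
        have h2 : |i - (i + 1)| = 1 := by
          rw [show i - (i + 1) = -1 by ring]
          rfl
        omega
      omega)
    obtain ⟨y, hy⟩ : x ∈ LinearMap.range (r i) := by
      rw [← k2 i, LinearMap.mem_ker]
      exact Subsingleton.elim _ _
    rw [← hy, Subsingleton.elim y 0, map_zero]
  · have hq : ∀ i : ℤ, (n : ℤ) ≤ |i| →
        (finrank B (HM V E M m i ⧸ LinearMap.range (mt (HM V E M m i) c)) : ℤ) = 0 := by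
      intro i hi
      have := z i hi
      have := (Submodule.mkQ_surjective (LinearMap.range (mt (HM V E M m i) c))).subsingleton
      rw [finrank_zero_of_subsingleton]
      rfl
    have hk : ∀ i : ℤ, (n : ℤ) ≤ |i| →
        (finrank B (LinearMap.ker (mt (HM V E M m i) c)) : ℤ) = 0 := by
      intro i hi
      have := z i hi
      rw [finrank_zero_of_subsingleton]
      rfl
    rw [chiH, chiH]
    have s1 : chiZ (fun i => (finrank B (HM V E M₁ m i) : ℤ)) =
        chiZ (fun i => (finrank B (HM V E M m i ⧸ LinearMap.range (mt (HM V E M m i) c)) : ℤ)) +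
        chiZ (fun i => (finrank B (LinearMap.ker (mt (HM V E M m (i + 1)) c)) : ℤ)) := by
      rw [← chiZ_add (supp_fin hq)]
      · congr 1
        funext i
        exact hrank i
      · have := (supp_fin hk).preimage (f := fun i : ℤ => i + 1)
          (fun x _ y _ hxy => add_right_cancel hxy)
        exact this
    rw [s1, chiZ_shift (fun i => (finrank B (LinearMap.ker (mt (HM V E M m i) c)) : ℤ))]
    have s2 : chiZ (fun i => (finrank B (HM V E M m i ⧸
          LinearMap.range (mt (HM V E M m i) c)) : ℤ)) =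
        chiZ (fun i => (finrank (Polynomial B) (HM V E M m i) : ℤ)) +
        chiZ (fun i => (finrank B (LinearMap.ker (mt (HM V E M m i) c)) : ℤ)) := by
      rw [← chiZ_add _ (supp_fin hk)]
      · congr 1
        funext i
        have := rank_spec c (HM V E M m i)
        omega
      · refine supp_fin (n := n) fun i hi => ?_
        have := z i hi
        rw [finrank_zero_of_subsingleton]
        rfl
    rw [s2]
    ring

end Spec

end

end Run7.h164
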