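import Pool.Agent.Run7.h164.EA
import Pool.Agent.Run7.h164.SP
import Pool.Agent.Run7.h164.DB
import Pool.Agent.R924.E9

set_option autoImplicit false
set_option linter.unusedVariables false
set_option linter.unusedSectionVars false

/-!
The linear structure on the derived category of a Verra fourfold.
-/

open CategoryTheory Limits TopologicalSpace AlgebraicGeometry Opposite Pretriangulated
open Module

namespace Run7.h164

noncomputable section

set_option backward.isDefEq.respectTransparency false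

open Pool.Agent.W506 Pool.Agent.N212
open Pool.Agent.R924 (DD Frame sg DCoh fr fr_eq_iff skK)
open Pool.Agent.W456 (gammaCenter smulEnd smulEnd_app resTop)

/-- The structure morphism. -/
def piV (V : Verra) : VX V ⟶ Spec (CommRingCat.of ℂ) :=
  Proj.toSpecZero (rg V.G) ≫ Spec.map (CommRingCat.ofHom (algebraMap ℂ (rg V.G 0)))

/-- The constants. -/
abbrev kS (V : Verra) : ℂ →+* Γ(VX V, ⊤) := skK (piV V)

variable (V : Verra)

lemma algebraMap_mem_zero (c : ℂ) : algebraMap ℂ (RF V.G) c ∈ rg V.G (0 * 1) :=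
  (algebraMap ℂ (rg V.G 0) c).2

lemma kS_res (j : Fin 3 × Fin 3) (c : ℂ) : ro (le_top : (VF V).U j ≤ ⊤) (kS V c) =
    fr (gg_mem V j) 0 (algebraMap ℂ (RF V.G) c) (algebraMap_mem_zero V c) := by
  have h1 := Pool.Agent.R924.toSpecZero_appTop (rg V.G) (gg_mem V j) one_pos
  have h2 : (Scheme.ΓSpecIso (CommRingCat.of ℂ)).inv ≫ (piV V).appTop ≫
      (VX V).presheaf.map (homOfLE (le_top : (VF V).U j ≤ ⊤)).op =
      CommRingCat.ofHom (algebraMap ℂ (rg V.G 0)) ≫
        CommRingCat.ofHom (HomogeneousLocalization.fromZeroRingHom (rg V.G) _) ≫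
          Proj.awayToSection (rg V.G) _ := by
    rw [← h1, piV, Scheme.Hom.comp_appTop, Category.assoc, ← Scheme.ΓSpecIso_inv_naturality_assoc]
  have h3 := congr($h2 c)
  refine Eq.trans h3 ?_
  change Proj.awayToSection (rg V.G) _ (HomogeneousLocalization.fromZeroRingHom (rg V.G) _
    (algebraMap ℂ (rg V.G 0) c)) = Proj.awayToSection (rg V.G) _ _
  congr 1

lemma fv_kS (c : ℂ) (x : ProjectiveSpectrum.top (rg V.G)) (hx : x ∈ (⊤ : (VX V).Opens)) :
    (fv (kS V c) x hx).val = Localization.mk (algebraMap ℂ (RF V.G) c) 1 := by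
  obtain ⟨j, hj⟩ := gg_cov V x
  have h1 := congrArg (fun s => (fv s x hj).val) (kS_res V j c)
  refine Eq.trans h1 ?_
  refine (fv_fr (gg_mem V j) 0 _ _ x hj).trans ?_
  congr 1

instance linV : Linear ℂ (VX V).Modules := Linear.ofRingMorphism ((gammaCenter (VX V)).comp (kS V))

lemma linV_smul {M N : (VX V).Modules} (c : ℂ) (φ : M ⟶ N) : c • φ = smulEnd (kS V c) M ≫ φ := rfl

variable {V} {sd : Bool} {m : ℤ} {a : Fin 3 → ℂ}

lemma algebraMap_smulL (M : CM V.G sd a) (c : ℂ) (l : LM M) :
    (algebraMap ℂ (RF V.G) c) • l = c • l := by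
  have h1 : algebraMap ℂ (RF V.G) c = algebraMap Bi (RF V.G) (AddMonoidAlgebra.single 0 c) := rfl
  rw [h1, smulR_algebraMap]
  refine co_ext fun e => ?_
  rw [co_mono, pm_zero, co_smul]
  have h2 : ∏ i, a i ^ (0 : (Fin 3 → ℕ) × (Fin 3 → ℕ)).1 i = 1 := by simp
  have h3 : (-(fun i => (((0 : (Fin 3 → ℕ) × (Fin 3 → ℕ)).2 i : ℕ) : ℤ)) + e) = e := by
    funext i
    simp
  rw [h2, h3, mul_one]
  rfl

/-- Scalars act through the linear structure. -/
lemma tm_scH (M : CM V.G sd a) (c : ℂ) : tm (scH M c) m = c • 𝟙 (til (NV M) m) := by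
  rw [linV_smul, Category.comp_id]
  apply ap_ext
  intro U s
  apply vl_ext
  intro x hx
  rw [vl_tm]
  have h1 : vl (ap (smulEnd (kS V c) (til (NV M) m)) U s) x hx =
      (fv (kS V c) x trivial).val • vl s x hx := rfl
  rw [h1, fv_kS]
  induction (vl s x hx) using LocalizedModule.induction_on with
  | h l b =>
    rw [lmap_mk, mk_smul_mk']
    have h2 : (algebraMap ℂ (RF V.G) c) • l = (c • (show LM M from l) : LM M) :=
      algebraMap_smulL M c l
    rw [h2, one_mul]
    congr 1

attribute [local instance] HasDerivedCategory.standard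

/-- The sheaf of a Clifford module as an object of the derived category. -/
abbrev tS (M : CM V.G sd a) (m : ℤ) : DerivedCategory (VX V).Modules := sg (til (NV M) m)

/-- Comparison of linear structures. -/
def hmE (E : DerivedCategory (VX V).Modules) (M : CM V.G sd a) (m i : ℤ) :
    HM V E M m i ≃ₗ[ℂ] (E ⟶ (tS M m)⟦i⟧) where
  toFun x := x
  invFun x := x
  left_inv x := rfl
  right_inv x := rfl
  map_add' x y := rfl
  map_smul' c x := by
    rw [RingHom.id_apply, smulH_def, hmap_def, tm_scH, Functor.map_smul, Functor.map_smul,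
      CategoryTheory.Functor.map_id, CategoryTheory.Functor.map_id, Linear.comp_smul,
      Category.comp_id]

lemma fe_of_finH {E : DerivedCategory (VX V).Modules} {M : CM V.G sd a} (h : FinH V M m E) :
    FE E (tS M m) where
  fin i := by
    have := h.fin i
    exact Module.Finite.equiv (hmE E M m i)
  bdd := by
    obtain ⟨n, hn⟩ := h.bdd
    exact ⟨n, fun i hi => ⟨fun x y => (hn i hi x).trans (hn i hi y).symm⟩⟩

lemma eu_eq_chiH (E : DerivedCategory (VX V).Modules) (M : CM V.G sd a) :
    eu E (tS M m) = chiH V E M m := by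
  rw [eu, chiH]
  congr 1
  funext i
  rw [(hmE E M m i).finrank_eq]

end

end Run7.h164
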