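import Pool.Agent.Run7.h164.CD
import Pool.Agent.Run7.h164.LN

set_option autoImplicit false
set_option linter.unusedVariables false
set_option linter.unusedSectionVars false

/-!
Sections of line bundles as Laurent polynomials.
-/

open CategoryTheory Limits TopologicalSpace AlgebraicGeometry Opposite TopCat

namespace Run7.h164

noncomputable section

set_option backward.isDefEq.respectTransparency false

open Pool.Agent.W506 Pool.Agent.N212
open Pool.Agent.R924 (DD Frame)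

variable (V : Verra)

/-- The product of the generators along a tuple. -/
def fg {m : ℕ} (σ : Fin (m + 1) → Fin 3 × Fin 3) : RF V.G := ∏ l, gg V (σ l)

lemma fg_mem {m : ℕ} (σ : Fin (m + 1) → Fin 3 × Fin 3) : fg V σ ∈ rg V.G (m + 1) := by
  induction m with
  | zero =>
    rw [fg, Fin.prod_univ_one]
    exact gg_mem V _
  | succ m ih =>
    rw [fg, Fin.prod_univ_succ]
    have h := SetLike.mul_mem_graded (gg_mem V (σ 0)) (ih fun l => σ l.succ)
    rw [show 1 + (m + 1) = m + 1 + 1 by ring] at h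
    exact h

lemma UJ_eq {m : ℕ} (σ : Fin (m + 1) → Fin 3 × Fin 3) :
    UJ (VF V).U σ = DD (rg V.G) (fg V σ) := by
  induction m with
  | zero =>
    rw [fg, Fin.prod_univ_one]
    apply le_antisymm
    · exact iInf_le (fun l => (VF V).U (σ l)) 0
    · refine le_iInf fun l => ?_
      rw [Subsingleton.elim (α := Fin 1) l 0]
      exact le_of_eq (VF_U V _).symm
  | succ m ih =>
    rw [fg, Fin.prod_univ_succ, ← DD_inf]
    have h1 := ih (fun l => σ l.succ)
    rw [fg] at h1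
    rw [← h1]
    apply le_antisymm
    · refine le_inf ?_ (UJ_le (VF V).U σ Fin.succ)
      exact iInf_le (fun l => (VF V).U (σ l)) 0
    · refine le_iInf fun l => ?_
      refine Fin.cases ?_ (fun l => ?_) l
      · exact inf_le_left
      · exact inf_le_right.trans (iInf_le (fun l : Fin (m + 1) => (VF V).U (σ l.succ)) l)

/-- The exponents of this product. -/
def tg {m : ℕ} (σ : Fin (m + 1) → Fin 3 × Fin 3) : E2 := ∑ l, (ue (σ l).1, ue (σ l).2)

lemma tg_fst {m : ℕ} (σ : Fin (m + 1) → Fin 3 × Fin 3) (i : Fin 3) :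
    (tg σ).1 i = ∑ l, ue (σ l).1 i := by
  rw [tg, Prod.fst_sum, Finset.sum_apply]

lemma tg_snd {m : ℕ} (σ : Fin (m + 1) → Fin 3 × Fin 3) (i : Fin 3) :
    (tg σ).2 i = ∑ l, ue (σ l).2 i := by
  rw [tg, Prod.snd_sum, Finset.sum_apply]

lemma sm_ue (k : Fin 3) : sm (ue k) = 1 := sum_ue k

lemma sm_sum {ι : Type} (s : Finset ι) (f : ι → Ex) : sm (∑ l ∈ s, f l) = ∑ l ∈ s, sm (f l) := by
  induction s using Finset.cons_induction with
  | empty => simp [sm]
  | cons a s ha ih => rw [Finset.sum_cons, Finset.sum_cons, sm_add, ih]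

lemma sm_tg {m : ℕ} (σ : Fin (m + 1) → Fin 3 × Fin 3) : sm (tg σ).1 = m + 1 ∧
    sm (tg σ).2 = m + 1 := by
  constructor
  · rw [tg, Prod.fst_sum, sm_sum]
    simp [sm_ue]
  · rw [tg, Prod.snd_sum, sm_sum]
    simp [sm_ue]

lemma sm_nsmul (r : ℕ) (e : Ex) : sm (r • e) = r * sm e := by
  induction r with
  | zero => simp [sm]
  | succ r ih => rw [succ_nsmul, sm_add, ih]; push_cast; ring

lemma eG_um (i k : Fin 3) : eG (um i k) = (ue i, ue k) := by
  have h : ∀ i j : Fin 3, ((Pi.single i 1 : Fin 3 → ℕ) j : ℤ) = ue i j := by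
    intro i j
    by_cases h : j = i
    · subst h
      simp [ue]
    · rw [Pi.single_eq_of_ne h, ue_ne h]
      rfl
  exact Prod.ext (funext fun j => h i j) (funext fun j => h k j)

lemma iR_gg (j : Fin 3 × Fin 3) : iR V.G (gg V j) = mo V.G (ue j.1, ue j.2) := by
  refine QuadraticAlgebra.ext ?_ ?_
  · change iB (uu j.1 j.2) = _
    rw [uu, iB_single, eG_um]
    rfl
  · change iB 0 = _
    rw [map_zero]
    rfl

lemma mo_sum {ι : Type} (s : Finset ι) (f : ι → E2) : mo V.G (∑ l ∈ s, f l) =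
    ∏ l ∈ s, mo V.G (f l) := by
  induction s using Finset.cons_induction with
  | empty => rfl
  | cons a s ha ih => rw [Finset.sum_cons, Finset.prod_cons, mo_add, ih]

lemma mo_nsmul (r : ℕ) (e : E2) : mo V.G (r • e) = mo V.G e ^ r := by
  induction r with
  | zero => rw [zero_smul, pow_zero]; rfl
  | succ r ih => rw [succ_nsmul, mo_add, ih, pow_succ]

lemma iR_fg {m : ℕ} (σ : Fin (m + 1) → Fin 3 × Fin 3) : iR V.G (fg V σ) = mo V.G (tg σ) := by
  rw [fg, map_prod, tg, mo_sum]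
  exact Finset.prod_congr rfl fun l _ => iR_gg V _

variable {n : ℕ}

lemma gg_smul2 (j : Fin 3 × Fin 3) (v : LM2 V.G n) : gg V j • v = mo V.G (ue j.1, ue j.2) • v := by
  rw [rsmul_def, iR_gg]

lemma fg_smul {m : ℕ} (σ : Fin (m + 1) → Fin 3 × Fin 3) (r : ℕ) (v : LM2 V.G n) :
    fg V σ ^ r • v = mo V.G (r • tg σ) • v := by
  rw [rsmul_def, map_pow, iR_fg, mo_nsmul]

lemma mo_mo_smul (e e' : E2) (v : LM2 V.G n) : mo V.G e • mo V.G e' • v = mo V.G (e + e') • v := by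
  rw [smul_smul, ← mo_add]

lemma mo_neg_smul (e : E2) (v : LM2 V.G n) : mo V.G e • mo V.G (-e) • v = v := by
  rw [mo_mo_smul, add_neg_cancel, mo_zero, one_smul]

lemma mo_smul_neg (e : E2) (v : LM2 V.G n) : mo V.G (-e) • mo V.G e • v = v := by
  rw [mo_mo_smul, neg_add_cancel, mo_zero, one_smul]

/-- The sets of indices of a tuple. -/
def Is {m : ℕ} (σ : Fin (m + 1) → Fin 3 × Fin 3) : Finset (Fin 3) :=
  Finset.univ.image fun l => (σ l).1

/-- The sets of indices of a tuple. -/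
def Ks {m : ℕ} (σ : Fin (m + 1) → Fin 3 × Fin 3) : Finset (Fin 3) :=
  Finset.univ.image fun l => (σ l).2

lemma mem_Is {m : ℕ} {σ : Fin (m + 1) → Fin 3 × Fin 3} {i : Fin 3} : i ∈ Is σ ↔
    ∃ l, (σ l).1 = i := by
  simp [Is]

lemma mem_Ks {m : ℕ} {σ : Fin (m + 1) → Fin 3 × Fin 3} {i : Fin 3} : i ∈ Ks σ ↔
    ∃ l, (σ l).2 = i := by
  simp [Ks]

lemma tg_fst_eq {m : ℕ} {σ : Fin (m + 1) → Fin 3 × Fin 3} {i : Fin 3} (hi : i ∉ Is σ) :
    (tg σ).1 i = 0 := by
  rw [tg_fst]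
  exact Finset.sum_eq_zero fun l _ => ue_ne fun h => hi (mem_Is.2 ⟨l, h.symm⟩)

lemma tg_snd_eq {m : ℕ} {σ : Fin (m + 1) → Fin 3 × Fin 3} {i : Fin 3} (hi : i ∉ Ks σ) :
    (tg σ).2 i = 0 := by
  rw [tg_snd]
  exact Finset.sum_eq_zero fun l _ => ue_ne fun h => hi (mem_Ks.2 ⟨l, h.symm⟩)

lemma le_tg_fst {m : ℕ} {σ : Fin (m + 1) → Fin 3 × Fin 3} {i : Fin 3} (hi : i ∈ Is σ) :
    1 ≤ (tg σ).1 i := by
  obtain ⟨l, rfl⟩ := mem_Is.1 hi
  rw [tg_fst]
  have h := Finset.single_le_sum (f := fun l' => ue (σ l').1 (σ l).1)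
    (fun l' _ => ue_nonneg _ _) (Finset.mem_univ l)
  change ue (σ l).1 (σ l).1 ≤ _ at h
  rwa [ue_same] at h

lemma le_tg_snd {m : ℕ} {σ : Fin (m + 1) → Fin 3 × Fin 3} {i : Fin 3} (hi : i ∈ Ks σ) :
    1 ≤ (tg σ).2 i := by
  obtain ⟨l, rfl⟩ := mem_Ks.1 hi
  rw [tg_snd]
  have h := Finset.single_le_sum (f := fun l' => ue (σ l').2 (σ l).2)
    (fun l' _ => ue_nonneg _ _) (Finset.mem_univ l)
  change ue (σ l).2 (σ l).2 ≤ _ at h
  rwa [ue_same] at h

lemma exists_bdP (p : LP) : ∃ r : ℕ, ∀ e, p.coeff e ≠ 0 →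
    ∀ i, -(r : ℤ) ≤ e.1 i ∧ -(r : ℤ) ≤ e.2 i := by
  refine ⟨∑ e ∈ p.coeff.support, ∑ i, ((e.1 i).natAbs + (e.2 i).natAbs), fun e he i => ?_⟩
  have h2 : (e.1 i).natAbs + (e.2 i).natAbs ≤ ∑ i, ((e.1 i).natAbs + (e.2 i).natAbs) :=
    Finset.single_le_sum (f := fun i => (e.1 i).natAbs + (e.2 i).natAbs)
      (fun _ _ => Nat.zero_le _) (Finset.mem_univ i)
  have h3 : ∑ i, ((e.1 i).natAbs + (e.2 i).natAbs) ≤
      ∑ e ∈ p.coeff.support, ∑ i, ((e.1 i).natAbs + (e.2 i).natAbs) :=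
    Finset.single_le_sum (f := fun e : E2 => ∑ i, ((e.1 i).natAbs + (e.2 i).natAbs))
      (fun _ _ => Nat.zero_le _) (Finsupp.mem_support_iff.2 he)
  omega

lemma exists_bdM (v : LM2 V.G n) : ∃ r : ℕ, ∀ i e,
    ((show Fin n → QL V.G from v) i).re.coeff e ≠ 0 ∨
    ((show Fin n → QL V.G from v) i).im.coeff e ≠ 0 →
    ∀ k, -(r : ℤ) ≤ e.1 k ∧ -(r : ℤ) ≤ e.2 k := by
  choose r hr using fun i => exists_bdP ((show Fin n → QL V.G from v) i).re
  choose r' hr' using fun i => exists_bdP ((show Fin n → QL V.G from v) i).im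
  refine ⟨∑ i, (r i + r' i), fun i e he k => ?_⟩
  have h2 : r i + r' i ≤ ∑ i, (r i + r' i) :=
    Finset.single_le_sum (f := fun i => r i + r' i) (fun _ _ => Nat.zero_le _) (Finset.mem_univ i)
  rcases he with he | he
  · have := hr i e he k
    omega
  · have := hr' i e he k
    omega

variable {a b : ℤ}

lemma mo_mem_MS {a' b' : ℤ} {I K I' K' : Finset (Fin 3)} {t : E2} {v : LM2 V.G n}
    (hv : v ∈ MS V.G n a b I K) (ha : sm t.1 + a = a') (hb : sm t.2 + b = b')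
    (h : ∀ j e, ((show Fin n → QL V.G from v) j).re.coeff e ≠ 0 ∨
      ((show Fin n → QL V.G from v) j).im.coeff e ≠ 0 → (∀ i, i ∉ I' → 0 ≤ t.1 i + e.1 i) ∧
      ∀ k, k ∉ K' → 0 ≤ t.2 k + e.2 k) : mo V.G t • v ∈ MS V.G n a' b' I' K' := fun j =>
  mo_mem_gen (hv j) ha hb (h j)

lemma mo_mem_MS' {a' b' : ℤ} {I K I' K' : Finset (Fin 3)} {t : E2} {v : LM2 V.G n}
    (hv : v ∈ MS V.G n a b I K) (ha : sm t.1 + a = a') (hb : sm t.2 + b = b')
    (hI : I ⊆ I') (hK : K ⊆ K')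
    (h1 : ∀ i, i ∉ I' → 0 ≤ t.1 i) (h2 : ∀ i, i ∉ K' → 0 ≤ t.2 i) :
    mo V.G t • v ∈ MS V.G n a' b' I' K' := by
  refine mo_mem_MS V hv ha hb fun j e he => ⟨fun i hi => ?_, fun k hk => ?_⟩
  · have h3 : 0 ≤ e.1 i := by
      rcases he with he | he
      · exact ((hv j).1 e he).1.1 i fun h => hi (hI h)
      · exact ((hv j).2 e he).1.1 i fun h => hi (hI h)
    exact add_nonneg (h1 i hi) h3
  · have h3 : 0 ≤ e.2 k := by
      rcases he with he | he
      · exact ((hv j).1 e he).2.1 k fun h => hk (hK h)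
      · exact ((hv j).2 e he).2.1 k fun h => hk (hK h)
    exact add_nonneg (h2 k hk) h3

/-- The sum of copies of a line bundle. -/
abbrev LS (V : Verra) (n : ℕ) (a b : ℤ) : (VX V).Modules := til (NL V.G n a b) 0

/-- Representation of sections. -/
def RepQ {U : (VX V).Opens} (s : Γ(LS V n a b, U)) (v : LM2 V.G n) : Prop :=
  ∀ x (hx : x ∈ U), vl s x hx =
    (LocalizedModule.mk (S := Pool.Agent.N212.pc x) (show (NL V.G n a b).M from v) 1 : Lo (NL V.G n a b) x)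

lemma RepQ.add {U : (VX V).Opens} {s t : Γ(LS V n a b, U)} {v w : LM2 V.G n}
    (h : RepQ V s v) (h' : RepQ V t w) : RepQ V (s + t) (v + w) := by
  intro x hx
  rw [vl_add, h x hx, h' x hx, mk_add_same]

lemma RepQ.neg {U : (VX V).Opens} {s : Γ(LS V n a b, U)} {v : LM2 V.G n}
    (h : RepQ V s v) : RepQ V (-s) (-v) := by
  intro x hx
  have h1 : vl (-s) x hx = -vl s x hx := rfl
  rw [h1, h x hx]
  exact LocalizedModule.mk_neg.symm

lemma RepQ.sub {U : (VX V).Opens} {s t : Γ(LS V n a b, U)} {v w : LM2 V.G n}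
    (h : RepQ V s v) (h' : RepQ V t w) : RepQ V (s - t) (v - w) := by
  rw [sub_eq_add_neg, sub_eq_add_neg]
  exact h.add V (h'.neg V)

lemma RepQ.rs {U W : (VX V).Opens} (hWU : W ≤ U) {s : Γ(LS V n a b, U)} {v : LM2 V.G n}
    (h : RepQ V s v) : RepQ V (rs (LS V n a b) hWU s) v := fun x hx => h x (hWU hx)

lemma RepQ.ext {U : (VX V).Opens} {s t : Γ(LS V n a b, U)} {v : LM2 V.G n}
    (h : RepQ V s v) (h' : RepQ V t v) : s = t :=
  vl_ext fun x hx => (h x hx).trans (h' x hx).symm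

/-- Sections are represented. -/
lemma exists_repQ {m : ℕ} {σ : Fin (m + 1) → Fin 3 × Fin 3} {U : (VX V).Opens}
    (hU : U = DD (rg V.G) (fg V σ)) (s : Γ(LS V n a b, U)) :
    ∃ v, v ∈ MS V.G n a b (Is σ) (Ks σ) ∧ RepQ V s v := by
  subst hU
  obtain ⟨r, w, hw, hs⟩ := exists_fraction (fg_mem V σ) (Nat.succ_pos m) s
  refine ⟨mo V.G (-(r • tg σ)) • (show LM2 V.G n from w), ?_, fun x hx => ?_⟩
  · have hw' : (w : LM2 V.G n) ∈ MS V.G n (((r * (m + 1) : ℕ) : ℤ) + 0 + a)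
        (((r * (m + 1) : ℕ) : ℤ) + 0 + b) ∅ ∅ := hw
    obtain ⟨h1, h2⟩ := sm_tg σ
    refine mo_mem_MS' V hw' ?_ ?_ (Finset.empty_subset _) (Finset.empty_subset _) ?_ ?_
    · change sm (-(r • (tg σ).1)) + _ = a
      rw [sm_neg, sm_nsmul, h1]
      push_cast
      ring
    · change sm (-(r • (tg σ).2)) + _ = b
      rw [sm_neg, sm_nsmul, h2]
      push_cast
      ring
    · intro i hi
      change 0 ≤ -(r • (tg σ).1 i)
      rw [tg_fst_eq hi, smul_zero, neg_zero]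
    · intro i hi
      change 0 ≤ -(r • (tg σ).2 i)
      rw [tg_snd_eq hi, smul_zero, neg_zero]
  · rw [hs x hx, LocalizedModule.mk_eq]
    refine ⟨1, ?_⟩
    change (1 : RF V.G) • (1 : RF V.G) • (show LM2 V.G n from w) =
      (1 : RF V.G) • fg V σ ^ r • mo V.G (-(r • tg σ)) • (show LM2 V.G n from w)
    rw [one_smul, one_smul, one_smul, fg_smul, mo_neg_smul]

/-- Every allowed Laurent polynomial represents a section. -/
lemma exists_secQ {m : ℕ} {σ : Fin (m + 1) → Fin 3 × Fin 3} {U : (VX V).Opens}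
    (hU : U = DD (rg V.G) (fg V σ)) {v : LM2 V.G n} (hv : v ∈ MS V.G n a b (Is σ) (Ks σ)) :
    ∃ s : Γ(LS V n a b, U), RepQ V s v := by
  subst hU
  obtain ⟨r, hr⟩ := exists_bdM V v
  have h0 : mo V.G (r • tg σ) • v ∈ MS V.G n (((r * (m + 1) : ℕ) : ℤ) + 0 + a)
      (((r * (m + 1) : ℕ) : ℤ) + 0 + b) ∅ ∅ := by
    obtain ⟨h1, h2⟩ := sm_tg σ
    refine mo_mem_MS V hv ?_ ?_ ?_
    · change sm (r • (tg σ).1) + _ = _
      rw [sm_nsmul, h1]
      push_cast
      ring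
    · change sm (r • (tg σ).2) + _ = _
      rw [sm_nsmul, h2]
      push_cast
      ring
    · intro j e he
      have h3 := hr j e he
      refine ⟨fun i _ => ?_, fun i _ => ?_⟩
      · change 0 ≤ r • (tg σ).1 i + e.1 i
        rw [nsmul_eq_mul]
        by_cases hi : i ∈ Is σ
        · have h4 := le_tg_fst hi
          have h5 : (r : ℤ) * 1 ≤ r * (tg σ).1 i :=
            mul_le_mul_of_nonneg_left h4 (Int.natCast_nonneg r)
          have := (h3 i).1
          omega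
        · rw [tg_fst_eq hi, mul_zero, zero_add]
          rcases he with he | he
          · exact ((hv j).1 e he).1.1 i hi
          · exact ((hv j).2 e he).1.1 i hi
      · change 0 ≤ r • (tg σ).2 i + e.2 i
        rw [nsmul_eq_mul]
        by_cases hi : i ∈ Ks σ
        · have h4 := le_tg_snd hi
          have h5 : (r : ℤ) * 1 ≤ r * (tg σ).2 i :=
            mul_le_mul_of_nonneg_left h4 (Int.natCast_nonneg r)
          have := (h3 i).2
          omega
        · rw [tg_snd_eq hi, mul_zero, zero_add]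
          rcases he with he | he
          · exact ((hv j).1 e he).2.1 i hi
          · exact ((hv j).2 e he).2.1 i hi
  obtain ⟨s, hs⟩ := exists_section (N := NL V.G n a b) (j := 0) (DD (rg V.G) (fg V σ))
    (r * (m + 1)) (mo V.G (r • tg σ) • v) (fg V σ ^ r) h0
    (by simpa using SetLike.pow_mem_graded r (fg_mem V σ)) (fun x hx => (Pool.Agent.N212.pc x).pow_mem hx r)
  refine ⟨s, fun x hx => ?_⟩
  rw [hs x hx, LocalizedModule.mk_eq]
  refine ⟨1, ?_⟩
  change (1 : RF V.G) • (1 : RF V.G) • (mo V.G (r • tg σ) • v : LM2 V.G n) =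
      (1 : RF V.G) • fg V σ ^ r • (v : LM2 V.G n)
  rw [one_smul, one_smul, one_smul, fg_smul]

/-- The diagonal tuple. -/
def sgd : Fin 3 → Fin 3 × Fin 3 := fun i => (i, i)

lemma mem_Is_sgd (i : Fin 3) : i ∈ Is (m := 2) sgd := mem_Is.2 ⟨i, rfl⟩

lemma mem_Ks_sgd (i : Fin 3) : i ∈ Ks (m := 2) sgd := mem_Ks.2 ⟨i, rfl⟩

lemma repQ_zero {m : ℕ} {σ : Fin (m + 1) → Fin 3 × Fin 3} {U : (VX V).Opens}
    (hU : U = DD (rg V.G) (fg V σ)) {I K : Finset (Fin 3)} {v : LM2 V.G n}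
    (hv : v ∈ MS V.G n a b I K)
    (h : ∀ x (hx : x ∈ U), (LocalizedModule.mk (S := Pool.Agent.N212.pc x) (show (NL V.G n a b).M from v) 1 :
      Lo (NL V.G n a b) x) = 0) : v = 0 := by
  subst hU
  obtain ⟨r, hr⟩ := exists_bdM V v
  have h0 : mo V.G (r • tg (m := 2) sgd) • v ∈ MS V.G n (((r * 3 : ℕ) : ℤ) + a)
      (((r * 3 : ℕ) : ℤ) + b) ∅ ∅ := by
    obtain ⟨h1, h2⟩ := sm_tg (m := 2) sgd
    refine mo_mem_MS V hv ?_ ?_ ?_
    · change sm (r • (tg (m := 2) sgd).1) + _ = _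
      rw [sm_nsmul, h1]
      push_cast
      ring
    · change sm (r • (tg (m := 2) sgd).2) + _ = _
      rw [sm_nsmul, h2]
      push_cast
      ring
    · intro j e he
      have h3 := hr j e he
      refine ⟨fun i _ => ?_, fun i _ => ?_⟩
      · change 0 ≤ r • (tg (m := 2) sgd).1 i + e.1 i
        rw [nsmul_eq_mul]
        have h4 := le_tg_fst (mem_Is_sgd i)
        have h5 : (r : ℤ) * 1 ≤ r * (tg (m := 2) sgd).1 i :=
          mul_le_mul_of_nonneg_left h4 (Int.natCast_nonneg r)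
        have := (h3 i).1
        omega
      · change 0 ≤ r • (tg (m := 2) sgd).2 i + e.2 i
        rw [nsmul_eq_mul]
        have h4 := le_tg_snd (mem_Ks_sgd i)
        have h5 : (r : ℤ) * 1 ≤ r * (tg (m := 2) sgd).2 i :=
          mul_le_mul_of_nonneg_left h4 (Int.natCast_nonneg r)
        have := (h3 i).2
        omega
  obtain ⟨k, hk⟩ := pow_smul_eq_zero (N := NL V.G n a b) (fg_mem V σ) (Nat.succ_pos m)
    (m := mo V.G (r • tg (m := 2) sgd) • v) h0
    (fun x hx => by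
      refine ⟨1, ?_⟩
      have h1 : (Localization.mk (fg V (m := 2) sgd ^ r) 1 : Localization (Pool.Agent.N212.pc x)) •
          (LocalizedModule.mk (S := Pool.Agent.N212.pc x) (show (NL V.G n a b).M from v) 1 :
            Lo (NL V.G n a b) x) = 0 := by
        rw [h x hx, smul_zero]
      rw [mk_smul_mk', one_mul] at h1
      rw [← h1]
      congr 1
      exact (fg_smul V (m := 2) sgd r v).symm)
  have h1 : fg V σ ^ k • (mo V.G (r • tg (m := 2) sgd) • v : LM2 V.G n) = 0 := hk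
  rw [fg_smul] at h1
  have h2 := congrArg (fun w : LM2 V.G n => mo V.G (-(r • tg (m := 2) sgd)) •
    mo V.G (-(k • tg σ)) • w) h1
  simpa only [mo_smul_neg, smul_zero] using h2

lemma RepQ.unique {m : ℕ} {σ : Fin (m + 1) → Fin 3 × Fin 3} {U : (VX V).Opens}
    (hU : U = DD (rg V.G) (fg V σ)) {I K : Finset (Fin 3)} {s : Γ(LS V n a b, U)}
    {v w : LM2 V.G n} (hv : v ∈ MS V.G n a b I K) (hw : w ∈ MS V.G n a b I K)
    (h : RepQ V s v) (h' : RepQ V s w) : v = w := by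
  rw [← sub_eq_zero]
  refine repQ_zero V hU (sub_mem hv hw) ?_
  intro x hx
  have h1 := (h.sub V h') x hx
  rw [sub_self, vl_zero] at h1
  exact h1.symm

/-- The scalars. -/
lemma iR_C (c : ℂ) (v : LM2 V.G n) : (algebraMap ℂ (RF V.G) c) • v = c • v := by
  rw [rsmul_def]
  have h1 : iR V.G (algebraMap ℂ (RF V.G) c) = algebraMap ℂ (QL V.G) c := by
    refine QuadraticAlgebra.ext ?_ ?_
    · change iB (AddMonoidAlgebra.single 0 c) = _
      rw [iB_single, map_zero]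
      rfl
    · change iB 0 = _
      rw [map_zero]
      rfl
  rw [h1]
  funext i
  exact (Algebra.smul_def c _).symm

lemma RepQ.kS {U : (VX V).Opens} {s : Γ(LS V n a b, U)} {v : LM2 V.G n} (h : RepQ V s v) (c : ℂ) :
    RepQ V (ro (le_top : U ≤ ⊤) (kS V c) • s) (c • v) := by
  intro x hx
  rw [vl_smul, fv_ro, fv_kS, h x hx, mk_smul_mk']
  have h2 : (algebraMap ℂ (RF V.G) c) • (show (NL V.G n a b).M from v) = (c • v : LM2 V.G n) :=
    iR_C V c v
  rw [h2, one_mul]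

end

end Run7.h164
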