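import Pool.Agent.Run7.h164.CE

set_option autoImplicit false
set_option linter.unusedVariables false
set_option linter.unusedSectionVars false

/-!
Line bundles with nonnegative or almost nonnegative bidegrees have no higher cohomology.
-/

open CategoryTheory Limits TopologicalSpace AlgebraicGeometry Opposite TopCat

namespace Run7.h164

noncomputable section

set_option backward.isDefEq.respectTransparency false

open Pool.Agent.W506 Pool.Agent.N212
open Pool.Agent.R924 (DD Frame sg)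

/-! ### Morphisms on intersections of charts -/

/-- Morphisms on intersections. -/
structure PHomJ {X : Scheme.{0}} {J : Type} (U : J → X.Opens) (T T' : PSh X) where
  /-- the maps -/
  f : ∀ {n : ℕ} (σ : Fin (n + 1) → J), T.obj (UJ U σ) →+ T'.obj (UJ U σ)
  nat : ∀ {n : ℕ} (σ : Fin (n + 2) → J) (l : Fin (n + 2))
    (s : T.obj (UJ U (fun m => σ (l.succAbove m)))),
    f σ (T.res (UJ_le U σ l.succAbove) s) =
      T'.res (UJ_le U σ l.succAbove) (f (fun m => σ (l.succAbove m)) s)

theorem CEx.of_bijJ {X : Scheme.{0}} {J : Type} {U : J → X.Opens} {T T' : PSh X}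
    (f : PHomJ U T T')
    (hf : ∀ (n : ℕ) (σ : Fin (n + 1) → J), Function.Bijective (f.f σ)) (h : CEx T' U) :
    CEx T U := by
  have key : ∀ {n : ℕ} (c : CC T U n), (fun σ => f.f σ (dC T U n c σ)) =
      dC T' U n (fun σ => f.f σ (c σ)) := by
    intro n c
    funext σ
    rw [dC_apply, dC_apply, map_sum]
    exact Finset.sum_congr rfl fun l _ => by rw [map_zsmul, f.nat]
  intro n c hc
  have h2 : dC T' U (n + 1) (fun σ => f.f σ (c σ)) = 0 := by
    rw [← key, hc]
    funext σ
    exact map_zero _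
  obtain ⟨a, ha⟩ := h n _ h2
  choose b hb using fun σ => (hf _ σ).2 (a σ)
  refine ⟨b, ?_⟩
  have h3 := key b
  have h4 : (fun σ => f.f σ (b σ)) = a := funext hb
  rw [h4, ha] at h3
  funext σ
  exact (hf _ _).1 (congrFun h3 σ)

variable (V : Verra)

/-- Laurent polynomials which are allowed on all smaller intersections. -/
def SW (n : ℕ) (a b : ℤ) (W : (VX V).Opens) : AddSubgroup (LM2 V.G n) where
  carrier := {v | v ∈ MS V.G n a b Finset.univ Finset.univ ∧
    ∀ (m : ℕ) (σ : Fin (m + 1) → Fin 3 × Fin 3), UJ (VF V).U σ ≤ W →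
      v ∈ MS V.G n a b (Is σ) (Ks σ)}
  add_mem' h h' := ⟨add_mem h.1 h'.1, fun m σ hσ => add_mem (h.2 m σ hσ) (h'.2 m σ hσ)⟩
  zero_mem' := ⟨zero_mem _, fun m σ hσ => zero_mem _⟩
  neg_mem' h := ⟨neg_mem h.1, fun m σ hσ => neg_mem (h.2 m σ hσ)⟩

/-- The presheaf of these. -/
def TS (n : ℕ) (a b : ℤ) : PSh (VX V) where
  obj W := SW V n a b W
  res h := AddSubgroup.inclusion fun v hv => ⟨hv.1, fun m σ hσ => hv.2 m σ (hσ.trans h)⟩
  res_refl U s := rfl
  res_res h h' s := rfl

variable {n : ℕ} {a b : ℤ}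

lemma TS_res {U W : (VX V).Opens} (h : W ≤ U) (s : SW V n a b U) :
    ((TS V n a b).res h s).1 = s.1 := rfl

lemma mem_SW_of {m : ℕ} {σ : Fin (m + 1) → Fin 3 × Fin 3} {v : LM2 V.G n}
    (hv : v ∈ MS V.G n a b (Is σ) (Ks σ)) : v ∈ SW V n a b (UJ (VF V).U σ) := by
  refine ⟨MS_mono (Finset.subset_univ _) (Finset.subset_univ _) hv, fun k τ hτ => ?_⟩
  obtain ⟨s, hs⟩ := exists_secQ V (UJ_eq V σ) hv
  obtain ⟨w, hw, hw'⟩ := exists_repQ V (UJ_eq V τ) (rs _ hτ s)
  have h1 := RepQ.unique V (UJ_eq V τ)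
    (MS_mono (Finset.subset_univ _) (Finset.subset_univ _) hv)
    (MS_mono (Finset.subset_univ _) (Finset.subset_univ _) hw) (hs.rs V hτ) hw'
  rw [h1]
  exact hw

/-! ### The contraction -/

open Classical in
/-- The chart chosen for a monomial. -/
def chE (e : E2) : Fin 3 × Fin 3 :=
  (if h : ∃ i, 0 ≤ e.1 i then h.choose else 0, if h : ∃ i, 0 ≤ e.2 i then h.choose else 0)

lemma chE_fst {e : E2} (h : ∃ i, 0 ≤ e.1 i) : 0 ≤ e.1 (chE e).1 := by
  have h1 : (chE e).1 = h.choose := dif_pos h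
  rw [h1]
  exact h.choose_spec

lemma chE_snd {e : E2} (h : ∃ i, 0 ≤ e.2 i) : 0 ≤ e.2 (chE e).2 := by
  have h1 : (chE e).2 = h.choose := dif_pos h
  rw [h1]
  exact h.choose_spec

lemma exists_nonneg {e : Ex} (h : -2 ≤ ∑ i, e i) : ∃ i, 0 ≤ e i := by
  by_contra! hc
  rw [Fin.sum_univ_three] at h
  have h0 := hc 0
  have h1 := hc 1
  have h2 := hc 2
  omega

/-- Truncation of Laurent polynomials. -/
def flt (j : Fin 3 × Fin 3) : LP →+ LP where
  toFun p := AddMonoidAlgebra.ofCoeff (p.coeff.filter fun e => chE e = j)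
  map_zero' := AddMonoidAlgebra.coeff_injective (Finsupp.filter_zero _)
  map_add' p q := AddMonoidAlgebra.coeff_injective Finsupp.filter_add

lemma coeff_flt (j : Fin 3 × Fin 3) (p : LP) (e : E2) :
    (flt j p).coeff e = if chE e = j then p.coeff e else 0 := Finsupp.filter_apply _ _ _

/-- Truncation of vectors. -/
def fltM (j : Fin 3 × Fin 3) : LM2 V.G n →+ LM2 V.G n where
  toFun v := fun i => (⟨flt j ((show Fin n → QL V.G from v) i).re,
    flt j ((show Fin n → QL V.G from v) i).im⟩ : QL V.G)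
  map_zero' := by
    funext i
    refine QuadraticAlgebra.ext ?_ ?_
    · exact map_zero _
    · exact map_zero _
  map_add' v w := by
    funext i
    refine QuadraticAlgebra.ext ?_ ?_
    · exact map_add _ _ _
    · exact map_add _ _ _

lemma cfL_fltM (j : Fin 3 × Fin 3) (v : LM2 V.G n) (i : Fin n) (p : Bool) (e : E2) :
    cfL i p e (fltM V j v) = if chE e = j then cfL i p e v else 0 := by
  cases p
  · exact coeff_flt j _ e
  · exact coeff_flt j _ e

lemma sum_fltM (v : LM2 V.G n) : ∑ j, fltM V j v = v := by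
  rw [← sub_eq_zero]
  refine cfL_ext fun i p e => ?_
  rw [map_sub, map_sum]
  simp only [cfL_fltM]
  rw [Finset.sum_ite_eq]
  simp

lemma fltM_mem (ha : -1 ≤ a) (hb : -1 ≤ b) {m : ℕ} {σ : Fin (m + 1) → Fin 3 × Fin 3}
    {j : Fin 3 × Fin 3} {v : LM2 V.G n}
    (hv : v ∈ MS V.G n a b (Is (Fin.cons j σ : Fin (m + 2) → Fin 3 × Fin 3))
      (Ks (Fin.cons j σ : Fin (m + 2) → Fin 3 × Fin 3))) :
    fltM V j v ∈ MS V.G n a b (Is σ) (Ks σ) := by
  have key : ∀ {a b : ℤ} {p : LP}, -2 ≤ a → -2 ≤ b →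
      p ∈ spt (Sp a b (Is (Fin.cons j σ : Fin (m + 2) → Fin 3 × Fin 3))
        (Ks (Fin.cons j σ : Fin (m + 2) → Fin 3 × Fin 3))) →
      flt j p ∈ spt (Sp a b (Is σ) (Ks σ)) := by
    intro a b p ha hb hp e he
    rw [coeff_flt] at he
    split_ifs at he with hj
    · obtain ⟨⟨h1, h2⟩, h3, h4⟩ := hp e he
      have h5 := chE_fst (exists_nonneg (e := e.1) (by rw [h2]; exact ha))
      have h6 := chE_snd (exists_nonneg (e := e.2) (by rw [h4]; exact hb))
      rw [hj] at h5 h6
      refine ⟨⟨fun i hi => ?_, h2⟩, ⟨fun i hi => ?_, h4⟩⟩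
      · by_cases hij : i = j.1
        · rw [hij]
          exact h5
        · refine h1 i fun h => ?_
          obtain ⟨l, hl⟩ := mem_Is.1 h
          refine Fin.cases (fun hl => ?_) (fun l hl => ?_) l hl
          · rw [Fin.cons_zero] at hl
            exact hij hl.symm
          · rw [Fin.cons_succ] at hl
            exact hi (mem_Is.2 ⟨l, hl⟩)
      · by_cases hij : i = j.2
        · rw [hij]
          exact h6
        · refine h3 i fun h => ?_
          obtain ⟨l, hl⟩ := mem_Ks.1 h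
          refine Fin.cases (fun hl => ?_) (fun l hl => ?_) l hl
          · rw [Fin.cons_zero] at hl
            exact hij hl.symm
          · rw [Fin.cons_succ] at hl
            exact hi (mem_Ks.2 ⟨l, hl⟩)
    · exact absurd rfl he
  intro i
  exact ⟨key (by omega) (by omega) (hv i).1, key (by omega) (by omega) (hv i).2⟩

/-- Exactness. -/
theorem cex_TS (ha : -1 ≤ a) (hb : -1 ≤ b) : CEx (TS V n a b) (VF V).U := by
  have hm : ∀ (j : Fin 3 × Fin 3) (m : ℕ) (σ : Fin (m + 1) → Fin 3 × Fin 3)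
      (s : SW V n a b ((VF V).U j ⊓ UJ (VF V).U σ)),
      fltM V j s.1 ∈ SW V n a b (UJ (VF V).U σ) := by
    intro j m σ s
    apply mem_SW_of
    apply fltM_mem V ha hb
    exact s.2.2 _ _ (UJ_cons j σ).le
  refine cex_of_contraction (fun j m σ =>
    { toFun := fun s => ⟨fltM V j s.1, hm j m σ s⟩
      map_zero' := Subtype.ext (map_zero _)
      map_add' := fun s t => Subtype.ext (map_add _ _ _) }) ?_ ?_
  · intro j m σ l s
    rfl
  · intro m σ s
    apply Subtype.ext
    have h1 : ∀ (t : Finset (Fin 3 × Fin 3)) (g : Fin 3 × Fin 3 → SW V n a b (UJ (VF V).U σ)),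
        (∑ j ∈ t, g j).1 = ∑ j ∈ t, (g j).1 := fun t g => AddSubgroup.val_finsetSum _ _ _
    refine (h1 _ _).trans ?_
    exact sum_fltM V s.1

end

end Run7.h164
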