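import Pool.Agent.Run7.h164.CF

set_option autoImplicit false
set_option linter.unusedVariables false
set_option linter.unusedSectionVars false

/-!
Morphisms between line bundles and their shifts.
-/

open CategoryTheory Limits TopologicalSpace AlgebraicGeometry Opposite TopCat

namespace Run7.h164

noncomputable section

set_option backward.isDefEq.respectTransparency false

open Pool.Agent.W506 Pool.Agent.N212
open Pool.Agent.R924 (DD Frame sg)

/-- Exponents of generators. -/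
def me (c d : ℤ) (j : Fin 3 × Fin 3) : E2 := (c • ue j.1, d • ue j.2)

/-- Exponents of transition functions. -/
def mtr (c d : ℤ) (j l : Fin 3 × Fin 3) : E2 := me c d l - me c d j

lemma mtr_add (c d c' d' : ℤ) (j l : Fin 3 × Fin 3) :
    mtr (c + c') (d + d') j l = mtr c d j l + mtr c' d' j l := by
  refine Prod.ext ?_ ?_
  · change (c + c') • ue l.1 - (c + c') • ue j.1 =
      (c • ue l.1 - c • ue j.1) + (c' • ue l.1 - c' • ue j.1)
    rw [add_smul, add_smul]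
    abel
  · change (d + d') • ue l.2 - (d + d') • ue j.2 =
      (d • ue l.2 - d • ue j.2) + (d' • ue l.2 - d' • ue j.2)
    rw [add_smul, add_smul]
    abel

lemma mtr_me (c d : ℤ) (j l : Fin 3 × Fin 3) : mtr c d j l + me c d j = me c d l :=
  sub_add_cancel _ _

lemma mtr_zero (j l : Fin 3 × Fin 3) : mtr 0 0 j l = 0 := by
  have h := mtr_add 0 0 0 0 j l
  rw [add_zero] at h
  exact left_eq_add.1 h

variable (V : Verra)

/-- Transition functions acting by monomials. -/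
def ShQ (δ : (VF V).Div) (c d : ℤ) : Prop :=
  ∀ (j l : Fin 3 × Fin 3) (x : ProjectiveSpectrum.top (rg V.G))
    (hx : x ∈ (VF V).U j ⊓ (VF V).U l) (n : ℕ) (a b : ℤ) (v : LM2 V.G n),
    (fv (Frame.tr δ j l) x hx).val • (LocalizedModule.mk (S := Pool.Agent.N212.pc x)
      (show (NL V.G n a b).M from v) 1 : Lo (NL V.G n a b) x) =
      LocalizedModule.mk (show (NL V.G n a b).M from mo V.G (mtr c d j l) • v) 1

lemma shQ_one : ShQ V 1 0 0 := by
  intro j l x hx n a b v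
  have h1 : Frame.tr (1 : (VF V).Div) j l = 1 := by
    apply (VF V).inj₂
    rw [Frame.ro_tr, map_one]
    change ((1 * 1⁻¹ : (Γ(VX V, (VF V).T))ˣ) : Γ(VX V, (VF V).T)) = 1
    rw [inv_one, mul_one, Units.val_one]
  rw [h1, fv_one, HomogeneousLocalization.val_one, one_smul, mtr_zero, mo_zero, one_smul]

lemma shQ_mul {δ δ' : (VF V).Div} {c d c' d' : ℤ} (h : ShQ V δ c d) (h' : ShQ V δ' c' d') :
    ShQ V (δ * δ') (c + c') (d + d') := by
  intro j l x hx n a b v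
  have h1 : Frame.tr (δ * δ') j l = Frame.tr δ j l * Frame.tr δ' j l := by
    apply (VF V).inj₂
    rw [map_mul, Frame.ro_tr, Frame.ro_tr, Frame.ro_tr, ← Units.val_mul]
    congr 1
    change (δ.1 _ * δ'.1 _) * (δ.1 _ * δ'.1 _)⁻¹ = _
    rw [mul_inv]
    exact mul_mul_mul_comm _ _ _ _
  rw [h1, fv_mul, HomogeneousLocalization.val_mul, mul_smul, h', h, mo_mo_smul, mtr_add]

lemma shQ_inv {δ : (VF V).Div} {c d : ℤ} (h : ShQ V δ c d) : ShQ V δ⁻¹ (-c) (-d) := by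
  intro j l x hx n a b v
  have h1 : Frame.tr δ⁻¹ j l * Frame.tr δ j l = 1 := by
    apply (VF V).inj₂
    rw [map_mul, Frame.ro_tr, Frame.ro_tr, ← Units.val_mul, map_one]
    change (((δ.1 l)⁻¹ * ((δ.1 j)⁻¹)⁻¹ * _ : (Γ(VX V, (VF V).T))ˣ) :
      Γ(VX V, (VF V).T)) = 1
    rw [inv_inv, ← Units.val_one]
    congr 1
    rw [mul_comm (δ.1 l)⁻¹, mul_assoc, inv_mul_cancel_left, mul_inv_cancel]
  have h2 := h j l x hx n a b (mo V.G (mtr (-c) (-d) j l) • v)
  rw [mo_mo_smul, ← mtr_add, add_neg_cancel, add_neg_cancel, mtr_zero, mo_zero, one_smul] at h2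
  rw [← h2, smul_smul, ← HomogeneousLocalization.val_mul, ← fv_mul, h1, fv_one,
    HomogeneousLocalization.val_one, one_smul]

lemma shQ_pow {δ : (VF V).Div} {c d : ℤ} (h : ShQ V δ c d) (m : ℕ) :
    ShQ V (δ ^ m) (m * c) (m * d) := by
  induction m with
  | zero =>
    rw [pow_zero, Nat.cast_zero, zero_mul, zero_mul]
    exact shQ_one V
  | succ m ih =>
    rw [pow_succ, Nat.cast_succ, add_mul, one_mul, add_mul, one_mul]
    exact shQ_mul V ih h

lemma shQ_zpow {δ : (VF V).Div} {c d : ℤ} (h : ShQ V δ c d) (m : ℤ) :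
    ShQ V (δ ^ m) (m * c) (m * d) := by
  obtain ⟨k, rfl | rfl⟩ := m.eq_nat_or_neg
  · rw [zpow_natCast]
    exact shQ_pow V h k
  · rw [zpow_neg, zpow_natCast, neg_mul, neg_mul]
    exact shQ_inv V (shQ_pow V h k)

lemma shQ_of_qf {δ : (VF V).Div} {c d : ℤ} (f : Fin 3 × Fin 3 → Fin 3 × Fin 3 → Fin 3 × Fin 3)
    (h : ∀ j l, Frame.tr δ j l = ro inf_le_left (qf V j (f j l)))
    (hf : ∀ j l, (ue (f j l).1, ue (f j l).2) = mtr c d j l + (ue j.1, ue j.2)) :
    ShQ V δ c d := by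
  intro j l x hx n a b v
  rw [h, fv_ro, qf_smul, LocalizedModule.mk_eq]
  refine ⟨1, ?_⟩
  change (1 : RF V.G) • (1 : RF V.G) • gg V (f j l) • (v : LM2 V.G n) =
    (1 : RF V.G) • (gg V j * 1) • (mo V.G (mtr c d j l) • v : LM2 V.G n)
  rw [one_smul, one_smul, one_smul, mul_one, gg_smul2, gg_smul2, mo_mo_smul, hf, add_comm]

lemma tr_xi (j l : Fin 3 × Fin 3) : Frame.tr (xiD V) j l =
    ro inf_le_left (qf V j (l.1, j.2)) := by
  obtain ⟨i, k⟩ := j
  obtain ⟨i', k'⟩ := l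
  apply (VF V).inj₂
  rw [Frame.ro_tr, ro_ro]
  let u : (Γ(VX V, (VF V).T))ˣ := qu (gg V) (gg_mem V) (gg_ne V) (i, k) (i', k)
  have e1 : (xiD V).1 (i', k') = (xiD V).1 (i, k) * u := by
    change qu (gg V) (gg_mem V) (gg_ne V) (0, 0) (i', 0) =
      qu (gg V) (gg_mem V) (gg_ne V) (0, 0) (i, 0) *
        qu (gg V) (gg_mem V) (gg_ne V) (i, k) (i', k)
    rw [← qu_mul (gg V) (gg_mem V) (gg_ne V) (0, 0) (i, 0) (i', 0)]
    congr 1
    apply qu_eq
    exact gg_segre V i' i 0 k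
  rw [e1, mul_comm, inv_mul_cancel_left]
  rfl

lemma tr_et (j l : Fin 3 × Fin 3) : Frame.tr (etD V) j l =
    ro inf_le_left (qf V j (j.1, l.2)) := by
  obtain ⟨i, k⟩ := j
  obtain ⟨i', k'⟩ := l
  apply (VF V).inj₂
  rw [Frame.ro_tr, ro_ro]
  let v : (Γ(VX V, (VF V).T))ˣ := qu (gg V) (gg_mem V) (gg_ne V) (i, k) (i, k')
  have e2 : (etD V).1 (i', k') = (etD V).1 (i, k) * v := by
    change qu (gg V) (gg_mem V) (gg_ne V) (0, 0) (0, k') =
      qu (gg V) (gg_mem V) (gg_ne V) (0, 0) (0, k) *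
        qu (gg V) (gg_mem V) (gg_ne V) (i, k) (i, k')
    rw [← qu_mul (gg V) (gg_mem V) (gg_ne V) (0, 0) (0, k) (0, k')]
    congr 1
    apply qu_eq
    rw [gg_segre V 0 i k' k, mul_comm]
  rw [e2, mul_comm, inv_mul_cancel_left]
  rfl

lemma shQ_xi : ShQ V (xiD V) 1 0 :=
  shQ_of_qf V (fun j l => (l.1, j.2)) (tr_xi V) fun j l => by
    refine Prod.ext ?_ ?_
    · change ue l.1 = (1 : ℤ) • ue l.1 - (1 : ℤ) • ue j.1 + ue j.1
      rw [one_smul, one_smul, sub_add_cancel]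
    · change ue j.2 = (0 : ℤ) • ue l.2 - (0 : ℤ) • ue j.2 + ue j.2
      rw [zero_smul, zero_smul, sub_zero, zero_add]

lemma shQ_et : ShQ V (etD V) 0 1 :=
  shQ_of_qf V (fun j l => (j.1, l.2)) (tr_et V) fun j l => by
    refine Prod.ext ?_ ?_
    · change ue j.1 = (0 : ℤ) • ue l.1 - (0 : ℤ) • ue j.1 + ue j.1
      rw [zero_smul, zero_smul, sub_zero, zero_add]
    · change ue l.2 = (1 : ℤ) • ue l.2 - (1 : ℤ) • ue j.2 + ue j.2
      rw [one_smul, one_smul, sub_add_cancel]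

lemma shQ_line (p q : ℤ) : ShQ V (xiD V ^ p * etD V ^ q) p q := by
  have := shQ_mul V (shQ_zpow V (shQ_xi V) p) (shQ_zpow V (shQ_et V) q)
  rwa [mul_one, mul_zero, mul_zero, mul_one, add_zero, zero_add] at this

/-! ### Families -/

variable {δ : (VF V).Div} {c d : ℤ} (hδ : ShQ V δ c d) {n : ℕ} {a b : ℤ}

include hδ in
lemma repQ_tr {j l : Fin 3 × Fin 3} {W : (VX V).Opens} (hW : W ≤ (VF V).U j ⊓ (VF V).U l)
    {s : Γ(LS V n a b, W)} {v : LM2 V.G n} (h : RepQ V s v) :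
    RepQ V (ro hW (Frame.tr δ j l) • s) (mo V.G (mtr c d j l) • v) := by
  intro x hx
  rw [vl_smul, fv_ro, h x hx]
  exact hδ j l x _ n a b v

lemma tf_formula {N : (VX V).Modules} {W : (VX V).Opens} (i : Fin 3 × Fin 3)
    (hW : W ≤ (VF V).U i) (s : TF δ N W) (j : Fin 3 × Fin 3) :
    s.1 j = ro (le_inf (inf_le_left.trans hW) inf_le_right :
      W ⊓ (VF V).U j ≤ (VF V).U i ⊓ (VF V).U j) (Frame.tr δ i j) • rs N (le_inf inf_le_left
        (inf_le_left.trans hW) : W ⊓ (VF V).U j ≤ W ⊓ (VF V).U i) (s.1 i) := by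
  have hle : W ⊓ (VF V).U j ≤ W ⊓ ((VF V).U i ⊓ (VF V).U j) := le_inf inf_le_left
    (le_inf (inf_le_left.trans hW) inf_le_right)
  have h1 := congrArg (rs N hle) (s.2 i j)
  rw [rs_rs, rs_smul, rs_rs, ro_ro] at h1
  rw [rs_refl] at h1
  exact h1

/-- Representation of families. -/
def TRep (c d : ℤ) {W : (VX V).Opens} (t : TF δ (LS V n a b) W) (v : LM2 V.G n) : Prop :=
  ∀ j, RepQ V (t.1 j) (mo V.G (me c d j) • v)

lemma TRep.add {W : (VX V).Opens} {t t' : TF δ (LS V n a b) W} {v v' : LM2 V.G n}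
    (h : TRep V c d t v) (h' : TRep V c d t' v') : TRep V c d (t + t') (v + v') := by
  intro j
  rw [smul_add]
  exact (h j).add V (h' j)

include hδ in
lemma tRep_of {W : (VX V).Opens} (i : Fin 3 × Fin 3) (hW : W ≤ (VF V).U i)
    {t : TF δ (LS V n a b) W} {v : LM2 V.G n} (h : RepQ V (t.1 i) (mo V.G (me c d i) • v)) :
    TRep V c d t v := by
  intro j
  rw [tf_formula V i hW t j]
  have h1 := repQ_tr V hδ (le_inf (inf_le_left.trans hW) inf_le_right :
      W ⊓ (VF V).U j ≤ (VF V).U i ⊓ (VF V).U j) (h.rs V (le_inf inf_le_left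
        (inf_le_left.trans hW) : W ⊓ (VF V).U j ≤ W ⊓ (VF V).U i))
  rwa [mo_mo_smul, mtr_me] at h1

lemma me_shift {I K : Finset (Fin 3)} {j : Fin 3 × Fin 3} (h1 : j.1 ∈ I) (h2 : j.2 ∈ K)
    {v : LM2 V.G n} : v ∈ MS V.G n (a - c) (b - d) I K ↔
      mo V.G (me c d j) • v ∈ MS V.G n a b I K := by
  have hs : ∀ (c : ℤ) (k : Fin 3), sm (c • ue k) = c := by
    intro c k
    change ∑ i, (c • ue k) i = c
    simp only [Pi.smul_apply, smul_eq_mul, ← Finset.mul_sum, sum_ue, mul_one]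
  have hz : ∀ (c : ℤ) (k i : Fin 3), i ≠ k → (c • ue k) i = 0 := by
    intro c k i h
    rw [Pi.smul_apply, ue_ne h, smul_zero]
  constructor
  · intro h
    refine mo_mem_MS' V h ?_ ?_ le_rfl le_rfl ?_ ?_
    · change sm (c • ue j.1) + _ = _
      rw [hs]
      ring
    · change sm (d • ue j.2) + _ = _
      rw [hs]
      ring
    · intro i hi
      exact (hz c _ i fun h => hi (h ▸ h1)).ge
    · intro i hi
      exact (hz d _ i fun h => hi (h ▸ h2)).ge
  · intro h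
    rw [← mo_smul_neg V (me c d j) v]
    refine mo_mem_MS' V h ?_ ?_ le_rfl le_rfl ?_ ?_
    · change sm (-(c • ue j.1)) + _ = _
      rw [sm_neg, hs]
      ring
    · change sm (-(d • ue j.2)) + _ = _
      rw [sm_neg, hs]
      ring
    · intro i hi
      change 0 ≤ -((c • ue j.1) i)
      rw [hz c _ i fun h => hi (h ▸ h1), neg_zero]
    · intro i hi
      change 0 ≤ -((d • ue j.2) i)
      rw [hz d _ i fun h => hi (h ▸ h2), neg_zero]

lemma zero_mem_Is {m : ℕ} (σ : Fin (m + 1) → Fin 3 × Fin 3) : (σ 0).1 ∈ Is σ := mem_Is.2 ⟨0, rfl⟩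

lemma zero_mem_Ks {m : ℕ} (σ : Fin (m + 1) → Fin 3 × Fin 3) : (σ 0).2 ∈ Ks σ := mem_Ks.2 ⟨0, rfl⟩

lemma UJ_inf_zero {m : ℕ} (σ : Fin (m + 1) → Fin 3 × Fin 3) :
    UJ (VF V).U σ ⊓ (VF V).U (σ 0) = DD (rg V.G) (fg V σ) := by
  rw [inf_eq_left.2 (UJ_le_one (VF V).U σ 0), UJ_eq]

include hδ in
lemma exists_tRep {m : ℕ} (σ : Fin (m + 1) → Fin 3 × Fin 3)
    (t : TF δ (LS V n a b) (UJ (VF V).U σ)) :
    ∃ v, v ∈ MS V.G n (a - c) (b - d) (Is σ) (Ks σ) ∧ TRep V c d t v := by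
  obtain ⟨w, hw, hw'⟩ := exists_repQ V (UJ_inf_zero V σ) (t.1 (σ 0))
  refine ⟨mo V.G (-(me c d (σ 0))) • w, ?_, ?_⟩
  · rw [me_shift V (zero_mem_Is σ) (zero_mem_Ks σ), mo_neg_smul]
    exact hw
  · refine tRep_of V hδ (σ 0) (UJ_le_one (VF V).U σ 0) ?_
    rw [mo_neg_smul]
    exact hw'

include hδ in
lemma exists_tf_of {m : ℕ} (σ : Fin (m + 1) → Fin 3 × Fin 3) {v : LM2 V.G n}
    (hv : v ∈ MS V.G n (a - c) (b - d) (Is σ) (Ks σ)) :
    ∃ t : TF δ (LS V n a b) (UJ (VF V).U σ), TRep V c d t v := by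
  obtain ⟨s, hs⟩ := exists_secQ V (UJ_eq V σ)
    ((me_shift V (zero_mem_Is σ) (zero_mem_Ks σ)).1 hv)
  obtain ⟨t, ht⟩ := exists_tf δ (σ 0) (UJ_le_one (VF V).U σ 0) s
  refine ⟨t, tRep_of V hδ (σ 0) (UJ_le_one (VF V).U σ 0) ?_⟩
  rw [ht]
  exact hs.rs V _

include hδ in
lemma TRep.unique {m : ℕ} {σ : Fin (m + 1) → Fin 3 × Fin 3}
    {t : TF δ (LS V n a b) (UJ (VF V).U σ)} {v v' : LM2 V.G n}
    (hv : v ∈ MS V.G n (a - c) (b - d) Finset.univ Finset.univ)
    (hv' : v' ∈ MS V.G n (a - c) (b - d) Finset.univ Finset.univ)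
    (h : TRep V c d t v) (h' : TRep V c d t v') : v = v' := by
  have h1 := RepQ.unique V (UJ_inf_zero V σ)
    ((me_shift V (Finset.mem_univ _) (Finset.mem_univ _)).1 hv)
    ((me_shift V (Finset.mem_univ _) (Finset.mem_univ _)).1 hv') (h (σ 0)) (h' (σ 0))
  have h2 := congrArg (fun w : LM2 V.G n => mo V.G (-(me c d (σ 0))) • w) h1
  simpa only [mo_smul_neg] using h2

include hδ in
theorem cex_LS (ha : -1 ≤ a - c) (hb : -1 ≤ b - d) : CEx (TP δ (LS V n a b)) (VF V).U := by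
  have hM : ∀ {m : ℕ} {σ : Fin (m + 1) → Fin 3 × Fin 3} {v : LM2 V.G n},
      v ∈ MS V.G n (a - c) (b - d) (Is σ) (Ks σ) →
        v ∈ MS V.G n (a - c) (b - d) Finset.univ Finset.univ := fun h =>
    MS_mono (Finset.subset_univ _) (Finset.subset_univ _) h
  have ex : ∀ {m : ℕ} (σ : Fin (m + 1) → Fin 3 × Fin 3)
      (t : TF δ (LS V n a b) (UJ (VF V).U σ)),
      ∃ v : SW V n (a - c) (b - d) (UJ (VF V).U σ), TRep V c d t v.1 := by
    intro m σ t
    obtain ⟨v, hv, hv'⟩ := exists_tRep V hδ σ t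
    exact ⟨⟨v, mem_SW_of V hv⟩, hv'⟩
  have un : ∀ {m : ℕ} {σ : Fin (m + 1) → Fin 3 × Fin 3}
      {t : TF δ (LS V n a b) (UJ (VF V).U σ)}
      (v v' : SW V n (a - c) (b - d) (UJ (VF V).U σ)), TRep V c d t v.1 → TRep V c d t v'.1 →
        v = v' := fun v v' h h' => Subtype.ext (TRep.unique V hδ v.2.1 v'.2.1 h h')
  let f : ∀ {m : ℕ} (σ : Fin (m + 1) → Fin 3 × Fin 3),
      TF δ (LS V n a b) (UJ (VF V).U σ) →+ SW V n (a - c) (b - d) (UJ (VF V).U σ) := fun σ =>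
    { toFun := fun t => (ex σ t).choose
      map_zero' := by
        refine un (t := 0) _ _ (ex σ 0).choose_spec ?_
        intro j x hx
        change vl 0 x hx = LocalizedModule.mk (show (NL V.G n a b).M from
          mo V.G (me c d j) • (0 : LM2 V.G n)) 1
        rw [vl_zero, smul_zero]
        exact (LocalizedModule.zero_mk _).symm
      map_add' := fun t t' => un (t := t + t') _ _ (ex σ (t + t')).choose_spec
        ((ex σ t).choose_spec.add V (ex σ t').choose_spec) }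
  have hf : ∀ {m : ℕ} (σ : Fin (m + 1) → Fin 3 × Fin 3) (t : TF δ (LS V n a b) (UJ (VF V).U σ)),
      TRep V c d t (f σ t).1 := fun σ t => (ex σ t).choose_spec
  let F : PHomJ (VF V).U (TP δ (LS V n a b)) (TS V n (a - c) (b - d)) :=
    { f := fun σ => f σ
      nat := by
        intro m σ l s
        refine un (t := (TP δ (LS V n a b)).res (UJ_le (VF V).U σ l.succAbove) s) _ _ (hf _ _) ?_
        intro j
        exact (hf _ s j).rs V _ }
  refine CEx.of_bijJ F ?_ (cex_TS V ha hb)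
  intro m σ
  constructor
  · intro t t' htt
    refine tf_ext δ fun j => ?_
    have h1 := hf σ t j
    have h2 := hf σ t' j
    have h3 : f σ t = f σ t' := htt
    rw [h3] at h1
    exact RepQ.ext V h1 h2
  · intro v
    obtain ⟨t, ht⟩ := exists_tf_of V hδ σ (v.2.2 m σ le_rfl)
    exact ⟨t, un (t := t) _ _ (hf σ t) ht⟩

include hδ in
theorem ccls_LS (ha : -1 ≤ a - c) (hb : -1 ≤ b - d) : CCls δ (LS V n a b) where
  sum j := (qcOn_til (NL V.G n a b) 0 _).sumOn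
  ex := cex_LS V hδ ha hb

attribute [local instance] HasDerivedCategory.standard

include hδ in
/-- Vanishing of higher morphisms. -/
theorem hom_LS_eq_zero (ha : -1 ≤ a - c) (hb : -1 ≤ b - d) {i : ℤ} (hi : i ≠ 0)
    (f : sg (Frame.lb δ) ⟶ (sg (LS V n a b))⟦i⟧) : f = 0 := by
  rcases lt_or_gt_of_ne hi with h | h
  · exact Pool.Agent.R924.neg_hom_eq_zero _ _ i h f
  · obtain ⟨k, rfl⟩ : ∃ k : ℕ, i = ((k + 1 : ℕ) : ℤ) := ⟨(i - 1).toNat, by omega⟩
    exact CCls.hom_eq_zero (AV V) (ccls_LS V hδ ha hb) k f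

/-! ### Morphisms -/

lemma U_eq_fg (j : Fin 3 × Fin 3) : (VF V).U j = DD (rg V.G) (fg V (fun _ : Fin 1 => j)) := by
  rw [fg, Fin.prod_univ_one, VF_U]

lemma UU_eq_fg (j l : Fin 3 × Fin 3) : (VF V).U j ⊓ (VF V).U l =
    DD (rg V.G) (fg V (![j, l] : Fin 2 → Fin 3 × Fin 3)) := by
  rw [fg, Fin.prod_univ_two, ← DD_inf]
  rfl

/-- Representation of morphisms. -/
def HRepQ (c d : ℤ) (φ : Frame.lb δ ⟶ LS V n a b) (v : LM2 V.G n) : Prop :=
  ∀ j, RepQ V (ap φ _ (Frame.lbE δ j)) (mo V.G (me c d j) • v)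

lemma HRepQ.add {φ ψ : Frame.lb δ ⟶ LS V n a b} {v w : LM2 V.G n} (h : HRepQ V c d φ v)
    (h' : HRepQ V c d ψ w) : HRepQ V c d (φ + ψ) (v + w) := by
  intro j
  rw [ap_add, smul_add]
  exact (h j).add V (h' j)

lemma HRepQ.ext {φ ψ : Frame.lb δ ⟶ LS V n a b} {v : LM2 V.G n} (h : HRepQ V c d φ v)
    (h' : HRepQ V c d ψ v) : φ = ψ := Frame.lb_ext δ fun j => RepQ.ext V (h j) (h' j)

lemma HRepQ.unique {φ : Frame.lb δ ⟶ LS V n a b} {v w : LM2 V.G n}
    (hv : v ∈ MS V.G n (a - c) (b - d) Finset.univ Finset.univ)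
    (hw : w ∈ MS V.G n (a - c) (b - d) Finset.univ Finset.univ)
    (h : HRepQ V c d φ v) (h' : HRepQ V c d φ w) : v = w := by
  have h1 := RepQ.unique V (U_eq_fg V (0, 0))
    ((me_shift V (j := (0, 0)) (Finset.mem_univ _) (Finset.mem_univ _)).1 hv)
    ((me_shift V (j := (0, 0)) (Finset.mem_univ _) (Finset.mem_univ _)).1 hw) (h (0, 0)) (h' (0, 0))
  have h2 := congrArg (fun w : LM2 V.G n => mo V.G (-(me c d (0, 0))) • w) h1
  simpa only [mo_smul_neg] using h2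

include hδ in
lemma exists_homRQ {v : LM2 V.G n} (hv : v ∈ MS V.G n (a - c) (b - d) ∅ ∅) :
    ∃ φ : Frame.lb δ ⟶ LS V n a b, HRepQ V c d φ v := by
  have h1 : ∀ j, ∃ t : Γ(LS V n a b, (VF V).U j), RepQ V t (mo V.G (me c d j) • v) := by
    intro j
    refine exists_secQ V (U_eq_fg V j) ?_
    exact (me_shift V (mem_Is.2 ⟨0, rfl⟩) (mem_Ks.2 ⟨0, rfl⟩)).1
      (MS_mono (Finset.empty_subset _) (Finset.empty_subset _) hv)
  choose t ht using h1
  obtain ⟨φ, hφ⟩ := Frame.lb_hom δ (LS V n a b) t (by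
    intro j l
    refine RepQ.ext V ((ht l).rs V _) ?_
    have h3 := repQ_tr V hδ (le_refl _) ((ht j).rs V (inf_le_left :
      (VF V).U j ⊓ (VF V).U l ≤ _))
    rwa [ro_refl, mo_mo_smul, mtr_me] at h3)
  exact ⟨φ, fun j => by rw [hφ]; exact ht j⟩

include hδ in
lemma exists_repHQ (φ : Frame.lb δ ⟶ LS V n a b) :
    ∃ v, v ∈ MS V.G n (a - c) (b - d) ∅ ∅ ∧ HRepQ V c d φ v := by
  have h1 : ∀ j, ∃ w, w ∈ MS V.G n a b (Is (fun _ : Fin 1 => j)) (Ks (fun _ : Fin 1 => j)) ∧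
      RepQ V (ap φ _ (Frame.lbE δ j)) w := fun j => exists_repQ V (U_eq_fg V j) _
  choose w hw hr using h1
  have hw' : ∀ j, mo V.G (-(me c d j)) • w j ∈
      MS V.G n (a - c) (b - d) (Is (fun _ : Fin 1 => j)) (Ks (fun _ : Fin 1 => j)) := by
    intro j
    rw [me_shift V (j := j) (mem_Is.2 ⟨0, rfl⟩) (mem_Ks.2 ⟨0, rfl⟩), mo_neg_smul]
    exact hw j
  have h2 : ∀ j l, mo V.G (-(me c d l)) • w l = mo V.G (-(me c d j)) • w j := by
    intro j l
    have h3 : RepQ V (rs _ (inf_le_right : (VF V).U j ⊓ (VF V).U l ≤ _)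
        (ap φ _ (Frame.lbE δ l))) (mo V.G (mtr c d j l) • w j) := by
      rw [← ap_rs, Frame.lb_compat δ j l, map_smul, ap_rs]
      have h4 := repQ_tr V hδ (le_refl _) ((hr j).rs V (inf_le_left :
        (VF V).U j ⊓ (VF V).U l ≤ _))
      rwa [ro_refl] at h4
    have h5 : mo V.G (mtr c d j l) • w j = mo V.G (me c d l) • mo V.G (-(me c d j)) • w j := by
      rw [mo_mo_smul, mtr, sub_eq_add_neg]
    have h6 : w l = mo V.G (mtr c d j l) • w j := by
      refine RepQ.unique V (UU_eq_fg V j l) (I := Finset.univ) (K := Finset.univ)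
        (MS_mono (Finset.subset_univ _) (Finset.subset_univ _) (hw l)) ?_ ((hr l).rs V _) h3
      rw [h5]
      exact (me_shift V (Finset.mem_univ _) (Finset.mem_univ _)).1
        (MS_mono (Finset.subset_univ _) (Finset.subset_univ _) (hw' j))
    rw [h6, h5, mo_smul_neg]
  refine ⟨mo V.G (-(me c d (0, 0))) • w (0, 0), ?_, fun j => ?_⟩
  · -- nonnegative exponents
    have h3 : ∀ j, mo V.G (-(me c d (0, 0))) • w (0, 0) ∈
        MS V.G n (a - c) (b - d) (Is (fun _ : Fin 1 => j)) (Ks (fun _ : Fin 1 => j)) := by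
      intro j
      rw [← h2 (0, 0) j]
      exact hw' j
    have key : ∀ {a b : ℤ} {p : LP}, (∀ j : Fin 3 × Fin 3,
        p ∈ spt (Sp a b (Is (fun _ : Fin 1 => j)) (Ks (fun _ : Fin 1 => j)))) →
        p ∈ spt (Sp a b ∅ ∅) := by
      intro a b p h e he
      have hi : ∀ i : Fin 3, ∃ k : Fin 3, i ≠ k := by
        intro i
        fin_cases i
        · exact ⟨1, by decide⟩
        · exact ⟨0, by decide⟩
        · exact ⟨0, by decide⟩
      refine ⟨⟨fun i _ => ?_, (h (0, 0) e he).1.2⟩, ⟨fun i _ => ?_, (h (0, 0) e he).2.2⟩⟩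
      · obtain ⟨k, hk⟩ := hi i
        refine (h (k, 0) e he).1.1 i fun h' => ?_
        obtain ⟨_, h''⟩ := mem_Is.1 h'
        exact hk h''.symm
      · obtain ⟨k, hk⟩ := hi i
        refine (h (0, k) e he).2.1 i fun h' => ?_
        obtain ⟨_, h''⟩ := mem_Ks.1 h'
        exact hk h''.symm
    exact fun i => ⟨key fun j => (h3 j i).1, key fun j => (h3 j i).2⟩
  · rw [← h2 (0, 0) j, mo_neg_smul]
    exact hr j

end

end Run7.h164
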