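import Pool.Agent.Run7.h164.DV

set_option autoImplicit false
set_option linter.unusedVariables false
set_option linter.unusedSectionVars false

/-!
Ranks of representations of Clifford algebras of ternary quadratic forms.
-/

open Module nonZeroDivisors TensorProduct

namespace Run7.h164

noncomputable section

universe w

section Fld

variable {K : Type} [Field K] (g : Matrix (Fin 3) (Fin 3) K)

/-- The form `w ^ 2 - q v` is anisotropic. -/
def AnG (g : Fin 3 → Fin 3 → K) : Prop :=
  ∀ (w : K) (v : Fin 3 → K), w ^ 2 = ∑ k, ∑ l, g k l * (v k * v l) → v = 0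

variable {g} (hs : ∀ k l, g k l = g l k) (hg : AnG g) (h2 : (2 : K) ≠ 0)
  {i : K} (hi : i ^ 2 = -1) (hδ : ∀ s : K, s ^ 2 ≠ g.det)

include hs hg h2 hi hδ in
theorem dvd_of_an {W : Type w} [AddCommGroup W] [Module K W] [Module.Finite K W]
    (T : Fin 3 → Module.End K W)
    (hT : ∀ k l, T k * T l + T l * T k = algebraMap K _ (g k l + g l k)) : 8 ∣ finrank K W := by
  have inv2 : Invertible (2 : K) := invertibleOfNonzero h2
  let B : LinearMap.BilinForm K (Fin 3 → K) := Matrix.toBilin' g
  have hB : ∀ x y, B x y = ∑ k, ∑ l, x k * g k l * y l := fun x y => Matrix.toBilin'_apply g x y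
  have hsym : LinearMap.IsSymm B := ⟨fun x y => by
    rw [RingHom.id_apply, hB, hB, Finset.sum_comm]
    refine Finset.sum_congr rfl fun k _ => Finset.sum_congr rfl fun l _ => ?_
    rw [hs l k]
    ring⟩
  obtain ⟨b', hb'⟩ := LinearMap.BilinForm.exists_orthogonal_basis hsym
  let b : Basis (Fin 3) K (Fin 3 → K) := b'.reindex (finCongr (finrank_fin_fun K))
  have hb : ∀ i j, i ≠ j → B (b i) (b j) = 0 := by
    intro i j hij
    rw [Basis.reindex_apply, Basis.reindex_apply]
    exact hb' (fun h => hij ((finCongr (finrank_fin_fun K)).symm.injective h))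
  let d : Fin 3 → K := fun i => B (b i) (b i)
  -- the new operators
  let S : Fin 3 → Module.End K W := fun i => ∑ k, b i k • T k
  have hS : ∀ i j, S i * S j + S j * S i = algebraMap K _ (2 * B (b i) (b j)) := by
    intro i j
    have e1 : ∀ i j, S i * S j = ∑ k, ∑ l, (b i k * b j l) • (T k * T l) := by
      intro i j
      change (∑ k, b i k • T k) * (∑ k, b j k • T k) = _
      rw [Finset.sum_mul_sum]
      refine Finset.sum_congr rfl fun k _ => Finset.sum_congr rfl fun l _ => ?_
      rw [smul_mul_smul_comm]
    rw [e1 i j, e1 j i, Finset.sum_comm (f := fun k l => (b j k * b i l) • (T k * T l)),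
      ← Finset.sum_add_distrib, hB, Finset.mul_sum, map_sum]
    refine Finset.sum_congr rfl fun k _ => ?_
    rw [← Finset.sum_add_distrib, Finset.mul_sum, map_sum]
    refine Finset.sum_congr rfl fun l _ => ?_
    rw [mul_comm (b j l), ← smul_add, hT, ← hs k l, Algebra.smul_def, ← map_mul]
    congr 1
    ring
  have hSS : ∀ i, S i * S i = algebraMap K _ (d i) := by
    intro i
    have h := hS i i
    rw [map_mul, map_ofNat, ← two_mul] at h
    have h3 : (2 : K) • (S i * S i) = (2 : K) • algebraMap K (Module.End K W) (d i) := by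
      rw [two_smul, two_smul, ← two_mul, ← two_mul]
      exact h
    exact (smul_right_injective _ h2) h3
  have hST : ∀ i j, i ≠ j → S i * S j + S j * S i = 0 := by
    intro i j hij
    rw [hS, hb i j hij, mul_zero, map_zero]
  let R : Rp3 (d 0) (d 1) (d 2) W :=
    { A := S 0
      B := S 1
      C := S 2
      hA := hSS 0
      hB := hSS 1
      hC := hSS 2
      hAB := hST 0 1 (by decide)
      hAC := hST 0 2 (by decide)
      hBC := hST 1 2 (by decide) }
  have hd : AnD (d 0) (d 1) (d 2) := by
    intro w x y z hw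
    let v : Fin 3 → K := x • b 0 + y • b 1 + z • b 2
    have h01 := hb 0 1 (by decide)
    have h02 := hb 0 2 (by decide)
    have h12 := hb 1 2 (by decide)
    have h10 := hb 1 0 (by decide)
    have h20 := hb 2 0 (by decide)
    have h21 := hb 2 1 (by decide)
    have hv : B v v = d 0 * x ^ 2 + d 1 * y ^ 2 + d 2 * z ^ 2 := by
      change B (x • b 0 + y • b 1 + z • b 2) (x • b 0 + y • b 1 + z • b 2) = _
      simp only [map_add, map_smul, LinearMap.add_apply, LinearMap.smul_apply, smul_eq_mul,
        h01, h02, h12, h10, h20, h21]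
      ring
    have h0 : v = 0 := by
      apply hg w v
      rw [hw, ← hv, hB]
      exact Finset.sum_congr rfl fun k _ => Finset.sum_congr rfl fun l _ => by ring
    have h1 := b.linearIndependent
    rw [Fintype.linearIndependent_iff] at h1
    have h3 := h1 ![x, y, z] (by
      rw [Fin.sum_univ_three]
      exact h0)
    exact ⟨h3 0, h3 1, h3 2⟩
  have hdd : ∀ s : K, s ^ 2 ≠ -(d 0 * d 1 * d 2) := by
    intro s hs'
    let P : Matrix (Fin 3) (Fin 3) K := Matrix.of fun i k => b i k
    have hP : P.det ≠ 0 := by
      have h1 : IsUnit P := Matrix.linearIndependent_rows_iff_isUnit.1 b.linearIndependent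
      rw [Matrix.isUnit_iff_isUnit_det] at h1
      exact h1.ne_zero
    have h3 : P * g * P.transpose = Matrix.diagonal d := by
      ext i j
      rw [Matrix.mul_apply]
      have h4 : ∑ l, (P * g) i l * P.transpose l j = B (b i) (b j) := by
        rw [hB, Finset.sum_comm]
        refine Finset.sum_congr rfl fun l _ => ?_
        rw [Matrix.mul_apply, Finset.sum_mul]
        rfl
      rw [h4]
      by_cases hij : i = j
      · subst hij
        rw [Matrix.diagonal_apply_eq]
      · rw [Matrix.diagonal_apply_ne _ hij, hb i j hij]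
    have h5 := congrArg Matrix.det h3
    rw [Matrix.det_mul, Matrix.det_mul, Matrix.det_transpose, Matrix.det_diagonal,
      Fin.prod_univ_three] at h5
    apply hδ (i * s / P.det)
    rw [div_pow, mul_pow, hi, hs']
    field_simp
    linear_combination -h5
  exact Rp3.dvd hd h2 hdd _ W R rfl

end Fld

section Dom

variable {R : Type} [CommRing R] [IsDomain R] (K : Type) [Field K] [Algebra R K]
  [IsFractionRing R K] {g : Fin 3 → Fin 3 → R}

/-- Divisibility of ranks. -/
theorem dvd_rank (hs : ∀ k l, g k l = g l k)
    (hg : AnG fun k l => algebraMap R K (g k l)) (h2 : (2 : K) ≠ 0)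
    {i : K} (hi : i ^ 2 = -1)
    (hδ : ∀ s : K, s ^ 2 ≠ (Matrix.of fun k l => algebraMap R K (g k l)).det)
    {H : Type w} [AddCommGroup H] [Module R H] [Module.Finite R H] (T : Fin 3 → Module.End R H)
    (hT : ∀ k l, T k * T l + T l * T k = algebraMap R _ (g k l + g l k)) : 8 ∣ finrank R H := by
  have e1 : finrank K (K ⊗[R] H) = finrank R H := by
    rw [IsLocalization.finrank_eq K R⁰ le_rfl]
    exact IsLocalizedModule.finrank_eq R⁰ (TensorProduct.mk R K H 1) le_rfl
  rw [← e1]
  refine dvd_of_an (g := Matrix.of fun k l => algebraMap R K (g k l)) (fun k l => by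
    change algebraMap R K (g k l) = algebraMap R K (g l k)
    rw [hs k l]) hg h2 hi hδ (fun k => LinearMap.baseChange K (T k)) ?_
  intro k l
  have h1 := congrArg (LinearMap.baseChange K) (hT k l)
  rw [LinearMap.baseChange_add, LinearMap.baseChange_mul, LinearMap.baseChange_mul] at h1
  rw [h1]
  ext x
  change (1 : K) ⊗ₜ[R] ((g k l + g l k) • x) = (algebraMap R K (g k l) + algebraMap R K (g l k)) •
    ((1 : K) ⊗ₜ[R] x)
  rw [← map_add, algebraMap_smul, TensorProduct.tmul_smul]

end Dom

end

end Run7.h164
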