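import Pool.Agent.Run7.h164.EC
import Pool.Agent.Run7.h164.DW

set_option autoImplicit false
set_option linter.unusedVariables false
set_option linter.unusedSectionVars false

/-!
Divisibility of Euler characteristics.
-/

open CategoryTheory Limits TopologicalSpace AlgebraicGeometry Opposite Pretriangulated
open Module

namespace Run7.h164

noncomputable section

set_option backward.isDefEq.respectTransparency false

open Pool.Agent.W506 Pool.Agent.N212
open Pool.Agent.R924 (DD Frame sg DCoh)

attribute [local instance] HasDerivedCategory.standard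

variable {V : Verra} {sd : Bool} {m : ℤ}

/-- The ring of polynomials in two variables. -/
abbrev R2 : Type := Polynomial (Polynomial ℂ)

/-- The field of rational functions in two variables. -/
abbrev K2 : Type := FractionRing R2

/-- The coefficients of the generic quadratic form. -/
def gG (V : Verra) (sd : Bool) (k l : Fin 3) : R2 := gk V.G sd aG k l

/-- The quadric surface fibration has no rational section. -/
def NoSec (V : Verra) (sd : Bool) : Prop := AnG fun k l => algebraMap R2 K2 (gG V sd k l)

/-- The discriminant is not a square. -/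
def NoSq (V : Verra) (sd : Bool) : Prop :=
  ∀ s : K2, s ^ 2 ≠ (Matrix.of fun k l => algebraMap R2 K2 (gG V sd k l)).det

/-- The action of the Clifford algebra. -/
def tH (sd : Bool) (E : DerivedCategory (VX V).Modules) (m i : ℤ) (k : Fin 3) :
    Module.End R2 (HM V E (V8 V.G sd aG) m i) where
  toFun := hmap V (V8H V.G sd aG k) E m i
  map_add' := map_add _
  map_smul' r x := hmap_smul V (V8H V.G sd aG k) (fun v => map_smul (V8L V.G sd aG k) r v) x

lemma tH_rel (E : DerivedCategory (VX V).Modules) (i : ℤ) (k l : Fin 3) :
    tH sd E m i k * tH sd E m i l + tH sd E m i l * tH sd E m i k =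
      algebraMap R2 _ (gG V sd k l + gG V sd l k) := by
  apply LinearMap.ext
  intro x
  change hmap V (V8H V.G sd aG k) E m i (hmap V (V8H V.G sd aG l) E m i x) +
    hmap V (V8H V.G sd aG l) E m i (hmap V (V8H V.G sd aG k) E m i x) =
      (gG V sd k l + gG V sd l k) • x
  rw [← hmap_comp, ← hmap_comp, ← hmap_add, smulH_def]
  exact hmap_ext V (fun v => LinearMap.congr_fun (V8L_rel V.G sd aG k l) v) x

lemma gk_symm {A₀ : Type} [CommRing A₀] [Algebra ℂ A₀] (V : Verra) (sd : Bool) (a : Fin 3 → A₀)
    (k l : Fin 3) : gk V.G sd a k l = gk V.G sd a l k := by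
  rw [gk, gk]
  refine Finset.sum_congr rfl fun i _ => Finset.sum_congr rfl fun j _ => ?_
  congr 1
  cases sd
  · exact V.symm₂ i j k l
  · exact V.symm₁ k l i j

/-- Euler characteristics are divisible by eight. -/
theorem chi_dvd (h1 : NoSec V sd) (h2 : NoSq V sd) {E : DerivedCategory (VX V).Modules}
    (hE : FinH V (V8 V.G sd aG) m E) : (8 : ℤ) ∣ chiH V E (V8 V.G sd aG) m := by
  have h3 : ∀ i, 8 ∣ finrank R2 (HM V E (V8 V.G sd aG) m i) := by
    intro i
    have := hE.fin i
    have hI : (algebraMap ℂ K2 Complex.I) ^ 2 = -1 := by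
      rw [← map_pow, Complex.I_sq, map_neg, map_one]
    have h2' : (2 : K2) ≠ 0 := two_ne_zero
    exact dvd_rank K2 (fun k l => gk_symm V sd aG k l) h1 h2' hI h2 (tH sd E m i)
      (tH_rel E i)
  choose s hs using h3
  rw [chiH]
  refine ⟨chiZ fun i => (s i : ℤ), ?_⟩
  rw [← chiZ_mul]
  congr 1
  funext i
  rw [hs i]
  push_cast
  rfl

end

end Run7.h164
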