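import Pool.Agent.Run7.h164.CO
import Pool.Agent.Run7.h164.ED

set_option autoImplicit false
set_option linter.unusedVariables false
set_option linter.unusedSectionVars false

/-!
The Kuznetsov component.
-/

open CategoryTheory Limits TopologicalSpace AlgebraicGeometry Opposite Pretriangulated
open Module

namespace Run7.h164

noncomputable section

set_option backward.isDefEq.respectTransparency false

open Pool.Agent.W506 Pool.Agent.N212
open Pool.Agent.R924 (DD Frame sg DCoh CohAll hhSingle)
open Pool.Agent.W456 (Hh)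

attribute [local instance] HasDerivedCategory.standard

lemma dCoh_sg {X : Scheme.{0}} {N : X.Modules} (h : CohAll N) : DCoh (sg N) where
  coh i := by
    by_cases hi : i = 0
    · subst hi
      exact h.of_iso (hhSingle N 0).symm
    · apply Pool.Agent.R924.cohAll_of_isZero
      rcases lt_or_gt_of_ne hi with h' | h'
      · exact (sg N).isZero_of_isGE 0 i h'
      · exact (sg N).isZero_of_isLE 0 i h'
  bdd := ⟨0, 1, fun i hi => (sg N).isZero_of_isGE 0 i hi,
    fun i hi => (sg N).isZero_of_isLE 0 i (by push_cast at hi; omega)⟩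

/-- The line bundle `O(p, q)`. -/
def OL (V : Verra) (p q : ℤ) : (VX V).Modules := Frame.lb (xiD V ^ p * etD V ^ q)

/-- The objects of the Kuznetsov component: bounded complexes with coherent cohomology without
morphisms from shifts of `O(p, q)` for `p, q` in `{0, 1}`. -/
def KuP (V : Verra) : ObjectProperty (DerivedCategory (VX V).Modules) := fun E =>
  DCoh E ∧ ∀ p q : ℤ, (p = 0 ∨ p = 1) → (q = 0 ∨ q = 1) → ∀ (i : ℤ) (f : sg (OL V p q) ⟶ E⟦i⟧),
    f = 0

variable {V : Verra} {sd : Bool} {a : Fin 3 → ℂ}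

lemma dgL_neg {M : CM V.G sd a} {n : ℤ} (hn : n < 0) {l : LM M} (hl : l ∈ dgL M n) : l = 0 := by
  refine co_ext fun e => ?_
  by_contra h
  obtain ⟨h1, h2⟩ := hl e h
  have h3 : 0 ≤ ∑ i, e i := Finset.sum_nonneg fun i _ => h1 i
  omega

lemma dCoh_tS (M : CM V.G sd a) [Module.Finite ℂ M.C] (ha : a 0 = 1) (m : ℤ) :
    DCoh (tS M m) := dCoh_sg (cohAll_til ha)

/-- The objects given by points belong to the Kuznetsov component. -/
theorem ku_tS (M : CM V.G sd a) [Module.Finite ℂ M.C] (ha : a 0 = 1) : KuP V (tS M (-1)) := by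
  refine ⟨dCoh_tS M ha _, fun p q hp hq i f => ?_⟩
  have hb : dD sd p q = 0 ∨ dD sd p q = 1 := by
    cases sd
    · exact hq
    · exact hp
  have hδ : ShD V sd (xiD V ^ p * etD V ^ q) (dD sd p q) := shD_line V p q
  by_cases hi : i = 0
  · subst hi
    apply (lbA V M (-1) ha hδ).injective
    rw [map_zero]
    exact Subtype.ext (dgL_neg (by omega) (lbA V M (-1) ha hδ f).2)
  · exact hom_til_eq_zero V ha hδ (by omega) hi f

/-- Euler characteristics are even. -/
theorem even_rh {α β : ℂ} (h1 : NoSec V sd) (h2 : NoSq V sd) (D : LMd sd V.G (pt3 α β))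
    {E : DerivedCategory (VX V).Modules} (hE : DCoh E) : Even (eu E (tS (rhM D) (-1))) := by
  have e1 := eu_V8 D (pt3_zero α β) (by norm_num : (-2 : ℤ) ≤ -1) hE
  rw [eu_const (by norm_num) hE] at e1
  obtain ⟨k, hk⟩ := chi_dvd (m := -1) h1 h2 (finH_of_dCoh (V8 V.G sd aG) aG_zero (by norm_num) hE)
  rw [hk] at e1
  exact ⟨k, by linarith⟩

end

end Run7.h164
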