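import Pool.Agent.Run7.h164.CG
import Pool.Agent.Run7.h164.KU

set_option autoImplicit false
set_option linter.unusedVariables false
set_option linter.unusedSectionVars false

/-!
Comparison of the two descriptions of line bundles.
-/

open CategoryTheory Limits TopologicalSpace AlgebraicGeometry Opposite TopCat

namespace Run7.h164

noncomputable section

set_option backward.isDefEq.respectTransparency false

open Pool.Agent.W506 Pool.Agent.N212
open Pool.Agent.R924 (DD Frame sg fr)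

section Poly

variable {G : Fin 3 → Fin 3 → Fin 3 → Fin 3 → ℂ}

lemma iB_inj : Function.Injective iB := by
  exact AddMonoidAlgebra.mapDomain_injective eG_inj

lemma exists_Gm {m : ℕ} {e : E2} (he : e ∈ Sp m m ∅ ∅) : ∃ g : Gm, dg g = m ∧ eG g = e := by
  obtain ⟨⟨h1, h2⟩, h3, h4⟩ := he
  have e1 : ∀ i, ((e.1 i).toNat : ℤ) = e.1 i := fun i => Int.toNat_of_nonneg
    (h1 i (Finset.notMem_empty i))
  have e2 : ∀ i, ((e.2 i).toNat : ℤ) = e.2 i := fun i => Int.toNat_of_nonneg
    (h3 i (Finset.notMem_empty i))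
  have s1 : ∑ i, (e.1 i).toNat = m := by
    have : ((∑ i, (e.1 i).toNat : ℕ) : ℤ) = m := by
      push_cast
      rw [← h2]
      exact Finset.sum_congr rfl fun i _ => e1 i
    exact_mod_cast this
  have s2 : ∑ i, (e.2 i).toNat = m := by
    have : ((∑ i, (e.2 i).toNat : ℕ) : ℤ) = m := by
      push_cast
      rw [← h4]
      exact Finset.sum_congr rfl fun i _ => e2 i
    exact_mod_cast this
  refine ⟨⟨(fun i => (e.1 i).toNat, fun i => (e.2 i).toNat), s1.trans s2.symm⟩, s1, ?_⟩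
  exact Prod.ext (funext e1) (funext e2)

lemma exists_iB {m : ℕ} {p : LP} (hp : p ∈ spt (Sp m m ∅ ∅)) : ∃ q ∈ bg m, iB q = p := by
  classical
  have h0 : ∀ e, ∃ q ∈ bg m, iB q = AddMonoidAlgebra.single e (p.coeff e) := by
    intro e
    by_cases he : p.coeff e = 0
    · refine ⟨0, zero_mem _, ?_⟩
      rw [he, map_zero]
      exact (AddMonoidAlgebra.single_zero e).symm
    · obtain ⟨g, hg, rfl⟩ := exists_Gm (hp e he)
      exact ⟨AddMonoidAlgebra.single g (p.coeff (eG g)), Pool.Agent.R924.mo_mem hg _, iB_single _ _⟩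
  choose q hq hq' using h0
  refine ⟨∑ e ∈ p.coeff.support, q e, sum_mem fun e _ => hq e, ?_⟩
  rw [map_sum]
  simp only [hq']
  have := AddMonoidAlgebra.sum_coeff_single p
  rw [Finsupp.sum] at this
  exact this

lemma Sp_neg {a b : ℤ} (h : a < 0 ∨ b < 0) {e : E2} (he : e ∈ Sp a b ∅ ∅) : False := by
  obtain ⟨⟨h1, h2⟩, h3, h4⟩ := he
  have s1 : 0 ≤ ∑ i, e.1 i := Finset.sum_nonneg fun i _ => h1 i (Finset.notMem_empty i)
  have s2 : 0 ≤ ∑ i, e.2 i := Finset.sum_nonneg fun i _ => h3 i (Finset.notMem_empty i)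
  omega

lemma spt_neg {a b : ℤ} (h : a < 0 ∨ b < 0) {p : LP} (hp : p ∈ spt (Sp a b ∅ ∅)) : p = 0 := by
  apply AddMonoidAlgebra.coeff_injective
  ext e
  by_contra he
  exact Sp_neg h (hp e he)

lemma exists_iR {m : ℕ} {z : QL G} (hz : z ∈ QS G m m ∅ ∅) : ∃ r ∈ rg G m, iR G r = z := by
  obtain ⟨q, hq, hq'⟩ := exists_iB hz.1
  cases m with
  | zero =>
    refine ⟨⟨q, 0⟩, ⟨hq, zero_mem _⟩, QuadraticAlgebra.ext hq' ?_⟩
    change iB 0 = _
    rw [map_zero, spt_neg (Or.inl (by norm_num)) hz.2]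
  | succ m =>
    have e : ((m + 1 : ℕ) : ℤ) - 1 = m := by push_cast; ring
    have h1 := hz.2
    rw [e] at h1
    obtain ⟨q', h2, h3⟩ := exists_iB h1
    exact ⟨⟨q, q'⟩, ⟨hq, h2⟩, QuadraticAlgebra.ext hq' h3⟩

lemma iR_inj : Function.Injective (iR G) := by
  intro z w h
  refine QuadraticAlgebra.ext ?_ ?_
  · exact iB_inj (congrArg QuadraticAlgebra.re h)
  · exact iB_inj (congrArg QuadraticAlgebra.im h)

end Poly

variable {V : Verra} {a b : ℤ}

/-- The constant one. -/
def oneM (V : Verra) : LM2 V.G 1 := fun _ => 1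

lemma oneM_mem : oneM V ∈ MS V.G 1 0 0 ∅ ∅ := by
  intro i
  refine ⟨?_, zero_mem _⟩
  have h : (0 : E2) ∈ Sp 0 0 ∅ ∅ :=
    ⟨⟨fun i _ => le_rfl, Finset.sum_const_zero⟩, ⟨fun i _ => le_rfl, Finset.sum_const_zero⟩⟩
  exact single_mem h 1

lemma smul_oneM (z : QL V.G) : z • oneM V = (fun _ => z : Fin 1 → QL V.G) := by
  funext i
  exact mul_one z

lemma smul_mo_inj {r : RF V.G} {e : E2} (h : r • mo V.G e • oneM V = 0) : r = 0 := by
  have h1 : mo V.G (-e) • r • mo V.G e • oneM V = 0 := by rw [h, smul_zero]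
  rw [rsmul_def, smul_smul, smul_smul, mul_comm (mo V.G (-e)), mul_assoc, ← mo_add,
    neg_add_cancel, mo_zero, mul_one, smul_oneM] at h1
  have h2 : iR V.G r = 0 := congrFun h1 0
  exact iR_inj (h2.trans (map_zero _).symm)

lemma fv_ext {U : (VX V).Opens} {f g : Γ(VX V, U)}
    (h : ∀ (x : ProjectiveSpectrum.top (rg V.G)) (hx : x ∈ U), fv f x hx = fv g x hx) : f = g :=
  Subtype.ext (funext fun x => h x.1 x.2)

/-- Annihilators of monomials. -/
lemma fv_eq_zero {U : (VX V).Opens} (f : Γ(VX V, U)) (x : ProjectiveSpectrum.top (rg V.G))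
    (hx : x ∈ U) {e : E2} (h : (fv f x hx).val • (LocalizedModule.mk (S := Pool.Agent.N212.pc x)
      (show (NL V.G 1 a b).M from mo V.G e • oneM V) 1 : Lo (NL V.G 1 a b) x) = 0) :
    fv f x hx = 0 := by
  apply HomogeneousLocalization.val_injective
  rw [HomogeneousLocalization.val_zero]
  revert h
  generalize (fv f x hx).val = u
  induction u using Localization.induction_on with
  | H p =>
    obtain ⟨z, s⟩ := p
    intro h
    rw [mk_smul_mk'] at h
    rw [← LocalizedModule.zero_mk (1 : Pool.Agent.N212.pc x), LocalizedModule.mk_eq] at h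
    obtain ⟨c, hc⟩ := h
    have h1 : (c : RF V.G) • (1 : RF V.G) • z • (mo V.G e • oneM V) = 0 := by
      refine Eq.trans hc ?_
      rw [smul_zero, smul_zero]
    rw [one_smul, smul_smul] at h1
    have h2 := smul_mo_inj h1
    have h3 : z = 0 := by
      refine (mul_eq_zero.1 h2).resolve_left fun h4 => ?_
      have h5 : (c : RF V.G) ∈ Pool.Agent.N212.pc x := c.2
      rw [h4] at h5
      exact h5 (zero_mem _)
    rw [h3]
    exact Localization.mk_zero s

/-- The line bundle in terms of graded modules. -/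
theorem exists_isoLS (a b : ℤ) : Nonempty (OL V a b ≅ LS V 1 a b) := by
  have hδ := shQ_line V a b
  obtain ⟨φ, hφ⟩ := exists_homRQ V hδ (n := 1) (a := a) (b := b) (v := oneM V) (by
    rw [sub_self, sub_self]
    exact oneM_mem)
  have hm : Mono φ := by
    apply mono_of_ap_injective
    intro W s t hst
    rw [← sub_eq_zero]
    have h0 : ap φ W (s - t) = 0 := by rw [map_sub, hst, sub_self]
    generalize s - t = s at h0
    apply ext_rs_of_mem
    intro x hx
    obtain ⟨j, hj⟩ := (VF V).cover x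
    refine ⟨W ⊓ (VF V).U j, inf_le_left, ⟨hx, hj⟩, ?_⟩
    obtain ⟨f, hf⟩ := (Frame.isGen_lbE (xiD V ^ a * etD V ^ b) j).exists_smul
      (inf_le_right : W ⊓ (VF V).U j ≤ _) (rs _ inf_le_left s)
    have h1 : f • rs _ (inf_le_right : W ⊓ (VF V).U j ≤ _)
        (ap φ _ (Frame.lbE (xiD V ^ a * etD V ^ b) j)) = 0 := by
      rw [← ap_rs, ← map_smul, hf, ap_rs, h0, map_zero]
    have h2 : f = 0 := by
      apply fv_ext
      intro y hy
      have h3 := congrArg (fun z => vl z y hy) h1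
      change vl _ y hy = vl 0 y hy at h3
      rw [vl_smul, (hφ j).rs V _ y hy, vl_zero] at h3
      exact fv_eq_zero f y hy h3
    rw [← hf, h2, zero_smul, map_zero]
  have he : Epi φ := by
    apply epi_of_locally_surj
    intro U s x hx
    obtain ⟨j, hj⟩ := (VF V).cover x
    obtain ⟨W, hW, hxW, n, m', α, h2, h3, h4⟩ := exists_frac s x hx
    have h2' : (show LM2 V.G 1 from m') ∈ MS V.G 1 ((n : ℤ) + 0 + a) ((n : ℤ) + 0 + b) ∅ ∅ := h2
    let k : ℕ := a.natAbs + b.natAbs
    let t : E2 := ((k : ℤ) • ue j.1 - a • ue j.1, (k : ℤ) • ue j.2 - b • ue j.2)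
    have hs : ∀ (c : ℤ) (i : Fin 3), sm (c • ue i) = c := by
      intro c i
      change ∑ l, (c • ue i) l = c
      simp only [Pi.smul_apply, smul_eq_mul, ← Finset.mul_sum, sum_ue, mul_one]
    have hz : mo V.G t • (show LM2 V.G 1 from m') ∈ MS V.G 1 ((n + k : ℕ) : ℤ)
        ((n + k : ℕ) : ℤ) ∅ ∅ := by
      refine mo_mem_MS' V h2' ?_ ?_ le_rfl le_rfl ?_ ?_
      · change sm ((k : ℤ) • ue j.1 - a • ue j.1) + _ = _
        rw [sub_eq_add_neg, sm_add, sm_neg, hs, hs]
        push_cast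
        ring
      · change sm ((k : ℤ) • ue j.2 - b • ue j.2) + _ = _
        rw [sub_eq_add_neg, sm_add, sm_neg, hs, hs]
        push_cast
        ring
      · intro i _
        change 0 ≤ (k : ℤ) * ue j.1 i - a * ue j.1 i
        rw [← sub_mul]
        exact mul_nonneg (by omega) (ue_nonneg _ _)
      · intro i _
        change 0 ≤ (k : ℤ) * ue j.2 i - b * ue j.2 i
        rw [← sub_mul]
        exact mul_nonneg (by omega) (ue_nonneg _ _)
    obtain ⟨r, hr, hr'⟩ := exists_iR (hz 0)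
    have hd : α * gg V j ^ k ∈ rg V.G (n + k) := by
      have h5 := SetLike.pow_mem_graded k (gg_mem V j)
      rw [smul_eq_mul, mul_one] at h5
      exact SetLike.mul_mem_graded h3 h5
    have hle : W ⊓ (VF V).U j ≤ DD (rg V.G) (α * gg V j ^ k) := fun y hy =>
      (Pool.Agent.N212.pc (𝒜 := rg V.G) y).mul_mem (h4 y hy.1).choose
        ((Pool.Agent.N212.pc (𝒜 := rg V.G) y).pow_mem hy.2 k)
    have hr1 : r ∈ rg V.G (1 * (n + k)) := by rw [one_mul]; exact hr
    refine ⟨W ⊓ (VF V).U j, inf_le_left.trans hW, ⟨hxW, hj⟩,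
      ro hle (fr hd 1 r hr1) • rs _ inf_le_right (Frame.lbE (xiD V ^ a * etD V ^ b) j), ?_⟩
    rw [map_smul, ap_rs]
    apply vl_ext
    intro y hy
    obtain ⟨h5, h6⟩ := h4 y hy.1
    have h7 : vl (rs (LS V 1 a b) (inf_le_left.trans hW : W ⊓ (VF V).U j ≤ U) s) y hy =
        LocalizedModule.mk m' ⟨α, h5⟩ := h6
    rw [h7, vl_smul, (hφ j).rs V _ y hy, fv_ro, fv_fr, mk_smul_mk', LocalizedModule.mk_eq]
    refine ⟨1, ?_⟩
    change (1 : RF V.G) • α • r • (mo V.G (me a b j) • oneM V) =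
      (1 : RF V.G) • ((α * gg V j ^ k) ^ 1 * 1) • (show LM2 V.G 1 from m')
    rw [one_smul, one_smul, pow_one, mul_one, mul_smul]
    congr 1
    have h8 : gg V j ^ k • (show LM2 V.G 1 from m') =
        mo V.G (k • (ue j.1, ue j.2)) • (show LM2 V.G 1 from m') := by
      rw [rsmul_def, map_pow, iR_gg, mo_nsmul]
    have h9 : r • (mo V.G (me a b j) • oneM V) =
        mo V.G (me a b j) • mo V.G t • (show LM2 V.G 1 from m') := by
      rw [rsmul_def, hr', smul_smul, mul_comm]
      funext i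
      rw [Subsingleton.elim i 0]
      change mo V.G (me a b j) * (mo V.G t * (show Fin 1 → QL V.G from m') 0) * 1 =
        mo V.G (me a b j) * (mo V.G t * (show Fin 1 → QL V.G from m') 0)
      rw [mul_one]
    rw [h8, h9, mo_mo_smul]
    congr 2
    refine Prod.ext ?_ ?_
    · change a • ue j.1 + ((k : ℤ) • ue j.1 - a • ue j.1) = k • ue j.1
      rw [add_sub_cancel, natCast_zsmul]
    · change b • ue j.2 + ((k : ℤ) • ue j.2 - b • ue j.2) = k • ue j.2
      rw [add_sub_cancel, natCast_zsmul]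
  have : IsIso φ := isIso_of_mono_of_epi φ
  exact ⟨asIso φ⟩

end

end Run7.h164
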