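import Pool.Agent.Run7.h164.CH

set_option autoImplicit false
set_option linter.unusedVariables false
set_option linter.unusedSectionVars false

/-!
Spaces of morphisms between line bundles.
-/

open CategoryTheory Limits TopologicalSpace AlgebraicGeometry Opposite TopCat Module

namespace Run7.h164

noncomputable section

set_option backward.isDefEq.respectTransparency false

open Pool.Agent.W506 Pool.Agent.N212
open Pool.Agent.R924 (DD Frame sg)

attribute [local instance] HasDerivedCategory.standard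

variable {V : Verra} {n : ℕ} {a b : ℤ}

instance (G : Fin 3 → Fin 3 → Fin 3 → Fin 3 → ℂ) (n : ℕ) : SMulCommClass ℂ (QL G) (LM2 G n) :=
  inferInstanceAs (SMulCommClass ℂ (QL G) (Fin n → QL G))

/-- Morphisms of degree zero. -/
def hzL (L N : (VX V).Modules) : (sg L ⟶ (sg N)⟦(0 : ℤ)⟧) ≃ₗ[ℂ] (L ⟶ N) :=
  { hz L N with
    map_smul' := fun c x => by
      have h1 : c • x = x ≫ ((DerivedCategory.singleFunctor (VX V).Modules 0).map
          (c • 𝟙 N))⟦(0 : ℤ)⟧' := by
        rw [Functor.map_smul, Functor.map_smul, CategoryTheory.Functor.map_id,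
          CategoryTheory.Functor.map_id, Linear.comp_smul, Category.comp_id]
      change hz L N (c • x) = c • hz L N x
      rw [h1]
      refine (hz_comp x (c • 𝟙 N)).trans ?_
      rw [Linear.comp_smul, Category.comp_id] }

lemma ap_smulC {M N : (VX V).Modules} (c : ℂ) (φ : M ⟶ N) {U : (VX V).Opens} (s : Γ(M, U)) :
    ap (c • φ) U s = ro (le_top : U ≤ ⊤) (kS V c) • ap φ U s := by
  change φ.app U ((Pool.Agent.W456.smulEnd (kS V c) M).app U s) = _
  rw [Pool.Agent.W456.smulEnd_app, Scheme.Modules.Hom.app_smul]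
  rfl

variable {δ : (VF V).Div} {c d : ℤ} (hδ : ShQ V δ c d)

/-- Morphisms as vectors of polynomials. -/
def homQ (n : ℕ) (a b : ℤ) : (Frame.lb δ ⟶ LS V n a b) ≃ₗ[ℂ] MS V.G n (a - c) (b - d) ∅ ∅ where
  toFun φ := ⟨(exists_repHQ V hδ φ).choose, (exists_repHQ V hδ φ).choose_spec.1⟩
  invFun T := (exists_homRQ V hδ T.2).choose
  left_inv φ := HRepQ.ext V (exists_homRQ V hδ (exists_repHQ V hδ φ).choose_spec.1).choose_spec
    (exists_repHQ V hδ φ).choose_spec.2
  right_inv T := Subtype.ext (HRepQ.unique V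
    (MS_mono (Finset.empty_subset _) (Finset.empty_subset _) (exists_repHQ V hδ _).choose_spec.1)
    (MS_mono (Finset.empty_subset _) (Finset.empty_subset _) T.2)
    (exists_repHQ V hδ _).choose_spec.2 (exists_homRQ V hδ T.2).choose_spec)
  map_add' φ ψ := Subtype.ext (HRepQ.unique V
    (MS_mono (Finset.empty_subset _) (Finset.empty_subset _)
      (exists_repHQ V hδ (φ + ψ)).choose_spec.1)
    (MS_mono (Finset.empty_subset _) (Finset.empty_subset _)
      (add_mem (exists_repHQ V hδ φ).choose_spec.1 (exists_repHQ V hδ ψ).choose_spec.1))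
    (exists_repHQ V hδ (φ + ψ)).choose_spec.2
    ((exists_repHQ V hδ φ).choose_spec.2.add V (exists_repHQ V hδ ψ).choose_spec.2))
  map_smul' z φ := Subtype.ext (HRepQ.unique V
    (MS_mono (Finset.empty_subset _) (Finset.empty_subset _)
      (exists_repHQ V hδ (z • φ)).choose_spec.1)
    (MS_mono (Finset.empty_subset _) (Finset.empty_subset _)
      (Submodule.smul_mem _ z (exists_repHQ V hδ φ).choose_spec.1))
    (exists_repHQ V hδ (z • φ)).choose_spec.2 (fun j => by
      rw [ap_smulC]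
      have h1 := ((exists_repHQ V hδ φ).choose_spec.2 j).kS V z
      rwa [smul_comm] at h1))

lemma homQ_rep (φ : Frame.lb δ ⟶ LS V n a b) : HRepQ V c d φ (homQ hδ n a b φ).1 :=
  (exists_repHQ V hδ φ).choose_spec.2

lemma homQ_unique (φ : Frame.lb δ ⟶ LS V n a b) {v : LM2 V.G n}
    (hv : v ∈ MS V.G n (a - c) (b - d) ∅ ∅) (h : HRepQ V c d φ v) : (homQ hδ n a b φ).1 = v :=
  HRepQ.unique V
    (MS_mono (Finset.empty_subset _) (Finset.empty_subset _) (homQ hδ n a b φ).2)
    (MS_mono (Finset.empty_subset _) (Finset.empty_subset _) hv) (homQ_rep hδ φ) h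

/-! ### Dimensions -/

/-- Coefficients as linear maps. -/
def cfLl (i : Fin n) (p : Bool) (e : E2) : LM2 V.G n →ₗ[ℂ] ℂ where
  toFun := cfL i p e
  map_add' := map_add _
  map_smul' c v := by
    cases p <;> rfl

lemma Sp_finite (a b : ℤ) : (Sp a b ∅ ∅).Finite := by
  refine ((exS_finite a).prod (exS_finite b)).subset ?_
  rintro e ⟨⟨h1, h2⟩, h3, h4⟩
  exact ⟨⟨fun i => h1 i (Finset.notMem_empty i), h2⟩, ⟨fun i => h3 i (Finset.notMem_empty i), h4⟩⟩

instance finite_MS (n : ℕ) (a b : ℤ) : Module.Finite ℂ (MS V.G n a b ∅ ∅) := by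
  let S : Set E2 := Sp a b ∅ ∅ ∪ Sp (a - 1) (b - 1) ∅ ∅
  have hS : S.Finite := (Sp_finite a b).union (Sp_finite (a - 1) (b - 1))
  have : Finite S := hS.to_subtype
  let f : MS V.G n a b ∅ ∅ →ₗ[ℂ] (Fin n × Bool × S → ℂ) :=
    LinearMap.pi fun x => (cfLl x.1 x.2.1 x.2.2.1).comp (MS V.G n a b ∅ ∅).subtype
  refine Module.Finite.of_injective f ?_
  rw [injective_iff_map_eq_zero]
  rintro ⟨v, hv⟩ h
  apply Subtype.ext
  refine cfL_ext fun i p e => ?_
  by_contra he
  have hmem : e ∈ S := by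
    cases p with
    | false => exact Or.inl ((hv i).1 e he)
    | true => exact Or.inr ((hv i).2 e he)
  exact he (congrFun h (i, p, ⟨e, hmem⟩))

lemma MS_neg (h : a < 0 ∨ b < 0) {v : LM2 V.G n} (hv : v ∈ MS V.G n a b ∅ ∅) : v = 0 := by
  funext i
  refine QuadraticAlgebra.ext ?_ ?_
  · exact spt_neg h (hv i).1
  · exact spt_neg (by omega) (hv i).2

include hδ in
/-- Finiteness for line bundles. -/
theorem fe_LS (ha : -1 ≤ a - c) (hb : -1 ≤ b - d) : FE (sg (Frame.lb δ)) (sg (LS V n a b)) where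
  fin i := by
    by_cases hi : i = 0
    · subst hi
      exact Module.Finite.equiv ((hzL _ _).trans (homQ hδ n a b)).symm
    · have : Subsingleton (sg (Frame.lb δ) ⟶ (sg (LS V n a b))⟦i⟧) :=
        ⟨fun x y => (hom_LS_eq_zero V hδ ha hb hi x).trans (hom_LS_eq_zero V hδ ha hb hi y).symm⟩
      infer_instance
  bdd := ⟨1, fun i hi => ⟨fun x y => by
    have hi0 : i ≠ 0 := by
      rintro rfl
      simp at hi
    exact (hom_LS_eq_zero V hδ ha hb hi0 x).trans (hom_LS_eq_zero V hδ ha hb hi0 y).symm⟩⟩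

include hδ in
/-- The Euler characteristic is the dimension of the space of polynomials. -/
theorem eu_LS (ha : -1 ≤ a - c) (hb : -1 ≤ b - d) : eu (sg (Frame.lb δ)) (sg (LS V n a b)) =
    finrank ℂ (MS V.G n (a - c) (b - d) ∅ ∅) := by
  rw [eu, chiZ, finsum_eq_single _ (0 : ℤ)]
  · rw [((hzL _ _).trans (homQ hδ n a b)).finrank_eq]
    simp
  · intro i hi
    have : Subsingleton (sg (Frame.lb δ) ⟶ (sg (LS V n a b))⟦i⟧) :=
      ⟨fun x y => (hom_LS_eq_zero V hδ ha hb hi x).trans (hom_LS_eq_zero V hδ ha hb hi y).symm⟩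
    rw [finrank_zero_of_subsingleton, Nat.cast_zero, mul_zero]

include hδ in
/-- Vanishing in all degrees. -/
theorem hom_LS_zero_all (ha : -1 ≤ a - c) (hb : -1 ≤ b - d) (h : a - c < 0 ∨ b - d < 0) (i : ℤ)
    (f : sg (Frame.lb δ) ⟶ (sg (LS V n a b))⟦i⟧) : f = 0 := by
  by_cases hi : i = 0
  · subst hi
    apply (hzL (Frame.lb δ) (LS V n a b)).injective
    apply (homQ hδ n a b).injective
    rw [map_zero, map_zero]
    exact Subtype.ext (MS_neg h (homQ hδ n a b _).2)
  · exact hom_LS_eq_zero V hδ ha hb hi f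

end

end Run7.h164
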