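import Pool.Agent.N212.T3

set_option autoImplicit false
set_option linter.unusedVariables false
set_option linter.unusedSectionVars false

/-!
The complex of three commuting operators on graded modules.
-/

open CategoryTheory Limits TopologicalSpace AlgebraicGeometry Opposite TopCat

namespace Run7.h164

noncomputable section

set_option backward.isDefEq.respectTransparency false

open Pool.Agent.W506 Pool.Agent.N212

variable {k : Type} [Field k] {A : Type} [CommRing A] [Algebra k A] {𝒜 : ℕ → Submodule k A}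

/-- Sums of copies of a graded module. -/
def gp (N : GM 𝒜) (n : ℕ) : GM 𝒜 where
  M := Fin n → N.M
  deg i :=
    { carrier := {v | ∀ j, v j ∈ N.deg i}
      add_mem' := fun h h' j => add_mem (h j) (h' j)
      zero_mem' := fun j => zero_mem _
      neg_mem' := fun h j => neg_mem (h j) }
  smul_mem h h' := fun j => N.smul_mem h (h' j)

variable [GradedAlgebra 𝒜]

instance (N : GM 𝒜) [IsGr N] (n : ℕ) : IsGr (gp N n) where
  comp_smul hm c hc l := funext fun j => IsGr.comp_smul (hm j) c (congrFun hc j) l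

/-- Three commuting operators with local homotopies. -/
structure KD (N₃ N₂ N₁ N₀ : GM 𝒜) (e : ℤ) where
  /-- the operators -/
  a : Fin 3 → GH N₃ N₂ e
  /-- the operators -/
  b : Fin 3 → GH N₂ N₁ e
  /-- the operators -/
  c : Fin 3 → GH N₁ N₀ e
  ab : ∀ i j m, (b i).f ((a j).f m) = (b j).f ((a i).f m)
  bc : ∀ i j m, (c i).f ((b j).f m) = (c j).f ((b i).f m)
  inj : Function.Injective (a 0).f
  loc : ∀ x : ProjectiveSpectrum.top 𝒜, ∃ (t : Fin 3) (l : ℕ) (r : A) (s₀ : N₀.M →+ N₁.M)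
    (s₁ : N₁.M →+ N₂.M) (s₂ : N₂.M →+ N₃.M), r ∈ 𝒜 l ∧ r ∈ pc x ∧
    (∀ i m, m ∈ N₀.deg i → s₀ m ∈ N₁.deg (l + i - e)) ∧
    (∀ i m, m ∈ N₁.deg i → s₁ m ∈ N₂.deg (l + i - e)) ∧
    (∀ i m, m ∈ N₂.deg i → s₂ m ∈ N₃.deg (l + i - e)) ∧
    (∀ m, (c t).f (s₀ m) = r • m) ∧ (∀ m, (b t).f (s₁ m) = r • m) ∧
    (∀ m, (a t).f (s₂ m) = r • m) ∧ (∀ j m, s₀ ((c j).f m) = (b j).f (s₁ m)) ∧
    (∀ j m, s₁ ((b j).f m) = (a j).f (s₂ m))

namespace KD

variable {N₃ N₂ N₁ N₀ : GM 𝒜} {e : ℤ} (K : KD N₃ N₂ N₁ N₀ e)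

/-- The first differential. -/
def d₃ : GH N₃ (gp N₂ 3) e where
  f := LinearMap.pi fun i => (K.a i).f
  map_deg h := fun i => (K.a i).map_deg h

/-- The second differential. -/
def d₂ : GH (gp N₂ 3) (gp N₁ 3) e where
  f := LinearMap.pi fun i => (K.b (i + 1)).f.comp (LinearMap.proj (i + 2)) -
    (K.b (i + 2)).f.comp (LinearMap.proj (i + 1))
  map_deg {j m} h := fun i => by
    change (K.b (i + 1)).f ((show Fin 3 → N₂.M from m) (i + 2)) -
      (K.b (i + 2)).f ((show Fin 3 → N₂.M from m) (i + 1)) ∈ N₁.deg (j + e)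
    exact sub_mem ((K.b (i + 1)).map_deg (h (i + 2))) ((K.b (i + 2)).map_deg (h (i + 1)))

/-- The third differential. -/
def d₁ : GH (gp N₁ 3) N₀ e where
  f := ∑ i, (K.c i).f.comp (LinearMap.proj i)
  map_deg h := by
    rw [LinearMap.sum_apply]
    exact sum_mem fun i _ => (K.c i).map_deg (h i)

lemma d₃_f (m : N₃.M) (i : Fin 3) : (show Fin 3 → N₂.M from K.d₃.f m) i = (K.a i).f m := rfl

lemma d₂_f (m : (gp N₂ 3).M) (i : Fin 3) : (show Fin 3 → N₁.M from K.d₂.f m) i =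
    (K.b (i + 1)).f ((show Fin 3 → N₂.M from m) (i + 2)) -
      (K.b (i + 2)).f ((show Fin 3 → N₂.M from m) (i + 1)) := rfl

lemma d₁_f (m : (gp N₁ 3).M) : K.d₁.f m =
    ∑ i, (K.c i).f ((show Fin 3 → N₁.M from m) i) := by
  change (∑ i, (K.c i).f.comp (LinearMap.proj i)) m = _
  rw [LinearMap.sum_apply]
  rfl

lemma d₃_inj : Function.Injective K.d₃.f := fun m m' h => K.inj (congrFun h 0)

lemma d₂_d₃ (m : N₃.M) : K.d₂.f (K.d₃.f m) = 0 := by
  funext i
  change (show Fin 3 → N₁.M from K.d₂.f (K.d₃.f m)) i = 0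
  rw [d₂_f, d₃_f, d₃_f, K.ab, sub_self]

lemma d₁_d₂ (m : (gp N₂ 3).M) : K.d₁.f (K.d₂.f m) = 0 := by
  rw [d₁_f, Fin.sum_univ_three, d₂_f, d₂_f, d₂_f, map_sub, map_sub, map_sub]
  change (K.c 0).f ((K.b 1).f ((show Fin 3 → N₂.M from m) 2)) -
    (K.c 0).f ((K.b 2).f ((show Fin 3 → N₂.M from m) 1)) +
    ((K.c 1).f ((K.b 2).f ((show Fin 3 → N₂.M from m) 0)) -
    (K.c 1).f ((K.b 0).f ((show Fin 3 → N₂.M from m) 2))) +
    ((K.c 2).f ((K.b 0).f ((show Fin 3 → N₂.M from m) 1)) -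
    (K.c 2).f ((K.b 1).f ((show Fin 3 → N₂.M from m) 0))) = 0
  rw [K.bc 0 1, K.bc 0 2, K.bc 1 2]
  abel

lemma d₁_surj : LSurj K.d₁ := by
  intro x i m hm
  obtain ⟨t, l, r, s₀, s₁, s₂, hr, hrx, h0, h1, h2, e0, e1, e2, f0, f1⟩ := K.loc x
  refine ⟨l, r, Pi.single t (s₀ m), hr, hrx, fun j => ?_, ?_⟩
  · by_cases hj : j = t
    · subst hj
      rw [Pi.single_eq_same]
      exact h0 i m hm
    · rw [Pi.single_eq_of_ne hj]
      exact zero_mem _
  · rw [d₁_f, Finset.sum_eq_single t]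
    · change (K.c t).f ((Pi.single t (s₀ m) : Fin 3 → N₁.M) t) = _
      rw [Pi.single_eq_same, e0]
    · intro j _ hj
      change (K.c j).f ((Pi.single t (s₀ m) : Fin 3 → N₁.M) j) = _
      rw [Pi.single_eq_of_ne hj, map_zero]
    · intro h
      exact absurd (Finset.mem_univ t) h

lemma exact₁ : LExact K.d₂ K.d₁ := by
  intro x i v hv h
  obtain ⟨t, l, r, s₀, s₁, s₂, hr, hrx, h0, h1, h2, e0, e1, e2, f0, f1⟩ := K.loc x
  let w : Fin 3 → N₁.M := v
  have hw : ∀ j, w j ∈ N₁.deg i := hv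
  have h' : ∑ j, (K.c j).f (w j) = 0 := by
    rw [← K.d₁_f v]
    exact h
  have key : ∑ j, (K.b j).f (s₁ (w j)) = 0 := by
    have h3 := congrArg s₀ h'
    rw [map_sum, map_zero] at h3
    rw [← h3]
    exact Finset.sum_congr rfl fun j _ => (f0 j (w j)).symm
  rw [Fin.sum_univ_three] at key
  let u : Fin 3 → N₂.M := fun j => if j = t + 1 then s₁ (w (t + 2)) else
    if j = t + 2 then - s₁ (w (t + 1)) else 0
  have hu : ∀ j, u j ∈ N₂.deg (l + i - e) := by
    intro j
    change (if j = t + 1 then s₁ (w (t + 2)) else if j = t + 2 then - s₁ (w (t + 1)) else 0) ∈ _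
    split_ifs
    · exact h1 _ _ (hw _)
    · exact neg_mem (h1 _ _ (hw _))
    · exact zero_mem _
  refine ⟨l, r, u, hr, hrx, hu, ?_⟩
  funext j
  change (K.b (j + 1)).f (u (j + 2)) - (K.b (j + 2)).f (u (j + 1)) = r • w j
  have e1' : ∀ m, r • m = (K.b t).f (s₁ m) := fun m => (e1 m).symm
  rw [e1']
  have key2 : ∀ t : Fin 3, (K.b t).f (s₁ (w t)) + (K.b (t + 1)).f (s₁ (w (t + 1))) +
      (K.b (t + 2)).f (s₁ (w (t + 2))) = 0 := by
    intro t
    rw [← key]
    fin_cases t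
    · rfl
    · change (K.b 1).f (s₁ (w 1)) + (K.b 2).f (s₁ (w 2)) + (K.b 0).f (s₁ (w 0)) = _
      abel
    · change (K.b 2).f (s₁ (w 2)) + (K.b 0).f (s₁ (w 0)) + (K.b 1).f (s₁ (w 1)) = _
      abel
  have u1 : u (t + 1) = s₁ (w (t + 2)) := if_pos rfl
  have u2 : u (t + 2) = - s₁ (w (t + 1)) := by
    change (if t + 2 = t + 1 then _ else if t + 2 = t + 2 then _ else _) = _
    rw [if_neg (by fin_cases t <;> decide), if_pos rfl]
  have u0 : u t = 0 := by
    change (if t = t + 1 then _ else if t = t + 2 then _ else _) = _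
    rw [if_neg (by fin_cases t <;> decide), if_neg (by fin_cases t <;> decide)]
  have hj : j = t ∨ j = t + 1 ∨ j = t + 2 := by
    fin_cases t <;> fin_cases j <;> decide
  rcases hj with rfl | rfl | rfl
  · rw [u1, u2, map_neg, ← sub_eq_zero, ← neg_eq_zero, ← key2 j]
    abel
  · have q1 : t + 1 + 1 = t + 2 := by fin_cases t <;> rfl
    have q2 : t + 1 + 2 = t := by fin_cases t <;> rfl
    rw [q1, q2, u0, u2, map_zero, map_neg, zero_sub, neg_neg]
  · have q1 : t + 2 + 1 = t := by fin_cases t <;> rfl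
    have q2 : t + 2 + 2 = t + 1 := by fin_cases t <;> rfl
    rw [q1, q2, u0, u1, map_zero, sub_zero]

lemma exact₂ : LExact K.d₃ K.d₂ := by
  intro x i v hv h
  obtain ⟨t, l, r, s₀, s₁, s₂, hr, hrx, h0, h1, h2, e0, e1, e2, f0, f1⟩ := K.loc x
  let w : Fin 3 → N₂.M := v
  have hw : ∀ j, w j ∈ N₂.deg i := hv
  have h' : ∀ j, (K.b (j + 1)).f (w (j + 2)) = (K.b (j + 2)).f (w (j + 1)) := fun j =>
    sub_eq_zero.1 (congrFun h j)
  have h'' : ∀ i j, (K.b i).f (w j) = (K.b j).f (w i) := by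
    intro i j
    have g0 := h' 0
    have g1 := h' 1
    have g2 := h' 2
    change (K.b 1).f (w 2) = (K.b 2).f (w 1) at g0
    change (K.b 2).f (w 0) = (K.b 0).f (w 2) at g1
    change (K.b 0).f (w 1) = (K.b 1).f (w 0) at g2
    fin_cases i <;> fin_cases j
    all_goals first
      | rfl
      | exact g0
      | exact g0.symm
      | exact g1
      | exact g1.symm
      | exact g2
      | exact g2.symm
  refine ⟨l, r, s₂ (w t), hr, hrx, h2 _ _ (hw t), ?_⟩
  funext j
  change (K.a j).f (s₂ (w t)) = r • w j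
  rw [← f1, h'', f1, e2]

/-! ### Sheaves -/

variable [IsGr N₀] [IsGr N₁] {j₃ j₂ j₁ j₀ : ℤ}

/-- The two short exact sequences. -/
theorem exists_ses (h₂ : j₂ = j₃ + e) (h₁ : j₁ = j₂ + e) (h₀ : j₀ = j₁ + e) :
    ∃ (Z : (Proj 𝒜).Modules) (f : til N₃ j₃ ⟶ til (gp N₂ 3) j₂) (g : til (gp N₂ 3) j₂ ⟶ Z)
      (w : f ≫ g = 0) (f' : Z ⟶ til (gp N₁ 3) j₁) (g' : til (gp N₁ 3) j₁ ⟶ til N₀ j₀)
      (w' : f' ≫ g' = 0), (ShortComplex.mk f g w).ShortExact ∧
      (ShortComplex.mk f' g' w').ShortExact ∧ g' = tmap K.d₁ h₀ := by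
  have w1 : tmap K.d₃ h₂ ≫ tmap K.d₂ h₁ = 0 := tmap_comp_zero _ _ K.d₂_d₃ _ _
  have w2 : tmap K.d₂ h₁ ≫ tmap K.d₁ h₀ = 0 := tmap_comp_zero _ _ K.d₁_d₂ _ _
  have x1 := exact_tmap K.d₃ K.d₂ K.exact₂ h₂ h₁ w1
  have x2 := exact_tmap K.d₂ K.d₁ K.exact₁ h₁ h₀ w2
  have m1 : Mono (tmap K.d₃ h₂) := mono_tmap _ K.d₃_inj _
  have p1 : Epi (tmap K.d₁ h₀) := epi_tmap _ K.d₁_surj _
  let g := kernel.lift (tmap K.d₁ h₀) (tmap K.d₂ h₁) w2
  have hg : g ≫ kernel.ι _ = tmap K.d₂ h₁ := kernel.lift_ι _ _ _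
  have pg : Epi g := (ShortComplex.mk _ _ w2).exact_iff_epi_kernel_lift.1 x2
  have w3 : tmap K.d₃ h₂ ≫ g = 0 := by
    rw [← cancel_mono (kernel.ι (tmap K.d₁ h₀)), Category.assoc, hg, w1, zero_comp]
  refine ⟨kernel (tmap K.d₁ h₀), tmap K.d₃ h₂, g, w3, kernel.ι _, tmap K.d₁ h₀,
    kernel.condition _, ?_, ?_, rfl⟩
  · let S : ShortComplex (Proj 𝒜).Modules := ShortComplex.mk (tmap K.d₃ h₂) g w3
    let S₂ : ShortComplex (Proj 𝒜).Modules := ShortComplex.mk (tmap K.d₃ h₂) (tmap K.d₂ h₁) w1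
    let f : S ⟶ S₂ := { τ₁ := 𝟙 _, τ₂ := 𝟙 _, τ₃ := kernel.ι _ }
    have : Epi f.τ₁ := inferInstanceAs (Epi (𝟙 _))
    have : IsIso f.τ₂ := inferInstanceAs (IsIso (𝟙 _))
    have : Mono f.τ₃ := inferInstanceAs (Mono (kernel.ι _))
    exact
      { exact := (ShortComplex.exact_iff_of_epi_of_isIso_of_mono f).2 x1
        mono_f := m1
        epi_g := pg }
  · exact
      { exact := ShortComplex.exact_of_f_is_kernel _ (kernelIsKernel _)
        mono_f := inferInstanceAs (Mono (kernel.ι _))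
        epi_g := p1 }

end KD

section Sums

variable (N : GM 𝒜)

lemma isZero_gp (j : ℤ) : IsZero (til (gp N 0) j) := by
  rw [IsZero.iff_id_eq_zero]
  apply ap_ext
  intro U s
  apply vl_ext
  intro x hx
  have h : ∀ z z' : Lo (gp N 0) x, z = z' := by
    intro z z'
    induction z using LocalizedModule.induction_on with
    | h m a =>
      induction z' using LocalizedModule.induction_on with
      | h m' a' =>
        have e1 : m = 0 := funext fun i => i.elim0
        have e2 : m' = 0 := funext fun i => i.elim0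
        rw [e1, e2, LocalizedModule.zero_mk, LocalizedModule.zero_mk]
  exact h _ _

/-- The inclusion of the first summand. -/
def gi (n : ℕ) : GH N (gp N (n + 1)) 0 where
  f := LinearMap.pi (Fin.cases LinearMap.id fun _ => 0)
  map_deg {i m} h := fun j => by
    rw [add_zero]
    refine Fin.cases ?_ (fun j => ?_) j
    · exact h
    · exact zero_mem _

/-- The projection onto the other summands. -/
def gq (n : ℕ) : GH (gp N (n + 1)) (gp N n) 0 where
  f := LinearMap.pi fun i => LinearMap.proj i.succ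
  map_deg {i m} h := fun j => by
    rw [add_zero]
    exact h j.succ

/-- The short exact sequence of sums. -/
theorem exists_gp [IsGr N] (n : ℕ) (j : ℤ) :
    ∃ (f : til N j ⟶ til (gp N (n + 1)) j) (g : til (gp N (n + 1)) j ⟶ til (gp N n) j)
      (w : f ≫ g = 0), (ShortComplex.mk f g w).ShortExact := by
  have h : j = j + 0 := (add_zero j).symm
  have w : tmap (gi N n) h ≫ tmap (gq N n) h = 0 :=
    tmap_comp_zero _ _ (fun m => funext fun i => rfl) _ _
  refine ⟨tmap (gi N n) h, tmap (gq N n) h, w, ?_⟩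
  exact
    { exact := by
        refine exact_tmap (gi N n) (gq N n) ?_ h h w
        intro x i m hm h0
        refine ⟨0, 1, (show Fin (n + 1) → N.M from m) 0, SetLike.one_mem_graded 𝒜,
          (pc x).one_mem, ?_, ?_⟩
        · have := hm 0
          simpa using this
        · rw [one_smul]
          funext i
          refine Fin.cases ?_ (fun i => ?_) i
          · rfl
          · exact (congrFun h0 i).symm
      mono_f := by
        refine mono_tmap (gi N n) (fun m m' h => ?_) h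
        exact congrFun h 0
      epi_g := by
        refine epi_tmap (gq N n) ?_ h
        intro x i m hm
        refine ⟨0, 1, Fin.cons 0 (show Fin n → N.M from m), SetLike.one_mem_graded 𝒜,
          (pc x).one_mem, fun j => ?_, ?_⟩
        · refine Fin.cases ?_ (fun j => ?_) j
          · exact zero_mem _
          · have := hm j
            simpa using this
        · rw [one_smul]
          rfl }

end Sums

end

end Run7.h164
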