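import Pool.Agent.Run7.h164.EB

set_option autoImplicit false
set_option linter.unusedVariables false
set_option linter.unusedSectionVars false

/-!
Coherence of the sheaves associated with Clifford modules.
-/

open CategoryTheory Limits TopologicalSpace AlgebraicGeometry Opposite Pretriangulated
open Module

namespace Run7.h164

noncomputable section

set_option backward.isDefEq.respectTransparency false

open Pool.Agent.W506 Pool.Agent.N212
open Pool.Agent.R924 (DD Frame sg DCoh CohAll)

attribute [local instance] HasDerivedCategory.standard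

variable {V : Verra} {sd : Bool} {j : ℤ} {a : Fin 3 → ℂ} {M : CM V.G sd a}

/-- Monomials. -/
def mon (e : Ex) (c : M.C) : LM M := (Finsupp.single e c : Ex →₀ M.C)

lemma co_mon (e e' : Ex) (c : M.C) : co (mon (M := M) e c) e' = if e = e' then c else 0 := by
  classical
  exact Finsupp.single_apply

lemma co_mon_ne {e e' : Ex} {c : M.C} (h : co (mon (M := M) e c) e' ≠ 0) : e = e' := by
  by_contra hne
  rw [co_mon, if_neg hne] at h
  exact h rfl

lemma shL_mon (e e' : Ex) (c : M.C) : shL e' (mon (M := M) e c) = mon (e' + e) c := by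
  refine co_ext fun x => ?_
  rw [co_shL, co_mon, co_mon]
  by_cases h : e' + e = x
  · rw [if_pos h, if_pos (by rw [← h]; abel)]
  · rw [if_neg h, if_neg (fun h' => h (by rw [h']; abel))]

lemma mon_add (e : Ex) (c c' : M.C) : mon (M := M) e (c + c') = mon e c + mon e c' := by
  refine co_ext fun x => ?_
  rw [co_add, co_mon, co_mon, co_mon]
  by_cases h : e = x
  · rw [if_pos h, if_pos h, if_pos h]
  · rw [if_neg h, if_neg h, if_neg h, add_zero]

lemma mon_smul (e : Ex) (z : ℂ) (c : M.C) : mon (M := M) e (z • c) = z • mon e c := by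
  refine co_ext fun x => ?_
  rw [co_smul, co_mon, co_mon]
  by_cases h : e = x
  · rw [if_pos h, if_pos h]
  · rw [if_neg h, if_neg h, smul_zero]

lemma mon_zero (e : Ex) : mon (M := M) e 0 = 0 := by
  refine co_ext fun x => ?_
  rw [co_mon, co_zero, ite_self]

lemma rep_kS {U : (VX V).Opens} {s : Γ(til (NV M) j, U)} {l : LM M} (h : Rep V s l) (c : ℂ) :
    Rep V (ro (le_top : U ≤ ⊤) (kS V c) • s) (c • l) := by
  intro x hx
  rw [vl_smul, fv_ro, fv_kS, h x hx, mk_smul_mk']
  have h2 : (algebraMap ℂ (RF V.G) c) • (show (NV M).M from l) = (c • (show LM M from l) : LM M) :=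
    algebraMap_smulL M c l
  rw [h2, one_mul]

lemma rep_qf (ha : a 0 = 1) {k k' : Fin 3} {s : Γ(til (NV M) j, (VF V).U (kp sd k))} {l : LM M}
    (h : Rep V s l) : Rep V (qf V (kp sd k) (kp sd k') • s) (shL (ue k' - ue k) l) := by
  intro x hx
  rw [vl_smul, h x hx, qf_smul, LocalizedModule.mk_eq]
  refine ⟨1, ?_⟩
  change (1 : RF V.G) • (1 : RF V.G) • gg V (ch sd 0 k') • (l : LM M) =
    (1 : RF V.G) • (gg V (ch sd 0 k) * 1) • (shL (ue k' - ue k) l : LM M)
  rw [one_smul, one_smul, one_smul, mul_one, gg_smul, gg_smul, ha, one_smul, one_smul, shL_shL]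
  congr 1
  abel

lemma rep_zero' {U : (VX V).Opens} : Rep V (0 : Γ(til (NV M) j, U)) (0 : LM M) := by
  intro x hx
  rw [vl_zero]
  exact (LocalizedModule.zero_mk _).symm

lemma inI_mon {k : Fin 3} {e : Ex} (h1 : ∀ i, i ≠ k → 0 ≤ e i) (h2 : ∑ i, e i = j) (c : M.C) :
    InI V {k} j (mon (M := M) e c) := by
  intro e' he'
  rw [← co_mon_ne he']
  exact ⟨fun i hi => h1 i fun h => hi (Finset.mem_singleton.2 h), h2⟩

/-- Finite generation on a chart. -/
theorem finite_chart [Module.Finite ℂ M.C] (ha : a 0 = 1) (k : Fin 3) :
    Module.Finite Γ(VX V, (VF V).U (kp sd k)) Γ(til (NV M) j, (VF V).U (kp sd k)) := by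
  classical
  obtain ⟨S, hS⟩ := (inferInstance : Module.Finite ℂ M.C).1
  have hin : ∀ c : M.C, InI V {k} j (mon (M := M) (j • ue k) c) := by
    intro c
    refine inI_mon (fun i hi => ?_) ?_ c
    · change 0 ≤ j • ue k i
      rw [ue_ne hi, smul_zero]
    · have := sum_bue j k 0
      simpa using this
  choose g hg using fun c : M.C => exists_secL V ha (U_one V k) (hin c)
  set N := Submodule.span Γ(VX V, (VF V).U (kp sd k)) (g '' (S : Set M.C)) with hN
  refine ⟨S.image g, ?_⟩
  rw [Finset.coe_image, eq_top_iff]
  -- coefficients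
  have s1 : ∀ v : M.C, g v ∈ N := by
    intro v
    have hv : v ∈ Submodule.span ℂ (S : Set M.C) := by rw [hS]; trivial
    induction hv using Submodule.span_induction with
    | mem x hx => exact Submodule.subset_span ⟨x, hx, rfl⟩
    | zero =>
      have : g 0 = 0 := Rep.ext V (hg 0) (by rw [mon_zero]; exact rep_zero')
      rw [this]
      exact zero_mem _
    | add x y _ _ hx hy =>
      have : g (x + y) = g x + g y := Rep.ext V (hg _) (by
        rw [mon_add]
        exact (hg x).add V (hg y))
      rw [this]
      exact add_mem hx hy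
    | smul z x _ hx =>
      have : g (z • x) = ro (le_top : (VF V).U (kp sd k) ≤ ⊤) (kS V z) • g x := Rep.ext V (hg _) (by
        rw [mon_smul]
        exact rep_kS (hg x) z)
      rw [this]
      exact Submodule.smul_mem _ _ hx
  -- exponents
  have s2 : ∀ (n : ℕ) (e : Ex) (v : M.C), (∀ i, i ≠ k → 0 ≤ e i) → ∑ i, e i = j →
      (∑ i, if i = k then 0 else e i) = n → ∀ s : Γ(til (NV M) j, (VF V).U (kp sd k)),
        Rep V s (mon (M := M) e v) → s ∈ N := by
    intro n
    induction n with
    | zero =>
      intro e v h1 h2 h3 s hs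
      have h4 : ∀ i, i ≠ k → e i = 0 := by
        intro i hi
        have h5 := (Finset.sum_eq_zero_iff_of_nonneg (s := Finset.univ)
          (f := fun i => if i = k then 0 else e i) (fun i _ => by
            by_cases h : i = k
            · rw [if_pos h]
            · rw [if_neg h]
              exact h1 i h)).1 (by exact_mod_cast h3) i (Finset.mem_univ i)
        rwa [if_neg hi] at h5
      have h5 : e = j • ue k := by
        funext i
        by_cases hi : i = k
        · subst hi
          rw [← h2, Finset.sum_eq_single i (fun l _ hl => h4 l hl) (fun h =>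
            absurd (Finset.mem_univ _) h)]
          change e i = e i • ue i i
          rw [ue_same, smul_eq_mul, mul_one]
        · rw [h4 i hi]
          change 0 = j • ue k i
          rw [ue_ne hi, smul_zero]
      subst h5
      rw [Rep.ext V hs (hg v)]
      exact s1 v
    | succ n ih =>
      intro e v h1 h2 h3 s hs
      obtain ⟨k', hk', hpos⟩ : ∃ k', k' ≠ k ∧ 0 < e k' := by
        by_contra! hc
        have h4 : ∑ i, (if i = k then 0 else e i) ≤ 0 := Finset.sum_nonpos fun i _ => by
          by_cases h : i = k
          · rw [if_pos h]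
          · rw [if_neg h]
            exact hc i h
        rw [h3] at h4
        push_cast at h4
        omega
      let e' : Ex := -(ue k' - ue k) + e
      have he' : e = (ue k' - ue k) + e' := by
        change e = (ue k' - ue k) + (-(ue k' - ue k) + e)
        abel
      have v1 : ∀ i, e' i = -(ue k' i - ue k i) + e i := fun i => rfl
      have g1 : ∀ i, i ≠ k → 0 ≤ e' i := by
        intro i hi
        rw [v1, ue_ne hi]
        by_cases h : i = k'
        · subst h
          rw [ue_same]
          omega
        · rw [ue_ne h]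
          have := h1 i hi
          omega
      have g2 : ∑ i, e' i = j := by
        simp only [v1, Finset.sum_add_distrib, Finset.sum_neg_distrib, Finset.sum_sub_distrib,
          sum_ue]
        rw [h2]
        ring
      have g3 : (∑ i, if i = k then 0 else e' i) = n := by
        have h5 : ∀ i, (if i = k then 0 else e' i) = (if i = k then 0 else e i) - ue k' i := by
          intro i
          by_cases h : i = k
          · subst h
            rw [if_pos rfl, if_pos rfl, ue_ne (Ne.symm hk')]
            ring
          · rw [if_neg h, if_neg h, v1, ue_ne h]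
            ring
        simp only [h5, Finset.sum_sub_distrib, sum_ue]
        rw [h3]
        push_cast
        ring
      obtain ⟨s', hs'⟩ := exists_secL V ha (U_one V k) (inI_mon (M := M) g1 g2 v)
      have h6 : s = qf V (kp sd k) (kp sd k') • s' := Rep.ext V hs (by
        have h7 := rep_qf (k' := k') ha hs'
        rwa [shL_mon, ← he'] at h7)
      rw [h6]
      exact Submodule.smul_mem _ _ (ih e' v g1 g2 g3 s' hs')
  intro s _
  change s ∈ N
  obtain ⟨l, hl, hs⟩ := exists_rep V ha ⟨k, Finset.mem_singleton_self k⟩ (U_one V k) s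
  -- decomposition
  have s3 : ∀ (T : Finset Ex) (f : Ex → M.C), (∀ e ∈ T, (∀ i, i ≠ k → 0 ≤ e i) ∧ ∑ i, e i = j) →
      ∃ t : Γ(til (NV M) j, (VF V).U (kp sd k)), Rep V t (∑ e ∈ T, mon (M := M) e (f e)) ∧
        t ∈ N := by
    intro T f
    induction T using Finset.induction_on with
    | empty =>
      intro _
      exact ⟨0, by rw [Finset.sum_empty]; exact rep_zero', zero_mem _⟩
    | insert e T he ih =>
      intro hT
      obtain ⟨t, ht, htN⟩ := ih fun e' he' => hT e' (Finset.mem_insert_of_mem he')
      obtain ⟨h1, h2⟩ := hT e (Finset.mem_insert_self _ _)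
      obtain ⟨t', ht'⟩ := exists_secL V ha (U_one V k) (inI_mon (M := M) h1 h2 (f e))
      refine ⟨t' + t, ?_, add_mem ?_ htN⟩
      · rw [Finset.sum_insert he]
        exact ht'.add V ht
      · have h3 : 0 ≤ ∑ i, if i = k then 0 else e i := Finset.sum_nonneg fun i _ => by
          by_cases h : i = k
          · rw [if_pos h]
          · rw [if_neg h]
            exact h1 i h
        exact s2 _ e (f e) h1 h2 (Int.toNat_of_nonneg h3).symm t' ht'
  have h4 : l = ∑ e ∈ (show Ex →₀ M.C from l).support, mon (M := M) e (co l e) := by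
    have := Finsupp.sum_single (show Ex →₀ M.C from l)
    exact this.symm
  obtain ⟨t, ht, htN⟩ := s3 (show Ex →₀ M.C from l).support (fun e => co l e) (by
    intro e he
    obtain ⟨h5, h6⟩ := hl e (Finsupp.mem_support_iff.1 he)
    exact ⟨fun i hi => h5 i fun h => hi (Finset.mem_singleton.1 h), h6⟩)
  rw [← h4] at ht
  rw [Rep.ext V hs ht]
  exact htN

/-- Coherence. -/
theorem cohAll_til [Module.Finite ℂ M.C] (ha : a 0 = 1) : CohAll (til (NV M) j) := by
  apply Pool.Agent.R924.cohAll_of_local
  intro x
  by_cases hx : x ∈ Zo (VF V) (kp sd)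
  · obtain ⟨k, hk⟩ := mem_Zo _ _ hx
    exact ⟨_, hk, (AV V).aff _, qcOn_til _ _ _, finite_chart ha k⟩
  · obtain ⟨jj, hj⟩ := (VF V).cover x
    obtain ⟨i, k, rfl⟩ := exists_ch sd jj
    let z := qf V (ch sd i k) (ch sd 0 k)
    let u : Γ(VX V, (VF V).U (ch sd i k)) := 1 - ro le_top (kS V (a i)) * z
    refine ⟨(VX V).basicOpen u, ?_, ((AV V).aff _).basicOpen u, qcOn_til _ _ _, ?_⟩
    · rw [Scheme.mem_basicOpen _ _ _ hj]
      have h1 : x ∉ (VX V).basicOpen z := by
        intro h
        have h2 := inf_Zo (sd := sd) V i k (le_refl ((VF V).U (ch sd i k)))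
        rw [ro_refl] at h2
        rw [← h2] at h
        exact hx h.2
      rw [Scheme.mem_basicOpen _ _ _ hj] at h1
      rw [map_sub, map_one, map_mul]
      have h3 : ¬ IsUnit (((VX V).presheaf.germ _ x hj) (ro le_top (kS V (a i))) *
          ((VX V).presheaf.germ _ x hj) z) := fun h => h1 (isUnit_of_mul_isUnit_right h)
      by_contra h4
      have h5 := (IsLocalRing.nonunits_add (a := (1 : (VX V).presheaf.stalk x) -
        (((VX V).presheaf.germ _ x hj) (ro le_top (kS V (a i))) *
          ((VX V).presheaf.germ _ x hj) z)) h4 h3)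
      rw [sub_add_cancel] at h5
      exact h5 isUnit_one
    · have hs : Subsingleton Γ(til (NV M) j, (VX V).basicOpen u) := by
        have h0 : ∀ s : Γ(til (NV M) j, (VX V).basicOpen u), s = 0 := by
          intro s
          have h1 := z_smul V M ha j i k ((VX V).basicOpen_le u) s
          have h2 : ap (tm (scH M (a i)) j) _ s =
              ro (le_top : (VX V).basicOpen u ≤ ⊤) (kS V (a i)) • s := by
            rw [tm_scH, linV_smul, Category.comp_id]
            rfl
          rw [h2, smul_smul] at h1
          have h3 : ro ((VX V).basicOpen_le u) u • s = 0 := by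
            rw [map_sub, map_one, map_mul, ro_ro, sub_smul, one_smul, mul_comm, h1, sub_self]
          obtain ⟨v, hv⟩ := (isUnit_ro_basicOpen u).exists_left_inv
          have h4 := congrArg (fun t => v • t) h3
          rwa [smul_smul, hv, one_smul, smul_zero] at h4
        exact ⟨fun s t => (h0 s).trans (h0 t).symm⟩
      infer_instance

end

end Run7.h164
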