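import Pool.Agent.N212.T3

set_option autoImplicit false
set_option linter.unusedVariables false

/-!
Sections over basic open sets of the sheaf associated with a graded module.
-/

open CategoryTheory Limits TopologicalSpace AlgebraicGeometry Opposite TopCat

namespace Run7.h164

noncomputable section

set_option backward.isDefEq.respectTransparency false

open Pool.Agent.W506 Pool.Agent.N212

variable {k : Type} [Field k] {A : Type} [CommRing A] [Algebra k A]
  {𝒜 : ℕ → Submodule k A} [GradedAlgebra 𝒜]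

/-- Existence of relevant homogeneous primes. -/
lemma exists_pt (I : Ideal A) (hI : I.IsHomogeneous 𝒜) {a : A} {d : ℕ} (ha : a ∈ 𝒜 d)
    (hd : 0 < d) (h : ∀ n, a ^ n ∉ I) :
    ∃ x : ProjectiveSpectrum.top 𝒜, a ∈ pc x ∧ ∀ b ∈ I, b ∉ pc x := by
  obtain ⟨p, hp, hIp, hdis⟩ := Ideal.exists_le_prime_disjoint I (Submonoid.powers a) (by
    rw [Set.disjoint_left]
    rintro b hb ⟨n, rfl⟩
    exact h n hb)
  have h1 : a ∉ p := fun hap => Set.disjoint_left.1 hdis hap ⟨1, pow_one a⟩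
  have h2 : a ∉ (p.homogeneousCore 𝒜).toIdeal := fun hap =>
    h1 (Ideal.toIdeal_homogeneousCore_le 𝒜 p hap)
  refine ⟨⟨p.homogeneousCore 𝒜, hp.homogeneousCore, fun hle => ?_⟩, h2, ?_⟩
  · apply h2
    apply hle
    change a ∈ HomogeneousIdeal.irrelevant 𝒜
    rw [HomogeneousIdeal.mem_irrelevant_iff]
    exact DirectSum.decompose_of_mem_ne 𝒜 ha (by omega)
  · intro b hb hbx
    apply hbx
    have h3 : (I.homogeneousCore 𝒜).toIdeal ≤ (p.homogeneousCore 𝒜).toIdeal :=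
      Ideal.homogeneousCore_mono 𝒜 hIp
    rw [hI.toIdeal_homogeneousCore_eq_self] at h3
    exact h3 hb

/-- The annihilator of a homogeneous element. -/
lemma exists_pow_smul {N : GM 𝒜} [IsGr N] {i : ℤ} {m : N.M} (hm : m ∈ N.deg i)
    {b : A} {d : ℕ} (hb : b ∈ 𝒜 d) (hd : 0 < d)
    (h : ∀ x : ProjectiveSpectrum.top 𝒜, b ∈ pc x → ∃ c : pc x,
      (LocalizedModule.mk m c : Lo N x) = 0) : ∃ n : ℕ, b ^ n • m = 0 := by
  by_contra! hcon
  let I : Ideal A := LinearMap.ker (LinearMap.toSpanSingleton A N.M m)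
  have hmem : ∀ c, c ∈ I ↔ c • m = 0 := fun c => by
    rw [LinearMap.mem_ker, LinearMap.toSpanSingleton_apply]
  obtain ⟨x, hx, hI⟩ := exists_pt (𝒜 := 𝒜) I (fun n c hc => by
    rw [hmem] at hc ⊢
    exact IsGr.comp_smul hm c hc n) hb hd (fun n hn => hcon n ((hmem _).1 hn))
  obtain ⟨c, hc⟩ := h x hx
  obtain ⟨l, e, -, he1, he2⟩ := exists_hom_ann hm x c hc
  exact hI e ((hmem e).2 he2) he1

lemma exists_Dp_le' {V : (Proj 𝒜).Opens} {x : ProjectiveSpectrum.top 𝒜} (hx : x ∈ V) :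
    ∃ (l : ℕ) (c : A), c ∈ 𝒜 l ∧ c ∈ pc x ∧ Dp c ≤ V := by
  obtain ⟨_, ⟨c, rfl⟩, hxc, hle⟩ :=
    (ProjectiveSpectrum.isTopologicalBasis_basic_opens 𝒜).exists_subset_of_mem_open hx V.2
  obtain ⟨n, hn⟩ := exists_comp_mem x (show c ∈ pc x from hxc)
  refine ⟨n, _, SetLike.coe_mem _, hn, fun y hy => hle ?_⟩
  intro hcy
  exact hy (y.asHomogeneousIdeal.2 n hcy)

/-- Sections over a basic open set are fractions. -/
theorem exists_fraction {N : GM 𝒜} [IsGr N] {j : ℤ} {f : A} {d : ℕ} (hf : f ∈ 𝒜 d) (hd : 0 < d)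
    (s : Γ(til N j, Dp f)) : ∃ (r : ℕ) (m : N.M), m ∈ N.deg ((r * d : ℕ) + j) ∧
      ∀ x (hx : x ∈ Dp (𝒜 := 𝒜) f), vl s x hx =
        LocalizedModule.mk m ⟨f ^ r, (pc x).pow_mem hx r⟩ := by
  classical
  have h1 : ∀ x : (Dp (𝒜 := 𝒜) f : Opens _), ∃ (n : ℕ) (m : N.M) (a : A), 0 < n ∧
      m ∈ N.deg (n + j) ∧
      a ∈ 𝒜 n ∧ a ∈ pc x.1 ∧ ∀ y (hy : a ∈ pc y), ∃ hyf : y ∈ Dp (𝒜 := 𝒜) f,
        vl s y hyf = LocalizedModule.mk m ⟨a, hy⟩ := by
    intro x
    obtain ⟨V, hV, hxV, n, m, a, h2, h3, h4⟩ := exists_frac s x.1 x.2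
    obtain ⟨l, c, hc, hcx, hle⟩ := exists_Dp_le' hxV
    obtain ⟨h5, -⟩ := h4 x.1 hxV
    refine ⟨(d + l) + n, (f * c) • m, (f * c) * a, by omega, ?_,
      SetLike.mul_mem_graded (SetLike.mul_mem_graded hf hc) h3,
      (pc x.1).mul_mem ((pc x.1).mul_mem x.2 hcx) h5, ?_⟩
    · have := N.smul_mem (SetLike.mul_mem_graded hf hc) h2
      rwa [show ((d + l : ℕ) : ℤ) + (n + j) = (d + l + n : ℕ) + j by push_cast; ring] at this
    · intro y hy
      have hcy' : f * c ∈ pc y := fun h => hy (Ideal.mul_mem_right _ _ h)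
      have hcy : c ∈ pc y := fun h => hcy' (Ideal.mul_mem_left _ _ h)
      obtain ⟨h6, h7⟩ := h4 y (hle hcy)
      exact ⟨hV (hle hcy), by rw [h7]; exact (mk_cancel hcy' h6).symm⟩
  choose n m a hn hm ha hax hs using h1
  have hhom : ∀ t : Set A, (∀ b ∈ t, ∃ i, b ∈ 𝒜 i) → (Ideal.span t).IsHomogeneous 𝒜 := by
    intro t ht
    exact Ideal.homogeneous_span 𝒜 t fun b hb => ht b hb
  have h2 : ∃ K, f ^ K ∈ Ideal.span (Set.range a) := by
    by_contra! hcon
    obtain ⟨x, hx, hI⟩ := exists_pt (𝒜 := 𝒜) (Ideal.span (Set.range a)) (hhom _ (by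
      rintro _ ⟨y, rfl⟩
      exact ⟨n y, ha y⟩)) hf hd hcon
    exact hI _ (Ideal.subset_span ⟨⟨x, hx⟩, rfl⟩) (hax ⟨x, hx⟩)
  obtain ⟨K, hK⟩ := h2
  obtain ⟨T, hT, hKT⟩ := Submodule.mem_span_finite_of_mem_span hK
  have hT' : ∀ t : T, ∃ x, a x = t.1 := fun t => hT t.2
  choose p hp using hT'
  -- uniform exponent
  have h3 : ∀ q : T × T, ∃ e : ℕ, (a (p q.1) * a (p q.2)) ^ e •
      (a (p q.2) • m (p q.1) - a (p q.1) • m (p q.2)) = 0 := by
    rintro ⟨q, q'⟩
    have hmem : a (p q') • m (p q) - a (p q) • m (p q') ∈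
        N.deg ((n (p q) + n (p q') : ℕ) + j) := by
      refine sub_mem ?_ ?_
      · have := N.smul_mem (ha (p q')) (hm (p q))
        rwa [show ((n (p q') : ℤ) + (n (p q) + j)) = (n (p q) + n (p q') : ℕ) + j by
          push_cast; ring] at this
      · have := N.smul_mem (ha (p q)) (hm (p q'))
        rwa [show ((n (p q) : ℤ) + (n (p q') + j)) = (n (p q) + n (p q') : ℕ) + j by
          push_cast; ring] at this
    have hn1 := hn (p q)
    refine exists_pow_smul hmem (SetLike.mul_mem_graded (ha (p q)) (ha (p q'))) (by omega) ?_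
    intro x hx
    have hq : a (p q) ∈ pc x := fun h => hx (Ideal.mul_mem_right _ _ h)
    have hq' : a (p q') ∈ pc x := fun h => hx (Ideal.mul_mem_left _ _ h)
    refine ⟨⟨_, (pc x).mul_mem hq hq'⟩, ?_⟩
    obtain ⟨hx1, e1⟩ := hs (p q) x hq
    obtain ⟨hx2, e2⟩ := hs (p q') x hq'
    have e3 : (LocalizedModule.mk (m (p q)) ⟨_, hq⟩ : Lo N x) =
        LocalizedModule.mk (m (p q')) ⟨_, hq'⟩ := by rw [← e1, ← e2]
    rw [LocalizedModule.mk_eq] at e3
    obtain ⟨u, hu⟩ := e3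
    have hu' : (u : A) • (a (p q') • m (p q) - a (p q) • m (p q')) = 0 := by
      rw [smul_sub, sub_eq_zero]
      exact hu
    exact mk_eq_zero_of u.2 hu' _
  choose e he using h3
  obtain ⟨E, hE⟩ : ∃ E, ∀ q, e q ≤ E :=
    ⟨∑ q, e q, fun q => Finset.single_le_sum (fun _ _ => Nat.zero_le _) (Finset.mem_univ q)⟩
  have hE' : ∀ q q' : T, (a (p q) * a (p q')) ^ E •
      (a (p q') • m (p q) - a (p q) • m (p q')) = 0 := by
    intro q q'
    obtain ⟨c, hc⟩ := Nat.exists_eq_add_of_le' (hE (q, q'))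
    rw [hc, pow_add, mul_smul, he (q, q'), smul_zero]
  -- new representatives
  set b : T → A := fun q => a (p q) ^ (E + 1) with hb
  set M : T → N.M := fun q => a (p q) ^ E • m (p q) with hM
  set D : T → ℕ := fun q => (E + 1) * n (p q) with hD
  have hbD : ∀ q, b q ∈ 𝒜 (D q) := fun q => SetLike.pow_mem_graded (E + 1) (ha (p q))
  have hMD : ∀ q, M q ∈ N.deg (D q + j) := by
    intro q
    have h4 : a (p q) ^ E ∈ 𝒜 (E * n (p q)) := SetLike.pow_mem_graded E (ha (p q))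
    have := N.smul_mem h4 (hm (p q))
    rwa [show ((E * n (p q) : ℕ) : ℤ) + (n (p q) + j) = (D q : ℕ) + j by
      simp only [hD]; push_cast; ring] at this
  have hbM : ∀ q q', b q' • M q = b q • M q' := by
    intro q q'
    have h4 := hE' q q'
    rw [smul_sub, sub_eq_zero, smul_smul, smul_smul] at h4
    simp only [hb, hM, smul_smul]
    rw [show a (p q') ^ (E + 1) * a (p q) ^ E = (a (p q) * a (p q')) ^ E * a (p q') by ring,
      show a (p q) ^ (E + 1) * a (p q') ^ E = (a (p q) * a (p q')) ^ E * a (p q) by ring]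
    exact h4
  have h5 : ∃ K', f ^ K' ∈ Ideal.span (Set.range b) := by
    by_contra! hcon
    obtain ⟨x, hx, hI⟩ := exists_pt (𝒜 := 𝒜) (Ideal.span (Set.range b)) (hhom _ (by
      rintro _ ⟨y, rfl⟩
      exact ⟨D y, hbD y⟩)) hf hd hcon
    have hle : Ideal.span (T : Set A) ≤ x.asHomogeneousIdeal.toIdeal := by
      rw [Ideal.span_le]
      intro t ht
      have h6 := hI _ (Ideal.subset_span ⟨⟨t, ht⟩, rfl⟩)
      have h7 : b ⟨t, ht⟩ ∈ x.asHomogeneousIdeal.toIdeal := not_not.1 h6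
      have h8 := x.isPrime.mem_of_pow_mem _ h7
      rw [hp] at h8
      exact h8
    exact (pc x).pow_mem hx K (hle hKT)
  obtain ⟨K', hK'⟩ := h5
  obtain ⟨c, hc⟩ := (Submodule.mem_span_range_iff_exists_fun A).1 hK'
  -- homogeneous coefficients
  let c' : T → A := fun q => if D q ≤ K' * d then (DirectSum.decompose 𝒜 (c q) (K' * d - D q) : A)
    else 0
  have hc' : ∑ q, c' q * b q = f ^ K' := by
    have h6 : f ^ K' ∈ 𝒜 (K' * d) := SetLike.pow_mem_graded K' hf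
    rw [← DirectSum.decompose_of_mem_same 𝒜 h6, ← hc, DirectSum.decompose_sum]
    rw [DFinsupp.finsetSum_apply, AddSubmonoidClass.coe_finsetSum]
    refine Finset.sum_congr rfl fun q _ => ?_
    simp only [c', smul_eq_mul]
    split_ifs with h7
    · rw [DirectSum.coe_decompose_mul_of_right_mem_of_le 𝒜 (hbD q) h7]
    · rw [DirectSum.coe_decompose_mul_of_right_mem_of_not_le 𝒜 (hbD q) h7, zero_mul]
  refine ⟨K', ∑ q, c' q • M q, sum_mem fun q _ => ?_, fun x hx => ?_⟩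
  · simp only [c']
    split_ifs with h7
    · have h8 := N.smul_mem (SetLike.coe_mem (DirectSum.decompose 𝒜 (c q) (K' * d - D q))) (hMD q)
      rwa [show ((K' * d - D q : ℕ) : ℤ) + (D q + j) = (K' * d : ℕ) + j by
        push_cast [h7]; ring] at h8
    · rw [zero_smul]
      exact zero_mem _
  · have h6 : ∃ q, b q ∈ pc x := by
      by_contra! hcon
      apply (pc x).pow_mem hx K'
      rw [← hc']
      exact sum_mem fun q _ => Ideal.mul_mem_left _ _ (not_not.1 (hcon q))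
    obtain ⟨q, hq⟩ := h6
    have hq' : a (p q) ∈ pc x := fun h => hq (Ideal.pow_mem_of_mem _ h _ (Nat.succ_pos E))
    obtain ⟨h7, h8⟩ := hs (p q) x hq'
    rw [h8]
    have h9 : (LocalizedModule.mk (m (p q)) ⟨_, hq'⟩ : Lo N x) =
        LocalizedModule.mk (M q) ⟨b q, hq⟩ := by
      rw [LocalizedModule.mk_eq]
      refine ⟨1, ?_⟩
      change (1 : A) • b q • m (p q) = (1 : A) • a (p q) • M q
      simp only [one_smul, hb, hM, smul_smul]
      rw [pow_succ']
    rw [h9, LocalizedModule.mk_eq]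
    refine ⟨1, ?_⟩
    change (1 : A) • f ^ K' • M q = (1 : A) • b q • ∑ q, c' q • M q
    rw [one_smul, one_smul, ← hc', Finset.sum_smul, Finset.smul_sum]
    refine Finset.sum_congr rfl fun q' _ => ?_
    rw [mul_smul, hbM q q', smul_comm]

/-- A fraction which vanishes at all points of a basic open set. -/
lemma pow_smul_eq_zero {N : GM 𝒜} [IsGr N] {i : ℤ} {f : A} {d : ℕ} (hf : f ∈ 𝒜 d) (hd : 0 < d)
    {m : N.M} (hm : m ∈ N.deg i)
    (h : ∀ x (hx : x ∈ Dp (𝒜 := 𝒜) f), ∃ c : pc x, (LocalizedModule.mk m c : Lo N x) = 0) :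
    ∃ n : ℕ, f ^ n • m = 0 :=
  exists_pow_smul hm hf hd fun x hx => h x hx

end

end Run7.h164
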