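import Pool.Agent.R924.C1
import Pool.Agent.R924.E3
import Pool.Agent.Run7.h164.TA

set_option autoImplicit false
set_option linter.unusedVariables false

/-!
Quasi-coherence of the sheaf associated with a graded module.
-/

open CategoryTheory Limits TopologicalSpace AlgebraicGeometry Opposite TopCat

namespace Run7.h164

noncomputable section

set_option backward.isDefEq.respectTransparency false

open Pool.Agent.W506 Pool.Agent.N212 Pool.Agent.R924

section General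

variable {X : Scheme.{0}}

/-- Quasi-coherence with respect to the basic open subsets of one open set. -/
structure QB (M : X.Modules) (B : X.Opens) : Prop where
  ext : ∀ (f : Γ(X, B)) (s : Γ(M, X.basicOpen f)),
    ∃ (k : ℕ) (t : Γ(M, B)), rs M (X.basicOpen_le f) t = ro (X.basicOpen_le f) f ^ k • s
  uniq : ∀ (f : Γ(X, B)) (t : Γ(M, B)),
    rs M (X.basicOpen_le f) t = 0 → ∃ k : ℕ, f ^ k • t = 0

lemma QB.ext' {M : X.Modules} {B D : X.Opens} (h : QB M B) (f : Γ(X, B))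
    (hD : X.basicOpen f = D) (hDB : D ≤ B) (s : Γ(M, D)) :
    ∃ (k : ℕ) (t : Γ(M, B)), rs M hDB t = ro hDB f ^ k • s := by
  subst hD
  exact h.ext f s

lemma QB.uniq' {M : X.Modules} {B D : X.Opens} (h : QB M B) (f : Γ(X, B))
    (hD : X.basicOpen f = D) (hDB : D ≤ B) (t : Γ(M, B)) (ht : rs M hDB t = 0) :
    ∃ k : ℕ, f ^ k • t = 0 := by
  subst hD
  exact h.uniq f t ht

theorem qcOn_of_basis {M : X.Modules} {V : X.Opens} (hV : IsAffineOpen V)
    (h : ∀ g : Γ(X, V), QB M (X.basicOpen g)) : QCOn M V := by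
  have hcov : ∀ W' : X.Opens, IsAffineOpen W' → W' ≤ V →
      ∃ (n : ℕ) (g : Fin n → Γ(X, V)), (∀ i, X.basicOpen (g i) ≤ W') ∧
        W' ≤ ⨆ i, X.basicOpen (g i) := by
    intro W' hW' hle
    have h1 : ∀ x ∈ W', ∃ g : Γ(X, V), x ∈ X.basicOpen g ∧ X.basicOpen g ≤ W' := by
      intro x hx
      obtain ⟨g, hg, hxg⟩ := hV.exists_basicOpen_le (V := W') ⟨x, hx⟩ (hle hx)
      exact ⟨g, hxg, hg⟩
    choose! g hg hP using h1
    obtain ⟨t, ht⟩ := hW'.isCompact.elim_finite_subcover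
      (fun x : W' => (X.basicOpen (g x.1) : Set X)) (fun x => (X.basicOpen (g x.1)).isOpen)
      (fun x hx => Set.mem_iUnion.2 ⟨⟨x, hx⟩, hg x hx⟩)
    refine ⟨t.card, fun i => g (t.equivFin.symm i).1.1, fun i => hP _ (t.equivFin.symm i).1.2, ?_⟩
    intro x hx
    obtain ⟨y, hy, hxy⟩ := Set.mem_iUnion₂.1 (ht hx)
    refine Opens.mem_iSup.2 ⟨t.equivFin ⟨y, hy⟩, ?_⟩
    simp only [Equiv.symm_apply_apply]
    exact hxy
  have uniq : ∀ (W' : X.Opens), IsAffineOpen W' → W' ≤ V → ∀ (f : Γ(X, W')) (t : Γ(M, W')),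
      rs M (X.basicOpen_le f) t = 0 → ∃ k : ℕ, f ^ k • t = 0 := by
    intro W' hW' hle f t ht
    obtain ⟨n, g, hg, hc⟩ := hcov W' hW' hle
    have h1 : ∀ i, ∃ k : ℕ, ro (hg i) f ^ k • rs M (hg i) t = 0 := by
      intro i
      refine (h (g i)).uniq _ _ ?_
      rw [rs_rs]
      have h2 : X.basicOpen (ro (hg i) f) ≤ X.basicOpen f := by
        rw [basicOpen_ro]
        exact inf_le_right
      have h3 := congrArg (rs M h2) ht
      rw [rs_rs, map_zero] at h3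
      exact h3
    choose k hk using h1
    refine ⟨∑ i, k i, ?_⟩
    apply ext_rs (M := M) (fun i => X.basicOpen (g i)) (fun i => hg i) hc
    intro i
    obtain ⟨l, hl⟩ := exists_sum_eq k i
    rw [rs_smul, map_pow, hl, pow_add, mul_smul, hk, smul_zero, map_zero]
  refine ⟨?_, uniq⟩
  intro W' hW' hle f s
  obtain ⟨n, g, hg, hc⟩ := hcov W' hW' hle
  have hD : ∀ i, X.basicOpen (ro (hg i) f) = X.basicOpen (g i) ⊓ X.basicOpen f :=
    fun i => basicOpen_ro _ _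
  have h1 : ∀ i, ∃ (k : ℕ) (t : Γ(M, X.basicOpen (g i))),
      rs M (inf_le_left : X.basicOpen (g i) ⊓ X.basicOpen f ≤ _) t =
        ro inf_le_left (ro (hg i) f) ^ k •
          rs M (inf_le_right : X.basicOpen (g i) ⊓ X.basicOpen f ≤ _) s := fun i =>
    (h (g i)).ext' _ (hD i) inf_le_left _
  choose k t ht using h1
  have hl := exists_sum_eq k
  choose l hl using hl
  obtain ⟨d, hd⟩ : ∃ d, d = ∑ j, k j := ⟨_, rfl⟩
  obtain ⟨t₁, ht₁⟩ : ∃ t₁ : ∀ i, Γ(M, X.basicOpen (g i)), ∀ i,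
      rs M (inf_le_left : X.basicOpen (g i) ⊓ X.basicOpen f ≤ _) (t₁ i) =
        ro inf_le_left (ro (hg i) f) ^ d •
          rs M (inf_le_right : X.basicOpen (g i) ⊓ X.basicOpen f ≤ _) s := by
    refine ⟨fun i => ro (hg i) f ^ l i • t i, fun i => ?_⟩
    rw [rs_smul, ht, map_pow, smul_smul, ← pow_add, hd, hl i]
  have h2 : ∀ p : Fin n × Fin n, ∃ m : ℕ,
      ro ((inf_le_left : X.basicOpen (g p.1) ⊓ X.basicOpen (g p.2) ≤ _).trans (hg p.1)) f ^ m •
        (rs M (inf_le_left : X.basicOpen (g p.1) ⊓ X.basicOpen (g p.2) ≤ _) (t₁ p.1) -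
          rs M (inf_le_right : X.basicOpen (g p.1) ⊓ X.basicOpen (g p.2) ≤ _) (t₁ p.2)) = 0 := by
    rintro ⟨i, j⟩
    have key : ∀ B : X.Opens, QB M B → ∀ hB : B ≤ X.basicOpen (g i) ⊓ X.basicOpen (g j),
        ∃ m : ℕ, ro ((hB.trans inf_le_left).trans (hg i)) f ^ m •
        (rs M (hB.trans inf_le_left) (t₁ i) - rs M (hB.trans inf_le_right) (t₁ j)) = 0 := by
      intro B hQ hB
      refine hQ.uniq' (D := B ⊓ X.basicOpen f) _ (basicOpen_ro _ _) inf_le_left _ ?_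
      rw [map_sub, rs_rs, rs_rs, sub_eq_zero]
      have e1 := congrArg (rs M (le_inf (inf_le_left.trans (hB.trans inf_le_left)) inf_le_right :
        B ⊓ X.basicOpen f ≤ X.basicOpen (g i) ⊓ X.basicOpen f)) (ht₁ i)
      have e2 := congrArg (rs M (le_inf (inf_le_left.trans (hB.trans inf_le_right)) inf_le_right :
        B ⊓ X.basicOpen f ≤ X.basicOpen (g j) ⊓ X.basicOpen f)) (ht₁ j)
      rw [rs_rs, rs_smul, rs_rs, map_pow, ro_ro, ro_ro] at e1 e2
      exact e1.trans e2.symm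
    have hmul : X.basicOpen (g i * g j) = X.basicOpen (g i) ⊓ X.basicOpen (g j) :=
      X.basicOpen_mul _ _
    exact key _ (hmul ▸ h (g i * g j)) le_rfl
  choose m hm using h2
  have hl' : ∀ p, ∃ l, ∑ p, m p = l + m p := fun i => ⟨∑ j ∈ Finset.univ.erase i, m j,
    (Finset.sum_erase_add _ _ (Finset.mem_univ i)).symm⟩
  choose l' hl' using hl'
  obtain ⟨K, hK⟩ : ∃ K, K = ∑ p, m p := ⟨_, rfl⟩
  obtain ⟨T, hT⟩ := exists_glue (M := M) (fun i => X.basicOpen (g i))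
    (fun i => hg i) hc
    (fun i => ro (hg i) f ^ K • t₁ i) (by
      intro i j
      rw [rs_smul, rs_smul, map_pow, map_pow, ro_ro, ro_ro, ← sub_eq_zero, ← smul_sub, hK,
        hl' (i, j), pow_add, mul_smul, hm (i, j), smul_zero])
  refine ⟨K + d, T, ?_⟩
  apply ext_rs (M := M) (fun i => X.basicOpen (g i) ⊓ X.basicOpen f) (fun i => inf_le_right)
  · intro x hx
    obtain ⟨i, hi⟩ := Opens.mem_iSup.1 (hc ((X.basicOpen_le f) hx))
    exact Opens.mem_iSup.2 ⟨i, hi, hx⟩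
  · intro i
    have e1 := congrArg (rs M (inf_le_left : X.basicOpen (g i) ⊓ X.basicOpen f ≤ _)) (hT i)
    rw [rs_rs, rs_smul, ht₁, map_pow, smul_smul, ← pow_add, ro_ro] at e1
    rw [rs_rs, rs_smul, map_pow, ro_ro]
    exact e1

end General

variable {k : Type} [Field k] {A : Type} [CommRing A] [Algebra k A]
  {𝒜 : ℕ → Submodule k A} [GradedAlgebra 𝒜]

/-- The value of a fraction at a point. -/
lemma fv_fr {f : A} {d : ℕ} (hf : f ∈ 𝒜 d) (r : ℕ) (a : A) (ha : a ∈ 𝒜 (r * d))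
    (x : ProjectiveSpectrum.top 𝒜) (hx : x ∈ DD 𝒜 f) :
    (fv (fr hf r a ha) x hx).val = Localization.mk a ⟨f ^ r, (pc x).pow_mem hx r⟩ := rfl

lemma fv_pow {U : (Proj 𝒜).Opens} (f : Γ(Proj 𝒜, U)) (q : ℕ) (x : ProjectiveSpectrum.top 𝒜)
    (hx : x ∈ U) : fv (f ^ q) x hx = fv f x hx ^ q := by
  induction q with
  | zero => rw [pow_zero, pow_zero]; rfl
  | succ q ih => rw [pow_succ, pow_succ, ← ih]; rfl

lemma fv_ro {U V : (Proj 𝒜).Opens} (h : V ≤ U) (f : Γ(Proj 𝒜, U)) (x : ProjectiveSpectrum.top 𝒜)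
    (hx : x ∈ V) : fv (ro h f) x hx = fv f x (h hx) := rfl

lemma mk_smul_mk' {N : GM 𝒜} {x : ProjectiveSpectrum.top 𝒜} (a : A) (m : N.M) (s t : pc x) :
    (Localization.mk a s) • (LocalizedModule.mk m t : Lo N x) = LocalizedModule.mk (a • m) (s * t) :=
  LocalizedModule.mk_smul_mk ..

lemma DD_inf (h a : A) : DD 𝒜 h ⊓ DD 𝒜 a = DD 𝒜 (h * a) := (Proj.basicOpen_mul 𝒜 h a).symm

theorem qb_DD (N : GM 𝒜) [IsGr N] (j : ℤ) {h : A} {d : ℕ} (hh : h ∈ 𝒜 d) (hd : 0 < d) :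
    QB (til N j) (DD 𝒜 h) where
  ext f s := by
    obtain ⟨r, a, ha, rfl⟩ := exists_fr hh hd f
    have hD : (Proj 𝒜).basicOpen (fr hh r a ha) = DD 𝒜 (h * a) := by
      rw [basicOpen_fr, DD_inf]
    have key : ∀ D : (Proj 𝒜).Opens, D = DD 𝒜 (h * a) → ∀ (hle : D ≤ DD 𝒜 h) (s : Γ(til N j, D)),
        ∃ (k : ℕ) (t : Γ(til N j, DD 𝒜 h)), rs (til N j) hle t =
          ro hle (fr hh r a ha) ^ k • s := by
      rintro D rfl hle s
      obtain ⟨q, m, hm, hs⟩ := exists_fraction (SetLike.mul_mem_graded hh ha) (by omega) s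
      obtain ⟨t, ht⟩ := exists_section (N := N) (j := j) (DD 𝒜 h) ((r + 1) * q * d) m
        (h ^ ((r + 1) * q)) (by
          rwa [show ((r + 1) * q * d : ℕ) = (q * (d + r * d) : ℕ) by ring])
        (SetLike.pow_mem_graded _ hh) (fun x hx => (pc x).pow_mem hx _)
      refine ⟨q, t, ?_⟩
      apply vl_ext
      intro x hx
      rw [vl_rs, ht, vl_smul, hs x hx, ← map_pow, fv_ro, fv_pow, HomogeneousLocalization.val_pow,
        fv_fr, Localization.mk_pow, mk_smul_mk', LocalizedModule.mk_eq]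
      refine ⟨1, ?_⟩
      change (1 : A) • ((h ^ r) ^ q * (h * a) ^ q) • m = (1 : A) • h ^ ((r + 1) * q) • a ^ q • m
      rw [one_smul, one_smul, smul_smul]
      congr 1
      ring
    exact key _ hD _ s
  uniq f t ht := by
    obtain ⟨r, a, ha, rfl⟩ := exists_fr hh hd f
    have hD : (Proj 𝒜).basicOpen (fr hh r a ha) = DD 𝒜 (h * a) := by
      rw [basicOpen_fr, DD_inf]
    obtain ⟨q, m, hm, hs⟩ := exists_fraction hh hd t
    obtain ⟨n, hn⟩ := pow_smul_eq_zero (SetLike.mul_mem_graded hh ha) (by omega) hm (fun x hx => by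
      have hx' : x ∈ (Proj 𝒜).basicOpen (fr hh r a ha) := by
        rw [hD]
        exact hx
      have h1 := congrArg (fun z => vl z x hx') ht
      simp only [vl_rs, vl_zero] at h1
      rw [hs] at h1
      exact ⟨_, h1⟩)
    refine ⟨n, ?_⟩
    apply vl_ext
    intro x hx
    rw [vl_smul, vl_zero, fv_pow, HomogeneousLocalization.val_pow, fv_fr, Localization.mk_pow,
      hs x hx, mk_smul_mk']
    refine mk_eq_zero_of (c := h ^ n) ((pc x).pow_mem hx n) ?_ _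
    rw [smul_smul, ← mul_pow]
    exact hn

lemma isAffine_DD {h : A} {d : ℕ} (hh : h ∈ 𝒜 d) (hd : 0 < d) : IsAffineOpen (DD 𝒜 h) :=
  Proj.isAffineOpen_basicOpen 𝒜 h hh hd

theorem qcOn_til (N : GM 𝒜) [IsGr N] (j : ℤ) (W : (Proj 𝒜).Opens) : QCOn (til N j) W := by
  apply qcOn_of_local
  intro x _
  obtain ⟨n, a, -, hn, ha, hax⟩ := exists_den x 0
  refine ⟨DD 𝒜 a, hax, qcOn_of_basis (isAffine_DD ha hn) fun g => ?_⟩
  obtain ⟨r, b, hb, rfl⟩ := exists_fr ha hn g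
  have hD : (Proj 𝒜).basicOpen (fr ha r b hb) = DD 𝒜 (a * b) := by
    rw [basicOpen_fr, DD_inf]
  rw [hD]
  exact qb_DD N j (SetLike.mul_mem_graded ha hb) (by omega)

end

end Run7.h164
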