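import Pool.Agent.Run7.h164.DR
import Pool.Agent.Run7.h164.TB

set_option autoImplicit false
set_option linter.unusedVariables false

/-!
Laurent polynomials with coefficients in a Clifford module.
-/

namespace Run7.h164

noncomputable section

/-- Extension of a ring homomorphism to a quadratic algebra. -/
def dblHom {D E : Type} [CommRing D] [Ring E] (ρ : D →+* E) (F : D) (W : E)
    (hc : ∀ d, ρ d * W = W * ρ d) (hW : W * W = ρ F) : QuadraticAlgebra D F 0 →+* E where
  toFun z := ρ z.re + ρ z.im * W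
  map_one' := by
    rw [QuadraticAlgebra.re_one, QuadraticAlgebra.im_one, map_one, map_zero, zero_mul, add_zero]
  map_mul' x y := by
    simp only [QuadraticAlgebra.re_mul, QuadraticAlgebra.im_mul, map_add, map_mul,
      zero_mul, add_zero]
    have h1 : ρ x.im * W * (ρ y.im * W) = ρ F * ρ x.im * ρ y.im := by
      have e : ρ x.im * W * (ρ y.im * W) = ρ x.im * ((ρ y.im * W) * W) := by
        rw [mul_assoc, ← mul_assoc W, ← hc y.im]
      rw [e, mul_assoc, hW, ← map_mul, ← map_mul, ← map_mul, ← map_mul]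
      congr 1
      ring
    have h2 : ρ x.im * W * ρ y.re = ρ x.im * ρ y.re * W := by
      rw [mul_assoc, ← hc, mul_assoc]
    have h3 : (ρ x.re + ρ x.im * W) * (ρ y.re + ρ y.im * W) = ρ x.re * ρ y.re +
        ρ x.re * ρ y.im * W + (ρ x.im * W * ρ y.re + ρ x.im * W * (ρ y.im * W)) := by
      rw [add_mul, mul_add, mul_add, mul_assoc (ρ x.re)]
    rw [h3, h1, h2, add_mul]
    abel
  map_zero' := by simp
  map_add' x y := by
    rw [QuadraticAlgebra.re_add, QuadraticAlgebra.im_add, map_add, map_add, add_mul]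
    abel

variable {A₀ : Type} [CommRing A₀] [Algebra ℂ A₀]

/-- The coefficients seen from one of the two sides. -/
def Gs (sd : Bool) (G : Fin 3 → Fin 3 → Fin 3 → Fin 3 → ℂ) (i j k l : Fin 3) : ℂ :=
  if sd then G k l i j else G i j k l

/-- The coefficients of the quadratic form. -/
def gk (G : Fin 3 → Fin 3 → Fin 3 → Fin 3 → ℂ) (sd : Bool) (a : Fin 3 → A₀) (k l : Fin 3) : A₀ :=
  ∑ i, ∑ j, Gs sd G i j k l • (a i * a j)

/-- Clifford modules. -/
structure CM (G : Fin 3 → Fin 3 → Fin 3 → Fin 3 → ℂ) (sd : Bool) (a : Fin 3 → A₀) where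
  /-- the module -/
  C : Type
  [grp : AddCommGroup C]
  [mod : Module A₀ C]
  /-- the generators -/
  E : Fin 3 → Module.End A₀ C
  sq : ∀ k, E k * E k = algebraMap A₀ _ (gk G sd a k k)
  rel : ∀ k l, E k * E l + E l * E k = algebraMap A₀ _ (gk G sd a k l + gk G sd a l k)

attribute [instance] CM.grp CM.mod

/-- Exponents. -/
abbrev Ex : Type := Fin 3 → ℤ

/-- Shift of exponents. -/
def sh {C : Type} [AddCommGroup C] [Module A₀ C] (e : Ex) : (Ex →₀ C) →ₗ[A₀] (Ex →₀ C) :=
  (Finsupp.domLCongr (Equiv.addLeft e)).toLinearMap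

omit [Algebra ℂ A₀] in
lemma sh_apply {C : Type} [AddCommGroup C] [Module A₀ C] (e : Ex) (l : Ex →₀ C) (x : Ex) :
    sh (A₀ := A₀) e l x = l (-e + x) := rfl

/-- Maps on coefficients. -/
def cf {C C' : Type} [AddCommGroup C] [Module A₀ C] [AddCommGroup C'] [Module A₀ C']
    (T : C →ₗ[A₀] C') : (Ex →₀ C) →ₗ[A₀] (Ex →₀ C') := Finsupp.mapRange.linearMap T

omit [Algebra ℂ A₀] in
lemma cf_apply {C C' : Type} [AddCommGroup C] [Module A₀ C] [AddCommGroup C'] [Module A₀ C']
    (T : C →ₗ[A₀] C') (l : Ex →₀ C) (x : Ex) : cf T l x = T (l x) := rfl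

variable {G : Fin 3 → Fin 3 → Fin 3 → Fin 3 → ℂ} {sd : Bool} {a : Fin 3 → A₀}
  (M : CM G sd a)

/-- The exponents seen from one of the two sides. -/
def pm (sd : Bool) (m : Gm) : (Fin 3 → ℕ) × (Fin 3 → ℕ) := if sd then m.1.swap else m.1

lemma pm_add (m m' : Gm) : pm sd (m + m') = pm sd m + pm sd m' := by
  cases sd <;> rfl

lemma pm_zero : pm sd 0 = 0 := by
  cases sd <;> rfl

lemma sum_pm_fst (m : Gm) : ∑ i, (pm sd m).1 i = dg m := by
  cases sd
  · rfl
  · exact m.2.symm

lemma sum_pm_snd (m : Gm) : ∑ i, (pm sd m).2 i = dg m := by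
  cases sd
  · exact m.2.symm
  · rfl

/-- The index of a chart from one of the two sides. -/
def ch (sd : Bool) (i k : Fin 3) : Fin 3 × Fin 3 := if sd then (k, i) else (i, k)

lemma pm_um (i k : Fin 3) : pm sd (um (ch sd i k).1 (ch sd i k).2) =
    (Pi.single i 1, Pi.single k 1) := by
  cases sd <;> rfl

/-- The action of a monomial. -/
def mono (M : CM G sd a) (m : Gm) : Module.End A₀ (Ex →₀ M.C) :=
  (∏ i, a i ^ (pm sd m).1 i) • sh (fun i => ((pm sd m).2 i : ℤ))

omit [Algebra ℂ A₀] in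
lemma endExt {C C' : Type} [AddCommGroup C] [Module A₀ C] [AddCommGroup C'] [Module A₀ C']
    {S T : (Ex →₀ C) →ₗ[A₀] (Ex →₀ C')} (h : ∀ l x, S l x = T l x) : S = T :=
  LinearMap.ext fun l => Finsupp.ext fun x => h l x

lemma sh_mul (M : CM G sd a) (e e' : Ex) : (sh e * sh e' : Module.End A₀ (Ex →₀ M.C)) =
    sh (e + e') := by
  refine endExt fun l x => ?_
  rw [Module.End.mul_apply, sh_apply, sh_apply, sh_apply]
  congr 1
  abel

lemma sh_zero (M : CM G sd a) : (sh 0 : Module.End A₀ (Ex →₀ M.C)) = 1 := by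
  refine endExt fun l x => ?_
  rw [sh_apply, neg_zero, zero_add]
  rfl

lemma sh_cf (M : CM G sd a) (e : Ex) (T : Module.End A₀ M.C) :
    (sh e * cf T : Module.End A₀ (Ex →₀ M.C)) = cf T * sh e :=
  endExt fun l x => rfl

lemma cf_mul (M : CM G sd a) (T T' : Module.End A₀ M.C) :
    (cf T * cf T' : Module.End A₀ (Ex →₀ M.C)) = cf (T * T') :=
  endExt fun l x => rfl

lemma cf_add (M : CM G sd a) (T T' : Module.End A₀ M.C) :
    (cf (T + T') : Module.End A₀ (Ex →₀ M.C)) = cf T + cf T' :=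
  endExt fun l x => rfl

lemma cf_algebraMap (M : CM G sd a) (c : A₀) :
    (cf (algebraMap A₀ (Module.End A₀ M.C) c) : Module.End A₀ (Ex →₀ M.C)) =
      algebraMap A₀ _ c :=
  endExt fun l x => rfl

/-- The action of monomials as a homomorphism. -/
def monoH (M : CM G sd a) : Multiplicative Gm →* Module.End A₀ (Ex →₀ M.C) where
  toFun m := mono M m.toAdd
  map_one' := by
    change mono M 0 = 1
    rw [mono, pm_zero]
    have h1 : ∏ i, a i ^ (0 : (Fin 3 → ℕ) × (Fin 3 → ℕ)).1 i = 1 := by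
      simp
    rw [h1, one_smul]
    exact sh_zero M
  map_mul' m m' := by
    change mono M (m.toAdd + m'.toAdd) = mono M m.toAdd * mono M m'.toAdd
    rw [mono, mono, mono, pm_add, smul_mul_smul_comm, sh_mul]
    congr 1
    simp only [Prod.fst_add, Pi.add_apply, pow_add, Finset.prod_mul_distrib]

/-- The action of the coordinate ring of the product. -/
def actB (M : CM G sd a) : Bi →+* Module.End A₀ (Ex →₀ M.C) :=
  AddMonoidAlgebra.liftNCRingHom
    ((algebraMap A₀ (Module.End A₀ (Ex →₀ M.C))).comp (algebraMap ℂ A₀)) (monoH M)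
    (fun x y => Algebra.commutes (R := A₀) (A := Module.End A₀ (Ex →₀ M.C)) _ _)

lemma actB_single (m : Gm) (c : ℂ) : actB M (AddMonoidAlgebra.single m c) =
    algebraMap ℂ A₀ c • mono M m := by
  change AddMonoidAlgebra.liftNC _ _ _ = _
  rw [AddMonoidAlgebra.liftNC_single]
  change algebraMap A₀ (Module.End A₀ (Ex →₀ M.C)) (algebraMap ℂ A₀ c) * mono M m = _
  rw [← Algebra.smul_def]

/-- The unit exponents. -/
def ue (k : Fin 3) : Ex := Pi.single k 1

lemma actB_uu (i k : Fin 3) : actB M (uu (ch sd i k).1 (ch sd i k).2) = a i • sh (ue k) := by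
  rw [uu, actB_single, map_one, one_smul, mono, pm_um]
  congr 1
  · rw [Finset.prod_eq_single i]
    · change a i ^ (Pi.single i 1 : Fin 3 → ℕ) i = a i
      rw [Pi.single_eq_same, pow_one]
    · intro j _ hj
      change a j ^ (Pi.single i 1 : Fin 3 → ℕ) j = 1
      rw [Pi.single_eq_of_ne hj, pow_zero]
    · intro h
      exact absurd (Finset.mem_univ _) h
  · congr 1
    funext j
    by_cases hj : j = k
    · subst hj
      simp [ue]
    · simp [ue, Pi.single_eq_of_ne hj]

/-- The action of the square root. -/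
def actW (M : CM G sd a) : Module.End A₀ (Ex →₀ M.C) := ∑ k, sh (ue k) * cf (M.E k)

lemma sum4_comm {B : Type} [AddCommMonoid B] (g : Fin 3 → Fin 3 → Fin 3 → Fin 3 → B) :
    ∑ i, ∑ j, ∑ k, ∑ l, g i j k l = ∑ k, ∑ l, ∑ i, ∑ j, g i j k l := by
  have h := Finset.sum_comm (s := (Finset.univ : Finset (Fin 3 × Fin 3)))
    (t := (Finset.univ : Finset (Fin 3 × Fin 3))) (f := fun p q => g p.1 p.2 q.1 q.2)
  simpa only [Fintype.sum_prod_type] using h

lemma FD_eq (G : Fin 3 → Fin 3 → Fin 3 → Fin 3 → ℂ) (sd : Bool) :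
    FD G = ∑ i, ∑ j, ∑ k, ∑ l, Gs sd G i j k l •
    (uu (ch sd i k).1 (ch sd i k).2 * uu (ch sd j l).1 (ch sd j l).2) := by
  cases sd
  · rfl
  · exact sum4_comm fun i j k l => G i j k l • (uu i k * uu j l)

lemma actB_smul (M : CM G sd a) (c : ℂ) (x : Bi) :
    actB M (c • x) = algebraMap ℂ A₀ c • actB M x := by
  have h1 : c • x = AddMonoidAlgebra.single 0 c * x := by
    rw [Algebra.smul_def]
    rfl
  rw [h1, map_mul, actB_single]
  have h2 : mono M 0 = 1 := (monoH M).map_one
  rw [h2, smul_mul_assoc, one_mul]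

/-- The Clifford relations for the square root. -/
lemma actW_sq (M : CM G sd a) : actW M * actW M = actB M (FD G) := by
  have h1 : actW M * actW M = ∑ k, ∑ l, sh (ue k + ue l) * cf (M.E k * M.E l) := by
    rw [actW, Finset.sum_mul_sum]
    refine Finset.sum_congr rfl fun k _ => Finset.sum_congr rfl fun l _ => ?_
    rw [← sh_mul, ← cf_mul, mul_assoc, mul_assoc, ← mul_assoc (cf (M.E k)), ← sh_cf, mul_assoc]
  have h2 : actB M (FD G) = ∑ k, ∑ l, sh (ue k + ue l) *
      cf (algebraMap A₀ _ (gk G sd a k l)) := by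
    rw [FD_eq G sd, sum4_comm, map_sum]
    refine Finset.sum_congr rfl fun k _ => ?_
    rw [map_sum]
    refine Finset.sum_congr rfl fun l _ => ?_
    rw [map_sum, cf_algebraMap, ← Algebra.commutes, ← Algebra.smul_def, gk, Finset.sum_smul]
    refine Finset.sum_congr rfl fun i _ => ?_
    rw [map_sum, Finset.sum_smul]
    refine Finset.sum_congr rfl fun j _ => ?_
    rw [actB_smul, map_mul, actB_uu, actB_uu, smul_mul_smul_comm, sh_mul, Algebra.smul_def
      (Gs sd G i j k l), smul_smul]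
  rw [h1, h2]
  have hs : ∀ k l, (sh (ue l + ue k) : Module.End A₀ (Ex →₀ M.C)) = sh (ue k + ue l) := by
    intro k l
    rw [add_comm]
  have hd : ∀ k, sh (ue k + ue k) * cf (M.E k * M.E k) = sh (ue k + ue k) *
      cf (algebraMap A₀ _ (gk G sd a k k)) := fun k => by rw [M.sq]
  have ho : ∀ k l, sh (ue k + ue l) * cf (M.E k * M.E l) +
      sh (ue k + ue l) * cf (M.E l * M.E k) = sh (ue k + ue l) *
      cf (algebraMap A₀ _ (gk G sd a k l)) + sh (ue k + ue l) *
      cf (algebraMap A₀ _ (gk G sd a l k)) := by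
    intro k l
    rw [← mul_add, ← mul_add, ← cf_add, ← cf_add, M.rel, map_add]
  simp only [Fin.sum_univ_three]
  rw [hs 0 1, hs 0 2, hs 1 2]
  have e : ∀ (x00 x01 x02 x10 x11 x12 x20 x21 x22 : Module.End A₀ (Ex →₀ M.C)),
      (x00 + x01 + x02) + (x10 + x11 + x12) + (x20 + x21 + x22) =
      x00 + x11 + x22 + (x01 + x10) + (x02 + x20) + (x12 + x21) := by
    intros
    abel
  rw [e, e, ho 0 1, ho 0 2, ho 1 2, hd 0, hd 1, hd 2]

lemma mono_commute (M : CM G sd a) (m : Gm) : mono M m * actW M = actW M * mono M m := by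
  rw [actW, Finset.mul_sum, Finset.sum_mul]
  refine Finset.sum_congr rfl fun k _ => ?_
  rw [mono, smul_mul_assoc, mul_smul_comm, ← mul_assoc, sh_mul, mul_assoc, ← sh_cf, ← mul_assoc,
    sh_mul, add_comm]

lemma actB_commute (M : CM G sd a) (d : Bi) : actB M d * actW M = actW M * actB M d := by
  have h1 : d = ∑ m ∈ d.coeff.support, (AddMonoidAlgebra.single m (d.coeff m) : Bi) := by
    have := AddMonoidAlgebra.sum_coeff_single d
    rw [Finsupp.sum] at this
    exact this.symm
  rw [h1, map_sum, Finset.mul_sum, Finset.sum_mul]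
  refine Finset.sum_congr rfl fun m _ => ?_
  rw [actB_single, smul_mul_assoc, mul_smul_comm, mono_commute]

/-- The action of the coordinate ring of the double cover. -/
def act (M : CM G sd a) : RF G →+* Module.End A₀ (Ex →₀ M.C) :=
  dblHom (actB M) (FD G) (actW M) (actB_commute M) (actW_sq M)

/-- The Laurent module. -/
def LM (M : CM G sd a) : Type := Ex →₀ M.C

instance (M : CM G sd a) : AddCommGroup (LM M) := inferInstanceAs (AddCommGroup (Ex →₀ M.C))

instance (M : CM G sd a) : Module A₀ (LM M) := inferInstanceAs (Module A₀ (Ex →₀ M.C))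

instance (M : CM G sd a) : Module (RF G) (LM M) :=
  Module.compHom (Ex →₀ M.C) (act M)

end

end Run7.h164
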