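import Pool.Agent.Run7.h164.VX
import Pool.Agent.Run7.h164.LV

set_option autoImplicit false
set_option linter.unusedVariables false
set_option linter.unusedSectionVars false

/-!
The coordinate rings of the charts.
-/

open CategoryTheory Limits TopologicalSpace AlgebraicGeometry Opposite HomogeneousLocalization

namespace Run7.h164

noncomputable section

set_option backward.isDefEq.respectTransparency false

open Pool.Agent.W506 (ro ro_ro ro_refl basicOpen_ro)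
open Pool.Agent.R924

section General

variable {k : Type} [Field k] {A : Type} [CommRing A] [IsDomain A] [Algebra k A]
  {𝒜 : ℕ → Submodule k A} [GradedAlgebra 𝒜] {Q : Type} [CommRing Q] {u : A} (hu : u ∈ 𝒜 1)
  (hu0 : u ≠ 0) (ρ : A →+* Q) (hρ : ρ u = 1) (hinj : ∀ n, ∀ a ∈ 𝒜 n, ρ a = 0 → a = 0)
  (hsurj : ∀ q, ∃ n, ∃ a ∈ 𝒜 n, ρ a = q)

include hu0 hρ in
lemma chart_wd {r l : ℕ} {a b : A} (ha : a ∈ 𝒜 (r * 1)) (hb : b ∈ 𝒜 (l * 1))
    (h : fr hu r a ha = fr hu l b hb) : ρ a = ρ b := by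
  rw [fr_eq_iff hu one_pos hu0] at h
  have h1 := congrArg ρ h
  rwa [map_mul, map_mul, map_pow, map_pow, hρ, one_pow, one_pow, one_mul, one_mul] at h1

/-- The value of a function on a chart. -/
def chV (s : Γ(Proj 𝒜, DD 𝒜 u)) : Q := ρ (exists_fr hu one_pos s).choose_spec.choose

include hu0 hρ in
lemma chV_fr (r : ℕ) (a : A) (ha : a ∈ 𝒜 (r * 1)) : chV hu ρ (fr hu r a ha) = ρ a :=
  chart_wd hu hu0 ρ hρ _ ha (exists_fr hu one_pos (fr hu r a ha)).choose_spec.choose_spec.choose_spec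

include hu0 in
lemma fr_lift (r l : ℕ) (a : A) (ha : a ∈ 𝒜 (r * 1)) (h' : a * u ^ l ∈ 𝒜 ((r + l) * 1)) :
    fr hu r a ha = fr hu (r + l) (a * u ^ l) h' := by
  rw [fr_eq_iff hu one_pos hu0]
  ring

lemma lift_mem (hu : u ∈ 𝒜 1) (r l : ℕ) (a : A) (ha : a ∈ 𝒜 (r * 1)) :
    a * u ^ l ∈ 𝒜 ((r + l) * 1) := by
  have h1 : u ^ l ∈ 𝒜 (l • 1) := SetLike.pow_mem_graded l hu
  exact mul_mem_gr ha h1 (by rw [smul_eq_mul, add_mul])

/-- The coordinate ring of a chart. -/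
def chEq : Γ(Proj 𝒜, DD 𝒜 u) ≃+* Q :=
  RingEquiv.ofBijective
    ({ toFun := chV hu ρ
       map_one' := by
         rw [← fr_one hu (by rw [zero_mul]; exact SetLike.GradedOne.one_mem),
           chV_fr hu hu0 ρ hρ, map_one]
       map_mul' := by
         intro s t
         obtain ⟨r, a, ha, rfl⟩ := exists_fr hu one_pos s
         obtain ⟨l, b, hb, rfl⟩ := exists_fr hu one_pos t
         rw [fr_mul, chV_fr hu hu0 ρ hρ, chV_fr hu hu0 ρ hρ, chV_fr hu hu0 ρ hρ, map_mul]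
       map_zero' := by
         rw [← fr_zero hu 0 (zero_mem _), chV_fr hu hu0 ρ hρ, map_zero]
       map_add' := by
         intro s t
         obtain ⟨r, a, ha, rfl⟩ := exists_fr hu one_pos s
         obtain ⟨l, b, hb, rfl⟩ := exists_fr hu one_pos t
         have h2 : b * u ^ r ∈ 𝒜 ((r + l) * 1) := by
           have := lift_mem hu l r b hb
           rwa [add_comm l r] at this
         have h3 : fr hu l b hb = fr hu (r + l) (b * u ^ r) h2 := by
           rw [fr_eq_iff hu one_pos hu0]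
           ring
         rw [fr_lift hu hu0 r l a ha (lift_mem hu r l a ha), h3, fr_add,
           chV_fr hu hu0 ρ hρ, chV_fr hu hu0 ρ hρ, chV_fr hu hu0 ρ hρ, map_add] } :
      Γ(Proj 𝒜, DD 𝒜 u) →+* Q) (by
    constructor
    · rw [injective_iff_map_eq_zero]
      intro s hs
      obtain ⟨r, a, ha, rfl⟩ := exists_fr hu one_pos s
      have h1 : ρ a = 0 := (chV_fr hu hu0 ρ hρ r a ha).symm.trans hs
      rw [fr_eq_zero_iff hu one_pos hu0]
      exact hinj _ a ha h1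
    · intro q
      obtain ⟨n, a, ha, rfl⟩ := hsurj q
      have ha' : a ∈ 𝒜 (n * 1) := by rwa [mul_one]
      exact ⟨fr hu n a ha', chV_fr hu hu0 ρ hρ n a ha'⟩)

lemma chEq_fr (r : ℕ) (a : A) (ha : a ∈ 𝒜 (r * 1)) :
    chEq hu hu0 ρ hρ hinj hsurj (fr hu r a ha) = ρ a := chV_fr hu hu0 ρ hρ r a ha

end General

/-- The polynomial ring in four variables. -/
abbrev P4 : Type := MvPolynomial (Fin 4) ℂ

/-- The dehomogenized first variables. -/
def xv (i₀ : Fin 3) : Fin 3 → P4 := Fin.insertNth i₀ 1 ![MvPolynomial.X 0, MvPolynomial.X 1]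

/-- The dehomogenized second variables. -/
def yv (k₀ : Fin 3) : Fin 3 → P4 := Fin.insertNth k₀ 1 ![MvPolynomial.X 2, MvPolynomial.X 3]

/-- The exponents of dehomogenized monomials. -/
def e4 (i₀ k₀ : Fin 3) (m : Gm) : Fin 4 →₀ ℕ :=
  Finsupp.equivFunOnFinite.symm ![m.1.1 (i₀.succAbove 0), m.1.1 (i₀.succAbove 1),
    m.1.2 (k₀.succAbove 0), m.1.2 (k₀.succAbove 1)]

lemma prod_ins (i₀ : Fin 3) (p : Fin 3 → ℕ) (s t : P4) :
    ∏ i, (Fin.insertNth i₀ (1 : P4) ![s, t] : Fin 3 → P4) i ^ p i =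
      s ^ p (i₀.succAbove 0) * t ^ p (i₀.succAbove 1) := by
  have h := Fin.prod_univ_succAbove (fun i => (Fin.insertNth i₀ (1 : P4) ![s, t] :
    Fin 3 → P4) i ^ p i) i₀
  rw [h, Fin.insertNth_apply_same, one_pow, one_mul, Fin.prod_univ_two,
    Fin.insertNth_apply_succAbove, Fin.insertNth_apply_succAbove]
  rfl

lemma evB_mono (i₀ k₀ : Fin 3) (m : Gm) (c : ℂ) :
    evB (xv i₀) (yv k₀) (AddMonoidAlgebra.single m c) = MvPolynomial.monomial (e4 i₀ k₀ m) c := by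
  rw [evB_single, xv, yv, prod_ins, prod_ins, MvPolynomial.monomial_eq,
    MvPolynomial.smul_eq_C_mul, Finsupp.prod_fintype _ _ (fun i => pow_zero _)]
  congr 1
  rw [Fin.prod_univ_four]
  change _ = MvPolynomial.X 0 ^ (m.1.1 (i₀.succAbove 0)) * MvPolynomial.X 1 ^
    (m.1.1 (i₀.succAbove 1)) * MvPolynomial.X 2 ^ (m.1.2 (k₀.succAbove 0)) *
    MvPolynomial.X 3 ^ (m.1.2 (k₀.succAbove 1))
  ring

lemma sum_sA (i₀ : Fin 3) (p : Fin 3 → ℕ) :
    ∑ i, p i = p i₀ + (p (i₀.succAbove 0) + p (i₀.succAbove 1)) := by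
  rw [Fin.sum_univ_succAbove p i₀, Fin.sum_univ_two]

lemma e4_inj (i₀ k₀ : Fin 3) {m m' : Gm} (hd : dg m = dg m')
    (h : e4 i₀ k₀ m = e4 i₀ k₀ m') : m = m' := by
  have h1 := Finsupp.equivFunOnFinite.symm.injective h
  have h10 : m.1.1 (i₀.succAbove 0) = m'.1.1 (i₀.succAbove 0) := congrFun h1 0
  have h11 : m.1.1 (i₀.succAbove 1) = m'.1.1 (i₀.succAbove 1) := congrFun h1 1
  have h20 : m.1.2 (k₀.succAbove 0) = m'.1.2 (k₀.succAbove 0) := congrFun h1 2
  have h21 : m.1.2 (k₀.succAbove 1) = m'.1.2 (k₀.succAbove 1) := congrFun h1 3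
  have s1 : ∑ i, m.1.1 i = ∑ i, m'.1.1 i := hd
  have s2 : ∑ i, m.1.2 i = ∑ i, m'.1.2 i := by
    have e1 : ∑ i, m.1.1 i = ∑ i, m.1.2 i := m.2
    have e2 : ∑ i, m'.1.1 i = ∑ i, m'.1.2 i := m'.2
    omega
  have c1 := sum_sA i₀ m.1.1
  have c2 := sum_sA i₀ m'.1.1
  have c3 := sum_sA k₀ m.1.2
  have c4 := sum_sA k₀ m'.1.2
  apply Subtype.ext
  refine Prod.ext ?_ ?_
  · funext i
    rcases Fin.eq_self_or_eq_succAbove i₀ i with rfl | ⟨j, rfl⟩
    · omega
    · fin_cases j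
      · exact h10
      · exact h11
  · funext i
    rcases Fin.eq_self_or_eq_succAbove k₀ i with rfl | ⟨j, rfl⟩
    · omega
    · fin_cases j
      · exact h20
      · exact h21

lemma evB_eq_zero (i₀ k₀ : Fin 3) {n : ℕ} {a : Bi} (ha : a ∈ bg n)
    (h : evB (xv i₀) (yv k₀) a = 0) : a = 0 := by
  have h1 : a = ∑ m ∈ a.coeff.support, (AddMonoidAlgebra.single m (a.coeff m) : Bi) := by
    have := AddMonoidAlgebra.sum_coeff_single a
    rw [Finsupp.sum] at this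
    exact this.symm
  have h2 : ∀ m ∈ a.coeff.support, dg m = n := fun m hm => ha m hm
  have h3 : ∀ m ∈ a.coeff.support, a.coeff m = 0 := by
    intro m hm
    have h4 := congrArg (MvPolynomial.coeff (e4 i₀ k₀ m)) h
    rw [h1, map_sum, MvPolynomial.coeff_sum, MvPolynomial.coeff_zero] at h4
    simp only [evB_mono, MvPolynomial.coeff_monomial] at h4
    rw [Finset.sum_eq_single m] at h4
    · rwa [if_pos rfl] at h4
    · intro m' hm' hne
      rw [if_neg (fun h5 => hne (e4_inj i₀ k₀ ((h2 _ hm').trans (h2 _ hm).symm) h5))]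
    · intro h
      exact absurd hm h
  rw [h1]
  exact Finset.sum_eq_zero fun m hm => by rw [h3 m hm, AddMonoidAlgebra.single_zero]

lemma evB_uu_one (i₀ k₀ : Fin 3) : evB (xv i₀) (yv k₀) (uu i₀ k₀) = 1 := by
  rw [evB_uu, xv, yv, Fin.insertNth_apply_same, Fin.insertNth_apply_same, one_mul]

lemma exists_evB (i₀ k₀ : Fin 3) (q : P4) : ∃ n, ∃ a ∈ bg n, evB (xv i₀) (yv k₀) a = q := by
  induction q using MvPolynomial.induction_on' with
  | monomial e c =>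
    let n := e 0 + e 1 + (e 2 + e 3)
    let p : Fin 3 → ℕ := Fin.insertNth i₀ (e 2 + e 3) ![e 0, e 1]
    let q : Fin 3 → ℕ := Fin.insertNth k₀ (e 0 + e 1) ![e 2, e 3]
    have hp0 : p i₀ = e 2 + e 3 := Fin.insertNth_apply_same _ _ _
    have hq0 : q k₀ = e 0 + e 1 := Fin.insertNth_apply_same _ _ _
    have hp : ∀ j, p (i₀.succAbove j) = ![e 0, e 1] j := Fin.insertNth_apply_succAbove _ _ _
    have hq : ∀ j, q (k₀.succAbove j) = ![e 2, e 3] j := Fin.insertNth_apply_succAbove _ _ _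
    have sp : ∑ i, p i = n := by
      rw [sum_sA i₀, hp0, hp, hp]
      change e 2 + e 3 + (e 0 + e 1) = e 0 + e 1 + (e 2 + e 3)
      ring
    have sq : ∑ i, q i = n := by
      rw [sum_sA k₀, hq0, hq, hq]
      rfl
    let m : Gm := ⟨(p, q), sp.trans sq.symm⟩
    refine ⟨n, AddMonoidAlgebra.single m c, mo_mem (show dg m = n from sp) c, ?_⟩
    have he : e4 i₀ k₀ m = e := by
      ext j
      fin_cases j
      · exact hp 0
      · exact hp 1
      · exact hq 0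
      · exact hq 1
    rw [evB_mono, he]
  | add q q' h h' =>
    obtain ⟨n, a, ha, rfl⟩ := h
    obtain ⟨n', a', ha', rfl⟩ := h'
    have hu : ∀ n, uu i₀ k₀ ^ n ∈ bg n := fun n => by
      have := SetLike.pow_mem_graded (A := bg) n (uu_mem i₀ k₀)
      rwa [smul_eq_mul, mul_one] at this
    refine ⟨n + n', a * uu i₀ k₀ ^ n' + a' * uu i₀ k₀ ^ n,
      add_mem (SetLike.mul_mem_graded ha (hu n')) ?_, ?_⟩
    · rw [add_comm]
      exact SetLike.mul_mem_graded ha' (hu n)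
    · rw [map_add, map_mul, map_mul, map_pow, map_pow, evB_uu_one, one_pow, one_pow, mul_one,
        mul_one]

variable (V : Verra)

/-- The dehomogenized form. -/
def fch (i₀ k₀ : Fin 3) : P4 := fm V.G (xv i₀) (yv k₀)

/-- The coordinate ring of a chart. -/
abbrev Qch (i₀ k₀ : Fin 3) : Type := QuadraticAlgebra P4 (fch V i₀ k₀) 0

/-- Dehomogenization. -/
def rhoC (i₀ k₀ : Fin 3) : RF V.G →+* Qch V i₀ k₀ :=
  dblHom ((algebraMap P4 (Qch V i₀ k₀)).comp (evB (xv i₀) (yv k₀) : Bi →+* P4)) (FD V.G)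
    QuadraticAlgebra.omega (fun d => mul_comm _ _) (by
      rw [QuadraticAlgebra.omega_mul_omega_eq_mk, RingHom.comp_apply]
      change _ = algebraMap P4 (Qch V i₀ k₀) (evB (xv i₀) (yv k₀) (FD V.G))
      rw [evB_FD]
      rfl)

lemma rhoC_apply (i₀ k₀ : Fin 3) (z : RF V.G) : rhoC V i₀ k₀ z =
    ⟨evB (xv i₀) (yv k₀) z.re, evB (xv i₀) (yv k₀) z.im⟩ := by
  change algebraMap P4 (Qch V i₀ k₀) _ + algebraMap P4 (Qch V i₀ k₀) _ *
    QuadraticAlgebra.omega = _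
  rw [← Algebra.smul_def]
  exact (QuadraticAlgebra.mk_eq_add_smul_omega _ _).symm

lemma rhoC_one (i₀ k₀ : Fin 3) : rhoC V i₀ k₀ (gg V (i₀, k₀)) = 1 := by
  rw [rhoC_apply]
  refine QuadraticAlgebra.ext ?_ ?_
  · exact evB_uu_one i₀ k₀
  · exact map_zero _

lemma rhoC_inj (i₀ k₀ : Fin 3) (n : ℕ) (z : RF V.G) (hz : z ∈ rg V.G n)
    (h : rhoC V i₀ k₀ z = 0) : z = 0 := by
  rw [rhoC_apply] at h
  refine QuadraticAlgebra.ext ?_ ?_
  · exact evB_eq_zero i₀ k₀ hz.1 (congrArg QuadraticAlgebra.re h)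
  · have h2 := hz.2
    cases n with
    | zero => exact h2
    | succ n => exact evB_eq_zero i₀ k₀ (show z.im ∈ bg n from h2) (congrArg QuadraticAlgebra.im h)

lemma rhoC_surj (i₀ k₀ : Fin 3) (q : Qch V i₀ k₀) : ∃ n, ∃ a ∈ rg V.G n,
    rhoC V i₀ k₀ a = q := by
  obtain ⟨n, a, ha, h1⟩ := exists_evB i₀ k₀ q.re
  obtain ⟨n', a', ha', h2⟩ := exists_evB i₀ k₀ q.im
  have hu : ∀ n, uu i₀ k₀ ^ n ∈ bg n := fun n => by
    have := SetLike.pow_mem_graded (A := bg) n (uu_mem i₀ k₀)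
    rwa [smul_eq_mul, mul_one] at this
  refine ⟨n + n' + 1, ⟨a * uu i₀ k₀ ^ (n' + 1), a' * uu i₀ k₀ ^ n⟩, ⟨?_, ?_⟩, ?_⟩
  · have := SetLike.mul_mem_graded ha (hu (n' + 1))
    rwa [← add_assoc] at this
  · have := SetLike.mul_mem_graded ha' (hu n)
    change a' * uu i₀ k₀ ^ n ∈ bg (n + n')
    rwa [add_comm] at this
  · rw [rhoC_apply]
    refine QuadraticAlgebra.ext ?_ ?_
    · change evB _ _ (a * _) = _
      rw [map_mul, map_pow, evB_uu_one, one_pow, mul_one, h1]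
    · change evB _ _ (a' * _) = _
      rw [map_mul, map_pow, evB_uu_one, one_pow, mul_one, h2]

/-- The coordinate ring of a chart. -/
def chQ (i₀ k₀ : Fin 3) : Γ(VX V, (VF V).U (i₀, k₀)) ≃+* Qch V i₀ k₀ :=
  chEq (gg_mem V (i₀, k₀)) (gg_ne V (i₀, k₀)) (rhoC V i₀ k₀) (rhoC_one V i₀ k₀)
    (rhoC_inj V i₀ k₀) (rhoC_surj V i₀ k₀)

lemma chQ_fr (i₀ k₀ : Fin 3) (r : ℕ) (a : RF V.G) (ha : a ∈ rg V.G (r * 1)) :
    chQ V i₀ k₀ (fr (gg_mem V (i₀, k₀)) r a ha) = rhoC V i₀ k₀ a := chEq_fr _ _ _ _ _ _ _ _ _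

end

end Run7.h164
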