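import Pool.Agent.Run7.h164.CI
import Pool.Agent.Run7.h164.CK

set_option autoImplicit false
set_option linter.unusedVariables false
set_option linter.unusedSectionVars false

/-!
The variables as commuting operators on the modules of line bundles and on Clifford modules.
-/

open CategoryTheory Limits TopologicalSpace AlgebraicGeometry Opposite TopCat

namespace Run7.h164

noncomputable section

set_option backward.isDefEq.respectTransparency false

open Pool.Agent.W506 Pool.Agent.N212
open Pool.Agent.R924 (DD Frame sg)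

/-- The exponents of the variables of one of the planes. -/
def xo (s : Bool) (i : Fin 3) : E2 := if s then (0, ue i) else (ue i, 0)

/-- The degree of these variables. -/
def dx (s : Bool) : ℤ := if s then 0 else 1

/-- The degree of these variables. -/
def dy (s : Bool) : ℤ := if s then 1 else 0

lemma sm_zero : sm (0 : Ex) = 0 := by simp [sm]

lemma sm_xo₁ (s : Bool) (i : Fin 3) : sm (xo s i).1 = dx s := by
  cases s
  · exact sm_ue i
  · exact sm_zero

lemma sm_xo₂ (s : Bool) (i : Fin 3) : sm (xo s i).2 = dy s := by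
  cases s
  · exact sm_zero
  · exact sm_ue i

lemma xo_nonneg₁ (s : Bool) (i k : Fin 3) : 0 ≤ (xo s i).1 k := by
  cases s
  · exact ue_nonneg i k
  · exact le_rfl

lemma xo_nonneg₂ (s : Bool) (i k : Fin 3) : 0 ≤ (xo s i).2 k := by
  cases s
  · exact le_rfl
  · exact ue_nonneg i k

/-- Multiplication by a monomial. -/
def moL (G : Fin 3 → Fin 3 → Fin 3 → Fin 3 → ℂ) (n : ℕ) (t : E2) : LM2 G n →ₗ[RF G] LM2 G n where
  toFun v := mo G t • v
  map_add' v w := smul_add _ _ _
  map_smul' r v := by
    rw [RingHom.id_apply, rsmul_def, rsmul_def, smul_smul, smul_smul, mul_comm]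

variable (V : Verra)

/-- The modules. -/
abbrev NLj (n : ℕ) (s : Bool) (a b j : ℤ) : GM (rg V.G) := NL V.G n (a - j * dx s) (b - j * dy s)

/-- The variables. -/
def xg (n : ℕ) (s : Bool) (a b j : ℤ) (i : Fin 3) :
    GH (NLj V n s a b (j + 1)) (NLj V n s a b j) 0 where
  f := moL V.G n (xo s i)
  map_deg {m v} h := by
    refine mo_mem_MS' V h ?_ ?_ (Finset.Subset.refl _) (Finset.Subset.refl _)
      (fun k _ => xo_nonneg₁ s i k) (fun k _ => xo_nonneg₂ s i k)
    · rw [sm_xo₁]; ring
    · rw [sm_xo₂]; ring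

lemma mo_comm (n : ℕ) (t t' : E2) (v : LM2 V.G n) : mo V.G t • mo V.G t' • v =
    mo V.G t' • mo V.G t • v := by
  rw [mo_mo_smul, mo_mo_smul, add_comm]

/-- Multiplication as an additive map. -/
def moA (n : ℕ) (t : E2) : LM2 V.G n →+ LM2 V.G n where
  toFun v := mo V.G t • v
  map_zero' := smul_zero _
  map_add' v w := smul_add _ _ _

lemma mo_inj (n : ℕ) (t : E2) : Function.Injective fun v : LM2 V.G n => mo V.G t • v := by
  intro v w h
  have h1 := congrArg (fun u => mo V.G (-t) • u) h
  simp only at h1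
  rwa [mo_smul_neg, mo_smul_neg] at h1

lemma exists_gg (x : ProjectiveSpectrum.top (rg V.G)) : ∃ j : Fin 3 × Fin 3,
    gg V j ∈ Pool.Agent.N212.pc x := by
  obtain ⟨j, hj⟩ := (VF V).cover x
  exact ⟨j, hj⟩

/-- The variables as operators on line bundles. -/
def kdL (n : ℕ) (s : Bool) (a b : ℤ) : KD (NLj V n s a b (0 + 1 + 1 + 1))
    (NLj V n s a b (0 + 1 + 1)) (NLj V n s a b (0 + 1)) (NLj V n s a b 0) 0 where
  a i := xg V n s a b _ i
  b i := xg V n s a b _ i
  c i := xg V n s a b _ i
  ab i j m := mo_comm V n _ _ _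
  bc i j m := mo_comm V n _ _ _
  inj := mo_inj V n _
  loc x := by
    obtain ⟨j, hj⟩ := exists_gg V x
    have key : ∃ t k : Fin 3, xo s t + xo (!s) k = (ue j.1, ue j.2) := by
      cases s
      · exact ⟨j.1, j.2, Prod.ext (add_zero _) (zero_add _)⟩
      · exact ⟨j.2, j.1, Prod.ext (zero_add _) (add_zero _)⟩
    obtain ⟨t, k, htk⟩ := key
    have hr : ∀ v : LM2 V.G n, mo V.G (xo s t) • mo V.G (xo (!s) k) • v = gg V j • v := by
      intro v
      rw [mo_mo_smul, htk, gg_smul2]
    have e1 : dx (!s) = 1 - dx s := by cases s <;> rfl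
    have e2 : dy (!s) = 1 - dy s := by cases s <;> rfl
    have hd : ∀ (j i : ℤ) (m : LM2 V.G n), m ∈ (NLj V n s a b j).deg i →
        mo V.G (xo (!s) k) • m ∈ (NLj V n s a b (j + 1)).deg (((1 : ℕ) : ℤ) + i - 0) := by
      intro j i m hm
      refine mo_mem_MS' V hm ?_ ?_ (Finset.Subset.refl _) (Finset.Subset.refl _)
        (fun l _ => xo_nonneg₁ _ k l) (fun l _ => xo_nonneg₂ _ k l)
      · rw [sm_xo₁, e1]; push_cast; ring
      · rw [sm_xo₂, e2]; push_cast; ring
    exact ⟨t, 1, gg V j, moA V n _, moA V n _, moA V n _, gg_mem V j, hj, hd _, hd _, hd _,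
      hr, hr, hr, fun j m => mo_comm V n _ _ _, fun j m => mo_comm V n _ _ _⟩

/-! ### Clifford modules -/

section CM

variable {V} {sd : Bool} {a : Fin 3 → ℂ} (M : CM V.G sd a)

lemma aB_shL (d : Bi) (e : Ex) (l : LM M) : aB d (shL e l) = shL e (aB d l) := by
  have h : d ∈ (⊤ : AddSubgroup Bi) := trivial
  induction d using AddMonoidAlgebra.induction_linear with
  | zero =>
    have h0 : ∀ l : LM M, aB (0 : Bi) l = 0 := fun l => by
      change (actB M 0 _ : Ex →₀ M.C) = 0
      rw [map_zero]
      rfl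
    rw [h0, h0]
    exact (co_ext fun x => rfl)
  | add f g hf hg =>
    have h0 : ∀ l : LM M, aB (f + g) l = aB f l + aB g l := fun l => by
      change (actB M (f + g) _ : Ex →₀ M.C) = _
      rw [map_add]
      rfl
    rw [h0, h0, hf trivial, hg trivial, shL_add]
  | single m c =>
    refine co_ext fun x => ?_
    rw [co_mono, co_shL, co_shL, co_mono]
    congr 2
    abel

lemma aW_shL (e : Ex) (l : LM M) : aW (shL e l) = shL e (aW l) := by
  refine co_ext fun x => ?_
  rw [co_aW, co_shL, co_aW]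
  refine Finset.sum_congr rfl fun k _ => ?_
  rw [co_shL]
  congr 2
  abel

/-- The shift as a linear map. -/
def shG (e : Ex) : LM M →ₗ[RF V.G] LM M where
  toFun l := shL e l
  map_add' := shL_add e
  map_smul' r l := by
    rw [RingHom.id_apply, smulR_def, smulR_def, shL_add, aW_shL, aB_shL, aB_shL]

lemma shL_mem {e : Ex} (he : ∀ i, 0 ≤ e i) {n n' : ℤ} (h : n' = n + sm e) {l : LM M}
    (hl : l ∈ dgL M n) : shL e l ∈ dgL M n' := by
  intro x hx
  rw [co_shL] at hx
  obtain ⟨h1, h2⟩ := hl _ hx
  refine ⟨fun i => ?_, ?_⟩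
  · have h3 := h1 i
    have h4 := he i
    simp only [Pi.add_apply, Pi.neg_apply] at h3
    omega
  · simp only [Pi.add_apply, Pi.neg_apply, Finset.sum_add_distrib, Finset.sum_neg_distrib] at h2
    rw [h, sm]
    omega

/-- The variables. -/
def yg (i : Fin 3) : GH (NV M) (NV M) 1 where
  f := shG M (ue i)
  map_deg {m l} h := shL_mem M (ue_nonneg i) (by rw [sm_ue]) h

lemma shL_comm (e e' : Ex) (l : LM M) : shL e (shL e' l) = shL e' (shL e l) := by
  rw [shL_shL, shL_shL, add_comm]

lemma shL_inj (e : Ex) : Function.Injective fun l : LM M => shL e l := by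
  intro l l' h
  have h1 := congrArg (shL (-e)) h
  simp only at h1
  rwa [shL_shL, shL_shL, neg_add_cancel, shL_zero, shL_zero] at h1

lemma shL_smulC (e : Ex) (c : ℂ) (l : LM M) : shL e (c • l) = c • shL e l := co_ext fun x => rfl

/-- Multiplication by a scalar. -/
def scA (c : ℂ) : LM M →+ LM M where
  toFun l := c • l
  map_zero' := smul_zero c
  map_add' := smul_add c

/-- The variables as operators on Clifford modules. -/
def kdM : KD (NV M) (NV M) (NV M) (NV M) 1 where
  a i := yg M i
  b i := yg M i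
  c i := yg M i
  ab i j m := shL_comm M _ _ _
  bc i j m := shL_comm M _ _ _
  inj := shL_inj M _
  loc x := by
    obtain ⟨j, hj⟩ := exists_gg V x
    obtain ⟨i, k, rfl⟩ := exists_ch sd j
    have hd : ∀ (m : ℤ) (l : LM M), l ∈ dgL M m → a i • l ∈ dgL M (((1 : ℕ) : ℤ) + m - 1) := by
      intro m l hl e he
      have h1 : co l e ≠ 0 := fun h => he (by rw [co_smul, h, smul_zero])
      obtain ⟨h2, h3⟩ := hl e h1
      exact ⟨h2, by rw [h3]; push_cast; ring⟩
    have hr : ∀ l : LM M, shL (ue k) (a i • l) = gg V (ch sd i k) • l := by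
      intro l
      rw [gg_smul, shL_smulC]
    exact ⟨k, 1, gg V (ch sd i k), scA M (a i), scA M (a i), scA M (a i), gg_mem V _, hj, hd, hd,
      hd, hr, hr, hr, fun j m => (shL_smulC M _ _ _).symm, fun j m => (shL_smulC M _ _ _).symm⟩

end CM

end

end Run7.h164
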