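import Pool.Agent.Run7.h164.LB

set_option autoImplicit false
set_option linter.unusedVariables false
set_option linter.unusedSectionVars false

/-!
Smoothness and discriminants.
-/

open Complex

namespace Run7.h164

noncomputable section

variable (V : Verra) (sd : Bool)

lemma Gs_not (G : Fin 3 → Fin 3 → Fin 3 → Fin 3 → ℂ) (i j k l : Fin 3) :
    Gs (!sd) G i j k l = Gs sd G k l i j := by
  cases sd <;> rfl

lemma swap_form {B : Type} [CommRing B] [Algebra ℂ B] (a x : Fin 3 → B) :
    ∑ k, ∑ l, gk V.G (!sd) a k l * (x k * x l) = ∑ i, ∑ j, gk V.G sd x i j * (a i * a j) := by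
  have h1 : ∀ k l, gk V.G (!sd) a k l * (x k * x l) =
      ∑ i, ∑ j, Gs sd V.G k l i j • (a i * a j * (x k * x l)) := by
    intro k l
    rw [gk, Finset.sum_mul]
    refine Finset.sum_congr rfl fun i _ => ?_
    rw [Finset.sum_mul]
    refine Finset.sum_congr rfl fun j _ => ?_
    rw [Gs_not, smul_mul_assoc]
  have h2 : ∀ i j, gk V.G sd x i j * (a i * a j) =
      ∑ k, ∑ l, Gs sd V.G k l i j • (a i * a j * (x k * x l)) := by
    intro i j
    rw [gk, Finset.sum_mul]
    refine Finset.sum_congr rfl fun k _ => ?_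
    rw [Finset.sum_mul]
    refine Finset.sum_congr rfl fun l _ => ?_
    rw [smul_mul_assoc, mul_comm (x k * x l)]
  simp only [h1, h2]
  exact sum4_comm _

variable {V sd}

/-- The fibres have rank at least two when the other fibration has no rational section. -/
lemma not_rk1 (h : NoSec V (!sd)) {x : Fin 3 → ℂ} (hx : x ≠ 0) (l : Fin 3 → ℂ)
    (hl : ∀ k m, gk V.G sd x k m = l k * l m) : False := by
  let A : R2 →ₐ[ℂ] K2 := IsScalarTower.toAlgHom ℂ R2 K2
  have h1 : (fun k => algebraMap ℂ K2 (x k)) = 0 := by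
    refine h (∑ k, algebraMap ℂ K2 (l k) * A (aG k)) _ ?_
    have e1 : ∀ k l, algebraMap R2 K2 (gG V (!sd) k l) = gk V.G (!sd) (fun i => A (aG i)) k l :=
      fun k l => map_gk V.G (!sd) aG A k l
    simp only [e1]
    rw [swap_form]
    have e2 : ∀ k m, gk V.G sd (fun k => algebraMap ℂ K2 (x k)) k m =
        algebraMap ℂ K2 (l k) * algebraMap ℂ K2 (l m) := by
      intro k m
      have e3 := map_gk V.G sd x (Algebra.ofId ℂ K2) k m
      rw [← map_mul, ← hl]
      exact e3.symm
    simp only [e2]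
    rw [sq, Finset.sum_mul_sum]
    exact Finset.sum_congr rfl fun i _ => Finset.sum_congr rfl fun j _ => by ring
  apply hx
  funext k
  have h2 := congrFun h1 k
  exact (map_eq_zero (algebraMap ℂ K2)).1 h2

lemma sum_dB (x v : Fin 3 → ℂ) (k l : Fin 3) :
    ∑ i, v i * dB V sd x (Pi.single i 1) k l = dB V sd x v k l := by
  have h1 : ∀ (i j : Fin 3), (Pi.single i 1 : Fin 3 → ℂ) j = if j = i then 1 else 0 := by
    intro i j
    rw [Pi.single_apply]
  simp only [dB, Finset.mul_sum]
  rw [Finset.sum_comm]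
  refine Finset.sum_congr rfl fun i _ => ?_
  rw [Finset.sum_comm]
  refine Finset.sum_congr rfl fun j _ => ?_
  have h2 : ∀ m, v m * (Gs sd V.G i j k l * (x i * (Pi.single m 1 : Fin 3 → ℂ) j +
      (Pi.single m 1 : Fin 3 → ℂ) i * x j)) = Gs sd V.G i j k l * x i *
        (if j = m then v m else 0) + Gs sd V.G i j k l * x j * (if i = m then v m else 0) := by
    intro m
    rw [h1, h1]
    split_ifs <;> ring
  simp only [h2, Finset.sum_add_distrib, ← Finset.mul_sum, Finset.sum_ite_eq, Finset.mem_univ,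
    if_true]
  ring

lemma dB_self (x : Fin 3 → ℂ) (k l : Fin 3) : dB V sd x x k l = 2 * gk V.G sd x k l := by
  rw [dB, gk, Finset.mul_sum]
  refine Finset.sum_congr rfl fun i _ => ?_
  rw [Finset.mul_sum]
  refine Finset.sum_congr rfl fun j _ => ?_
  rw [smul_eq_mul]
  ring

/-- Points of the discriminant. -/
lemma exists_y (h : NoSec V (!sd)) {x : Fin 3 → ℂ} (hx : x ≠ 0) (h0 : dt (gk V.G sd x) = 0) :
    ∃ y : Fin 3 → ℂ, y ≠ 0 ∧
    y 0 * y 0 = gk V.G sd x 1 1 * gk V.G sd x 2 2 - gk V.G sd x 1 2 * gk V.G sd x 1 2 ∧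
    y 1 * y 1 = gk V.G sd x 0 0 * gk V.G sd x 2 2 - gk V.G sd x 0 2 * gk V.G sd x 0 2 ∧
    y 2 * y 2 = gk V.G sd x 0 0 * gk V.G sd x 1 1 - gk V.G sd x 0 1 * gk V.G sd x 0 1 ∧
    y 0 * y 1 = gk V.G sd x 0 2 * gk V.G sd x 1 2 - gk V.G sd x 0 1 * gk V.G sd x 2 2 ∧
    y 0 * y 2 = gk V.G sd x 0 1 * gk V.G sd x 1 2 - gk V.G sd x 0 2 * gk V.G sd x 1 1 ∧
    y 1 * y 2 = gk V.G sd x 0 1 * gk V.G sd x 0 2 - gk V.G sd x 0 0 * gk V.G sd x 1 2 := by
  obtain ⟨y, e0, e1, e2, e3, e4, e5⟩ := exists_ker (gk_symm V sd x) h0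
  refine ⟨y, ?_, e0, e1, e2, e3, e4, e5⟩
  intro hy
  obtain ⟨l, hl⟩ := rank_one_of_ker (gk_symm V sd x) e0 e1 e2 e3 e4 e5 hy
  exact not_rk1 h hx l hl

/-- The discriminant is smooth. -/
lemma exists_coeff (h : NoSec V (!sd)) {x : Fin 3 → ℂ} (hx : x ≠ 0)
    (h0 : dt (gk V.G sd x) = 0) :
    (∃ i, (Dp V sd x (Pi.single i 1)).coeff 1 ≠ 0) ∧
      ∑ i, x i * (Dp V sd x (Pi.single i 1)).coeff 1 = 0 := by
  obtain ⟨y, hy, e0, e1, e2, e3, e4, e5⟩ := exists_y h hx h0
  have hc := coeff_Dp V sd e0 e1 e2 e3 e4 e5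
  have hk := ker_of_cof (gk_symm V sd x) h0 e0 e1 e2 e3 e4 e5 hy
  constructor
  · obtain ⟨i, hi⟩ := Function.ne_iff.1 hx
    obtain ⟨k, hk'⟩ := Function.ne_iff.1 hy
    have hs : ∃ s, dv s (ptS sd x y) (FP V.G) ≠ 0 := by
      cases sd
      · exact V.smooth (ptS false x y) ⟨i, hi⟩ ⟨k, hk'⟩
      · exact V.smooth (ptS true x y) ⟨k, hk'⟩ ⟨i, hi⟩
    obtain ⟨s, hs⟩ := hs
    rcases cases_sI sd s with ⟨i, rfl⟩ | ⟨k, rfl⟩
    · rw [dv_sI, ← hc] at hs
      exact ⟨i, hs⟩
    · rw [dv_oI, hk, mul_zero] at hs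
      exact absurd rfl hs
  · simp only [hc, Finset.mul_sum]
    rw [Finset.sum_comm]
    refine Finset.sum_eq_zero fun k _ => ?_
    rw [Finset.sum_comm]
    have h1 : ∀ l, ∑ i, x i * (y k * y l * dB V sd x (Pi.single i 1) k l) =
        2 * y k * (gk V.G sd x k l * y l) := by
      intro l
      have h2 := sum_dB (V := V) (sd := sd) x x k l
      rw [dB_self] at h2
      have h3 : ∀ i, x i * (y k * y l * dB V sd x (Pi.single i 1) k l) =
          y k * y l * (x i * dB V sd x (Pi.single i 1) k l) := fun i => by ring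
      simp only [h3, ← Finset.mul_sum]
      rw [h2]
      ring
    simp only [h1, ← Finset.mul_sum]
    rw [hk, mul_zero]

/-- Values of polynomials in two variables. -/
def v2 (α β : ℂ) : R2 →ₐ[ℂ] ℂ := (evP α).comp (evP (Polynomial.C β))

lemma v2_apply (α β : ℂ) (t : R2) : v2 α β t = (t.eval (Polynomial.C β)).eval α := by
  change evP α (evP (Polynomial.C β) t) = _
  rw [evP_apply, evP_apply]

lemma v2_map (α β : ℂ) (t : R2) : v2 α β t = (t.map (Polynomial.evalRingHom α)).eval β := by
  rw [v2_apply]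
  have h : (Polynomial.evalRingHom α).comp (Polynomial.evalRingHom (Polynomial.C β)) =
      (Polynomial.evalRingHom β).comp (Polynomial.mapRingHom (Polynomial.evalRingHom α)) := by
    apply Polynomial.ringHom_ext
    · intro p
      simp
    · simp
  exact RingHom.congr_fun h t

/-- The determinant of the generic form. -/
def dG (V : Verra) (sd : Bool) : R2 := (Matrix.of (gG V sd)).det

lemma v2_dG (α β : ℂ) : v2 α β (dG V sd) = dt (gk V.G sd (pt3 α β)) := by
  rw [dG, dt, AlgHom.map_det]
  congr 1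
  ext k l
  change v2 α β (gk V.G sd aG k l) = _
  rw [map_gk]
  congr 1
  funext i
  rw [v2_apply]
  fin_cases i
  · change ((1 : R2).eval _).eval α = 1
    rw [Polynomial.eval_one, Polynomial.eval_one]
  · change ((Polynomial.C Polynomial.X : R2).eval _).eval α = α
    rw [Polynomial.eval_C, Polynomial.eval_X]
  · change ((Polynomial.X : R2).eval _).eval α = β
    rw [Polynomial.eval_X, Polynomial.eval_C]

lemma dt_smul (s : ℂ) (x : Fin 3 → ℂ) :
    dt (gk V.G sd (fun i => s * x i)) = s ^ 6 * dt (gk V.G sd x) := by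
  have h : ∀ k l, gk V.G sd (fun i => s * x i) k l = s ^ 2 * gk V.G sd x k l := by
    intro k l
    rw [gk, gk, Finset.mul_sum]
    refine Finset.sum_congr rfl fun i _ => ?_
    rw [Finset.mul_sum]
    refine Finset.sum_congr rfl fun j _ => ?_
    rw [smul_eq_mul, smul_eq_mul]
    ring
  rw [dt_eq, dt_eq]
  simp only [h]
  ring

/-- Polynomials without zeros are constant. -/
lemma const_of_ne {t : R2} (h : ∀ α β, v2 α β t ≠ 0) :
    ∃ c : ℂ, t = Polynomial.C (Polynomial.C c) := by
  have h1 : ∀ α, (t.map (Polynomial.evalRingHom α)).degree = 0 := by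
    intro α
    by_contra hd
    obtain ⟨β, hβ⟩ := IsAlgClosed.exists_root _ hd
    exact h α β (by rw [v2_map]; exact hβ)
  have h2 : ∀ n, t.coeff (n + 1) = 0 := by
    intro n
    apply Polynomial.funext
    intro α
    have h3 := congrArg (fun p => Polynomial.coeff p (n + 1))
      (Polynomial.eq_C_of_degree_eq_zero (h1 α))
    change (t.map (Polynomial.evalRingHom α)).coeff (n + 1) = (Polynomial.C _).coeff (n + 1) at h3
    rw [Polynomial.coeff_C_succ, Polynomial.coeff_map] at h3
    rw [Polynomial.eval_zero]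
    exact h3
  have h4 : t = Polynomial.C (t.coeff 0) := by
    ext n : 1
    cases n with
    | zero => rw [Polynomial.coeff_C_zero]
    | succ n => rw [h2, Polynomial.coeff_C_succ]
  have h3 : (t.coeff 0).degree = 0 := by
    by_contra hd
    obtain ⟨α, hα⟩ := IsAlgClosed.exists_root _ hd
    apply h α 0
    rw [v2_apply, h4, Polynomial.eval_C]
    exact hα
  refine ⟨(t.coeff 0).coeff 0, ?_⟩
  rw [← Polynomial.eq_C_of_degree_eq_zero h3]
  exact h4

lemma v2_C (α β c : ℂ) : v2 α β (Polynomial.C (Polynomial.C c)) = c := by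
  rw [v2_apply, Polynomial.eval_C, Polynomial.eval_C]

lemma coeff_sq {T : Polynomial ℂ} (h : T.eval 0 = 0) : (T ^ 2).coeff 1 = 0 := by
  rw [coeff_one, sq, Polynomial.derivative_mul]
  simp [h]

lemma pt3_ne (α β : ℂ) : pt3 α β ≠ 0 := fun h => one_ne_zero (congrFun h 0)

/-- The discriminant is not a square. -/
lemma dG_ne_sq (h : NoSec V (!sd)) (t : R2) : dG V sd ≠ t ^ 2 := by
  intro ht
  have hv : ∀ α β, dt (gk V.G sd (pt3 α β)) = (v2 α β t) ^ 2 := by
    intro α β
    rw [← v2_dG, ht, map_pow]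
  by_cases hz : ∃ α β, v2 α β t = 0
  · obtain ⟨α, β, hαβ⟩ := hz
    have h0 : dt (gk V.G sd (pt3 α β)) = 0 := by
      rw [hv, hαβ]
      ring
    obtain ⟨⟨i, hi⟩, hsum⟩ := exists_coeff h (pt3_ne α β) h0
    have c1 : (Dp V sd (pt3 α β) (Pi.single 1 1)).coeff 1 = 0 := by
      have e : Dp V sd (pt3 α β) (Pi.single 1 1) =
          ((t.eval (Polynomial.C β)).comp (Polynomial.X + Polynomial.C α)) ^ 2 := by
        apply Polynomial.funext
        intro s
        rw [eval_Dp, Polynomial.eval_pow, Polynomial.eval_comp, Polynomial.eval_add,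
          Polynomial.eval_X, Polynomial.eval_C, ← v2_apply, ← hv]
        congr 2
        funext j
        fin_cases j
        · change (1 : ℂ) + s * 0 = 1
          ring
        · change α + s * 1 = s + α
          ring
        · change β + s * 0 = β
          ring
      rw [e]
      apply coeff_sq
      rw [Polynomial.eval_comp, Polynomial.eval_add, Polynomial.eval_X, Polynomial.eval_C,
        zero_add, ← v2_apply, hαβ]
    have c2 : (Dp V sd (pt3 α β) (Pi.single 2 1)).coeff 1 = 0 := by
      have e : Dp V sd (pt3 α β) (Pi.single 2 1) =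
          ((t.map (Polynomial.evalRingHom α)).comp (Polynomial.X + Polynomial.C β)) ^ 2 := by
        apply Polynomial.funext
        intro s
        rw [eval_Dp, Polynomial.eval_pow, Polynomial.eval_comp, Polynomial.eval_add,
          Polynomial.eval_X, Polynomial.eval_C, ← v2_map, ← hv]
        congr 2
        funext j
        fin_cases j
        · change (1 : ℂ) + s * 0 = 1
          ring
        · change α + s * 0 = α
          ring
        · change β + s * 1 = s + β
          ring
      rw [e]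
      apply coeff_sq
      rw [Polynomial.eval_comp, Polynomial.eval_add, Polynomial.eval_X, Polynomial.eval_C,
        zero_add, ← v2_map, hαβ]
    rw [Fin.sum_univ_three, c1, c2, mul_zero, mul_zero, add_zero, add_zero] at hsum
    have c0 : (Dp V sd (pt3 α β) (Pi.single 0 1)).coeff 1 = 0 := by
      have : (1 : ℂ) * (Dp V sd (pt3 α β) (Pi.single 0 1)).coeff 1 = 0 := hsum
      rwa [one_mul] at this
    fin_cases i
    · exact hi c0
    · exact hi c1
    · exact hi c2
  · push Not at hz
    obtain ⟨c, hc'⟩ := const_of_ne hz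
    have hc : ∀ α β, v2 α β t = c := fun α β => by rw [hc', v2_C]
    have hs : ∀ (s x1 x2 : ℂ), s ≠ 0 → dt (gk V.G sd ![s, x1, x2]) = s ^ 6 * c ^ 2 := by
      intro s x1 x2 hs
      have e : (![s, x1, x2] : Fin 3 → ℂ) = fun i => s * pt3 (x1 / s) (x2 / s) i := by
        funext i
        fin_cases i
        · change s = s * 1
          ring
        · change x1 = s * (x1 / s)
          field_simp
        · change x2 = s * (x2 / s)
          field_simp
      rw [e, dt_smul, hv, hc]
    have hD : ∀ x1 x2 : ℂ, Dp V sd ![0, x1, x2] (Pi.single 0 1) =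
        Polynomial.C (c ^ 2) * Polynomial.X ^ 6 := by
      intro x1 x2
      apply Polynomial.eq_of_infinite_eval_eq
      refine (Set.Infinite.sdiff Set.infinite_univ (Set.finite_singleton (0 : ℂ))).mono ?_
      rintro s ⟨-, hs0⟩
      have hs0' : s ≠ 0 := hs0
      change Polynomial.eval s _ = Polynomial.eval s _
      rw [eval_Dp, Polynomial.eval_mul, Polynomial.eval_C, Polynomial.eval_pow,
        Polynomial.eval_X, mul_comm, ← hs s x1 x2 hs0']
      congr 2
      funext j
      fin_cases j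
      · change (0 : ℂ) + s * 1 = s
        ring
      · change x1 + s * 0 = x1
        ring
      · change x2 + s * 0 = x2
        ring
    have hz0 : ∀ x1 x2 : ℂ, dt (gk V.G sd ![0, x1, x2]) = 0 := by
      intro x1 x2
      have e := congrArg (Polynomial.eval 0) (hD x1 x2)
      rw [eval_Dp] at e
      have e2 : (fun j => (![0, x1, x2] : Fin 3 → ℂ) j + 0 * (Pi.single 0 1 : Fin 3 → ℂ) j) =
          ![0, x1, x2] := by
        funext j
        rw [zero_mul, add_zero]
      rw [e2] at e
      rw [e]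
      simp
    have hne : (![0, 1, 0] : Fin 3 → ℂ) ≠ 0 := fun h => one_ne_zero (congrFun h 1)
    obtain ⟨⟨i, hi⟩, -⟩ := exists_coeff h hne (hz0 1 0)
    apply hi
    fin_cases i
    · change (Dp V sd ![0, 1, 0] (Pi.single 0 1)).coeff 1 = 0
      rw [hD, Polynomial.coeff_C_mul, Polynomial.coeff_X_pow]
      simp
    · change (Dp V sd ![0, 1, 0] (Pi.single 1 1)).coeff 1 = 0
      have e : Dp V sd ![0, 1, 0] (Pi.single 1 1) = 0 := by
        apply Polynomial.funext
        intro s
        rw [eval_Dp, Polynomial.eval_zero]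
        refine Eq.trans ?_ (hz0 (1 + s) 0)
        congr 2
        funext j
        fin_cases j
        · change (0 : ℂ) + s * 0 = 0
          ring
        · change (1 : ℂ) + s * 1 = 1 + s
          ring
        · change (0 : ℂ) + s * 0 = 0
          ring
      rw [e, Polynomial.coeff_zero]
    · change (Dp V sd ![0, 1, 0] (Pi.single 2 1)).coeff 1 = 0
      have e : Dp V sd ![0, 1, 0] (Pi.single 2 1) = 0 := by
        apply Polynomial.funext
        intro s
        rw [eval_Dp, Polynomial.eval_zero]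
        refine Eq.trans ?_ (hz0 1 s)
        congr 2
        funext j
        fin_cases j
        · change (0 : ℂ) + s * 0 = 0
          ring
        · change (1 : ℂ) + s * 0 = 1
          ring
        · change (0 : ℂ) + s * 1 = s
          ring
      rw [e, Polynomial.coeff_zero]

/-- The discriminant is not a square in the field of rational functions. -/
theorem noSq (h : NoSec V (!sd)) : NoSq V sd := by
  intro s hs
  have e1 : (Matrix.of fun k l => algebraMap R2 K2 (gG V sd k l)).det =
      algebraMap R2 K2 (dG V sd) := by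
    rw [dG, RingHom.map_det]
    rfl
  rw [e1] at hs
  have hi : IsIntegral R2 (s ^ 2) := by
    rw [hs]
    exact isIntegral_algebraMap
  obtain ⟨t, ht⟩ := IsIntegrallyClosed.isIntegral_iff.1 ((IsIntegral.pow_iff two_pos).1 hi)
  apply dG_ne_sq h t
  apply IsFractionRing.injective R2 K2
  rw [← hs, ← ht, map_pow]

/-- The discriminant has zeros. -/
lemma exists_zero_disc (h : NoSec V (!sd)) : ∃ α β, dt (gk V.G sd (pt3 α β)) = 0 := by
  by_contra! hne
  obtain ⟨c, hc⟩ := const_of_ne (t := dG V sd) fun α β => by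
    rw [v2_dG]
    exact hne α β
  obtain ⟨d, hd⟩ := IsAlgClosed.exists_pow_nat_eq c (n := 2) two_pos
  apply dG_ne_sq h (Polynomial.C (Polynomial.C d))
  rw [hc, ← hd, map_pow, map_pow]

/-- Degenerate conics. -/
theorem exists_LMd (h : NoSec V (!sd)) : ∃ α β, Nonempty (LMd sd V.G (pt3 α β)) := by
  obtain ⟨α, β, h0⟩ := exists_zero_disc h
  obtain ⟨y, hy, e0, e1, e2, e3, e4, e5⟩ := exists_y h (pt3_ne α β) h0
  obtain ⟨L, M, g1, g2, z0, z1, z2⟩ := exists_pair (gk_symm V sd (pt3 α β)) h0 e0 e1 e2 e3 e4 e5 hy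
  obtain ⟨c, u, v, r, d1, d2, d3, d4, d5, d6, d7⟩ := exists_dual hy z0 z1 z2
  exact ⟨α, β, ⟨⟨L, M, c, u, v, r, g1, g2, d1, d2, d3, d4, d5, d6, d7⟩⟩⟩

end

end Run7.h164
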