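import Pool.Agent.Run7.h164.KU
import Pool.Agent.Run7.h164.LC
import Pool.Agent.R924.A2

set_option autoImplicit false
set_option linter.unusedVariables false
set_option linter.unusedSectionVars false

/-!
Objects with disjoint supports.
-/

open CategoryTheory Limits TopologicalSpace AlgebraicGeometry Opposite Pretriangulated
open Module

namespace Run7.h164

noncomputable section

set_option backward.isDefEq.respectTransparency false

open Pool.Agent.W506 Pool.Agent.N212
open Pool.Agent.R924 (DD Frame sg DCoh CohAll exists_factor)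
open Pool.Agent.W456 (stD stalkF resD isZero_of_stD isZero_stD_restrict_iff mapD_single
  stalk_hom_ext)

attribute [local instance] HasDerivedCategory.standard

section Gen

universe u

variable {X : Scheme.{u}}

lemma isZero_stD_sg {M : X.Modules} {z : X} (h : IsZero ((stalkF X z).obj M)) :
    IsZero ((stD X z).obj (sg M)) := by
  obtain ⟨e⟩ := mapD_single (stalkF X z) M 0
  exact (Functor.map_isZero _ h).of_iso e

lemma isZero_stD_shift {B : DerivedCategory X.Modules} {z : X} (h : IsZero ((stD X z).obj B))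
    (i : ℤ) : IsZero ((stD X z).obj (B⟦i⟧)) :=
  (Functor.map_isZero (shiftFunctor _ i) h).of_iso (((stD X z).commShiftIso i).app B)

lemma isZero_stalk_of_loc {M : X.Modules} {z : X}
    (h : ∀ (U : X.Opens) (hz : z ∈ U) (s : Γ(M, U)), ∃ (W : X.Opens) (hW : W ≤ U), z ∈ W ∧
      rs M hW s = 0) : IsZero ((stalkF X z).obj M) := by
  rw [IsZero.iff_id_eq_zero]
  apply stalk_hom_ext
  intro U hz s
  obtain ⟨W, hW, hzW, h0⟩ := h U hz s
  have h1 := TopCat.Presheaf.germ_res_apply M.presheaf (homOfLE hW) z hzW s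
  change M.presheaf.germ U z hz s = 0
  rw [← h1]
  have h2 : M.presheaf.map (homOfLE hW).op s = 0 := h0
  rw [h2]
  exact map_zero _

lemma isZero_stalk_cokernel {L M : X.Modules} {z : X} (φ : L ⟶ M)
    (h : ∀ (U : X.Opens) (hz : z ∈ U) (s : Γ(M, U)), ∃ (W : X.Opens) (hW : W ≤ U), z ∈ W ∧
      ∃ t, ap φ W t = rs M hW s) : IsZero ((stalkF X z).obj (cokernel φ)) := by
  have h1 : Epi ((stalkF X z).map φ) := by
    refine ⟨fun {A} f g hfg => ?_⟩
    apply stalk_hom_ext
    intro U hz s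
    obtain ⟨W, hW, hzW, t, ht⟩ := h U hz s
    have h1 := TopCat.Presheaf.germ_res_apply M.presheaf (homOfLE hW) z hzW s
    have h2 : M.presheaf.map (homOfLE hW).op s = ap φ W t := ht.symm
    have h3 : ((stalkF X z).map φ).hom (L.presheaf.germ W z hzW t) =
        M.presheaf.germ W z hzW (ap φ W t) := Pool.Agent.W456.stalkLin_germ φ z W hzW t
    rw [← h1, h2, ← h3]
    exact congrArg (fun k => k.hom (L.presheaf.germ W z hzW t)) hfg
  exact (isZero_cokernel_of_epi ((stalkF X z).map φ)).of_iso (PreservesCokernel.iso (stalkF X z) φ)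

/-- Morphisms between objects with disjoint supports. -/
theorem hom_eq_zero_of_supp (U : X.Opens) {E B : DerivedCategory X.Modules}
    (hE : ∀ z : X, z ∉ U → IsZero ((stD X z).obj E)) (hB : ∀ z : X, z ∈ U → IsZero ((stD X z).obj B))
    (g : E ⟶ B) : g = 0 := by
  obtain ⟨E', ρ, h1, h2, h3⟩ := exists_factor U.ι E
  have hz : IsZero ((resD U.ι).obj B) := by
    apply isZero_of_stD
    intro x
    rw [← isZero_stD_restrict_iff]
    apply hB
    exact x.2
  obtain ⟨g', hg'⟩ := h1 B g (hz.eq_of_tgt _ _)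
  have hE' : IsZero E' := by
    apply isZero_of_stD
    intro z
    by_cases hz : z ∈ U
    · apply h2
      rw [Scheme.Opens.range_ι U]
      exact hz
    · exact h3 z (hE z hz)
  rw [← hg', hE'.eq_of_tgt ρ 0, zero_comp]

lemma eu_zero_of_hom [Linear ℂ X.Modules] {E B : DerivedCategory X.Modules}
    (h : ∀ (i : ℤ) (f : E ⟶ B⟦i⟧), f = 0) : eu E B = 0 ∧ FE E B := by
  have hs : ∀ i : ℤ, Subsingleton (E ⟶ B⟦i⟧) := fun i => ⟨fun f g => (h i f).trans (h i g).symm⟩
  refine ⟨?_, ?_, ?_⟩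
  · have h1 : (fun i : ℤ => ((finrank ℂ (E ⟶ B⟦i⟧) : ℕ) : ℤ)) = fun _ => 0 := by
      funext i
      have := hs i
      exact congrArg Nat.cast finrank_zero_of_subsingleton
    rw [eu, h1]
    simp [chiZ]
  · intro i
    have := hs i
    infer_instance
  · exact ⟨0, fun i _ => hs i⟩

end Gen

section Point

variable (V : Verra) (sd : Bool) (a : Fin 3 → ℂ)

/-- The forms vanishing on a fibre. -/
def et (i k : Fin 3) : RF V.G :=
  gg V (ch sd i k) - algebraMap ℂ (RF V.G) (a i) * gg V (ch sd 0 k)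

lemma et_mem (i k : Fin 3) : et V sd a i k ∈ rg V.G 1 := by
  have h1 : algebraMap ℂ (RF V.G) (a i) * gg V (ch sd 0 k) ∈ rg V.G (0 + 1) :=
    SetLike.mul_mem_graded (by
      have := algebraMap_mem_zero V (a i)
      rwa [zero_mul] at this) (gg_mem V _)
  rw [zero_add] at h1
  exact sub_mem (gg_mem V _) h1

/-- The complement of a fibre. -/
def WP : (VX V).Opens := ⨆ p : Fin 3 × Fin 3, DD (rg V.G) (et V sd a p.1 p.2)

variable {V sd a}

lemma mem_WP {z : VX V} : z ∈ WP V sd a ↔ ∃ i k, z ∈ DD (rg V.G) (et V sd a i k) := by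
  rw [WP, Opens.mem_iSup]
  exact ⟨fun ⟨p, hp⟩ => ⟨p.1, p.2, hp⟩, fun ⟨i, k, h⟩ => ⟨(i, k), h⟩⟩

lemma et_smul (ha : a 0 = 1) {M : CM V.G sd a} (i k : Fin 3) (l : LM M) :
    et V sd a i k • l = 0 := by
  rw [et, sub_smul, mul_smul, gg_smul, gg_smul, ha, one_smul, algebraMap_smulL, sub_self]

lemma til_zero_on {M : CM V.G sd a} {j : ℤ} {W : (VX V).Opens} {η : RF V.G}
    (h : ∀ l : LM M, η • l = 0) (hW : W ≤ DD (rg V.G) η) (s : Γ(til (NV M) j, W)) : s = 0 := by
  apply vl_ext
  intro x hx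
  rw [vl_zero]
  induction (vl s x hx) using LocalizedModule.induction_on with
  | h m b =>
    rw [← LocalizedModule.zero_mk 1, LocalizedModule.mk_eq]
    refine ⟨⟨η, hW hx⟩, ?_⟩
    change η • (1 : RF V.G) • (m : LM M) = η • (b : RF V.G) • (0 : LM M)
    rw [one_smul, smul_zero, smul_zero]
    exact h m

/-- The sheaf of a Clifford module vanishes outside a fibre. -/
lemma isZero_stalk_til (ha : a 0 = 1) (M : CM V.G sd a) (j : ℤ) {z : VX V} (hz : z ∈ WP V sd a) :
    IsZero ((stalkF (VX V) z).obj (til (NV M) j)) := by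
  obtain ⟨i, k, hik⟩ := mem_WP.1 hz
  apply isZero_stalk_of_loc
  intro U hU s
  exact ⟨U ⊓ DD (rg V.G) (et V sd a i k), inf_le_left, ⟨hU, hik⟩,
    til_zero_on (et_smul ha i k) inf_le_right _⟩

lemma isZero_tS (ha : a 0 = 1) (M : CM V.G sd a) (j : ℤ) {z : VX V} (hz : z ∈ WP V sd a) :
    IsZero ((stD (VX V) z).obj (tS M j)) := isZero_stD_sg (isZero_stalk_til ha M j hz)

/-- Ideal membership outside. -/
lemma notMem_WP {z : VX V} (hz : z ∉ WP V sd a) (i k : Fin 3) : et V sd a i k ∈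
    (show ProjectiveSpectrum (rg V.G) from z).asHomogeneousIdeal.toIdeal := by
  by_contra h
  exact hz (mem_WP.2 ⟨i, k, h⟩)

lemma WP_cov (ha : a 0 = 1) {a' : Fin 3 → ℂ} (ha' : a' 0 = 1) (hne : a ≠ a') (z : VX V)
    (hz : z ∉ WP V sd a) : z ∈ WP V sd a' := by
  by_contra hz'
  obtain ⟨i, hi⟩ := Function.ne_iff.1 hne
  set I := (show ProjectiveSpectrum (rg V.G) from z).asHomogeneousIdeal.toIdeal with hI
  have h0 : ∀ k, gg V (ch sd 0 k) ∈ I := by
    intro k
    have h1 := I.sub_mem (notMem_WP hz' i k) (notMem_WP hz i k)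
    have h2 : et V sd a' i k - et V sd a i k =
        algebraMap ℂ (RF V.G) (a i - a' i) * gg V (ch sd 0 k) := by
      rw [et, et, map_sub]
      ring
    rw [h2] at h1
    have h3 := I.mul_mem_left (algebraMap ℂ (RF V.G) (a i - a' i)⁻¹) h1
    rwa [← mul_assoc, ← map_mul, inv_mul_cancel₀ (sub_ne_zero.2 hi), map_one, one_mul] at h3
  obtain ⟨j, hj⟩ := gg_cov V z
  obtain ⟨i', k, rfl⟩ := exists_ch sd j
  apply hj
  have h1 := I.add_mem (notMem_WP hz i' k) (I.mul_mem_left (algebraMap ℂ (RF V.G) (a i')) (h0 k))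
  rwa [et, sub_add_cancel] at h1

/-- Euler characteristics of objects over different points. -/
lemma eu_disj (ha : a 0 = 1) {a' : Fin 3 → ℂ} (ha' : a' 0 = 1) (hne : a ≠ a')
    (M : CM V.G sd a) (M' : CM V.G sd a') (j j' : ℤ) : eu (tS M j) (tS M' j') = 0 := by
  refine (eu_zero_of_hom fun i f => hom_eq_zero_of_supp (WP V sd a') (fun z hz => ?_)
    (fun z hz => isZero_stD_shift (isZero_tS ha' M' j' hz) i) f).1
  apply isZero_tS ha
  exact WP_cov ha' ha hne.symm z hz

/-- The self-intersection vanishes. -/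
theorem eu_self {α β : ℂ} (D : LMd sd V.G (pt3 α β)) :
    eu (tS (rhM D) (-1)) (tS (rhM D) (-1)) = 0 := by
  have hD := dCoh_tS (rhM D) (pt3_zero α β) (-1)
  have e1 := eu_V8 D (pt3_zero α β) (by norm_num : (-2 : ℤ) ≤ -1) hD
  rw [eu_const (by norm_num) hD] at e1
  have hne : pt3 α β ≠ pt3 (α + 1) β := by
    intro h
    have h1 := congrFun h 1
    simp [pt3] at h1
  have e2 := eu_disj (pt3_zero α β) (pt3_zero (α + 1) β) hne (rhM D) (V8 V.G sd (pt3 (α + 1) β))
    (-1) (-1)
  rw [eu_const (by norm_num) hD] at e2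
  rw [e2] at e1
  omega

end Point

end

end Run7.h164
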