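import Pool.Agent.Run7.h164.KR

set_option autoImplicit false
set_option linter.unusedVariables false
set_option linter.unusedSectionVars false

/-!
The pairing between objects over points of the two planes: computation.
-/

open CategoryTheory Limits TopologicalSpace AlgebraicGeometry Opposite Pretriangulated
open Module

namespace Run7.h164

noncomputable section

set_option backward.isDefEq.respectTransparency false

open Pool.Agent.W506 Pool.Agent.N212
open Pool.Agent.R924 (DD Frame sg DCoh CohAll IsGen)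
open Pool.Agent.W456 (stD stalkF)

attribute [local instance] HasDerivedCategory.standard

section Ab

variable {C : Type*} [Category C] [Abelian C] {A B : C} (φ : A ⟶ B)

lemma ses_ker_im : ∃ w : kernel.ι φ ≫ factorThruImage φ = 0,
    (ShortComplex.mk (kernel.ι φ) (factorThruImage φ) w).ShortExact := by
  have w : kernel.ι φ ≫ factorThruImage φ = 0 := by
    rw [← cancel_mono (image.ι φ), Category.assoc, image.fac, kernel.condition, zero_comp]
  refine ⟨w, ?_⟩
  let S : ShortComplex C := ShortComplex.mk (kernel.ι φ) (factorThruImage φ) w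
  let S₂ : ShortComplex C := ShortComplex.mk (kernel.ι φ) φ (kernel.condition φ)
  let f : S ⟶ S₂ := { τ₁ := 𝟙 _, τ₂ := 𝟙 _, τ₃ := image.ι φ }
  have : Epi f.τ₁ := inferInstanceAs (Epi (𝟙 _))
  have : IsIso f.τ₂ := inferInstanceAs (IsIso (𝟙 _))
  have : Mono f.τ₃ := inferInstanceAs (Mono (image.ι φ))
  exact
    { exact := (ShortComplex.exact_iff_of_epi_of_isIso_of_mono f).2
        (ShortComplex.exact_of_f_is_kernel _ (kernelIsKernel φ))
      mono_f := inferInstanceAs (Mono (kernel.ι φ))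
      epi_g := inferInstanceAs (Epi (factorThruImage φ)) }

lemma ses_im_coker : ∃ w : image.ι φ ≫ cokernel.π φ = 0,
    (ShortComplex.mk (image.ι φ) (cokernel.π φ) w).ShortExact := by
  have w : image.ι φ ≫ cokernel.π φ = 0 := by
    rw [← cancel_epi (factorThruImage φ), ← Category.assoc, image.fac, cokernel.condition,
      comp_zero]
  refine ⟨w, ?_⟩
  let S : ShortComplex C := ShortComplex.mk (image.ι φ) (cokernel.π φ) w
  let S₁ : ShortComplex C := ShortComplex.mk φ (cokernel.π φ) (cokernel.condition φ)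
  let f : S₁ ⟶ S := { τ₁ := factorThruImage φ, τ₂ := 𝟙 _, τ₃ := 𝟙 _ }
  have : Epi f.τ₁ := inferInstanceAs (Epi (factorThruImage φ))
  have : IsIso f.τ₂ := inferInstanceAs (IsIso (𝟙 _))
  have : Mono f.τ₃ := inferInstanceAs (Mono (𝟙 _))
  exact
    { exact := (ShortComplex.exact_iff_of_epi_of_isIso_of_mono f).1
        (ShortComplex.exact_of_g_is_cokernel _ (cokernelIsCokernel φ))
      mono_f := inferInstanceAs (Mono (image.ι φ))
      epi_g := inferInstanceAs (Epi (cokernel.π φ)) }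

end Ab

variable {V : Verra} {sd : Bool}

instance : IsLocallyNoetherian (VX V) := by
  refine isLocallyNoetherian_of_affine_cover (S := fun j => ⟨(VF V).U j, (AV V).aff j⟩) ?_ ?_
  · rw [eq_top_iff]
    intro x _
    obtain ⟨j, hj⟩ := (VF V).cover x
    exact Opens.mem_iSup.2 ⟨j, hj⟩
  · exact (goodV V).noeth

lemma cohAll_lb (δ : (VF V).Div) : CohAll (Frame.lb δ) := by
  apply Pool.Agent.R924.cohAll_of_local
  intro x
  obtain ⟨j, hj⟩ := (VF V).cover x
  exact ⟨_, hj, (AV V).aff j, (Frame.isGen_lbE δ j).qcOn, (Frame.isGen_lbE δ j).finite⟩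

lemma eu_ses₁ {S : ShortComplex (VX V).Modules} (hS : S.ShortExact)
    {F : DerivedCategory (VX V).Modules} (f1 : FE (sg S.X₁) F) (f2 : FE (sg S.X₂) F)
    (f3 : FE (sg S.X₃) F) : eu (sg S.X₂) F = eu (sg S.X₁) F + eu (sg S.X₃) F :=
  eu_tri₁ hS.singleTriangle hS.singleTriangle_distinguished F f1 f2 f3

/-- The pairing with the Clifford algebra over a point of the other plane. -/
theorem eu_cross8 {α β : ℂ} (D : LMd sd V.G (pt3 α β)) {q : Fin 3 → ℂ} (hq : q 0 = 1)
    (hL : ∑ k, D.L k * q k ≠ 0) :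
    eu (tS (rhM D) (-1)) (tS (V8 V.G (!sd) q) (-1)) = 8 := by
  obtain ⟨φ, S, hφ, hS, h1, h2, h3⟩ := exists_res D
  set F := tS (V8 V.G (!sd) q) (-1) with hF
  have cL : ∀ n, CohAll (Frame.lb (dl V sd n)) := fun n => cohAll_lb _
  have cA : CohAll (til (NV (rhM D)) (-1)) := cohAll_til (pt3_zero α β)
  have cK : CohAll (kernel φ) := (cL 0).ker φ cA
  have cQ : CohAll (cokernel φ) := (cL 0).cokernel φ cA
  obtain ⟨w1, s1⟩ := ses_ker_im φ
  obtain ⟨w2, s2⟩ := ses_im_coker φ
  have cI : CohAll (image φ) := CohAll.coker s1 cK (cL 0)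
  have fe : ∀ {N : (VX V).Modules}, CohAll N → FE (sg N) F := fun h =>
    fe_dCoh hq (by norm_num) (dCoh_sg h)
  let S₂ : ShortComplex (VX V).Modules :=
    ShortComplex.mk (biprod.inl : Frame.lb (dl V sd 1) ⟶ Frame.lb (dl V sd 1) ⊞ Frame.lb (dl V sd 1))
      biprod.snd biprod.inl_snd
  have s3 : S₂.ShortExact :=
    (ShortComplex.Splitting.ofHasBinaryBiproduct (Frame.lb (dl V sd 1))
      (Frame.lb (dl V sd 1))).shortExact
  have cB : CohAll (Frame.lb (dl V sd 1) ⊞ Frame.lb (dl V sd 1)) := by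
    intro W hW
    have q1 := (cL 1 W hW).1
    have := (cL 1 W hW).2
    refine ⟨qcOn_biprod q1 q1, ?_⟩
    refine Module.Finite.of_surjective (LinearMap.coprod
      (ap (biprod.inl : Frame.lb (dl V sd 1) ⟶ Frame.lb (dl V sd 1) ⊞ Frame.lb (dl V sd 1)) W)
      (ap (biprod.inr : Frame.lb (dl V sd 1) ⟶ Frame.lb (dl V sd 1) ⊞ Frame.lb (dl V sd 1)) W))
      fun s => ⟨(ap biprod.fst _ s, ap biprod.snd _ s), (biprod_section s).symm⟩
  -- Euler characteristics
  have e0 : eu (sg (Frame.lb (dl V sd 0))) F = 0 := by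
    rw [hF, eu_lb hq (by norm_num), show (0 - 1 : ℤ) = -1 by norm_num, card_exS_neg]
    rfl
  have e1 : eu (sg (Frame.lb (dl V sd 1))) F = 8 := by
    rw [hF, eu_lb hq (by norm_num), show (1 - 1 : ℤ) = 0 by norm_num, card_exS_zero]
    rfl
  have e2 : eu (sg (Frame.lb (dl V sd 2))) F = 24 := by
    rw [hF, eu_lb hq (by norm_num), show (2 - 1 : ℤ) = 1 by norm_num, card_exS_one]
    rfl
  have g3 := eu_ses₁ (F := F) s3 (fe (cL 1)) (fe cB) (fe (cL 1))
  have g1 := eu_ses₁ (F := F) s1 (fe cK) (fe (cL 0)) (fe cI)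
  have g2 := eu_ses₁ (F := F) s2 (fe cI) (fe cA) (fe cQ)
  have g4 := eu_ses₁ (F := F) hS (by rw [h1]; exact fe (cL 2)) (by rw [h2]; exact fe cB)
    (by rw [h3]; exact fe cK)
  rw [h1, h2, h3] at g4
  have g5 : eu (sg (cokernel φ)) F = 0 :=
    (eu_zero_of_hom fun i f => hom_eq_zero_of_supp (WP V (!sd) q)
      (fun z hz => isZero_stD_sg (isZero_coker (pt3_zero α β) D hq hL hφ hz))
      (fun z hz => isZero_stD_shift (isZero_tS hq _ _ hz) i) f).1
  change eu (sg (Frame.lb (dl V sd 1) ⊞ Frame.lb (dl V sd 1))) F =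
    eu (sg (Frame.lb (dl V sd 1))) F + eu (sg (Frame.lb (dl V sd 1))) F at g3
  change eu (sg (Frame.lb (dl V sd 0))) F = eu (sg (kernel φ)) F + eu (sg (image φ)) F at g1
  change eu (sg (til (NV (rhM D)) (-1))) F = eu (sg (image φ)) F + eu (sg (cokernel φ)) F at g2
  change eu (sg (til (NV (rhM D)) (-1))) F = 8
  rw [g3, e1, e2] at g4
  rw [e0] at g1
  rw [g5] at g2
  linarith

/-- Some point of the other plane lies outside a line. -/
lemma exists_pt3 {L : Fin 3 → ℂ} (hL : L ≠ 0) : ∃ γ δ : ℂ, ∑ k, L k * pt3 γ δ k ≠ 0 := by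
  by_contra! h
  have h1 : ∀ γ δ : ℂ, L 0 + L 1 * γ + L 2 * δ = 0 := by
    intro γ δ
    have h2 := h γ δ
    rw [Fin.sum_univ_three] at h2
    change L 0 * 1 + L 1 * γ + L 2 * δ = 0 at h2
    rwa [mul_one] at h2
  have a0 := h1 0 0
  have a1 := h1 1 0
  have a2 := h1 0 1
  apply hL
  funext k
  fin_cases k
  · change L 0 = 0
    linear_combination a0
  · change L 1 = 0
    linear_combination a1 - a0
  · change L 2 = 0
    linear_combination a2 - a0

/-- The pairing between objects over points of the two planes. -/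
theorem eu_cross {α β : ℂ} (D : LMd sd V.G (pt3 α β)) {γ δ : ℂ} (D' : LMd (!sd) V.G (pt3 γ δ)) :
    eu (tS (rhM D) (-1)) (tS (rhM D') (-1)) = 2 := by
  have hD := dCoh_tS (rhM D) (pt3_zero α β) (-1)
  have e1 := eu_V8 D' (pt3_zero γ δ) (by norm_num : (-2 : ℤ) ≤ -1) hD
  rw [eu_const (by norm_num) hD] at e1
  obtain ⟨γ', δ', h⟩ := exists_pt3 (L := D.L) (by
    intro h
    have := D.Lu
    rw [h] at this
    simp at this)
  have e2 := eu_cross8 D (q := pt3 γ' δ') (pt3_zero γ' δ') h
  rw [eu_const (by norm_num) hD] at e2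
  rw [e2] at e1
  omega

end

end Run7.h164
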