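import Pool.Agent.Run7.h164.RE
import Pool.Agent.Run7.h164.KP
import Pool.Agent.Run7.h164.DS

set_option autoImplicit false
set_option linter.unusedVariables false
set_option linter.unusedSectionVars false

/-!
Equivalences of subcategories and Euler characteristics.
-/

open CategoryTheory Limits TopologicalSpace AlgebraicGeometry Opposite Pretriangulated
open Module

namespace Run7.h164

noncomputable section

set_option backward.isDefEq.respectTransparency false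

section Tr

universe v u v' u'

variable {C : Type u} [Category.{v} C] [Preadditive C] [Linear ℂ C] [HasShift C ℤ]
  {D : Type u'} [Category.{v'} D] [Preadditive D] [Linear ℂ D] [HasShift D ℤ]
  {P : ObjectProperty C} {Q : ObjectProperty D}

/-- Functors commuting with the shift on objects. -/
def ShC (Φ : P.FullSubcategory ⥤ Q.FullSubcategory) : Prop :=
  ∀ E E' : P.FullSubcategory, Nonempty (E'.obj ≅ E.obj⟦(1 : ℤ)⟧) →
    Nonempty ((Φ.obj E').obj ≅ (Φ.obj E).obj⟦(1 : ℤ)⟧)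

/-- Isomorphisms in the full subcategory. -/
def fsIso {E E' : P.FullSubcategory} (e : E.obj ≅ E'.obj) : E ≅ E' :=
  P.fullyFaithfulι.preimageIso e

lemma shC_all {Φ : P.FullSubcategory ⥤ Q.FullSubcategory} (h : ShC Φ)
    (hP : ∀ (n : ℤ) (E : C), P E → P (E⟦n⟧)) (n : ℤ) :
    ∀ E E' : P.FullSubcategory, Nonempty (E'.obj ≅ E.obj⟦n⟧) →
    Nonempty ((Φ.obj E').obj ≅ (Φ.obj E).obj⟦n⟧) := by
  induction n using Int.induction_on with
  | zero =>
    rintro E E' ⟨e⟩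
    have e1 : E' ≅ E := fsIso (e ≪≫ (shiftFunctorZero C ℤ).app E.obj)
    exact ⟨Q.ι.mapIso (Φ.mapIso e1) ≪≫ ((shiftFunctorZero D ℤ).app (Φ.obj E).obj).symm⟩
  | succ m ih =>
    rintro E E' ⟨e⟩
    let E2 : P.FullSubcategory := ⟨E.obj⟦(m : ℤ)⟧, hP _ _ E.property⟩
    obtain ⟨a⟩ := ih E E2 ⟨Iso.refl _⟩
    obtain ⟨b⟩ := h E2 E' ⟨e ≪≫ (shiftFunctorAdd' C (m : ℤ) 1 ((m : ℤ) + 1) rfl).app E.obj⟩
    exact ⟨b ≪≫ (shiftFunctor D (1 : ℤ)).mapIso a ≪≫
      ((shiftFunctorAdd' D (m : ℤ) 1 ((m : ℤ) + 1) rfl).app (Φ.obj E).obj).symm⟩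
  | pred m ih =>
    rintro E E' ⟨e⟩
    let E2 : P.FullSubcategory := ⟨E.obj⟦(-m : ℤ)⟧, hP _ _ E.property⟩
    obtain ⟨a⟩ := ih E E2 ⟨Iso.refl _⟩
    obtain ⟨b⟩ := h E' E2 ⟨(shiftFunctorAdd' C (-m - 1 : ℤ) 1 (-m : ℤ) (by ring)).app E.obj ≪≫
      (shiftFunctor C (1 : ℤ)).mapIso e.symm⟩
    refine ⟨?_⟩
    exact (shiftShiftNeg (Φ.obj E').obj (1 : ℤ)).symm ≪≫
      (shiftFunctor D (-1 : ℤ)).mapIso (b.symm ≪≫ a) ≪≫
      ((shiftFunctorAdd' D (-m : ℤ) (-1) (-m - 1 : ℤ) (by ring)).app (Φ.obj E).obj).symm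

/-- Morphisms in the full subcategory. -/
def fsHom (E F : P.FullSubcategory) : (E ⟶ F) ≃ₗ[ℂ] (E.obj ⟶ F.obj) where
  toFun f := f.hom
  invFun f := ⟨f⟩
  left_inv f := rfl
  right_inv f := rfl
  map_add' f g := rfl
  map_smul' c f := rfl

lemma eu_fs (Φ : P.FullSubcategory ⥤ Q.FullSubcategory) [Φ.IsEquivalence] [Φ.Additive]
    [Φ.Linear ℂ] (h : ShC Φ) (hP : ∀ (n : ℤ) (E : C), P E → P (E⟦n⟧)) (E F : P.FullSubcategory) :
    eu E.obj F.obj = eu (Φ.obj E).obj (Φ.obj F).obj := by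
  refine eu_congr fun i => ?_
  let F2 : P.FullSubcategory := ⟨F.obj⟦i⟧, hP _ _ F.property⟩
  obtain ⟨a⟩ := shC_all h hP i F F2 ⟨Iso.refl _⟩
  let e1 : (E.obj ⟶ F.obj⟦i⟧) ≃ₗ[ℂ] (E ⟶ F2) := (fsHom E F2).symm
  let e2 : (E ⟶ F2) ≃ₗ[ℂ] (Φ.obj E ⟶ Φ.obj F2) :=
    LinearEquiv.ofBijective (Φ.mapLinearMap ℂ) ⟨Φ.map_injective, Φ.map_surjective⟩
  let e3 : (Φ.obj E ⟶ Φ.obj F2) ≃ₗ[ℂ] ((Φ.obj E).obj ⟶ (Φ.obj F2).obj) := fsHom _ _
  let e4 : ((Φ.obj E).obj ⟶ (Φ.obj F2).obj) ≃ₗ[ℂ] ((Φ.obj E).obj ⟶ (Φ.obj F).obj⟦i⟧) :=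
    { toFun := fun x => x ≫ a.hom
      invFun := fun x => x ≫ a.inv
      left_inv := fun x => by simp
      right_inv := fun x => by simp
      map_add' := fun x y => Preadditive.add_comp _ _ _ _ _ _
      map_smul' := fun c x => Linear.smul_comp _ _ _ _ _ _ }
  exact ⟨e1.trans (e2.trans (e3.trans e4))⟩

/-- Even pairs: isotropic classes of even divisibility with pairing two. -/
structure EvPair (P : ObjectProperty C) (A B : C) : Prop where
  memA : P A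
  memB : P B
  selfA : eu A A = 0
  selfB : eu B B = 0
  ab : eu A B = 2
  ba : eu B A = 2
  evenA : ∀ E, P E → Even (eu E A)
  evenB : ∀ E, P E → Even (eu E B)

lemma eu_iso2 {E E' F F' : C} (e : E ≅ E') (f : F ≅ F') : eu E F = eu E' F' :=
  (eu_iso_left e).trans (eu_iso_right f)

lemma EvPair.pull (Φ : P.FullSubcategory ⥤ Q.FullSubcategory) [Φ.IsEquivalence] [Φ.Additive]
    [Φ.Linear ℂ] (h : ShC Φ) (hP : ∀ (n : ℤ) (E : C), P E → P (E⟦n⟧)) {A B : D}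
    (hAB : EvPair Q A B) : ∃ A' B' : C, EvPair P A' B' := by
  let A₁ : P.FullSubcategory := Φ.objPreimage ⟨A, hAB.memA⟩
  let B₁ : P.FullSubcategory := Φ.objPreimage ⟨B, hAB.memB⟩
  let a : (Φ.obj A₁).obj ≅ A := Q.ι.mapIso (Φ.objObjPreimageIso ⟨A, hAB.memA⟩)
  let b : (Φ.obj B₁).obj ≅ B := Q.ι.mapIso (Φ.objObjPreimageIso ⟨B, hAB.memB⟩)
  refine ⟨A₁.obj, B₁.obj, A₁.property, B₁.property, ?_, ?_, ?_, ?_, ?_, ?_⟩
  · rw [eu_fs Φ h hP, eu_iso2 a a, hAB.selfA]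
  · rw [eu_fs Φ h hP, eu_iso2 b b, hAB.selfB]
  · rw [eu_fs Φ h hP, eu_iso2 a b, hAB.ab]
  · rw [eu_fs Φ h hP, eu_iso2 b a, hAB.ba]
  · intro E hE
    rw [eu_fs Φ h hP ⟨E, hE⟩ A₁, eu_iso_right a]
    exact hAB.evenA _ (Φ.obj ⟨E, hE⟩).property
  · intro E hE
    rw [eu_fs Φ h hP ⟨E, hE⟩ B₁, eu_iso_right b]
    exact hAB.evenB _ (Φ.obj ⟨E, hE⟩).property

end Tr

open Pool.Agent.W506 Pool.Agent.N212
open Pool.Agent.R924 (DD Frame sg DCoh CohAll)
open Pool.Agent.W456 (Hh HhShift)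

attribute [local instance] HasDerivedCategory.standard

lemma dCoh_shift {X : Scheme.{0}} {E : DerivedCategory X.Modules} (h : DCoh E) (n : ℤ) :
    DCoh (E⟦n⟧) where
  coh i := (h.coh (n + i)).of_iso (HhShift E n i (n + i) rfl).symm
  bdd := by
    obtain ⟨a, m, h1, h2⟩ := h.bdd
    exact ⟨a - n, m, fun i hi => (h1 (n + i) (by omega)).of_iso (HhShift E n i (n + i) rfl),
      fun i hi => (h2 (n + i) (by omega)).of_iso (HhShift E n i (n + i) rfl)⟩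

lemma kuP_shift {V : Verra} (n : ℤ) (E : DerivedCategory (VX V).Modules) (h : KuP V E) :
    KuP V (E⟦n⟧) := by
  refine ⟨dCoh_shift h.1 n, fun p q hp hq i f => ?_⟩
  have h1 := h.2 p q hp hq (n + i) (f ≫ ((shiftFunctorAdd' _ n i (n + i) rfl).app E).inv)
  rw [← cancel_mono ((shiftFunctorAdd' _ n i (n + i) rfl).app E).inv, h1, zero_comp]

/-- Without rational sections there is an even pair. -/
theorem exists_evPair {V : Verra} (h0 : NoSec V false) (h1 : NoSec V true) :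
    ∃ A B, EvPair (KuP V) A B := by
  obtain ⟨α, β, ⟨D⟩⟩ := exists_LMd (sd := false) (V := V) h1
  obtain ⟨γ, δ, ⟨D'⟩⟩ := exists_LMd (sd := true) (V := V) h0
  refine ⟨tS (rhM D) (-1), tS (rhM D') (-1), ku_tS _ (pt3_zero α β), ku_tS _ (pt3_zero γ δ),
    eu_self D, eu_self D', eu_cross D D', eu_cross D' D, fun E hE => ?_, fun E hE => ?_⟩
  · exact even_rh h0 (noSq h1) D hE.1
  · exact even_rh h1 (noSq h0) D' hE.1

/-- Without an even pair, the fourfold is rational. -/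
theorem isRat_of_noPair {V : Verra} (h : ¬ ∃ A B, EvPair (KuP V) A B) : IsRat V := by
  by_cases h0 : NoSec V false
  · by_cases h1 : NoSec V true
    · exact absurd (exists_evPair h0 h1) h
    · exact isRat_of_sec V h1
  · exact isRat_of_sec V h0

/-- Equivalent components without even pairs: both fourfolds are rational. -/
theorem main4 (V V' : Verra) (Φ : (KuP V).FullSubcategory ⥤ (KuP V').FullSubcategory)
    [Φ.IsEquivalence] [Φ.Additive] [Φ.Linear ℂ] (hΦ : ShC Φ)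
    (h : ¬ ∃ A B, EvPair (KuP V) A B) : IsRat V ∧ IsRat V' ∧ Birat V V' := by
  have r1 : IsRat V := isRat_of_noPair h
  have r2 : IsRat V' := isRat_of_noPair fun ⟨A, B, hAB⟩ => h (hAB.pull Φ hΦ kuP_shift)
  exact ⟨r1, r2, r1.birat r2⟩

end

end Run7.h164
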