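import Pool.Agent.Run7.h164.FC

set_option autoImplicit false
set_option linter.unusedVariables false
set_option linter.unusedSectionVars false

/-!
Mutations through an exceptional object.
-/

open CategoryTheory Limits Pretriangulated Module

namespace Run7.h164

noncomputable section

universe v u

variable {C : Type u} [Category.{v} C] [Preadditive C] [HasZeroObject C] [HasShift C ℤ]
  [∀ n : ℤ, (shiftFunctor C n).Additive] [Pretriangulated C] [Linear ℂ C]
  [∀ n : ℤ, (shiftFunctor C n).Linear ℂ]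

/-- Exceptional objects. -/
structure Exc (O : C) : Prop where
  fe : FE O O
  hom : ∀ i : ℤ, i ≠ 0 → ∀ f : O ⟶ O⟦i⟧, f = 0
  one : finrank ℂ (O ⟶ O⟦(0 : ℤ)⟧) = 1

/-- The object `X'` is obtained from `X` by adding shifts of `O`, of class `m`. -/
structure Mut (O X X' : C) (m : ℤ) : Prop where
  cls : ∀ P : C → Prop, (∀ (n : ℤ) (A : C), P A → P (A⟦n⟧)) →
    (∀ T ∈ distTriang C, P T.obj₁ → P T.obj₂ → P T.obj₃) → P O → P X → P X'
  right : ∀ E, FE E O → FE E X → FE E X' ∧ eu E X' = eu E X - m * eu E O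
  left : ∀ F, FE O F → FE X F → FE X' F ∧ eu X' F = eu X F - m * eu O F

lemma Mut.refl (O X : C) : Mut O X X 0 where
  cls P _ _ _ h := h
  right E _ h := ⟨h, by ring⟩
  left F _ h := ⟨h, by ring⟩

lemma Mut.trans {O X X' X'' : C} {m m' : ℤ} (h : Mut O X X' m) (h' : Mut O X' X'' m') :
    Mut O X X'' (m + m') where
  cls P h1 h2 h3 h4 := h'.cls P h1 h2 h3 (h.cls P h1 h2 h3 h4)
  right E h1 h2 := by
    obtain ⟨a1, a2⟩ := h.right E h1 h2
    obtain ⟨b1, b2⟩ := h'.right E h1 a1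
    exact ⟨b1, by rw [b2, a2]; ring⟩
  left F h1 h2 := by
    obtain ⟨a1, a2⟩ := h.left F h1 h2
    obtain ⟨b1, b2⟩ := h'.left F h1 a1
    exact ⟨b1, by rw [b2, a2]; ring⟩

lemma Mut.of_tri {O X X₁ : C} (n : ℤ) {f : O⟦n⟧ ⟶ X} {g : X ⟶ X₁} {h : X₁ ⟶ O⟦n⟧⟦(1 : ℤ)⟧}
    (hT : Triangle.mk f g h ∈ distTriang C) : Mut O X X₁ (Int.negOnePow n : ℤ) where
  cls P h1 h2 h3 h4 := h2 _ hT (h1 n O h3) h4
  right E h1 h2 := by
    have a1 := h1.shift_right n
    have a3 : FE E X₁ := FE.third_right hT a1 h2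
    refine ⟨a3, ?_⟩
    have := eu_tri₂ _ hT E a1 h2 a3
    change eu E X = eu E (O⟦n⟧) + eu E X₁ at this
    rw [eu_shift_right] at this
    linarith
  left F h1 h2 := by
    have a1 := h1.shift_left n
    have a3 : FE X₁ F := FE.third_left hT a1 h2
    refine ⟨a3, ?_⟩
    have := eu_tri₁ _ hT F a1 h2 a3
    change eu X F = eu (O⟦n⟧) F + eu X₁ F at this
    rw [eu_shift_left] at this
    linarith

/-- One step. -/
theorem exists_step {O X : C} (hO : Exc O) (hX : FE O X) {i₀ : ℤ} {g : O ⟶ X⟦i₀⟧} (hg : g ≠ 0) :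
    ∃ (X₁ : C) (m : ℤ), Mut O X X₁ m ∧ (∀ i, finrank ℂ (O ⟶ X₁⟦i⟧) + (if i = i₀ then 1 else 0) =
      finrank ℂ (O ⟶ X⟦i⟧)) := by
  obtain ⟨f, hf⟩ : ∃ f : O⟦-i₀⟧ ⟶ X, f ≠ 0 := by
    refine ⟨shF O X (-i₀) i₀ 0 (by ring) g ≫ (shiftFunctorZero C ℤ).hom.app X, fun h => hg ?_⟩
    apply (shF O X (-i₀) i₀ 0 (by ring)).injective
    rw [← cancel_mono ((shiftFunctorZero C ℤ).hom.app X), h, map_zero, zero_comp]
  obtain ⟨X₁, g', h', hT⟩ := Pretriangulated.distinguished_cocone_triangle f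
  refine ⟨X₁, _, Mut.of_tri _ hT, ?_⟩
  set T : Triangle C := Triangle.mk f g' h' with hTd
  -- the first term
  have z1 : ∀ i, i ≠ i₀ → ∀ x : O ⟶ O⟦-i₀⟧⟦i⟧, x = 0 := by
    intro i hi x
    apply (shR O O (-i₀) i).injective
    rw [map_zero]
    exact hO.hom _ (by omega) _
  have d1 : ∀ i, finrank ℂ (O ⟶ O⟦-i₀⟧⟦i⟧) = if i = i₀ then 1 else 0 := by
    intro i
    split_ifs with h
    · subst h
      rw [(shR O O (-i) i).finrank_eq, neg_add_cancel]
      exact hO.one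
    · have : Subsingleton (O ⟶ O⟦-i₀⟧⟦i⟧) := ⟨fun x y => (z1 i h x).trans (z1 i h y).symm⟩
      exact finrank_zero_of_subsingleton
  have inj : ∀ i : ℤ, Function.Injective (Linear.rightComp ℂ O (T.mor₁⟦i⟧')) := by
    intro i
    rw [injective_iff_map_eq_zero]
    intro x hx
    by_cases h : i = i₀
    · subst h
      let u : O ⟶ O⟦-i⟧⟦i⟧ := (shiftNegShift O i).inv
      have hu : u ≫ f⟦i⟧' ≠ 0 := by
        intro h0
        apply hf
        have h1 : f⟦i⟧' = 0 := by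
          have h2 := congrArg (fun t => (shiftNegShift O i).hom ≫ t) h0
          simp only [comp_zero] at h2
          rwa [← Category.assoc, Iso.hom_inv_id, Category.id_comp] at h2
        exact (shiftFunctor C i).map_injective (h1.trans ((shiftFunctor C i).map_zero _ _).symm)
      have hu0 : u ≠ 0 := fun h0 => hu (by rw [h0, zero_comp])
      have h3 := d1 i
      rw [if_pos rfl] at h3
      obtain ⟨c, hc⟩ := (finrank_eq_one_iff_of_nonzero' u hu0).1 h3 x
      rw [← hc] at hx ⊢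
      have h4 : c • (u ≫ f⟦i⟧') = 0 := by
        rw [← Linear.smul_comp]
        exact hx
      rcases smul_eq_zero.1 h4 with h5 | h5
      · rw [h5]
        exact zero_smul ℂ _
      · exact absurd h5 hu
    · exact z1 i h x
  intro i
  have fX : Module.Finite ℂ (O ⟶ T.obj₂⟦i⟧) := hX.fin i
  have surj : Function.Surjective (Linear.rightComp ℂ O (T.mor₂⟦i⟧')) := by
    intro y
    have h1 : y ≫ cn T i = 0 := by
      apply inj (i + 1)
      rw [map_zero]
      change (y ≫ cn T i) ≫ T.mor₁⟦i + 1⟧' = 0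
      rw [Category.assoc, ls_c₁ T hT, comp_zero]
    exact ls₃ T hT O i y h1
  have hk : LinearMap.ker (Linear.rightComp ℂ O (T.mor₂⟦i⟧')) =
      LinearMap.range (Linear.rightComp ℂ O (T.mor₁⟦i⟧')) := by
    ext x
    constructor
    · exact fun hx => ls₂ T hT O i x hx
    · rintro ⟨y, rfl⟩
      change (y ≫ _) ≫ _ = 0
      rw [Category.assoc, ls_c₂ T hT, comp_zero]
  have e1 := LinearMap.finrank_range_add_finrank_ker (Linear.rightComp ℂ O (T.mor₂⟦i⟧'))
  rw [hk, LinearMap.finrank_range_of_inj (inj i), LinearMap.range_eq_top.2 surj, finrank_top] at e1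
  rw [← d1 i]
  exact e1

/-- Left mutations. -/
theorem exists_mut {O : C} (hO : Exc O) : ∀ (N : ℕ) (X : C), FE O X →
    (∃ s : Finset ℤ, (∀ i, i ∉ s → finrank ℂ (O ⟶ X⟦i⟧) = 0) ∧
      ∑ i ∈ s, finrank ℂ (O ⟶ X⟦i⟧) ≤ N) →
    ∃ (X' : C) (m : ℤ), Mut O X X' m ∧ ∀ (i : ℤ) (f : O ⟶ X'⟦i⟧), f = 0 := by
  intro N
  induction N with
  | zero =>
    rintro X hX ⟨s, h1, h2⟩
    refine ⟨X, 0, Mut.refl O X, fun i f => ?_⟩
    have h3 : finrank ℂ (O ⟶ X⟦i⟧) = 0 := by
      by_cases hi : i ∈ s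
      · have := (Finset.sum_eq_zero_iff.1 (Nat.le_zero.1 h2)) i hi
        exact this
      · exact h1 i hi
    have := hX.fin i
    have := finrank_zero_iff.1 h3
    exact Subsingleton.elim _ _
  | succ N ih =>
    rintro X hX ⟨s, h1, h2⟩
    by_cases h : ∀ (i : ℤ) (f : O ⟶ X⟦i⟧), f = 0
    · exact ⟨X, 0, Mut.refl O X, h⟩
    · push Not at h
      obtain ⟨i₀, g, hg⟩ := h
      obtain ⟨X₁, m, hm, hd⟩ := exists_step hO hX hg
      have hi₀ : i₀ ∈ s := by
        by_contra hc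
        have h3 := hd i₀
        rw [h1 i₀ hc, if_pos rfl] at h3
        omega
      obtain ⟨X', m', hm', hz⟩ := ih X₁ (hm.right O hO.fe hX).1 ⟨s, fun i hi => by
        have h3 := hd i
        rw [h1 i hi] at h3
        omega, by
        have h3 : ∑ i ∈ s, finrank ℂ (O ⟶ X₁⟦i⟧) + ∑ i ∈ s, (if i = i₀ then 1 else 0) =
            ∑ i ∈ s, finrank ℂ (O ⟶ X⟦i⟧) := by
          rw [← Finset.sum_add_distrib]
          exact Finset.sum_congr rfl fun i _ => hd i
        rw [Finset.sum_ite_eq' s i₀, if_pos hi₀] at h3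
        omega⟩
      exact ⟨X', m + m', hm.trans hm', hz⟩

/-- Left mutations. -/
theorem exists_mut' {O X : C} (hO : Exc O) (hX : FE O X) :
    ∃ (X' : C) (m : ℤ), Mut O X X' m ∧ ∀ (i : ℤ) (f : O ⟶ X'⟦i⟧), f = 0 := by
  obtain ⟨n, hn⟩ := hX.bdd
  refine exists_mut hO _ X hX ⟨Finset.Icc (-(n : ℤ)) n, fun i hi => ?_, le_rfl⟩
  have := hn i (by
    by_contra hc
    push Not at hc
    apply hi
    rw [Finset.mem_Icc]
    rw [abs_lt] at hc
    exact ⟨hc.1.le, hc.2.le⟩)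
  exact finrank_zero_of_subsingleton

/-- Vanishing of morphisms is preserved. -/
lemma Mut.hom_zero {O X X' : C} {m : ℤ} (h : Mut O X X' m) {E : C}
    (h1 : ∀ (i : ℤ) (f : E ⟶ O⟦i⟧), f = 0) (h2 : ∀ (i : ℤ) (f : E ⟶ X⟦i⟧), f = 0) :
    ∀ (i : ℤ) (f : E ⟶ X'⟦i⟧), f = 0 := by
  refine h.cls (fun A => ∀ (i : ℤ) (f : E ⟶ A⟦i⟧), f = 0) (fun n A hA => hom_shift_right hA n)
    (fun T hT a1 a2 => hom_third_right hT a1 a2) h1 h2

/-- The class of the added objects. -/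
lemma Mut.eq {O X X' : C} {m : ℤ} (hO : Exc O) (h : Mut O X X' m) (hX : FE O X)
    (hz : ∀ (i : ℤ) (f : O ⟶ X'⟦i⟧), f = 0) : m = eu O X := by
  have e1 := (h.right O hO.fe hX).2
  have e2 : eu O X' = 0 := by
    rw [eu, chiZ]
    have : ∀ i : ℤ, (Int.negOnePow i : ℤ) * (finrank ℂ (O ⟶ X'⟦i⟧) : ℤ) = 0 := by
      intro i
      have : Subsingleton (O ⟶ X'⟦i⟧) := ⟨fun x y => (hz i x).trans (hz i y).symm⟩
      rw [finrank_zero_of_subsingleton]
      simp
    simp [this]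
  have e3 : eu O O = 1 := by
    rw [eu, chiZ, finsum_eq_single _ (0 : ℤ)]
    · rw [hO.one]
      simp
    · intro i hi
      have : Subsingleton (O ⟶ O⟦i⟧) := ⟨fun x y => (hO.hom i hi x).trans (hO.hom i hi y).symm⟩
      rw [finrank_zero_of_subsingleton]
      simp
  rw [e2, e3] at e1
  linarith

end

end Run7.h164
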