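import Pool.Agent.Run7.h164.CI
import Pool.Agent.Run7.h164.FN
import Pool.Agent.Run7.h164.MU

set_option autoImplicit false
set_option linter.unusedVariables false
set_option linter.unusedSectionVars false

/-!
Closure properties of complexes with coherent cohomology; finiteness for line bundles.
-/

open CategoryTheory Limits TopologicalSpace AlgebraicGeometry Opposite Pretriangulated
open Module

namespace Run7.h164

noncomputable section

set_option backward.isDefEq.respectTransparency false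

open Pool.Agent.W506 Pool.Agent.N212
open Pool.Agent.R924 (DD Frame sg DCoh CohAll mem_of_homology coh_mem)
open ZeroObject
open Pool.Agent.W456 (Hh)

attribute [local instance] HasDerivedCategory.standard

section Ext

variable {X : Scheme.{0}}

/-- Extensions of coherent modules are coherent. -/
lemma cohAll_ext {S : ShortComplex X.Modules} (hS : S.ShortExact) (h₁ : CohAll S.X₁)
    (h₃ : CohAll S.X₃) : CohAll S.X₂ := by
  have := hS.mono_f
  have hsurj : ∀ (W' : X.Opens), IsAffineOpen W' → Function.Surjective (ap S.g W') :=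
    fun W' hW' => ap_surjective_of_sumOn S hS (h₁ W' hW').1.sumOn hW' le_rfl
  have hz : ∀ (U : X.Opens) (a : Γ(S.X₁, U)), ap S.g U (ap S.f U a) = 0 := by
    intro U a
    rw [← ap_comp, S.zero]
    rfl
  intro W hW
  refine ⟨⟨?_, ?_⟩, ?_⟩
  · intro W' hW' hle f s
    obtain ⟨k, t, ht⟩ := (h₃ W' hW').1.ext W' hW' le_rfl f (ap S.g _ s)
    obtain ⟨b, rfl⟩ := hsurj _ hW' t
    have e1 : ap S.g _ (ro (X.basicOpen_le f) f ^ k • s - rs S.X₂ (X.basicOpen_le f) b) = 0 := by
      rw [map_sub, map_smul, ap_rs, ht, sub_self]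
    obtain ⟨a, ha⟩ := ap_exact S hS.exact _ _ e1
    obtain ⟨l, a', ha'⟩ := (h₁ W' hW').1.ext W' hW' le_rfl f a
    refine ⟨l + k, ap S.f _ a' + f ^ l • b, ?_⟩
    rw [map_add, ← ap_rs, ha', map_smul, ha, rs_smul, map_pow, smul_sub, smul_smul, ← pow_add]
    abel
  · intro W' hW' hle f t ht
    have e1 : rs S.X₃ (X.basicOpen_le f) (ap S.g _ t) = 0 := by
      rw [← ap_rs, ht, map_zero]
    obtain ⟨k, hk⟩ := (h₃ W' hW').1.uniq W' hW' le_rfl f _ e1
    rw [← map_smul] at hk
    obtain ⟨a, ha⟩ := ap_exact S hS.exact _ _ hk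
    have e2 : rs S.X₁ (X.basicOpen_le f) a = 0 := by
      apply ap_injective S.f
      rw [ap_rs, ha, rs_smul, ht, smul_zero, map_zero]
    obtain ⟨l, hl⟩ := (h₁ W' hW').1.uniq W' hW' le_rfl f _ e2
    refine ⟨l + k, ?_⟩
    rw [pow_add, mul_smul, ← ha, ← map_smul, hl, map_zero]
  · have f1 := (h₁ W hW).2
    have f3 := (h₃ W hW).2
    refine Module.Finite.of_exact (f := ap S.f W) (g := ap S.g W) (fun y => ?_) (hsurj W hW)
    constructor
    · intro hy
      exact ap_exact S hS.exact _ _ hy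
    · rintro ⟨z, rfl⟩
      exact hz _ _

variable [IsLocallyNoetherian X]

/-- The middle term of a long exact sequence. -/
lemma cohAll_five {A B E D F : X.Modules} {f : A ⟶ B} {g : B ⟶ E} {h : E ⟶ D} {k : D ⟶ F}
    {w₁ : f ≫ g = 0} (e₁ : (ShortComplex.mk f g w₁).Exact) {w₂ : g ≫ h = 0}
    (e₂ : (ShortComplex.mk g h w₂).Exact) {w₃ : h ≫ k = 0} (e₃ : (ShortComplex.mk h k w₃).Exact)
    (cA : CohAll A) (cB : CohAll B) (cD : CohAll D) (cF : CohAll F) : CohAll E := by
  let m : cokernel f ⟶ E := cokernel.desc f g w₁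
  let e : E ⟶ kernel k := kernel.lift k h w₃
  have hm : Mono m := (ShortComplex.mk f g w₁).exact_iff_mono_cokernel_desc.1 e₁
  have he : Epi e := (ShortComplex.mk h k w₃).exact_iff_epi_kernel_lift.1 e₃
  have hpm : cokernel.π f ≫ m = g := cokernel.π_desc _ _ _
  have hei : e ≫ kernel.ι k = h := kernel.lift_ι _ _ _
  have w4 : g ≫ e = 0 := by
    rw [← cancel_mono (kernel.ι k), Category.assoc, hei, w₂, zero_comp]
  have w5 : m ≫ e = 0 := by
    rw [← cancel_epi (cokernel.π f), ← Category.assoc, hpm, w4, comp_zero]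
  let S : ShortComplex X.Modules := ShortComplex.mk g h w₂
  let S' : ShortComplex X.Modules := ShortComplex.mk g e w4
  let S'' : ShortComplex X.Modules := ShortComplex.mk m e w5
  have x1 : S'.Exact := by
    let φ : S' ⟶ S := { τ₁ := 𝟙 _, τ₂ := 𝟙 _, τ₃ := kernel.ι k }
    have : Epi φ.τ₁ := inferInstanceAs (Epi (𝟙 _))
    have : IsIso φ.τ₂ := inferInstanceAs (IsIso (𝟙 _))
    have : Mono φ.τ₃ := inferInstanceAs (Mono (kernel.ι k))
    exact (ShortComplex.exact_iff_of_epi_of_isIso_of_mono φ).2 e₂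
  have x2 : S''.Exact := by
    let φ : S' ⟶ S'' := { τ₁ := cokernel.π f, τ₂ := 𝟙 _, τ₃ := 𝟙 _ }
    have : Epi φ.τ₁ := inferInstanceAs (Epi (cokernel.π f))
    have : IsIso φ.τ₂ := inferInstanceAs (IsIso (𝟙 _))
    have : Mono φ.τ₃ := inferInstanceAs (Mono (𝟙 _))
    exact (ShortComplex.exact_iff_of_epi_of_isIso_of_mono φ).1 x1
  have hS : S''.ShortExact :=
    { exact := x2
      mono_f := hm
      epi_g := he }
  exact cohAll_ext hS (cA.cokernel f cB) (cD.ker k cF)

/-- Cones. -/
theorem dCoh_tri {T : Triangle (DerivedCategory X.Modules)} (hT : T ∈ distTriang _)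
    (h₁ : DCoh T.obj₁) (h₂ : DCoh T.obj₂) : DCoh T.obj₃ where
  coh i := cohAll_five (DerivedCategory.HomologySequence.exact₂ T hT i)
    (DerivedCategory.HomologySequence.exact₃ T hT i (i + 1))
    (DerivedCategory.HomologySequence.exact₁ T hT i (i + 1))
    (h₁.coh i) (h₂.coh i) (h₁.coh (i + 1)) (h₂.coh (i + 1))
  bdd := by
    obtain ⟨a₁, n₁, l₁, u₁⟩ := h₁.bdd
    obtain ⟨a₂, n₂, l₂, u₂⟩ := h₂.bdd
    have key : ∀ i, IsZero (Hh i T.obj₂) → IsZero (Hh (i + 1) T.obj₁) → IsZero (Hh i T.obj₃) :=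
      fun i z1 z2 =>
        (DerivedCategory.HomologySequence.exact₃ T hT i (i + 1)).isZero_of_both_isZero z1 z2
    refine ⟨min (a₁ - 1) a₂, ((max (a₁ + n₁) (a₂ + n₂)) - min (a₁ - 1) a₂).toNat,
      fun i hi => key i (l₂ i (by omega)) (l₁ (i + 1) (by omega)),
      fun i hi => key i (u₂ i (by omega)) (u₁ (i + 1) (by omega))⟩

end Ext

section Fin

universe v u

variable {C : Type u} [Category.{v} C] [Preadditive C] [HasZeroObject C] [HasShift C ℤ]
  [∀ n : ℤ, (shiftFunctor C n).Additive] [Pretriangulated C] [Linear ℂ C]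
  [∀ n : ℤ, (shiftFunctor C n).Linear ℂ]

lemma FE.retract {E E' F : C} (r : Retract E E') (h : FE E' F) : FE E F where
  fin i := by
    have := h.fin i
    refine Module.Finite.of_surjective (Linear.leftComp ℂ (F⟦i⟧) r.i) fun x => ⟨r.r ≫ x, ?_⟩
    change r.i ≫ r.r ≫ x = x
    rw [← Category.assoc, r.retract]
    exact Category.id_comp _
  bdd := by
    obtain ⟨n, hn⟩ := h.bdd
    refine ⟨n, fun i hi => ⟨fun x y => ?_⟩⟩
    have := hn i hi
    have h2 : ∀ x : E ⟶ F⟦i⟧, r.i ≫ r.r ≫ x = x := fun x => by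
      rw [← Category.assoc, r.retract]
      exact Category.id_comp _
    rw [← h2 x, ← h2 y, Subsingleton.elim (r.r ≫ x) (r.r ≫ y)]

/-- The objects with finite-dimensional morphisms to a given object. -/
def FEP (F : C) : ObjectProperty C := fun E => FE E F

instance (F : C) : (FEP F).IsStableUnderRetracts where
  of_retract r h := FE.retract r h

instance (F : C) : (FEP F).IsClosedUnderIsomorphisms where
  of_iso e h := FE.iso_left h e

instance (F : C) : (FEP F).ContainsZero where
  exists_zero := ⟨0, isZero_zero _, by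
    have h : ∀ i : ℤ, Subsingleton ((0 : C) ⟶ F⟦i⟧) := fun i =>
      ⟨fun x y => (isZero_zero _).eq_of_src _ _⟩
    exact ⟨fun i => inferInstance, 0, fun i _ => h i⟩⟩

instance (F : C) : (FEP F).IsStableUnderShift ℤ where
  isStableUnderShiftBy n := ⟨fun E h => FE.shift_left h n⟩

instance (F : C) : (FEP F).IsTriangulatedClosed₂ := by
  apply ObjectProperty.IsTriangulatedClosed₂.mk'
  intro T hT h₁ h₃
  exact FE.mid_left hT h₁ h₃

instance (F : C) : (FEP F).IsTriangulated where

end Fin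

variable {V : Verra}

/-- Finiteness for line bundles. -/
theorem fe_line {E : DerivedCategory (VX V).Modules} (hE : DCoh E) (n : ℕ) {p q : ℤ} (hp : -1 ≤ p)
    (hq : -1 ≤ q) : FE E (sg (LS V n p q)) := by
  have hT : ∀ d : ℕ, FEP (sg (LS V n p q)) (sg (Frame.lb ((alD V ^ d)⁻¹))) := by
    intro d
    have h1 : ShQ V (alD V) 1 1 := by
      rw [alD_eq]
      have h := shQ_line V 1 1
      rw [zpow_one, zpow_one] at h
      exact h
    have h2 := shQ_inv V (shQ_pow V h1 d)
    exact fe_LS h2 (by omega) (by omega)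
  obtain ⟨b, m, h1, h2⟩ := hE.bdd
  exact mem_of_homology (FEP (sg (LS V n p q))) m E b h1 h2 fun i =>
    coh_mem (goodV V) (FEP (sg (LS V n p q))) (fun M hM => (AV V).exists_epi hT M hM) _
      fun j => hE.coh i _ ((AV V).aff j)

end

end Run7.h164
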