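import Pool.Agent.Run7.h164.CT
import Pool.Agent.Run7.h164.DC

set_option autoImplicit false
set_option linter.unusedVariables false
set_option linter.unusedSectionVars false

/-!
Third differences of Euler characteristics.
-/

open CategoryTheory Limits TopologicalSpace AlgebraicGeometry Opposite Pretriangulated
open Module

namespace Run7.h164

noncomputable section

set_option backward.isDefEq.respectTransparency false

open Pool.Agent.W506 Pool.Agent.N212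
open Pool.Agent.R924 (DD Frame sg DCoh CohAll)

attribute [local instance] HasDerivedCategory.standard

variable {V : Verra}

/-- The objects of the derived category given by graded modules. -/
abbrev gT (N : GM (rg V.G)) (j : ℤ) : DerivedCategory (VX V).Modules := sg (til N j)

section Ses

variable {S : ShortComplex (VX V).Modules} (hS : S.ShortExact)
  {E F : DerivedCategory (VX V).Modules}

include hS

lemma fe_r2 (h1 : FE E (sg S.X₁)) (h3 : FE E (sg S.X₃)) : FE E (sg S.X₂) :=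
  FE.mid_right hS.singleTriangle_distinguished h1 h3

lemma fe_r1 (h2 : FE E (sg S.X₂)) (h3 : FE E (sg S.X₃)) : FE E (sg S.X₁) :=
  FE.first_right hS.singleTriangle_distinguished h2 h3

lemma fe_r3 (h1 : FE E (sg S.X₁)) (h2 : FE E (sg S.X₂)) : FE E (sg S.X₃) :=
  FE.third_right hS.singleTriangle_distinguished h1 h2

lemma fe_l2 (h1 : FE (sg S.X₁) F) (h3 : FE (sg S.X₃) F) : FE (sg S.X₂) F :=
  FE.mid_left hS.singleTriangle_distinguished h1 h3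

lemma fe_l1 (h2 : FE (sg S.X₂) F) (h3 : FE (sg S.X₃) F) : FE (sg S.X₁) F :=
  FE.first_left hS.singleTriangle_distinguished h2 h3

lemma fe_l3 (h1 : FE (sg S.X₁) F) (h2 : FE (sg S.X₂) F) : FE (sg S.X₃) F :=
  FE.third_left hS.singleTriangle_distinguished h1 h2

lemma eu_r (h1 : FE E (sg S.X₁)) (h2 : FE E (sg S.X₂)) (h3 : FE E (sg S.X₃)) :
    eu E (sg S.X₂) = eu E (sg S.X₁) + eu E (sg S.X₃) :=
  eu_tri₂ hS.singleTriangle hS.singleTriangle_distinguished E h1 h2 h3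

lemma eu_l (h1 : FE (sg S.X₁) F) (h2 : FE (sg S.X₂) F) (h3 : FE (sg S.X₃) F) :
    eu (sg S.X₂) F = eu (sg S.X₁) F + eu (sg S.X₃) F :=
  eu_tri₁ hS.singleTriangle hS.singleTriangle_distinguished F h1 h2 h3

lemma hz_r2 (h1 : ∀ (i : ℤ) (f : E ⟶ (sg S.X₁)⟦i⟧), f = 0)
    (h3 : ∀ (i : ℤ) (f : E ⟶ (sg S.X₃)⟦i⟧), f = 0) : ∀ (i : ℤ) (f : E ⟶ (sg S.X₂)⟦i⟧), f = 0 :=
  hom_mid_right hS.singleTriangle_distinguished h1 h3

lemma hz_r1 (h2 : ∀ (i : ℤ) (f : E ⟶ (sg S.X₂)⟦i⟧), f = 0)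
    (h3 : ∀ (i : ℤ) (f : E ⟶ (sg S.X₃)⟦i⟧), f = 0) : ∀ (i : ℤ) (f : E ⟶ (sg S.X₁)⟦i⟧), f = 0 :=
  hom_first_right hS.singleTriangle_distinguished h2 h3

end Ses

section Gp

variable (N : GM (rg V.G)) [IsGr N] (j : ℤ) {E F : DerivedCategory (VX V).Modules}

lemma isZero_gT : IsZero (gT (gp N 0) j) := (DerivedCategory.singleFunctor _ 0).map_isZero
  (isZero_gp N j)

lemma hz_gp (h : ∀ (i : ℤ) (f : E ⟶ (gT N j)⟦i⟧), f = 0) (n : ℕ) :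
    ∀ (i : ℤ) (f : E ⟶ (gT (gp N n) j)⟦i⟧), f = 0 := by
  induction n with
  | zero => exact fun i f => ((shiftFunctor _ i).map_isZero (isZero_gT N j)).eq_of_tgt _ _
  | succ n ih =>
    obtain ⟨f, g, w, hS⟩ := exists_gp N n j
    exact hz_r2 hS h ih

lemma eu_gp_right (h : FE E (gT N j)) (n : ℕ) :
    FE E (gT (gp N n) j) ∧ eu E (gT (gp N n) j) = n * eu E (gT N j) := by
  induction n with
  | zero =>
    have hz : ∀ (i : ℤ) (f : E ⟶ (gT (gp N 0) j)⟦i⟧), f = 0 :=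
      fun i f => ((shiftFunctor _ i).map_isZero (isZero_gT N j)).eq_of_tgt _ _
    have hs : ∀ i : ℤ, Subsingleton (E ⟶ (gT (gp N 0) j)⟦i⟧) := fun i =>
      ⟨fun x y => (hz i x).trans (hz i y).symm⟩
    refine ⟨⟨fun i => ?_, 0, fun i _ => hs i⟩, ?_⟩
    · have := hs i
      infer_instance
    · rw [(eu_zero_of_hom hz).1]
      simp
  | succ n ih =>
    obtain ⟨f, g, w, hS⟩ := exists_gp N n j
    have h2 : FE E (gT (gp N (n + 1)) j) := fe_r2 hS h ih.1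
    refine ⟨h2, ?_⟩
    have e1 : eu E (gT (gp N (n + 1)) j) = eu E (gT N j) + eu E (gT (gp N n) j) :=
      eu_r hS h h2 ih.1
    rw [e1, ih.2]
    push_cast
    ring

lemma eu_gp_left (h : FE (gT N j) F) (n : ℕ) :
    FE (gT (gp N n) j) F ∧ eu (gT (gp N n) j) F = n * eu (gT N j) F := by
  induction n with
  | zero =>
    have hz : ∀ (i : ℤ) (f : (gT (gp N 0) j) ⟶ F⟦i⟧), f = 0 :=
      fun i f => (isZero_gT N j).eq_of_src _ _
    have hs : ∀ i : ℤ, Subsingleton (gT (gp N 0) j ⟶ F⟦i⟧) := fun i =>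
      ⟨fun x y => (hz i x).trans (hz i y).symm⟩
    refine ⟨⟨fun i => ?_, 0, fun i _ => hs i⟩, ?_⟩
    · have := hs i
      infer_instance
    · rw [(eu_zero_of_hom hz).1]
      simp
  | succ n ih =>
    obtain ⟨f, g, w, hS⟩ := exists_gp N n j
    have h2 : FE (gT (gp N (n + 1)) j) F := fe_l2 hS h ih.1
    refine ⟨h2, ?_⟩
    have e1 : eu (gT (gp N (n + 1)) j) F = eu (gT N j) F + eu (gT (gp N n) j) F :=
      eu_l hS h h2 ih.1
    rw [e1, ih.2]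
    push_cast
    ring

end Gp

section Koszul

variable {N₃ N₂ N₁ N₀ : GM (rg V.G)} [IsGr N₂] [IsGr N₁] [IsGr N₀] {e : ℤ}
  (K : KD N₃ N₂ N₁ N₀ e) {j₃ j₂ j₁ j₀ : ℤ} (h₂ : j₂ = j₃ + e) (h₁ : j₁ = j₂ + e) (h₀ : j₀ = j₁ + e)
  {E F : DerivedCategory (VX V).Modules}

include K h₂ h₁ h₀

theorem third_right (f3 : FE E (gT N₃ j₃)) (f2 : FE E (gT N₂ j₂)) (f1 : FE E (gT N₁ j₁))
    (f0 : FE E (gT N₀ j₀)) :
    eu E (gT N₀ j₀) - 3 * eu E (gT N₁ j₁) + 3 * eu E (gT N₂ j₂) - eu E (gT N₃ j₃) = 0 := by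
  obtain ⟨Z, f, g, w, f', g', w', hS, hS', -⟩ := K.exists_ses h₂ h₁ h₀
  obtain ⟨a1, a2⟩ := eu_gp_right N₁ j₁ f1 3
  obtain ⟨b1, b2⟩ := eu_gp_right N₂ j₂ f2 3
  have fZ : FE E (sg Z) := fe_r1 hS' a1 f0
  have e1 : eu E (gT (gp N₁ 3) j₁) = eu E (sg Z) + eu E (gT N₀ j₀) := eu_r hS' fZ a1 f0
  have e2 : eu E (gT (gp N₂ 3) j₂) = eu E (gT N₃ j₃) + eu E (sg Z) := eu_r hS f3 b1 fZ
  rw [a2] at e1
  rw [b2] at e2
  push_cast at e1 e2
  linarith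

theorem third_left (f3 : FE (gT N₃ j₃) F) (f2 : FE (gT N₂ j₂) F) (f1 : FE (gT N₁ j₁) F)
    (f0 : FE (gT N₀ j₀) F) :
    eu (gT N₀ j₀) F - 3 * eu (gT N₁ j₁) F + 3 * eu (gT N₂ j₂) F - eu (gT N₃ j₃) F = 0 := by
  obtain ⟨Z, f, g, w, f', g', w', hS, hS', -⟩ := K.exists_ses h₂ h₁ h₀
  obtain ⟨a1, a2⟩ := eu_gp_left N₁ j₁ f1 3
  obtain ⟨b1, b2⟩ := eu_gp_left N₂ j₂ f2 3
  have fZ : FE (sg Z) F := fe_l1 hS' a1 f0
  have e1 : eu (gT (gp N₁ 3) j₁) F = eu (sg Z) F + eu (gT N₀ j₀) F := eu_l hS' fZ a1 f0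
  have e2 : eu (gT (gp N₂ 3) j₂) F = eu (gT N₃ j₃) F + eu (sg Z) F := eu_l hS f3 b1 fZ
  rw [a2] at e1
  rw [b2] at e2
  push_cast at e1 e2
  linarith

/-- Vanishing when all other terms vanish. -/
theorem hz_third (f2 : ∀ (i : ℤ) (f : E ⟶ (gT N₂ j₂)⟦i⟧), f = 0)
    (f1 : ∀ (i : ℤ) (f : E ⟶ (gT N₁ j₁)⟦i⟧), f = 0)
    (f0 : ∀ (i : ℤ) (f : E ⟶ (gT N₀ j₀)⟦i⟧), f = 0) :
    ∀ (i : ℤ) (f : E ⟶ (gT N₃ j₃)⟦i⟧), f = 0 := by
  obtain ⟨Z, f, g, w, f', g', w', hS, hS', -⟩ := K.exists_ses h₂ h₁ h₀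
  have z1 : ∀ (i : ℤ) (f : E ⟶ (sg Z)⟦i⟧), f = 0 := hz_r1 hS' (hz_gp N₁ j₁ f1 3) f0
  exact hz_r1 hS (hz_gp N₂ j₂ f2 3) z1

end Koszul

end

end Run7.h164
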