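import Pool.Agent.Run7.h164.CU

set_option autoImplicit false
set_option linter.unusedVariables false
set_option linter.unusedSectionVars false

/-!
Euler characteristics of line bundles.
-/

open CategoryTheory Limits TopologicalSpace AlgebraicGeometry Opposite Pretriangulated
open Module

namespace Run7.h164

noncomputable section

set_option backward.isDefEq.respectTransparency false

open Pool.Agent.W506 Pool.Agent.N212
open Pool.Agent.R924 (DD Frame sg DCoh CohAll)

attribute [local instance] HasDerivedCategory.standard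

variable {V : Verra}

section Count

lemma Sx_empty (a : ℤ) : Sx a ∅ = exS a := by
  ext e
  constructor
  · exact fun h => ⟨fun i => h.1 i (Finset.notMem_empty i), h.2⟩
  · exact fun h => ⟨fun i _ => h.1 i, h.2⟩

lemma Sp_empty (a b : ℤ) : Sp a b ∅ ∅ = exS a ×ˢ exS b := by
  ext e
  change (e.1 ∈ Sx a ∅ ∧ e.2 ∈ Sx b ∅) ↔ _
  rw [Sx_empty, Sx_empty]
  rfl

/-- Polynomials with exponents in a finite set. -/
lemma exists_sptE {S : Set E2} (hS : S.Finite) : Nonempty (spt S ≃ₗ[ℂ] (S → ℂ)) := by
  have := hS.to_subtype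
  have := Fintype.ofFinite S
  let f : spt S →ₗ[ℂ] (S → ℂ) :=
    { toFun := fun p e => p.1.coeff e.1
      map_add' := fun p q => rfl
      map_smul' := fun c p => rfl }
  have hf : Function.Bijective f := by
    constructor
    · rw [injective_iff_map_eq_zero]
      intro p hp
      apply Subtype.ext
      refine AddMonoidAlgebra.coeff_injective (Finsupp.ext fun e => ?_)
      by_cases he : e ∈ S
      · exact congrFun hp ⟨e, he⟩
      · by_contra h
        exact he (p.2 e h)
    · intro g
      refine ⟨⟨∑ e : S, AddMonoidAlgebra.single e.1 (g e), sum_mem fun e _ => single_mem e.2 _⟩, ?_⟩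
      funext e
      change (∑ e : S, (AddMonoidAlgebra.single e.1 (g e) : LP)).coeff e.1 = g e
      have h1 : ∀ s : Finset S, (∑ e ∈ s, (AddMonoidAlgebra.single e.1 (g e) : LP)).coeff e.1 =
          ∑ e' ∈ s, (AddMonoidAlgebra.single e'.1 (g e') : LP).coeff e.1 := by
        intro s
        induction s using Finset.cons_induction with
        | empty => rfl
        | cons a s ha ih =>
          rw [Finset.sum_cons, Finset.sum_cons, ← ih]
          rfl
      rw [h1, Finset.sum_eq_single e]
      · change (Finsupp.single e.1 (g e)) e.1 = _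
        rw [Finsupp.single_eq_same]
      · intro e' _ he'
        change (Finsupp.single e'.1 (g e')) e.1 = _
        rw [Finsupp.single_apply, if_neg fun h => he' (Subtype.ext h)]
      · intro h
        exact absurd (Finset.mem_univ _) h
  exact ⟨LinearEquiv.ofBijective f hf⟩

lemma finrank_spt {S : Set E2} (hS : S.Finite) : Module.Finite ℂ (spt S) ∧
    finrank ℂ (spt S) = Nat.card S := by
  have := hS.to_subtype
  have := Fintype.ofFinite S
  obtain ⟨e⟩ := exists_sptE hS
  exact ⟨Module.Finite.equiv e.symm, by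
    rw [e.finrank_eq, Module.finrank_fintype_fun_eq_card, Nat.card_eq_fintype_card]⟩

/-- The dimension of the space of sections. -/
lemma finrank_MS (a b : ℤ) : finrank ℂ (MS V.G 1 a b ∅ ∅) =
    Nat.card (exS a) * Nat.card (exS b) + Nat.card (exS (a - 1)) * Nat.card (exS (b - 1)) := by
  let e : MS V.G 1 a b ∅ ∅ ≃ₗ[ℂ] spt (Sp a b ∅ ∅) × spt (Sp (a - 1) (b - 1) ∅ ∅) :=
    { toFun := fun v => (⟨((show Fin 1 → QL V.G from v.1) 0).re, (v.2 0).1⟩,
        ⟨((show Fin 1 → QL V.G from v.1) 0).im, (v.2 0).2⟩)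
      invFun := fun p => ⟨(fun _ => ⟨p.1.1, p.2.1⟩ : Fin 1 → QL V.G), fun _ => ⟨p.1.2, p.2.2⟩⟩
      left_inv := fun v => by
        apply Subtype.ext
        funext i
        rw [Subsingleton.elim (α := Fin 1) i 0]
      right_inv := fun p => rfl
      map_add' := fun v w => rfl
      map_smul' := fun c v => rfl }
  obtain ⟨f1, g1⟩ := finrank_spt (Sp_finite a b)
  obtain ⟨f2, g2⟩ := finrank_spt (Sp_finite (a - 1) (b - 1))
  rw [e.finrank_eq, Module.finrank_prod, g1, g2, Sp_empty, Sp_empty, Nat.card_coe_set_eq,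
    Nat.card_coe_set_eq, Set.ncard_prod, Set.ncard_prod]
  rfl

lemma card_exS_lt {n : ℤ} (h : n < 0) : Nat.card (exS n) = 0 := by
  have : exS n = ∅ := by
    ext e
    simp only [Set.mem_empty_iff_false, iff_false]
    rintro ⟨h1, h2⟩
    have := Finset.sum_nonneg fun i (_ : i ∈ Finset.univ) => h1 i
    omega
  rw [this]
  simp

end Count

/-! ### Interpolation -/

lemma third_unique {g : ℤ → ℤ} (h : ∀ a, g a - 3 * g (a - 1) + 3 * g (a - 2) - g (a - 3) = 0)
    {c : ℤ} (h0 : g c = 0) (h1 : g (c + 1) = 0) (h2 : g (c + 2) = 0) (a : ℤ) : g a = 0 := by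
  have up : ∀ n : ℕ, g (c + n) = 0 ∧ g (c + n + 1) = 0 ∧ g (c + n + 2) = 0 := by
    intro n
    induction n with
    | zero => exact ⟨by simpa using h0, by simpa using h1, by simpa using h2⟩
    | succ n ih =>
      obtain ⟨a1, a2, a3⟩ := ih
      have e := h (c + n + 3)
      rw [show c + n + 3 - 1 = c + n + 2 by ring, show c + n + 3 - 2 = c + n + 1 by ring,
        show c + n + 3 - 3 = c + n by ring, a1, a2, a3] at e
      push_cast
      refine ⟨by rw [← add_assoc]; exact a2, ?_, ?_⟩
      · rw [show c + (n + 1) + 1 = c + n + 2 by ring]; exact a3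
      · rw [show c + (n + 1) + 2 = c + n + 3 by ring]; linarith
  have dn : ∀ n : ℕ, g (c - n) = 0 ∧ g (c - n + 1) = 0 ∧ g (c - n + 2) = 0 := by
    intro n
    induction n with
    | zero => exact ⟨by simpa using h0, by simpa using h1, by simpa using h2⟩
    | succ n ih =>
      obtain ⟨a1, a2, a3⟩ := ih
      have e := h (c - n + 2)
      rw [show c - n + 2 - 1 = c - n + 1 by ring, show c - n + 2 - 2 = c - n by ring,
        show c - n + 2 - 3 = c - n - 1 by ring, a1, a2, a3] at e
      push_cast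
      refine ⟨?_, ?_, ?_⟩
      · rw [show c - (n + 1) = c - n - 1 by ring]; linarith
      · rw [show c - (n + 1) + 1 = c - n by ring]; exact a1
      · rw [show c - (n + 1) + 2 = c - n + 1 by ring]; exact a2
  rcases le_total c a with hca | hca
  · have := (up (a - c).toNat).1
    rwa [Int.toNat_of_nonneg (by omega), add_sub_cancel] at this
  · have := (dn (c - a).toNat).1
    rwa [Int.toNat_of_nonneg (by omega), sub_sub_cancel] at this

/-! ### Line bundles -/

section Line

variable {F : DerivedCategory (VX V).Modules}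

lemma third_line (hF : ∀ a b, FE (sg (LS V 1 a b)) F) (s : Bool) (a b : ℤ) :
    eu (sg (LS V 1 a b)) F - 3 * eu (sg (LS V 1 (a - dx s) (b - dy s))) F +
      3 * eu (sg (LS V 1 (a - 2 * dx s) (b - 2 * dy s))) F -
      eu (sg (LS V 1 (a - 3 * dx s) (b - 3 * dy s))) F = 0 := by
  have h := third_left (kdL V 1 s a b) (j₃ := 0) (j₂ := 0) (j₁ := 0) (j₀ := 0) (F := F) rfl rfl rfl
    (hF _ _) (hF _ _) (hF _ _) (hF _ _)
  have e0 : NLj V 1 s a b 0 = NL V.G 1 a b := by
    rw [NLj, zero_mul, zero_mul, sub_zero, sub_zero]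
  have e1 : NLj V 1 s a b (0 + 1) = NL V.G 1 (a - dx s) (b - dy s) := by
    rw [NLj, zero_add, one_mul, one_mul]
  have e2 : NLj V 1 s a b (0 + 1 + 1) = NL V.G 1 (a - 2 * dx s) (b - 2 * dy s) := rfl
  have e3 : NLj V 1 s a b (0 + 1 + 1 + 1) = NL V.G 1 (a - 3 * dx s) (b - 3 * dy s) := rfl
  rw [e0, e1, e2, e3] at h
  exact h

lemma cohAll_LS (a b : ℤ) : CohAll (LS V 1 a b) := by
  obtain ⟨e⟩ := exists_isoLS (V := V) a b
  exact (cohAll_lb _).of_iso e

/-- Line bundles in both descriptions. -/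
lemma exists_sgIso (a b : ℤ) : Nonempty (sg (OL V a b) ≅ sg (LS V 1 a b)) := by
  obtain ⟨e⟩ := exists_isoLS (V := V) a b
  exact ⟨(DerivedCategory.singleFunctor _ 0).mapIso e⟩

lemma eu_LS_LS {a b p q : ℤ} (h1 : -1 ≤ p - a) (h2 : -1 ≤ q - b) :
    eu (sg (LS V 1 a b)) (sg (LS V 1 p q)) = Nat.card (exS (p - a)) * Nat.card (exS (q - b)) +
      Nat.card (exS (p - a - 1)) * Nat.card (exS (q - b - 1)) := by
  obtain ⟨e⟩ := exists_sgIso (V := V) a b
  rw [← eu_iso_left e, OL, eu_LS (shQ_line V a b) h1 h2, finrank_MS]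
  push_cast
  rfl

/-- The Euler characteristics of all line bundles. -/
theorem eu_lines {p q : ℤ} (hp : -1 ≤ p) (hq : -1 ≤ q) (a b : ℤ) :
    4 * eu (sg (LS V 1 a b)) (sg (LS V 1 p q)) =
      (p - a + 1) * (p - a + 2) * (q - b + 1) * (q - b + 2) +
      (p - a) * (p - a + 1) * (q - b) * (q - b + 1) := by
  have hF : ∀ a b, FE (sg (LS V 1 a b)) (sg (LS V 1 p q)) := fun a b =>
    fe_line (dCoh_sg (cohAll_LS a b)) 1 hp hq
  let g : ℤ → ℤ → ℤ := fun a b => 4 * eu (sg (LS V 1 a b)) (sg (LS V 1 p q)) -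
    ((p - a + 1) * (p - a + 2) * (q - b + 1) * (q - b + 2) +
      (p - a) * (p - a + 1) * (q - b) * (q - b + 1))
  have base : ∀ a b, (a = p - 1 ∨ a = p ∨ a = p + 1) → (b = q - 1 ∨ b = q ∨ b = q + 1) →
      g a b = 0 := by
    intro a b ha hb
    change 4 * eu (sg (LS V 1 a b)) (sg (LS V 1 p q)) - _ = 0
    rw [eu_LS_LS (by omega) (by omega)]
    have x0 := card_exS_zero
    have x1 := card_exS_one
    have y1 := card_exS_lt (n := -1) (by norm_num)
    have y2 := card_exS_lt (n := -2) (by norm_num)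
    rcases ha with rfl | rfl | rfl <;> rcases hb with rfl | rfl | rfl <;>
      simp only [sub_sub_cancel, sub_self, sub_add_cancel_left, zero_sub,
        show (-1 - 1 : ℤ) = -2 by norm_num, x0, x1, y1, y2] <;> norm_num
  have d1 : ∀ a b, g a b - 3 * g (a - 1) b + 3 * g (a - 2) b - g (a - 3) b = 0 := by
    intro a b
    have h := third_line hF false a b
    simp only [dx, dy, Bool.false_eq_true, if_false, mul_one, mul_zero, sub_zero] at h
    change (4 * eu (sg (LS V 1 a b)) (sg (LS V 1 p q)) - _) -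
      3 * (4 * eu (sg (LS V 1 (a - 1) b)) (sg (LS V 1 p q)) - _) +
      3 * (4 * eu (sg (LS V 1 (a - 2) b)) (sg (LS V 1 p q)) - _) -
      (4 * eu (sg (LS V 1 (a - 3) b)) (sg (LS V 1 p q)) - _) = 0
    linear_combination 4 * h
  have d2 : ∀ a b, g a b - 3 * g a (b - 1) + 3 * g a (b - 2) - g a (b - 3) = 0 := by
    intro a b
    have h := third_line hF true a b
    simp only [dx, dy, if_true, mul_one, mul_zero, sub_zero] at h
    change (4 * eu (sg (LS V 1 a b)) (sg (LS V 1 p q)) - _) -
      3 * (4 * eu (sg (LS V 1 a (b - 1))) (sg (LS V 1 p q)) - _) +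
      3 * (4 * eu (sg (LS V 1 a (b - 2))) (sg (LS V 1 p q)) - _) -
      (4 * eu (sg (LS V 1 a (b - 3))) (sg (LS V 1 p q)) - _) = 0
    linear_combination 4 * h
  have s1 : ∀ a b, (b = q - 1 ∨ b = q ∨ b = q + 1) → g a b = 0 := by
    intro a b hb
    refine third_unique (g := fun a => g a b) (fun a => d1 a b) (c := p - 1) ?_ ?_ ?_ a
    · exact base _ _ (Or.inl rfl) hb
    · exact base _ _ (Or.inr (Or.inl (by ring))) hb
    · exact base _ _ (Or.inr (Or.inr (by ring))) hb
  have s2 : ∀ a b, g a b = 0 := by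
    intro a b
    refine third_unique (g := fun b => g a b) (fun b => d2 a b) (c := q - 1) ?_ ?_ ?_ b
    · exact s1 _ _ (Or.inl rfl)
    · exact s1 _ _ (Or.inr (Or.inl (by ring)))
    · exact s1 _ _ (Or.inr (Or.inr (by ring)))
  have := s2 a b
  change 4 * eu (sg (LS V 1 a b)) (sg (LS V 1 p q)) - _ = 0 at this
  linarith

end Line

end

end Run7.h164
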