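import Pool.Agent.Run7.h164.CW

set_option autoImplicit false
set_option linter.unusedVariables false
set_option linter.unusedSectionVars false

/-!
Exceptional line bundles and vanishing theorems.
-/

open CategoryTheory Limits TopologicalSpace AlgebraicGeometry Opposite Pretriangulated
open Module

namespace Run7.h164

noncomputable section

set_option backward.isDefEq.respectTransparency false

open Pool.Agent.W506 Pool.Agent.N212
open Pool.Agent.R924 (DD Frame sg DCoh CohAll)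

attribute [local instance] HasDerivedCategory.standard

variable {V : Verra}

/-- All morphisms from shifts vanish. -/
def HZ (c d p q : ℤ) (V : Verra) : Prop :=
  ∀ (i : ℤ) (f : sg (OL V c d) ⟶ (sg (OL V p q))⟦i⟧), f = 0

lemma hz_of_LS {c d p q : ℤ} (h : ∀ (i : ℤ) (f : sg (OL V c d) ⟶ (sg (LS V 1 p q))⟦i⟧), f = 0) :
    HZ c d p q V := by
  obtain ⟨e⟩ := exists_sgIso (V := V) p q
  intro i f
  apply (rE (sg (OL V c d)) ((shiftFunctor _ i).mapIso e)).injective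
  rw [map_zero]
  exact h i _

lemma hz_basic {c d p q : ℤ} (h1 : -1 ≤ p - c) (h2 : -1 ≤ q - d) (h : p - c < 0 ∨ q - d < 0) :
    ∀ (i : ℤ) (f : sg (OL V c d) ⟶ (sg (LS V 1 p q))⟦i⟧), f = 0 :=
  hom_LS_zero_all (shQ_line V c d) h1 h2 h

/-- Line bundles are exceptional. -/
theorem exc_OL (p q : ℤ) : Exc (sg (OL V p q)) := by
  obtain ⟨e⟩ := exists_sgIso (V := V) p q
  have h1 : FE (sg (OL V p q)) (sg (LS V 1 p q)) :=
    fe_LS (shQ_line V p q) (by omega) (by omega)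
  refine ⟨h1.iso_right e.symm, fun i hi f => ?_, ?_⟩
  · apply (rE (sg (OL V p q)) ((shiftFunctor _ i).mapIso e)).injective
    rw [map_zero]
    exact hom_LS_eq_zero V (shQ_line V p q) (by omega) (by omega) hi _
  · rw [((rE (sg (OL V p q)) ((shiftFunctor _ (0 : ℤ)).mapIso e)).trans
      ((hzL _ _).trans (homQ (shQ_line V p q) 1 p q))).finrank_eq, finrank_MS, sub_self, sub_self,
      card_exS_zero, card_exS_lt (n := 0 - 1) (by norm_num)]

/-! ### Twists by minus two -/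

section Pr

variable (N : GM (rg V.G)) (n : ℕ)

/-- The projections. -/
def prG (i : Fin n) : GH (gp N n) N 0 where
  f := LinearMap.proj i
  map_deg {m v} h := by
    rw [add_zero]
    exact h i

lemma lo_ext {x : ProjectiveSpectrum.top (rg V.G)} {z : Lo (gp N n) x}
    (h : ∀ i, lmap (prG N n i).f x z = 0) : z = 0 := by
  induction z using LocalizedModule.induction_on with
  | h m a =>
    have h1 : ∀ i, ∃ u : Pool.Agent.N212.pc x, (u : RF V.G) • (show Fin n → N.M from m) i = 0 := by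
      intro i
      have h2 := h i
      rw [lmap_mk, ← LocalizedModule.zero_mk 1, LocalizedModule.mk_eq] at h2
      obtain ⟨u, hu⟩ := h2
      refine ⟨u, ?_⟩
      have h3 : (u : RF V.G) • (1 : RF V.G) • ((show Fin n → N.M from m) i) =
        (u : RF V.G) • (a : RF V.G) • (0 : N.M) := hu
      simpa using h3
    choose u hu using h1
    refine mk_eq_zero_of (c := ((∏ i, u i : Pool.Agent.N212.pc x) : RF V.G)) (Subtype.property _) ?_ a
    funext i
    change ((∏ i, u i : Pool.Agent.N212.pc x) : RF V.G) • (show Fin n → N.M from m) i = 0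
    rw [← Finset.prod_erase_mul _ _ (Finset.mem_univ i)]
    change ((((∏ j ∈ Finset.univ.erase i, u j) : Pool.Agent.N212.pc x) : RF V.G) * (u i : RF V.G)) •
      (show Fin n → N.M from m) i = 0
    rw [mul_smul, hu, smul_zero]

lemma eq_zero_of_pr {j : ℤ} {L : (VX V).Modules} {φ : L ⟶ til (gp N n) j}
    (h : ∀ i, φ ≫ tmap (prG N n i) (add_zero j).symm = 0) : φ = 0 := by
  apply ap_ext
  intro U s
  apply vl_ext
  intro x hx
  rw [ap_zero, vl_zero]
  refine lo_ext N n fun i => ?_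
  rw [← vl_tmap (prG N n i) (add_zero j).symm, ← ap_comp, h i]
  rfl

end Pr

lemma cfL_mo {n : ℕ} (i : Fin n) (p : Bool) (t x : E2) (v : LM2 V.G n) :
    cfL i p x (mo V.G t • v) = cfL i p (-t + x) v := by
  cases p
  · change ((mo V.G t * (show Fin n → QL V.G from v) i).re).coeff x =
      ((show Fin n → QL V.G from v) i).re.coeff (-t + x)
    rw [re_mo_mul, coeff_single_mul']
  · change ((mo V.G t * (show Fin n → QL V.G from v) i).im).coeff x =
      ((show Fin n → QL V.G from v) i).im.coeff (-t + x)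
    rw [im_mo_mul, coeff_single_mul']

lemma xo_inj {s : Bool} {i k : Fin 3} (h : xo s i = xo s k) : i = k := by
  cases s
  · exact ue_inj (congrArg Prod.fst h)
  · exact ue_inj (congrArg Prod.snd h)

/-- The variables are linearly independent. -/
lemma xo_indep (s : Bool) (v : Fin 3 → LM2 V.G 1) (hv : ∀ i, v i ∈ MS V.G 1 0 0 ∅ ∅)
    (h : ∑ i, mo V.G (xo s i) • v i = 0) (i : Fin 3) : v i = 0 := by
  have hs : ∀ (i : Fin 3) (l : Fin 1) (p : Bool) (e : E2), cfL l p e (v i) ≠ 0 →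
      p = false ∧ e = 0 := by
    intro i l p e he
    cases p
    · refine ⟨rfl, ?_⟩
      have h1 := (hv i l).1 e he
      rw [Sp_empty, exS_zero] at h1
      exact Prod.ext h1.1 h1.2
    · have h1 := (hv i l).2 e he
      rw [Sp_empty] at h1
      have h2 := h1.1
      rw [show (0 - 1 : ℤ) = -1 by norm_num, exS_neg] at h2
      exact absurd h2 (Set.notMem_empty _)
  refine cfL_ext fun l p e => ?_
  by_contra he
  obtain ⟨rfl, rfl⟩ := hs i l p e he
  apply he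
  have h1 := congrArg (cfL l false (xo s i)) h
  rw [map_sum, map_zero, Finset.sum_eq_single i] at h1
  · rwa [cfL_mo, neg_add_cancel] at h1
  · intro k _ hk
    by_contra h2
    rw [cfL_mo] at h2
    obtain ⟨-, h3⟩ := hs k l _ _ h2
    exact hk (xo_inj (neg_add_eq_zero.1 h3))
  · intro h
    exact absurd (Finset.mem_univ _) h

lemma mk_add_sm2 {R : Type} [CommRing R] {S : Submonoid R} {M : Type} [AddCommGroup M] [Module R M]
    (m m' : M) (a : S) : LocalizedModule.mk m a + LocalizedModule.mk m' a =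
      LocalizedModule.mk (m + m') a := by
  rw [LocalizedModule.mk_add_mk, LocalizedModule.mk_eq]
  refine ⟨1, ?_⟩
  rw [one_smul, one_smul, ← smul_add, smul_smul]

lemma lmap_d₁ {N₃ N₂ N₁ N₀ : GM (rg V.G)} {e : ℤ} (K : KD N₃ N₂ N₁ N₀ e)
    {x : ProjectiveSpectrum.top (rg V.G)} (z : Lo (gp N₁ 3) x) :
    lmap K.d₁.f x z = ∑ i, lmap (K.c i).f x (lmap (prG N₁ 3 i).f x z) := by
  induction z using LocalizedModule.induction_on with
  | h m a =>
    rw [lmap_mk, K.d₁_f, Fin.sum_univ_three, Fin.sum_univ_three, lmap_mk, lmap_mk, lmap_mk,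
      lmap_mk, lmap_mk, lmap_mk, mk_add_sm2, mk_add_sm2]
    rfl

lemma sum_key {N₃ N₂ N₁ N₀ : GM (rg V.G)} {e : ℤ} (K : KD N₃ N₂ N₁ N₀ e)
    {x : ProjectiveSpectrum.top (rg V.G)} {z : Lo (gp N₁ 3) x} {w : Fin 3 → N₁.M}
    (hz : lmap K.d₁.f x z = 0)
    (h : ∀ i, lmap (prG N₁ 3 i).f x z = LocalizedModule.mk (w i) 1) :
    (LocalizedModule.mk (∑ i, (K.c i).f (w i)) 1 : Lo N₀ x) = 0 := by
  rw [lmap_d₁, Fin.sum_univ_three, h, h, h, lmap_mk, lmap_mk, lmap_mk, mk_add_sm2,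
    mk_add_sm2] at hz
  rw [Fin.sum_univ_three]
  exact hz

section Special

variable (s : Bool) (a b : ℤ)

lemma d₁_inj {c d : ℤ} (hc : c = a - dx s) (hd : d = b - dy s)
    {φ : OL V c d ⟶ til (gp (NLj V 1 s a b (0 + 1)) 3) 0}
    (hφ : φ ≫ tmap (kdL V 1 s a b).d₁ (add_zero (0 : ℤ)).symm = 0) : φ = 0 := by
  have e1 : a - (0 + 1) * dx s - c = 0 := by rw [hc]; ring
  have e2 : b - (0 + 1) * dy s - d = 0 := by rw [hd]; ring
  have h1 : ∀ i, ∃ v, v ∈ MS V.G 1 (a - (0 + 1) * dx s - c) (b - (0 + 1) * dy s - d) ∅ ∅ ∧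
      HRepQ V c d (δ := xiD V ^ c * etD V ^ d)
        (φ ≫ tmap (prG (NLj V 1 s a b (0 + 1)) 3 i) (add_zero (0 : ℤ)).symm) v :=
    fun i => exists_repHQ V (shQ_line V c d) _
  choose v hv hr using h1
  rw [e1, e2] at hv
  have h2 : ∑ i, mo V.G (xo s i) • v i = 0 := by
    have h3 : mo V.G (me c d (0, 0)) • (∑ i, mo V.G (xo s i) • v i) = 0 := by
      refine repQ_zero V (a := a) (b := b) (U_eq_fg V (0, 0)) (I := Finset.univ) (K := Finset.univ) ?_ ?_
      · refine (me_shift V (Finset.mem_univ _) (Finset.mem_univ _)).1 (sum_mem fun i _ => ?_)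
        refine mo_mem_MS' V (hv i) ?_ ?_ (Finset.empty_subset _) (Finset.empty_subset _)
          (fun k _ => xo_nonneg₁ s i k) (fun k _ => xo_nonneg₂ s i k)
        · rw [sm_xo₁, hc]; ring
        · rw [sm_xo₂, hd]; ring
      · intro x hx
        have h4 := congrArg (fun ψ => vl (ap ψ _ (Frame.lbE (xiD V ^ c * etD V ^ d) (0, 0))) x hx) hφ
        simp only [ap_zero, vl_zero] at h4
        rw [ap_comp, vl_tmap] at h4
        have h5 : ∀ i, lmap (prG (NLj V 1 s a b (0 + 1)) 3 i).f x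
            (vl (ap φ _ (Frame.lbE (xiD V ^ c * etD V ^ d) (0, 0))) x hx) =
            LocalizedModule.mk (S := Pool.Agent.N212.pc x)
              (show (NLj V 1 s a b (0 + 1)).M from mo V.G (me c d (0, 0)) • v i) 1 := by
          intro i
          rw [← vl_tmap _ (add_zero (0 : ℤ)).symm, ← ap_comp]
          exact hr i (0, 0) x hx
        have h6 := sum_key (kdL V 1 s a b)
          (w := fun i => (show (NLj V 1 s a b (0 + 1)).M from mo V.G (me c d (0, 0)) • v i)) h4 h5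
        have h7 : mo V.G (me c d (0, 0)) • (∑ i, mo V.G (xo s i) • v i) =
            ∑ i, mo V.G (xo s i) • mo V.G (me c d (0, 0)) • v i := by
          rw [Finset.smul_sum]
          exact Finset.sum_congr rfl fun i _ => mo_comm V 1 _ _ _
        rw [h7]
        exact h6
    exact mo_inj V 1 _ (h3.trans (smul_zero _).symm)
  have h3 := xo_indep s v hv h2
  refine eq_zero_of_pr _ _ fun i => ?_
  refine HRepQ.ext V (δ := xiD V ^ c * etD V ^ d) (c := c) (d := d) (hr i) ?_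
  intro j
  rw [h3 i, smul_zero]
  intro x hx
  rw [ap_zero, vl_zero]
  exact (LocalizedModule.zero_mk _).symm

lemma hz_gp1 (N : GM (rg V.G)) [IsGr N] (j : ℤ) {E : DerivedCategory (VX V).Modules} {i : ℤ}
    (h : ∀ f : E ⟶ (gT N j)⟦i⟧, f = 0) (n : ℕ) : ∀ f : E ⟶ (gT (gp N n) j)⟦i⟧, f = 0 := by
  induction n with
  | zero => exact fun f => ((shiftFunctor _ i).map_isZero (isZero_gT N j)).eq_of_tgt _ _
  | succ n ih =>
    obtain ⟨f, g, w, hS⟩ := exists_gp N n j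
    intro x
    obtain ⟨z, hz⟩ := ls₂ _ hS.singleTriangle_distinguished E i x (ih _)
    rw [← hz, h z, zero_comp]

lemma fe_NL {c d p q : ℤ} (h1 : -1 ≤ p - c) (h2 : -1 ≤ q - d) :
    FE (sg (OL V c d)) (gT (NL V.G 1 p q) 0) := fe_LS (shQ_line V c d) h1 h2

lemma eu_NL {c d p q : ℤ} (h1 : -1 ≤ p - c) (h2 : -1 ≤ q - d) :
    eu (sg (OL V c d)) (gT (NL V.G 1 p q) 0) = finrank ℂ (MS V.G 1 (p - c) (q - d) ∅ ∅) :=
  eu_LS (shQ_line V c d) h1 h2

lemma hz_NL_ne {c d p q : ℤ} (h1 : -1 ≤ p - c) (h2 : -1 ≤ q - d) {i : ℤ} (hi : i ≠ 0)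
    (f : sg (OL V c d) ⟶ (gT (NL V.G 1 p q) 0)⟦i⟧) : f = 0 :=
  hom_LS_eq_zero V (shQ_line V c d) h1 h2 hi f

lemma hz_NL {c d p q : ℤ} (h1 : -1 ≤ p - c) (h2 : -1 ≤ q - d) (h : p - c < 0 ∨ q - d < 0) :
    ∀ (i : ℤ) (f : sg (OL V c d) ⟶ (gT (NL V.G 1 p q) 0)⟦i⟧), f = 0 :=
  hz_basic h1 h2 h

lemma deg_zero {S : ShortComplex (VX V).Modules} (hS : S.ShortExact) {L : (VX V).Modules}
    (hinj : ∀ ψ : L ⟶ S.X₂, ψ ≫ S.g = 0 → ψ = 0) (x : sg L ⟶ (sg S.X₁)⟦(0 : ℤ)⟧) :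
    x ≫ hS.singleTriangle.mor₁⟦(0 : ℤ)⟧' = 0 := by
  have h1 : hz L S.X₂ (x ≫ hS.singleTriangle.mor₁⟦(0 : ℤ)⟧') = hz L S.X₁ x ≫ S.f := hz_comp x S.f
  apply (hz L S.X₂).injective
  rw [h1, map_zero]
  apply hinj
  rw [Category.assoc, S.zero, comp_zero]

/-- The vanishing of morphisms into the kernel. -/
lemma hz_kernel {S : ShortComplex (VX V).Modules} (hS : S.ShortExact) {L : (VX V).Modules}
    (hinj : ∀ ψ : L ⟶ S.X₂, ψ ≫ S.g = 0 → ψ = 0)
    (h2 : ∀ i : ℤ, i ≠ 0 → ∀ f : sg L ⟶ (sg S.X₂)⟦i⟧, f = 0)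
    (h3 : ∀ i : ℤ, i ≠ 0 → ∀ f : sg L ⟶ (sg S.X₃)⟦i⟧, f = 0)
    (f2 : FE (sg L) (sg S.X₂)) (f3 : FE (sg L) (sg S.X₃))
    (he : eu (sg L) (sg S.X₂) = eu (sg L) (sg S.X₃)) :
    ∀ (i : ℤ) (f : sg L ⟶ (sg S.X₁)⟦i⟧), f = 0 := by
  have fZ : FE (sg L) (sg S.X₁) := fe_r1 hS f2 f3
  have eZ : eu (sg L) (sg S.X₁) = 0 := by
    have e1 := eu_r hS fZ f2 f3
    rw [he] at e1
    linarith
  have z1 : ∀ i : ℤ, i ≠ 1 → ∀ x : sg L ⟶ (sg S.X₁)⟦i⟧, x = 0 := by
    intro i hi x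
    have hx : x ≫ hS.singleTriangle.mor₁⟦i⟧' = 0 := by
      by_cases h0 : i = 0
      · subst h0
        exact deg_zero hS hinj x
      · exact h2 i h0 _
    obtain ⟨k, rfl⟩ : ∃ k, i = k + 1 := ⟨i - 1, by ring⟩
    obtain ⟨y, hy⟩ := ls₁ _ hS.singleTriangle_distinguished (sg L) k x hx
    have hy0 : y = 0 := h3 k (by omega) y
    rw [← hy, hy0, zero_comp]
  intro i x
  by_cases hi : i = 1
  · subst hi
    have e1 : eu (sg L) (sg S.X₁) = -(finrank ℂ (sg L ⟶ (sg S.X₁)⟦(1 : ℤ)⟧)) := by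
      rw [eu, chiZ, finsum_eq_single _ (1 : ℤ)]
      · simp
      · intro i hi
        have : Subsingleton (sg L ⟶ (sg S.X₁)⟦i⟧) := ⟨fun x y => (z1 i hi x).trans (z1 i hi y).symm⟩
        rw [finrank_zero_of_subsingleton]
        simp
    rw [eZ] at e1
    have := fZ.fin 1
    have h3 : finrank ℂ (sg L ⟶ (sg S.X₁)⟦(1 : ℤ)⟧) = 0 := by
      have : (finrank ℂ (sg L ⟶ (sg S.X₁)⟦(1 : ℤ)⟧) : ℤ) = 0 := by linarith
      exact_mod_cast this
    have := finrank_zero_iff.1 h3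
    exact Subsingleton.elim _ _
  · exact z1 i hi x

/-- Twists by minus two along one of the planes. -/
theorem hz_two (s : Bool) (c d : ℤ) :
    ∀ (i : ℤ) (f : sg (OL V c d) ⟶ (sg (LS V 1 (c - 2 * dx s) (d - 2 * dy s)))⟦i⟧), f = 0 := by
  have ds : (dx s = 0 ∧ dy s = 1) ∨ (dx s = 1 ∧ dy s = 0) := by
    cases s
    · exact Or.inr ⟨rfl, rfl⟩
    · exact Or.inl ⟨rfl, rfl⟩
  let a := c + dx s
  let b := d + dy s
  let K := kdL V 1 s a b
  have hc : c = a - dx s := by change c = c + dx s - dx s; ring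
  have hd : d = b - dy s := by change d = d + dy s - dy s; ring
  obtain ⟨Z, f, g, w, f', g', w', hS, hS', hg'⟩ := K.exists_ses (j₃ := 0) (j₂ := 0) (j₁ := 0)
    (j₀ := 0) rfl rfl rfl
  have q0 : -1 ≤ a - 0 * dx s - c ∧ -1 ≤ b - 0 * dy s - d := by omega
  have q1 : -1 ≤ a - (0 + 1) * dx s - c ∧ -1 ≤ b - (0 + 1) * dy s - d := by omega
  have f0 : FE (sg (OL V c d)) (gT (NLj V 1 s a b 0) 0) := fe_NL q0.1 q0.2
  have f1 : FE (sg (OL V c d)) (gT (NLj V 1 s a b (0 + 1)) 0) := fe_NL q1.1 q1.2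
  have u0 : eu (sg (OL V c d)) (gT (NLj V 1 s a b 0) 0) = 3 := by
    rw [eu_NL q0.1 q0.2, finrank_MS]
    have e1 : a - 0 * dx s - c = dx s := by rw [hc]; ring
    have e2 : b - 0 * dy s - d = dy s := by rw [hd]; ring
    rw [e1, e2]
    have y1 := card_exS_lt (n := 0 - 1) (by norm_num)
    rcases ds with ⟨g1, g2⟩ | ⟨g1, g2⟩
    · rw [g1, g2, card_exS_zero, card_exS_one, y1]
      norm_num
    · rw [g1, g2, card_exS_zero, card_exS_one, y1]
      norm_num
  have u1 : eu (sg (OL V c d)) (gT (NLj V 1 s a b (0 + 1)) 0) = 1 := by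
    rw [eu_NL q1.1 q1.2, finrank_MS]
    have e1 : a - (0 + 1) * dx s - c = 0 := by rw [hc]; ring
    have e2 : b - (0 + 1) * dy s - d = 0 := by rw [hd]; ring
    rw [e1, e2, card_exS_zero, card_exS_lt (n := 0 - 1) (by norm_num)]
    norm_num
  obtain ⟨a1, a2⟩ := eu_gp_right (NLj V 1 s a b (0 + 1)) 0 f1 3
  have z2 : ∀ (i : ℤ) (x : sg (OL V c d) ⟶ (sg Z)⟦i⟧), x = 0 := by
    refine hz_kernel hS' (fun ψ hψ => ?_) (fun i h0 => ?_) (fun i h0 f => ?_) a1 f0 ?_
    · subst hg'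
      exact d₁_inj s a b hc hd hψ
    · exact hz_gp1 (NLj V 1 s a b (0 + 1)) 0 (fun f => hz_NL_ne q1.1 q1.2 h0 f) 3
    · exact hz_NL_ne q0.1 q0.2 h0 f
    · refine a2.trans ?_
      rw [u1]
      exact u0.symm
  have f2 : ∀ (i : ℤ) (x : sg (OL V c d) ⟶ (gT (NLj V 1 s a b (0 + 1 + 1)) 0)⟦i⟧), x = 0 :=
    hz_NL (by omega) (by omega) (by omega)
  have f3 := hz_r1 hS (hz_gp (NLj V 1 s a b (0 + 1 + 1)) 0 f2 3) z2
  have e1 : a - (0 + 1 + 1 + 1) * dx s = c - 2 * dx s := by rw [hc]; ring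
  have e2 : b - (0 + 1 + 1 + 1) * dy s = d - 2 * dy s := by rw [hd]; ring
  rw [← e1, ← e2]
  exact f3

end Special

end

end Run7.h164
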