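import Mathlib

set_option autoImplicit false
set_option linter.unusedVariables false

/-!
The grading on the double cover algebra.
-/

open DirectSum

namespace Run7.h164

noncomputable section

variable {k : Type} [Field k] {D : Type} [CommRing D] [Algebra k D] (ℬ : ℕ → Submodule k D)
  (F : D)

/-- The shifted grading. -/
def shB : ℕ → Submodule k D
  | 0 => ⊥
  | n + 1 => ℬ n

/-- The graded pieces of the double cover algebra. -/
def dbl (n : ℕ) : Submodule k (QuadraticAlgebra D F 0) where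
  carrier := {z | z.re ∈ ℬ n ∧ z.im ∈ shB ℬ n}
  add_mem' ha hb := ⟨add_mem ha.1 hb.1, add_mem ha.2 hb.2⟩
  zero_mem' := ⟨zero_mem _, zero_mem _⟩
  smul_mem' c _ ha := ⟨Submodule.smul_mem _ c ha.1, Submodule.smul_mem _ c ha.2⟩

lemma mem_dbl {n : ℕ} {z : QuadraticAlgebra D F 0} :
    z ∈ dbl ℬ F n ↔ z.re ∈ ℬ n ∧ z.im ∈ shB ℬ n := Iff.rfl

variable [GradedAlgebra ℬ] [hF : Fact (F ∈ ℬ 2)]

lemma mul_mem_shB {i j : ℕ} {a b : D} (ha : a ∈ ℬ i) (hb : b ∈ shB ℬ j) :
    a * b ∈ shB ℬ (i + j) := by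
  cases j with
  | zero =>
    have : b = 0 := hb
    rw [this, mul_zero]
    exact zero_mem _
  | succ j => exact SetLike.mul_mem_graded (A := ℬ) ha (show b ∈ ℬ j from hb)

lemma F_mul_mem {i j : ℕ} {a b : D} (ha : a ∈ shB ℬ i) (hb : b ∈ shB ℬ j) :
    F * a * b ∈ ℬ (i + j) := by
  cases i with
  | zero =>
    have : a = 0 := ha
    rw [this, mul_zero, zero_mul]
    exact zero_mem _
  | succ i =>
    cases j with
    | zero =>
      have : b = 0 := hb
      rw [this, mul_zero]
      exact zero_mem _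
    | succ j =>
      have h : F * a * b ∈ ℬ (2 + i + j) :=
        SetLike.mul_mem_graded (SetLike.mul_mem_graded hF.out (show a ∈ ℬ i from ha))
          (show b ∈ ℬ j from hb)
      rwa [show 2 + i + j = i + 1 + (j + 1) by ring] at h

instance : SetLike.GradedMonoid (dbl ℬ F) where
  one_mem := ⟨SetLike.GradedOne.one_mem, zero_mem _⟩
  mul_mem i j a b ha hb := by
    refine ⟨?_, ?_⟩
    · rw [QuadraticAlgebra.re_mul]
      exact add_mem (SetLike.mul_mem_graded ha.1 hb.1) (F_mul_mem ℬ F ha.2 hb.2)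
    · rw [QuadraticAlgebra.im_mul]
      refine add_mem (add_mem (mul_mem_shB ℬ ha.1 hb.2) ?_) (by simp)
      rw [mul_comm, add_comm]
      exact mul_mem_shB ℬ hb.1 ha.2

/-- First inclusion. -/
def inc₁ (i : ℕ) : ℬ i →+ dbl ℬ F i where
  toFun r := ⟨⟨r.1, 0⟩, r.2, zero_mem _⟩
  map_zero' := rfl
  map_add' a b := Subtype.ext (QuadraticAlgebra.ext rfl (add_zero 0).symm)

/-- Second inclusion. -/
def inc₂ (i : ℕ) : ℬ i →+ dbl ℬ F (i + 1) where
  toFun r := ⟨⟨0, r.1⟩, zero_mem _, r.2⟩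
  map_zero' := rfl
  map_add' a b := Subtype.ext (QuadraticAlgebra.ext (add_zero 0).symm rfl)

/-- First part of the decomposition. -/
def dec₁ : (⨁ i, ℬ i) →+ ⨁ i, dbl ℬ F i :=
  DirectSum.toAddMonoid fun i => (DirectSum.of (fun i => dbl ℬ F i) i).comp (inc₁ ℬ F i)

/-- Second part of the decomposition. -/
def dec₂ : (⨁ i, ℬ i) →+ ⨁ i, dbl ℬ F i :=
  DirectSum.toAddMonoid fun i => (DirectSum.of (fun i => dbl ℬ F i) (i + 1)).comp (inc₂ ℬ F i)

lemma coe_dec₁ (x : ⨁ i, ℬ i) : DirectSum.coeAddMonoidHom (dbl ℬ F) (dec₁ ℬ F x) =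
    ⟨DirectSum.coeAddMonoidHom ℬ x, 0⟩ := by
  induction x using DirectSum.induction_on with
  | zero => simp only [map_zero]; rfl
  | of i x =>
    rw [dec₁, DirectSum.toAddMonoid_of, AddMonoidHom.comp_apply, DirectSum.coeAddMonoidHom_of,
      DirectSum.coeAddMonoidHom_of]
    rfl
  | add x y hx hy =>
    rw [map_add, map_add, hx, hy, map_add]
    exact QuadraticAlgebra.ext rfl (add_zero 0)

lemma coe_dec₂ (x : ⨁ i, ℬ i) : DirectSum.coeAddMonoidHom (dbl ℬ F) (dec₂ ℬ F x) =
    ⟨0, DirectSum.coeAddMonoidHom ℬ x⟩ := by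
  induction x using DirectSum.induction_on with
  | zero => simp only [map_zero]; rfl
  | of i x =>
    rw [dec₂, DirectSum.toAddMonoid_of, AddMonoidHom.comp_apply, DirectSum.coeAddMonoidHom_of,
      DirectSum.coeAddMonoidHom_of]
    rfl
  | add x y hx hy =>
    rw [map_add, map_add, hx, hy, map_add]
    exact QuadraticAlgebra.ext (add_zero 0) rfl

/-- The decomposition. -/
def decD : QuadraticAlgebra D F 0 →+ ⨁ i, dbl ℬ F i where
  toFun z := dec₁ ℬ F (decompose ℬ z.re) + dec₂ ℬ F (decompose ℬ z.im)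
  map_zero' := by
    rw [QuadraticAlgebra.re_zero, QuadraticAlgebra.im_zero, decompose_zero, map_zero, map_zero,
      add_zero]
  map_add' a b := by
    rw [QuadraticAlgebra.re_add, QuadraticAlgebra.im_add, decompose_add, decompose_add, map_add,
      map_add]
    abel

instance : DirectSum.Decomposition (dbl ℬ F) :=
  DirectSum.Decomposition.ofAddHom _ (decD ℬ F) (by
    ext z : 1
    change DirectSum.coeAddMonoidHom (dbl ℬ F) (dec₁ ℬ F (decompose ℬ z.re) +
      dec₂ ℬ F (decompose ℬ z.im)) = z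
    rw [map_add, coe_dec₁, coe_dec₂]
    have h1 : ∀ r : D, DirectSum.coeAddMonoidHom ℬ (decompose ℬ r) = r := fun r =>
      (decompose ℬ).symm_apply_apply r
    rw [h1, h1]
    exact QuadraticAlgebra.ext (add_zero _) (zero_add _)) (by
    ext i z : 2
    obtain ⟨z, hz1, hz2⟩ := z
    change decD ℬ F (DirectSum.coeAddMonoidHom (dbl ℬ F) (DirectSum.of _ i ⟨z, hz1, hz2⟩)) =
      DirectSum.of _ i ⟨z, hz1, hz2⟩
    rw [DirectSum.coeAddMonoidHom_of]
    change dec₁ ℬ F (decompose ℬ z.re) + dec₂ ℬ F (decompose ℬ z.im) = _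
    cases i with
    | zero =>
      have h0 : z.im = 0 := hz2
      have h1 : decompose ℬ z.im = 0 := by rw [h0, decompose_zero]
      rw [h1, map_zero, add_zero, decompose_of_mem ℬ hz1, dec₁,
        DirectSum.toAddMonoid_of, AddMonoidHom.comp_apply]
      congr 1
      exact Subtype.ext (QuadraticAlgebra.ext rfl h0.symm)
    | succ i =>
      have h0 : z.im ∈ ℬ i := hz2
      rw [decompose_of_mem ℬ h0, decompose_of_mem ℬ hz1, dec₁, dec₂,
        DirectSum.toAddMonoid_of, DirectSum.toAddMonoid_of, AddMonoidHom.comp_apply,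
        AddMonoidHom.comp_apply, ← map_add]
      congr 1
      exact Subtype.ext (QuadraticAlgebra.ext (add_zero _) (zero_add _)))

instance : GradedAlgebra (dbl ℬ F) where

end

end Run7.h164
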