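import Pool.Agent.R924.E3
import Pool.Agent.Run7.h164.GR

set_option autoImplicit false
set_option linter.unusedVariables false

/-!
The homogeneous coordinate ring of a product of two projective planes and of its double covers.
-/

open Pool.Agent.R924

namespace Run7.h164

noncomputable section

/-- Pairs of exponents of the same degree. -/
def Gm : AddSubmonoid ((Fin 3 → ℕ) × (Fin 3 → ℕ)) where
  carrier := {p | ∑ i, p.1 i = ∑ i, p.2 i}
  add_mem' := by
    intro p q hp hq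
    change ∑ i, (p.1 i + q.1 i) = ∑ i, (p.2 i + q.2 i)
    rw [Finset.sum_add_distrib, Finset.sum_add_distrib]
    exact congrArg₂ _ hp hq
  zero_mem' := rfl

/-- The degree. -/
def dg : Gm →+ ℕ where
  toFun p := ∑ i, p.1.1 i
  map_zero' := by simp
  map_add' p q := by
    change ∑ i, (p.1.1 i + q.1.1 i) = _
    rw [Finset.sum_add_distrib]

/-- The algebra of polynomials of bidegrees `(n, n)`. -/
abbrev Bi : Type := AddMonoidAlgebra ℂ Gm

/-- The grading. -/
abbrev bg : ℕ → Submodule ℂ Bi := AddMonoidAlgebra.gradeBy ℂ dg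

/-- The exponent of `x i * y k`. -/
def um (i k : Fin 3) : Gm := ⟨(Pi.single i 1, Pi.single k 1), by
  change ∑ j, (Pi.single i 1 : Fin 3 → ℕ) j = ∑ j, (Pi.single k 1 : Fin 3 → ℕ) j
  rw [Finset.sum_pi_single', Finset.sum_pi_single', if_pos (Finset.mem_univ _),
    if_pos (Finset.mem_univ _)]⟩

lemma dg_um (i k : Fin 3) : dg (um i k) = 1 := by
  change ∑ j, (Pi.single i 1 : Fin 3 → ℕ) j = 1
  rw [Finset.sum_pi_single', if_pos (Finset.mem_univ _)]

/-- The element `x i * y k`. -/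
def uu (i k : Fin 3) : Bi := AddMonoidAlgebra.single (um i k) 1

lemma uu_mem (i k : Fin 3) : uu i k ∈ bg 1 := mo_mem (dg_um i k) (1 : ℂ)

lemma segre (i j k l : Fin 3) : uu i k * uu j l = uu i l * uu j k := by
  rw [uu, uu, uu, uu, AddMonoidAlgebra.single_mul_single, AddMonoidAlgebra.single_mul_single]
  congr 1
  apply Subtype.ext
  refine Prod.ext rfl ?_
  exact add_comm _ _

/-- The form of bidegree `(2, 2)` with given coefficients. -/
def FD (G : Fin 3 → Fin 3 → Fin 3 → Fin 3 → ℂ) : Bi :=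
  ∑ i, ∑ j, ∑ k, ∑ l, G i j k l • (uu i k * uu j l)

lemma FD_mem (G : Fin 3 → Fin 3 → Fin 3 → Fin 3 → ℂ) : FD G ∈ bg 2 :=
  sum_mem fun i _ => sum_mem fun j _ => sum_mem fun k _ => sum_mem fun l _ =>
    Submodule.smul_mem _ _ (SetLike.mul_mem_graded (uu_mem i k) (uu_mem j l))

instance (G : Fin 3 → Fin 3 → Fin 3 → Fin 3 → ℂ) : Fact (FD G ∈ bg 2) := ⟨FD_mem G⟩

/-- The coordinate ring of the double cover. -/
abbrev RF (G : Fin 3 → Fin 3 → Fin 3 → Fin 3 → ℂ) : Type := QuadraticAlgebra Bi (FD G) 0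

/-- Its grading. -/
abbrev rg (G : Fin 3 → Fin 3 → Fin 3 → Fin 3 → ℂ) : ℕ → Submodule ℂ (RF G) := dbl bg (FD G)

instance (G : Fin 3 → Fin 3 → Fin 3 → Fin 3 → ℂ) : GradedAlgebra (rg G) := inferInstance

section Eval

variable {B : Type} [CommRing B] [Algebra ℂ B]

/-- The value of the form with given coefficients. -/
def fm (G : Fin 3 → Fin 3 → Fin 3 → Fin 3 → ℂ) (x y : Fin 3 → B) : B :=
  ∑ i, ∑ j, ∑ k, ∑ l, G i j k l • (x i * x j * y k * y l)

/-- Evaluation. -/
def evB (x y : Fin 3 → B) : Bi →ₐ[ℂ] B :=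
  AddMonoidAlgebra.lift ℂ B Gm
    { toFun := fun m => (∏ i, x i ^ m.toAdd.1.1 i) * ∏ i, y i ^ m.toAdd.1.2 i
      map_one' := by
        change (∏ i, x i ^ 0) * ∏ i, y i ^ 0 = 1
        simp
      map_mul' := fun m m' => by
        change (∏ i, x i ^ (m.toAdd.1.1 i + m'.toAdd.1.1 i)) *
          ∏ i, y i ^ (m.toAdd.1.2 i + m'.toAdd.1.2 i) = _
        simp only [pow_add, Finset.prod_mul_distrib]
        ring }

lemma evB_single (x y : Fin 3 → B) (m : Gm) (c : ℂ) : evB x y (AddMonoidAlgebra.single m c) =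
    c • ((∏ i, x i ^ m.1.1 i) * ∏ i, y i ^ m.1.2 i) := by
  rw [evB, AddMonoidAlgebra.lift_single]
  rfl

lemma evB_uu (x y : Fin 3 → B) (i k : Fin 3) : evB x y (uu i k) = x i * y k := by
  rw [uu, evB_single, one_smul]
  have h : ∀ (z : Fin 3 → B) (i : Fin 3), ∏ j, z j ^ (Pi.single i 1 : Fin 3 → ℕ) j = z i := by
    intro z i
    rw [Finset.prod_eq_single i]
    · rw [Pi.single_eq_same, pow_one]
    · intro j _ hj
      rw [Pi.single_eq_of_ne hj, pow_zero]
    · intro h
      exact absurd (Finset.mem_univ _) h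
  exact congrArg₂ _ (h x i) (h y k)

lemma evB_FD (G : Fin 3 → Fin 3 → Fin 3 → Fin 3 → ℂ) (x y : Fin 3 → B) :
    evB x y (FD G) = fm G x y := by
  rw [FD, fm, map_sum]
  refine Finset.sum_congr rfl fun i _ => ?_
  rw [map_sum]
  refine Finset.sum_congr rfl fun j _ => ?_
  rw [map_sum]
  refine Finset.sum_congr rfl fun k _ => ?_
  rw [map_sum]
  refine Finset.sum_congr rfl fun l _ => ?_
  rw [map_smul, map_mul, evB_uu, evB_uu]
  congr 1
  ring

end Eval

/-- The embedding into the polynomial ring. -/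
def toP : Bi →ₐ[ℂ] MvPolynomial (Fin 3 ⊕ Fin 3) ℂ :=
  evB (fun i => MvPolynomial.X (Sum.inl i)) (fun i => MvPolynomial.X (Sum.inr i))

instance : IsDomain Bi := by
  have h1 : TwoUniqueSums ((Fin 3 → ℕ) × (Fin 3 → ℕ)) := inferInstance
  have h2 : TwoUniqueSums Gm := TwoUniqueSums.of_injective_addHom
    (f := (Gm.subtype : Gm →ₙ+ (Fin 3 → ℕ) × (Fin 3 → ℕ))) Subtype.val_injective h1
  have h3 : NoZeroDivisors Bi := inferInstance
  exact NoZeroDivisors.to_isDomain _

lemma uu_ne_zero (i k : Fin 3) : uu i k ≠ 0 := AddMonoidAlgebra.single_ne_zero.2 one_ne_zero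

/-- Monomials of positive degree are multiples of the generators. -/
lemma exists_um (m : Gm) (h : 0 < dg m) : ∃ (i k : Fin 3) (m' : Gm), m = um i k + m' := by
  have h1 : ∃ i, 0 < m.1.1 i := by
    by_contra! hc
    have h3 : ∑ i, m.1.1 i = 0 := Finset.sum_eq_zero fun i _ => Nat.le_zero.1 (hc i)
    have h5 : dg m = ∑ i, m.1.1 i := rfl
    omega
  have h2 : ∃ i, 0 < m.1.2 i := by
    by_contra! hc
    have h3 : ∑ i, m.1.2 i = 0 := Finset.sum_eq_zero fun i _ => Nat.le_zero.1 (hc i)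
    have h4 : ∑ i, m.1.1 i = ∑ i, m.1.2 i := m.2
    have h5 : dg m = ∑ i, m.1.1 i := rfl
    omega
  obtain ⟨i, hi⟩ := h1
  obtain ⟨k, hk⟩ := h2
  have e1 : Pi.single i 1 + (m.1.1 - Pi.single i 1) = m.1.1 := by
    funext j
    by_cases hj : j = i
    · subst hj
      simp only [Pi.add_apply, Pi.sub_apply, Pi.single_eq_same]
      omega
    · simp only [Pi.add_apply, Pi.sub_apply, Pi.single_eq_of_ne hj]
      omega
  have e2 : Pi.single k 1 + (m.1.2 - Pi.single k 1) = m.1.2 := by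
    funext j
    by_cases hj : j = k
    · subst hj
      simp only [Pi.add_apply, Pi.sub_apply, Pi.single_eq_same]
      omega
    · simp only [Pi.add_apply, Pi.sub_apply, Pi.single_eq_of_ne hj]
      omega
  refine ⟨i, k, ⟨(m.1.1 - Pi.single i 1, m.1.2 - Pi.single k 1), ?_⟩, ?_⟩
  · have h4 : ∑ i, m.1.1 i = ∑ i, m.1.2 i := m.2
    rw [← e1, ← e2] at h4
    have h5 : ∑ j, (Pi.single i 1 + (m.1.1 - Pi.single i 1) : Fin 3 → ℕ) j =
        1 + ∑ j, (m.1.1 - Pi.single i 1 : Fin 3 → ℕ) j := by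
      simp only [Pi.add_apply, Finset.sum_add_distrib]
      rw [Finset.sum_pi_single', if_pos (Finset.mem_univ _)]
    have h6 : ∑ j, (Pi.single k 1 + (m.1.2 - Pi.single k 1) : Fin 3 → ℕ) j =
        1 + ∑ j, (m.1.2 - Pi.single k 1 : Fin 3 → ℕ) j := by
      simp only [Pi.add_apply, Finset.sum_add_distrib]
      rw [Finset.sum_pi_single', if_pos (Finset.mem_univ _)]
    have h7 : ∑ j, (m.1.1 - Pi.single i 1 : Fin 3 → ℕ) j =
        ∑ j, (m.1.2 - Pi.single k 1 : Fin 3 → ℕ) j := by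
      have h8 := h5.symm.trans (h4.trans h6)
      omega
    exact h7
  · apply Subtype.ext
    exact Prod.ext e1.symm e2.symm

end

end Run7.h164
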