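import Mathlib

set_option autoImplicit false
set_option linter.unusedVariables false
set_option linter.unusedSectionVars false

/-!
Dimensions of representations of Clifford algebras of ternary quadratic forms.
-/

open Module Quaternion

namespace Run7.h164

noncomputable section

section Diag

variable {K : Type} [Field K] (p q r : K)

/-- Anisotropy of a diagonal quaternary form. -/
def AnD (p q r : K) : Prop :=
  ∀ w x y z : K, w ^ 2 = p * x ^ 2 + q * y ^ 2 + r * z ^ 2 → x = 0 ∧ y = 0 ∧ z = 0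

variable {p q r} (h : AnD p q r)

include h

lemma AnD.p_ne : p ≠ 0 := by
  rintro rfl
  exact one_ne_zero (h 0 1 0 0 (by ring)).1

lemma AnD.q_ne : q ≠ 0 := by
  rintro rfl
  exact one_ne_zero (h 0 0 1 0 (by ring)).2.1

lemma AnD.r_ne : r ≠ 0 := by
  rintro rfl
  exact one_ne_zero (h 0 0 0 1 (by ring)).2.2

lemma AnD.norm_ne {a b c d : K} (h0 : a ^ 2 - p * b ^ 2 - q * c ^ 2 + p * q * d ^ 2 = 0) :
    a = 0 ∧ b = 0 ∧ c = 0 ∧ d = 0 := by
  have h1 := h (a * c - p * b * d) (b * c - a * d) (c ^ 2 - p * d ^ 2) 0 (by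
    linear_combination (c ^ 2 - p * d ^ 2) * h0)
  have hD := h1.2.1
  have h2 := h c d 0 0 (by linear_combination hD)
  have hd := h2.1
  rw [hd] at hD h0
  have hc : c = 0 := by
    have : c ^ 2 = 0 := by linear_combination hD
    exact pow_eq_zero_iff (two_ne_zero) |>.1 this
  rw [hc] at h0
  have h3 := h a b 0 0 (by linear_combination h0)
  have hb := h3.1
  rw [hb] at h0
  have ha : a = 0 := by
    have : a ^ 2 = 0 := by linear_combination h0
    exact pow_eq_zero_iff (two_ne_zero) |>.1 this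
  exact ⟨ha, hb, hc, hd⟩

/-- The quaternions. -/
abbrev HQ (p q : K) : Type := ℍ[K,p,0,q]

omit h in
/-- The norm. -/
def nrm (x : HQ p q) : K := x.re ^ 2 - p * x.imI ^ 2 - q * x.imJ ^ 2 + p * q * x.imK ^ 2

omit h in
lemma star_mul_self' (x : HQ p q) : star x * x = algebraMap K _ (nrm x) := by
  rw [QuaternionAlgebra.algebraMap_eq]
  refine QuaternionAlgebra.ext ?_ ?_ ?_ ?_
  · change _ = x.re ^ 2 - p * x.imI ^ 2 - q * x.imJ ^ 2 + p * q * x.imK ^ 2
    simp
    ring
  · simp
    ring
  · simp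
    ring
  · simp
    ring


lemma AnD.nrm_ne {x : HQ p q} (hx : x ≠ 0) : nrm x ≠ 0 := by
  intro h0
  obtain ⟨h1, h2, h3, h4⟩ := h.norm_ne h0
  exact hx (QuaternionAlgebra.ext h1 h2 h3 h4)

lemma AnD.sq_ne (h2 : (2 : K) ≠ 0) (hδ : ∀ s : K, s ^ 2 ≠ -(p * q * r)) (z : HQ p q) :
    z * z ≠ algebraMap K _ (-(p * q * r)) := by
  intro hz
  have e0 := congrArg QuaternionAlgebra.re hz
  have e1 := congrArg QuaternionAlgebra.imI hz
  have e2 := congrArg QuaternionAlgebra.imJ hz
  have e3 := congrArg QuaternionAlgebra.imK hz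
  simp [QuaternionAlgebra.re_mul, QuaternionAlgebra.imI_mul,
    QuaternionAlgebra.imJ_mul, QuaternionAlgebra.imK_mul] at e0 e1 e2 e3
  by_cases h0 : z.re = 0
  · rw [h0] at e0
    have h1 := h (p * q * z.imK) (q * z.imJ) (p * z.imI) (p * q) (by
      linear_combination (-(p * q)) * e0)
    exact (mul_ne_zero h.p_ne h.q_ne) h1.2.2
  · have f1 : z.imI = 0 := by
      have : (2 * z.re) * z.imI = 0 := by linear_combination e1
      exact (mul_eq_zero.1 this).resolve_left (mul_ne_zero h2 h0)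
    have f2 : z.imJ = 0 := by
      have : (2 * z.re) * z.imJ = 0 := by linear_combination e2
      exact (mul_eq_zero.1 this).resolve_left (mul_ne_zero h2 h0)
    have f3 : z.imK = 0 := by
      have : (2 * z.re) * z.imK = 0 := by linear_combination e3
      exact (mul_eq_zero.1 this).resolve_left (mul_ne_zero h2 h0)
    rw [f1, f2, f3] at e0
    exact hδ z.re (by linear_combination e0)

end Diag

section Rep

universe w

variable {K : Type} [Field K] {p q r : K}

/-- Representations of the Clifford algebra of a diagonal ternary form. -/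
structure Rp3 (p q r : K) (W : Type w) [AddCommGroup W] [Module K W] where
  /-- the generators -/
  A : Module.End K W
  B : Module.End K W
  C : Module.End K W
  hA : A * A = algebraMap K _ p
  hB : B * B = algebraMap K _ q
  hC : C * C = algebraMap K _ r
  hAB : A * B + B * A = 0
  hAC : A * C + C * A = 0
  hBC : B * C + C * B = 0

variable {W : Type w} [AddCommGroup W] [Module K W] (T : Rp3 p q r W)

/-- The quaternionic basis. -/
def Rp3.bas : QuaternionAlgebra.Basis (Module.End K W) p 0 q where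
  i := T.A
  j := T.B
  k := T.A * T.B
  i_mul_i := by rw [T.hA, zero_smul, add_zero, Algebra.algebraMap_eq_smul_one]
  j_mul_j := by rw [T.hB, Algebra.algebraMap_eq_smul_one]
  i_mul_j := rfl
  j_mul_i := by
    rw [zero_smul, zero_sub]
    exact eq_neg_of_add_eq_zero_right T.hAB

/-- The action of quaternions. -/
def Rp3.rho : HQ p q →ₐ[K] Module.End K W := QuaternionAlgebra.lift T.bas

lemma Rp3.rho_apply (x : HQ p q) : T.rho x =
    algebraMap K _ x.re + x.imI • T.A + x.imJ • T.B + x.imK • (T.A * T.B) := rfl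

/-- The volume element. -/
def Rp3.om : Module.End K W := T.A * T.B * T.C

lemma Rp3.BA : T.B * T.A = -(T.A * T.B) := eq_neg_of_add_eq_zero_right T.hAB

lemma Rp3.CA : T.C * T.A = -(T.A * T.C) := eq_neg_of_add_eq_zero_right T.hAC

lemma Rp3.CB : T.C * T.B = -(T.B * T.C) := eq_neg_of_add_eq_zero_right T.hBC

lemma Rp3.omA : T.om * T.A = T.A * T.om := by
  rw [Rp3.om, mul_assoc, T.CA, mul_neg, mul_assoc, ← mul_assoc T.B, T.BA]
  noncomm_ring

lemma Rp3.omB : T.om * T.B = T.B * T.om := by
  have h1 : T.om * T.B = -(T.A * T.B * T.B * T.C) := by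
    rw [Rp3.om, mul_assoc, T.CB]
    noncomm_ring
  have h2 : T.B * T.om = -(T.A * T.B * T.B * T.C) := by
    rw [Rp3.om, ← mul_assoc, ← mul_assoc, T.BA]
    noncomm_ring
  rw [h1, h2]

lemma Rp3.om_rho (x : HQ p q) : T.om * T.rho x = T.rho x * T.om := by
  rw [T.rho_apply]
  have h1 : T.om * (T.A * T.B) = (T.A * T.B) * T.om := by
    rw [← mul_assoc, T.omA, mul_assoc, T.omB, mul_assoc]
  simp only [mul_add, add_mul, mul_smul_comm, smul_mul_assoc, T.omA, T.omB, h1]
  rw [← Algebra.commutes]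

lemma Rp3.om_sq : T.om * T.om = algebraMap K _ (-(p * q * r)) := by
  have h1 : T.C * (T.A * T.B) = (T.A * T.B) * T.C := by
    rw [← mul_assoc, T.CA, neg_mul, mul_assoc, T.CB]
    noncomm_ring
  have h2 : T.om * T.om = (T.A * T.B) * (T.C * (T.A * T.B)) * T.C := by
    rw [Rp3.om]
    noncomm_ring
  have h3 : (T.A * T.B) * (T.A * T.B) = -(T.A * T.A * (T.B * T.B)) := by
    have : (T.A * T.B) * (T.A * T.B) = T.A * (T.B * T.A) * T.B := by noncomm_ring
    rw [this, T.BA]
    noncomm_ring
  rw [h2, h1, ← mul_assoc (T.A * T.B), h3, mul_assoc, T.hC, T.hA, T.hB, neg_mul, ← map_mul,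
    ← map_mul, ← map_neg]

lemma Rp3.AB_sq : (T.B * T.A) * (T.A * T.B) = algebraMap K _ (p * q) := by
  have : (T.B * T.A) * (T.A * T.B) = T.B * (T.A * T.A) * T.B := by noncomm_ring
  rw [this, T.hA, ← Algebra.commutes, mul_assoc, T.hB, ← map_mul]

lemma Rp3.C_eq : (p * q) • T.C = (T.B * T.A) * T.om := by
  rw [Rp3.om, ← mul_assoc, T.AB_sq, ← Algebra.smul_def]

variable (h : AnD p q r) (h2 : (2 : K) ≠ 0) (hδ : ∀ s : K, s ^ 2 ≠ -(p * q * r))

include h in
lemma Rp3.rho_inj {x : HQ p q} (hx : x ≠ 0) {w : W} (hw : T.rho x w = 0) : w = 0 := by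
  have h1 : T.rho (star x * x) w = 0 := by
    rw [map_mul, Module.End.mul_apply, hw, map_zero]
  rw [star_mul_self', AlgHom.commutes] at h1
  have h3 : nrm x • w = 0 := h1
  exact (smul_eq_zero.1 h3).resolve_left (h.nrm_ne hx)

/-- The span of a vector. -/
def Rp3.ph (w : W) : HQ p q × HQ p q →ₗ[K] W where
  toFun x := T.rho x.1 w + T.om (T.rho x.2 w)
  map_add' x y := by
    rw [Prod.fst_add, Prod.snd_add, map_add, map_add, LinearMap.add_apply, LinearMap.add_apply,
      map_add]
    abel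
  map_smul' c x := by
    rw [Prod.smul_fst, Prod.smul_snd, map_smul, map_smul, LinearMap.smul_apply,
      LinearMap.smul_apply, map_smul, smul_add, RingHom.id_apply]

lemma Rp3.om_rho' (x : HQ p q) (w : W) : T.om (T.rho x w) = T.rho x (T.om w) :=
  LinearMap.congr_fun (T.om_rho x) w

lemma Rp3.om_sq' (w : W) : T.om (T.om w) = (-(p * q * r)) • w :=
  LinearMap.congr_fun T.om_sq w

include h h2 hδ in
lemma Rp3.ph_inj {w : W} (hw : w ≠ 0) : Function.Injective (T.ph w) := by
  rw [injective_iff_map_eq_zero]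
  rintro ⟨x, y⟩ hxy
  have h0 : T.rho x w + T.om (T.rho y w) = 0 := hxy
  by_cases hy : y = 0
  · subst hy
    rw [map_zero, LinearMap.zero_apply, map_zero, add_zero] at h0
    by_cases hx : x = 0
    · rw [hx]
      rfl
    · exact absurd (T.rho_inj h hx h0) hw
  · exfalso
    have hw' : T.rho y w ≠ 0 := fun hc => hw (T.rho_inj h hy hc)
    have h1 : (nrm y) • w = T.rho (star y) (T.rho y w) := by
      rw [← Module.End.mul_apply, ← map_mul, star_mul_self', AlgHom.commutes]
      rfl
    have h3 : (nrm y) • T.om (T.rho y w) = T.rho (-(x * star y)) (T.rho y w) := by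
      rw [eq_neg_of_add_eq_zero_right h0, map_neg, LinearMap.neg_apply, smul_neg, map_mul,
        Module.End.mul_apply, ← h1, map_smul]
    have h4 : T.rho ((-(x * star y)) * (-(x * star y)) -
        algebraMap K _ (nrm y ^ 2 * -(p * q * r))) (T.rho y w) = 0 := by
      rw [map_sub, LinearMap.sub_apply, map_mul, Module.End.mul_apply, ← h3, map_smul,
        ← T.om_rho', ← h3, AlgHom.commutes, map_smul, T.om_sq', smul_smul, smul_smul]
      change _ - (nrm y ^ 2 * -(p * q * r)) • (T.rho y w) = 0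
      rw [← sub_smul]
      have : nrm y * nrm y * -(p * q * r) - nrm y ^ 2 * -(p * q * r) = 0 := by ring
      rw [this, zero_smul]
    have h5 : (-(x * star y)) * (-(x * star y)) - algebraMap K (HQ p q) (nrm y ^ 2 * -(p * q * r))
        = 0 := by
      by_contra hc
      exact hw' (T.rho_inj h hc h4)
    apply h.sq_ne h2 hδ ((nrm y)⁻¹ • (-(x * star y)))
    have h6 := h.nrm_ne hy
    rw [smul_mul_smul_comm, sub_eq_zero.1 h5, Algebra.smul_def, ← map_mul]
    congr 1
    field_simp

/-- Restriction to a quotient. -/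
def Rp3.quo (P : Submodule K W) (hA : P ≤ P.comap T.A) (hB : P ≤ P.comap T.B)
    (hC : P ≤ P.comap T.C) : Rp3 p q r (W ⧸ P) where
  A := P.mapQ P T.A hA
  B := P.mapQ P T.B hB
  C := P.mapQ P T.C hC
  hA := by
    apply Submodule.linearMap_qext
    ext x
    exact congrArg (Submodule.Quotient.mk (p := P)) (LinearMap.congr_fun T.hA x)
  hB := by
    apply Submodule.linearMap_qext
    ext x
    exact congrArg (Submodule.Quotient.mk (p := P)) (LinearMap.congr_fun T.hB x)
  hC := by
    apply Submodule.linearMap_qext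
    ext x
    exact congrArg (Submodule.Quotient.mk (p := P)) (LinearMap.congr_fun T.hC x)
  hAB := by
    apply Submodule.linearMap_qext
    ext x
    exact congrArg (Submodule.Quotient.mk (p := P)) (LinearMap.congr_fun T.hAB x)
  hAC := by
    apply Submodule.linearMap_qext
    ext x
    exact congrArg (Submodule.Quotient.mk (p := P)) (LinearMap.congr_fun T.hAC x)
  hBC := by
    apply Submodule.linearMap_qext
    ext x
    exact congrArg (Submodule.Quotient.mk (p := P)) (LinearMap.congr_fun T.hBC x)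

lemma Rp3.rho_A (w : W) (x : HQ p q) : T.A (T.rho x w) = T.rho (⟨0, 1, 0, 0⟩ * x) w := by
  rw [map_mul, Module.End.mul_apply]
  congr 1
  rw [T.rho_apply]
  simp

lemma Rp3.rho_B (w : W) (x : HQ p q) : T.B (T.rho x w) = T.rho (⟨0, 0, 1, 0⟩ * x) w := by
  rw [map_mul, Module.End.mul_apply]
  congr 1
  rw [T.rho_apply]
  simp

lemma Rp3.om_A (w : W) : T.A (T.om w) = T.om (T.A w) := (LinearMap.congr_fun T.omA w).symm

lemma Rp3.om_B (w : W) : T.B (T.om w) = T.om (T.B w) := (LinearMap.congr_fun T.omB w).symm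

lemma Rp3.ran_A (w : W) : LinearMap.range (T.ph w) ≤ (LinearMap.range (T.ph w)).comap T.A := by
  rintro _ ⟨x, rfl⟩
  refine ⟨(⟨0, 1, 0, 0⟩ * x.1, ⟨0, 1, 0, 0⟩ * x.2), ?_⟩
  change T.rho _ w + T.om (T.rho _ w) = T.A (T.rho x.1 w + T.om (T.rho x.2 w))
  rw [map_add, T.om_A, T.rho_A, T.rho_A]

lemma Rp3.ran_B (w : W) : LinearMap.range (T.ph w) ≤ (LinearMap.range (T.ph w)).comap T.B := by
  rintro _ ⟨x, rfl⟩
  refine ⟨(⟨0, 0, 1, 0⟩ * x.1, ⟨0, 0, 1, 0⟩ * x.2), ?_⟩
  change T.rho _ w + T.om (T.rho _ w) = T.B (T.rho x.1 w + T.om (T.rho x.2 w))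
  rw [map_add, T.om_B, T.rho_B, T.rho_B]

lemma Rp3.ran_om (w : W) : LinearMap.range (T.ph w) ≤ (LinearMap.range (T.ph w)).comap T.om := by
  rintro _ ⟨x, rfl⟩
  refine ⟨((-(p * q * r)) • x.2, x.1), ?_⟩
  change T.rho _ w + T.om (T.rho _ w) = T.om (T.rho x.1 w + T.om (T.rho x.2 w))
  rw [map_add, T.om_sq', map_smul, LinearMap.smul_apply, add_comm]

include h in
lemma Rp3.ran_C (w : W) : LinearMap.range (T.ph w) ≤ (LinearMap.range (T.ph w)).comap T.C := by
  intro x hx
  have h1 : T.B (T.A (T.om x)) ∈ LinearMap.range (T.ph w) :=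
    T.ran_B w (T.ran_A w (T.ran_om w hx))
  have h3 : (p * q) • T.C x = T.B (T.A (T.om x)) := LinearMap.congr_fun T.C_eq x
  rw [← h3] at h1
  have h4 := Submodule.smul_mem _ (p * q)⁻¹ h1
  rwa [smul_smul, inv_mul_cancel₀ (mul_ne_zero h.p_ne h.q_ne), one_smul] at h4

include h h2 hδ in
/-- The dimension of a representation is divisible by eight. -/
theorem Rp3.dvd : ∀ (n : ℕ) (W : Type w) [AddCommGroup W] [Module K W] [Module.Finite K W]
    (T : Rp3 p q r W), finrank K W = n → 8 ∣ n := by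
  intro n
  induction n using Nat.strong_induction_on with
  | _ n ih =>
    intro W _ _ _ T hn
    by_cases h0 : ∃ w : W, w ≠ 0
    · obtain ⟨w, hw⟩ := h0
      let P := LinearMap.range (T.ph w)
      have e1 : finrank K P = 8 := by
        rw [← (LinearEquiv.ofInjective (T.ph w) (T.ph_inj h h2 hδ hw)).finrank_eq,
          Module.finrank_prod, QuaternionAlgebra.finrank_eq_four]
      have e2 := Submodule.finrank_quotient_add_finrank P
      rw [e1, hn] at e2
      obtain ⟨k, hk⟩ := ih (finrank K (W ⧸ P)) (by omega) (W ⧸ P)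
        (T.quo P (T.ran_A w) (T.ran_B w) (T.ran_C h w)) rfl
      exact ⟨k + 1, by omega⟩
    · push Not at h0
      have hs : Subsingleton W := ⟨fun x y => (h0 x).trans (h0 y).symm⟩
      rw [finrank_zero_of_subsingleton] at hn
      exact ⟨0, by omega⟩

end Rep

end

end Run7.h164
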