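import Pool.Agent.Run7.h164.RK

set_option autoImplicit false
set_option linter.unusedVariables false
set_option linter.unusedSectionVars false

/-!
Euler characteristics in linear triangulated categories.
-/

open CategoryTheory Limits Pretriangulated Module

namespace Run7.h164

noncomputable section

lemma supp_fin' {r : ℤ → ℤ} {n : ℕ} (h : ∀ i : ℤ, (n : ℤ) ≤ |i| → r i = 0) :
    r.support.Finite := by
  refine (Set.finite_Icc (-(n : ℤ)) n).subset fun i hi => ?_
  by_contra hc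
  apply hi
  apply h
  rw [Set.mem_Icc, not_and_or] at hc
  rcases hc with hc | hc
  · rw [le_abs]; right; omega
  · rw [le_abs]; left; omega

section Les

universe w

variable {K : Type} [Field K] {A B C : ℤ → Type w} [∀ i, AddCommGroup (A i)]
  [∀ i, Module K (A i)] [∀ i, AddCommGroup (B i)] [∀ i, Module K (B i)]
  [∀ i, AddCommGroup (C i)] [∀ i, Module K (C i)]

theorem chi_les (f : ∀ i, A i →ₗ[K] B i) (g : ∀ i, B i →ₗ[K] C i) (d : ∀ i, C i →ₗ[K] A (i + 1))
    (h1 : ∀ i, LinearMap.ker (g i) = LinearMap.range (f i))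
    (h2 : ∀ i, LinearMap.ker (d i) = LinearMap.range (g i))
    (h3 : ∀ i, LinearMap.ker (f (i + 1)) = LinearMap.range (d i))
    (fA : ∀ i, Module.Finite K (A i)) (fB : ∀ i, Module.Finite K (B i))
    (fC : ∀ i, Module.Finite K (C i))
    {n : ℕ} (zA : ∀ i : ℤ, (n : ℤ) ≤ |i| → Subsingleton (A i))
    (zC : ∀ i : ℤ, (n : ℤ) ≤ |i| → Subsingleton (C i)) :
    chiZ (fun i => finrank K (B i)) = chiZ (fun i => finrank K (A i)) +
      chiZ (fun i => finrank K (C i)) := by
  have e1 : ∀ i, (finrank K (A i) : ℤ) = finrank K (LinearMap.ker (f i)) +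
      finrank K (LinearMap.range (f i)) := by
    intro i
    have := rn (f i)
    omega
  have e2 : ∀ i, (finrank K (B i) : ℤ) = finrank K (LinearMap.range (f i)) +
      finrank K (LinearMap.range (g i)) := by
    intro i
    have := rn (g i)
    rw [h1] at this
    omega
  have e3 : ∀ i, (finrank K (C i) : ℤ) = finrank K (LinearMap.range (g i)) +
      finrank K (LinearMap.ker (f (i + 1))) := by
    intro i
    have := rn (d i)
    rw [h2] at this
    rw [h3]
    omega
  have z1 : ∀ i : ℤ, (n : ℤ) ≤ |i| → (finrank K (LinearMap.ker (f i)) : ℤ) = 0 := by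
    intro i hi
    have := zA i hi
    rw [finrank_zero_of_subsingleton]
    rfl
  have z2 : ∀ i : ℤ, (n : ℤ) ≤ |i| → (finrank K (LinearMap.range (f i)) : ℤ) = 0 := by
    intro i hi
    have := zA i hi
    have h : Subsingleton (LinearMap.range (f i)) :=
      (f i).surjective_rangeRestrict.subsingleton
    rw [finrank_zero_of_subsingleton]
    rfl
  have z3 : ∀ i : ℤ, (n : ℤ) ≤ |i| → (finrank K (LinearMap.range (g i)) : ℤ) = 0 := by
    intro i hi
    have := zC i hi
    rw [finrank_zero_of_subsingleton]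
    rfl
  have s1 := supp_fin' z1
  have s2 := supp_fin' z2
  have s3 := supp_fin' z3
  have s4 : (fun i => (finrank K (LinearMap.ker (f (i + 1))) : ℤ)).support.Finite := by
    have := s1.preimage (f := fun i : ℤ => i + 1) (fun x _ y _ hxy => add_right_cancel hxy)
    exact this
  simp only [e1, e2, e3]
  rw [chiZ_add s2 s3, chiZ_add s1 s2, chiZ_add s3 s4,
    chiZ_shift (fun i => (finrank K (LinearMap.ker (f i)) : ℤ))]
  ring

end Les

universe v u

variable {C : Type u} [Category.{v} C] [Preadditive C] [HasZeroObject C] [HasShift C ℤ]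
  [∀ n : ℤ, (shiftFunctor C n).Additive] [Pretriangulated C] [Linear ℂ C]
  [∀ n : ℤ, (shiftFunctor C n).Linear ℂ]

/-- The Euler characteristic of a pair of objects. -/
def eu (E F : C) : ℤ := chiZ fun i => finrank ℂ (E ⟶ F⟦i⟧)

/-- Pairs of objects with finite-dimensional morphisms. -/
structure FE (E F : C) : Prop where
  fin : ∀ i : ℤ, Module.Finite ℂ (E ⟶ F⟦i⟧)
  bdd : ∃ n : ℕ, ∀ i : ℤ, (n : ℤ) ≤ |i| → Subsingleton (E ⟶ F⟦i⟧)

omit [HasZeroObject C] [∀ n : ℤ, (shiftFunctor C n).Additive] [Pretriangulated C]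
  [∀ n : ℤ, (shiftFunctor C n).Linear ℂ] in
lemma eu_congr {D : Type*} [Category D] [Preadditive D] [HasShift D ℤ] [Linear ℂ D]
    {E F : C} {E' F' : D} (e : ∀ i : ℤ, Nonempty ((E ⟶ F⟦i⟧) ≃ₗ[ℂ] (E' ⟶ F'⟦i⟧))) :
    eu E F = eu E' F' := by
  rw [eu, eu]
  congr 1
  funext i
  rw [(e i).some.finrank_eq]

omit [HasZeroObject C] [∀ n : ℤ, (shiftFunctor C n).Additive] [Pretriangulated C]
  [∀ n : ℤ, (shiftFunctor C n).Linear ℂ] in
lemma eu_iso_left {E E' F : C} (e : E ≅ E') : eu E F = eu E' F :=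
  eu_congr fun i => ⟨{ toFun := fun x => e.inv ≫ x
                       invFun := fun x => e.hom ≫ x
                       left_inv := fun x => by simp
                       right_inv := fun x => by simp
                       map_add' := fun x y => Preadditive.comp_add _ _ _ _ _ _
                       map_smul' := fun c x => Linear.comp_smul _ _ _ _ _ _ }⟩

omit [HasZeroObject C] [∀ n : ℤ, (shiftFunctor C n).Additive] [Pretriangulated C]
  [∀ n : ℤ, (shiftFunctor C n).Linear ℂ] in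
lemma eu_iso_right {E F F' : C} (e : F ≅ F') : eu E F = eu E F' :=
  eu_congr fun i => ⟨{ toFun := fun x => x ≫ e.hom⟦i⟧'
                       invFun := fun x => x ≫ e.inv⟦i⟧'
                       left_inv := fun x => by
                        change (x ≫ _) ≫ _ = x
                        rw [Category.assoc, ← Functor.map_comp, e.hom_inv_id,
                          CategoryTheory.Functor.map_id, Category.comp_id]
                       right_inv := fun x => by
                        change (x ≫ _) ≫ _ = x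
                        rw [Category.assoc, ← Functor.map_comp, e.inv_hom_id,
                          CategoryTheory.Functor.map_id, Category.comp_id]
                       map_add' := fun x y => Preadditive.add_comp _ _ _ _ _ _
                       map_smul' := fun c x => Linear.smul_comp _ _ _ _ _ _ }⟩

/-- The connecting morphism. -/
def cn (T : Triangle C) (i : ℤ) : T.obj₃⟦i⟧ ⟶ T.obj₁⟦i + 1⟧ :=
  T.mor₃⟦i⟧' ≫ (shiftFunctorAdd' C 1 i (i + 1) (by lia)).inv.app _

section Second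

variable (T : Triangle C) (hT : T ∈ distTriang C) (E : C)

include hT

lemma ls₂ (i : ℤ) (x : E ⟶ T.obj₂⟦i⟧) (hx : x ≫ T.mor₂⟦i⟧' = 0) : ∃ y, y ≫ T.mor₁⟦i⟧' = x := by
  have h := (preadditiveCoyoneda.obj (Opposite.op E)).homologySequence_exact₂ T hT i
  rw [ShortComplex.ab_exact_iff] at h
  exact h x hx

lemma ls₃ (i : ℤ) (x : E ⟶ T.obj₃⟦i⟧) (hx : x ≫ cn T i = 0) : ∃ y, y ≫ T.mor₂⟦i⟧' = x := by
  have h := (preadditiveCoyoneda.obj (Opposite.op E)).homologySequence_exact₃ T hT i (i + 1) rfl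
  rw [ShortComplex.ab_exact_iff] at h
  exact h x ((preadditiveCoyoneda_homologySequenceδ_apply T i (i + 1) rfl x).trans hx)

lemma ls₁ (i : ℤ) (x : E ⟶ T.obj₁⟦i + 1⟧) (hx : x ≫ T.mor₁⟦i + 1⟧' = 0) :
    ∃ y, y ≫ cn T i = x := by
  have h := (preadditiveCoyoneda.obj (Opposite.op E)).homologySequence_exact₁ T hT i (i + 1) rfl
  rw [ShortComplex.ab_exact_iff] at h
  obtain ⟨y, hy⟩ := h x hx
  exact ⟨y, (preadditiveCoyoneda_homologySequenceδ_apply T i (i + 1) rfl y).symm.trans hy⟩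

lemma ls_c₂ (i : ℤ) : T.mor₁⟦i⟧' ≫ T.mor₂⟦i⟧' = 0 := by
  rw [← Functor.map_comp, comp_distTriang_mor_zero₁₂ T hT, Functor.map_zero]

lemma ls_c₃ (i : ℤ) : T.mor₂⟦i⟧' ≫ cn T i = 0 := by
  rw [cn, ← Category.assoc, ← Functor.map_comp, comp_distTriang_mor_zero₂₃ T hT,
    Functor.map_zero, zero_comp]

lemma ls_c₁ (i : ℤ) : cn T i ≫ T.mor₁⟦i + 1⟧' = 0 := by
  rw [cn, Category.assoc]
  have h1 := (shiftFunctorAdd' C 1 i (i + 1) (by lia)).inv.naturality T.mor₁
  rw [← h1]
  have h2 : T.mor₃⟦i⟧' ≫ (shiftFunctor C (1 : ℤ) ⋙ shiftFunctor C i).map T.mor₁ = 0 := by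
    rw [Functor.comp_map, ← Functor.map_comp, comp_distTriang_mor_zero₃₁ T hT, Functor.map_zero]
  rw [← Category.assoc, h2, zero_comp]

theorem eu_tri₂ (f1 : FE E T.obj₁) (f2 : FE E T.obj₂) (f3 : FE E T.obj₃) :
    eu E T.obj₂ = eu E T.obj₁ + eu E T.obj₃ := by
  obtain ⟨n₁, hn₁⟩ := f1.bdd
  obtain ⟨n₃, hn₃⟩ := f3.bdd
  refine chi_les (n := max n₁ n₃) (fun i => Linear.rightComp ℂ E (T.mor₁⟦i⟧'))
    (fun i => Linear.rightComp ℂ E (T.mor₂⟦i⟧')) (fun i => Linear.rightComp ℂ E (cn T i))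
    (fun i => ?_) (fun i => ?_) (fun i => ?_)
    f1.fin f2.fin f3.fin (fun i hi => ?_) (fun i hi => ?_)
  · ext x
    constructor
    · exact fun hx => ls₂ T hT E i x hx
    · rintro ⟨y, rfl⟩
      change (y ≫ _) ≫ _ = 0
      rw [Category.assoc, ls_c₂ T hT, comp_zero]
  · ext x
    constructor
    · exact fun hx => ls₃ T hT E i x hx
    · rintro ⟨y, rfl⟩
      change (y ≫ _) ≫ _ = 0
      rw [Category.assoc, ls_c₃ T hT, comp_zero]
  · ext x
    constructor
    · exact fun hx => ls₁ T hT E i x hx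
    · rintro ⟨y, rfl⟩
      change (y ≫ _) ≫ _ = 0
      rw [Category.assoc, ls_c₁ T hT, comp_zero]
  · exact hn₁ i (le_trans (by exact_mod_cast le_max_left _ _) hi)
  · exact hn₃ i (le_trans (by exact_mod_cast le_max_right _ _) hi)

end Second

section First

/-- Shifts. -/
def shE (E F : C) (i : ℤ) : (E ⟶ F⟦i⟧) ≃ₗ[ℂ] (E⟦(1 : ℤ)⟧ ⟶ F⟦i + 1⟧) where
  toFun x := x⟦(1 : ℤ)⟧' ≫ (shiftFunctorAdd' C i 1 (i + 1) rfl).inv.app _
  invFun y := (shiftFunctor _ (1 : ℤ)).preimage (y ≫ (shiftFunctorAdd' C i 1 (i + 1) rfl).hom.app _)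
  left_inv x := by
    apply (shiftFunctor C (1 : ℤ)).map_injective
    rw [Functor.map_preimage, Category.assoc, Iso.inv_hom_id_app]
    exact Category.comp_id _
  right_inv y := by
    change (shiftFunctor C (1 : ℤ)).map ((shiftFunctor C (1 : ℤ)).preimage _) ≫ _ = y
    rw [Functor.map_preimage, Category.assoc, Iso.hom_inv_id_app]
    exact Category.comp_id _
  map_add' x y := by
    rw [Functor.map_add, Preadditive.add_comp]
  map_smul' r x := by
    rw [Functor.map_smul, Linear.smul_comp]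
    rfl

omit [HasZeroObject C] [Pretriangulated C] in
lemma comp_shE {E E' : C} (g : E ⟶ E') (F : C) (i : ℤ) (x : E' ⟶ F⟦i⟧) :
    g⟦(1 : ℤ)⟧' ≫ shE E' F i x = shE E F i (g ≫ x) := by
  change g⟦(1 : ℤ)⟧' ≫ (x⟦(1 : ℤ)⟧' ≫ _) = (g ≫ x)⟦(1 : ℤ)⟧' ≫ _
  rw [Functor.map_comp, Category.assoc]

variable (T : Triangle C) (hT : T ∈ distTriang C) (F : C)

include hT

theorem eu_tri₁ (f1 : FE T.obj₁ F) (f2 : FE T.obj₂ F) (f3 : FE T.obj₃ F) :
    eu T.obj₂ F = eu T.obj₁ F + eu T.obj₃ F := by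
  obtain ⟨n₁, hn₁⟩ := f1.bdd
  obtain ⟨n₃, hn₃⟩ := f3.bdd
  rw [add_comm]
  refine chi_les (n := max n₁ n₃) (fun i => Linear.leftComp ℂ (F⟦i⟧) T.mor₂)
    (fun i => Linear.leftComp ℂ (F⟦i⟧) T.mor₁)
    (fun i => (Linear.leftComp ℂ (F⟦i + 1⟧) T.mor₃).comp (shE T.obj₁ F i).toLinearMap)
    (fun i => ?_) (fun i => ?_) (fun i => ?_)
    f3.fin f2.fin f1.fin (fun i hi => ?_) (fun i hi => ?_)
  · ext x
    constructor
    · intro hx
      obtain ⟨y, hy⟩ := Triangle.yoneda_exact₂ T hT x hx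
      exact ⟨y, hy.symm⟩
    · rintro ⟨y, rfl⟩
      change T.mor₁ ≫ T.mor₂ ≫ y = 0
      rw [← Category.assoc, comp_distTriang_mor_zero₁₂ T hT, zero_comp]
  · ext x
    constructor
    · intro hx
      obtain ⟨y, hy'⟩ : ∃ y : T.obj₂⟦(1 : ℤ)⟧ ⟶ F⟦i + 1⟧,
          shE T.obj₁ F i x = (-(T.mor₁⟦(1 : ℤ)⟧')) ≫ y :=
        Triangle.yoneda_exact₂ T.rotate.rotate
          (rot_of_distTriang _ (rot_of_distTriang _ hT)) (shE T.obj₁ F i x) hx
      obtain ⟨z, hz⟩ := (shE T.obj₂ F i).surjective (-y)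
      refine ⟨z, ?_⟩
      apply (shE T.obj₁ F i).injective
      change shE T.obj₁ F i (T.mor₁ ≫ z) = _
      rw [← comp_shE, hz, hy', Preadditive.comp_neg, Preadditive.neg_comp]
    · rintro ⟨y, rfl⟩
      change T.mor₃ ≫ shE T.obj₁ F i (T.mor₁ ≫ y) = 0
      rw [← comp_shE, ← Category.assoc, comp_distTriang_mor_zero₃₁ T hT, zero_comp]
  · ext x
    constructor
    · intro hx
      obtain ⟨y, hy⟩ := Triangle.yoneda_exact₃ T hT x hx
      obtain ⟨z, rfl⟩ := (shE T.obj₁ F i).surjective y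
      exact ⟨z, hy.symm⟩
    · rintro ⟨y, rfl⟩
      change T.mor₂ ≫ T.mor₃ ≫ _ = 0
      rw [← Category.assoc, comp_distTriang_mor_zero₂₃ T hT, zero_comp]
  · exact hn₃ i (le_trans (by exact_mod_cast le_max_right _ _) hi)
  · exact hn₁ i (le_trans (by exact_mod_cast le_max_left _ _) hi)

end First

end

end Run7.h164
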