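import Pool.Agent.Run7.h164.LN

set_option autoImplicit false
set_option linter.unusedVariables false
set_option linter.unusedSectionVars false

/-!
Euler characteristics and Clifford modules.
-/

open CategoryTheory Limits TopologicalSpace AlgebraicGeometry Opposite Pretriangulated
open Module

namespace Run7.h164

noncomputable section

set_option backward.isDefEq.respectTransparency false

open Pool.Agent.W506 Pool.Agent.N212
open Pool.Agent.R924 (DD Frame sg DCoh)

attribute [local instance] HasDerivedCategory.standard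

variable {V : Verra} {sd : Bool} {m : ℤ}

section Field

variable {a : Fin 3 → ℂ}

lemma fe_dCoh {M : CM V.G sd a} [Module.Finite ℂ M.C] (ha : a 0 = 1) (hm : -2 ≤ m)
    {E : DerivedCategory (VX V).Modules} (hE : DCoh E) : FE E (tS M m) :=
  fe_of_finH (finH_of_dCoh M ha hm hE)

/-- Additivity. -/
theorem eu_ses {M M₁ M₂ : CM V.G sd a} (h : CMH M M₁) (h' : CMH M₁ M₂)
    (hinj : Function.Injective h.f)
    (hsurj : Function.Surjective h'.f) (hex : ∀ v, h'.f v = 0 ↔ ∃ w, h.f w = v)
    {E : DerivedCategory (VX V).Modules} (f1 : FE E (tS M m)) (f2 : FE E (tS M₁ m))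
    (f3 : FE E (tS M₂ m)) : eu E (tS M₁ m) = eu E (tS M m) + eu E (tS M₂ m) := by
  obtain ⟨w, hS⟩ := ses_tm h h' m hinj hsurj hex
  exact eu_tri₂ hS.singleTriangle hS.singleTriangle_distinguished E f1 f2 f3

/-- The submodule quotient of a Clifford module. -/
def quCM (N : CM V.G sd a) (P : Submodule ℂ N.C) (hP : ∀ k, P ≤ P.comap (N.E k)) :
    CM V.G sd a where
  C := N.C ⧸ P
  E k := P.mapQ P (N.E k) (hP k)
  sq k := by
    apply LinearMap.ext
    intro x
    obtain ⟨x, rfl⟩ := P.mkQ_surjective x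
    rw [Module.End.mul_apply, Submodule.mkQ_apply, Submodule.mapQ_apply, Submodule.mapQ_apply]
    have h := LinearMap.congr_fun (N.sq k) x
    rw [Module.End.mul_apply] at h
    rw [h]
    rfl
  rel k l := by
    apply LinearMap.ext
    intro x
    obtain ⟨x, rfl⟩ := P.mkQ_surjective x
    have h := LinearMap.congr_fun (N.rel k l) x
    rw [LinearMap.add_apply, Module.End.mul_apply, Module.End.mul_apply] at h
    rw [LinearMap.add_apply, Module.End.mul_apply, Module.End.mul_apply, Submodule.mkQ_apply,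
      Submodule.mapQ_apply, Submodule.mapQ_apply, Submodule.mapQ_apply, Submodule.mapQ_apply,
      ← Submodule.Quotient.mk_add, h]
    rfl

/-- The quotient map. -/
def quH (N : CM V.G sd a) (P : Submodule ℂ N.C) (hP : ∀ k, P ≤ P.comap (N.E k)) :
    CMH N (quCM N P hP) where
  f := P.mkQ.toAddMonoidHom
  map_a i v := rfl
  map_c c v := rfl
  map_E k v := rfl

/-- Decompositions of degenerate conics into pairs of lines. -/
structure LMd (sd : Bool) (G : Fin 3 → Fin 3 → Fin 3 → Fin 3 → ℂ) (a : Fin 3 → ℂ) where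
  /-- the lines -/
  L : Fin 3 → ℂ
  M : Fin 3 → ℂ
  /-- the third form -/
  c : Fin 3 → ℂ
  /-- the dual basis -/
  u : Fin 3 → ℂ
  v : Fin 3 → ℂ
  r : Fin 3 → ℂ
  gk_eq : ∀ k l, gk G sd a k l + gk G sd a l k = L k * M l + L l * M k
  gk_self : ∀ k, gk G sd a k k = L k * M k
  dual : ∀ k j, (if j = k then 1 else 0) = L k * u j + M k * v j + c k * r j
  Lu : ∑ k, L k * u k = 1
  Lv : ∑ k, L k * v k = 0
  Lr : ∑ k, L k * r k = 0
  Mu : ∑ k, M k * u k = 0
  Mv : ∑ k, M k * v k = 1
  Mr : ∑ k, M k * r k = 0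

/-- The module of a pair of lines. -/
def rhM (D : LMd sd V.G a) : CM V.G sd a where
  C := ℂ × ℂ
  E k := LinearMap.prod (D.L k • LinearMap.snd ℂ ℂ ℂ) (D.M k • LinearMap.fst ℂ ℂ ℂ)
  sq k := by
    apply LinearMap.ext
    intro x
    rw [D.gk_self]
    refine Prod.ext ?_ ?_
    · change D.L k * (D.M k * x.1) = D.L k * D.M k * x.1
      ring
    · change D.M k * (D.L k * x.2) = D.L k * D.M k * x.2
      ring
  rel k l := by
    apply LinearMap.ext
    intro x
    rw [D.gk_eq]
    refine Prod.ext ?_ ?_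
    · change D.L k * (D.M l * x.1) + D.L l * (D.M k * x.1) = (D.L k * D.M l + D.L l * D.M k) * x.1
      ring
    · change D.M k * (D.L l * x.2) + D.M l * (D.L k * x.2) = (D.L k * D.M l + D.L l * D.M k) * x.2
      ring

lemma rhM_E (D : LMd sd V.G a) (k : Fin 3) (x : (rhM D).C) :
    (rhM D).E k x = ((D.L k * (show ℂ × ℂ from x).2, D.M k * (show ℂ × ℂ from x).1) : ℂ × ℂ) := rfl

instance (D : LMd sd V.G a) : Module.Finite ℂ (rhM D).C :=
  inferInstanceAs (Module.Finite ℂ (ℂ × ℂ))

/-- The operators of a Clifford module. -/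
def EE (N : CM V.G sd a) (y : Fin 3 → ℂ) : Module.End ℂ N.C := ∑ k, y k • N.E k

lemma EE_rel (D : LMd sd V.G a) (N : CM V.G sd a) (y z : Fin 3 → ℂ) (x : N.C) :
    EE N y (EE N z x) + EE N z (EE N y x) =
      ((∑ k, D.L k * y k) * (∑ k, D.M k * z k) + (∑ k, D.M k * y k) * (∑ k, D.L k * z k)) • x := by
  have h1 : ∀ y z : Fin 3 → ℂ, EE N y (EE N z x) = ∑ k, ∑ l, (y k * z l) • N.E k (N.E l x) := by
    intro y z
    have h0 : ∀ x, EE N y x = ∑ k, y k • N.E k x := fun x => by
      rw [EE, LinearMap.sum_apply]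
      rfl
    have h0' : EE N z x = ∑ k, z k • N.E k x := by
      rw [EE, LinearMap.sum_apply]
      rfl
    rw [h0, h0']
    refine Finset.sum_congr rfl fun k _ => ?_
    rw [map_sum, Finset.smul_sum]
    refine Finset.sum_congr rfl fun l _ => ?_
    rw [map_smul, smul_smul]
  rw [h1, h1]
  have h2 : ∑ k, ∑ l, (z k * y l) • N.E k (N.E l x) = ∑ k, ∑ l, (y k * z l) • N.E l (N.E k x) := by
    rw [Finset.sum_comm]
    exact Finset.sum_congr rfl fun k _ => Finset.sum_congr rfl fun l _ => by rw [mul_comm]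
  rw [h2, ← Finset.sum_add_distrib]
  simp only [← Finset.sum_add_distrib, ← smul_add]
  have h3 : ∀ k l, N.E k (N.E l x) + N.E l (N.E k x) = (D.L k * D.M l + D.L l * D.M k) • x := by
    intro k l
    have h := LinearMap.congr_fun (N.rel k l) x
    rw [D.gk_eq] at h
    exact h
  simp only [h3, smul_smul, ← Finset.sum_smul]
  congr 1
  simp only [Fin.sum_univ_three]
  ring

lemma E_eq (D : LMd sd V.G a) (N : CM V.G sd a) (k : Fin 3) (x : N.C) :
    N.E k x = D.L k • EE N D.u x + D.M k • EE N D.v x + D.c k • EE N D.r x := by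
  have h1 : N.E k x = ∑ j, (if j = k then (1 : ℂ) else 0) • N.E j x := by
    rw [Finset.sum_eq_single k]
    · rw [if_pos rfl, one_smul]
    · intro j _ hj
      rw [if_neg hj, zero_smul]
    · intro h
      exact absurd (Finset.mem_univ _) h
  rw [h1]
  simp only [D.dual, EE, LinearMap.sum_apply, LinearMap.smul_apply, add_smul, mul_smul,
    Finset.sum_add_distrib, Finset.smul_sum]

lemma EE_sq_zero (D : LMd sd V.G a) (N : CM V.G sd a) (y : Fin 3 → ℂ)
    (h : (∑ k, D.L k * y k) * (∑ k, D.M k * y k) = 0) (x : N.C) : EE N y (EE N y x) = 0 := by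
  have h1 := EE_rel D N y y x
  rw [mul_comm (∑ k, D.M k * y k), h, add_zero, zero_smul] at h1
  have h2 : (2 : ℂ) • EE N y (EE N y x) = 0 := by
    rw [two_smul]
    exact h1
  exact (smul_eq_zero.1 h2).resolve_left two_ne_zero

/-- Nonzero Clifford modules contain the module of a pair of lines. -/
lemma exists_rh (D : LMd sd V.G a) (N : CM V.G sd a) (hN : ∃ x : N.C, x ≠ 0) :
    ∃ h : CMH (rhM D) N, Function.Injective h.f := by
  obtain ⟨x, hx⟩ := hN
  have hr : ∀ x, EE N D.r (EE N D.r x) = 0 := EE_sq_zero D N D.r (by rw [D.Lr, zero_mul])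
  have hu : ∀ x, EE N D.u (EE N D.u x) = 0 := EE_sq_zero D N D.u (by rw [D.Mu, mul_zero])
  have hv : ∀ x, EE N D.v (EE N D.v x) = 0 := EE_sq_zero D N D.v (by rw [D.Lv, zero_mul])
  have hru : ∀ x, EE N D.r (EE N D.u x) = -EE N D.u (EE N D.r x) := by
    intro x
    have h := EE_rel D N D.r D.u x
    rw [D.Lr, D.Mr, zero_mul, zero_mul, add_zero, zero_smul] at h
    exact eq_neg_of_add_eq_zero_left h
  have hrv : ∀ x, EE N D.r (EE N D.v x) = -EE N D.v (EE N D.r x) := by
    intro x
    have h := EE_rel D N D.r D.v x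
    rw [D.Lr, D.Mr, zero_mul, zero_mul, add_zero, zero_smul] at h
    exact eq_neg_of_add_eq_zero_left h
  have huv : ∀ x, EE N D.u (EE N D.v x) + EE N D.v (EE N D.u x) = x := by
    intro x
    have h := EE_rel D N D.u D.v x
    rwa [D.Lu, D.Mv, D.Mu, zero_mul, add_zero, one_mul, one_smul] at h
  obtain ⟨x₁, h1, h1r⟩ : ∃ x₁ : N.C, x₁ ≠ 0 ∧ EE N D.r x₁ = 0 := by
    by_cases h : EE N D.r x = 0
    · exact ⟨x, hx, h⟩
    · exact ⟨_, h, hr x⟩
  obtain ⟨w, hw, hwr, hwu⟩ : ∃ w : N.C, w ≠ 0 ∧ EE N D.r w = 0 ∧ EE N D.u w = 0 := by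
    by_cases h : EE N D.u x₁ = 0
    · exact ⟨x₁, h1, h1r, h⟩
    · exact ⟨_, h, by rw [hru, h1r, map_zero, neg_zero], hu x₁⟩
  let w₂ := EE N D.v w
  have e1 : EE N D.u w₂ = w := by
    have := huv w
    rwa [hwu, map_zero, add_zero] at this
  have E1 : ∀ k, N.E k w = D.M k • w₂ := by
    intro k
    rw [E_eq D N k w, hwu, hwr, smul_zero, smul_zero, zero_add, add_zero]
  have E2 : ∀ k, N.E k w₂ = D.L k • w := by
    intro k
    rw [E_eq D N k w₂, e1]
    have e2 : EE N D.v w₂ = 0 := hv w
    have e3 : EE N D.r w₂ = 0 := by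
      change EE N D.r (EE N D.v w) = 0
      rw [hrv, hwr, map_zero, neg_zero]
    rw [e2, e3, smul_zero, smul_zero, add_zero, add_zero]
  refine ⟨{ f := { toFun := fun x => (show ℂ × ℂ from x).1 • w + (show ℂ × ℂ from x).2 • w₂
                   map_zero' := ?_
                   map_add' := ?_ }
            map_a := ?_
            map_c := ?_
            map_E := ?_ }, ?_⟩
  · change (0 : ℂ) • w + (0 : ℂ) • w₂ = 0
    rw [zero_smul, zero_smul, add_zero]
  · intro x y
    change ((show ℂ × ℂ from x).1 + (show ℂ × ℂ from y).1) • w +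
      ((show ℂ × ℂ from x).2 + (show ℂ × ℂ from y).2) • w₂ = _
    rw [add_smul, add_smul]
    abel
  · intro i x
    change (a i * (show ℂ × ℂ from x).1) • w + (a i * (show ℂ × ℂ from x).2) • w₂ =
      a i • ((show ℂ × ℂ from x).1 • w + (show ℂ × ℂ from x).2 • w₂)
    rw [smul_add, smul_smul, smul_smul]
  · intro i x
    change (i * (show ℂ × ℂ from x).1) • w + (i * (show ℂ × ℂ from x).2) • w₂ =
      i • ((show ℂ × ℂ from x).1 • w + (show ℂ × ℂ from x).2 • w₂)
    rw [smul_add, smul_smul, smul_smul]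
  · intro k x
    change (D.L k * (show ℂ × ℂ from x).2) • w + (D.M k * (show ℂ × ℂ from x).1) • w₂ =
      N.E k ((show ℂ × ℂ from x).1 • w + (show ℂ × ℂ from x).2 • w₂)
    rw [map_add, map_smul, map_smul, E1, E2, smul_smul, smul_smul, add_comm]
    congr 1
    · rw [mul_comm]
    · rw [mul_comm]
  · rw [injective_iff_map_eq_zero]
    intro x hx0
    have hx1 : (show ℂ × ℂ from x).1 • w + (show ℂ × ℂ from x).2 • w₂ = 0 := hx0
    have hx2 := congrArg (EE N D.u) hx1
    rw [map_add, map_smul, map_smul, hwu, e1, smul_zero, zero_add, map_zero] at hx2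
    have hx3 := (smul_eq_zero.1 hx2).resolve_right hw
    rw [hx3, zero_smul, add_zero] at hx1
    exact Prod.ext ((smul_eq_zero.1 hx1).resolve_right hw) hx3

/-- Euler characteristics into Clifford modules over a pair of lines. -/
theorem eu_filt (D : LMd sd V.G a) (ha : a 0 = 1) (hm : -2 ≤ m)
    {E : DerivedCategory (VX V).Modules} (hE : DCoh E) : ∀ (n : ℕ) (N : CM V.G sd a)
    [Module.Finite ℂ N.C], finrank ℂ N.C = n →
      2 * eu E (tS N m) = n * eu E (tS (rhM D) m) := by
  intro n
  induction n using Nat.strong_induction_on with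
  | _ n ih =>
    intro N _ hn
    by_cases h0 : ∃ x : N.C, x ≠ 0
    · obtain ⟨h, hinj⟩ := exists_rh D N h0
      let hL : (rhM D).C →ₗ[ℂ] N.C :=
        { toFun := h.f
          map_add' := map_add _
          map_smul' := fun c x => h.map_c c x }
      let P : Submodule ℂ N.C := LinearMap.range hL
      have hP : ∀ k, P ≤ P.comap (N.E k) := by
        rintro k _ ⟨x, rfl⟩
        exact ⟨(rhM D).E k x, h.map_E k x⟩
      have hfin : finrank ℂ P = 2 := by
        rw [← (LinearEquiv.ofInjective hL hinj).finrank_eq]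
        change finrank ℂ (ℂ × ℂ) = 2
        rw [Module.finrank_prod, Module.finrank_self]
      have hq : finrank ℂ (N.C ⧸ P) + 2 = n := by
        have := Submodule.finrank_quotient_add_finrank P
        rw [hfin, hn] at this
        exact this
      have iq : Module.Finite ℂ (quCM N P hP).C := inferInstanceAs (Module.Finite ℂ (N.C ⧸ P))
      have e1 := ih (finrank ℂ (N.C ⧸ P)) (by omega) (quCM N P hP) rfl
      have e2 := eu_ses (m := m) h (quH N P hP) hinj P.mkQ_surjective (fun v => by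
        change (Submodule.Quotient.mk v : N.C ⧸ P) = 0 ↔ _
        rw [Submodule.Quotient.mk_eq_zero]
        exact Iff.rfl) (fe_dCoh ha hm hE) (fe_dCoh ha hm hE) (fe_dCoh ha hm hE)
      have e3 : (n : ℤ) = finrank ℂ (N.C ⧸ P) + 2 := by
        rw [← hq]
        push_cast
        rfl
      rw [e2, mul_add, e1, e3]
      ring
    · push Not at h0
      have hs : Subsingleton N.C := ⟨fun x y => (h0 x).trans (h0 y).symm⟩
      have hn0 : n = 0 := by
        rw [← hn]
        exact finrank_zero_of_subsingleton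
      have hi : ∀ x : N.C, (CMH.id N).f x = 0 := h0
      have e2 := eu_ses (m := m) (CMH.id N) (CMH.id N) (fun x y _ => Subsingleton.elim _ _)
        (fun x => ⟨x, Subsingleton.elim _ _⟩)
        (fun v => ⟨fun _ => ⟨v, rfl⟩, fun _ => h0 v⟩) (fe_dCoh ha hm hE) (fe_dCoh ha hm hE)
        (fe_dCoh ha hm hE)
      rw [hn0]
      have e3 : eu E (tS N m) = 0 := by linarith
      rw [e3]
      simp

instance : Module.Finite ℂ (V8 V.G sd a).C := inferInstanceAs (Module.Finite ℂ (Fin 8 → ℂ))

theorem eu_V8 (D : LMd sd V.G a) (ha : a 0 = 1) (hm : -2 ≤ m)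
    {E : DerivedCategory (VX V).Modules} (hE : DCoh E) :
    eu E (tS (V8 V.G sd a) m) = 4 * eu E (tS (rhM D) m) := by
  have h := eu_filt (m := m) D ha hm hE 8 (V8 V.G sd a) (by
    change finrank ℂ (Fin 8 → ℂ) = 8
    rw [Module.finrank_fin_fun])
  push_cast at h
  linarith

end Field

end

end Run7.h164
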