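import Pool.Agent.Run7.h164.EB

set_option autoImplicit false
set_option linter.unusedVariables false
set_option linter.unusedSectionVars false

/-!
Constancy of Euler characteristics.
-/

open CategoryTheory Limits TopologicalSpace AlgebraicGeometry Opposite Pretriangulated
open Module

namespace Run7.h164

noncomputable section

set_option backward.isDefEq.respectTransparency false

open Pool.Agent.W506 Pool.Agent.N212
open Pool.Agent.R924 (DD Frame sg DCoh)

attribute [local instance] HasDerivedCategory.standard

variable {V : Verra} {sd : Bool} {m : ℤ}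

section Gen

variable {B : Type} [CommRing B] [Algebra ℂ B] [IsDomain B] [IsNoetherianRing B]

/-- Evaluation of polynomials. -/
def evP (c : B) : Polynomial B →ₐ[ℂ] B := (Polynomial.aeval c : Polynomial B →ₐ[B] B).restrictScalars ℂ

omit [IsDomain B] [IsNoetherianRing B] in
lemma evP_apply (c : B) (p : Polynomial B) : evP c p = p.eval c := by
  change Polynomial.aeval c p = _
  rw [Polynomial.coe_aeval_eq_eval]

theorem chi_V8 (c : B) (a : Fin 3 → Polynomial B) {E : DerivedCategory (VX V).Modules}
    (hE : FinH V (V8 V.G sd a) m E) :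
    FinH V (V8 V.G sd (fun i => evP c (a i))) m E ∧
      chiH V E (V8 V.G sd (fun i => evP c (a i))) m = chiH V E (V8 V.G sd a) m := by
  have hf : ∀ (v : Fin 8 → Polynomial B) (i : Fin 8),
      (redH V.G sd a (evP c)).f v i = (v i).eval c := fun v i => evP_apply c _
  refine spec_chi V c (redH V.G sd a (evP c)) ?_ ?_ ?_ ?_ hE
  · intro b v
    funext i
    refine (hf _ i).trans ?_
    change (Polynomial.C b * v i).eval c = b * (redH V.G sd a (evP c)).f v i
    rw [hf v i, Polynomial.eval_mul, Polynomial.eval_C]
  · intro v hv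
    funext i
    have h1 : (Polynomial.X - Polynomial.C c) * v i = 0 := congrFun hv i
    exact (mul_eq_zero.1 h1).resolve_left (Polynomial.X_sub_C_ne_zero c)
  · intro w
    refine ⟨fun i => Polynomial.C (w i), ?_⟩
    funext i
    refine (hf _ i).trans ?_
    exact Polynomial.eval_C
  · intro v
    constructor
    · intro hv
      have h1 : ∀ i, ∃ q, v i = (Polynomial.X - Polynomial.C c) * q := by
        intro i
        have h2 : (v i).eval c = 0 := (hf v i).symm.trans (congrFun hv i)
        exact Polynomial.dvd_iff_isRoot.2 h2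
      choose q hq using h1
      refine ⟨q, ?_⟩
      funext i
      exact (hq i).symm
    · rintro ⟨w, rfl⟩
      funext i
      refine (hf _ i).trans ?_
      change ((Polynomial.X - Polynomial.C c) * w i).eval c = 0
      rw [Polynomial.eval_mul, Polynomial.eval_sub, Polynomial.eval_X, Polynomial.eval_C, sub_self,
        zero_mul]

instance (A₀ : Type) [CommRing A₀] [Algebra ℂ A₀] (a : Fin 3 → A₀) :
    Module.Finite A₀ (V8 V.G sd a).C := inferInstanceAs (Module.Finite A₀ (Fin 8 → A₀))

end Gen

/-- The generic point of the plane. -/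
def aG : Fin 3 → Polynomial (Polynomial ℂ) := ![1, Polynomial.C Polynomial.X, Polynomial.X]

/-- The points of the plane. -/
def pt3 (α β : ℂ) : Fin 3 → ℂ := ![1, α, β]

lemma pt3_zero (α β : ℂ) : pt3 α β 0 = 1 := rfl

lemma aG_zero : aG 0 = 1 := rfl

/-- Euler characteristics do not depend on the point. -/
theorem eu_const (hm : -2 ≤ m) {E : DerivedCategory (VX V).Modules} (hE : DCoh E) (α β : ℂ) :
    eu E (tS (V8 V.G sd (pt3 α β)) m) = chiH V E (V8 V.G sd aG) m := by
  have h0 : FinH V (V8 V.G sd aG) m E := finH_of_dCoh (V8 V.G sd aG) aG_zero hm hE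
  obtain ⟨h1, e1⟩ := chi_V8 (Polynomial.C β) aG h0
  have e2 : (fun i => evP (Polynomial.C β) (aG i)) = ![1, Polynomial.X, Polynomial.C β] := by
    funext i
    rw [evP_apply]
    fin_cases i
    · exact Polynomial.eval_one
    · exact Polynomial.eval_C
    · exact Polynomial.eval_X
  rw [e2] at h1 e1
  obtain ⟨h2, e3⟩ := chi_V8 α _ h1
  have e4 : (fun i => evP α ((![1, Polynomial.X, Polynomial.C β] : Fin 3 → Polynomial ℂ) i)) =
      pt3 α β := by
    funext i
    rw [evP_apply]
    fin_cases i
    · exact Polynomial.eval_one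
    · exact Polynomial.eval_X
    · exact Polynomial.eval_C
  rw [e4] at h2 e3
  rw [eu_eq_chiH, e3, e1]

end

end Run7.h164
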