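import Pool.Agent.Run7.h164.EA

set_option autoImplicit false
set_option linter.unusedVariables false
set_option linter.unusedSectionVars false

/-!
Pairs of objects with finite-dimensional morphisms: closure properties.
-/

open CategoryTheory Limits Pretriangulated Module

namespace Run7.h164

noncomputable section

lemma chiZ_shift' (n : ℤ) (r : ℤ → ℤ) :
    chiZ (fun i => r (n + i)) = (Int.negOnePow n : ℤ) * chiZ r := by
  have h := finsum_comp_equiv (Equiv.addLeft n)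
    (f := fun i => (Int.negOnePow n : ℤ) * ((Int.negOnePow i : ℤ) * r i))
  have h2 := smul_finsum (Int.negOnePow n : ℤ) (fun i => (Int.negOnePow i : ℤ) * r i)
  rw [chiZ, chiZ, ← smul_eq_mul, h2]
  simp only [smul_eq_mul]
  rw [← h]
  refine finsum_congr fun i => ?_
  rw [Equiv.coe_addLeft, Int.negOnePow_add]
  have h3 : (Int.negOnePow n : ℤ) * (Int.negOnePow n : ℤ) = 1 := by
    rw [← Units.val_mul, Int.units_mul_self, Units.val_one]
  push_cast
  linear_combination (-((Int.negOnePow i : ℤ) * r (n + i))) * h3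

universe v u w

/-- Finiteness of middle terms. -/
lemma fin_mid {A B D : Type w} [AddCommGroup A] [Module ℂ A] [AddCommGroup B] [Module ℂ B]
    [AddCommGroup D] [Module ℂ D] (f : A →ₗ[ℂ] B) (g : B →ₗ[ℂ] D) (h0 : ∀ x, g (f x) = 0)
    (h : ∀ x, g x = 0 → ∃ y, f y = x) [Module.Finite ℂ A] [Module.Finite ℂ D] :
    Module.Finite ℂ B := by
  have h1 : LinearMap.range f = LinearMap.ker g := by
    ext x
    constructor
    · rintro ⟨y, rfl⟩
      exact h0 y
    · intro hx
      exact h x hx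
  have h2 : IsNoetherian ℂ B := isNoetherian_of_range_eq_ker _ _ h1
  infer_instance

variable {C : Type u} [Category.{v} C] [Preadditive C] [Linear ℂ C]

/-- Composition with an isomorphism. -/
def rE (E : C) {A B : C} (e : A ≅ B) : (E ⟶ A) ≃ₗ[ℂ] (E ⟶ B) where
  toFun x := x ≫ e.hom
  invFun x := x ≫ e.inv
  left_inv x := by simp
  right_inv x := by simp
  map_add' x y := Preadditive.add_comp _ _ _ _ _ _
  map_smul' c x := Linear.smul_comp _ _ _ _ _ _

/-- Composition with an isomorphism. -/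
def lE (F : C) {A B : C} (e : A ≅ B) : (A ⟶ F) ≃ₗ[ℂ] (B ⟶ F) where
  toFun x := e.inv ≫ x
  invFun x := e.hom ≫ x
  left_inv x := by simp
  right_inv x := by simp
  map_add' x y := Preadditive.comp_add _ _ _ _ _ _
  map_smul' c x := Linear.comp_smul _ _ _ _ _ _

variable [HasShift C ℤ] [∀ n : ℤ, (shiftFunctor C n).Additive]
  [∀ n : ℤ, (shiftFunctor C n).Linear ℂ]

omit [∀ n : ℤ, (shiftFunctor C n).Additive] [∀ n : ℤ, (shiftFunctor C n).Linear ℂ] in
/-- Shifts of the second object. -/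
def shR (E F : C) (n i : ℤ) : (E ⟶ F⟦n⟧⟦i⟧) ≃ₗ[ℂ] (E ⟶ F⟦n + i⟧) :=
  rE E ((shiftFunctorAdd' C n i (n + i) rfl).app F).symm

/-- Shifts of the first object. -/
def shF (E F : C) (n i j : ℤ) (h : i + n = j) : (E ⟶ F⟦i⟧) ≃ₗ[ℂ] (E⟦n⟧ ⟶ F⟦j⟧) where
  toFun x := x⟦n⟧' ≫ (shiftFunctorAdd' C i n j h).inv.app _
  invFun y := (shiftFunctor _ n).preimage (y ≫ (shiftFunctorAdd' C i n j h).hom.app _)
  left_inv x := by
    apply (shiftFunctor C n).map_injective
    rw [Functor.map_preimage, Category.assoc, Iso.inv_hom_id_app]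
    exact Category.comp_id _
  right_inv y := by
    change (shiftFunctor C n).map ((shiftFunctor C n).preimage _) ≫ _ = y
    rw [Functor.map_preimage, Category.assoc, Iso.hom_inv_id_app]
    exact Category.comp_id _
  map_add' x y := by
    rw [Functor.map_add, Preadditive.add_comp]
  map_smul' r x := by
    rw [Functor.map_smul, Linear.smul_comp]
    rfl

variable [HasZeroObject C] [Pretriangulated C]

lemma FE.iso_right {E F F' : C} (h : FE E F) (e : F ≅ F') : FE E F' where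
  fin i := by
    have := h.fin i
    exact Module.Finite.equiv (rE E ((shiftFunctor C i).mapIso e))
  bdd := by
    obtain ⟨n, hn⟩ := h.bdd
    refine ⟨n, fun i hi => ?_⟩
    have := hn i hi
    exact (rE E ((shiftFunctor C i).mapIso e)).symm.injective.subsingleton

lemma FE.iso_left {E E' F : C} (h : FE E F) (e : E ≅ E') : FE E' F where
  fin i := by
    have := h.fin i
    exact Module.Finite.equiv (lE _ e)
  bdd := by
    obtain ⟨n, hn⟩ := h.bdd
    refine ⟨n, fun i hi => ?_⟩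
    have := hn i hi
    exact (lE (F⟦i⟧) e).symm.injective.subsingleton

lemma FE.shift_right {E F : C} (h : FE E F) (n : ℤ) : FE E (F⟦n⟧) where
  fin i := by
    have := h.fin (n + i)
    exact Module.Finite.equiv (shR E F n i).symm
  bdd := by
    obtain ⟨m, hm⟩ := h.bdd
    refine ⟨m + n.natAbs, fun i hi => ?_⟩
    have : Subsingleton (E ⟶ F⟦n + i⟧) := by
      refine hm (n + i) ?_
      push_cast at hi
      have : |i| ≤ |n + i| + |n| := by
        have h1 := abs_sub (n + i) n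
        have h2 : n + i - n = i := by ring
        rwa [h2] at h1
      omega
    exact (shR E F n i).injective.subsingleton

lemma FE.shift_left {E F : C} (h : FE E F) (n : ℤ) : FE (E⟦n⟧) F where
  fin i := by
    have := h.fin (i - n)
    exact Module.Finite.equiv (shF E F n (i - n) i (by ring))
  bdd := by
    obtain ⟨m, hm⟩ := h.bdd
    refine ⟨m + n.natAbs, fun i hi => ?_⟩
    have : Subsingleton (E ⟶ F⟦i - n⟧) := by
      refine hm (i - n) ?_
      push_cast at hi
      have : |i| ≤ |i - n| + |n| := by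
        have := abs_add_le (i - n) n
        simpa using this
      omega
    exact (shF E F n (i - n) i (by ring)).symm.injective.subsingleton

lemma FE.unshift_left {E F : C} {n : ℤ} (h : FE (E⟦n⟧) F) : FE E F :=
  (h.shift_left (-n)).iso_left (shiftShiftNeg E n)

lemma FE.unshift_right {E F : C} {n : ℤ} (h : FE E (F⟦n⟧)) : FE E F :=
  (h.shift_right (-n)).iso_right (shiftShiftNeg F n)

/-- Euler characteristics of shifts. -/
lemma eu_shift_right (E F : C) (n : ℤ) : eu E (F⟦n⟧) = (Int.negOnePow n : ℤ) * eu E F := by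
  rw [eu, eu, ← chiZ_shift' n]
  congr 1
  funext i
  rw [(shR E F n i).finrank_eq]

lemma eu_shift_left (E F : C) (n : ℤ) : eu (E⟦n⟧) F = (Int.negOnePow n : ℤ) * eu E F := by
  have h1 : (Int.negOnePow (-n) : ℤ) = (Int.negOnePow n : ℤ) := by rw [Int.negOnePow_neg]
  rw [eu, eu, ← h1, ← chiZ_shift' (-n)]
  congr 1
  funext i
  rw [(shF E F n (-n + i) i (by ring)).finrank_eq]

variable {T : Triangle C} (hT : T ∈ distTriang C) {E F : C}

include hT

lemma FE.mid_right (h1 : FE E T.obj₁) (h3 : FE E T.obj₃) : FE E T.obj₂ where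
  fin i := by
    have := h1.fin i
    have := h3.fin i
    refine fin_mid (Linear.rightComp ℂ E (T.mor₁⟦i⟧')) (Linear.rightComp ℂ E (T.mor₂⟦i⟧'))
      (fun x => ?_) (fun x hx => ls₂ T hT E i x hx)
    change (x ≫ _) ≫ _ = 0
    rw [Category.assoc, ls_c₂ T hT, comp_zero]
  bdd := by
    obtain ⟨n₁, hn₁⟩ := h1.bdd
    obtain ⟨n₃, hn₃⟩ := h3.bdd
    refine ⟨max n₁ n₃, fun i hi => ⟨fun x y => ?_⟩⟩
    have := hn₁ i (le_trans (by exact_mod_cast le_max_left _ _) hi)
    have := hn₃ i (le_trans (by exact_mod_cast le_max_right _ _) hi)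
    have key : ∀ x : E ⟶ T.obj₂⟦i⟧, x = 0 := fun x => by
      obtain ⟨z, hz⟩ := ls₂ T hT E i x (Subsingleton.elim _ _)
      rw [← hz, Subsingleton.elim z 0, zero_comp]
    rw [key x, key y]

lemma FE.third_right (h1 : FE E T.obj₁) (h2 : FE E T.obj₂) : FE E T.obj₃ :=
  FE.mid_right (T := T.rotate) (rot_of_distTriang _ hT) h2 (h1.shift_right 1)

lemma FE.first_right (h2 : FE E T.obj₂) (h3 : FE E T.obj₃) : FE E T.obj₁ :=
  FE.mid_right (T := T.invRotate) (inv_rot_of_distTriang _ hT) (h3.shift_right (-1)) h2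

lemma FE.mid_left (h1 : FE T.obj₁ F) (h3 : FE T.obj₃ F) : FE T.obj₂ F where
  fin i := by
    have := h1.fin i
    have := h3.fin i
    refine fin_mid (Linear.leftComp ℂ (F⟦i⟧) T.mor₂) (Linear.leftComp ℂ (F⟦i⟧) T.mor₁)
      (fun x => ?_) (fun x hx => ?_)
    · change T.mor₁ ≫ T.mor₂ ≫ x = 0
      rw [← Category.assoc, comp_distTriang_mor_zero₁₂ T hT, zero_comp]
    · obtain ⟨y, hy⟩ := Triangle.yoneda_exact₂ T hT x hx
      exact ⟨y, hy.symm⟩
  bdd := by
    obtain ⟨n₁, hn₁⟩ := h1.bdd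
    obtain ⟨n₃, hn₃⟩ := h3.bdd
    refine ⟨max n₁ n₃, fun i hi => ⟨fun x y => ?_⟩⟩
    have := hn₁ i (le_trans (by exact_mod_cast le_max_left _ _) hi)
    have := hn₃ i (le_trans (by exact_mod_cast le_max_right _ _) hi)
    have key : ∀ x : T.obj₂ ⟶ F⟦i⟧, x = 0 := fun x => by
      obtain ⟨z, hz⟩ := Triangle.yoneda_exact₂ T hT x (Subsingleton.elim _ _)
      rw [hz, Subsingleton.elim z 0, comp_zero]
    rw [key x, key y]

lemma FE.third_left (h1 : FE T.obj₁ F) (h2 : FE T.obj₂ F) : FE T.obj₃ F :=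
  FE.mid_left (T := T.rotate) (rot_of_distTriang _ hT) h2 (h1.shift_left 1)

lemma FE.first_left (h2 : FE T.obj₂ F) (h3 : FE T.obj₃ F) : FE T.obj₁ F :=
  FE.mid_left (T := T.invRotate) (inv_rot_of_distTriang _ hT) (h3.shift_left (-1)) h2

lemma hom_mid_right (h1 : ∀ (i : ℤ) (f : E ⟶ T.obj₁⟦i⟧), f = 0)
    (h3 : ∀ (i : ℤ) (f : E ⟶ T.obj₃⟦i⟧), f = 0) (i : ℤ) (f : E ⟶ T.obj₂⟦i⟧) : f = 0 := by
  obtain ⟨z, hz⟩ := ls₂ T hT E i f (h3 i _)
  rw [← hz, h1 i z, zero_comp]

omit hT in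
lemma hom_shift_right {E F : C} (h : ∀ (i : ℤ) (f : E ⟶ F⟦i⟧), f = 0) (n i : ℤ)
    (f : E ⟶ F⟦n⟧⟦i⟧) : f = 0 := by
  apply (shR E F n i).injective
  rw [map_zero]
  exact h _ _

lemma hom_third_right (h1 : ∀ (i : ℤ) (f : E ⟶ T.obj₁⟦i⟧), f = 0)
    (h2 : ∀ (i : ℤ) (f : E ⟶ T.obj₂⟦i⟧), f = 0) (i : ℤ) (f : E ⟶ T.obj₃⟦i⟧) : f = 0 :=
  hom_mid_right (T := T.rotate) (rot_of_distTriang _ hT) h2 (hom_shift_right h1 1) i f

lemma hom_first_right (h2 : ∀ (i : ℤ) (f : E ⟶ T.obj₂⟦i⟧), f = 0)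
    (h3 : ∀ (i : ℤ) (f : E ⟶ T.obj₃⟦i⟧), f = 0) (i : ℤ) (f : E ⟶ T.obj₁⟦i⟧) : f = 0 :=
  hom_mid_right (T := T.invRotate) (inv_rot_of_distTriang _ hT) (hom_shift_right h3 (-1)) h2 i f

end

end Run7.h164
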