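import Pool.Agent.Run7.h164.TB
import Pool.Agent.R924.D4

set_option autoImplicit false
set_option linter.unusedVariables false

/-!
Frames on `Proj` of a graded domain given by elements of degree one.
-/

open CategoryTheory Limits TopologicalSpace AlgebraicGeometry Opposite HomogeneousLocalization

namespace Run7.h164

noncomputable section

set_option backward.isDefEq.respectTransparency false
set_option linter.unusedSectionVars false

open Pool.Agent.W506 (ro ro_ro ro_refl basicOpen_ro)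
open Pool.Agent.R924

variable {k : Type} [Field k] {A : Type} [CommRing A] [IsDomain A] [Algebra k A]
  {𝒜 : ℕ → Submodule k A} [GradedAlgebra 𝒜]
  {J : Type} [Fintype J] [DecidableEq J] (g : J → A) (hg : ∀ j, g j ∈ 𝒜 1) (hg0 : ∀ j, g j ≠ 0)

/-- The product of the other elements. -/
def rest (j : J) : A := ∏ i ∈ Finset.univ.erase j, g i

lemma prod_eq_rest (j : J) : ∏ i, g i = g j * rest g j :=
  (Finset.mul_prod_erase _ _ (Finset.mem_univ j)).symm

include hg in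
lemma prod_mem_gr (s : Finset J) : ∏ i ∈ s, g i ∈ 𝒜 s.card := by
  induction s using Finset.induction_on with
  | empty => rw [Finset.prod_empty]; exact SetLike.GradedOne.one_mem
  | insert a s ha ih =>
    rw [Finset.prod_insert ha, Finset.card_insert_of_notMem ha]
    exact mul_mem_gr (hg a) ih (add_comm _ _)

include hg in
lemma prod_mem : ∏ i, g i ∈ 𝒜 (Fintype.card J) := prod_mem_gr g hg _

include hg in
lemma rest_mem (j : J) : rest g j ∈ 𝒜 (Fintype.card J - 1) := by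
  have := prod_mem_gr (𝒜 := 𝒜) g hg (Finset.univ.erase j)
  rwa [Finset.card_erase_of_mem (Finset.mem_univ j), Finset.card_univ] at this

lemma DD_prod_le (j : J) : DD 𝒜 (∏ i, g i) ≤ DD 𝒜 (g j) := by
  rw [prod_eq_rest g j, DD, Proj.basicOpen_mul]
  exact inf_le_left

include hg0 in
lemma prod_ne_zero' : ∏ i, g i ≠ 0 := Finset.prod_ne_zero_iff.2 fun i _ => hg0 i

/-- The frame given by elements of degree one. -/
def gframe (hcov : ∀ x : Proj 𝒜, ∃ j, x ∈ DD 𝒜 (g j)) (hg : ∀ j, g j ∈ 𝒜 1)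
    (hg0 : ∀ j, g j ≠ 0) : Frame (Proj 𝒜) J where
  U j := DD 𝒜 (g j)
  T := DD 𝒜 (∏ i, g i)
  le j := DD_prod_le g j
  inj i j k := by
    have hJ : 0 < Fintype.card J := Fintype.card_pos_iff.2 ⟨i⟩
    refine ro_injective' (f := g i * g j * g k) (g := ∏ i, g i)
      (mul_mem_gr (mul_mem_gr (hg i) (hg j) rfl) (hg k) rfl) (by norm_num) (prod_mem g hg) ?_
      (prod_ne_zero' g hg0) ?_ ?_ _
    · exact mul_ne_zero (mul_ne_zero (hg0 i) (hg0 j)) (hg0 k)
    · simp only [DD, Proj.basicOpen_mul]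
      exact (inf_eq_right.2 (le_inf (le_inf (DD_prod_le g i) (DD_prod_le g j))
        (DD_prod_le g k))).symm
    · simp only [DD, Proj.basicOpen_mul]
  cover := hcov

/-- Quotients as rational functions. -/
def rr (j : J) (r : ℕ) (a : A) (ha : a ∈ 𝒜 (r * 1)) : Γ(Proj 𝒜, DD 𝒜 (∏ i, g i)) :=
  ro (DD_prod_le g j) (fr (hg j) r a ha)

lemma rr_mul (j : J) (r : ℕ) (a : A) (ha : a ∈ 𝒜 (r * 1)) (l : ℕ)
    (b : A) (hb : b ∈ 𝒜 (l * 1)) : rr g hg j r a ha * rr g hg j l b hb =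
      rr g hg j (r + l) (a * b) (mul_mem_gr ha hb (add_mul r l 1)) := by
  rw [rr, rr, rr, ← map_mul, fr_mul]

lemma rr_eq_fr (i : J) (r : ℕ) (a : A) (ha : a ∈ 𝒜 (r * 1))
    (h : a * rest g i ^ r ∈ 𝒜 (r * Fintype.card J)) :
    rr g hg i r a ha = fr (prod_mem g hg) r (a * rest g i ^ r) h := by
  have hc : Fintype.card J = 1 + (Fintype.card J - 1) := by
    have : 0 < Fintype.card J := Fintype.card_pos_iff.2 ⟨i⟩
    omega
  exact ro_fr' (hg i) (rest_mem g hg i) (prod_eq_rest g i) (prod_mem g hg) hc _ r a ha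

include hg in
lemma rest_pow_mem (i : J) (r : ℕ) (a : A) (ha : a ∈ 𝒜 (r * 1)) :
    a * rest g i ^ r ∈ 𝒜 (r * Fintype.card J) := by
  have hc : Fintype.card J = 1 + (Fintype.card J - 1) := by
    have : 0 < Fintype.card J := Fintype.card_pos_iff.2 ⟨i⟩
    omega
  have h1 : rest g i ^ r ∈ 𝒜 (r • (Fintype.card J - 1)) :=
    SetLike.pow_mem_graded r (rest_mem g hg i)
  refine mul_mem_gr ha h1 ?_
  rw [smul_eq_mul, ← mul_add, ← hc]

include hg0 in
/-- Equality of quotients. -/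
lemma rr_eq (i j : J) (a b : A) (ha : a ∈ 𝒜 (1 * 1)) (hb : b ∈ 𝒜 (1 * 1))
    (h : a * g j = b * g i) : rr g hg i 1 a ha = rr g hg j 1 b hb := by
  rw [rr_eq_fr g hg i 1 a ha (rest_pow_mem g hg i 1 a ha),
    rr_eq_fr g hg j 1 b hb (rest_pow_mem g hg j 1 b hb),
    fr_eq_iff _ (Fintype.card_pos_iff.2 ⟨i⟩) (prod_ne_zero' g hg0)]
  have h1 := prod_eq_rest g i
  have h2 := prod_eq_rest g j
  have hgi := hg0 i
  have hgj := hg0 j
  congr 1
  apply mul_left_cancel₀ (mul_ne_zero hgi hgj)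
  rw [pow_one, pow_one]
  calc g i * g j * (a * rest g i) = (a * g j) * (g i * rest g i) := by ring
    _ = (b * g i) * (g j * rest g j) := by rw [h, ← h1, h2]
    _ = g i * g j * (b * rest g j) := by ring

include hg0 in
lemma rr_trans (i j : J) (r : ℕ) (a : A) (ha : a ∈ 𝒜 (r * 1)) (h' : g i ^ r ∈ 𝒜 (r * 1)) :
    rr g hg i r a ha * rr g hg j r (g i ^ r) h' = rr g hg j r a ha := by
  rw [rr_eq_fr g hg i r a ha (rest_pow_mem g hg i r a ha),
    rr_eq_fr g hg j r a ha (rest_pow_mem g hg j r a ha),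
    rr_eq_fr g hg j r _ h' (rest_pow_mem g hg j r _ h'), fr_mul,
    fr_eq_iff _ (Fintype.card_pos_iff.2 ⟨i⟩) (prod_ne_zero' g hg0)]
  have h1 : (∏ i, g i) ^ (r + r) = (∏ i, g i) ^ r * (g i ^ r * rest g i ^ r) := by
    rw [← mul_pow, ← prod_eq_rest, pow_add]
  rw [h1]
  ring

include hg0 in
lemma rr_self (j : J) (h : g j ∈ 𝒜 (1 * 1)) : rr g hg j 1 (g j) h = 1 := by
  rw [rr, ← map_one (ro (DD_prod_le g j))]
  congr 1
  rw [← fr_one (hg j) (by rw [zero_mul]; exact SetLike.GradedOne.one_mem),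
    fr_eq_iff (hg j) one_pos (hg0 j)]
  ring

lemma hg1 {a : A} (h : a ∈ 𝒜 1) : a ∈ 𝒜 (1 * 1) := h

/-- The quotient `g j / g i`. -/
def qu (i j : J) : (Γ(Proj 𝒜, DD 𝒜 (∏ i, g i)))ˣ where
  val := rr g hg i 1 (g j) (hg j)
  inv := rr g hg j 1 (g i) (hg i)
  val_inv := by
    have h := rr_trans g hg hg0 i j 1 (g j) (hg j) (by rw [pow_one]; exact hg i)
    rw [rr_self g hg hg0] at h
    simpa only [pow_one] using h
  inv_val := by
    have h := rr_trans g hg hg0 j i 1 (g i) (hg i) (by rw [pow_one]; exact hg j)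
    rw [rr_self g hg hg0] at h
    simpa only [pow_one] using h

lemma qu_val (i j : J) : (qu g hg hg0 i j : Γ(Proj 𝒜, DD 𝒜 (∏ i, g i))) =
    rr g hg i 1 (g j) (hg j) := rfl

lemma qu_inv (i j : J) : (qu g hg hg0 i j)⁻¹ = qu g hg hg0 j i := Units.ext rfl

lemma qu_mul (i j l : J) : qu g hg hg0 i j * qu g hg hg0 j l = qu g hg hg0 i l := by
  apply Units.ext
  rw [Units.val_mul, qu_val, qu_val, qu_val, mul_comm]
  have h := rr_trans g hg hg0 j i 1 (g l) (hg l) (by rw [pow_one]; exact hg j)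
  simpa only [pow_one] using h

lemma qu_eq (i j i' j' : J) (h : g j * g i' = g j' * g i) : qu g hg hg0 i j =
    qu g hg hg0 i' j' := Units.ext (rr_eq g hg hg0 i i' (g j) (g j') (hg j) (hg j') h)

lemma qu_self (i : J) : qu g hg hg0 i i = 1 := Units.ext (rr_self g hg hg0 i (hg i))

variable (hcov : ∀ x : Proj 𝒜, ∃ j, x ∈ DD 𝒜 (g j))

/-- The divisor of a family of elements of degree one indexed by the charts. -/
def mkDiv (j₀ : J) (ρ : J → J) (hρ : ∀ j j', ∃ l, g (ρ j') * g j = g l * g (ρ j)) :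
    (gframe g hcov hg hg0).Div :=
  ⟨fun j => qu g hg hg0 j₀ (ρ j), by
    intro j j'
    obtain ⟨l, hl⟩ := hρ j j'
    refine ⟨ro inf_le_left (fr (hg j) 1 (g l) (hg l)), ?_⟩
    rw [ro_ro, qu_inv, mul_comm, qu_mul, qu_eq g hg hg0 _ _ _ _ hl]
    rfl⟩

lemma mkDiv_val (j₀ : J) (ρ : J → J) (hρ : ∀ j j', ∃ l, g (ρ j') * g j = g l * g (ρ j)) (j : J) :
    (mkDiv g hg hg0 hcov j₀ ρ hρ).1 j = qu g hg hg0 j₀ (ρ j) := rfl

/-- The ample divisor. -/
def amD (j₀ : J) : (gframe g hcov hg hg0).Div :=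
  mkDiv g hg hg0 hcov j₀ id fun j j' => ⟨j', rfl⟩

/-- The ample divisor is ample. -/
def ampleD (j₀ : J) : Frame.Ample (gframe g hcov hg hg0) (amD g hg hg0 hcov j₀) where
  aff j := isAffine_DD (hg j) one_pos
  co j i := fr (hg j) 1 (g i) (hg i)
  ro_co j i := by
    change rr g hg j 1 (g i) (hg i) = ((qu g hg hg0 j₀ i * (qu g hg hg0 j₀ j)⁻¹ :
      (Γ(Proj 𝒜, DD 𝒜 (∏ i, g i)))ˣ) : Γ(Proj 𝒜, DD 𝒜 (∏ i, g i)))
    rw [qu_inv, mul_comm, qu_mul]
    rfl
  basicOpen_co j i := basicOpen_fr _ _ _ _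

end

end Run7.h164
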