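import Pool.Agent.Run7.h164.NZ

set_option autoImplicit false
set_option linter.unusedVariables false

/-!
Modules of morphisms into shifts of the sheaves associated with Clifford modules.
-/

open CategoryTheory Limits TopologicalSpace AlgebraicGeometry Opposite Pretriangulated

namespace Run7.h164

noncomputable section

set_option backward.isDefEq.respectTransparency false

open Pool.Agent.W506 Pool.Agent.N212
open Pool.Agent.R924 (DD Frame sg)

section Les

variable {C : Type*} [Category C] [Preadditive C] [HasZeroObject C] [HasShift C ℤ]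
  [∀ n : ℤ, (shiftFunctor C n).Additive] [Pretriangulated C]
  (T : Triangle C) (hT : T ∈ distTriang C) (E : C)

/-- The connecting morphism. -/
def conn (i : ℤ) : T.obj₃⟦i⟧ ⟶ T.obj₁⟦i + 1⟧ :=
  T.mor₃⟦i⟧' ≫ (shiftFunctorAdd' C 1 i (i + 1) (by lia)).inv.app _

include hT

lemma les₂ (i : ℤ) (x : E ⟶ T.obj₂⟦i⟧) (hx : x ≫ T.mor₂⟦i⟧' = 0) : ∃ y, y ≫ T.mor₁⟦i⟧' = x := by
  have h := (preadditiveCoyoneda.obj (op E)).homologySequence_exact₂ T hT i
  rw [ShortComplex.ab_exact_iff] at h
  exact h x hx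

lemma les₃ (i : ℤ) (x : E ⟶ T.obj₃⟦i⟧) (hx : x ≫ conn T i = 0) : ∃ y, y ≫ T.mor₂⟦i⟧' = x := by
  have h := (preadditiveCoyoneda.obj (op E)).homologySequence_exact₃ T hT i (i + 1) rfl
  rw [ShortComplex.ab_exact_iff] at h
  exact h x ((preadditiveCoyoneda_homologySequenceδ_apply T i (i + 1) rfl x).trans hx)

lemma les₁ (i : ℤ) (x : E ⟶ T.obj₁⟦i + 1⟧) (hx : x ≫ T.mor₁⟦i + 1⟧' = 0) :
    ∃ y, y ≫ conn T i = x := by
  have h := (preadditiveCoyoneda.obj (op E)).homologySequence_exact₁ T hT i (i + 1) rfl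
  rw [ShortComplex.ab_exact_iff] at h
  obtain ⟨y, hy⟩ := h x hx
  exact ⟨y, (preadditiveCoyoneda_homologySequenceδ_apply T i (i + 1) rfl y).symm.trans hy⟩

lemma les_c₂ (i : ℤ) : T.mor₁⟦i⟧' ≫ T.mor₂⟦i⟧' = 0 := by
  rw [← Functor.map_comp, comp_distTriang_mor_zero₁₂ T hT, Functor.map_zero]

lemma les_c₃ (i : ℤ) : T.mor₂⟦i⟧' ≫ conn T i = 0 := by
  rw [conn, ← Category.assoc, ← Functor.map_comp, comp_distTriang_mor_zero₂₃ T hT,
    Functor.map_zero, zero_comp]

lemma les_c₁ (i : ℤ) : conn T i ≫ T.mor₁⟦i + 1⟧' = 0 := by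
  rw [conn, Category.assoc]
  have h1 := (shiftFunctorAdd' C 1 i (i + 1) (by lia)).inv.naturality T.mor₁
  rw [← h1]
  have h2 : T.mor₃⟦i⟧' ≫ (shiftFunctor C (1 : ℤ) ⋙ shiftFunctor C i).map T.mor₁ = 0 := by
    rw [Functor.comp_map, ← Functor.map_comp, comp_distTriang_mor_zero₃₁ T hT, Functor.map_zero]
  rw [← Category.assoc, h2, zero_comp]

omit hT

lemma conn_nat {T T' : Triangle C} (φ : T ⟶ T') (i : ℤ) :
    φ.hom₃⟦i⟧' ≫ conn T' i = conn T i ≫ φ.hom₁⟦i + 1⟧' := by
  rw [conn, conn, ← Category.assoc, ← Functor.map_comp, ← φ.comm₃, Functor.map_comp,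
    Category.assoc, Category.assoc]
  congr 1
  exact (shiftFunctorAdd' C 1 i (i + 1) (by lia)).inv.naturality φ.hom₁

end Les

variable (V : Verra) {sd : Bool}
  {A₀ : Type} [CommRing A₀] [Algebra ℂ A₀] {a : Fin 3 → A₀}
  {M : CM V.G sd a} {A₁ : Type} [CommRing A₁] [Algebra ℂ A₁] {a₁ : Fin 3 → A₁}
  {M₁ : CM V.G sd a₁} {A₂ : Type} [CommRing A₂] [Algebra ℂ A₂] {a₂ : Fin 3 → A₂}
  {M₂ : CM V.G sd a₂}

attribute [local instance] HasDerivedCategory.standard

/-- Morphisms into shifts. -/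
def HM (E : DerivedCategory (VX V).Modules) (M : CM V.G sd a) (m i : ℤ) : Type 1 :=
  E ⟶ (sg (til (NV M) m))⟦i⟧

variable {E E' E'' : DerivedCategory (VX V).Modules} {m i : ℤ}

instance : AddCommGroup (HM V E M m i) :=
  inferInstanceAs (AddCommGroup (E ⟶ (sg (til (NV M) m))⟦i⟧))

/-- The induced maps. -/
def hmap (h : CMH M M₁) (E : DerivedCategory (VX V).Modules) (m i : ℤ) :
    HM V E M m i →+ HM V E M₁ m i where
  toFun x := (x : E ⟶ _) ≫ ((DerivedCategory.singleFunctor _ 0).map (tm h m))⟦i⟧'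
  map_zero' := zero_comp
  map_add' x y := Preadditive.add_comp _ _ _ _ _ _

lemma hmap_def (h : CMH M M₁) (x : HM V E M m i) : hmap V h E m i x =
    (x : E ⟶ _) ≫ ((DerivedCategory.singleFunctor _ 0).map (tm h m))⟦i⟧' := rfl

lemma hmap_ext {h h' : CMH M M₁} (e : ∀ v, h.f v = h'.f v) (x : HM V E M m i) :
    hmap V h E m i x = hmap V h' E m i x := by
  rw [hmap_def, hmap_def, tm_ext e]

lemma hmap_id (x : HM V E M m i) : hmap V (CMH.id M) E m i x = x := by
  rw [hmap_def, tm_id, CategoryTheory.Functor.map_id, CategoryTheory.Functor.map_id]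
  exact Category.comp_id _

lemma hmap_comp (h' : CMH M₁ M₂) (h : CMH M M₁) (x : HM V E M m i) :
    hmap V (h'.comp h) E m i x = hmap V h' E m i (hmap V h E m i x) := by
  rw [hmap_def, hmap_def, hmap_def, tm_comp, Functor.map_comp, Functor.map_comp]
  exact (Category.assoc _ _ _).symm

lemma hmap_add (h h' : CMH M M₁) (x : HM V E M m i) :
    hmap V (h.add h') E m i x = hmap V h E m i x + hmap V h' E m i x := by
  rw [hmap_def, hmap_def, hmap_def, tm_add, Functor.map_add, Functor.map_add]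
  exact Preadditive.comp_add _ _ _ _ _ _

instance : SMul A₀ (HM V E M m i) := ⟨fun r x => hmap V (scH M r) E m i x⟩

lemma smulH_def (r : A₀) (x : HM V E M m i) : r • x = hmap V (scH M r) E m i x := rfl

instance : Module A₀ (HM V E M m i) where
  one_smul x := by
    rw [smulH_def]
    exact (hmap_ext V (h' := CMH.id M) (fun v => one_smul A₀ v) x).trans (hmap_id V x)
  mul_smul r s x := by
    rw [smulH_def, smulH_def, smulH_def, ← hmap_comp]
    exact hmap_ext V (fun v => mul_smul r s v) x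
  smul_zero r := map_zero _
  smul_add r x y := map_add _ _ _
  add_smul r s x := by
    rw [smulH_def, smulH_def, smulH_def, ← hmap_add]
    exact hmap_ext V (fun v => add_smul r s v) x
  zero_smul x := by
    have h : (0 : A₀) • x + (0 : A₀) • x = (0 : A₀) • x := by
      rw [smulH_def, ← hmap_add]
      exact hmap_ext V (fun v => by
        change (0 : A₀) • v + (0 : A₀) • v = (0 : A₀) • v
        rw [zero_smul, add_zero]) x
    exact add_eq_left.1 h

lemma hmap_smul (h : CMH M M₁) {r : A₀} {r₁ : A₁} (hr : ∀ v, h.f (r • v) = r₁ • h.f v)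
    (x : HM V E M m i) : hmap V h E m i (r • x) = r₁ • hmap V h E m i x := by
  rw [smulH_def, smulH_def, ← hmap_comp, ← hmap_comp]
  exact hmap_ext V hr x

/-- Precomposition. -/
def pre (M : CM V.G sd a) (m i : ℤ) (g : E ⟶ E') : HM V E' M m i →ₗ[A₀] HM V E M m i where
  toFun x := g ≫ (x : E' ⟶ _)
  map_add' x y := Preadditive.comp_add _ _ _ _ _ _
  map_smul' r x := by
    rw [RingHom.id_apply, smulH_def, smulH_def, hmap_def, hmap_def]
    exact (Category.assoc _ _ _).symm

/-- Shifts. -/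
def shH (M : CM V.G sd a) (m : ℤ) (n i j : ℤ) (h : i + n = j) :
    HM V E M m i ≃ₗ[A₀] HM V (E⟦n⟧) M m j where
  toFun x := (show E ⟶ _ from x)⟦n⟧' ≫ (shiftFunctorAdd' _ i n j h).inv.app _
  invFun y := (shiftFunctor _ n).preimage ((show E⟦n⟧ ⟶ _ from y) ≫
    (shiftFunctorAdd' _ i n j h).hom.app _)
  left_inv x := by
    apply (shiftFunctor (DerivedCategory (VX V).Modules) n).map_injective
    rw [Functor.map_preimage, Category.assoc, Iso.inv_hom_id_app]
    exact Category.comp_id _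
  right_inv y := by
    change (shiftFunctor (DerivedCategory (VX V).Modules) n).map
      ((shiftFunctor (DerivedCategory (VX V).Modules) n).preimage _) ≫ _ = _
    rw [Functor.map_preimage, Category.assoc, Iso.hom_inv_id_app]
    exact Category.comp_id _
  map_add' x y := by
    change (shiftFunctor (DerivedCategory (VX V).Modules) n).map ((x : E ⟶ _) + (y : E ⟶ _)) ≫ _ = _
    rw [Functor.map_add, Preadditive.add_comp]
  map_smul' r x := by
    rw [RingHom.id_apply, smulH_def, smulH_def, hmap_def, hmap_def]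
    change (shiftFunctor (DerivedCategory (VX V).Modules) n).map (_ ≫ _) ≫ _ = (_ ≫ _) ≫ _
    rw [Functor.map_comp, Category.assoc, Category.assoc]
    congr 1
    exact (shiftFunctorAdd' (DerivedCategory (VX V).Modules) i n j h).inv.naturality
      ((DerivedCategory.singleFunctor _ 0).map (tm (scH M r) m))

end

end Run7.h164
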