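import Pool.Agent.Run7.h164.KH
import Pool.Agent.Run7.h164.CX

set_option autoImplicit false
set_option linter.unusedVariables false
set_option linter.unusedSectionVars false

/-!
Euler characteristics of modules of pairs of lines against line bundles.
-/

open CategoryTheory Limits TopologicalSpace AlgebraicGeometry Opposite Pretriangulated

namespace Run7.h164

noncomputable section

set_option backward.isDefEq.respectTransparency false

open Pool.Agent.W506 Pool.Agent.N212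
open Pool.Agent.R924 (DD Frame sg DCoh CohAll IsGen fr exists_fr)
open Pool.Agent.W456 (stD stalkF)

attribute [local instance] HasDerivedCategory.standard

variable {V : Verra} {sd : Bool} {a : Fin 3 → ℂ} {j : ℤ}

lemma smul_shL {M : CM V.G sd a} (z : RF V.G) (e : Ex) (l : LM M) : z • shL e l = shL e (z • l) :=
  ((shG M e).map_smul z l).symm

lemma rep_frJ (ha : a 0 = 1) {D : LMd sd V.G a} {κ : Bool} {k : Fin 3}
    {s : Γ(til (NV (rhM D)) j, (VF V).U (kp sd k))}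
    (h : Rep V s (mon (M := rhM D) (j • ue k) (eK κ))) {n : ℕ} {z : RF V.G}
    (hz : z ∈ rg V.G (n * 1)) : Rep V (fU V (kp sd k) n z hz • s)
      (shL ((j - n) • ue k) (z • mon (M := rhM D) 0 (eK κ))) := by
  refine rep_fr h hz ?_
  rw [gg_pow_smul ha, shL_shL, ← mon_shL, smul_shL]
  congr 1
  rw [← add_smul]
  congr 1
  ring

/-- Sections in the submodules of both generators are multiples of the square root. -/
lemma lift_w (ha : a 0 = 1) {D : LMd sd V.G a} {k : Fin 3}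
    {s₁ s₂ : Γ(til (NV (rhM D)) j, (VF V).U (kp sd k))}
    (h₁ : Rep V s₁ (mon (M := rhM D) (j • ue k) (eK false)))
    (h₂ : Rep V s₂ (mon (M := rhM D) (j • ue k) (eK true)))
    (r₁ r₂ : Γ(VX V, (VF V).U (kp sd k))) (h : r₁ • s₁ = r₂ • s₂) :
    ∃ t, ap (wM (rhM D) j) _ t = r₁ • s₁ := by
  obtain ⟨n₁, z₁, hz₁, hr₁⟩ := exists_fr (gg_mem V (kp sd k)) one_pos r₁
  obtain ⟨n₂, z₂, hz₂, hr₂⟩ := exists_fr (gg_mem V (kp sd k)) one_pos r₂
  have hr₁' : r₁ = fU V (kp sd k) n₁ z₁ hz₁ := hr₁.symm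
  have hr₂' : r₂ = fU V (kp sd k) n₂ z₂ hz₂ := hr₂.symm
  subst hr₁' hr₂'
  have q1 := rep_frJ ha h₁ hz₁
  have q2 := rep_frJ ha h₂ hz₂
  have d1 : ∀ (κ : Bool) {n : ℕ} {z : RF V.G}, z ∈ rg V.G (n * 1) →
      z • mon (M := rhM D) 0 (eK κ) ∈ dgL (rhM D) (j - (j - n)) := by
    intro κ n z hz
    have h3 := smulR_mem hz (eK_mem (κ := κ) D j)
    rwa [show (((n * 1 : ℕ) : ℤ) + (j - j)) = j - (j - n) by push_cast; ring] at h3
  have e1 := Rep.unique V ha ⟨k, Finset.mem_singleton_self k⟩ (U_one V k)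
    (inI_of_dgL V (m := j) (b := j - n₁) (d1 false hz₁) k)
    (inI_of_dgL V (m := j) (b := j - n₂) (d1 true hz₂) k) q1 (by rw [h]; exact q2)
  let y₁ : RF V.G := gg V (kp sd k) ^ (n₂ + 1) * z₁
  let y₂ : RF V.G := gg V (kp sd k) ^ (n₁ + 1) * z₂
  have m1 : y₁ ∈ rg V.G (n₁ + n₂ + 1) := by
    have h3 := SetLike.mul_mem_graded (SetLike.pow_mem_graded (n₂ + 1) (gg_mem V (kp sd k))) hz₁
    rwa [show (n₂ + 1) • 1 + n₁ * 1 = n₁ + n₂ + 1 by simp only [smul_eq_mul]; ring] at h3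
  have m2 : y₂ ∈ rg V.G (n₁ + n₂ + 1) := by
    have h3 := SetLike.mul_mem_graded (SetLike.pow_mem_graded (n₁ + 1) (gg_mem V (kp sd k))) hz₂
    rwa [show (n₁ + 1) • 1 + n₂ * 1 = n₁ + n₂ + 1 by simp only [smul_eq_mul]; ring] at h3
  have e2 : y₁ • mon (M := rhM D) 0 (eK false) = y₂ • mon (M := rhM D) 0 (eK true) := by
    have h3 := congrArg (shL ((n₁ + n₂ + 1 - j : ℤ) • ue k)) e1
    rw [shL_shL, shL_shL, ← add_smul, ← add_smul] at h3
    change (gg V (kp sd k) ^ (n₂ + 1) * z₁) • _ = (gg V (kp sd k) ^ (n₁ + 1) * z₂) • _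
    rw [mul_smul, mul_smul, gg_pow_smul ha, gg_pow_smul ha]
    have i1 : (n₁ + n₂ + 1 - j + (j - n₁) : ℤ) = ((n₂ + 1 : ℕ) : ℤ) := by push_cast; ring
    have i2 : (n₁ + n₂ + 1 - j + (j - n₂) : ℤ) = ((n₁ + 1 : ℕ) : ℤ) := by push_cast; ring
    rw [i1, i2] at h3
    exact h3
  have e3 := om_lift 0 e2
  set x : LM (rhM D) := aB y₁.im (mon (M := rhM D) 0 (eK false)) +
    aB y₂.im (mon (M := rhM D) 0 (eK true)) with hx
  have hx1 : x ∈ dgL (rhM D) ((j - 1) - (j - (n₁ + n₂ + 1))) := by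
    have h3 := add_mem (aB_mem (show y₁.im ∈ bg (n₁ + n₂) from m1.2) (eK_mem (κ := false) D j))
      (aB_mem (show y₂.im ∈ bg (n₁ + n₂) from m2.2) (eK_mem (κ := true) D j))
    rwa [show (((n₁ + n₂ : ℕ) : ℤ) + (j - j)) = (j - 1) - (j - (n₁ + n₂ + 1)) by
      push_cast; ring] at h3
  obtain ⟨t, ht⟩ := exists_secL V ha (U_one V k)
    (inI_of_dgL V (m := j - 1) (b := j - (n₁ + n₂ + 1)) hx1 k)
  refine ⟨t, Rep.ext V (rep_wM ht) ?_⟩
  rw [smul_shL, e3]
  change Rep V _ (shL ((j - (n₁ + n₂ + 1)) • ue k) ((gg V (kp sd k) ^ (n₂ + 1) * z₁) • _))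
  rw [mul_smul, gg_pow_smul ha, shL_shL, ← add_smul,
    show (j - (n₁ + n₂ + 1) + ((n₂ + 1 : ℕ) : ℤ) : ℤ) = j - n₁ by push_cast; ring]
  exact q1

/-- The exact sequence. -/
theorem exists_sesW (ha : a 0 = 1) {D : LMd sd V.G a}
    {φ φ' : Frame.lb (dJ V sd j 0) ⟶ til (NV (rhM D)) j}
    (hφ : HRep V j φ (mon (M := rhM D) 0 (eK false)))
    (hφ' : HRep V j φ' (mon (M := rhM D) 0 (eK true))) :
    ∃ (f : til (NV (rhM D)) (j - 1) ⟶ image φ) (g : image φ ⟶ cokernel φ') (w : f ≫ g = 0),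
      (ShortComplex.mk f g w).ShortExact := by
  obtain ⟨w1, s1⟩ := ses_im_coker φ
  obtain ⟨w2, s2⟩ := ses_im_coker φ'
  obtain ⟨w3, s3⟩ := ses_ker_im φ
  obtain ⟨w4, s4⟩ := ses_ker_im φ'
  have i1 : Mono (ShortComplex.mk (image.ι φ) (cokernel.π φ) w1).f := s1.mono_f
  have i2 : Mono (ShortComplex.mk (image.ι φ') (cokernel.π φ') w2).f := s2.mono_f
  let f : til (NV (rhM D)) (j - 1) ⟶ image φ := s1.exact.lift (wM (rhM D) j) (wM_coker ha hφ)
  have hf : f ≫ image.ι φ = wM (rhM D) j := s1.exact.lift_f _ _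
  let g : image φ ⟶ cokernel φ' := image.ι φ ≫ cokernel.π φ'
  have w : f ≫ g = 0 := by
    rw [← Category.assoc, hf, wM_coker ha hφ']
  have mw := mono_wM (j := j) D
  have mf : Mono f := mono_of_mono_fac hf
  have eg0 := epi_two ha hφ hφ'
  have eg : Epi g := by
    have h1 : factorThruImage φ ≫ g = φ ≫ cokernel.π φ' := by
      rw [← Category.assoc, image.fac]
    exact epi_of_epi_fac h1
  have cL : CohAll (Frame.lb (dJ V sd j 0)) := cohAll_lb _
  have cA : CohAll (til (NV (rhM D)) j) := cohAll_til ha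
  have cK : CohAll (kernel φ) := cL.ker φ cA
  have cK' : CohAll (kernel φ') := cL.ker φ' cA
  have cQ : CohAll (cokernel φ') := cL.cokernel φ' cA
  have cI : CohAll (image φ) := CohAll.coker s3 cK cL
  refine ⟨f, g, w, ?_⟩
  exact
    { exact := by
        refine exact_of_affine _ fun z => ?_
        by_cases hz : z ∈ WP V sd a
        · obtain ⟨W, h1, h2, h3⟩ := exists_aff (M := rhM D) ha hz
          refine ⟨W, h1, h2, (cI W h2).1, (cQ W h2).1, fun s _ => ⟨0, ?_⟩⟩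
          rw [map_zero]
          apply ap_injective (image.ι φ)
          rw [map_zero]
          exact (h3 j _).symm
        · obtain ⟨k, hk⟩ := exists_kp hz
          have hW := (AV V).aff (kp sd k)
          refine ⟨_, hk, hW, (cI _ hW).1, (cQ _ hW).1, fun s hs => ?_⟩
          have gen : ∀ (ψ : Frame.lb (dJ V sd j 0) ⟶ til (NV (rhM D)) j)
              (hk : (QCOn (kernel ψ) ((VF V).U (kp sd k))))
              (s : Γ(image ψ, (VF V).U (kp sd k))), ∃ r : Γ(VX V, (VF V).U (kp sd k)),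
              ap (image.ι ψ) _ s = r • ap ψ _ (Frame.lbE (dJ V sd j 0) (kp sd k)) := by
            intro ψ hk s
            obtain ⟨w5, s5⟩ := ses_ker_im ψ
            obtain ⟨y, hy⟩ := ap_surjective_of_sumOn _ s5 hk.sumOn hW le_rfl s
            obtain ⟨r, hr⟩ := (Frame.isGen_lbE (dJ V sd j 0) (kp sd k)).exists_smul le_rfl y
            rw [rs_refl] at hr
            refine ⟨r, ?_⟩
            have hy' : ap (factorThruImage ψ) _ y = s := hy
            rw [← hy', ← hr, ← ap_comp, image.fac, map_smul]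
          obtain ⟨r₁, hr₁⟩ := gen φ (cK _ hW).1 s
          have h3 : ap (cokernel.π φ') _ (ap (image.ι φ) _ s) = 0 := by
            rw [← ap_comp]
            exact hs
          obtain ⟨s', hs'⟩ := ap_exact _ s2.exact _ _ h3
          obtain ⟨r₂, hr₂⟩ := gen φ' (cK' _ hW).1 s'
          have hs'' : ap (image.ι φ') _ s' = ap (image.ι φ) _ s := hs'
          have u1 := hφ k
          have u2 := hφ' k
          rw [mon_shL] at u1 u2
          obtain ⟨t, ht⟩ := lift_w ha u1 u2 r₁ r₂ (by rw [← hr₁, ← hr₂, hs''])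
          refine ⟨t, ?_⟩
          apply ap_injective (image.ι φ)
          change ap (image.ι φ) _ (ap f _ t) = _
          rw [← ap_comp, hf, ht, hr₁]
      mono_f := mf
      epi_g := eg }

section Eu

variable {α β : ℂ} (D : LMd sd V.G (pt3 α β)) {F : DerivedCategory (VX V).Modules}

lemma cohAll_biprod' {δ : (VF V).Div} : CohAll (Frame.lb δ ⊞ Frame.lb δ) := by
  intro W hW
  have q1 := (cohAll_lb δ W hW).1
  have := (cohAll_lb δ W hW).2
  refine ⟨qcOn_biprod q1 q1, ?_⟩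
  refine Module.Finite.of_surjective (LinearMap.coprod
    (ap (biprod.inl : Frame.lb δ ⟶ Frame.lb δ ⊞ Frame.lb δ) W)
    (ap (biprod.inr : Frame.lb δ ⟶ Frame.lb δ ⊞ Frame.lb δ) W))
    fun s => ⟨(ap biprod.fst _ s, ap biprod.snd _ s), (biprod_section s).symm⟩

/-- The Euler characteristic of the submodule of a generator. -/
lemma eu_image (fe : ∀ {N : (VX V).Modules}, CohAll N → FE (sg N) F) {κ : Bool}
    {φ : Frame.lb (dJ V sd j 0) ⟶ til (NV (rhM D)) j} {S : ShortComplex (VX V).Modules}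
    (hS : S.ShortExact) (h1 : S.X₁ = Frame.lb (dJ V sd j 2))
    (h2 : S.X₂ = (Frame.lb (dJ V sd j 1) ⊞ Frame.lb (dJ V sd j 1))) (h3 : S.X₃ = kernel φ) :
    eu (sg (image φ)) F = eu (sg (Frame.lb (dJ V sd j 0))) F -
      2 * eu (sg (Frame.lb (dJ V sd j 1))) F + eu (sg (Frame.lb (dJ V sd j 2))) F := by
  have cL : ∀ n, CohAll (Frame.lb (dJ V sd j n)) := fun n => cohAll_lb _
  have cA : CohAll (til (NV (rhM D)) j) := cohAll_til (pt3_zero α β)
  have cK : CohAll (kernel φ) := (cL 0).ker φ cA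
  obtain ⟨w1, s1⟩ := ses_ker_im φ
  have cI : CohAll (image φ) := CohAll.coker s1 cK (cL 0)
  let S₂ : ShortComplex (VX V).Modules :=
    ShortComplex.mk (biprod.inl : Frame.lb (dJ V sd j 1) ⟶
      Frame.lb (dJ V sd j 1) ⊞ Frame.lb (dJ V sd j 1)) biprod.snd biprod.inl_snd
  have s3 : S₂.ShortExact :=
    (ShortComplex.Splitting.ofHasBinaryBiproduct (Frame.lb (dJ V sd j 1))
      (Frame.lb (dJ V sd j 1))).shortExact
  have cB : CohAll (Frame.lb (dJ V sd j 1) ⊞ Frame.lb (dJ V sd j 1)) := cohAll_biprod'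
  have g3 := eu_ses₁ (F := F) s3 (fe (cL 1)) (fe cB) (fe (cL 1))
  have g1 := eu_ses₁ (F := F) s1 (fe cK) (fe (cL 0)) (fe cI)
  have g4 := eu_ses₁ (F := F) hS (by rw [h1]; exact fe (cL 2)) (by rw [h2]; exact fe cB)
    (by rw [h3]; exact fe cK)
  rw [h1, h2, h3] at g4
  change eu (sg (Frame.lb (dJ V sd j 1) ⊞ Frame.lb (dJ V sd j 1))) F =
    eu (sg (Frame.lb (dJ V sd j 1))) F + eu (sg (Frame.lb (dJ V sd j 1))) F at g3
  change eu (sg (Frame.lb (dJ V sd j 0))) F = eu (sg (kernel φ)) F + eu (sg (image φ)) F at g1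
  rw [g3] at g4
  linarith

/-- The sum of the Euler characteristics of neighbouring twists. -/
theorem eu_sum (fe : ∀ {N : (VX V).Modules}, CohAll N → FE (sg N) F) (j : ℤ) :
    eu (tS (rhM D) j) F + eu (tS (rhM D) (j - 1)) F =
      2 * (eu (sg (Frame.lb (dJ V sd j 0))) F - 2 * eu (sg (Frame.lb (dJ V sd j 1))) F +
        eu (sg (Frame.lb (dJ V sd j 2))) F) := by
  have ha := pt3_zero α β
  obtain ⟨φ, S, hφ, hS, h1, h2, h3⟩ := exists_resJ D false j
  obtain ⟨φ', S', hφ', hS', h1', h2', h3'⟩ := exists_resJ D true j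
  have e1 := eu_image (κ := false) D fe hS h1 h2 h3
  have e2 := eu_image (κ := true) D fe hS' h1' h2' h3'
  obtain ⟨f, g, w, hW⟩ := exists_sesW ha hφ hφ'
  obtain ⟨w2, s2⟩ := ses_im_coker φ'
  obtain ⟨w3, s3⟩ := ses_ker_im φ
  obtain ⟨w4, s4⟩ := ses_ker_im φ'
  have cL : CohAll (Frame.lb (dJ V sd j 0)) := cohAll_lb _
  have cA : ∀ j, CohAll (til (NV (rhM D)) j) := fun j => cohAll_til ha
  have cK : CohAll (kernel φ) := cL.ker φ (cA j)
  have cK' : CohAll (kernel φ') := cL.ker φ' (cA j)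
  have cQ : CohAll (cokernel φ') := cL.cokernel φ' (cA j)
  have cI : CohAll (image φ) := CohAll.coker s3 cK cL
  have cI' : CohAll (image φ') := CohAll.coker s4 cK' cL
  have g1 := eu_ses₁ (F := F) hW (fe (cA (j - 1))) (fe cI) (fe cQ)
  have g2 := eu_ses₁ (F := F) s2 (fe cI') (fe (cA j)) (fe cQ)
  change eu (sg (image φ)) F = eu (tS (rhM D) (j - 1)) F + eu (sg (cokernel φ')) F at g1
  change eu (tS (rhM D) j) F = eu (sg (image φ')) F + eu (sg (cokernel φ')) F at g2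
  linarith

/-- The third difference. -/
theorem eu_third (fe : ∀ {N : (VX V).Modules}, CohAll N → FE (sg N) F) (j : ℤ) :
    eu (tS (rhM D) j) F - 3 * eu (tS (rhM D) (j - 1)) F + 3 * eu (tS (rhM D) (j - 2)) F -
      eu (tS (rhM D) (j - 3)) F = 0 := by
  have cA : ∀ j, CohAll (til (NV (rhM D)) j) := fun j => cohAll_til (pt3_zero α β)
  exact third_left (kdM (rhM D)) (j₃ := j - 3) (j₂ := j - 2) (j₁ := j - 1) (j₀ := j) (by ring)
    (by ring) (by ring) (fe (cA _)) (fe (cA _)) (fe (cA _)) (fe (cA _))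

end Eu

end

end Run7.h164
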