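import Pool.Agent.Run7.h164.KI

set_option autoImplicit false
set_option linter.unusedVariables false
set_option linter.unusedSectionVars false

/-!
The relation between a module of a pair of lines and its shift.
-/

open CategoryTheory Limits TopologicalSpace AlgebraicGeometry Opposite Pretriangulated

namespace Run7.h164

noncomputable section

set_option backward.isDefEq.respectTransparency false

open Pool.Agent.W506 Pool.Agent.N212
open Pool.Agent.R924 (DD Frame sg DCoh CohAll IsGen fr exists_fr)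
open Pool.Agent.W456 (stD stalkF)

attribute [local instance] HasDerivedCategory.standard

/-- Vanishing of morphisms of quasi-coherent modules. -/
theorem zero_of_affine {X : Scheme.{0}} {M N : X.Modules} (φ : M ⟶ N)
    (h : ∀ x : X, ∃ W : X.Opens, x ∈ W ∧ IsAffineOpen W ∧ QCOn M W ∧
      ∀ s : Γ(M, W), ap φ W s = 0) : φ = 0 := by
  apply ap_ext
  intro U s
  apply ext_rs_of_mem
  intro x hx
  obtain ⟨W, hxW, hW, hq, h0⟩ := h x
  obtain ⟨f, hle, hxf⟩ := hW.exists_basicOpen_le (V := U) ⟨x, hx⟩ hxW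
  refine ⟨X.basicOpen f, hle, hxf, ?_⟩
  obtain ⟨n, t, ht⟩ := hq.ext W hW le_rfl f (rs M hle s)
  have h1 := congrArg (ap φ (X.basicOpen f)) ht
  rw [ap_rs, h0, map_zero, map_smul] at h1
  obtain ⟨v, hv⟩ := (isUnit_ro_basicOpen f).exists_left_inv
  have h2 : ap φ (X.basicOpen f) (rs M hle s) = 0 := by
    have h3 := congrArg (fun y => v ^ n • y) h1
    simp only [smul_zero] at h3
    rw [smul_smul, ← mul_pow, hv, one_pow, one_smul] at h3
    exact h3.symm
  rw [← ap_rs, h2, ap_zero, map_zero]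

variable {V : Verra} {sd : Bool} {a : Fin 3 → ℂ} {j : ℤ}

lemma exists_kp {z : VX V} (hz : z ∉ WP V sd a) : ∃ k, z ∈ (VF V).U (kp sd k) := by
  obtain ⟨c, hc⟩ := gg_cov V z
  obtain ⟨i, k, rfl⟩ := exists_ch sd c
  refine ⟨k, fun h => hc ?_⟩
  set I := (show ProjectiveSpectrum (rg V.G) from z).asHomogeneousIdeal.toIdeal with hI
  have h3 := I.add_mem (notMem_WP hz i k) (I.mul_mem_left (algebraMap ℂ (RF V.G) (a i)) h)
  rwa [et, sub_add_cancel] at h3

/-- Affine neighbourhoods of points outside of the fibre. -/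
lemma exists_aff {M : CM V.G sd a} (ha : a 0 = 1) {z : VX V} (hz : z ∈ WP V sd a) :
    ∃ W : (VX V).Opens, z ∈ W ∧ IsAffineOpen W ∧ ∀ (j : ℤ) (s : Γ(til (NV M) j, W)), s = 0 := by
  obtain ⟨i, k, hik⟩ := mem_WP.1 hz
  obtain ⟨W, hW, hzW, hle⟩ := exists_isAffineOpen_mem_and_subset hik
  exact ⟨W, hzW, hW, fun j s => til_zero_on (et_smul ha i k) hle s⟩

lemma span_eK : Submodule.span ℂ ({eK false, eK true} : Set (ℂ × ℂ)) = ⊤ := by
  rw [eq_top_iff]
  rintro ⟨x, y⟩ -
  have h1 : ((x, y) : ℂ × ℂ) = x • ((1, 0) : ℂ × ℂ) + y • ((0, 1) : ℂ × ℂ) := by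
    refine Prod.ext ?_ ?_
    · simp
    · simp
  rw [h1]
  exact add_mem (Submodule.smul_mem _ _ (Submodule.subset_span (Or.inl rfl)))
    (Submodule.smul_mem _ _ (Submodule.subset_span (Or.inr rfl)))

/-- Morphisms which vanish on the generators are zero. -/
theorem rh_hom_zero (ha : a 0 = 1) {D : LMd sd V.G a} {T : (VX V).Modules}
    (ψ : til (NV (rhM D)) j ⟶ T)
    (h : ∀ (k : Fin 3) (κ : Bool) (s : Γ(til (NV (rhM D)) j, (VF V).U (kp sd k))),
      Rep V s (mon (M := rhM D) (j • ue k) (eK κ)) → ap ψ _ s = 0) : ψ = 0 := by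
  apply zero_of_affine
  intro z
  by_cases hz : z ∈ WP V sd a
  · obtain ⟨W, h1, h2, h3⟩ := exists_aff (M := rhM D) ha hz
    exact ⟨W, h1, h2, qcOn_til _ _ _, fun s => by rw [h3 j s, map_zero]⟩
  · obtain ⟨k, hk⟩ := exists_kp hz
    refine ⟨_, hk, (AV V).aff _, qcOn_til _ _ _, fun s => ?_⟩
    exact span_chart (M := rhM D) ha k (show Set (rhM D).C from ({eK false, eK true} : Set (ℂ × ℂ)))
      span_eK (LinearMap.ker (ap ψ ((VF V).U (kp sd k)))) (fun v hv s hs => by
        rcases hv with rfl | hv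
        · exact h k false s hs
        · have hv' : v = eK true := hv
          subst hv'
          exact h k true s hs) s

/-- Multiplication by the square root. -/
def wG (M : CM V.G sd a) : GH (NV M) (NV M) 1 where
  f :=
    { toFun := fun l => om V • (show LM M from l)
      map_add' := fun l l' => smul_add _ _ _
      map_smul' := fun r l => by
        rw [RingHom.id_apply, smul_smul, smul_smul, mul_comm] }
  map_deg {m l} h := by
    have h1 := smulR_mem (om_mem (V := V)) h
    rw [show (((1 * 1 : ℕ) : ℤ) + m) = m + 1 by push_cast; ring] at h1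
    exact h1

/-- Multiplication by the square root as a morphism of sheaves. -/
def wM (M : CM V.G sd a) (j : ℤ) : til (NV M) (j - 1) ⟶ til (NV M) j :=
  tmap (wG M) (by ring)

lemma rep_wM {M : CM V.G sd a} {U : (VX V).Opens} {s : Γ(til (NV M) (j - 1), U)} {l : LM M}
    (h : Rep V s l) : Rep V (ap (wM M j) U s) (om V • l) := by
  intro x hx
  rw [wM, vl_tmap, h x hx, lmap_mk]
  rfl

lemma mono_wM (D : LMd sd V.G a) : Mono (wM (rhM D) j) := by
  refine mono_tmap (wG (rhM D)) (fun l l' h => ?_) _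
  have h1 : om V • (show LM (rhM D) from l) = om V • (show LM (rhM D) from l') := h
  rw [om_smul, om_smul] at h1
  exact aW_inj h1

lemma mon_shL {M : CM V.G sd a} (e : Ex) (v : M.C) : shL e (mon (M := M) 0 v) = mon e v := by
  rw [shL_mon, add_zero]

lemma gg_kp_smul (ha : a 0 = 1) {M : CM V.G sd a} (k : Fin 3) (l : LM M) :
    gg V (kp sd k) • l = shL (ue k) l := by
  have h := gg_smul (V := V) (sd := sd) (a := a) (M := M) 0 k l
  rw [ha, one_smul] at h
  exact h

lemma gg_pow_smul (ha : a 0 = 1) {M : CM V.G sd a} (k : Fin 3) (n : ℕ) (l : LM M) :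
    gg V (kp sd k) ^ n • l = shL ((n : ℤ) • ue k) l := by
  induction n with
  | zero => rw [pow_zero, one_smul, Nat.cast_zero, zero_smul, shL_zero]
  | succ n ih =>
    rw [pow_succ', mul_smul, ih, gg_kp_smul ha, shL_shL]
    congr 1
    push_cast
    rw [add_smul, one_smul, add_comm]

/-- The image of the multiplication lies in the submodules of both generators. -/
lemma wM_coker (ha : a 0 = 1) {D : LMd sd V.G a} {κ : Bool}
    {φ : Frame.lb (dJ V sd j 0) ⟶ til (NV (rhM D)) j}
    (hφ : HRep V j φ (mon (M := rhM D) 0 (eK κ))) : wM (rhM D) j ≫ cokernel.π φ = 0 := by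
  apply rh_hom_zero ha
  intro k κ' s hs
  obtain ⟨z, hz, hzm⟩ := exists_z ha D κ κ'
  have h1 : Rep V (fU V (kp sd k) 1 z hz • ap φ _ (Frame.lbE (dJ V sd j 0) (kp sd k)))
      (om V • mon (M := rhM D) ((j - 1) • ue k) (eK κ')) := by
    refine rep_fr (hφ k) hz ?_
    rw [mon_shL, hzm, pow_one, gg_kp_smul ha, om_smul, om_smul, ← aW_shL, shL_mon]
    congr 2
    rw [sub_smul, one_smul]
    abel
  have h2 := Rep.ext V (rep_wM hs) h1
  rw [ap_comp, h2, map_smul, ← ap_comp, cokernel.condition, ap_zero, smul_zero]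

/-- The two generators generate. -/
lemma epi_two (ha : a 0 = 1) {D : LMd sd V.G a}
    {φ φ' : Frame.lb (dJ V sd j 0) ⟶ til (NV (rhM D)) j}
    (hφ : HRep V j φ (mon (M := rhM D) 0 (eK false)))
    (hφ' : HRep V j φ' (mon (M := rhM D) 0 (eK true))) : Epi (φ ≫ cokernel.π φ') := by
  apply Preadditive.epi_of_cancel_zero
  intro T q hq
  rw [← cancel_epi (cokernel.π φ'), comp_zero]
  apply rh_hom_zero ha
  intro k κ s hs
  rw [← mon_shL] at hs
  cases κ
  · have h2 := Rep.ext V hs (hφ k)
    rw [h2, ← ap_comp, ← Category.assoc, hq, ap_zero]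
  · have h2 := Rep.ext V hs (hφ' k)
    rw [h2, ← ap_comp, ← Category.assoc, cokernel.condition, zero_comp, ap_zero]

end

end Run7.h164
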