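import Pool.Agent.Run7.h164.KJ
import Pool.Agent.Run7.h164.KP

set_option autoImplicit false
set_option linter.unusedVariables false
set_option linter.unusedSectionVars false

/-!
Multiplication by the square root on the module of a pair of lines.
-/

open CategoryTheory Limits TopologicalSpace AlgebraicGeometry Opposite Pretriangulated

namespace Run7.h164

noncomputable section

set_option backward.isDefEq.respectTransparency false

open Pool.Agent.W506 Pool.Agent.N212
open Pool.Agent.R924 (DD Frame sg DCoh CohAll IsGen fr exists_fr)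
open Pool.Agent.W456 (stD stalkF)

attribute [local instance] HasDerivedCategory.standard

variable {V : Verra} {sd : Bool} {a : Fin 3 → ℂ}

section Alg

variable (D : LMd sd V.G a)

/-- Elements in one of the two summands. -/
def TK (D : LMd sd V.G a) (κ : Bool) (l : LM (rhM D)) : Prop :=
  ∀ e, (if κ then (show ℂ × ℂ from co l e).1 else (show ℂ × ℂ from co l e).2) = 0

variable {D}

lemma TK.aB {κ : Bool} {l : LM (rhM D)} (h : TK D κ l) (d : Bi) : TK D κ (aB d l) := by
  induction d using Bi_induction with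
  | h0 =>
    intro e
    rw [aB_zero]
    cases κ <;> rfl
  | hadd d d' hd hd' =>
    intro e
    have h1 := hd e
    have h2 := hd' e
    rw [aB_add]
    cases κ
    · change (show ℂ × ℂ from co (Run7.h164.aB d l) e).2 + (show ℂ × ℂ from co (Run7.h164.aB d' l) e).2 = 0
      rw [show (show ℂ × ℂ from co (Run7.h164.aB d l) e).2 = 0 from h1,
        show (show ℂ × ℂ from co (Run7.h164.aB d' l) e).2 = 0 from h2, add_zero]
    · change (show ℂ × ℂ from co (Run7.h164.aB d l) e).1 + (show ℂ × ℂ from co (Run7.h164.aB d' l) e).1 = 0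
      rw [show (show ℂ × ℂ from co (Run7.h164.aB d l) e).1 = 0 from h1,
        show (show ℂ × ℂ from co (Run7.h164.aB d' l) e).1 = 0 from h2, add_zero]
  | hs m c =>
    intro e
    rw [co_mono]
    have h1 := h (-(fun i => ((pm sd m).2 i : ℤ)) + e)
    cases κ
    · change _ * (show ℂ × ℂ from co l (-(fun i => ((pm sd m).2 i : ℤ)) + e)).2 = 0
      rw [show (show ℂ × ℂ from co l (-(fun i => ((pm sd m).2 i : ℤ)) + e)).2 = 0 from h1, mul_zero]
    · change _ * (show ℂ × ℂ from co l (-(fun i => ((pm sd m).2 i : ℤ)) + e)).1 = 0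
      rw [show (show ℂ × ℂ from co l (-(fun i => ((pm sd m).2 i : ℤ)) + e)).1 = 0 from h1, mul_zero]

lemma TK_mon (κ : Bool) (e : Ex) : TK D κ (mon (M := rhM D) e (eK κ)) := by
  intro x
  rw [co_mon]
  by_cases h : e = x
  · rw [if_pos h]
    cases κ <;> rfl
  · rw [if_neg h]
    cases κ <;> rfl

lemma TK.aW {κ : Bool} {l : LM (rhM D)} (h : TK D κ l) : TK D (!κ) (aW l) := by
  intro e
  rw [co_aW]
  have hs : ∀ (s : Finset (Fin 3)), (if (!κ) then
      (show ℂ × ℂ from ∑ k ∈ s, (rhM D).E k (co l (-(ue k) + e))).1 else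
      (show ℂ × ℂ from ∑ k ∈ s, (rhM D).E k (co l (-(ue k) + e))).2) = 0 := by
    intro s
    induction s using Finset.cons_induction with
    | empty => cases κ <;> rfl
    | cons k s hk ih =>
      rw [Finset.sum_cons, rhM_E]
      have h1 := h (-(ue k) + e)
      cases κ
      · change D.L k * (show ℂ × ℂ from co l (-(ue k) + e)).2 +
          (show ℂ × ℂ from ∑ k ∈ s, (rhM D).E k (co l (-(ue k) + e))).1 = 0
        rw [show (show ℂ × ℂ from co l (-(ue k) + e)).2 = 0 from h1, mul_zero, zero_add]
        exact ih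
      · change D.M k * (show ℂ × ℂ from co l (-(ue k) + e)).1 +
          (show ℂ × ℂ from ∑ k ∈ s, (rhM D).E k (co l (-(ue k) + e))).2 = 0
        rw [show (show ℂ × ℂ from co l (-(ue k) + e)).1 = 0 from h1, mul_zero, zero_add]
        exact ih
  exact hs _

/-- Comparison of components. -/
lemma TK_eq {κ : Bool} {l₁ l₂ l₃ l₄ : LM (rhM D)} (h1 : TK D κ l₁) (h2 : TK D (!κ) l₂)
    (h3 : TK D (!κ) l₃) (h4 : TK D κ l₄) (h : l₁ + l₂ = l₃ + l₄) : l₁ = l₄ := by
  refine co_ext fun e => ?_
  have h0 : co (l₁ + l₂) e = co (l₃ + l₄) e := by rw [h]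
  rw [co_add, co_add] at h0
  have p1 := congrArg Prod.fst (show (show ℂ × ℂ from co l₁ e) + (show ℂ × ℂ from co l₂ e) =
    (show ℂ × ℂ from co l₃ e) + (show ℂ × ℂ from co l₄ e) from h0)
  have p2 := congrArg Prod.snd (show (show ℂ × ℂ from co l₁ e) + (show ℂ × ℂ from co l₂ e) =
    (show ℂ × ℂ from co l₃ e) + (show ℂ × ℂ from co l₄ e) from h0)
  rw [Prod.fst_add, Prod.fst_add] at p1
  rw [Prod.snd_add, Prod.snd_add] at p2
  have q1 := h1 e
  have q2 := h2 e
  have q3 := h3 e
  have q4 := h4 e
  cases κ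
  · change (show ℂ × ℂ from co l₁ e).2 = 0 at q1
    change (show ℂ × ℂ from co l₂ e).1 = 0 at q2
    change (show ℂ × ℂ from co l₃ e).1 = 0 at q3
    change (show ℂ × ℂ from co l₄ e).2 = 0 at q4
    rw [q2, q3, add_zero, zero_add] at p1
    exact Prod.ext p1 (q1.trans q4.symm)
  · change (show ℂ × ℂ from co l₁ e).1 = 0 at q1
    change (show ℂ × ℂ from co l₂ e).2 = 0 at q2
    change (show ℂ × ℂ from co l₃ e).2 = 0 at q3
    change (show ℂ × ℂ from co l₄ e).1 = 0 at q4
    rw [q2, q3, add_zero, zero_add] at p2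
    exact Prod.ext (q1.trans q4.symm) p2

lemma aB_add' {M : CM V.G sd a} (d : Bi) (l l' : LM M) : aB d (l + l') = aB d l + aB d l' := by
  change (actB M d (_ + _) : Ex →₀ M.C) = _
  rw [map_add]
  rfl

lemma aW_add' {M : CM V.G sd a} (l l' : LM M) : aW (l + l') = aW l + aW l' := by
  change (actW M (_ + _) : Ex →₀ M.C) = _
  rw [map_add]
  rfl

lemma aW_aB {M : CM V.G sd a} (d : Bi) (l : LM M) : aW (aB d l) = aB d (aW l) := by
  have h1 : om V • (algebraMap Bi (RF V.G) d • l) = algebraMap Bi (RF V.G) d • om V • l := by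
    rw [smul_smul, smul_smul, mul_comm]
  rwa [om_smul, om_smul, smulR_algebraMap, smulR_algebraMap] at h1

/-- Elements generated by both generators are multiples of the square root. -/
lemma om_lift (e : Ex) {z₁ z₂ : RF V.G}
    (h : z₁ • mon (M := rhM D) e (eK false) = z₂ • mon (M := rhM D) e (eK true)) :
    om V • (aB z₁.im (mon (M := rhM D) e (eK false)) + aB z₂.im (mon (M := rhM D) e (eK true))) =
      z₁ • mon (M := rhM D) e (eK false) := by
  have h' := h
  rw [smulR_def, smulR_def] at h
  have t1 := (TK_mon (D := D) false e)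
  have t2 := (TK_mon (D := D) true e)
  have h1 := TK_eq (κ := false) (t1.aB z₁.re) (t1.aW.aB z₁.im) (t2.aB z₂.re) (t2.aW.aB z₂.im) h
  rw [om_smul, aW_add', aW_aB, aW_aB, smulR_def, h1, add_comm]

/-- The square root and the linear forms. -/
lemma exists_z (ha : a 0 = 1) (D : LMd sd V.G a) (κ κ' : Bool) : ∃ z ∈ rg V.G (1 * 1), ∀ e,
    z • mon (M := rhM D) e (eK κ) = om V • mon (M := rhM D) e (eK κ') := by
  by_cases h : κ = κ'
  · subst h
    exact ⟨om V, om_mem, fun e => rfl⟩
  · cases κ
    · cases κ'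
      · exact absurd rfl h
      · exact ⟨Lt V sd D.L, Lt_mem _, fun e => Lt_om ha D e⟩
    · cases κ'
      · refine ⟨Lt V sd D.M, Lt_mem _, fun e => ?_⟩
        rw [Lt_smul ha, om_smul, aW_mon]
        refine Finset.sum_congr rfl fun k _ => ?_
        congr 1
        rw [rhM_E]
        refine Prod.ext ?_ ?_
        · change D.M k * 0 = D.L k * 0
          rw [mul_zero, mul_zero]
        · rfl
      · exact absurd rfl h

/-- Laurent polynomials in three variables. -/
lemma lin_inj {L : Fin 3 → ℂ} (hL : ∃ k, L k ≠ 0) {p : Ex →₀ ℂ}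
    (h : ∀ e, ∑ k, L k * p (-(ue k) + e) = 0) : p = 0 := by
  let P : AddMonoidAlgebra ℂ Ex := ⟨p⟩
  let Q : AddMonoidAlgebra ℂ Ex := ∑ k, AddMonoidAlgebra.single (ue k) (L k)
  have h1 : Q * P = 0 := by
    refine AddMonoidAlgebra.coeff_injective (Finsupp.ext fun e => ?_)
    change (Q * P).coeff e = 0
    rw [Finset.sum_mul]
    have h2 : ∀ s : Finset (Fin 3), (∑ k ∈ s, AddMonoidAlgebra.single (ue k) (L k) * P).coeff e =
        ∑ k ∈ s, L k * p (-(ue k) + e) := by
      intro s
      induction s using Finset.cons_induction with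
      | empty => rfl
      | cons k s hk ih =>
        rw [Finset.sum_cons, Finset.sum_cons, ← ih]
        change (AddMonoidAlgebra.single (ue k) (L k) * P).coeff e + _ = _
        rw [AddMonoidAlgebra.coeff_single_mul_apply]
        rfl
    rw [h2]
    exact h e
  have h2 : Q ≠ 0 := by
    obtain ⟨k, hk⟩ := hL
    intro hQ
    apply hk
    have h3 : Q.coeff (ue k) = 0 := by rw [hQ]; rfl
    have h4 : ∀ s : Finset (Fin 3), (∑ l ∈ s, AddMonoidAlgebra.single (ue l) (L l) :
        AddMonoidAlgebra ℂ Ex).coeff (ue k) = ∑ l ∈ s, (Finsupp.single (ue l) (L l)) (ue k) := by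
      intro s
      induction s using Finset.cons_induction with
      | empty => rfl
      | cons k s hk ih =>
        rw [Finset.sum_cons, Finset.sum_cons, ← ih]
        rfl
    have h5 : (∑ l, (Finsupp.single (ue l) (L l) : Ex →₀ ℂ)) (ue k) = L k := by
      rw [Finsupp.finsetSum_apply, Finset.sum_eq_single k]
      · rw [Finsupp.single_eq_same]
      · intro l _ hl
        rw [Finsupp.single_apply, if_neg fun h => hl (ue_inj h)]
      · intro h
        exact absurd (Finset.mem_univ _) h
    rw [← h5, Finsupp.finsetSum_apply, ← h4]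
    exact h3
  have h3 := (mul_eq_zero.1 h1).resolve_left h2
  exact congrArg AddMonoidAlgebra.coeff h3

lemma aW_inj : Function.Injective fun l : LM (rhM D) => aW l := by
  have key : ∀ l : LM (rhM D), aW l = 0 → l = 0 := by
    intro l hl
    have h1 : ∀ e, ∑ k, D.L k * (show ℂ × ℂ from co l (-(ue k) + e)).2 = 0 := by
      intro e
      have h2 : co (aW l) e = 0 := by rw [hl]; rfl
      rw [co_aW] at h2
      have h3 := congrArg Prod.fst (show (show ℂ × ℂ from
        ∑ k, (rhM D).E k (co l (-(ue k) + e))) = 0 from h2)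
      rw [← h3.trans Prod.fst_zero]
      have h4 : ∀ s : Finset (Fin 3), ∑ k ∈ s, D.L k * (show ℂ × ℂ from co l (-(ue k) + e)).2 =
          (show ℂ × ℂ from ∑ k ∈ s, (rhM D).E k (co l (-(ue k) + e))).1 := by
        intro s
        induction s using Finset.cons_induction with
        | empty => rfl
        | cons k s hk ih =>
          rw [Finset.sum_cons, Finset.sum_cons, ih]
          rfl
      exact h4 _
    have h1' : ∀ e, ∑ k, D.M k * (show ℂ × ℂ from co l (-(ue k) + e)).1 = 0 := by
      intro e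
      have h2 : co (aW l) e = 0 := by rw [hl]; rfl
      rw [co_aW] at h2
      have h3 := congrArg Prod.snd (show (show ℂ × ℂ from
        ∑ k, (rhM D).E k (co l (-(ue k) + e))) = 0 from h2)
      rw [← h3.trans Prod.snd_zero]
      have h4 : ∀ s : Finset (Fin 3), ∑ k ∈ s, D.M k * (show ℂ × ℂ from co l (-(ue k) + e)).1 =
          (show ℂ × ℂ from ∑ k ∈ s, (rhM D).E k (co l (-(ue k) + e))).2 := by
        intro s
        induction s using Finset.cons_induction with
        | empty => rfl
        | cons k s hk ih =>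
          rw [Finset.sum_cons, Finset.sum_cons, ih]
          rfl
      exact h4 _
    let p1 : Ex →₀ ℂ := Finsupp.mapRange (fun c : ℂ × ℂ => c.1) rfl (show Ex →₀ ℂ × ℂ from l)
    let p2 : Ex →₀ ℂ := Finsupp.mapRange (fun c : ℂ × ℂ => c.2) rfl (show Ex →₀ ℂ × ℂ from l)
    have e1 : p1 = 0 := lin_inj (LK_ne D false) (p := p1) h1'
    have e2 : p2 = 0 := lin_inj (LK_ne D true) (p := p2) h1
    refine co_ext fun e => ?_
    exact Prod.ext (DFunLike.congr_fun e1 e) (DFunLike.congr_fun e2 e)
  intro l l' h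
  have h1 : aW (l - l') = 0 := by
    have h2 : aW (l - l') = aW l - aW l' := by
      change (actW (rhM D) (_ - _) : Ex →₀ (rhM D).C) = _
      rw [map_sub]
      rfl
    rw [h2]
    exact sub_eq_zero.2 h
  exact sub_eq_zero.1 (key _ h1)

end Alg

end

end Run7.h164
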