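import Pool.Agent.Run7.h164.KW
import Pool.Agent.Run7.h164.CT

set_option autoImplicit false
set_option linter.unusedVariables false
set_option linter.unusedSectionVars false

/-!
Resolutions of the sheaves generated by the generators of the modules of pairs of lines.
-/

open CategoryTheory Limits TopologicalSpace AlgebraicGeometry Opposite Pretriangulated

namespace Run7.h164

noncomputable section

set_option backward.isDefEq.respectTransparency false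

open Pool.Agent.W506 Pool.Agent.N212
open Pool.Agent.R924 (DD Frame sg DCoh CohAll IsGen fr exists_fr)
open Pool.Agent.W456 (stD stalkF)

attribute [local instance] HasDerivedCategory.standard

variable {V : Verra} {sd : Bool} {a : Fin 3 → ℂ}

section Ann

variable {B : Type} [CommRing B] [Algebra ℂ B]

/-- Annihilators. -/
lemma ann_e1 (D : LMd sd V.G a) (z : RF V.G)
    (h : z • (mon (M := rhM D) 0 ((1, 0) : ℂ × ℂ)) = 0) (y : Fin 3 → B) :
    evX sd (fun i => algebraMap ℂ B (a i)) y z.re = 0 ∧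
      evX sd (fun i => algebraMap ℂ B (a i)) y z.im * ∑ k, D.M k • y k = 0 := by
  rw [smulR_def, aW_mon] at h
  have hs : ∀ s : Finset (Fin 3), aB z.im (∑ k ∈ s, mon (M := rhM D) (ue k + 0)
      ((rhM D).E k ((1, 0) : ℂ × ℂ))) = ∑ k ∈ s, aB z.im (mon (M := rhM D) (ue k + 0)
      ((rhM D).E k ((1, 0) : ℂ × ℂ))) := by
    intro s
    change (actB (rhM D) z.im (∑ k ∈ s, mon (M := rhM D) (ue k + 0)
      ((rhM D).E k ((1, 0) : ℂ × ℂ))) : Ex →₀ (rhM D).C) = _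
    rw [map_sum]
    rfl
  rw [hs] at h
  have hq : ∀ k, (ue k + 0 : Ex) = fun i => (((Pi.single k 1 : Fin 3 → ℕ) i : ℕ) : ℤ) := by
    intro k
    funext j
    rw [add_zero]
    by_cases hj : j = k
    · subst hj
      simp [ue]
    · simp [ue, Pi.single_eq_of_ne hj]
  have hE : ∀ k, (rhM D).E k ((1, 0) : ℂ × ℂ) = ((0, D.M k) : ℂ × ℂ) := by
    intro k
    rw [rhM_E]
    exact Prod.ext (mul_zero _) (mul_one _)
  have h0 : (0 : Ex) = fun i => (((0 : Fin 3 → ℕ) i : ℕ) : ℤ) := rfl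
  obtain ⟨l1, u1, u2⟩ : ∃ l1 : (rhM D).C →ₗ[ℂ] ℂ, l1 ((1, 0) : ℂ × ℂ) = 1 ∧
      ∀ k, l1 ((0, D.M k) : ℂ × ℂ) = 0 := ⟨LinearMap.fst ℂ ℂ ℂ, rfl, fun k => rfl⟩
  obtain ⟨l2, v1, v2⟩ : ∃ l2 : (rhM D).C →ₗ[ℂ] ℂ, l2 ((1, 0) : ℂ × ℂ) = 0 ∧
      ∀ k, l2 ((0, D.M k) : ℂ × ℂ) = D.M k := ⟨LinearMap.snd ℂ ℂ ℂ, rfl, fun k => rfl⟩
  have h1 := congrArg (Ey (M := rhM D) y l1) h
  have h2 := congrArg (Ey (M := rhM D) y l2) h
  rw [map_add, map_zero, map_sum] at h1 h2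
  simp only [hq, hE] at h1 h2
  rw [h0] at h1 h2
  simp only [Ey_aB, Ey_mon] at h1 h2
  have p1 : ∀ k, ∏ i, y i ^ ((((Pi.single k 1 : Fin 3 → ℕ) i : ℕ) : ℤ)).toNat = y k := by
    intro k
    rw [Finset.prod_eq_single k]
    · simp
    · intro j _ hj
      rw [Pi.single_eq_of_ne hj]
      simp
    · intro h
      exact absurd (Finset.mem_univ _) h
  simp only [p1, u1, u2, v1, v2] at h1 h2
  constructor
  · simpa using h1
  · rw [Finset.mul_sum]
    simpa using h2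


end Ann

/-- The generators. -/
def eK (κ : Bool) : ℂ × ℂ := if κ then (0, 1) else (1, 0)

/-- The lines. -/
def LK (D : LMd sd V.G a) (κ : Bool) : Fin 3 → ℂ := if κ then D.L else D.M

lemma ann_K {B : Type} [CommRing B] [Algebra ℂ B] (D : LMd sd V.G a) (κ : Bool) (z : RF V.G)
    (h : z • (mon (M := rhM D) 0 (eK κ)) = 0) (y : Fin 3 → B) :
    evX sd (fun i => algebraMap ℂ B (a i)) y z.re = 0 ∧
      evX sd (fun i => algebraMap ℂ B (a i)) y z.im * ∑ k, LK D κ k • y k = 0 := by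
  cases κ
  · exact ann_e1 D z h y
  · exact ann_e2 D z h y

lemma LK_ne (D : LMd sd V.G a) (κ : Bool) : ∃ k, LK D κ k ≠ 0 := by
  by_contra! h
  cases κ
  · have := D.Mv
    have h' : ∀ k, D.M k = 0 := h
    simp [h'] at this
  · have := D.Lu
    have h' : ∀ k, D.L k = 0 := h
    simp [h'] at this

section Div

variable (V : Verra) (sd : Bool)

/-- The divisors used in the resolution. -/
def dJ (j n : ℤ) : (VF V).Div :=
  if sd then xiD V ^ j * etD V ^ (-n) else xiD V ^ (-n) * etD V ^ j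

lemma shD_dJ (j n : ℤ) : ShD V sd (dJ V sd j n) j := by
  cases sd
  · exact shD_line V (sd := false) (-n) j
  · exact shD_line V (sd := true) j (-n)

lemma dJ_succ (j n : ℤ) : dJ V sd j (n + 1) = dJ V sd j n * (bD V sd)⁻¹ := by
  cases sd
  · change xiD V ^ (-(n + 1)) * etD V ^ j = xiD V ^ (-n) * etD V ^ j * (xiD V)⁻¹
    rw [neg_add, zpow_add, zpow_neg_one (xiD V)]
    exact mul_right_comm _ _ _
  · change xiD V ^ j * etD V ^ (-(n + 1)) = xiD V ^ j * etD V ^ (-n) * (etD V)⁻¹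
    rw [neg_add, zpow_add, zpow_neg_one (etD V), mul_assoc]

variable (a : Fin 3 → ℂ)

/-- Multiplication by the equations. -/
lemma exists_mJ (i : Fin 3) (j n : ℤ) :
    ∃ m : Frame.lb (dJ V sd j (n + 1)) ⟶ Frame.lb (dJ V sd j n),
    ∀ c, ap m _ (Frame.lbE (dJ V sd j (n + 1)) c) =
      lj V sd a i c • Frame.lbE (dJ V sd j n) c := by
  refine Frame.exists_mul _ _ (hj V sd a i) (lj V sd a i) fun c => ?_
  have h1 : (dJ V sd j (n + 1)).1 c = (dJ V sd j n).1 c * ((bD V sd).1 c)⁻¹ := by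
    rw [dJ_succ]
    rfl
  rw [h1, Units.val_mul, ← lj_rel V sd a i c]
  have h2 : ((bD V sd).1 c : Γ(VX V, (VF V).T)) * ((((bD V sd).1 c)⁻¹ : (Γ(VX V, (VF V).T))ˣ) :
    Γ(VX V, (VF V).T)) = 1 := Units.mul_inv _
  linear_combination (-(ro ((VF V).le c) (lj V sd a i c) * ((dJ V sd j n).1 c : Γ(VX V, (VF V).T)))) *
    h2

end Div

variable {j : ℤ} {κ : Bool}

lemma eK_mem (D : LMd sd V.G a) (j : ℤ) :
    mon (M := rhM D) 0 (eK κ) ∈ dgL (rhM D) (j - j) := by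
  intro e he
  rw [← co_mon_ne he]
  exact ⟨fun i => le_rfl, by simp⟩

/-- The annihilator of a section over a chart. -/
lemma fr_smul_zeroJ {M : CM V.G sd a} {k : Fin 3}
    {s : Γ(til (NV M) j, (VF V).U (kp sd k))} {l : LM M} (ha : a 0 = 1)
    {n : ℤ} (hl : l ∈ dgL M n) {e : Ex} (h : Rep V s (shL e l)) {r : ℕ} {z : RF V.G}
    (hz : z ∈ rg V.G (r * 1)) (h0 : fU V (kp sd k) r z hz • s = 0) : z • l = 0 := by
  have hm : z • l ∈ dgL M ((r * 1 : ℕ) + n) := smulR_mem hz hl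
  refine rep_zero V ha ⟨k, Finset.mem_singleton_self k⟩ (U_one V k) (j := (r * 1 : ℕ) + n)
    (l := (z • l : LM M)) (fun e he => ⟨fun i _ => (hm e he).1 i, (hm e he).2⟩) ?_
  intro x hx
  have h1 := congrArg (fun s => vl s x hx) h0
  rw [vl_smul, h x hx, fU, fv_fr, mk_smul_mk', vl_zero, ← LocalizedModule.zero_mk 1,
    LocalizedModule.mk_eq] at h1
  obtain ⟨u, hu⟩ := h1
  rw [← LocalizedModule.zero_mk 1, LocalizedModule.mk_eq]
  refine ⟨u, ?_⟩
  change (u : RF V.G) • (1 : RF V.G) • (z • shL e l : LM M) =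
    (u : RF V.G) • (gg V (kp sd k) ^ r * 1) • (0 : LM M) at hu
  change (u : RF V.G) • (1 : RF V.G) • (z • l : LM M) = (u : RF V.G) • (1 : RF V.G) • (0 : LM M)
  rw [one_smul, smul_zero, smul_zero] at hu
  rw [one_smul, smul_zero, smul_zero]
  have h2 : shL e (u • z • l) = (u : RF V.G) • z • shL e l :=
    ((shG M e).map_smul (u : RF V.G) (z • l)).trans (congrArg _ ((shG M e).map_smul z l))
  apply shL_inj M e
  change shL e (u • z • l) = shL e 0
  rw [h2, hu]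
  exact (co_ext fun x => rfl)

/-- The equations of the fibre kill the generator. -/
lemma mJ_comp (ha : a 0 = 1) {D : LMd sd V.G a}
    {φ : Frame.lb (dJ V sd j 0) ⟶ til (NV (rhM D)) j}
    (hφ : HRep V j φ (mon (M := rhM D) 0 (eK κ))) {i : Fin 3}
    {m : Frame.lb (dJ V sd j 1) ⟶ Frame.lb (dJ V sd j 0)}
    (hm : ∀ c, ap m _ (Frame.lbE (dJ V sd j 1) c) =
      lj V sd a i c • Frame.lbE (dJ V sd j 0) c) : m ≫ φ = 0 := by
  have h0 : ∀ k : Fin 3, shL ((0 : ℤ) • ue k) (0 : LM (rhM D)) = 0 := fun k => co_ext fun e => rfl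
  refine HRep.ext V ha (b := 0) (T := (0 : LM (rhM D))) (fun k => ?_) (fun k => ?_)
  · rw [h0, ap_comp, hm, map_smul]
    refine rep_fr (hφ k) _ ?_
    rw [et_smul ha, smul_zero]
  · rw [h0]
    exact rep_zero'

/-- The Koszul algebra over the charts meeting the fibre. -/
lemma kzA_chartJ {α β : ℂ} {D : LMd sd V.G (pt3 α β)}
    {φ : Frame.lb (dJ V sd j 0) ⟶ til (NV (rhM D)) j}
    (hφ : HRep V j φ (mon (M := rhM D) 0 (eK κ))) (k : Fin 3) :
    KzA Γ(VX V, (VF V).U (kp sd k)) Γ(til (NV (rhM D)) j, (VF V).U (kp sd k))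
      (lj V sd (pt3 α β) 1 (kp sd k)) (lj V sd (pt3 α β) 2 (kp sd k))
      (ap φ _ (Frame.lbE (dJ V sd j 0) (kp sd k))) := by
  have c1 : cq sd V k (lj V sd (pt3 α β) 1 (kp sd k)) =
      algebraMap P4 (QK sd V k) (MvPolynomial.X (s0 sd) - MvPolynomial.C α) := by
    rw [cq_lj, bvv_one]
    rfl
  have c2 : cq sd V k (lj V sd (pt3 α β) 2 (kp sd k)) =
      algebraMap P4 (QK sd V k) (MvPolynomial.X (s1 sd) - MvPolynomial.C β) := by
    rw [cq_lj, bvv_two]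
    rfl
  refine ⟨fun b h1 _ => ?_, fun b c h => ?_, fun r h => ?_⟩
  · have h2 := congrArg (cq sd V k) h1
    rw [map_mul, map_zero, c1] at h2
    have h3 := kq1 _ h2
    exact (cq sd V k).injective (by rw [h3, map_zero])
  · have h2 := congrArg (cq sd V k) h
    rw [map_mul, map_mul, c1, c2] at h2
    obtain ⟨q, h3, h4⟩ := kq2 (s1_ne sd) _ _ h2
    refine ⟨(cq sd V k).symm q, ?_, ?_⟩
    · apply (cq sd V k).injective
      rw [map_mul, RingEquiv.apply_symm_apply, c1, h3]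
    · apply (cq sd V k).injective
      rw [map_mul, RingEquiv.apply_symm_apply, c2, h4]
  · obtain ⟨n, z, hz, hr⟩ := exists_fr (gg_mem V (kp sd k)) one_pos r
    have hr' : r = fU V (kp sd k) n z hz := hr.symm
    subst hr'
    have h1 := fr_smul_zeroJ (pt3_zero α β) (eK_mem D j) (hφ k) hz h
    obtain ⟨h2, h3⟩ := ann_K (B := P4) D κ z h1 (fvv sd k)
    have h4 := (mul_eq_zero.1 h3).resolve_right (lin_fvv sd (LK_ne D κ) k)
    have h5 : cq sd V k (fU V (kp sd k) n z hz) =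
        ⟨evX sd (bvv sd) (fvv sd k) z.re, evX sd (bvv sd) (fvv sd k) z.im⟩ :=
      cq_fr sd V k n z hz
    obtain ⟨b, c, hbc⟩ := kq3 (f := fch V (kp sd k).1 (kp sd k).2) (s := s0 sd) (t := s1 sd) α β
      (r := ⟨evX sd (bvv sd) (fvv sd k) z.re, evX sd (bvv sd) (fvv sd k) z.im⟩)
      (by rw [sbs_evX]; exact h2) (by rw [sbs_evX]; exact h4)
    refine ⟨(cq sd V k).symm b, (cq sd V k).symm c, ?_⟩
    apply (cq sd V k).injective
    rw [map_sub, map_mul, map_mul, RingEquiv.apply_symm_apply, RingEquiv.apply_symm_apply, c1, c2,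
      h5, hbc]

/-- The resolution. -/
theorem exists_resJ {α β : ℂ} (D : LMd sd V.G (pt3 α β)) (κ : Bool) (j : ℤ) :
    ∃ (φ : Frame.lb (dJ V sd j 0) ⟶ til (NV (rhM D)) j) (S : ShortComplex (VX V).Modules),
      HRep V j φ (mon (M := rhM D) 0 (eK κ)) ∧ S.ShortExact ∧
      S.X₁ = Frame.lb (dJ V sd j 2) ∧ S.X₂ = (Frame.lb (dJ V sd j 1) ⊞ Frame.lb (dJ V sd j 1)) ∧
      S.X₃ = kernel φ := by
  obtain ⟨φ, hφ⟩ := exists_homR V (pt3_zero α β) (shD_dJ V sd j 0) (eK_mem (κ := κ) D j)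
  obtain ⟨m, hm⟩ : ∃ m : Frame.lb (dJ V sd j 1) ⟶ Frame.lb (dJ V sd j 0),
    ∀ c, ap m _ (Frame.lbE (dJ V sd j 1) c) = lj V sd (pt3 α β) 1 c • Frame.lbE (dJ V sd j 0) c :=
    exists_mJ V sd (pt3 α β) 1 j 0
  obtain ⟨m', hm'⟩ : ∃ m : Frame.lb (dJ V sd j 1) ⟶ Frame.lb (dJ V sd j 0),
    ∀ c, ap m _ (Frame.lbE (dJ V sd j 1) c) = lj V sd (pt3 α β) 2 c • Frame.lbE (dJ V sd j 0) c :=
    exists_mJ V sd (pt3 α β) 2 j 0
  obtain ⟨n, hn⟩ : ∃ m : Frame.lb (dJ V sd j 2) ⟶ Frame.lb (dJ V sd j 1),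
    ∀ c, ap m _ (Frame.lbE (dJ V sd j 2) c) = lj V sd (pt3 α β) 1 c • Frame.lbE (dJ V sd j 1) c :=
    exists_mJ V sd (pt3 α β) 1 j 1
  obtain ⟨n', hn'⟩ : ∃ m : Frame.lb (dJ V sd j 2) ⟶ Frame.lb (dJ V sd j 1),
    ∀ c, ap m _ (Frame.lbE (dJ V sd j 2) c) = lj V sd (pt3 α β) 2 c • Frame.lbE (dJ V sd j 1) c :=
    exists_mJ V sd (pt3 α β) 2 j 1
  have hloc : ∀ x : VX V, ∃ (U W : (VX V).Opens) (hW : W ≤ U) (e₀ : Γ(Frame.lb (dJ V sd j 0), U))
      (e₁ : Γ(Frame.lb (dJ V sd j 1), U)) (e₂ : Γ(Frame.lb (dJ V sd j 2), U))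
      (l l' : Γ(VX V, U)), x ∈ W ∧ IsAffineOpen W ∧ IsGen e₀ ∧ IsGen e₁ ∧ IsGen e₂ ∧
      QCOn (til (NV (rhM D)) j) W ∧
      ap m U e₁ = l • e₀ ∧ ap m' U e₁ = l' • e₀ ∧ ap n U e₂ = l • e₁ ∧ ap n' U e₂ = l' • e₁ ∧
      KzA Γ(VX V, W) Γ(til (NV (rhM D)) j, W) (ro hW l) (ro hW l')
        (ap φ W (rs (Frame.lb (dJ V sd j 0)) hW e₀)) := by
    intro x
    obtain ⟨c, hc⟩ := (VF V).cover x
    by_cases h1 : x ∈ DD (rg V.G) (et V sd (pt3 α β) 1 (kx sd c))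
    · refine ⟨(VF V).U c, (VX V).basicOpen (lj V sd (pt3 α β) 1 c), (VX V).basicOpen_le _, _, _, _,
        lj V sd (pt3 α β) 1 c, lj V sd (pt3 α β) 2 c, ?_, ((AV V).aff c).basicOpen _,
        Frame.isGen_lbE _ c, Frame.isGen_lbE _ c, Frame.isGen_lbE _ c, qcOn_til _ _ _, hm c, hm' c,
        hn c, hn' c, kzA_unit_left (isUnit_ro_basicOpen _)⟩
      rw [lj_basicOpen]
      exact ⟨hc, h1⟩
    by_cases h2 : x ∈ DD (rg V.G) (et V sd (pt3 α β) 2 (kx sd c))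
    · refine ⟨(VF V).U c, (VX V).basicOpen (lj V sd (pt3 α β) 2 c), (VX V).basicOpen_le _, _, _, _,
        lj V sd (pt3 α β) 1 c, lj V sd (pt3 α β) 2 c, ?_, ((AV V).aff c).basicOpen _,
        Frame.isGen_lbE _ c, Frame.isGen_lbE _ c, Frame.isGen_lbE _ c, qcOn_til _ _ _, hm c, hm' c,
        hn c, hn' c, kzA_unit_right (isUnit_ro_basicOpen _)⟩
      rw [lj_basicOpen]
      exact ⟨hc, h2⟩
    · refine ⟨(VF V).U (kp sd (kx sd c)), (VF V).U (kp sd (kx sd c)), le_rfl, _, _, _,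
        lj V sd (pt3 α β) 1 _, lj V sd (pt3 α β) 2 _, mem_chart hc h1 h2, (AV V).aff _,
        Frame.isGen_lbE _ _, Frame.isGen_lbE _ _, Frame.isGen_lbE _ _, qcOn_til _ _ _, hm _, hm' _,
        hn _, hn' _, ?_⟩
      rw [ro_refl, ro_refl, rs_refl]
      exact kzA_chartJ hφ _
  have hnm : n ≫ m' = n' ≫ m := by
    apply Frame.lb_ext
    intro c
    rw [ap_comp, ap_comp, hn, hn', map_smul, map_smul, hm, hm', smul_smul, smul_smul, mul_comm]
  obtain ⟨S, hS, h1, h2, h3⟩ := koszul_res m m' n n' φ (mJ_comp (pt3_zero α β) hφ hm)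
    (mJ_comp (pt3_zero α β) hφ hm') hloc hnm
  exact ⟨φ, S, hφ, hS, h1, h2, h3⟩

end

end Run7.h164
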