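import Pool.Agent.Run7.h164.KG

set_option autoImplicit false
set_option linter.unusedVariables false
set_option linter.unusedSectionVars false

/-!
Euler characteristics between modules of pairs of lines and line bundles.
-/

open CategoryTheory Limits TopologicalSpace AlgebraicGeometry Opposite Pretriangulated
open Module

namespace Run7.h164

noncomputable section

set_option backward.isDefEq.respectTransparency false

open Pool.Agent.W506 Pool.Agent.N212
open Pool.Agent.R924 (DD Frame sg DCoh CohAll)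

attribute [local instance] HasDerivedCategory.standard

variable {V : Verra} {sd : Bool}

/-- The Euler characteristics of line bundles. -/
lemma eu_OL {p q : ℤ} (hp : -1 ≤ p) (hq : -1 ≤ q) (a b : ℤ) :
    4 * eu (sg (OL V a b)) (sg (LS V 1 p q)) =
      (p - a + 1) * (p - a + 2) * (q - b + 1) * (q - b + 2) +
      (p - a) * (p - a + 1) * (q - b) * (q - b + 1) := by
  obtain ⟨e⟩ := exists_sgIso (V := V) a b
  rw [eu_iso_left e, eu_lines hp hq]

lemma fe_LSr {p q : ℤ} (hp : -1 ≤ p) (hq : -1 ≤ q) {N : (VX V).Modules} (h : CohAll N) :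
    FE (sg N) (sg (LS V 1 p q)) := fe_line (dCoh_sg h) 1 hp hq

/-- The bracket. -/
lemma br_dJ {p q : ℤ} (hp : -1 ≤ p) (hq : -1 ≤ q) (sd : Bool) (j : ℤ) :
    eu (sg (Frame.lb (dJ V sd j 0))) (sg (LS V 1 p q)) -
      2 * eu (sg (Frame.lb (dJ V sd j 1))) (sg (LS V 1 p q)) +
      eu (sg (Frame.lb (dJ V sd j 2))) (sg (LS V 1 p q)) = ((dD sd p q) - j + 1) ^ 2 := by
  cases sd
  · have e0 := eu_OL (V := V) hp hq (-0) j
    have e1 := eu_OL (V := V) hp hq (-1) j
    have e2 := eu_OL (V := V) hp hq (-2) j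
    change eu (sg (OL V (-0) j)) (sg (LS V 1 p q)) - 2 * eu (sg (OL V (-1) j)) (sg (LS V 1 p q)) +
      eu (sg (OL V (-2) j)) (sg (LS V 1 p q)) = (q - j + 1) ^ 2
    nlinarith [e0, e1, e2]
  · have e0 := eu_OL (V := V) hp hq j (-0)
    have e1 := eu_OL (V := V) hp hq j (-1)
    have e2 := eu_OL (V := V) hp hq j (-2)
    change eu (sg (OL V j (-0))) (sg (LS V 1 p q)) - 2 * eu (sg (OL V j (-1))) (sg (LS V 1 p q)) +
      eu (sg (OL V j (-2))) (sg (LS V 1 p q)) = (p - j + 1) ^ 2
    nlinarith [e0, e1, e2]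

/-- The Euler characteristics of modules of pairs of lines against line bundles. -/
theorem eu_rl {α β : ℂ} (D : LMd sd V.G (pt3 α β)) {p q : ℤ} (hp : -1 ≤ p) (hq : -1 ≤ q) (j : ℤ) :
    eu (tS (rhM D) j) (sg (LS V 1 p q)) = (dD sd p q - j) * (dD sd p q - j + 1) := by
  have fe : ∀ {N : (VX V).Modules}, CohAll N → FE (sg N) (sg (LS V 1 p q)) :=
    fun h => fe_LSr hp hq h
  have s0 := eu_sum D fe j
  have s1 := eu_sum D fe (j - 1)
  have s2 := eu_sum D fe (j - 2)
  have t := eu_third D fe j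
  rw [br_dJ hp hq] at s0 s1 s2
  rw [show j - 1 - 1 = j - 2 by ring] at s1
  rw [show j - 2 - 1 = j - 3 by ring] at s2
  generalize eu (tS (rhM D) j) (sg (LS V 1 p q)) = m0 at *
  generalize eu (tS (rhM D) (j - 1)) (sg (LS V 1 p q)) = m1 at *
  generalize eu (tS (rhM D) (j - 2)) (sg (LS V 1 p q)) = m2 at *
  generalize eu (tS (rhM D) (j - 3)) (sg (LS V 1 p q)) = m3 at *
  generalize dD sd p q = r at *
  have h8 : 8 * m0 = 8 * ((r - j) * (r - j + 1)) := by
    linear_combination 7 * s0 - 4 * s1 + s2 + t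
  linarith

end

end Run7.h164
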