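import Pool.Agent.Run7.h164.KV

set_option autoImplicit false
set_option linter.unusedVariables false
set_option linter.unusedSectionVars false

/-!
The pairing between objects over points of the two planes.
-/

open CategoryTheory Limits TopologicalSpace AlgebraicGeometry Opposite Pretriangulated
open Module

namespace Run7.h164

noncomputable section

set_option backward.isDefEq.respectTransparency false

open Pool.Agent.W506 Pool.Agent.N212
open Pool.Agent.R924 (DD Frame sg DCoh CohAll IsGen fr exists_fr)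
open Pool.Agent.W456 (stD stalkF)

attribute [local instance] HasDerivedCategory.standard

variable {V : Verra} {sd : Bool} {a : Fin 3 → ℂ}

lemma aB_one {M : CM V.G sd a} (l : LM M) : aB (1 : Bi) l = l := by
  change (actB M 1 _ : Ex →₀ M.C) = l
  rw [map_one]
  rfl

/-- The square root. -/
def om (V : Verra) : RF V.G := ⟨0, 1⟩

lemma om_mem : om V ∈ rg V.G (1 * 1) :=
  ⟨zero_mem _, (SetLike.GradedOne.one_mem : (1 : Bi) ∈ bg 0)⟩

lemma om_smul {M : CM V.G sd a} (l : LM M) : om V • l = aW l := by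
  rw [smulR_def]
  change aB 0 l + aB 1 (aW l) = aW l
  rw [aB_zero, aB_one, zero_add]

/-- The linear form of a pair of lines. -/
def Lt (V : Verra) (sd : Bool) (L : Fin 3 → ℂ) : RF V.G :=
  ∑ k, algebraMap ℂ (RF V.G) (L k) * gg V (ch sd 0 k)

lemma Lt_mem (L : Fin 3 → ℂ) : Lt V sd L ∈ rg V.G (1 * 1) := by
  refine sum_mem fun k _ => ?_
  have h1 : algebraMap ℂ (RF V.G) (L k) * gg V (ch sd 0 k) ∈ rg V.G (0 + 1) :=
    SetLike.mul_mem_graded (by
      have := algebraMap_mem_zero V (L k)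
      rwa [zero_mul] at this) (gg_mem V _)
  rwa [zero_add] at h1

lemma Lt_smul (ha : a 0 = 1) {M : CM V.G sd a} (L : Fin 3 → ℂ) (e : Ex) (v : M.C) :
    Lt V sd L • mon (M := M) e v = ∑ k, mon (ue k + e) (L k • v) := by
  rw [Lt, Finset.sum_smul]
  refine Finset.sum_congr rfl fun k _ => ?_
  rw [mul_smul, gg_smul, ha, one_smul, shL_mon, algebraMap_smulL, mon_smul]

lemma Lt_om (ha : a 0 = 1) (D : LMd sd V.G a) (e : Ex) :
    Lt V sd D.L • mon (M := rhM D) e ((1, 0) : ℂ × ℂ) =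
      om V • mon (M := rhM D) e ((0, 1) : ℂ × ℂ) := by
  rw [Lt_smul ha, om_smul, aW_mon]
  refine Finset.sum_congr rfl fun k _ => ?_
  congr 1
  rw [rhM_E]
  refine Prod.ext ?_ ?_
  · rfl
  · change D.L k * 0 = D.M k * 0
    rw [mul_zero, mul_zero]

lemma ch_swap (k : Fin 3) : ch sd 0 k = ch (!sd) k 0 := by
  cases sd <;> rfl

/-- The position of the common points of two fibres. -/
lemma mem_common (ha : a 0 = 1) {q : Fin 3 → ℂ} (hq : q 0 = 1) {L : Fin 3 → ℂ}
    (hL : ∑ k, L k * q k ≠ 0) {z : VX V} (hz : z ∉ WP V sd a) (hz' : z ∉ WP V (!sd) q) :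
    z ∈ (VF V).U (kp sd 0) ∧ z ∈ DD (rg V.G) (Lt V sd L) := by
  set I := (show ProjectiveSpectrum (rg V.G) from z).asHomogeneousIdeal.toIdeal with hI
  have h1 : ∀ k, gg V (ch sd 0 k) - algebraMap ℂ (RF V.G) (q k) * gg V (ch sd 0 0) ∈ I := by
    intro k
    have h := notMem_WP hz' k 0
    have h00 : gg V (ch (!sd) 0 0) = gg V (ch sd 0 0) := by
      cases sd <;> rfl
    rwa [et, ← ch_swap, h00] at h
  have h0 : gg V (ch sd 0 0) ∉ I := by
    intro h
    have h2 : ∀ k, gg V (ch sd 0 k) ∈ I := fun k => by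
      have := I.add_mem (h1 k) (I.mul_mem_left (algebraMap ℂ (RF V.G) (q k)) h)
      rwa [sub_add_cancel] at this
    obtain ⟨j, hj⟩ := gg_cov V z
    obtain ⟨i, k, rfl⟩ := exists_ch sd j
    apply hj
    have h3 := I.add_mem (notMem_WP hz i k) (I.mul_mem_left (algebraMap ℂ (RF V.G) (a i)) (h2 k))
    rwa [et, sub_add_cancel] at h3
  refine ⟨h0, fun h => h0 ?_⟩
  have h2 : algebraMap ℂ (RF V.G) (∑ k, L k * q k) * gg V (ch sd 0 0) ∈ I := by
    have h3 : algebraMap ℂ (RF V.G) (∑ k, L k * q k) * gg V (ch sd 0 0) = Lt V sd L -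
        ∑ k, algebraMap ℂ (RF V.G) (L k) *
          (gg V (ch sd 0 k) - algebraMap ℂ (RF V.G) (q k) * gg V (ch sd 0 0)) := by
      rw [Lt, ← Finset.sum_sub_distrib, map_sum, Finset.sum_mul]
      refine Finset.sum_congr rfl fun k _ => ?_
      rw [map_mul]
      ring
    rw [h3]
    exact I.sub_mem h (sum_mem fun k _ => I.mul_mem_left _ (h1 k))
  have h4 := I.mul_mem_left (algebraMap ℂ (RF V.G) (∑ k, L k * q k)⁻¹) h2
  rwa [← mul_assoc, ← map_mul, inv_mul_cancel₀ hL, map_one, one_mul] at h4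

/-- The generator generates near the common points of two fibres. -/
lemma isZero_coker (ha : a 0 = 1) (D : LMd sd V.G a) {q : Fin 3 → ℂ} (hq : q 0 = 1)
    (hL : ∑ k, D.L k * q k ≠ 0) {φ : Frame.lb (dl V sd 0) ⟶ til (NV (rhM D)) (-1)}
    (hφ : HRep V (-1) φ (mon (M := rhM D) 0 ((0, 1) : ℂ × ℂ))) {z : VX V}
    (hz : z ∉ WP V (!sd) q) : IsZero ((stalkF (VX V) z).obj (cokernel φ)) := by
  apply isZero_stalk_cokernel
  intro U hU s
  by_cases hz1 : z ∈ WP V sd a
  · obtain ⟨i, k, hik⟩ := mem_WP.1 hz1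
    refine ⟨U ⊓ DD (rg V.G) (et V sd a i k), inf_le_left, ⟨hU, hik⟩, 0, ?_⟩
    rw [map_zero]
    exact (til_zero_on (et_smul ha i k) inf_le_right _).symm
  obtain ⟨hz0, hzL⟩ := mem_common ha hq hL hz1 hz
  let fL : Γ(VX V, (VF V).U (kp sd 0)) := fU V (kp sd 0) 1 (Lt V sd D.L) (Lt_mem _)
  let fo : Γ(VX V, (VF V).U (kp sd 0)) := fU V (kp sd 0) 1 (om V) om_mem
  have hfL : (VX V).basicOpen fL = (VF V).U (kp sd 0) ⊓ DD (rg V.G) (Lt V sd D.L) :=
    Pool.Agent.R924.basicOpen_fr _ _ _ _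
  have haff := (AV V).aff (kp sd 0)
  obtain ⟨f, hle, hzf⟩ := haff.exists_basicOpen_le (V := U ⊓ (VX V).basicOpen fL)
    ⟨z, hU, by rw [hfL]; exact ⟨hz0, hzL⟩⟩ hz0
  have hq' : QCOn (til (NV (rhM D)) (-1)) ((VF V).U (kp sd 0)) := qcOn_til _ _ _
  obtain ⟨n, t, ht⟩ := hq'.ext _ haff le_rfl f (rs _ (hle.trans inf_le_left) s)
  let N : Submodule Γ(VX V, (VF V).U (kp sd 0)) Γ(til (NV (rhM D)) (-1), (VF V).U (kp sd 0)) :=
    { carrier := {t | ∃ y, ap φ ((VX V).basicOpen f) y = rs _ ((VX V).basicOpen_le f) t}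
      add_mem' := by
        rintro t t' ⟨y, hy⟩ ⟨y', hy'⟩
        exact ⟨y + y', by rw [map_add, map_add, hy, hy']⟩
      zero_mem' := ⟨0, by rw [map_zero, map_zero]⟩
      smul_mem' := by
        rintro c t ⟨y, hy⟩
        exact ⟨ro ((VX V).basicOpen_le f) c • y, by rw [map_smul, hy, rs_smul]⟩ }
  have hgen := gen_rep hφ (0 : Fin 3)
  have hneg : (-1 : ℤ) • ue 0 = -ue 0 := by rw [neg_smul, one_smul]
  have htN : t ∈ N := by
    refine span_chart (M := rhM D) ha 0
      (show Set (rhM D).C from ({((1, 0) : ℂ × ℂ), ((0, 1) : ℂ × ℂ)} : Set (ℂ × ℂ))) ?_ N ?_ t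
    · rw [eq_top_iff]
      rintro ⟨x, y⟩ -
      have h1 : ((x, y) : ℂ × ℂ) = x • ((1, 0) : ℂ × ℂ) + y • ((0, 1) : ℂ × ℂ) := by
        refine Prod.ext ?_ ?_
        · simp
        · simp
      have h2 : x • ((1, 0) : ℂ × ℂ) + y • ((0, 1) : ℂ × ℂ) ∈
          Submodule.span ℂ ({((1, 0) : ℂ × ℂ), ((0, 1) : ℂ × ℂ)} : Set (ℂ × ℂ)) :=
        add_mem (Submodule.smul_mem _ _ (Submodule.subset_span (by simp)))
          (Submodule.smul_mem _ _ (Submodule.subset_span (by simp)))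
      rw [← h1] at h2
      exact h2
    · intro v hv s' hs'
      rw [hneg] at hs'
      rcases hv with rfl | hv
      · obtain ⟨u, hu⟩ := (isUnit_ro_basicOpen fL).exists_left_inv
        have hle' : (VX V).basicOpen f ≤ (VX V).basicOpen fL := hle.trans inf_le_right
        have h1 : fL • s' = fo • ap φ _ (Frame.lbE (dl V sd 0) (kp sd 0)) := by
          refine fr_smul_eq hs' hgen _ _ ?_
          rw [shL_mon, add_zero]
          exact Lt_om ha D _
        have h2 := congrArg (rs _ ((VX V).basicOpen_le f)) h1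
        rw [rs_smul, rs_smul, ← ap_rs] at h2
        refine ⟨(ro hle' u * ro ((VX V).basicOpen_le f) fo) •
          rs _ ((VX V).basicOpen_le f) (Frame.lbE (dl V sd 0) (kp sd 0)), ?_⟩
        rw [map_smul, mul_smul, ← h2, smul_smul]
        have h3 := congrArg (ro hle') hu
        rw [map_mul, ro_ro, map_one] at h3
        rw [h3, one_smul]
      · have hv' : v = ((0, 1) : ℂ × ℂ) := hv
        subst hv'
        refine ⟨rs _ ((VX V).basicOpen_le f) (Frame.lbE (dl V sd 0) (kp sd 0)), ?_⟩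
        rw [ap_rs]
        congr 1
        refine Rep.ext V hgen ?_
        rw [shL_mon, add_zero]
        exact hs'
  obtain ⟨y, hy⟩ := htN
  obtain ⟨v, hv⟩ := (isUnit_ro_basicOpen f).exists_left_inv
  refine ⟨(VX V).basicOpen f, hle.trans inf_le_left, hzf, v ^ n • y, ?_⟩
  rw [map_smul, hy, ht, smul_smul, ← mul_pow, hv, one_pow, one_smul]

end

end Run7.h164
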