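import Pool.Agent.Run7.h164.KQ

set_option autoImplicit false
set_option linter.unusedVariables false
set_option linter.unusedSectionVars false

/-!
Euler characteristics of line bundles against modules of pairs of lines.
-/

open CategoryTheory Limits TopologicalSpace AlgebraicGeometry Opposite Pretriangulated
open Module

namespace Run7.h164

noncomputable section

set_option backward.isDefEq.respectTransparency false

open Pool.Agent.W506 Pool.Agent.N212
open Pool.Agent.R924 (DD Frame sg DCoh CohAll)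

attribute [local instance] HasDerivedCategory.standard

variable {V : Verra} {sd : Bool}

lemma eu_lr_base {α β : ℂ} (D : LMd sd V.G (pt3 α β)) {p q : ℤ} (hb : dD sd p q ≤ 1) :
    eu (sg (OL V p q)) (tS (rhM D) (-1)) = 2 * Nat.card (exS (-1 - dD sd p q)) := by
  have ha := pt3_zero α β
  have hδ : ShD V sd (xiD V ^ p * etD V ^ q) (dD sd p q) := shD_line V p q
  have e0 : eu (sg (OL V p q)) (tS (rhM D) (-1)) =
      finrank ℂ (sg (OL V p q) ⟶ (tS (rhM D) (-1))⟦(0 : ℤ)⟧) :=
    eu_of_zero fun i hi f => hom_til_eq_zero V ha hδ (by omega) hi f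
  rw [e0]
  have e1 := (hmE (sg (OL V p q)) (rhM D) (-1) 0).finrank_eq
  have e2 := ((lbH V (rhM D) (-1) ha hδ).trans (dgE V (rhM D) (-1 - dD sd p q))).finrank_eq
  have hfin := Fintype.ofFinite (exS (-1 - dD sd p q))
  have e3 : finrank ℂ (exS (-1 - dD sd p q) →₀ (rhM D).C) = Nat.card (exS (-1 - dD sd p q)) * 2 := by
    change finrank ℂ (exS (-1 - dD sd p q) →₀ (ℂ × ℂ)) = _
    rw [Module.finrank_finsupp, Module.finrank_prod, Module.finrank_self,
      Nat.card_eq_fintype_card]
  have e4 : finrank ℂ (sg (OL V p q) ⟶ (tS (rhM D) (-1))⟦(0 : ℤ)⟧) =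
      Nat.card (exS (-1 - dD sd p q)) * 2 := e1.symm.trans (e2.trans e3)
  rw [e4]
  push_cast
  ring

lemma fe_rh {α β : ℂ} (D : LMd sd V.G (pt3 α β)) {E : DerivedCategory (VX V).Modules}
    (hE : DCoh E) : FE E (tS (rhM D) (-1)) :=
  fe_dCoh (pt3_zero α β) (by norm_num) hE

lemma eu_lr_small {α β : ℂ} (D : LMd sd V.G (pt3 α β)) {p q : ℤ}
    (hb : dD sd p q = -1 ∨ dD sd p q = 0 ∨ dD sd p q = 1) :
    eu (sg (LS V 1 p q)) (tS (rhM D) (-1)) = dD sd p q * (dD sd p q - 1) := by
  obtain ⟨e⟩ := exists_sgIso (V := V) p q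
  rw [← eu_iso_left e, eu_lr_base D (by omega)]
  rcases hb with h | h | h
  · rw [h, show (-1 - -1 : ℤ) = 0 by norm_num, card_exS_zero]
    norm_num
  · rw [h, card_exS_lt (by norm_num)]
    norm_num
  · rw [h, card_exS_lt (by norm_num)]
    norm_num

/-- The Euler characteristics of line bundles against modules of pairs of lines. -/
theorem eu_lr {α β : ℂ} (D : LMd sd V.G (pt3 α β)) (p q : ℤ) :
    eu (sg (OL V p q)) (tS (rhM D) (-1)) = dD sd p q * (dD sd p q - 1) := by
  have hF : ∀ a b, FE (sg (LS V 1 a b)) (tS (rhM D) (-1)) := fun a b =>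
    fe_rh D (dCoh_sg (cohAll_LS a b))
  obtain ⟨e⟩ := exists_sgIso (V := V) p q
  rw [eu_iso_left e]
  cases sd
  · let g : ℤ → ℤ := fun q => eu (sg (LS V 1 p q)) (tS (rhM D) (-1)) - q * (q - 1)
    have hg : ∀ q, g q = eu (sg (LS V 1 p q)) (tS (rhM D) (-1)) - q * (q - 1) := fun q => rfl
    have key : ∀ q, g q = 0 := by
      refine third_unique (g := g) (fun b => ?_) (c := -1) ?_ ?_ ?_
      · have h := third_line hF true p b
        simp only [dx, dy, if_true, mul_one, mul_zero, sub_zero] at h
        rw [hg, hg, hg, hg]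
        linear_combination h
      · rw [hg, eu_lr_small D (Or.inl rfl)]
        exact sub_self _
      · rw [show (-1 + 1 : ℤ) = 0 by norm_num, hg, eu_lr_small D (Or.inr (Or.inl rfl))]
        exact sub_self _
      · rw [show (-1 + 2 : ℤ) = 1 by norm_num, hg, eu_lr_small D (Or.inr (Or.inr rfl))]
        exact sub_self _
    have := key q
    rw [hg] at this
    exact sub_eq_zero.1 this
  · let g : ℤ → ℤ := fun p => eu (sg (LS V 1 p q)) (tS (rhM D) (-1)) - p * (p - 1)
    have hg : ∀ p, g p = eu (sg (LS V 1 p q)) (tS (rhM D) (-1)) - p * (p - 1) := fun q => rfl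
    have key : ∀ p, g p = 0 := by
      refine third_unique (g := g) (fun b => ?_) (c := -1) ?_ ?_ ?_
      · have h := third_line hF false b q
        simp only [dx, dy, Bool.false_eq_true, if_false, mul_one, mul_zero, sub_zero] at h
        rw [hg, hg, hg, hg]
        linear_combination h
      · rw [hg, eu_lr_small D (Or.inl rfl)]
        exact sub_self _
      · rw [show (-1 + 1 : ℤ) = 0 by norm_num, hg, eu_lr_small D (Or.inr (Or.inl rfl))]
        exact sub_self _
      · rw [show (-1 + 2 : ℤ) = 1 by norm_num, hg, eu_lr_small D (Or.inr (Or.inr rfl))]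
        exact sub_self _
    have := key p
    rw [hg] at this
    exact sub_eq_zero.1 this

end

end Run7.h164
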