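import Pool.Agent.Run7.h164.KW

set_option autoImplicit false
set_option linter.unusedVariables false
set_option linter.unusedSectionVars false

/-!
Sections on charts; Euler characteristics of line bundles.
-/

open CategoryTheory Limits TopologicalSpace AlgebraicGeometry Opposite Pretriangulated
open Module

namespace Run7.h164

noncomputable section

set_option backward.isDefEq.respectTransparency false

open Pool.Agent.W506 Pool.Agent.N212
open Pool.Agent.R924 (DD Frame sg DCoh CohAll IsGen fr exists_fr)
open Pool.Agent.W456 (stD stalkF)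

attribute [local instance] HasDerivedCategory.standard

section Span

variable {V : Verra} {sd : Bool} {j : ℤ} {a : Fin 3 → ℂ} {M : CM V.G sd a}

/-- Generation on a chart. -/
theorem span_chart (ha : a 0 = 1) (k : Fin 3) (S : Set M.C) (hS : Submodule.span ℂ S = ⊤)
    (N : Submodule Γ(VX V, (VF V).U (kp sd k)) Γ(til (NV M) j, (VF V).U (kp sd k)))
    (hN : ∀ v ∈ S, ∀ s, Rep V s (mon (M := M) (j • ue k) v) → s ∈ N) (s) : s ∈ N := by
  classical
  have hin : ∀ c : M.C, InI V {k} j (mon (M := M) (j • ue k) c) := by
    intro c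
    refine inI_mon (fun i hi => ?_) ?_ c
    · change 0 ≤ j • ue k i
      rw [ue_ne hi, smul_zero]
    · have := sum_bue j k 0
      simpa using this
  choose g hg using fun c : M.C => exists_secL V ha (U_one V k) (hin c)
  -- coefficients
  have s1 : ∀ v : M.C, g v ∈ N := by
    intro v
    have hv : v ∈ Submodule.span ℂ S := by rw [hS]; trivial
    induction hv using Submodule.span_induction with
    | mem x hx => exact hN x hx _ (hg x)
    | zero =>
      have : g 0 = 0 := Rep.ext V (hg 0) (by rw [mon_zero]; exact rep_zero')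
      rw [this]
      exact zero_mem _
    | add x y _ _ hx hy =>
      have : g (x + y) = g x + g y := Rep.ext V (hg _) (by
        rw [mon_add]
        exact (hg x).add V (hg y))
      rw [this]
      exact add_mem hx hy
    | smul z x _ hx =>
      have : g (z • x) = ro (le_top : (VF V).U (kp sd k) ≤ ⊤) (kS V z) • g x := Rep.ext V (hg _) (by
        rw [mon_smul]
        exact rep_kS (hg x) z)
      rw [this]
      exact Submodule.smul_mem _ _ hx
  -- exponents
  have s2 : ∀ (n : ℕ) (e : Ex) (v : M.C), (∀ i, i ≠ k → 0 ≤ e i) → ∑ i, e i = j →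
      (∑ i, if i = k then 0 else e i) = n → ∀ s : Γ(til (NV M) j, (VF V).U (kp sd k)),
        Rep V s (mon (M := M) e v) → s ∈ N := by
    intro n
    induction n with
    | zero =>
      intro e v h1 h2 h3 s hs
      have h4 : ∀ i, i ≠ k → e i = 0 := by
        intro i hi
        have h5 := (Finset.sum_eq_zero_iff_of_nonneg (s := Finset.univ)
          (f := fun i => if i = k then 0 else e i) (fun i _ => by
            by_cases h : i = k
            · rw [if_pos h]
            · rw [if_neg h]
              exact h1 i h)).1 (by exact_mod_cast h3) i (Finset.mem_univ i)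
        rwa [if_neg hi] at h5
      have h5 : e = j • ue k := by
        funext i
        by_cases hi : i = k
        · subst hi
          rw [← h2, Finset.sum_eq_single i (fun l _ hl => h4 l hl) (fun h =>
            absurd (Finset.mem_univ _) h)]
          change e i = e i • ue i i
          rw [ue_same, smul_eq_mul, mul_one]
        · rw [h4 i hi]
          change 0 = j • ue k i
          rw [ue_ne hi, smul_zero]
      subst h5
      rw [Rep.ext V hs (hg v)]
      exact s1 v
    | succ n ih =>
      intro e v h1 h2 h3 s hs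
      obtain ⟨k', hk', hpos⟩ : ∃ k', k' ≠ k ∧ 0 < e k' := by
        by_contra! hc
        have h4 : ∑ i, (if i = k then 0 else e i) ≤ 0 := Finset.sum_nonpos fun i _ => by
          by_cases h : i = k
          · rw [if_pos h]
          · rw [if_neg h]
            exact hc i h
        rw [h3] at h4
        push_cast at h4
        omega
      let e' : Ex := -(ue k' - ue k) + e
      have he' : e = (ue k' - ue k) + e' := by
        change e = (ue k' - ue k) + (-(ue k' - ue k) + e)
        abel
      have v1 : ∀ i, e' i = -(ue k' i - ue k i) + e i := fun i => rfl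
      have g1 : ∀ i, i ≠ k → 0 ≤ e' i := by
        intro i hi
        rw [v1, ue_ne hi]
        by_cases h : i = k'
        · subst h
          rw [ue_same]
          omega
        · rw [ue_ne h]
          have := h1 i hi
          omega
      have g2 : ∑ i, e' i = j := by
        simp only [v1, Finset.sum_add_distrib, Finset.sum_neg_distrib, Finset.sum_sub_distrib,
          sum_ue]
        rw [h2]
        ring
      have g3 : (∑ i, if i = k then 0 else e' i) = n := by
        have h5 : ∀ i, (if i = k then 0 else e' i) = (if i = k then 0 else e i) - ue k' i := by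
          intro i
          by_cases h : i = k
          · subst h
            rw [if_pos rfl, if_pos rfl, ue_ne (Ne.symm hk')]
            ring
          · rw [if_neg h, if_neg h, v1, ue_ne h]
            ring
        simp only [h5, Finset.sum_sub_distrib, sum_ue]
        rw [h3]
        push_cast
        ring
      obtain ⟨s', hs'⟩ := exists_secL V ha (U_one V k) (inI_mon (M := M) g1 g2 v)
      have h6 : s = qf V (kp sd k) (kp sd k') • s' := Rep.ext V hs (by
        have h7 := rep_qf (k' := k') ha hs'
        rwa [shL_mon, ← he'] at h7)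
      rw [h6]
      exact Submodule.smul_mem _ _ (ih e' v g1 g2 g3 s' hs')
  obtain ⟨l, hl, hs⟩ := exists_rep V ha ⟨k, Finset.mem_singleton_self k⟩ (U_one V k) s
  -- decomposition
  have s3 : ∀ (T : Finset Ex) (f : Ex → M.C), (∀ e ∈ T, (∀ i, i ≠ k → 0 ≤ e i) ∧ ∑ i, e i = j) →
      ∃ t : Γ(til (NV M) j, (VF V).U (kp sd k)), Rep V t (∑ e ∈ T, mon (M := M) e (f e)) ∧
        t ∈ N := by
    intro T f
    induction T using Finset.induction_on with
    | empty =>
      intro _
      exact ⟨0, by rw [Finset.sum_empty]; exact rep_zero', zero_mem _⟩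
    | insert e T he ih =>
      intro hT
      obtain ⟨t, ht, htN⟩ := ih fun e' he' => hT e' (Finset.mem_insert_of_mem he')
      obtain ⟨h1, h2⟩ := hT e (Finset.mem_insert_self _ _)
      obtain ⟨t', ht'⟩ := exists_secL V ha (U_one V k) (inI_mon (M := M) h1 h2 (f e))
      refine ⟨t' + t, ?_, add_mem ?_ htN⟩
      · rw [Finset.sum_insert he]
        exact ht'.add V ht
      · have h3 : 0 ≤ ∑ i, if i = k then 0 else e i := Finset.sum_nonneg fun i _ => by
          by_cases h : i = k
          · rw [if_pos h]
          · rw [if_neg h]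
            exact h1 i h
        exact s2 _ e (f e) h1 h2 (Int.toNat_of_nonneg h3).symm t' ht'
  have h4 : l = ∑ e ∈ (show Ex →₀ M.C from l).support, mon (M := M) e (co l e) := by
    have := Finsupp.sum_single (show Ex →₀ M.C from l)
    exact this.symm
  obtain ⟨t, ht, htN⟩ := s3 (show Ex →₀ M.C from l).support (fun e => co l e) (by
    intro e he
    obtain ⟨h5, h6⟩ := hl e (Finsupp.mem_support_iff.1 he)
    exact ⟨fun i hi => h5 i fun h => hi (Finset.mem_singleton.1 h), h6⟩)
  rw [← h4] at ht
  rw [Rep.ext V hs ht]
  exact htN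

end Span

section Count

lemma exS_neg : exS (-1) = ∅ := by
  ext e
  simp only [Set.mem_empty_iff_false, iff_false]
  rintro ⟨h1, h2⟩
  have := Finset.sum_nonneg fun i (_ : i ∈ Finset.univ) => h1 i
  omega

lemma exS_zero : exS 0 = {0} := by
  ext e
  simp only [Set.mem_singleton_iff]
  constructor
  · rintro ⟨h1, h2⟩
    funext i
    exact (Finset.sum_eq_zero_iff_of_nonneg fun i _ => h1 i).1 h2 i (Finset.mem_univ i)
  · rintro rfl
    exact ⟨fun i => le_rfl, by simp⟩

lemma exS_one : exS 1 = {ue 0, ue 1, ue 2} := by
  ext e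
  simp only [Set.mem_insert_iff, Set.mem_singleton_iff]
  constructor
  · rintro ⟨h1, h2⟩
    rw [Fin.sum_univ_three] at h2
    have h0 := h1 0
    have h1' := h1 1
    have h2' := h1 2
    have key : ∀ k : Fin 3, e k = 1 → (∀ i, i ≠ k → e i = 0) → e = ue k := by
      intro k hk hi
      funext i
      by_cases h : i = k
      · subst h
        rw [hk, ue_same]
      · rw [hi i h, ue_ne h]
    by_cases c0 : e 0 = 1
    · left
      apply key 0 c0
      intro i hi
      fin_cases i
      · exact absurd rfl hi
      · change e 1 = 0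
        omega
      · change e 2 = 0
        omega
    by_cases c1 : e 1 = 1
    · right; left
      apply key 1 c1
      intro i hi
      fin_cases i
      · change e 0 = 0
        omega
      · exact absurd rfl hi
      · change e 2 = 0
        omega
    · right; right
      apply key 2 (by omega)
      intro i hi
      fin_cases i
      · change e 0 = 0
        omega
      · change e 1 = 0
        omega
      · exact absurd rfl hi
  · rintro (rfl | rfl | rfl)
    · exact ⟨ue_nonneg 0, sum_ue 0⟩
    · exact ⟨ue_nonneg 1, sum_ue 1⟩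
    · exact ⟨ue_nonneg 2, sum_ue 2⟩

lemma ue_inj {k l : Fin 3} (h : ue k = ue l) : k = l := by
  by_contra hne
  have h1 := congrFun h k
  rw [ue_same, ue_ne hne] at h1
  exact one_ne_zero h1

lemma card_exS_neg : Nat.card (exS (-1)) = 0 := by
  rw [exS_neg]
  simp

lemma card_exS_zero : Nat.card (exS 0) = 1 := by
  rw [exS_zero]
  simp

lemma card_exS_one : Nat.card (exS 1) = 3 := by
  have h01 : ue 0 ∉ ({ue 1, ue 2} : Set Ex) := by
    rintro (h | h)
    · exact absurd (ue_inj h) (by decide)
    · exact absurd (ue_inj h) (by decide)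
  have h12 : ue 1 ≠ ue 2 := fun h => absurd (ue_inj h) (by decide)
  rw [exS_one, Nat.card_coe_set_eq, Set.ncard_insert_of_notMem h01, Set.ncard_pair h12]

end Count

section Euler

variable {V : Verra} {sd : Bool}

lemma eu_of_zero {C : Type*} [Category C] [Preadditive C] [HasShift C ℤ] [Linear ℂ C] {E F : C}
    (h : ∀ i : ℤ, i ≠ 0 → ∀ f : E ⟶ F⟦i⟧, f = 0) : eu E F = finrank ℂ (E ⟶ F⟦(0 : ℤ)⟧) := by
  have h0 : ∀ i : ℤ, i ≠ 0 → (Int.negOnePow i : ℤ) * (finrank ℂ (E ⟶ F⟦i⟧) : ℤ) = 0 := by
    intro i hi
    have : Subsingleton (E ⟶ F⟦i⟧) := ⟨fun x y => (h i hi x).trans (h i hi y).symm⟩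
    rw [finrank_zero_of_subsingleton]
    simp
  rw [eu, chiZ, finsum_eq_single _ 0 h0]
  simp

/-- Euler characteristics of line bundles. -/
lemma eu_lb {q : Fin 3 → ℂ} (hq : q 0 = 1) {n : ℤ} (hn : -1 ≤ n) :
    eu (sg (Frame.lb (dl V sd n))) (tS (V8 V.G (!sd) q) (-1)) = 8 * Nat.card (exS (n - 1)) := by
  rw [eu_of_zero fun i hi f => hom_til_eq_zero V hq (shD_dl' V sd n) (by omega) hi f]
  have e1 := (hmE (sg (Frame.lb (dl V sd n))) (V8 V.G (!sd) q) (-1) 0).finrank_eq
  have e2 := ((lbH V (V8 V.G (!sd) q) (-1) hq (shD_dl' V sd n)).trans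
    (dgE V (V8 V.G (!sd) q) (-1 - -n))).finrank_eq
  have hfin := Fintype.ofFinite (exS (-1 - -n))
  have e3 : finrank ℂ (exS (-1 - -n) →₀ (V8 V.G (!sd) q).C) = Nat.card (exS (-1 - -n)) * 8 := by
    change finrank ℂ (exS (-1 - -n) →₀ (Fin 8 → ℂ)) = _
    rw [Module.finrank_finsupp, Module.finrank_fin_fun, Nat.card_eq_fintype_card]
  rw [← e1, e2, e3, show (-1 - -n : ℤ) = n - 1 by ring]
  push_cast
  ring

end Euler

end

end Run7.h164
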