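import Pool.Agent.Run7.h164.KZ

set_option autoImplicit false
set_option linter.unusedVariables false
set_option linter.unusedSectionVars false

/-!
Euler characteristics of objects over points of the two planes.
-/

open CategoryTheory Limits TopologicalSpace AlgebraicGeometry Opposite Pretriangulated
open Module

namespace Run7.h164

noncomputable section

set_option backward.isDefEq.respectTransparency false

open Pool.Agent.W506 Pool.Agent.N212
open Pool.Agent.R924 (DD Frame sg DCoh CohAll IsGen fr exists_fr)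
open Pool.Agent.W456 (stD stalkF)

attribute [local instance] HasDerivedCategory.standard

variable {V : Verra} {sd : Bool} {a : Fin 3 → ℂ}

lemma e2_mem (D : LMd sd V.G a) :
    mon (M := rhM D) 0 ((0, 1) : ℂ × ℂ) ∈ dgL (rhM D) (-1 - (-1)) := by
  intro e he
  rw [← co_mon_ne he]
  exact ⟨fun i => le_rfl, by simp⟩

lemma gen_rep {D : LMd sd V.G a} {φ : Frame.lb (dl V sd 0) ⟶ til (NV (rhM D)) (-1)}
    (hφ : HRep V (-1) φ (mon (M := rhM D) 0 ((0, 1) : ℂ × ℂ))) (k : Fin 3) :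
    Rep V (ap φ _ (Frame.lbE (dl V sd 0) (kp sd k)))
      (shL (-ue k) (mon (M := rhM D) 0 ((0, 1) : ℂ × ℂ))) := by
  have h := hφ k
  rwa [neg_smul, one_smul] at h

/-- The equations of the fibre kill the generator. -/
lemma mj_comp (ha : a 0 = 1) {D : LMd sd V.G a}
    {φ : Frame.lb (dl V sd 0) ⟶ til (NV (rhM D)) (-1)}
    (hφ : HRep V (-1) φ (mon (M := rhM D) 0 ((0, 1) : ℂ × ℂ))) {i : Fin 3}
    {m : Frame.lb (dl V sd 1) ⟶ Frame.lb (dl V sd 0)}
    (hm : ∀ j, ap m _ (Frame.lbE (dl V sd 1) j) = lj V sd a i j • Frame.lbE (dl V sd 0) j) :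
    m ≫ φ = 0 := by
  have h0 : ∀ k : Fin 3, shL ((0 : ℤ) • ue k) (0 : LM (rhM D)) = 0 := fun k => co_ext fun e => rfl
  refine HRep.ext V ha (b := 0) (T := (0 : LM (rhM D))) (fun k => ?_) (fun k => ?_)
  · rw [h0, ap_comp, hm, map_smul]
    refine rep_fr (gen_rep hφ k) _ ?_
    rw [et_smul ha, smul_zero]
  · rw [h0]
    exact rep_zero'

lemma fU_congr {j : Fin 3 × Fin 3} {r : ℕ} {z z' : RF V.G} {hz : z ∈ rg V.G (r * 1)}
    {hz' : z' ∈ rg V.G (r * 1)} (h : z = z') : fU V j r z hz = fU V j r z' hz' := by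
  subst h
  rfl

lemma cq_lj (i k : Fin 3) : cq sd V k (lj V sd a i (kp sd k)) =
    algebraMap P4 (QK sd V k) (bvv sd i - MvPolynomial.C (a i)) := by
  refine Eq.trans (congrArg _ ?_) (cq_et sd V a i k)
  exact fU_congr (by rw [kx_ch])

/-- The Koszul algebra over the charts meeting the fibre. -/
lemma kzA_chart {α β : ℂ} {D : LMd sd V.G (pt3 α β)}
    {φ : Frame.lb (dl V sd 0) ⟶ til (NV (rhM D)) (-1)}
    (hφ : HRep V (-1) φ (mon (M := rhM D) 0 ((0, 1) : ℂ × ℂ))) (k : Fin 3) :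
    KzA Γ(VX V, (VF V).U (kp sd k)) Γ(til (NV (rhM D)) (-1), (VF V).U (kp sd k))
      (lj V sd (pt3 α β) 1 (kp sd k)) (lj V sd (pt3 α β) 2 (kp sd k))
      (ap φ _ (Frame.lbE (dl V sd 0) (kp sd k))) := by
  have c1 : cq sd V k (lj V sd (pt3 α β) 1 (kp sd k)) =
      algebraMap P4 (QK sd V k) (MvPolynomial.X (s0 sd) - MvPolynomial.C α) := by
    rw [cq_lj, bvv_one]
    rfl
  have c2 : cq sd V k (lj V sd (pt3 α β) 2 (kp sd k)) =
      algebraMap P4 (QK sd V k) (MvPolynomial.X (s1 sd) - MvPolynomial.C β) := by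
    rw [cq_lj, bvv_two]
    rfl
  refine ⟨fun b h1 _ => ?_, fun b c h => ?_, fun r h => ?_⟩
  · have h2 := congrArg (cq sd V k) h1
    rw [map_mul, map_zero, c1] at h2
    have h3 := kq1 _ h2
    exact (cq sd V k).injective (by rw [h3, map_zero])
  · have h2 := congrArg (cq sd V k) h
    rw [map_mul, map_mul, c1, c2] at h2
    obtain ⟨q, h3, h4⟩ := kq2 (s1_ne sd) _ _ h2
    refine ⟨(cq sd V k).symm q, ?_, ?_⟩
    · apply (cq sd V k).injective
      rw [map_mul, RingEquiv.apply_symm_apply, c1, h3]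
    · apply (cq sd V k).injective
      rw [map_mul, RingEquiv.apply_symm_apply, c2, h4]
  · obtain ⟨n, z, hz, hr⟩ := exists_fr (gg_mem V (kp sd k)) one_pos r
    have hr' : r = fU V (kp sd k) n z hz := hr.symm
    subst hr'
    have h1 := fr_smul_zero (pt3_zero α β) (e2_mem D) (gen_rep hφ k) hz h
    obtain ⟨h2, h3⟩ := ann_e2 (B := P4) D z h1 (fvv sd k)
    have h4 := (mul_eq_zero.1 h3).resolve_right (lin_fvv sd (by
      by_contra! hc
      have := D.Lu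
      simp [hc] at this) k)
    have h5 : cq sd V k (fU V (kp sd k) n z hz) =
        ⟨evX sd (bvv sd) (fvv sd k) z.re, evX sd (bvv sd) (fvv sd k) z.im⟩ :=
      cq_fr sd V k n z hz
    obtain ⟨b, c, hbc⟩ := kq3 (f := fch V (kp sd k).1 (kp sd k).2) (s := s0 sd) (t := s1 sd) α β
      (r := ⟨evX sd (bvv sd) (fvv sd k) z.re, evX sd (bvv sd) (fvv sd k) z.im⟩)
      (by rw [sbs_evX]; exact h2) (by rw [sbs_evX]; exact h4)
    refine ⟨(cq sd V k).symm b, (cq sd V k).symm c, ?_⟩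
    apply (cq sd V k).injective
    rw [map_sub, map_mul, map_mul, RingEquiv.apply_symm_apply, RingEquiv.apply_symm_apply, c1, c2,
      h5, hbc]

/-- Points where both equations vanish. -/
lemma mem_chart {α β : ℂ} {x : VX V} {j : Fin 3 × Fin 3} (hj : x ∈ (VF V).U j)
    (h1 : x ∉ DD (rg V.G) (et V sd (pt3 α β) 1 (kx sd j)))
    (h2 : x ∉ DD (rg V.G) (et V sd (pt3 α β) 2 (kx sd j))) :
    x ∈ (VF V).U (kp sd (kx sd j)) := by
  obtain ⟨i, k, rfl⟩ := exists_ch sd j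
  rw [kx_ch] at h1 h2 ⊢
  by_contra hc
  set I := (show ProjectiveSpectrum (rg V.G) from x).asHomogeneousIdeal.toIdeal with hI
  have hc' : gg V (ch sd 0 k) ∈ I := by
    by_contra h
    exact hc h
  have h1' : et V sd (pt3 α β) 1 k ∈ I := by
    by_contra h
    exact h1 h
  have h2' : et V sd (pt3 α β) 2 k ∈ I := by
    by_contra h
    exact h2 h
  apply hj
  have key : ∀ i, et V sd (pt3 α β) i k ∈ I → gg V (ch sd i k) ∈ I := by
    intro i hi
    have := I.add_mem hi (I.mul_mem_left (algebraMap ℂ (RF V.G) (pt3 α β i)) hc')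
    rwa [et, sub_add_cancel] at this
  fin_cases i
  · exact hc'
  · exact key 1 h1'
  · exact key 2 h2'

/-- The resolution. -/
theorem exists_res {α β : ℂ} (D : LMd sd V.G (pt3 α β)) :
    ∃ (φ : Frame.lb (dl V sd 0) ⟶ til (NV (rhM D)) (-1)) (S : ShortComplex (VX V).Modules),
      HRep V (-1) φ (mon (M := rhM D) 0 ((0, 1) : ℂ × ℂ)) ∧ S.ShortExact ∧
      S.X₁ = Frame.lb (dl V sd 2) ∧ S.X₂ = (Frame.lb (dl V sd 1) ⊞ Frame.lb (dl V sd 1)) ∧
      S.X₃ = kernel φ := by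
  obtain ⟨φ, hφ⟩ := exists_homR V (pt3_zero α β) (shD_dl V sd 0) (e2_mem D)
  obtain ⟨m, hm⟩ : ∃ m : Frame.lb (dl V sd 1) ⟶ Frame.lb (dl V sd 0),
    ∀ j, ap m _ (Frame.lbE (dl V sd 1) j) = lj V sd (pt3 α β) 1 j • Frame.lbE (dl V sd 0) j :=
    exists_mj V sd (pt3 α β) 1 0
  obtain ⟨m', hm'⟩ : ∃ m : Frame.lb (dl V sd 1) ⟶ Frame.lb (dl V sd 0),
    ∀ j, ap m _ (Frame.lbE (dl V sd 1) j) = lj V sd (pt3 α β) 2 j • Frame.lbE (dl V sd 0) j :=
    exists_mj V sd (pt3 α β) 2 0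
  obtain ⟨n, hn⟩ : ∃ m : Frame.lb (dl V sd 2) ⟶ Frame.lb (dl V sd 1),
    ∀ j, ap m _ (Frame.lbE (dl V sd 2) j) = lj V sd (pt3 α β) 1 j • Frame.lbE (dl V sd 1) j :=
    exists_mj V sd (pt3 α β) 1 1
  obtain ⟨n', hn'⟩ : ∃ m : Frame.lb (dl V sd 2) ⟶ Frame.lb (dl V sd 1),
    ∀ j, ap m _ (Frame.lbE (dl V sd 2) j) = lj V sd (pt3 α β) 2 j • Frame.lbE (dl V sd 1) j :=
    exists_mj V sd (pt3 α β) 2 1
  have hloc : ∀ x : VX V, ∃ (U W : (VX V).Opens) (hW : W ≤ U) (e₀ : Γ(Frame.lb (dl V sd 0), U))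
      (e₁ : Γ(Frame.lb (dl V sd 1), U)) (e₂ : Γ(Frame.lb (dl V sd 2), U))
      (l l' : Γ(VX V, U)), x ∈ W ∧ IsAffineOpen W ∧ IsGen e₀ ∧ IsGen e₁ ∧ IsGen e₂ ∧
      QCOn (til (NV (rhM D)) (-1)) W ∧
      ap m U e₁ = l • e₀ ∧ ap m' U e₁ = l' • e₀ ∧ ap n U e₂ = l • e₁ ∧ ap n' U e₂ = l' • e₁ ∧
      KzA Γ(VX V, W) Γ(til (NV (rhM D)) (-1), W) (ro hW l) (ro hW l')
        (ap φ W (rs (Frame.lb (dl V sd 0)) hW e₀)) := by
    intro x
    obtain ⟨j, hj⟩ := (VF V).cover x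
    by_cases h1 : x ∈ DD (rg V.G) (et V sd (pt3 α β) 1 (kx sd j))
    · refine ⟨(VF V).U j, (VX V).basicOpen (lj V sd (pt3 α β) 1 j), (VX V).basicOpen_le _, _, _, _,
        lj V sd (pt3 α β) 1 j, lj V sd (pt3 α β) 2 j, ?_, ((AV V).aff j).basicOpen _,
        Frame.isGen_lbE _ j, Frame.isGen_lbE _ j, Frame.isGen_lbE _ j, qcOn_til _ _ _, hm j, hm' j,
        hn j, hn' j, kzA_unit_left (isUnit_ro_basicOpen _)⟩
      rw [lj_basicOpen]
      exact ⟨hj, h1⟩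
    by_cases h2 : x ∈ DD (rg V.G) (et V sd (pt3 α β) 2 (kx sd j))
    · refine ⟨(VF V).U j, (VX V).basicOpen (lj V sd (pt3 α β) 2 j), (VX V).basicOpen_le _, _, _, _,
        lj V sd (pt3 α β) 1 j, lj V sd (pt3 α β) 2 j, ?_, ((AV V).aff j).basicOpen _,
        Frame.isGen_lbE _ j, Frame.isGen_lbE _ j, Frame.isGen_lbE _ j, qcOn_til _ _ _, hm j, hm' j,
        hn j, hn' j, kzA_unit_right (isUnit_ro_basicOpen _)⟩
      rw [lj_basicOpen]
      exact ⟨hj, h2⟩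
    · refine ⟨(VF V).U (kp sd (kx sd j)), (VF V).U (kp sd (kx sd j)), le_rfl, _, _, _,
        lj V sd (pt3 α β) 1 _, lj V sd (pt3 α β) 2 _, mem_chart hj h1 h2, (AV V).aff _,
        Frame.isGen_lbE _ _, Frame.isGen_lbE _ _, Frame.isGen_lbE _ _, qcOn_til _ _ _, hm _, hm' _,
        hn _, hn' _, ?_⟩
      rw [ro_refl, ro_refl, rs_refl]
      exact kzA_chart hφ _
  have hnm : n ≫ m' = n' ≫ m := by
    apply Frame.lb_ext
    intro j
    rw [ap_comp, ap_comp, hn, hn', map_smul, map_smul, hm, hm', smul_smul, smul_smul, mul_comm]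
  obtain ⟨S, hS, h1, h2, h3⟩ := koszul_res m m' n n' φ (mj_comp (pt3_zero α β) hφ hm)
    (mj_comp (pt3_zero α β) hφ hm') hloc hnm
  exact ⟨φ, S, hφ, hS, h1, h2, h3⟩

end

end Run7.h164
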