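import Pool.Agent.Run7.h164.DS

set_option autoImplicit false
set_option linter.unusedVariables false
set_option linter.unusedSectionVars false

/-!
Koszul complexes of two sections on a scheme, tested on affine open sets.
-/

open CategoryTheory Limits TopologicalSpace AlgebraicGeometry Opposite Pretriangulated

namespace Run7.h164

noncomputable section

set_option backward.isDefEq.respectTransparency false

open Pool.Agent.W506 Pool.Agent.N212
open Pool.Agent.R924 (DD Frame sg DCoh CohAll IsGen)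

universe u

variable {X : Scheme.{u}}

/-- Exactness tested on affine open sets. -/
theorem exact_of_affine (S : ShortComplex X.Modules)
    (h : ∀ x : X, ∃ W : X.Opens, x ∈ W ∧ IsAffineOpen W ∧ QCOn S.X₂ W ∧ QCOn S.X₃ W ∧
      ∀ s : Γ(S.X₂, W), ap S.g W s = 0 → ∃ t, ap S.f W t = s) : S.Exact := by
  rw [S.exact_iff_epi_kernel_lift]
  apply epi_of_locally_surj
  intro V s x hx
  obtain ⟨W, hxW, hW, h2, h3, hex⟩ := h x
  obtain ⟨f, hle, hxf⟩ := hW.exists_basicOpen_le (V := V) ⟨x, hx⟩ hxW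
  let S' : ShortComplex X.Modules := ShortComplex.mk (kernel.ι S.g) S.g (kernel.condition S.g)
  have hS' : S'.Exact := ShortComplex.exact_of_f_is_kernel _ (kernelIsKernel S.g)
  have hq : QCOn (kernel S.g) W := qcOn_kernel S' hS' h2 h3
  obtain ⟨k, t, ht⟩ := hq.ext W hW le_rfl f (rs _ hle s)
  have h4 : ap S.g W (ap (kernel.ι S.g) W t) = 0 := by
    rw [← ap_comp, kernel.condition]
    rfl
  obtain ⟨y, hy⟩ := hex _ h4
  have h5 : ap (kernel.lift S.g S.f S.zero) W y = t := by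
    apply ap_injective (kernel.ι S.g)
    rw [← ap_comp, kernel.lift_ι, hy]
  obtain ⟨v, hv⟩ := (isUnit_ro_basicOpen f).exists_left_inv
  refine ⟨_, hle, hxf, v ^ k • rs S.X₁ (X.basicOpen_le f) y, ?_⟩
  rw [map_smul, ap_rs, h5, ht, smul_smul, ← mul_pow, hv, one_pow, one_smul]

theorem mono_of_affine {M N : X.Modules} (φ : M ⟶ N)
    (h : ∀ x : X, ∃ W : X.Opens, x ∈ W ∧ IsAffineOpen W ∧ QCOn M W ∧ QCOn N W ∧
      ∀ s : Γ(M, W), ap φ W s = 0 → s = 0) : Mono φ := by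
  let S : ShortComplex X.Modules := ShortComplex.mk (0 : M ⟶ M) φ zero_comp
  have hS : S.Exact := exact_of_affine S fun x => by
    obtain ⟨W, h1, h2, h3, h4, h5⟩ := h x
    exact ⟨W, h1, h2, h3, h4, fun s hs => ⟨0, by rw [map_zero, h5 s hs]⟩⟩
  exact (S.exact_iff_mono rfl).1 hS

/-- The algebra of the Koszul complex of two elements acting on a module generated by one
element. -/
structure KzA (R : Type u) [CommRing R] (A : Type u) [AddCommGroup A] [Module R A] (l l' : R)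
    (v : A) : Prop where
  r1 : ∀ b : R, l * b = 0 → l' * b = 0 → b = 0
  r2 : ∀ b c : R, l' * b = l * c → ∃ t, b = t * l ∧ c = t * l'
  r3 : ∀ r : R, r • v = 0 → ∃ b c, r = b * l' - c * l

lemma kzA_unit_left {R : Type u} [CommRing R] {A : Type u} [AddCommGroup A] [Module R A]
    {l l' : R} {v : A} (h : IsUnit l) : KzA R A l l' v := by
  obtain ⟨i, hi⟩ := h.exists_left_inv
  refine ⟨fun b h1 _ => ?_, fun b c h1 => ⟨i * b, ?_, ?_⟩, fun r _ => ⟨0, -(i * r), ?_⟩⟩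
  · calc b = i * (l * b) := by rw [← mul_assoc, hi, one_mul]
      _ = 0 := by rw [h1, mul_zero]
  · calc b = (i * l) * b := by rw [hi, one_mul]
      _ = i * b * l := by ring
  · calc c = (i * l) * c := by rw [hi, one_mul]
      _ = i * (l * c) := by ring
      _ = i * b * l' := by rw [← h1]; ring
  · calc r = (i * l) * r := by rw [hi, one_mul]
      _ = 0 * l' - -(i * r) * l := by ring

lemma kzA_unit_right {R : Type u} [CommRing R] {A : Type u} [AddCommGroup A] [Module R A]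
    {l l' : R} {v : A} (h : IsUnit l') : KzA R A l l' v := by
  obtain ⟨i, hi⟩ := h.exists_left_inv
  refine ⟨fun b _ h1 => ?_, fun b c h1 => ⟨i * c, ?_, ?_⟩, fun r _ => ⟨i * r, 0, ?_⟩⟩
  · calc b = i * (l' * b) := by rw [← mul_assoc, hi, one_mul]
      _ = 0 := by rw [h1, mul_zero]
  · calc b = (i * l') * b := by rw [hi, one_mul]
      _ = i * (l' * b) := by ring
      _ = i * c * l := by rw [h1]; ring
  · calc c = (i * l') * c := by rw [hi, one_mul]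
      _ = i * c * l' := by ring
  · calc r = (i * l') * r := by rw [hi, one_mul]
      _ = i * r * l' - 0 * l := by ring

/-- The Koszul resolution. -/
theorem koszul_res {L₀ L₁ L₂ A : X.Modules} (m m' : L₁ ⟶ L₀) (n n' : L₂ ⟶ L₁) (φ : L₀ ⟶ A)
    (hm : m ≫ φ = 0) (hm' : m' ≫ φ = 0)
    (hloc : ∀ x : X, ∃ (U W : X.Opens) (hW : W ≤ U) (e₀ : Γ(L₀, U)) (e₁ : Γ(L₁, U)) (e₂ : Γ(L₂, U))
      (l l' : Γ(X, U)), x ∈ W ∧ IsAffineOpen W ∧ IsGen e₀ ∧ IsGen e₁ ∧ IsGen e₂ ∧ QCOn A W ∧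
      ap m U e₁ = l • e₀ ∧ ap m' U e₁ = l' • e₀ ∧ ap n U e₂ = l • e₁ ∧ ap n' U e₂ = l' • e₁ ∧
      KzA Γ(X, W) Γ(A, W) (ro hW l) (ro hW l') (ap φ W (rs L₀ hW e₀))) (hnm : n ≫ m' = n' ≫ m) :
    ∃ (S : ShortComplex X.Modules), S.ShortExact ∧ S.X₁ = L₂ ∧ S.X₂ = (L₁ ⊞ L₁) ∧
      S.X₃ = kernel φ := by
  let f : L₂ ⟶ L₁ ⊞ L₁ := biprod.lift n n'
  let g₀ : L₁ ⊞ L₁ ⟶ L₀ := biprod.desc m' (-m)
  have hg₀ : g₀ ≫ φ = 0 := by
    apply biprod.hom_ext'
    · rw [← Category.assoc, biprod.inl_desc, hm', comp_zero]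
    · rw [← Category.assoc, biprod.inr_desc, Preadditive.neg_comp, hm, neg_zero, comp_zero]
  let g : L₁ ⊞ L₁ ⟶ kernel φ := kernel.lift φ g₀ hg₀
  have hgι : g ≫ kernel.ι φ = g₀ := kernel.lift_ι _ _ _
  have hfg₀ : f ≫ g₀ = 0 := by
    rw [biprod.lift_desc, Preadditive.comp_neg, hnm, add_neg_cancel]
  have hfg : f ≫ g = 0 := by
    rw [← cancel_mono (kernel.ι φ), Category.assoc, hgι, hfg₀, zero_comp]
  -- computations over an affine open set
  have key : ∀ x : X, ∃ W : X.Opens, x ∈ W ∧ IsAffineOpen W ∧ QCOn L₂ W ∧ QCOn (L₁ ⊞ L₁) W ∧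
      QCOn L₀ W ∧ QCOn A W ∧ (∀ s, ap f W s = 0 → s = 0) ∧
      (∀ s, ap g₀ W s = 0 → ∃ t, ap f W t = s) ∧ (∀ s, ap φ W s = 0 → ∃ t, ap g₀ W t = s) := by
    intro x
    obtain ⟨U, W, hW, e₀, e₁, e₂, l, l', hx, haff, g0, g1, g2, hq, hm1, hm2, hn1, hn2, hK⟩ := hloc x
    have q0 : QCOn L₀ W := g0.qcOn.mono hW
    have q1 : QCOn L₁ W := g1.qcOn.mono hW
    have q2 : QCOn L₂ W := g2.qcOn.mono hW
    have f1 : ∀ t : Γ(X, W), ap f W (t • rs L₂ hW e₂) =
        ap (biprod.inl : L₁ ⟶ L₁ ⊞ L₁) W ((t * ro hW l) • rs L₁ hW e₁) +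
        ap (biprod.inr : L₁ ⟶ L₁ ⊞ L₁) W ((t * ro hW l') • rs L₁ hW e₁) := by
      intro t
      have c1 : ap (biprod.fst : L₁ ⊞ L₁ ⟶ L₁) W (ap f W (t • rs L₂ hW e₂)) =
          (t * ro hW l) • rs L₁ hW e₁ := by
        rw [← ap_comp, biprod.lift_fst, (ap n W).map_smul, ap_rs, hn1, rs_smul, smul_smul]
      have c2 : ap (biprod.snd : L₁ ⊞ L₁ ⟶ L₁) W (ap f W (t • rs L₂ hW e₂)) =
          (t * ro hW l') • rs L₁ hW e₁ := by
        rw [← ap_comp, biprod.lift_snd, (ap n' W).map_smul, ap_rs, hn2, rs_smul, smul_smul]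
      rw [biprod_section (ap f W (t • rs L₂ hW e₂)), c1, c2]
    have f2 : ∀ b c : Γ(X, W), ap g₀ W (ap (biprod.inl : L₁ ⟶ L₁ ⊞ L₁) W (b • rs L₁ hW e₁) +
        ap (biprod.inr : L₁ ⟶ L₁ ⊞ L₁) W (c • rs L₁ hW e₁)) =
        (b * ro hW l' - c * ro hW l) • rs L₀ hW e₀ := by
      intro b c
      rw [map_add, ← ap_comp, ← ap_comp, biprod.inl_desc, biprod.inr_desc, (ap m' W).map_smul,
        ap_rs, hm2, rs_smul]
      have h1 : ap (-m) W (c • rs L₁ hW e₁) = -(ap m W (c • rs L₁ hW e₁)) := rfl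
      rw [h1, (ap m W).map_smul, ap_rs, hm1, rs_smul, smul_smul, smul_smul, sub_smul,
        sub_eq_add_neg]
    have hsec : ∀ s : Γ(L₁ ⊞ L₁, W), ∃ b c : Γ(X, W),
        s = ap (biprod.inl : L₁ ⟶ L₁ ⊞ L₁) W (b • rs L₁ hW e₁) +
        ap (biprod.inr : L₁ ⟶ L₁ ⊞ L₁) W (c • rs L₁ hW e₁) := by
      intro s
      obtain ⟨b, hb⟩ := g1.exists_smul hW (ap (biprod.fst : L₁ ⊞ L₁ ⟶ L₁) W s)
      obtain ⟨c, hc⟩ := g1.exists_smul hW (ap (biprod.snd : L₁ ⊞ L₁ ⟶ L₁) W s)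
      exact ⟨b, c, by rw [hb, hc, ← biprod_section]⟩
    have hz : ∀ b c : Γ(X, W), ap (biprod.inl : L₁ ⟶ L₁ ⊞ L₁) W (b • rs L₁ hW e₁) +
        ap (biprod.inr : L₁ ⟶ L₁ ⊞ L₁) W (c • rs L₁ hW e₁) = 0 → b = 0 ∧ c = 0 := by
      intro b c h
      have e1 := congrArg (ap (biprod.fst : L₁ ⊞ L₁ ⟶ L₁) W) h
      have e2 := congrArg (ap (biprod.snd : L₁ ⊞ L₁ ⟶ L₁) W) h
      simp only [map_add, ← ap_comp, biprod.inl_fst, biprod.inr_fst, biprod.inl_snd,
        biprod.inr_snd, ap_id, ap_zero, add_zero, zero_add, map_zero] at e1 e2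
      exact ⟨g1.smul_inj hW (by rw [e1, zero_smul]), g1.smul_inj hW (by rw [e2, zero_smul])⟩
    refine ⟨W, hx, haff, q2, qcOn_biprod q1 q1, q0, hq, ?_, ?_, ?_⟩
    · intro s hs
      obtain ⟨t, rfl⟩ := g2.exists_smul hW s
      rw [f1] at hs
      obtain ⟨h1, h2⟩ := hz _ _ hs
      rw [hK.r1 t (by rw [mul_comm, h1]) (by rw [mul_comm, h2]), zero_smul]
    · intro s hs
      obtain ⟨b, c, rfl⟩ := hsec s
      rw [f2] at hs
      have h1 : b * ro hW l' - c * ro hW l = 0 := g0.smul_inj hW (by rw [hs, zero_smul])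
      obtain ⟨t, h2, h3⟩ := hK.r2 b c (by rw [sub_eq_zero] at h1; rw [mul_comm, h1, mul_comm])
      exact ⟨t • rs L₂ hW e₂, by rw [f1, h2, h3]⟩
    · intro s hs
      obtain ⟨r, rfl⟩ := g0.exists_smul hW s
      rw [map_smul] at hs
      obtain ⟨b, c, h1⟩ := hK.r3 r hs
      exact ⟨_, by rw [f2 b c, ← h1]⟩
  have hmono : Mono f := mono_of_affine f fun x => by
    obtain ⟨W, h1, h2, h3, h4, h5, h6, h7, h8, h9⟩ := key x
    exact ⟨W, h1, h2, h3, h4, h7⟩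
  have hexact : (ShortComplex.mk f g hfg).Exact := exact_of_affine _ fun x => by
    obtain ⟨W, h1, h2, h3, h4, h5, h6, h7, h8, h9⟩ := key x
    let S' : ShortComplex X.Modules := ShortComplex.mk (kernel.ι φ) φ (kernel.condition φ)
    have hS' : S'.Exact := ShortComplex.exact_of_f_is_kernel _ (kernelIsKernel φ)
    refine ⟨W, h1, h2, h4, qcOn_kernel S' hS' h5 h6, fun s hs => h8 s ?_⟩
    have h10 : ap g₀ W s = ap (kernel.ι φ) W (ap g W s) := by rw [← ap_comp, hgι]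
    have h11 : ap g W s = 0 := hs
    rw [h10, h11, map_zero]
  have hepi : Epi g := by
    have h10 : (ShortComplex.mk g₀ φ hg₀).Exact := exact_of_affine _ fun x => by
      obtain ⟨W, h1, h2, h3, h4, h5, h6, h7, h8, h9⟩ := key x
      exact ⟨W, h1, h2, h5, h6, h9⟩
    exact (ShortComplex.exact_iff_epi_kernel_lift (ShortComplex.mk g₀ φ hg₀)).1 h10
  exact ⟨ShortComplex.mk f g hfg, { exact := hexact, mono_f := hmono, epi_g := hepi }, rfl, rfl, rfl⟩

end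

end Run7.h164
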