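import Pool.Agent.Run7.h164.KX

set_option autoImplicit false
set_option linter.unusedVariables false
set_option linter.unusedSectionVars false

/-!
The annihilator of the generator of the sheaf of a pair of lines.
-/

open CategoryTheory Limits TopologicalSpace AlgebraicGeometry Opposite Pretriangulated

namespace Run7.h164

noncomputable section

set_option backward.isDefEq.respectTransparency false

open Pool.Agent.W506 Pool.Agent.N212
open Pool.Agent.R924 (DD Frame sg DCoh CohAll IsGen fr exists_fr)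

section Ev

variable {B : Type} [CommRing B] [Algebra ℂ B]

/-- Evaluation seen from one of the two sides. -/
def evX (sd : Bool) (x y : Fin 3 → B) : Bi →ₐ[ℂ] B := if sd then evB y x else evB x y

lemma evX_single (sd : Bool) (x y : Fin 3 → B) (m : Gm) (c : ℂ) :
    evX sd x y (AddMonoidAlgebra.single m c) =
      c • ((∏ i, x i ^ (pm sd m).1 i) * ∏ i, y i ^ (pm sd m).2 i) := by
  cases sd
  · exact evB_single x y m c
  · refine (evB_single y x m c).trans ?_
    rw [mul_comm]
    rfl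

lemma Bi_induction {P : Bi → Prop} (h0 : P 0) (hadd : ∀ a b, P a → P b → P (a + b))
    (hs : ∀ m c, P (AddMonoidAlgebra.single m c)) (d : Bi) : P d := by
  have h1 : d = ∑ m ∈ d.coeff.support, (AddMonoidAlgebra.single m (d.coeff m) : Bi) := by
    have := AddMonoidAlgebra.sum_coeff_single d
    rw [Finsupp.sum] at this
    exact this.symm
  rw [h1]
  exact Finset.sum_induction _ P hadd h0 fun m _ => hs _ _

lemma map_evX {B' : Type} [CommRing B'] [Algebra ℂ B'] (φ : B →ₐ[ℂ] B') (sd : Bool)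
    (x y : Fin 3 → B) (d : Bi) :
    φ (evX sd x y d) = evX sd (fun i => φ (x i)) (fun i => φ (y i)) d := by
  induction d using Bi_induction with
  | h0 => rw [map_zero, map_zero, map_zero]
  | hadd a b ha hb => rw [map_add, map_add, map_add, ha, hb]
  | hs m c => rw [evX_single, evX_single, map_smul, map_mul, map_prod, map_prod]; simp only [map_pow]

variable {V : Verra} {sd : Bool} {a : Fin 3 → ℂ} {M : CM V.G sd a}

lemma aB_add (d d' : Bi) (l : LM M) : aB (d + d') l = aB d l + aB d' l := by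
  change (actB M (d + d') _ : Ex →₀ M.C) = _
  rw [map_add]
  rfl

lemma aB_zero (l : LM M) : aB (0 : Bi) l = 0 := by
  change (actB M 0 _ : Ex →₀ M.C) = 0
  rw [map_zero]
  rfl

lemma aB_mon (m : Gm) (c : ℂ) (e : Ex) (v : M.C) :
    aB (AddMonoidAlgebra.single m c) (mon (M := M) e v) =
      mon ((fun i => ((pm sd m).2 i : ℤ)) + e) ((c * ∏ i, a i ^ (pm sd m).1 i) • v) := by
  refine co_ext fun x => ?_
  rw [co_mono, co_mon, co_mon]
  by_cases h : (fun i => ((pm sd m).2 i : ℤ)) + e = x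
  · rw [if_pos h, if_pos (by rw [← h]; abel)]
    rfl
  · rw [if_neg h, if_neg (fun h' => h (by rw [h']; abel)), smul_zero]

lemma aW_mon (e : Ex) (v : M.C) : aW (mon (M := M) e v) = ∑ k, mon (ue k + e) (M.E k v) := by
  refine co_ext fun x => ?_
  have h1 : ∀ s : Finset (Fin 3), co (∑ k ∈ s, mon (M := M) (ue k + e) (M.E k v)) x =
      ∑ k ∈ s, co (mon (M := M) (ue k + e) (M.E k v)) x := by
    intro s
    induction s using Finset.induction_on with
    | empty => rw [Finset.sum_empty, Finset.sum_empty, co_zero]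
    | insert k s hk ih => rw [Finset.sum_insert hk, Finset.sum_insert hk, co_add, ih]
  rw [co_aW, h1]
  refine Finset.sum_congr rfl fun k _ => ?_
  rw [co_mon, co_mon]
  by_cases h : ue k + e = x
  · rw [if_pos h, if_pos (by rw [← h]; abel)]
  · rw [if_neg h, if_neg (fun h' => h (by rw [h']; abel)), map_zero]

/-- Evaluation of Laurent polynomials with nonnegative exponents. -/
def Ey (y : Fin 3 → B) (lam : M.C →ₗ[ℂ] ℂ) : LM M →+ B :=
  (Finsupp.liftAddHom (fun e : Ex =>
    { toFun := fun v : M.C => lam v • ∏ i, y i ^ (e i).toNat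
      map_zero' := by rw [map_zero, zero_smul]
      map_add' := fun v w => by rw [map_add, add_smul] } :
        (Ex → (M.C →+ B))) : (Ex →₀ M.C) →+ B)

lemma Ey_mon (y : Fin 3 → B) (lam : M.C →ₗ[ℂ] ℂ) (e : Ex) (v : M.C) :
    Ey y lam (mon (M := M) e v) = lam v • ∏ i, y i ^ (e i).toNat :=
  Finsupp.liftAddHom_apply_single _ _ _

lemma Ey_aB (y : Fin 3 → B) (lam : M.C →ₗ[ℂ] ℂ) (q : Fin 3 → ℕ) (v : M.C) (d : Bi) :
    Ey y lam (aB d (mon (M := M) (fun i => (q i : ℤ)) v)) =
      evX sd (fun i => algebraMap ℂ B (a i)) y d *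
        Ey y lam (mon (M := M) (fun i => (q i : ℤ)) v) := by
  induction d using Bi_induction with
  | h0 => rw [aB_zero, map_zero, map_zero, zero_mul]
  | hadd a b ha hb => rw [aB_add, map_add, map_add, ha, hb, add_mul]
  | hs m c =>
    rw [aB_mon, Ey_mon, Ey_mon, evX_single, map_smul]
    have h1 : ∏ i, y i ^ (((fun i => ((pm sd m).2 i : ℤ)) + fun i => (q i : ℤ)) i).toNat =
        (∏ i, y i ^ (pm sd m).2 i) * ∏ i, y i ^ q i := by
      rw [← Finset.prod_mul_distrib]
      refine Finset.prod_congr rfl fun i _ => ?_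
      rw [← pow_add]
      congr 1
    have h2 : ∏ i, y i ^ ((fun i => (q i : ℤ)) i).toNat = ∏ i, y i ^ q i :=
      Finset.prod_congr rfl fun i _ => rfl
    have h3 : ∏ i, algebraMap ℂ B (a i) ^ (pm sd m).1 i =
        algebraMap ℂ B (∏ i, a i ^ (pm sd m).1 i) := by
      rw [map_prod]
      exact Finset.prod_congr rfl fun i _ => (map_pow _ _ _).symm
    rw [h1, h2, h3, smul_eq_mul, Algebra.smul_def, Algebra.smul_def, Algebra.smul_def, map_mul,
      map_mul]
    ring

/-- Annihilators. -/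
lemma ann_e2 (D : LMd sd V.G a) (z : RF V.G)
    (h : z • (mon (M := rhM D) 0 ((0, 1) : ℂ × ℂ)) = 0) (y : Fin 3 → B) :
    evX sd (fun i => algebraMap ℂ B (a i)) y z.re = 0 ∧
      evX sd (fun i => algebraMap ℂ B (a i)) y z.im * ∑ k, D.L k • y k = 0 := by
  rw [smulR_def, aW_mon] at h
  have hs : ∀ s : Finset (Fin 3), aB z.im (∑ k ∈ s, mon (M := rhM D) (ue k + 0)
      ((rhM D).E k ((0, 1) : ℂ × ℂ))) = ∑ k ∈ s, aB z.im (mon (M := rhM D) (ue k + 0)
      ((rhM D).E k ((0, 1) : ℂ × ℂ))) := by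
    intro s
    change (actB (rhM D) z.im (∑ k ∈ s, mon (M := rhM D) (ue k + 0)
      ((rhM D).E k ((0, 1) : ℂ × ℂ))) : Ex →₀ (rhM D).C) = _
    rw [map_sum]
    rfl
  rw [hs] at h
  have hq : ∀ k, (ue k + 0 : Ex) = fun i => (((Pi.single k 1 : Fin 3 → ℕ) i : ℕ) : ℤ) := by
    intro k
    funext j
    rw [add_zero]
    by_cases hj : j = k
    · subst hj
      simp [ue]
    · simp [ue, Pi.single_eq_of_ne hj]
  have hE : ∀ k, (rhM D).E k ((0, 1) : ℂ × ℂ) = ((D.L k, 0) : ℂ × ℂ) := by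
    intro k
    rw [rhM_E]
    exact Prod.ext (mul_one _) (mul_zero _)
  have h0 : (0 : Ex) = fun i => (((0 : Fin 3 → ℕ) i : ℕ) : ℤ) := rfl
  obtain ⟨l1, u1, u2⟩ : ∃ l1 : (rhM D).C →ₗ[ℂ] ℂ, l1 ((0, 1) : ℂ × ℂ) = 1 ∧
      ∀ k, l1 ((D.L k, 0) : ℂ × ℂ) = 0 := ⟨LinearMap.snd ℂ ℂ ℂ, rfl, fun k => rfl⟩
  obtain ⟨l2, v1, v2⟩ : ∃ l2 : (rhM D).C →ₗ[ℂ] ℂ, l2 ((0, 1) : ℂ × ℂ) = 0 ∧
      ∀ k, l2 ((D.L k, 0) : ℂ × ℂ) = D.L k := ⟨LinearMap.fst ℂ ℂ ℂ, rfl, fun k => rfl⟩
  have h1 := congrArg (Ey (M := rhM D) y l1) h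
  have h2 := congrArg (Ey (M := rhM D) y l2) h
  rw [map_add, map_zero, map_sum] at h1 h2
  simp only [hq, hE] at h1 h2
  rw [h0] at h1 h2
  simp only [Ey_aB, Ey_mon] at h1 h2
  have p1 : ∀ k, ∏ i, y i ^ ((((Pi.single k 1 : Fin 3 → ℕ) i : ℕ) : ℤ)).toNat = y k := by
    intro k
    rw [Finset.prod_eq_single k]
    · simp
    · intro j _ hj
      rw [Pi.single_eq_of_ne hj]
      simp
    · intro h
      exact absurd (Finset.mem_univ _) h
  simp only [p1, u1, u2, v1, v2] at h1 h2
  constructor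
  · simpa using h1
  · rw [Finset.mul_sum]
    simpa using h2

end Ev

section Sub

open MvPolynomial

/-- Substitution of a constant for a variable. -/
def sbs (s : Fin 4) (c : ℂ) : P4 →ₐ[ℂ] P4 := aeval (fun i => if i = s then C c else X i)

lemma sbs_same (s : Fin 4) (c : ℂ) : sbs s c (X s) = C c := by
  rw [sbs, aeval_X, if_pos rfl]

lemma sbs_ne {s t : Fin 4} (h : t ≠ s) (c : ℂ) : sbs s c (X t) = X t := by
  rw [sbs, aeval_X, if_neg h]

lemma sbs_C (s : Fin 4) (c z : ℂ) : sbs s c (C z) = C z := by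
  rw [sbs, aeval_C]
  rfl

lemma exists_sbs (s : Fin 4) (c : ℂ) (p : P4) : ∃ t, p = sbs s c p + t * (X s - C c) := by
  induction p using MvPolynomial.induction_on with
  | C z => exact ⟨0, by rw [sbs_C, zero_mul, add_zero]⟩
  | add p q hp hq =>
    obtain ⟨t, ht⟩ := hp
    obtain ⟨t', ht'⟩ := hq
    refine ⟨t + t', ?_⟩
    rw [map_add]
    linear_combination ht + ht'
  | mul_X p n hp =>
    obtain ⟨t, ht⟩ := hp
    by_cases hn : n = s
    · subst hn
      refine ⟨t * X n + sbs n c p, ?_⟩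
      rw [map_mul, sbs_same]
      linear_combination (X n) * ht
    · refine ⟨t * X n, ?_⟩
      rw [map_mul, sbs_ne hn]
      linear_combination (X n) * ht

lemma X_sub_C_ne (s : Fin 4) (c : ℂ) : (X s - C c : P4) ≠ 0 := by
  intro h
  have h1 := congrArg (eval (fun _ => c + 1)) h
  rw [map_sub, eval_X, eval_C, map_zero] at h1
  simp at h1

variable {s t : Fin 4} (hst : t ≠ s) (α β : ℂ)

include hst in
lemma kz2 {b c : P4} (h : (X t - C β) * b = (X s - C α) * c) :
    ∃ q, b = q * (X s - C α) ∧ c = q * (X t - C β) := by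
  have h1 := congrArg (sbs s α) h
  rw [map_mul, map_mul, map_sub, map_sub, sbs_ne hst, sbs_C, sbs_same, sbs_C, sub_self,
    zero_mul] at h1
  have h2 := (mul_eq_zero.1 h1).resolve_left (X_sub_C_ne t β)
  obtain ⟨q, hq⟩ := exists_sbs s α b
  rw [h2, zero_add] at hq
  refine ⟨q, hq, ?_⟩
  apply mul_left_cancel₀ (X_sub_C_ne s α)
  rw [← h, hq]
  ring

lemma kz3 {p : P4} (h : sbs t β (sbs s α p) = 0) :
    ∃ b c, p = b * (X t - C β) - c * (X s - C α) := by
  obtain ⟨q, hq⟩ := exists_sbs s α p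
  obtain ⟨q', hq'⟩ := exists_sbs t β (sbs s α p)
  rw [h, zero_add] at hq'
  refine ⟨q', -q, ?_⟩
  rw [← hq']
  linear_combination hq

end Sub

section Chart

/-- The dehomogenized variables of the base. -/
def bvv (sd : Bool) : Fin 3 → P4 := if sd then yv 0 else xv 0

/-- The dehomogenized variables of the fibre. -/
def fvv (sd : Bool) (k : Fin 3) : Fin 3 → P4 := if sd then xv k else yv k

/-- The first variable of the base. -/
def s0 (sd : Bool) : Fin 4 := if sd then 2 else 0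

/-- The second variable of the base. -/
def s1 (sd : Bool) : Fin 4 := if sd then 3 else 1

variable (sd : Bool)

lemma s1_ne : s1 sd ≠ s0 sd := by
  cases sd <;> decide

lemma bvv_zero : bvv sd 0 = 1 := by
  cases sd
  · exact xv_same 0
  · exact yv_same 0

lemma bvv_one : bvv sd 1 = MvPolynomial.X (s0 sd) := by
  cases sd
  · exact xv_sA 0 0
  · exact yv_sA 0 0

lemma bvv_two : bvv sd 2 = MvPolynomial.X (s1 sd) := by
  cases sd
  · exact xv_sA 0 1
  · exact yv_sA 0 1

lemma fvv_self (k : Fin 3) : fvv sd k k = 1 := by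
  cases sd
  · exact yv_same k
  · exact xv_same k

lemma sbs_one (s : Fin 4) (c : ℂ) : sbs s c 1 = 1 := map_one _

lemma sbs_fvv (c : ℂ) (k j : Fin 3) : sbs (s0 sd) c (fvv sd k j) = fvv sd k j ∧
    sbs (s1 sd) c (fvv sd k j) = fvv sd k j := by
  rcases Fin.eq_self_or_eq_succAbove k j with rfl | ⟨i, rfl⟩
  · rw [fvv_self, sbs_one, sbs_one]
    exact ⟨rfl, rfl⟩
  · cases sd
    · change sbs 0 c (yv k (k.succAbove i)) = yv k (k.succAbove i) ∧
        sbs 1 c (yv k (k.succAbove i)) = yv k (k.succAbove i)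
      rw [yv_sA]
      fin_cases i
      · exact ⟨sbs_ne (by decide) c, sbs_ne (by decide) c⟩
      · exact ⟨sbs_ne (by decide) c, sbs_ne (by decide) c⟩
    · change sbs 2 c (xv k (k.succAbove i)) = xv k (k.succAbove i) ∧
        sbs 3 c (xv k (k.succAbove i)) = xv k (k.succAbove i)
      rw [xv_sA]
      fin_cases i
      · exact ⟨sbs_ne (by decide) c, sbs_ne (by decide) c⟩
      · exact ⟨sbs_ne (by decide) c, sbs_ne (by decide) c⟩

lemma sbs_bvv (α β : ℂ) (i : Fin 3) : sbs (s1 sd) β (sbs (s0 sd) α (bvv sd i)) =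
    MvPolynomial.C (pt3 α β i) := by
  fin_cases i
  · change sbs (s1 sd) β (sbs (s0 sd) α (bvv sd 0)) = MvPolynomial.C 1
    rw [bvv_zero, sbs_one, sbs_one, map_one]
  · change sbs (s1 sd) β (sbs (s0 sd) α (bvv sd 1)) = MvPolynomial.C α
    rw [bvv_one, sbs_same, sbs_C]
  · change sbs (s1 sd) β (sbs (s0 sd) α (bvv sd 2)) = MvPolynomial.C β
    rw [bvv_two, sbs_ne (s1_ne sd), sbs_same]

lemma sbs_evX (α β : ℂ) (k : Fin 3) (d : Bi) :
    sbs (s1 sd) β (sbs (s0 sd) α (evX sd (bvv sd) (fvv sd k) d)) =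
      evX sd (fun i => algebraMap ℂ P4 (pt3 α β i)) (fvv sd k) d := by
  rw [map_evX, map_evX]
  have h1 : (fun i => sbs (s1 sd) β (sbs (s0 sd) α (bvv sd i))) =
      fun i => algebraMap ℂ P4 (pt3 α β i) := funext fun i => sbs_bvv sd α β i
  have h2 : (fun i => sbs (s1 sd) β (sbs (s0 sd) α (fvv sd k i))) = fvv sd k := funext fun i => by
    rw [(sbs_fvv sd α k i).1, (sbs_fvv sd β k i).2]
  exact congrArg₂ (fun x y => evX sd x y d) h1 h2

/-- Nonzero linear forms do not vanish. -/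
lemma lin_fvv {L : Fin 3 → ℂ} (hL : ∃ j, L j ≠ 0) (k : Fin 3) : ∑ j, L j • fvv sd k j ≠ 0 := by
  intro h
  have h1 : ∀ p : Fin 4 → ℂ, L k + (L (k.succAbove 0) * p (if sd then 0 else 2) +
      L (k.succAbove 1) * p (if sd then 1 else 3)) = 0 := by
    intro p
    have h2 := congrArg (MvPolynomial.eval p) h
    rw [Fin.sum_univ_succAbove _ k, Fin.sum_univ_two, fvv_self, map_add, map_add, map_zero] at h2
    cases sd
    · change MvPolynomial.eval p (L k • 1) + (MvPolynomial.eval p (L (k.succAbove 0) •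
        yv k (k.succAbove 0)) + MvPolynomial.eval p (L (k.succAbove 1) •
        yv k (k.succAbove 1))) = 0 at h2
      rw [yv_sA, yv_sA, MvPolynomial.smul_eval, MvPolynomial.smul_eval, MvPolynomial.smul_eval,
        map_one, mul_one] at h2
      have e0 : MvPolynomial.eval p ((![MvPolynomial.X 2, MvPolynomial.X 3] : Fin 2 → P4) 0) =
        p 2 := MvPolynomial.eval_X _
      have e1 : MvPolynomial.eval p ((![MvPolynomial.X 2, MvPolynomial.X 3] : Fin 2 → P4) 1) =
        p 3 := MvPolynomial.eval_X _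
      rw [e0, e1] at h2
      exact h2
    · change MvPolynomial.eval p (L k • 1) + (MvPolynomial.eval p (L (k.succAbove 0) •
        xv k (k.succAbove 0)) + MvPolynomial.eval p (L (k.succAbove 1) •
        xv k (k.succAbove 1))) = 0 at h2
      rw [xv_sA, xv_sA, MvPolynomial.smul_eval, MvPolynomial.smul_eval, MvPolynomial.smul_eval,
        map_one, mul_one] at h2
      have e0 : MvPolynomial.eval p ((![MvPolynomial.X 0, MvPolynomial.X 1] : Fin 2 → P4) 0) =
        p 0 := MvPolynomial.eval_X _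
      have e1 : MvPolynomial.eval p ((![MvPolynomial.X 0, MvPolynomial.X 1] : Fin 2 → P4) 1) =
        p 1 := MvPolynomial.eval_X _
      rw [e0, e1] at h2
      exact h2
  have hk : L k = 0 := by
    have := h1 0
    simpa using this
  have h01 : (if sd then (1 : Fin 4) else 3) ≠ (if sd then 0 else 2) := by
    cases sd <;> decide
  have hk0 : L (k.succAbove 0) = 0 := by
    have := h1 (Pi.single (if sd then 0 else 2) 1)
    rw [hk, Pi.single_eq_same, Pi.single_eq_of_ne h01] at this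
    simpa using this
  have hk1 : L (k.succAbove 1) = 0 := by
    have := h1 (Pi.single (if sd then 1 else 3) 1)
    rw [hk, Pi.single_eq_same, Pi.single_eq_of_ne h01.symm] at this
    simpa using this
  obtain ⟨j, hj⟩ := hL
  rcases Fin.eq_self_or_eq_succAbove k j with rfl | ⟨i, rfl⟩
  · exact hj hk
  · fin_cases i
    · exact hj hk0
    · exact hj hk1

variable (V : Verra)

/-- The coordinate ring of a chart. -/
abbrev QK (k : Fin 3) : Type := Qch V (kp sd k).1 (kp sd k).2

/-- The coordinate ring of a chart. -/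
def cq (k : Fin 3) : Γ(VX V, (VF V).U (kp sd k)) ≃+* QK sd V k := chQ V (kp sd k).1 (kp sd k).2

lemma evX_rho (k : Fin 3) (z : RF V.G) : rhoC V (kp sd k).1 (kp sd k).2 z =
    ⟨evX sd (bvv sd) (fvv sd k) z.re, evX sd (bvv sd) (fvv sd k) z.im⟩ := by
  rw [rhoC_apply]
  cases sd <;> rfl

lemma cq_fr (k : Fin 3) (r : ℕ) (z : RF V.G) (hz : z ∈ rg V.G (r * 1)) :
    cq sd V k (fr (gg_mem V (kp sd k)) r z hz) =
    ⟨evX sd (bvv sd) (fvv sd k) z.re, evX sd (bvv sd) (fvv sd k) z.im⟩ :=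
  (chQ_fr V _ _ r z hz).trans (evX_rho sd V k z)

lemma evX_uu {B : Type} [CommRing B] [Algebra ℂ B] (x y : Fin 3 → B) (i k : Fin 3) :
    evX sd x y (uu (ch sd i k).1 (ch sd i k).2) = x i * y k := by
  cases sd
  · exact evB_uu x y i k
  · exact (evB_uu y x k i).trans (mul_comm _ _)

lemma cq_et (a : Fin 3 → ℂ) (i k : Fin 3) :
    cq sd V k (fr (gg_mem V (kp sd k)) 1 (et V sd a i k) (et_mem V sd a i k)) =
      algebraMap P4 (QK sd V k) (bvv sd i - MvPolynomial.C (a i)) := by
  rw [cq_fr]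
  have h1 : (et V sd a i k).re = uu (ch sd i k).1 (ch sd i k).2 -
      algebraMap ℂ Bi (a i) * uu (ch sd 0 k).1 (ch sd 0 k).2 := by
    rw [et, QuadraticAlgebra.re_sub]
    congr 1
    have h2 : algebraMap ℂ (RF V.G) (a i) * gg V (ch sd 0 k) =
        algebraMap Bi (RF V.G) (algebraMap ℂ Bi (a i) * uu (ch sd 0 k).1 (ch sd 0 k).2) := by
      rw [map_mul]
      rfl
    rw [h2]
    rfl
  have h3 : (et V sd a i k).im = 0 := by
    have h2 : et V sd a i k =
        algebraMap Bi (RF V.G) (uu (ch sd i k).1 (ch sd i k).2 -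
          algebraMap ℂ Bi (a i) * uu (ch sd 0 k).1 (ch sd 0 k).2) := by
      rw [map_sub, map_mul]
      rfl
    rw [h2]
    rfl
  rw [h1, h3, map_zero, map_sub, map_mul, evX_uu, evX_uu, AlgHom.commutes, fvv_self, bvv_zero,
    mul_one, mul_one, mul_one]
  rfl

end Chart

end

end Run7.h164
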