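import Pool.Agent.Run7.h164.KY

set_option autoImplicit false
set_option linter.unusedVariables false
set_option linter.unusedSectionVars false

/-!
The Koszul resolution of the structure sheaf of a fibre.
-/

open CategoryTheory Limits TopologicalSpace AlgebraicGeometry Opposite Pretriangulated

namespace Run7.h164

noncomputable section

set_option backward.isDefEq.respectTransparency false

open Pool.Agent.W506 Pool.Agent.N212
open Pool.Agent.R924 (DD Frame sg DCoh CohAll IsGen fr exists_fr)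

attribute [local instance] HasDerivedCategory.standard

section Alg

open MvPolynomial

variable {f : P4} {s t : Fin 4} (hst : t ≠ s) (α β : ℂ)

lemma q_ext {z w : QuadraticAlgebra P4 f 0} (h1 : z.re = w.re) (h2 : z.im = w.im) : z = w :=
  QuadraticAlgebra.ext h1 h2

lemma re_am (p : P4) (z : QuadraticAlgebra P4 f 0) :
    (algebraMap P4 (QuadraticAlgebra P4 f 0) p * z).re = p * z.re := by
  rw [← Algebra.smul_def, QuadraticAlgebra.re_smul, smul_eq_mul]

lemma im_am (p : P4) (z : QuadraticAlgebra P4 f 0) :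
    (algebraMap P4 (QuadraticAlgebra P4 f 0) p * z).im = p * z.im := by
  rw [← Algebra.smul_def, QuadraticAlgebra.im_smul, smul_eq_mul]

lemma kq1 {b : QuadraticAlgebra P4 f 0}
    (h : algebraMap P4 (QuadraticAlgebra P4 f 0) (X s - C α) * b = 0) : b = 0 := by
  have h1 := congrArg QuadraticAlgebra.re h
  have h2 := congrArg QuadraticAlgebra.im h
  rw [re_am, QuadraticAlgebra.re_zero] at h1
  rw [im_am, QuadraticAlgebra.im_zero] at h2
  exact q_ext ((mul_eq_zero.1 h1).resolve_left (X_sub_C_ne s α))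
    ((mul_eq_zero.1 h2).resolve_left (X_sub_C_ne s α))

include hst in
lemma kq2 {b c : QuadraticAlgebra P4 f 0}
    (h : algebraMap P4 (QuadraticAlgebra P4 f 0) (X t - C β) * b =
      algebraMap P4 (QuadraticAlgebra P4 f 0) (X s - C α) * c) :
    ∃ q, b = q * algebraMap P4 (QuadraticAlgebra P4 f 0) (X s - C α) ∧
      c = q * algebraMap P4 (QuadraticAlgebra P4 f 0) (X t - C β) := by
  have h1 := congrArg QuadraticAlgebra.re h
  have h2 := congrArg QuadraticAlgebra.im h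
  rw [re_am, re_am] at h1
  rw [im_am, im_am] at h2
  obtain ⟨q, hq1, hq2⟩ := kz2 hst α β h1
  obtain ⟨q', hq1', hq2'⟩ := kz2 hst α β h2
  refine ⟨⟨q, q'⟩, ?_, ?_⟩
  · rw [mul_comm]
    refine q_ext ?_ ?_
    · rw [re_am, hq1, mul_comm]
    · rw [im_am, hq1', mul_comm]
  · rw [mul_comm]
    refine q_ext ?_ ?_
    · rw [re_am, hq2, mul_comm]
    · rw [im_am, hq2', mul_comm]

lemma kq3 {r : QuadraticAlgebra P4 f 0} (h1 : sbs t β (sbs s α r.re) = 0)
    (h2 : sbs t β (sbs s α r.im) = 0) :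
    ∃ b c, r = b * algebraMap P4 (QuadraticAlgebra P4 f 0) (X t - C β) -
      c * algebraMap P4 (QuadraticAlgebra P4 f 0) (X s - C α) := by
  obtain ⟨b, c, hbc⟩ := kz3 α β h1
  obtain ⟨b', c', hbc'⟩ := kz3 α β h2
  refine ⟨⟨b, b'⟩, ⟨c, c'⟩, ?_⟩
  rw [mul_comm (⟨b, b'⟩ : QuadraticAlgebra P4 f 0), mul_comm (⟨c, c'⟩ : QuadraticAlgebra P4 f 0)]
  refine q_ext ?_ ?_
  · rw [QuadraticAlgebra.re_sub, re_am, re_am, hbc, mul_comm b, mul_comm c]
  · rw [QuadraticAlgebra.im_sub, im_am, im_am, hbc', mul_comm b', mul_comm c']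

end Alg

/-- Fractions as functions on a chart. -/
def fU (V : Verra) (j : Fin 3 × Fin 3) (r : ℕ) (z : RF V.G) (hz : z ∈ rg V.G (r * 1)) :
    Γ(VX V, (VF V).U j) := fr (gg_mem V j) r z hz

section Rep

variable {V : Verra} {sd : Bool} {a : Fin 3 → ℂ} {M : CM V.G sd a} {j : ℤ}

lemma rep_fr {k : Fin 3} {s : Γ(til (NV M) j, (VF V).U (kp sd k))} {l l' : LM M} (h : Rep V s l)
    {r : ℕ} {z : RF V.G} (hz : z ∈ rg V.G (r * 1)) (hl : z • l = gg V (kp sd k) ^ r • l') :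
    Rep V (fU V (kp sd k) r z hz • s) l' := by
  intro x hx
  rw [vl_smul, h x hx, fU, fv_fr, mk_smul_mk', LocalizedModule.mk_eq]
  refine ⟨1, ?_⟩
  change (1 : RF V.G) • (1 : RF V.G) • (z • l : LM M) =
    (1 : RF V.G) • (gg V (kp sd k) ^ r * 1) • (l' : LM M)
  rw [one_smul, one_smul, one_smul, mul_one, hl]

lemma fr_smul_eq {k : Fin 3} {s s' : Γ(til (NV M) j, (VF V).U (kp sd k))} {l l' : LM M}
    (h : Rep V s l) (h' : Rep V s' l') {r : ℕ} {z z' : RF V.G} (hz : z ∈ rg V.G (r * 1))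
    (hz' : z' ∈ rg V.G (r * 1)) (hl : z • l = z' • l') :
    fU V (kp sd k) r z hz • s = fU V (kp sd k) r z' hz' • s' := by
  apply vl_ext
  intro x hx
  rw [vl_smul, vl_smul, h x hx, h' x hx, fU, fU, fv_fr, fv_fr, mk_smul_mk', mk_smul_mk']
  have hl' : z • (show (NV M).M from l) = z' • (show (NV M).M from l') := hl
  rw [hl']

/-- The annihilator of a section over a chart. -/
lemma fr_smul_zero (ha : a 0 = 1) {k : Fin 3} {s : Γ(til (NV M) j, (VF V).U (kp sd k))} {l : LM M}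
    {n : ℤ} (hl : l ∈ dgL M n) (h : Rep V s (shL (-ue k) l)) {r : ℕ} {z : RF V.G}
    (hz : z ∈ rg V.G (r * 1)) (h0 : fU V (kp sd k) r z hz • s = 0) : z • l = 0 := by
  have hm : z • l ∈ dgL M ((r * 1 : ℕ) + n) := smulR_mem hz hl
  refine rep_zero V ha ⟨k, Finset.mem_singleton_self k⟩ (U_one V k) (j := (r * 1 : ℕ) + n)
    (l := (z • l : LM M)) (fun e he => ⟨fun i _ => (hm e he).1 i, (hm e he).2⟩) ?_
  intro x hx
  have h1 := congrArg (fun s => vl s x hx) h0
  rw [vl_smul, h x hx, fU, fv_fr, mk_smul_mk', vl_zero, ← LocalizedModule.zero_mk 1,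
    LocalizedModule.mk_eq] at h1
  obtain ⟨u, hu⟩ := h1
  rw [← LocalizedModule.zero_mk 1, LocalizedModule.mk_eq]
  refine ⟨u, ?_⟩
  change (u : RF V.G) • (1 : RF V.G) • (z • shL (-ue k) l : LM M) =
    (u : RF V.G) • (gg V (kp sd k) ^ r * 1) • (0 : LM M) at hu
  change (u : RF V.G) • (1 : RF V.G) • (z • l : LM M) = (u : RF V.G) • (1 : RF V.G) • (0 : LM M)
  rw [one_smul, smul_zero, smul_zero] at hu
  rw [one_smul, smul_zero, smul_zero]
  have h2 : l = gg V (kp sd k) • shL (-ue k) l := by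
    rw [gg_smul, ha, one_smul, shL_shL, add_neg_cancel, shL_zero]
  rw [h2, smul_comm z, smul_comm (u : RF V.G), hu, smul_zero]

end Rep

section Div

variable (V : Verra) (sd : Bool)

/-- The divisors used in the resolution. -/
def dl (n : ℤ) : (VF V).Div :=
  if sd then xiD V ^ (-1 : ℤ) * etD V ^ (-n) else xiD V ^ (-n) * etD V ^ (-1 : ℤ)

/-- The divisor pulled back from the base. -/
def bD : (VF V).Div := if sd then etD V else xiD V

lemma shD_dl (n : ℤ) : ShD V sd (dl V sd n) (-1) := by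
  cases sd
  · exact shD_line V (sd := false) (-n) (-1)
  · exact shD_line V (sd := true) (-1) (-n)

lemma shD_dl' (n : ℤ) : ShD V (!sd) (dl V sd n) (-n) := by
  cases sd
  · exact shD_line V (sd := true) (-n) (-1)
  · exact shD_line V (sd := false) (-1) (-n)

lemma dl_succ (n : ℤ) : dl V sd (n + 1) = dl V sd n * (bD V sd)⁻¹ := by
  cases sd
  · change xiD V ^ (-(n + 1)) * etD V ^ (-1 : ℤ) = xiD V ^ (-n) * etD V ^ (-1 : ℤ) * (xiD V)⁻¹
    rw [neg_add, zpow_add, zpow_neg_one (xiD V)]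
    exact mul_right_comm _ _ _
  · change xiD V ^ (-1 : ℤ) * etD V ^ (-(n + 1)) = xiD V ^ (-1 : ℤ) * etD V ^ (-n) * (etD V)⁻¹
    rw [neg_add, zpow_add, zpow_neg_one (etD V), mul_assoc]

/-- The second index of a chart. -/
def kx (sd : Bool) (j : Fin 3 × Fin 3) : Fin 3 := if sd then j.1 else j.2

lemma kx_ch (i k : Fin 3) : kx sd (ch sd i k) = k := by
  cases sd <;> rfl

lemma bD_ch (i k : Fin 3) : (bD V sd).1 (ch sd i k) =
    qu (gg V) (gg_mem V) (gg_ne V) (0, 0) (ch sd i 0) := by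
  cases sd <;> rfl

variable (a : Fin 3 → ℂ)

/-- The local equations of the fibre. -/
def lj (i : Fin 3) (j : Fin 3 × Fin 3) : Γ(VX V, (VF V).U j) :=
  fU V j 1 (et V sd a i (kx sd j)) (et_mem V sd a i (kx sd j))

lemma et_swap (i i' k : Fin 3) : et V sd a i k * gg V (ch sd i' 0) =
    et V sd a i 0 * gg V (ch sd i' k) := by
  have h1 := gg_swap (sd := sd) V i k i' 0
  have h2 := gg_swap (sd := sd) V 0 k i' 0
  rw [et, et, sub_mul, sub_mul, mul_assoc, mul_assoc, h1, h2]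

/-- The rational function. -/
def hj (i : Fin 3) : Γ(VX V, (VF V).T) :=
  rr (gg V) (gg_mem V) (0, 0) 1 (et V sd a i 0) (et_mem V sd a i 0)

lemma rr_mul' {A : Type} [CommRing A] [IsDomain A] [Algebra ℂ A] {𝒜 : ℕ → Submodule ℂ A}
    [GradedAlgebra 𝒜] {J : Type} [Fintype J] [DecidableEq J] (g : J → A) (hg : ∀ j, g j ∈ 𝒜 1)
    (hg0 : ∀ j, g j ≠ 0) (j j₀ : J) (x y z : A) (hx : x ∈ 𝒜 (1 * 1)) (hy : y ∈ 𝒜 (1 * 1))
    (hz : z ∈ 𝒜 (1 * 1)) (h : x * y = z * g j) :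
    rr g hg j 1 x hx * rr g hg j₀ 1 y hy = rr g hg j₀ 1 z hz := by
  rw [rr_eq_fr g hg j 1 x hx (rest_pow_mem g hg j 1 x hx),
    rr_eq_fr g hg j₀ 1 y hy (rest_pow_mem g hg j₀ 1 y hy),
    rr_eq_fr g hg j₀ 1 z hz (rest_pow_mem g hg j₀ 1 z hz), Pool.Agent.R924.fr_mul,
    Pool.Agent.R924.fr_eq_iff _ (Fintype.card_pos_iff.2 ⟨j⟩) (prod_ne_zero' g hg0)]
  have h1 := prod_eq_rest g j
  have h2 : (∏ i, g i) ^ (1 + 1) = (∏ i, g i) * (g j * rest g j) := by
    rw [← h1, pow_succ, pow_one]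
  rw [pow_one, pow_one, pow_one, h2]
  linear_combination (rest g j * rest g j₀ * ∏ i, g i) * h

lemma lj_rel (i : Fin 3) (j : Fin 3 × Fin 3) : ro ((VF V).le j) (lj V sd a i j) *
    ((bD V sd).1 j : Γ(VX V, (VF V).T)) = hj V sd a i := by
  obtain ⟨i', k, rfl⟩ := exists_ch sd j
  rw [bD_ch, qu_val]
  refine rr_mul' (gg V) (gg_mem V) (gg_ne V) (ch sd i' k) (0, 0) _ _ _ _ _ _ ?_
  rw [kx_ch]
  exact et_swap V sd a i i' k

/-- Multiplication by the equations. -/
lemma exists_mj (i : Fin 3) (n : ℤ) : ∃ m : Frame.lb (dl V sd (n + 1)) ⟶ Frame.lb (dl V sd n),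
    ∀ j, ap m _ (Frame.lbE (dl V sd (n + 1)) j) = lj V sd a i j • Frame.lbE (dl V sd n) j := by
  refine Frame.exists_mul _ _ (hj V sd a i) (lj V sd a i) fun j => ?_
  have h1 : (dl V sd (n + 1)).1 j = (dl V sd n).1 j * ((bD V sd).1 j)⁻¹ := by
    rw [dl_succ]
    rfl
  rw [h1, Units.val_mul, ← lj_rel V sd a i j]
  have h2 : ((bD V sd).1 j : Γ(VX V, (VF V).T)) * ((((bD V sd).1 j)⁻¹ : (Γ(VX V, (VF V).T))ˣ) :
    Γ(VX V, (VF V).T)) = 1 := Units.mul_inv _
  linear_combination (-(ro ((VF V).le j) (lj V sd a i j) * ((dl V sd n).1 j : Γ(VX V, (VF V).T)))) *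
    h2

variable {V sd a}

lemma lj_basicOpen (i : Fin 3) (j : Fin 3 × Fin 3) : (VX V).basicOpen (lj V sd a i j) =
    (VF V).U j ⊓ DD (rg V.G) (et V sd a i (kx sd j)) := Pool.Agent.R924.basicOpen_fr _ _ _ _

end Div

end

end Run7.h164
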