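import Mathlib

set_option autoImplicit false
set_option linter.unusedVariables false

/-!
Symmetric matrices of size three.
-/

open Complex

namespace Run7.h164

noncomputable section

/-- Symmetric matrices of rank at most one. -/
lemma rk1 {P Q R S T U : ℂ} (h1 : P * Q = S ^ 2) (h2 : P * R = T ^ 2) (h3 : Q * R = U ^ 2)
    (h4 : S * T = P * U) (h5 : S * U = T * Q) (h6 : T * U = S * R) :
    ∃ y0 y1 y2 : ℂ, y0 ^ 2 = P ∧ y1 ^ 2 = Q ∧ y2 ^ 2 = R ∧ y0 * y1 = S ∧ y0 * y2 = T ∧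
      y1 * y2 = U := by
  by_cases hP : P = 0
  · subst hP
    have hS : S = 0 := pow_eq_zero_iff two_ne_zero |>.1 (by rw [← h1, zero_mul])
    have hT : T = 0 := pow_eq_zero_iff two_ne_zero |>.1 (by rw [← h2, zero_mul])
    subst hS
    subst hT
    by_cases hQ : Q = 0
    · subst hQ
      have hU : U = 0 := pow_eq_zero_iff two_ne_zero |>.1 (by rw [← h3, zero_mul])
      obtain ⟨z, hz⟩ := IsAlgClosed.exists_pow_nat_eq R (n := 2) two_pos
      exact ⟨0, 0, z, by simp, by simp, hz, by simp, by simp, by simp [hU]⟩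
    · obtain ⟨z, hz⟩ := IsAlgClosed.exists_pow_nat_eq Q (n := 2) two_pos
      have hz0 : z ≠ 0 := by
        rintro rfl
        exact hQ (by rw [← hz]; simp)
      refine ⟨0, z, U / z, by simp, hz, ?_, by simp, by simp, ?_⟩
      · rw [div_pow, hz, ← h3]
        field_simp
      · field_simp
  · obtain ⟨z, hz⟩ := IsAlgClosed.exists_pow_nat_eq P (n := 2) two_pos
    have hz0 : z ≠ 0 := by
      rintro rfl
      exact hP (by rw [← hz]; simp)
    refine ⟨z, S / z, T / z, hz, ?_, ?_, ?_, ?_, ?_⟩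
    · rw [div_pow, hz, ← h1]
      field_simp
    · rw [div_pow, hz, ← h2]
      field_simp
    · field_simp
    · field_simp
    · rw [div_mul_div_comm, h4, ← sq, hz]
      field_simp

/-- Matrices of rank at most one. -/
lemma rk1' {N : Fin 3 → Fin 3 → ℂ} (h : ∀ i k, i < k → ∀ j l, j < l →
    N i j * N k l = N i l * N k j) : ∃ L M : Fin 3 → ℂ, ∀ k l, N k l = L k * M l := by
  have h' : ∀ i j k l, N i j * N k l = N i l * N k j := by
    intro i j k l
    rcases lt_trichotomy i k with hi | hi | hi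
    · rcases lt_trichotomy j l with hj | hj | hj
      · exact h i k hi j l hj
      · rw [hj]
      · exact (h i k hi l j hj).symm
    · rw [hi]
      ring
    · rcases lt_trichotomy j l with hj | hj | hj
      · have := h k i hi j l hj
        linear_combination -this
      · rw [hj]
      · have := h k i hi l j hj
        linear_combination this
  by_cases h0 : ∃ i j, N i j ≠ 0
  · obtain ⟨i, j, hij⟩ := h0
    refine ⟨fun k => N k j, fun l => N i l / N i j, fun k l => ?_⟩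
    field_simp
    linear_combination h' i j k l
  · push Not at h0
    exact ⟨0, 0, fun k l => by rw [h0]; simp⟩

section Sym

variable {A : Fin 3 → Fin 3 → ℂ} (hs : ∀ k l, A k l = A l k)

/-- The determinant. -/
def dt (A : Fin 3 → Fin 3 → ℂ) : ℂ := (Matrix.of A).det

lemma dt_eq (A : Fin 3 → Fin 3 → ℂ) : dt A =
    A 0 0 * A 1 1 * A 2 2 - A 0 0 * A 1 2 * A 2 1 - A 0 1 * A 1 0 * A 2 2 +
      A 0 1 * A 1 2 * A 2 0 + A 0 2 * A 1 0 * A 2 1 - A 0 2 * A 1 1 * A 2 0 :=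
  Matrix.det_fin_three _

include hs

/-- The vector in the kernel of a symmetric matrix of rank two. -/
lemma exists_ker (h0 : dt A = 0) : ∃ y : Fin 3 → ℂ,
    y 0 * y 0 = A 1 1 * A 2 2 - A 1 2 * A 1 2 ∧ y 1 * y 1 = A 0 0 * A 2 2 - A 0 2 * A 0 2 ∧
    y 2 * y 2 = A 0 0 * A 1 1 - A 0 1 * A 0 1 ∧ y 0 * y 1 = A 0 2 * A 1 2 - A 0 1 * A 2 2 ∧
    y 0 * y 2 = A 0 1 * A 1 2 - A 0 2 * A 1 1 ∧ y 1 * y 2 = A 0 1 * A 0 2 - A 0 0 * A 1 2 := by
  rw [dt_eq, hs 1 0, hs 2 0, hs 2 1] at h0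
  obtain ⟨y0, y1, y2, e1, e2, e3, e4, e5, e6⟩ := rk1 (P := A 1 1 * A 2 2 - A 1 2 * A 1 2)
    (Q := A 0 0 * A 2 2 - A 0 2 * A 0 2) (R := A 0 0 * A 1 1 - A 0 1 * A 0 1)
    (S := A 0 2 * A 1 2 - A 0 1 * A 2 2) (T := A 0 1 * A 1 2 - A 0 2 * A 1 1)
    (U := A 0 1 * A 0 2 - A 0 0 * A 1 2) (by linear_combination A 2 2 * h0)
    (by linear_combination A 1 1 * h0) (by linear_combination A 0 0 * h0)
    (by linear_combination A 1 2 * h0) (by linear_combination A 0 2 * h0)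
    (by linear_combination A 0 1 * h0)
  refine ⟨![y0, y1, y2], ?_, ?_, ?_, e4, e5, e6⟩
  · change y0 * y0 = _
    rw [← sq, e1]
  · change y1 * y1 = _
    rw [← sq, e2]
  · change y2 * y2 = _
    rw [← sq, e3]

/-- If the vector vanishes the matrix has rank at most one. -/
lemma rank_one_of_ker {y : Fin 3 → ℂ}
    (e0 : y 0 * y 0 = A 1 1 * A 2 2 - A 1 2 * A 1 2)
    (e1 : y 1 * y 1 = A 0 0 * A 2 2 - A 0 2 * A 0 2)
    (e2 : y 2 * y 2 = A 0 0 * A 1 1 - A 0 1 * A 0 1)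
    (e3 : y 0 * y 1 = A 0 2 * A 1 2 - A 0 1 * A 2 2)
    (e4 : y 0 * y 2 = A 0 1 * A 1 2 - A 0 2 * A 1 1)
    (e5 : y 1 * y 2 = A 0 1 * A 0 2 - A 0 0 * A 1 2) (hy : y = 0) :
    ∃ l : Fin 3 → ℂ, ∀ k m, A k m = l k * l m := by
  subst hy
  simp only [Pi.zero_apply, mul_zero] at e0 e1 e2 e3 e4 e5
  obtain ⟨z0, z1, z2, f0, f1, f2, f3, f4, f5⟩ := rk1 (P := A 0 0) (Q := A 1 1) (R := A 2 2)
    (S := A 0 1) (T := A 0 2) (U := A 1 2) (by linear_combination -e2) (by linear_combination -e1)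
    (by linear_combination -e0) (by linear_combination -e5) (by linear_combination -e4)
    (by linear_combination -e3)
  refine ⟨![z0, z1, z2], fun k m => ?_⟩
  have h10 := hs 1 0
  have h20 := hs 2 0
  have h21 := hs 2 1
  fin_cases k <;> fin_cases m
  · change A 0 0 = z0 * z0
    rw [← f0, sq]
  · exact f3.symm
  · exact f4.symm
  · change A 1 0 = z1 * z0
    rw [h10, ← f3, mul_comm]
  · change A 1 1 = z1 * z1
    rw [← f1, sq]
  · exact f5.symm
  · change A 2 0 = z2 * z0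
    rw [h20, ← f4, mul_comm]
  · change A 2 1 = z2 * z1
    rw [h21, ← f5, mul_comm]
  · change A 2 2 = z2 * z2
    rw [← f2, sq]

/-- The vector is in the kernel. -/
lemma ker_of_cof (h0 : dt A = 0) {y : Fin 3 → ℂ}
    (e0 : y 0 * y 0 = A 1 1 * A 2 2 - A 1 2 * A 1 2)
    (e1 : y 1 * y 1 = A 0 0 * A 2 2 - A 0 2 * A 0 2)
    (e2 : y 2 * y 2 = A 0 0 * A 1 1 - A 0 1 * A 0 1)
    (e3 : y 0 * y 1 = A 0 2 * A 1 2 - A 0 1 * A 2 2)
    (e4 : y 0 * y 2 = A 0 1 * A 1 2 - A 0 2 * A 1 1)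
    (e5 : y 1 * y 2 = A 0 1 * A 0 2 - A 0 0 * A 1 2) (hy : y ≠ 0) (k : Fin 3) :
    ∑ l, A k l * y l = 0 := by
  rw [dt_eq, hs 1 0, hs 2 0, hs 2 1] at h0
  obtain ⟨m, hm⟩ := Function.ne_iff.1 hy
  apply mul_right_cancel₀ (b := y m) hm
  rw [zero_mul, Fin.sum_univ_three]
  have h10 := hs 1 0
  have h20 := hs 2 0
  have h21 := hs 2 1
  have key : ∀ k m : Fin 3, (A k 0 * y 0 + A k 1 * y 1 + A k 2 * y 2) * y m = 0 := by
    intro k m
    fin_cases k <;> fin_cases m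
    · change (A 0 0 * y 0 + A 0 1 * y 1 + A 0 2 * y 2) * y 0 = 0
      linear_combination A 0 0 * e0 + A 0 1 * e3 + A 0 2 * e4 + h0
    · change (A 0 0 * y 0 + A 0 1 * y 1 + A 0 2 * y 2) * y 1 = 0
      linear_combination A 0 0 * e3 + A 0 1 * e1 + A 0 2 * e5
    · change (A 0 0 * y 0 + A 0 1 * y 1 + A 0 2 * y 2) * y 2 = 0
      linear_combination A 0 0 * e4 + A 0 1 * e5 + A 0 2 * e2
    · change (A 1 0 * y 0 + A 1 1 * y 1 + A 1 2 * y 2) * y 0 = 0
      rw [h10]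
      linear_combination A 0 1 * e0 + A 1 1 * e3 + A 1 2 * e4
    · change (A 1 0 * y 0 + A 1 1 * y 1 + A 1 2 * y 2) * y 1 = 0
      rw [h10]
      linear_combination A 0 1 * e3 + A 1 1 * e1 + A 1 2 * e5 + h0
    · change (A 1 0 * y 0 + A 1 1 * y 1 + A 1 2 * y 2) * y 2 = 0
      rw [h10]
      linear_combination A 0 1 * e4 + A 1 1 * e5 + A 1 2 * e2
    · change (A 2 0 * y 0 + A 2 1 * y 1 + A 2 2 * y 2) * y 0 = 0
      rw [h20, h21]
      linear_combination A 0 2 * e0 + A 1 2 * e3 + A 2 2 * e4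
    · change (A 2 0 * y 0 + A 2 1 * y 1 + A 2 2 * y 2) * y 1 = 0
      rw [h20, h21]
      linear_combination A 0 2 * e3 + A 1 2 * e1 + A 2 2 * e5
    · change (A 2 0 * y 0 + A 2 1 * y 1 + A 2 2 * y 2) * y 2 = 0
      rw [h20, h21]
      linear_combination A 0 2 * e4 + A 1 2 * e5 + A 2 2 * e2 + h0
  exact key k m

/-- Decomposition of degenerate conics. -/
lemma exists_pair (h0 : dt A = 0) {y : Fin 3 → ℂ}
    (e0 : y 0 * y 0 = A 1 1 * A 2 2 - A 1 2 * A 1 2)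
    (e1 : y 1 * y 1 = A 0 0 * A 2 2 - A 0 2 * A 0 2)
    (e2 : y 2 * y 2 = A 0 0 * A 1 1 - A 0 1 * A 0 1)
    (e3 : y 0 * y 1 = A 0 2 * A 1 2 - A 0 1 * A 2 2)
    (e4 : y 0 * y 2 = A 0 1 * A 1 2 - A 0 2 * A 1 1)
    (e5 : y 1 * y 2 = A 0 1 * A 0 2 - A 0 0 * A 1 2) (hy : y ≠ 0) :
    ∃ L M : Fin 3 → ℂ, (∀ k l, A k l + A l k = L k * M l + L l * M k) ∧
      (∀ k, A k k = L k * M k) ∧
      L 1 * M 2 - L 2 * M 1 = -(2 * I) * y 0 ∧ L 2 * M 0 - L 0 * M 2 = -(2 * I) * y 1 ∧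
      L 0 * M 1 - L 1 * M 0 = -(2 * I) * y 2 := by
  have hk := ker_of_cof hs h0 e0 e1 e2 e3 e4 e5 hy
  have k0 := hk 0
  have k1 := hk 1
  have k2 := hk 2
  simp only [Fin.sum_univ_three] at k0 k1 k2
  rw [hs 1 0] at k1
  rw [hs 2 0, hs 2 1] at k2
  let N : Fin 3 → Fin 3 → ℂ := ![![A 0 0, A 0 1 - I * y 2, A 0 2 + I * y 1],
    ![A 0 1 + I * y 2, A 1 1, A 1 2 - I * y 0],
    ![A 0 2 - I * y 1, A 1 2 + I * y 0, A 2 2]]
  have hI := I_sq
  obtain ⟨L, M, hN⟩ := rk1' (N := N) (by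
    intro i k hik j l hjl
    have c1 : N 0 0 * N 1 1 = N 0 1 * N 1 0 := by
      change A 0 0 * A 1 1 = (A 0 1 - I * y 2) * (A 0 1 + I * y 2)
      linear_combination -e2 + y 2 * y 2 * hI
    have c2 : N 0 0 * N 1 2 = N 0 2 * N 1 0 := by
      change A 0 0 * (A 1 2 - I * y 0) = (A 0 2 + I * y 1) * (A 0 1 + I * y 2)
      linear_combination -I * k0 + e5 - y 1 * y 2 * hI
    have c3 : N 0 1 * N 1 2 = N 0 2 * N 1 1 := by
      change (A 0 1 - I * y 2) * (A 1 2 - I * y 0) = (A 0 2 + I * y 1) * A 1 1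
      linear_combination -I * k1 - e4 + y 0 * y 2 * hI
    have c4 : N 0 0 * N 2 1 = N 0 1 * N 2 0 := by
      change A 0 0 * (A 1 2 + I * y 0) = (A 0 1 - I * y 2) * (A 0 2 - I * y 1)
      linear_combination I * k0 + e5 - y 1 * y 2 * hI
    have c5 : N 0 0 * N 2 2 = N 0 2 * N 2 0 := by
      change A 0 0 * A 2 2 = (A 0 2 + I * y 1) * (A 0 2 - I * y 1)
      linear_combination -e1 + y 1 * y 1 * hI
    have c6 : N 0 1 * N 2 2 = N 0 2 * N 2 1 := by
      change (A 0 1 - I * y 2) * A 2 2 = (A 0 2 + I * y 1) * (A 1 2 + I * y 0)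
      linear_combination -I * k2 + e3 - y 0 * y 1 * hI
    have c7 : N 1 0 * N 2 1 = N 1 1 * N 2 0 := by
      change (A 0 1 + I * y 2) * (A 1 2 + I * y 0) = A 1 1 * (A 0 2 - I * y 1)
      linear_combination I * k1 - e4 + y 0 * y 2 * hI
    have c8 : N 1 0 * N 2 2 = N 1 2 * N 2 0 := by
      change (A 0 1 + I * y 2) * A 2 2 = (A 1 2 - I * y 0) * (A 0 2 - I * y 1)
      linear_combination I * k2 + e3 - y 0 * y 1 * hI
    have c9 : N 1 1 * N 2 2 = N 1 2 * N 2 1 := by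
      change A 1 1 * A 2 2 = (A 1 2 - I * y 0) * (A 1 2 + I * y 0)
      linear_combination -e0 + y 0 * y 0 * hI
    fin_cases i <;> fin_cases k <;> fin_cases j <;> fin_cases l <;>
      first
      | exact absurd hik (by decide)
      | exact absurd hjl (by decide)
      | exact c1
      | exact c2
      | exact c3
      | exact c4
      | exact c5
      | exact c6
      | exact c7
      | exact c8
      | exact c9)
  have n00 : A 0 0 = L 0 * M 0 := hN 0 0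
  have n01 : A 0 1 - I * y 2 = L 0 * M 1 := hN 0 1
  have n02 : A 0 2 + I * y 1 = L 0 * M 2 := hN 0 2
  have n10 : A 0 1 + I * y 2 = L 1 * M 0 := hN 1 0
  have n11 : A 1 1 = L 1 * M 1 := hN 1 1
  have n12 : A 1 2 - I * y 0 = L 1 * M 2 := hN 1 2
  have n20 : A 0 2 - I * y 1 = L 2 * M 0 := hN 2 0
  have n21 : A 1 2 + I * y 0 = L 2 * M 1 := hN 2 1
  have n22 : A 2 2 = L 2 * M 2 := hN 2 2
  have h10 := hs 1 0
  have h20 := hs 2 0
  have h21 := hs 2 1
  refine ⟨L, M, fun k l => ?_, fun k => ?_, ?_, ?_, ?_⟩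
  · fin_cases k <;> fin_cases l
    · change A 0 0 + A 0 0 = L 0 * M 0 + L 0 * M 0
      rw [n00]
    · change A 0 1 + A 1 0 = L 0 * M 1 + L 1 * M 0
      rw [h10]
      linear_combination n01 + n10
    · change A 0 2 + A 2 0 = L 0 * M 2 + L 2 * M 0
      rw [h20]
      linear_combination n02 + n20
    · change A 1 0 + A 0 1 = L 1 * M 0 + L 0 * M 1
      rw [h10]
      linear_combination n01 + n10
    · change A 1 1 + A 1 1 = L 1 * M 1 + L 1 * M 1
      rw [n11]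
    · change A 1 2 + A 2 1 = L 1 * M 2 + L 2 * M 1
      rw [h21]
      linear_combination n12 + n21
    · change A 2 0 + A 0 2 = L 2 * M 0 + L 0 * M 2
      rw [h20]
      linear_combination n02 + n20
    · change A 2 1 + A 1 2 = L 2 * M 1 + L 1 * M 2
      rw [h21]
      linear_combination n12 + n21
    · change A 2 2 + A 2 2 = L 2 * M 2 + L 2 * M 2
      rw [n22]
  · fin_cases k
    · exact n00
    · exact n11
    · exact n22
  · linear_combination n21 - n12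
  · linear_combination n02 - n20
  · linear_combination n10 - n01

end Sym

end

end Run7.h164
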