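import Pool.Agent.Run7.h164.LA
import Pool.Agent.Run7.h164.ED

set_option autoImplicit false
set_option linter.unusedVariables false
set_option linter.unusedSectionVars false

/-!
The discriminants of a Verra fourfold.
-/

open Complex

namespace Run7.h164

noncomputable section

lemma exists_dual {L M : Fin 3 → ℂ} {y : Fin 3 → ℂ} (hy : y ≠ 0)
    (z0 : L 1 * M 2 - L 2 * M 1 = -(2 * I) * y 0) (z1 : L 2 * M 0 - L 0 * M 2 = -(2 * I) * y 1)
    (z2 : L 0 * M 1 - L 1 * M 0 = -(2 * I) * y 2) : ∃ c u v r : Fin 3 → ℂ,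
    (∀ k j, (if j = k then (1 : ℂ) else 0) = L k * u j + M k * v j + c k * r j) ∧
    ∑ k, L k * u k = 1 ∧ ∑ k, L k * v k = 0 ∧ ∑ k, L k * r k = 0 ∧
    ∑ k, M k * u k = 0 ∧ ∑ k, M k * v k = 1 ∧ ∑ k, M k * r k = 0 := by
  have h2I : -(2 * I) ≠ 0 := neg_ne_zero.2 (mul_ne_zero two_ne_zero I_ne_zero)
  obtain ⟨c, hc⟩ : ∃ c : Fin 3 → ℂ, (Matrix.of ![L, M, c]).det ≠ 0 := by
    obtain ⟨i, hi⟩ := Function.ne_iff.1 hy
    have hi' : y i ≠ 0 := hi
    refine ⟨Pi.single i 1, ?_⟩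
    rw [Matrix.det_fin_three]
    change L 0 * M 1 * (Pi.single i 1 : Fin 3 → ℂ) 2 - L 0 * M 2 * (Pi.single i 1 : Fin 3 → ℂ) 1 -
      L 1 * M 0 * (Pi.single i 1 : Fin 3 → ℂ) 2 + L 1 * M 2 * (Pi.single i 1 : Fin 3 → ℂ) 0 +
      L 2 * M 0 * (Pi.single i 1 : Fin 3 → ℂ) 1 - L 2 * M 1 * (Pi.single i 1 : Fin 3 → ℂ) 0 ≠ 0
    fin_cases i
    · change L 0 * M 1 * 0 - L 0 * M 2 * 0 - L 1 * M 0 * 0 + L 1 * M 2 * 1 + L 2 * M 0 * 0 -
        L 2 * M 1 * 1 ≠ 0
      have h : L 0 * M 1 * 0 - L 0 * M 2 * 0 - L 1 * M 0 * 0 + L 1 * M 2 * 1 + L 2 * M 0 * 0 -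
        L 2 * M 1 * 1 = -(2 * I) * y 0 := by linear_combination z0
      rw [h]
      exact mul_ne_zero h2I hi'
    · change L 0 * M 1 * 0 - L 0 * M 2 * 1 - L 1 * M 0 * 0 + L 1 * M 2 * 0 + L 2 * M 0 * 1 -
        L 2 * M 1 * 0 ≠ 0
      have h : L 0 * M 1 * 0 - L 0 * M 2 * 1 - L 1 * M 0 * 0 + L 1 * M 2 * 0 + L 2 * M 0 * 1 -
        L 2 * M 1 * 0 = -(2 * I) * y 1 := by linear_combination z1
      rw [h]
      exact mul_ne_zero h2I hi'
    · change L 0 * M 1 * 1 - L 0 * M 2 * 0 - L 1 * M 0 * 1 + L 1 * M 2 * 0 + L 2 * M 0 * 0 -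
        L 2 * M 1 * 0 ≠ 0
      have h : L 0 * M 1 * 1 - L 0 * M 2 * 0 - L 1 * M 0 * 1 + L 1 * M 2 * 0 + L 2 * M 0 * 0 -
        L 2 * M 1 * 0 = -(2 * I) * y 2 := by linear_combination z2
      rw [h]
      exact mul_ne_zero h2I hi'
  set Q : Matrix (Fin 3) (Fin 3) ℂ := Matrix.of ![L, M, c] with hQ
  have hu : IsUnit Q.det := isUnit_iff_ne_zero.2 hc
  have h1 : Q * Q⁻¹ = 1 := Matrix.mul_nonsing_inv Q hu
  have h2 : Q⁻¹ * Q = 1 := Matrix.nonsing_inv_mul Q hu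
  have q1 : ∀ i j, ∑ k, Q i k * Q⁻¹ k j = if i = j then 1 else 0 := by
    intro i j
    have := congrFun (congrFun h1 i) j
    rwa [Matrix.mul_apply, Matrix.one_apply] at this
  have q2 : ∀ i j, ∑ k, Q⁻¹ i k * Q k j = if i = j then 1 else 0 := by
    intro i j
    have := congrFun (congrFun h2 i) j
    rwa [Matrix.mul_apply, Matrix.one_apply] at this
  refine ⟨c, fun j => Q⁻¹ j 0, fun j => Q⁻¹ j 1, fun j => Q⁻¹ j 2, fun k j => ?_,
    q1 0 0, q1 0 1, q1 0 2, q1 1 0, q1 1 1, q1 1 2⟩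
  rw [← q2 j k, Fin.sum_univ_three]
  change Q⁻¹ j 0 * L k + Q⁻¹ j 1 * M k + Q⁻¹ j 2 * c k = _
  ring

variable (V : Verra) (sd : Bool)

/-- The inclusion of the variables of the base. -/
def sI (sd : Bool) (i : Fin 3) : Fin 3 ⊕ Fin 3 := if sd then Sum.inr i else Sum.inl i

/-- The inclusion of the variables of the fibre. -/
def oI (sd : Bool) (i : Fin 3) : Fin 3 ⊕ Fin 3 := if sd then Sum.inl i else Sum.inr i

/-- Points from both sides. -/
def ptS (sd : Bool) (x y : Fin 3 → ℂ) : Fin 3 ⊕ Fin 3 → ℂ :=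
  if sd then Sum.elim y x else Sum.elim x y

lemma ptS_sI (x y : Fin 3 → ℂ) (i : Fin 3) : ptS sd x y (sI sd i) = x i := by
  cases sd <;> rfl

lemma ptS_oI (x y : Fin 3 → ℂ) (i : Fin 3) : ptS sd x y (oI sd i) = y i := by
  cases sd <;> rfl

lemma cases_sI (s : Fin 3 ⊕ Fin 3) : (∃ i, s = sI sd i) ∨ ∃ k, s = oI sd k := by
  cases sd
  · rcases s with i | k
    · exact Or.inl ⟨i, rfl⟩
    · exact Or.inr ⟨k, rfl⟩
  · rcases s with i | k
    · exact Or.inr ⟨i, rfl⟩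
    · exact Or.inl ⟨k, rfl⟩

/-- The monomials of bidegree `(2, 2)`. -/
def mo4 (s t u v : Fin 3 ⊕ Fin 3) : P6 :=
  MvPolynomial.X s * MvPolynomial.X t * (MvPolynomial.X u * MvPolynomial.X v)

lemma FP_A (G : Fin 3 → Fin 3 → Fin 3 → Fin 3 → ℂ) : FP G = ∑ i, ∑ j, ∑ k, ∑ l,
    MvPolynomial.C (G i j k l) * mo4 (Sum.inl i) (Sum.inl j) (Sum.inr k) (Sum.inr l) := by
  rw [FP, fm]
  refine Finset.sum_congr rfl fun i _ => Finset.sum_congr rfl fun j _ =>
    Finset.sum_congr rfl fun k _ => Finset.sum_congr rfl fun l _ => ?_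
  rw [MvPolynomial.smul_eq_C_mul, mo4]
  ring

lemma FP_sd (G : Fin 3 → Fin 3 → Fin 3 → Fin 3 → ℂ) : FP G = ∑ i, ∑ j, ∑ k, ∑ l,
    MvPolynomial.C (Gs sd G i j k l) * mo4 (sI sd i) (sI sd j) (oI sd k) (oI sd l) := by
  cases sd
  · exact FP_A G
  · rw [FP_A, sum4_comm]
    refine Finset.sum_congr rfl fun i _ => Finset.sum_congr rfl fun j _ =>
      Finset.sum_congr rfl fun k _ => Finset.sum_congr rfl fun l _ => ?_
    have e : mo4 (Sum.inl k) (Sum.inl l) (Sum.inr i) (Sum.inr j) =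
        mo4 (sI true i) (sI true j) (oI true k) (oI true l) := by
      rw [mo4, mo4, mul_comm]
      rfl
    rw [e]
    rfl

/-- The derivative at a point. -/
def dv (s : Fin 3 ⊕ Fin 3) (v : Fin 3 ⊕ Fin 3 → ℂ) : P6 →ₗ[ℂ] ℂ where
  toFun p := MvPolynomial.eval v (MvPolynomial.pderiv s p)
  map_add' p q := by rw [map_add, map_add]
  map_smul' c p := by
    rw [Derivation.map_smul, MvPolynomial.smul_eval, RingHom.id_apply, smul_eq_mul]

lemma dv_mul (s : Fin 3 ⊕ Fin 3) (v : Fin 3 ⊕ Fin 3 → ℂ) (p q : P6) :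
    dv s v (p * q) = dv s v p * MvPolynomial.eval v q + MvPolynomial.eval v p * dv s v q := by
  change MvPolynomial.eval v (MvPolynomial.pderiv s (p * q)) =
    MvPolynomial.eval v (MvPolynomial.pderiv s p) * MvPolynomial.eval v q +
      MvPolynomial.eval v p * MvPolynomial.eval v (MvPolynomial.pderiv s q)
  rw [Derivation.leibniz, smul_eq_mul, smul_eq_mul, map_add, map_mul, map_mul]
  ring

lemma dv_C (s : Fin 3 ⊕ Fin 3) (v : Fin 3 ⊕ Fin 3 → ℂ) (c : ℂ) (p : P6) :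
    dv s v (MvPolynomial.C c * p) = c * dv s v p := by
  have h : dv s v (MvPolynomial.C c) = 0 := by
    change MvPolynomial.eval v (MvPolynomial.pderiv s (MvPolynomial.C c)) = 0
    rw [MvPolynomial.pderiv_C, map_zero]
  rw [dv_mul, h, zero_mul, zero_add, MvPolynomial.eval_C]

lemma dv_X (s : Fin 3 ⊕ Fin 3) (v : Fin 3 ⊕ Fin 3 → ℂ) (t : Fin 3 ⊕ Fin 3) :
    dv s v (MvPolynomial.X t) = if t = s then 1 else 0 := by
  change MvPolynomial.eval v (MvPolynomial.pderiv s (MvPolynomial.X t)) = _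
  by_cases h : t = s
  · subst h
    rw [MvPolynomial.pderiv_X_self, map_one, if_pos rfl]
  · rw [MvPolynomial.pderiv_X_of_ne h, map_zero, if_neg h]

/-- The derivative of the coefficients. -/
def dB (x v : Fin 3 → ℂ) (k l : Fin 3) : ℂ :=
  ∑ i, ∑ j, Gs sd V.G i j k l * (x i * v j + v i * x j)

lemma dv_sI (x y : Fin 3 → ℂ) (i₀ : Fin 3) : dv (sI sd i₀) (ptS sd x y) (FP V.G) =
    ∑ k, ∑ l, y k * y l * dB V sd x (Pi.single i₀ 1) k l := by
  rw [FP_sd sd]
  simp only [map_sum, dv_C]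
  simp only [mo4, dv_mul, dv_X, map_mul, MvPolynomial.eval_X, ptS_sI, ptS_oI]
  rw [sum4_comm]
  refine Finset.sum_congr rfl fun k _ => Finset.sum_congr rfl fun l _ => ?_
  rw [dB, Finset.mul_sum]
  refine Finset.sum_congr rfl fun i _ => ?_
  rw [Finset.mul_sum]
  refine Finset.sum_congr rfl fun j _ => ?_
  have h1 : ∀ i, (if sI sd i = sI sd i₀ then (1 : ℂ) else 0) = (Pi.single i₀ 1 : Fin 3 → ℂ) i := by
    intro i
    by_cases h : i = i₀
    · subst h
      rw [if_pos rfl, Pi.single_eq_same]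
    · rw [if_neg, Pi.single_eq_of_ne h]
      intro h'
      cases sd
      · exact h (Sum.inl_injective h')
      · exact h (Sum.inr_injective h')
  have h2 : ∀ k, (if oI sd k = sI sd i₀ then (1 : ℂ) else 0) = 0 := by
    intro k
    rw [if_neg]
    intro h'
    cases sd
    · cases h'
    · cases h'
  rw [h1, h1, h2, h2]
  ring

lemma dv_oI (x y : Fin 3 → ℂ) (k₀ : Fin 3) : dv (oI sd k₀) (ptS sd x y) (FP V.G) =
    2 * ∑ l, gk V.G sd x k₀ l * y l := by
  rw [FP_sd sd]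
  simp only [map_sum, dv_C]
  simp only [mo4, dv_mul, dv_X, map_mul, MvPolynomial.eval_X, ptS_sI, ptS_oI]
  rw [sum4_comm]
  have h1 : ∀ i, (if oI sd i = oI sd k₀ then (1 : ℂ) else 0) = (Pi.single k₀ 1 : Fin 3 → ℂ) i := by
    intro i
    by_cases h : i = k₀
    · subst h
      rw [if_pos rfl, Pi.single_eq_same]
    · rw [if_neg, Pi.single_eq_of_ne h]
      intro h'
      cases sd
      · exact h (Sum.inr_injective h')
      · exact h (Sum.inl_injective h')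
  have h2 : ∀ k, (if sI sd k = oI sd k₀ then (1 : ℂ) else 0) = 0 := by
    intro k
    rw [if_neg]
    intro h'
    cases sd
    · cases h'
    · cases h'
  have h3 : ∀ k l, ∑ i, ∑ j, Gs sd V.G i j k l *
      ((((if sI sd i = oI sd k₀ then (1 : ℂ) else 0) * x j + x i *
        (if sI sd j = oI sd k₀ then (1 : ℂ) else 0)) * (y k * y l)) + x i * x j *
        ((if oI sd k = oI sd k₀ then (1 : ℂ) else 0) * y l + y k *
          (if oI sd l = oI sd k₀ then (1 : ℂ) else 0))) =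
      gk V.G sd x k l * ((Pi.single k₀ 1 : Fin 3 → ℂ) k * y l +
        y k * (Pi.single k₀ 1 : Fin 3 → ℂ) l) := by
    intro k l
    rw [gk, Finset.sum_mul]
    refine Finset.sum_congr rfl fun i _ => ?_
    rw [Finset.sum_mul]
    refine Finset.sum_congr rfl fun j _ => ?_
    rw [h1, h1, h2, h2, smul_eq_mul]
    ring
  simp only [h3]
  simp only [mul_add, Finset.sum_add_distrib]
  have h4 : ∑ k, ∑ l, gk V.G sd x k l * ((Pi.single k₀ 1 : Fin 3 → ℂ) k * y l) =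
      ∑ l, gk V.G sd x k₀ l * y l := by
    rw [Finset.sum_eq_single k₀]
    · refine Finset.sum_congr rfl fun l _ => ?_
      rw [Pi.single_eq_same, one_mul]
    · intro k _ hk
      refine Finset.sum_eq_zero fun l _ => ?_
      rw [Pi.single_eq_of_ne hk, zero_mul, mul_zero]
    · intro h
      exact absurd (Finset.mem_univ _) h
  have h5 : ∑ k, ∑ l, gk V.G sd x k l * (y k * (Pi.single k₀ 1 : Fin 3 → ℂ) l) =
      ∑ l, gk V.G sd x k₀ l * y l := by
    refine Finset.sum_congr rfl fun k _ => ?_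
    rw [Finset.sum_eq_single k₀]
    · rw [Pi.single_eq_same, mul_one, gk_symm V sd x k k₀]
    · intro l _ hl
      rw [Pi.single_eq_of_ne hl, mul_zero, mul_zero]
    · intro h
      exact absurd (Finset.mem_univ _) h
  rw [h4, h5]
  ring

/-- The determinant along a line. -/
def Dp (x v : Fin 3 → ℂ) : Polynomial ℂ :=
  (Matrix.of (gk V.G sd (fun j => Polynomial.C (x j) + Polynomial.X * Polynomial.C (v j)))).det

lemma eval_gk (x v : Fin 3 → ℂ) (t : ℂ) (k l : Fin 3) : (gk V.G sd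
    (fun j => Polynomial.C (x j) + Polynomial.X * Polynomial.C (v j)) k l).eval t =
      gk V.G sd (fun j => x j + t * v j) k l := by
  have h := map_gk V.G sd (fun j => Polynomial.C (x j) + Polynomial.X * Polynomial.C (v j))
    (evP t) k l
  rw [evP_apply] at h
  rw [h]
  congr 1
  funext j
  rw [evP_apply]
  simp
  ring

lemma eval_Dp (x v : Fin 3 → ℂ) (t : ℂ) :
    (Dp V sd x v).eval t = dt (gk V.G sd (fun j => x j + t * v j)) := by
  rw [Dp, ← Polynomial.coe_evalRingHom, RingHom.map_det, dt]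
  congr 1
  ext k l
  exact eval_gk V sd x v t k l

lemma deriv_gk (x v : Fin 3 → ℂ) (k l : Fin 3) : (Polynomial.derivative (gk V.G sd
    (fun j => Polynomial.C (x j) + Polynomial.X * Polynomial.C (v j)) k l)).eval 0 =
      dB V sd x v k l := by
  rw [gk, dB, map_sum, Polynomial.eval_finsetSum]
  refine Finset.sum_congr rfl fun i _ => ?_
  rw [map_sum, Polynomial.eval_finsetSum]
  refine Finset.sum_congr rfl fun j _ => ?_
  rw [Polynomial.derivative_smul, Polynomial.eval_smul, smul_eq_mul]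
  congr 1
  simp
  ring

lemma coeff_one (p : Polynomial ℂ) : p.coeff 1 = (Polynomial.derivative p).eval 0 := by
  rw [← Polynomial.coeff_zero_eq_eval_zero, Polynomial.coeff_derivative]
  simp

/-- The derivative of the determinant at a point where it vanishes. -/
lemma coeff_Dp {x : Fin 3 → ℂ} {y : Fin 3 → ℂ}
    (e0 : y 0 * y 0 = gk V.G sd x 1 1 * gk V.G sd x 2 2 - gk V.G sd x 1 2 * gk V.G sd x 1 2)
    (e1 : y 1 * y 1 = gk V.G sd x 0 0 * gk V.G sd x 2 2 - gk V.G sd x 0 2 * gk V.G sd x 0 2)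
    (e2 : y 2 * y 2 = gk V.G sd x 0 0 * gk V.G sd x 1 1 - gk V.G sd x 0 1 * gk V.G sd x 0 1)
    (e3 : y 0 * y 1 = gk V.G sd x 0 2 * gk V.G sd x 1 2 - gk V.G sd x 0 1 * gk V.G sd x 2 2)
    (e4 : y 0 * y 2 = gk V.G sd x 0 1 * gk V.G sd x 1 2 - gk V.G sd x 0 2 * gk V.G sd x 1 1)
    (e5 : y 1 * y 2 = gk V.G sd x 0 1 * gk V.G sd x 0 2 - gk V.G sd x 0 0 * gk V.G sd x 1 2)
    (v : Fin 3 → ℂ) : (Dp V sd x v).coeff 1 = ∑ k, ∑ l, y k * y l * dB V sd x v k l := by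
  have hg : ∀ k l, gk V.G sd x k l = gk V.G sd x l k := gk_symm V sd x
  have h0 : ∀ k l, (gk V.G sd (fun j => Polynomial.C (x j) + Polynomial.X * Polynomial.C (v j))
      k l).eval 0 = gk V.G sd x k l := by
    intro k l
    rw [eval_gk]
    congr 1
    funext j
    rw [zero_mul, add_zero]
  rw [coeff_one, Dp, Matrix.det_fin_three]
  simp only [Matrix.of_apply, map_sub, map_add, Polynomial.derivative_mul, Polynomial.eval_sub,
    Polynomial.eval_add, Polynomial.eval_mul, h0, deriv_gk, Fin.sum_univ_three]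
  rw [hg 1 0, hg 2 0, hg 2 1]
  have f1 := e0
  linear_combination (-(dB V sd x v 0 0)) * e0 - (dB V sd x v 1 1) * e1 - (dB V sd x v 2 2) * e2 -
    (dB V sd x v 0 1 + dB V sd x v 1 0) * e3 - (dB V sd x v 0 2 + dB V sd x v 2 0) * e4 -
    (dB V sd x v 1 2 + dB V sd x v 2 1) * e5

end

end Run7.h164
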