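import Pool.Agent.Run7.h164.SW
import Mathlib.LinearAlgebra.Matrix.Adjugate

set_option autoImplicit false
set_option linter.unusedVariables false

/-!
Lattices with even pairs have discriminant divisible by four.
-/

open Matrix

namespace Run7.h164

section Det

variable {r : ℕ} (G : Matrix (Fin r) (Fin r) ℤ)

lemma det_step {m : Fin r → ℤ} (hm : ∀ k, 2 ∣ (G *ᵥ m) k) (i : Fin r) :
    ∃ u : Fin r → ℤ, (∀ k, (G *ᵥ m) k = 2 * u k) ∧ 2 * (G.updateCol i u).det = G.det * m i := by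
  choose u hu using hm
  refine ⟨u, hu, ?_⟩
  have h1 : G *ᵥ m = (2 : ℤ) • u := by
    funext k
    rw [hu k]
    rfl
  have h2 : (G.updateCol i ((2 : ℤ) • u)).det = G.det * m i := by
    rw [← Matrix.cramer_apply, Matrix.cramer_eq_adjugate_mulVec, ← h1, Matrix.mulVec_mulVec,
      Matrix.adjugate_mul]
    simp
  rw [← h2, Matrix.det_updateCol_smul]

lemma mulVec_updateCol {m u : Fin r → ℤ} (i : Fin r) (hi : m i = 0) :
    (G.updateCol i u) *ᵥ m = G *ᵥ m := by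
  funext k
  simp only [Matrix.mulVec, dotProduct]
  refine Finset.sum_congr rfl fun j _ => ?_
  by_cases h : j = i
  · subst h
    rw [hi, mul_zero, mul_zero]
  · rw [Matrix.updateCol_ne h]

/-- Two independent vectors in the kernel modulo two. -/
lemma four_dvd_det {m n : Fin r → ℤ} (hm : ∀ k, 2 ∣ (G *ᵥ m) k) (hn : ∀ k, 2 ∣ (G *ᵥ n) k)
    {i j : Fin r} (hi : Odd (m i)) (hi' : Even (n i)) (hj : Odd (n j)) : 4 ∣ G.det := by
  obtain ⟨u, hu, h1⟩ := det_step G hm i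
  have hij : j ≠ i := by
    rintro rfl
    exact (Int.not_even_iff_odd.2 hj) hi'
  obtain ⟨t, ht⟩ := hi'
  let n' : Fin r → ℤ := n - (n i) • Pi.single i 1
  have n'i : n' i = 0 := by simp [n']
  have n'j : n' j = n j := by simp [n', hij]
  have h2 : ∀ k, 2 ∣ ((G.updateCol i u) *ᵥ n') k := by
    intro k
    rw [mulVec_updateCol G i n'i, Matrix.mulVec_sub, Matrix.mulVec_smul]
    simp only [Pi.sub_apply, Pi.smul_apply, smul_eq_mul]
    refine dvd_sub (hn k) ?_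
    rw [ht]
    exact ⟨t * (G *ᵥ Pi.single i 1) k, by ring⟩
  obtain ⟨w, hw, h3⟩ := det_step (G.updateCol i u) h2 j
  rw [n'j] at h3
  have h4 : (2 : ℤ) ∣ (G.updateCol i u).det := by
    have h5 : (2 : ℤ) ∣ (G.updateCol i u).det * n j := ⟨_, h3.symm⟩
    rcases Int.prime_two.dvd_or_dvd h5 with h | h
    · exact h
    · exact absurd (even_iff_two_dvd.2 h) (Int.not_even_iff_odd.2 hj)
  obtain ⟨c, hc⟩ := h4
  obtain ⟨d, hd⟩ := hi
  have h6 : (4 : ℤ) ∣ G.det * m i := ⟨c, by rw [← h1, hc]; ring⟩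
  have h7 : IsCoprime (4 : ℤ) (m i) := by
    have h8 : IsCoprime (2 : ℤ) (m i) := by
      rw [hd]
      exact ⟨-d, 1, by ring⟩
    have h9 := h8.pow_left (m := 2)
    norm_num at h9
    exact h9
  exact h7.dvd_of_dvd_mul_right h6

lemma exists_odd {a b : Fin r → ℤ} (h : Odd (a ⬝ᵥ b)) : ∃ i, Odd (a i) := by
  by_contra! hc
  apply Int.not_even_iff_odd.2 h
  rw [dotProduct]
  exact Finset.even_sum _ fun i _ => ((Int.not_odd_iff_even.1 (hc i))).mul_right _

/-- Lattices with even vectors have discriminant divisible by four. -/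
theorem four_dvd_of_even {x y l : ℤ × (Fin r → ℤ) × ℤ} (h : ST.EvenVectors G x y l) :
    4 ∣ G.det := by
  have key : ∀ z : ℤ × (Fin r → ℤ) × ℤ, (∀ w, Even (ST.mukai G w z)) →
      Even z.1 ∧ Even z.2.2 ∧ ∀ k, 2 ∣ (G *ᵥ z.2.1) k := by
    intro z hz
    refine ⟨?_, ?_, fun k => ?_⟩
    · have := hz (0, 0, -1)
      simpa [ST.mukai] using this
    · have := hz (-1, 0, 0)
      simpa [ST.mukai] using this
    · have := hz (0, Pi.single k 1, 0)
      rw [← even_iff_two_dvd]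
      simpa [ST.mukai] using this
  obtain ⟨⟨a, ha⟩, ⟨b, hb⟩, hm⟩ := key x h.evenx
  obtain ⟨⟨c, hc⟩, ⟨d, hd⟩, hn⟩ := key y h.eveny
  choose u hu using hm
  choose w hw using hn
  have eu : G *ᵥ x.2.1 = (2 : ℤ) • u := by
    funext k
    rw [hu k]
    rfl
  have ew : G *ᵥ y.2.1 = (2 : ℤ) • w := by
    funext k
    rw [hw k]
    rfl
  have h1 := h.xx
  have h2 := h.yy
  have h3 := h.xy
  have h4 := h.yx
  simp only [ST.mukai, ha, hb, hc, hd, eu, ew, dotProduct_smul, smul_eq_mul] at h1 h2 h3 h4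
  have o1 : Odd (x.2.1 ⬝ᵥ w) := ⟨a * d + b * c, by linarith⟩
  have o2 : Odd (y.2.1 ⬝ᵥ u) := ⟨c * b + d * a, by linarith⟩
  have o3 : Even (x.2.1 ⬝ᵥ u) := ⟨2 * (a * b), by linarith⟩
  obtain ⟨i, hi⟩ := exists_odd o1
  have hm : ∀ k, 2 ∣ (G *ᵥ x.2.1) k := fun k => ⟨_, hu k⟩
  have hn : ∀ k, 2 ∣ (G *ᵥ y.2.1) k := fun k => ⟨_, hw k⟩
  by_cases hi' : Even (y.2.1 i)
  · obtain ⟨j, hj⟩ := exists_odd o2
    exact four_dvd_det G hm hn hi hi' hj
  · have hn' : ∀ k, 2 ∣ (G *ᵥ (y.2.1 - x.2.1)) k := by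
      intro k
      rw [Matrix.mulVec_sub]
      exact dvd_sub (hn k) (hm k)
    have o4 : Odd ((y.2.1 - x.2.1) ⬝ᵥ u) := by
      rw [sub_dotProduct]
      exact o2.sub_even o3
    obtain ⟨j, hj⟩ := exists_odd o4
    exact four_dvd_det G hm hn' hi ((Int.not_even_iff_odd.1 hi').sub_odd hi) hj

end Det

end Run7.h164
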