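import Pool.Agent.Run7.h164.PQ
import Pool.Agent.Run7.h164.LD

set_option autoImplicit false
set_option linter.unusedVariables false
set_option linter.unusedSectionVars false

/-!
Equivalences of components with categories with the numerical structure of the derived category of
a K3 surface.
-/

open CategoryTheory Limits TopologicalSpace AlgebraicGeometry Opposite Pretriangulated
open Module

namespace Run7.h164

noncomputable section

set_option backward.isDefEq.respectTransparency false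

section Tr

universe v u v' u'

variable {C : Type u} [Category.{v} C] [Preadditive C] [Linear ℂ C] [HasShift C ℤ]
  {D : Type u'} [Category.{v'} D] [Preadditive D] [Linear ℂ D] [HasShift D ℤ]
  {P : ObjectProperty C}

/-- Functors to a category, commuting with the shift on objects. -/
def ShT (Φ : P.FullSubcategory ⥤ D) : Prop :=
  ∀ E E' : P.FullSubcategory, Nonempty (E'.obj ≅ E.obj⟦(1 : ℤ)⟧) →
    Nonempty (Φ.obj E' ≅ (Φ.obj E)⟦(1 : ℤ)⟧)

lemma shT_all {Φ : P.FullSubcategory ⥤ D} (h : ShT Φ)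
    (hP : ∀ (n : ℤ) (E : C), P E → P (E⟦n⟧)) (n : ℤ) :
    ∀ E E' : P.FullSubcategory, Nonempty (E'.obj ≅ E.obj⟦n⟧) →
    Nonempty (Φ.obj E' ≅ (Φ.obj E)⟦n⟧) := by
  induction n using Int.induction_on with
  | zero =>
    rintro E E' ⟨e⟩
    have e1 : E' ≅ E := fsIso (e ≪≫ (shiftFunctorZero C ℤ).app E.obj)
    exact ⟨Φ.mapIso e1 ≪≫ ((shiftFunctorZero D ℤ).app (Φ.obj E)).symm⟩
  | succ m ih =>
    rintro E E' ⟨e⟩
    let E2 : P.FullSubcategory := ⟨E.obj⟦(m : ℤ)⟧, hP _ _ E.property⟩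
    obtain ⟨a⟩ := ih E E2 ⟨Iso.refl _⟩
    obtain ⟨b⟩ := h E2 E' ⟨e ≪≫ (shiftFunctorAdd' C (m : ℤ) 1 ((m : ℤ) + 1) rfl).app E.obj⟩
    exact ⟨b ≪≫ (shiftFunctor D (1 : ℤ)).mapIso a ≪≫
      ((shiftFunctorAdd' D (m : ℤ) 1 ((m : ℤ) + 1) rfl).app (Φ.obj E)).symm⟩
  | pred m ih =>
    rintro E E' ⟨e⟩
    let E2 : P.FullSubcategory := ⟨E.obj⟦(-m : ℤ)⟧, hP _ _ E.property⟩
    obtain ⟨a⟩ := ih E E2 ⟨Iso.refl _⟩
    obtain ⟨b⟩ := h E' E2 ⟨(shiftFunctorAdd' C (-m - 1 : ℤ) 1 (-m : ℤ) (by ring)).app E.obj ≪≫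
      (shiftFunctor C (1 : ℤ)).mapIso e.symm⟩
    refine ⟨?_⟩
    exact (shiftShiftNeg (Φ.obj E') (1 : ℤ)).symm ≪≫
      (shiftFunctor D (-1 : ℤ)).mapIso (b.symm ≪≫ a) ≪≫
      ((shiftFunctorAdd' D (-m : ℤ) (-1) (-m - 1 : ℤ) (by ring)).app (Φ.obj E)).symm

lemma eu_to (Φ : P.FullSubcategory ⥤ D) [Φ.IsEquivalence] [Φ.Additive]
    [Φ.Linear ℂ] (h : ShT Φ) (hP : ∀ (n : ℤ) (E : C), P E → P (E⟦n⟧)) (E F : P.FullSubcategory) :
    eu E.obj F.obj = eu (Φ.obj E) (Φ.obj F) := by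
  refine eu_congr fun i => ?_
  let F2 : P.FullSubcategory := ⟨F.obj⟦i⟧, hP _ _ F.property⟩
  obtain ⟨a⟩ := shT_all h hP i F F2 ⟨Iso.refl _⟩
  let e1 : (E.obj ⟶ F.obj⟦i⟧) ≃ₗ[ℂ] (E ⟶ F2) := (fsHom E F2).symm
  let e2 : (E ⟶ F2) ≃ₗ[ℂ] (Φ.obj E ⟶ Φ.obj F2) :=
    LinearEquiv.ofBijective (Φ.mapLinearMap ℂ) ⟨Φ.map_injective, Φ.map_surjective⟩
  let e4 : (Φ.obj E ⟶ Φ.obj F2) ≃ₗ[ℂ] (Φ.obj E ⟶ (Φ.obj F)⟦i⟧) :=
    { toFun := fun x => x ≫ a.hom
      invFun := fun x => x ≫ a.inv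
      left_inv := fun x => by simp
      right_inv := fun x => by simp
      map_add' := fun x y => Preadditive.add_comp _ _ _ _ _ _
      map_smul' := fun c x => Linear.smul_comp _ _ _ _ _ _ }
  exact ⟨e1.trans (e2.trans e4)⟩

end Tr

attribute [local instance] HasDerivedCategory.standard

universe v u

section Mukai

variable {r : ℕ} (G : Matrix (Fin r) (Fin r) ℤ)

lemma mukai_neg_right (x y : ℤ × (Fin r → ℤ) × ℤ) :
    ST.mukai G x (-y) = - ST.mukai G x y := by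
  simp only [ST.mukai, Prod.snd_neg, Prod.fst_neg, Matrix.mulVec_neg, dotProduct_neg]
  ring

lemma mukai_neg_left (x y : ℤ × (Fin r → ℤ) × ℤ) :
    ST.mukai G (-x) y = - ST.mukai G x y := by
  simp only [ST.mukai, Prod.snd_neg, Prod.fst_neg, neg_dotProduct]
  ring

end Mukai

/-- Rationality of Verra fourfolds whose component is equivalent to a category with the numerical
structure of the derived category of a K3 surface without even vectors. -/
theorem rational_of_k3 (S : Set (ℕ × ℕ)) (hS : S ⊆ S6) (V : ST.Verra) {𝒟 : Type u}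
    [Category.{v} 𝒟] [Preadditive 𝒟] [Linear ℂ 𝒟] [HasShift 𝒟 ℤ] {r : ℕ}
    (G : Matrix (Fin r) (Fin r) ℤ) (hD : ST.K3Cat 𝒟 G)
    (Φ : (ST.Ku V.Y S).FullSubcategory ⥤ 𝒟) [Φ.IsEquivalence] [Φ.Additive] [Φ.Linear ℂ]
    (hΦ : ST.CommShiftTo Φ)
    (h : (¬ ∃ x y l, ST.EvenVectors G x y l) ∨ ¬ (4 : ℤ) ∣ G.det) : ST.Rational V.Y := by
  have h' : ¬ ∃ x y l, ST.EvenVectors G x y l := by
    rcases h with h | h
    · exact h
    · rintro ⟨x, y, l, hx⟩
      exact h (four_dvd_of_even G hx)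
  apply rat_of_noTriple V S hS
  rintro ⟨A, B, L, hh⟩
  have h1 := (evenTriple_iff _ _ _ _).1 hh
  have hP := ku_shift V S
  have e : ∀ E F : (ST.Ku V.Y S).FullSubcategory,
      ST.mukai G (hD.vec (Φ.obj E)) (hD.vec (Φ.obj F)) = - eu E.obj F.obj := by
    intro E F
    rw [eu_to Φ hΦ hP E F]
    have := hD.euler (Φ.obj E) (Φ.obj F)
    change eu (Φ.obj E) (Φ.obj F) = _ at this
    rw [this]
    ring
  let A' : (ST.Ku V.Y S).FullSubcategory := ⟨A, h1.pair.memA⟩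
  let B' : (ST.Ku V.Y S).FullSubcategory := ⟨B, h1.pair.memB⟩
  let L' : (ST.Ku V.Y S).FullSubcategory := ⟨L, h1.memL⟩
  have ev : ∀ (F : (ST.Ku V.Y S).FullSubcategory), (∀ E, ST.Ku V.Y S E → Even (eu E F.obj)) →
      ∀ w, Even (ST.mukai G w (hD.vec (Φ.obj F))) := by
    intro F hF w
    obtain ⟨E₀, rfl⟩ := hD.surj w
    let E := Φ.objPreimage E₀
    have h2 : ST.mukai G (hD.vec E₀) (hD.vec (Φ.obj F)) = - eu E.obj F.obj := by
      rw [eu_to Φ hΦ hP E F, ← eu_iso_left (Φ.objObjPreimageIso E₀).symm]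
      have := hD.euler E₀ (Φ.obj F)
      change eu E₀ (Φ.obj F) = _ at this
      rw [this]
      ring
    rw [h2]
    exact (hF E.obj E.property).neg
  refine h' ⟨hD.vec (Φ.obj A'), -hD.vec (Φ.obj B'), hD.vec (Φ.obj L'), ?_, ?_, ?_, ?_, ?_, ?_, ?_,
    ?_, ?_, ev A' h1.pair.evenA, fun w => ?_⟩
  · rw [e, h1.pair.selfA]
    rfl
  · rw [mukai_neg_left, mukai_neg_right, e, h1.pair.selfB]
    rfl
  · rw [mukai_neg_right, e, h1.pair.ab]
    rfl
  · rw [mukai_neg_left, e, h1.pair.ba]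
    rfl
  · rw [e, h1.selfL]
    rfl
  · rw [e, h1.al]
    rfl
  · rw [e, h1.la]
    rfl
  · rw [mukai_neg_left, e, h1.bl]
    rfl
  · rw [mukai_neg_right, e, h1.lb]
    rfl
  · rw [mukai_neg_right]
    exact (ev B' h1.pair.evenB w).neg

end

end Run7.h164
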