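import Pool.Agent.Run7.h164.LV

set_option autoImplicit false
set_option linter.unusedVariables false

/-!
The graded modules and the sheaves associated with Clifford modules.
-/

open CategoryTheory Limits TopologicalSpace AlgebraicGeometry Opposite TopCat

namespace Run7.h164

noncomputable section

set_option backward.isDefEq.respectTransparency false

open Pool.Agent.W506 Pool.Agent.N212 Pool.Agent.R924

variable {A₀ : Type} [CommRing A₀] [Algebra ℂ A₀]
  {G : Fin 3 → Fin 3 → Fin 3 → Fin 3 → ℂ} {sd : Bool} {a : Fin 3 → A₀}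

section Basic

variable {M : CM G sd a}

/-- The coefficients. -/
def co (l : LM M) (e : Ex) : M.C := (show Ex →₀ M.C from l) e

lemma co_ext {l l' : LM M} (h : ∀ e, co l e = co l' e) : l = l' := Finsupp.ext h

lemma co_add (l l' : LM M) (e : Ex) : co (l + l') e = co l e + co l' e := rfl

lemma co_sub (l l' : LM M) (e : Ex) : co (l - l') e = co l e - co l' e := rfl

lemma co_neg (l : LM M) (e : Ex) : co (-l) e = -co l e := rfl

lemma co_zero (e : Ex) : co (0 : LM M) e = 0 := rfl

lemma co_smul (c : A₀) (l : LM M) (e : Ex) : co (c • l) e = c • co l e := rfl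

/-- The shift. -/
def shL (e : Ex) (l : LM M) : LM M := (sh (A₀ := A₀) e (show Ex →₀ M.C from l) : Ex →₀ M.C)

lemma co_shL (e : Ex) (l : LM M) (x : Ex) : co (shL e l) x = co l (-e + x) := rfl

lemma shL_shL (e e' : Ex) (l : LM M) : shL e (shL e' l) = shL (e + e') l := by
  refine co_ext fun x => ?_
  rw [co_shL, co_shL, co_shL]
  congr 1
  abel

lemma shL_zero (l : LM M) : shL 0 l = l := by
  refine co_ext fun x => ?_
  rw [co_shL, neg_zero, zero_add]

lemma shL_add (e : Ex) (l l' : LM M) : shL e (l + l') = shL e l + shL e l' :=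
  co_ext fun x => rfl

lemma shL_sub (e : Ex) (l l' : LM M) : shL e (l - l') = shL e l - shL e l' :=
  co_ext fun x => rfl

lemma smulA_def (c : A₀) (l : LM M) : (c • l : LM M) = (c • (show Ex →₀ M.C from l) : Ex →₀ M.C) :=
  rfl

/-- The action of the coordinate ring of the product. -/
def aB (d : Bi) (l : LM M) : LM M := (actB M d (show Ex →₀ M.C from l) : Ex →₀ M.C)

/-- The action of the square root. -/
def aW (l : LM M) : LM M := (actW M (show Ex →₀ M.C from l) : Ex →₀ M.C)

lemma smulR_def (r : RF G) (l : LM M) : r • l = aB r.re l + aB r.im (aW l) := rfl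

lemma smulR_algebraMap (d : Bi) (l : LM M) : (algebraMap Bi (RF G) d) • l = aB d l := by
  rw [smulR_def]
  have h1 : (algebraMap Bi (RF G) d).im = 0 := rfl
  have h2 : aB (0 : Bi) (aW l) = 0 := by
    change (actB M 0 _ : Ex →₀ M.C) = 0
    rw [map_zero]
    rfl
  rw [h1, h2, add_zero]
  rfl

lemma co_mono (m : Gm) (c : ℂ) (l : LM M) (e : Ex) :
    co (aB (AddMonoidAlgebra.single m c) l) e = (algebraMap ℂ A₀ c *
      ∏ i, a i ^ (pm sd m).1 i) • co l (-(fun i => ((pm sd m).2 i : ℤ)) + e) := by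
  change (actB M (AddMonoidAlgebra.single m c) (show Ex →₀ M.C from l) : Ex →₀ M.C) e = _
  rw [actB_single, mono, smul_smul]
  rfl

lemma co_aW (l : LM M) (e : Ex) : co (aW l) e = ∑ k, M.E k (co l (-(ue k) + e)) := by
  change (actW M (show Ex →₀ M.C from l) : Ex →₀ M.C) e = _
  rw [actW, LinearMap.sum_apply, Finsupp.finsetSum_apply]
  rfl

lemma aB_uu (i k : Fin 3) (l : LM M) : aB (uu (ch sd i k).1 (ch sd i k).2) l =
    a i • shL (ue k) l := by
  change (actB M _ (show Ex →₀ M.C from l) : Ex →₀ M.C) = _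
  rw [actB_uu]
  rfl

end Basic

/-- The homogeneous elements. -/
def dgL (M : CM G sd a) (n : ℤ) : AddSubgroup (LM M) where
  carrier := {l | ∀ e, co l e ≠ 0 → (∀ i, 0 ≤ e i) ∧ ∑ i, e i = n}
  add_mem' := by
    intro l l' h h' e he
    rw [co_add] at he
    by_cases h1 : co l e = 0
    · rw [h1, zero_add] at he
      exact h' e he
    · exact h e h1
  zero_mem' := fun e he => absurd rfl he
  neg_mem' := by
    intro l h e he
    rw [co_neg, neg_ne_zero] at he
    exact h e he

section Deg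

variable {M : CM G sd a}

lemma mem_dgL {n : ℤ} {l : LM M} : l ∈ dgL M n ↔
    ∀ e, co l e ≠ 0 → (∀ i, 0 ≤ e i) ∧ ∑ i, e i = n := Iff.rfl

lemma mono_mem (m : Gm) (c : ℂ) {n : ℤ} {l : LM M} (hl : l ∈ dgL M n) :
    aB (AddMonoidAlgebra.single m c) l ∈ dgL M (dg m + n) := by
  intro e he
  rw [co_mono] at he
  have h1 : co l (-(fun i => ((pm sd m).2 i : ℤ)) + e) ≠ 0 := fun h => he (by rw [h, smul_zero])
  obtain ⟨h2, h3⟩ := hl _ h1
  refine ⟨fun i => ?_, ?_⟩
  · have := h2 i
    simp only [Pi.add_apply, Pi.neg_apply] at this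
    omega
  · simp only [Pi.add_apply, Pi.neg_apply, Finset.sum_add_distrib, Finset.sum_neg_distrib] at h3
    have h4 := sum_pm_snd (sd := sd) m
    have h5 : ∑ i, ((pm sd m).2 i : ℤ) = dg m := by
      rw [← h4]
      push_cast
      rfl
    omega

lemma aB_mem {i : ℕ} {r : Bi} (hr : r ∈ bg i) {n : ℤ} {l : LM M} (hl : l ∈ dgL M n) :
    aB r l ∈ dgL M (i + n) := by
  refine gr_induction (P := fun r _ => aB r l ∈ dgL M (i + n)) ?_ ?_ ?_ r hr
  · have : aB (0 : Bi) l = 0 := by
      change (actB M 0 _ : Ex →₀ M.C) = 0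
      rw [map_zero]
      rfl
    rw [this]
    exact zero_mem _
  · intro a _ b _ h1 h2
    have : aB (a + b) l = aB a l + aB b l := by
      change (actB M (a + b) _ : Ex →₀ M.C) = _
      rw [map_add]
      rfl
    rw [this]
    exact add_mem h1 h2
  · intro m c hm
    rw [← hm]
    exact mono_mem m c hl

lemma sum_ue (k : Fin 3) : ∑ i, ue k i = 1 := by
  rw [ue, Finset.sum_pi_single', if_pos (Finset.mem_univ _)]

lemma ue_nonneg (k i : Fin 3) : 0 ≤ ue k i := by
  rw [ue]
  by_cases h : i = k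
  · subst h
    rw [Pi.single_eq_same]
    exact zero_le_one
  · rw [Pi.single_eq_of_ne h]

lemma aW_mem {n : ℤ} {l : LM M} (hl : l ∈ dgL M n) : aW l ∈ dgL M (1 + n) := by
  intro e he
  rw [co_aW] at he
  obtain ⟨k, -, hk⟩ := Finset.exists_ne_zero_of_sum_ne_zero he
  have h1 : co l (-(ue k) + e) ≠ 0 := fun h => hk (by rw [h, map_zero])
  obtain ⟨h2, h3⟩ := hl _ h1
  refine ⟨fun i => ?_, ?_⟩
  · have := h2 i
    have h4 := ue_nonneg k i
    simp only [Pi.add_apply, Pi.neg_apply] at this
    omega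
  · simp only [Pi.add_apply, Pi.neg_apply, Finset.sum_add_distrib, Finset.sum_neg_distrib,
      sum_ue] at h3
    omega

lemma smulR_mem {i : ℕ} {j : ℤ} {r : RF G} {l : LM M} (hr : r ∈ rg G i) (hl : l ∈ dgL M j) :
    r • l ∈ dgL M (i + j) := by
  rw [smulR_def]
  refine add_mem (aB_mem hr.1 hl) ?_
  cases i with
  | zero =>
    have h1 : r.im = 0 := hr.2
    rw [h1]
    have : aB (0 : Bi) (aW l) = 0 := by
      change (actB M 0 _ : Ex →₀ M.C) = 0
      rw [map_zero]
      rfl
    rw [this]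
    exact zero_mem _
  | succ i =>
    have h1 := aB_mem (show r.im ∈ bg i from hr.2) (aW_mem hl)
    rwa [show (i : ℤ) + (1 + j) = (i + 1 : ℕ) + j by push_cast; ring] at h1

end Deg

/-- The graded module. -/
def NV (M : CM G sd a) : GM (rg G) where
  M := LM M
  deg := dgL M
  smul_mem := smulR_mem

instance (M : CM G sd a) : IsGr (NV M) where
  comp_smul := by
    intro i m hm c hc n
    classical
    by_contra hne
    have h1 : ∃ e, co ((DirectSum.decompose (rg G) c n : RF G) • m : LM M) e ≠ 0 := by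
      by_contra! h
      exact hne (co_ext h)
    obtain ⟨e, he⟩ := h1
    have h2 : ∀ n' : ℕ, (DirectSum.decompose (rg G) c n' : RF G) • (m : LM M) ∈
        dgL M ((n' : ℤ) + i) := fun n' => smulR_mem (SetLike.coe_mem _) hm
    have h3 := (h2 n e he).2
    have h4 : ∀ n', n' ≠ n → co ((DirectSum.decompose (rg G) c n' : RF G) • m : LM M) e = 0 := by
      intro n' hn'
      by_contra h
      have := (h2 n' e h).2
      omega
    have h5 : (c • m : LM M) = ∑ n' ∈ (DirectSum.decompose (rg G) c).support ∪ {n},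
        (DirectSum.decompose (rg G) c n' : RF G) • (m : LM M) := by
      rw [← Finset.sum_smul]
      congr 1
      rw [← Finset.sum_subset (Finset.subset_union_left)]
      · exact (DirectSum.sum_support_decompose (rg G) c).symm
      · intro x _ hx
        have : DirectSum.decompose (rg G) c x = 0 := by
          by_contra h0
          exact hx (DFinsupp.mem_support_iff.2 h0)
        rw [this]
        rfl
    have h6 : co (∑ n' ∈ (DirectSum.decompose (rg G) c).support ∪ {n},
        (DirectSum.decompose (rg G) c n' : RF G) • (m : LM M)) e = 0 := by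
      rw [← h5]
      have : (c • m : LM M) = 0 := hc
      rw [this]
      rfl
    have h7 : ∀ s : Finset ℕ, co (∑ n' ∈ s, (DirectSum.decompose (rg G) c n' : RF G) •
        (m : LM M)) e = ∑ n' ∈ s, co ((DirectSum.decompose (rg G) c n' : RF G) • m : LM M) e := by
      intro s
      induction s using Finset.induction_on with
      | empty => rw [Finset.sum_empty, Finset.sum_empty]; rfl
      | insert x s hx ih => rw [Finset.sum_insert hx, Finset.sum_insert hx, co_add, ih]
    rw [h7, Finset.sum_eq_single n] at h6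
    · exact he h6
    · intro n' _ hn'
      exact h4 n' hn'
    · intro h
      exact absurd (Finset.mem_union_right _ (Finset.mem_singleton_self n)) h

section Hom

variable {A₁ : Type} [CommRing A₁] [Algebra ℂ A₁] {a₁ : Fin 3 → A₁}
  {A₂ : Type} [CommRing A₂] [Algebra ℂ A₂] {a₂ : Fin 3 → A₂}

/-- Morphisms of Clifford modules over different rings. -/
structure CMH (M : CM G sd a) (M₁ : CM G sd a₁) where
  /-- the map -/
  f : M.C →+ M₁.C
  map_a : ∀ i v, f (a i • v) = a₁ i • f v
  map_c : ∀ (c : ℂ) v, f (algebraMap ℂ A₀ c • v) = algebraMap ℂ A₁ c • f v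
  map_E : ∀ k v, f (M.E k v) = M₁.E k (f v)

variable {M : CM G sd a} {M₁ : CM G sd a₁} {M₂ : CM G sd a₂}

/-- The map on Laurent modules. -/
def lhf (f : M.C →+ M₁.C) : LM M →+ LM M₁ :=
  (Finsupp.mapRange.addMonoidHom f : (Ex →₀ M.C) →+ (Ex →₀ M₁.C))

lemma co_lhf (f : M.C →+ M₁.C) (l : LM M) (e : Ex) : co (lhf f l) e = f (co l e) := rfl

lemma CMH.map_pow (h : CMH M M₁) (i : Fin 3) (n : ℕ) (v : M.C) :
    h.f (a i ^ n • v) = a₁ i ^ n • h.f v := by
  induction n with
  | zero => rw [pow_zero, pow_zero, one_smul, one_smul]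
  | succ n ih => rw [pow_succ', pow_succ', mul_smul, mul_smul, h.map_a, ih]

lemma CMH.map_prod (h : CMH M M₁) (n : Fin 3 → ℕ) (v : M.C) :
    h.f ((∏ i, a i ^ n i) • v) = (∏ i, a₁ i ^ n i) • h.f v := by
  simp only [Fin.prod_univ_three, mul_smul, h.map_pow]

lemma lhf_aB (h : CMH M M₁) (d : Bi) (l : LM M) : lhf h.f (aB d l) = aB d (lhf h.f l) := by
  have h1 : d = ∑ m ∈ d.coeff.support, (AddMonoidAlgebra.single m (d.coeff m) : Bi) := by
    have := AddMonoidAlgebra.sum_coeff_single d
    rw [Finsupp.sum] at this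
    exact this.symm
  have h2 : ∀ {A₀ : Type} [CommRing A₀] [Algebra ℂ A₀] {a : Fin 3 → A₀} {M : CM G sd a}
      (s : Finset Gm) (g : Gm → Bi) (l : LM M), aB (∑ m ∈ s, g m) l = ∑ m ∈ s, aB (g m) l := by
    intro A₀ _ _ a M s g l
    change (actB M (∑ m ∈ s, g m) (show Ex →₀ M.C from l) : Ex →₀ M.C) =
      ∑ m ∈ s, actB M (g m) (show Ex →₀ M.C from l)
    rw [map_sum, LinearMap.sum_apply]
  rw [h1, h2, h2, map_sum]
  refine Finset.sum_congr rfl fun m _ => co_ext fun e => ?_
  rw [co_lhf, co_mono, co_mono, co_lhf, mul_smul, mul_smul, h.map_c, h.map_prod]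

lemma lhf_aW (h : CMH M M₁) (l : LM M) : lhf h.f (aW l) = aW (lhf h.f l) := by
  refine co_ext fun e => ?_
  rw [co_lhf, co_aW, co_aW, map_sum]
  exact Finset.sum_congr rfl fun k _ => h.map_E k _

/-- The linear map on Laurent modules. -/
def lh (h : CMH M M₁) : LM M →ₗ[RF G] LM M₁ where
  toFun := lhf h.f
  map_add' := map_add _
  map_smul' r l := by
    rw [smulR_def, map_add, lhf_aB, lhf_aB, lhf_aW]
    rfl

lemma co_lh (h : CMH M M₁) (l : LM M) (e : Ex) : co (lh h l) e = h.f (co l e) := rfl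

lemma lh_mem (h : CMH M M₁) {n : ℤ} {l : LM M} (hl : l ∈ dgL M n) : lh h l ∈ dgL M₁ n := by
  intro e he
  rw [co_lh] at he
  exact hl e fun h0 => he (by rw [h0, map_zero])

/-- The morphism of graded modules. -/
def gh (h : CMH M M₁) : GH (NV M) (NV M₁) 0 where
  f := lh h
  map_deg := by
    intro i m hm
    rw [add_zero]
    exact lh_mem h hm

/-- The morphism of sheaves. -/
def tm (h : CMH M M₁) (j : ℤ) : til (NV M) j ⟶ til (NV M₁) j := tmap (gh h) (add_zero j).symm

lemma vl_tm (h : CMH M M₁) (j : ℤ) {U : (Proj (rg G)).Opens} (s : Γ(til (NV M) j, U))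
    (x : ProjectiveSpectrum.top (rg G)) (hx : x ∈ U) :
    vl (ap (tm h j) U s) x hx = lmap (gh h).f x (vl s x hx) := rfl

/-- Identity. -/
def CMH.id (M : CM G sd a) : CMH M M where
  f := AddMonoidHom.id _
  map_a _ _ := rfl
  map_c _ _ := rfl
  map_E _ _ := rfl

/-- Composition. -/
def CMH.comp (h' : CMH M₁ M₂) (h : CMH M M₁) : CMH M M₂ where
  f := h'.f.comp h.f
  map_a i v := by
    change h'.f (h.f _) = a₂ i • h'.f (h.f _)
    rw [h.map_a, h'.map_a]
  map_c c v := by
    change h'.f (h.f _) = _ • h'.f (h.f _)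
    rw [h.map_c, h'.map_c]
  map_E k v := by
    change h'.f (h.f _) = M₂.E k (h'.f (h.f _))
    rw [h.map_E, h'.map_E]

/-- Sum. -/
def CMH.add (h h' : CMH M M₁) : CMH M M₁ where
  f := h.f + h'.f
  map_a i v := by
    change h.f _ + h'.f _ = a₁ i • (h.f _ + h'.f _)
    rw [h.map_a, h'.map_a, smul_add]
  map_c c v := by
    change h.f _ + h'.f _ = _ • (h.f _ + h'.f _)
    rw [h.map_c, h'.map_c, smul_add]
  map_E k v := by
    change h.f _ + h'.f _ = M₁.E k (h.f _ + h'.f _)
    rw [h.map_E, h'.map_E, map_add]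

lemma tm_ext {h h' : CMH M M₁} (e : ∀ v, h.f v = h'.f v) (j : ℤ) : tm h j = tm h' j := by
  apply ap_ext
  intro U s
  apply vl_ext
  intro x hx
  rw [vl_tm, vl_tm]
  induction (vl s x hx) using LocalizedModule.induction_on with
  | h m b =>
    rw [lmap_mk, lmap_mk]
    congr 1
    exact co_ext fun e' => e _

lemma tm_id (j : ℤ) : tm (CMH.id M) j = 𝟙 _ := by
  apply ap_ext
  intro U s
  apply vl_ext
  intro x hx
  rw [vl_tm]
  have h1 : ap (𝟙 (til (NV M) j)) U s = s := ap_id _ _
  rw [h1]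
  induction (vl s x hx) using LocalizedModule.induction_on with
  | h m b =>
    rw [lmap_mk]
    congr 1
    exact co_ext fun e' => rfl

lemma tm_comp (h' : CMH M₁ M₂) (h : CMH M M₁) (j : ℤ) : tm (h'.comp h) j = tm h j ≫ tm h' j := by
  apply ap_ext
  intro U s
  apply vl_ext
  intro x hx
  rw [ap_comp, vl_tm, vl_tm, vl_tm]
  induction (vl s x hx) using LocalizedModule.induction_on with
  | h m b =>
    rw [lmap_mk, lmap_mk, lmap_mk]
    congr 1
    exact co_ext fun e' => rfl

omit [Algebra ℂ A₀] [Algebra ℂ A₁] in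
lemma mk_add_same {R N : Type} [CommRing R] [AddCommGroup N] [Module R N] {S : Submonoid R}
    (m m' : N) (s : S) : (LocalizedModule.mk m s + LocalizedModule.mk m' s : LocalizedModule S N) =
      LocalizedModule.mk (m + m') s := by
  rw [LocalizedModule.mk_add_mk, LocalizedModule.mk_eq]
  refine ⟨1, ?_⟩
  simp only [one_smul, Submonoid.smul_def, smul_add, Submonoid.coe_mul, smul_smul]

lemma tm_add (h h' : CMH M M₁) (j : ℤ) : tm (h.add h') j = tm h j + tm h' j := by
  apply ap_ext
  intro U s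
  apply vl_ext
  intro x hx
  rw [ap_add, vl_add, vl_tm, vl_tm, vl_tm]
  induction (vl s x hx) using LocalizedModule.induction_on with
  | h m b =>
    rw [lmap_mk, lmap_mk, lmap_mk, mk_add_same]
    congr 1
    exact co_ext fun e' => rfl

/-- Short exact sequences. -/
lemma ses_tm (h : CMH M M₁) (h' : CMH M₁ M₂) (j : ℤ) (hinj : Function.Injective h.f)
    (hsurj : Function.Surjective h'.f) (hex : ∀ v, h'.f v = 0 ↔ ∃ w, h.f w = v) :
    ∃ w : tm h j ≫ tm h' j = 0, (ShortComplex.mk (tm h j) (tm h' j) w).ShortExact := by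
  classical
  have w : tm h j ≫ tm h' j = 0 := by
    refine tmap_comp_zero (gh h) (gh h') (fun m => co_ext fun e => ?_) _ _
    exact (hex _).2 ⟨_, rfl⟩
  refine ⟨w, ?_⟩
  have hm : Mono (tm h j) := mono_tmap (gh h) (fun l l' hll => co_ext fun e => hinj
    (congrArg (fun z : LM M₁ => co z e) hll)) _
  have he : Epi (tm h' j) := by
    refine epi_tmap (gh h') ?_ _
    intro x i m' hm'
    have h1 : ∀ v, ∃ w, h'.f w = v ∧ (v = 0 → w = 0) := by
      intro v
      by_cases hv : v = 0
      · exact ⟨0, by rw [map_zero, hv], fun _ => rfl⟩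
      · obtain ⟨w, hw⟩ := hsurj v
        exact ⟨w, hw, fun h => absurd h hv⟩
    choose τ hτ hτ0 using h1
    let l : LM M₁ := Finsupp.mapRange τ (hτ0 0 rfl) (show Ex →₀ M₂.C from m')
    have hl : ∀ e, co l e = τ (co (m' : LM M₂) e) := fun e => rfl
    refine ⟨0, 1, l, SetLike.GradedOne.one_mem, one_mem _, ?_, ?_⟩
    · intro e he
      have h2 : co (m' : LM M₂) e ≠ 0 := fun h0 => he (by rw [hl, h0, hτ0 0 rfl])
      obtain ⟨h3, h4⟩ := hm' e h2
      exact ⟨h3, by rw [h4]; simp⟩
    · rw [one_smul]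
      exact co_ext fun e => hτ _
  refine { exact := ?_, mono_f := hm, epi_g := he }
  refine exact_tmap (gh h) (gh h') ?_ _ _ w
  intro x i m hm' h0
  have h1 : ∀ v, ∃ w, (h'.f v = 0 → h.f w = v) ∧ (v = 0 → w = 0) := by
    intro v
    by_cases hv : v = 0
    · exact ⟨0, fun _ => by rw [map_zero, hv], fun _ => rfl⟩
    · by_cases hv' : h'.f v = 0
      · obtain ⟨w, hw⟩ := (hex v).1 hv'
        exact ⟨w, fun _ => hw, fun h => absurd h hv⟩
      · exact ⟨0, fun h => absurd h hv', fun _ => rfl⟩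
  choose τ hτ hτ0 using h1
  let l : LM M := Finsupp.mapRange τ (hτ0 0 rfl) (show Ex →₀ M₁.C from m)
  have hl : ∀ e, co l e = τ (co (m : LM M₁) e) := fun e => rfl
  refine ⟨0, 1, l, SetLike.GradedOne.one_mem, one_mem _, ?_, ?_⟩
  · intro e he
    have h2 : co (m : LM M₁) e ≠ 0 := fun h0 => he (by rw [hl, h0, hτ0 0 rfl])
    obtain ⟨h3, h4⟩ := hm' e h2
    exact ⟨h3, by rw [h4]; simp⟩
  · rw [one_smul]
    exact co_ext fun e => hτ _ (congrArg (fun z : LM M₂ => co z e) h0)

end Hom

end

end Run7.h164
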