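import Pool.Agent.Run7.h164.DR
import Pool.Agent.Run7.h164.FR

set_option autoImplicit false
set_option linter.unusedVariables false

/-!
Verra fourfolds.
-/

open CategoryTheory Limits TopologicalSpace AlgebraicGeometry Opposite

namespace Run7.h164

noncomputable section

/-- The form of bidegree `(2, 2)` as a polynomial. -/
def FP (G : Fin 3 → Fin 3 → Fin 3 → Fin 3 → ℂ) : MvPolynomial (Fin 3 ⊕ Fin 3) ℂ :=
  fm G (fun i => MvPolynomial.X (Sum.inl i)) (fun i => MvPolynomial.X (Sum.inr i))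

/-- The data of a Verra fourfold: a form of bidegree `(2, 2)`, given by its symmetric coefficients,
which defines a smooth divisor in the product of two projective planes. -/
structure Verra where
  /-- the coefficients -/
  G : Fin 3 → Fin 3 → Fin 3 → Fin 3 → ℂ
  symm₁ : ∀ i j k l, G i j k l = G j i k l
  symm₂ : ∀ i j k l, G i j k l = G i j l k
  smooth : ∀ v : Fin 3 ⊕ Fin 3 → ℂ, (∃ i, v (Sum.inl i) ≠ 0) → (∃ i, v (Sum.inr i) ≠ 0) →
    ∃ s, MvPolynomial.eval v (MvPolynomial.pderiv s (FP G)) ≠ 0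

section Eval

lemma map_fm {B B' : Type} [CommRing B] [Algebra ℂ B] [CommRing B'] [Algebra ℂ B']
    (φ : B →ₐ[ℂ] B') (G : Fin 3 → Fin 3 → Fin 3 → Fin 3 → ℂ) (x y : Fin 3 → B) :
    φ (fm G x y) = fm G (fun i => φ (x i)) (fun i => φ (y i)) := by
  simp only [fm, map_sum, map_smul, map_mul]

lemma toP_FD (G : Fin 3 → Fin 3 → Fin 3 → Fin 3 → ℂ) : toP (FD G) = FP G := evB_FD G _ _

lemma eval_FP (G : Fin 3 → Fin 3 → Fin 3 → Fin 3 → ℂ) (v : Fin 3 ⊕ Fin 3 → ℂ) :
    MvPolynomial.eval v (FP G) = fm G (fun i => v (Sum.inl i)) (fun i => v (Sum.inr i)) := by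
  have h := map_fm (MvPolynomial.aeval v : MvPolynomial (Fin 3 ⊕ Fin 3) ℂ →ₐ[ℂ] ℂ) G
    (fun i => MvPolynomial.X (Sum.inl i)) (fun i => MvPolynomial.X (Sum.inr i))
  simp only [MvPolynomial.aeval_X] at h
  rw [← h, FP]
  rfl

/-- The exponents in the polynomial ring. -/
def exq (m : Gm) : Fin 3 ⊕ Fin 3 →₀ ℕ :=
  Finsupp.equivFunOnFinite.symm (Sum.elim m.1.1 m.1.2)

lemma exq_inj : Function.Injective exq := by
  intro m m' h
  have h1 : Sum.elim m.1.1 m.1.2 = Sum.elim m'.1.1 m'.1.2 :=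
    Finsupp.equivFunOnFinite.symm.injective h
  apply Subtype.ext
  refine Prod.ext ?_ ?_
  · funext i
    exact congrFun h1 (Sum.inl i)
  · funext i
    exact congrFun h1 (Sum.inr i)

lemma toP_single (m : Gm) (c : ℂ) : toP (AddMonoidAlgebra.single m c) =
    MvPolynomial.monomial (exq m) c := by
  rw [toP, evB_single, MvPolynomial.monomial_eq, MvPolynomial.smul_eq_C_mul]
  congr 1
  rw [Finsupp.prod_fintype _ _ (fun i => pow_zero _), Fintype.prod_sum_type]
  rfl

lemma toP_coeff (a : Bi) (m : Gm) : (toP a).coeff (exq m) = a.coeff m := by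
  have h1 : a = ∑ m ∈ a.coeff.support, (AddMonoidAlgebra.single m (a.coeff m) : Bi) := by
    have := AddMonoidAlgebra.sum_coeff_single a
    rw [Finsupp.sum] at this
    exact this.symm
  conv_lhs => rw [h1]
  rw [map_sum, MvPolynomial.coeff_sum]
  simp only [toP_single, MvPolynomial.coeff_monomial]
  by_cases hm : m ∈ a.coeff.support
  · rw [Finset.sum_eq_single m]
    · rw [if_pos rfl]
    · intro m' _ hne
      rw [if_neg (fun h => hne (exq_inj h))]
    · intro h
      exact absurd hm h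
  · rw [Finset.sum_eq_zero]
    · exact (Finsupp.notMem_support_iff.1 hm).symm
    · intro m' hm'
      rw [if_neg]
      intro h
      exact hm (exq_inj h ▸ hm')

lemma toP_injective : Function.Injective toP := by
  rw [injective_iff_map_eq_zero]
  intro a ha
  have h1 : ∀ m, a.coeff m = 0 := fun m => by rw [← toP_coeff, ha, MvPolynomial.coeff_zero]
  have h2 := AddMonoidAlgebra.sum_coeff_single a
  rw [← h2, Finsupp.sum]
  exact Finset.sum_eq_zero fun m _ => by rw [h1, AddMonoidAlgebra.single_zero]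

end Eval

/-- Ternary quadratic forms over the complex numbers have nontrivial zeros. -/
lemma exists_zero_form (Q : Fin 3 → Fin 3 → ℂ) : ∃ y : Fin 3 → ℂ, y ≠ 0 ∧
    ∑ k, ∑ l, Q k l * (y k * y l) = 0 := by
  by_cases hA : Q 0 0 = 0
  · refine ⟨![1, 0, 0], fun h => one_ne_zero (congrFun h 0), ?_⟩
    simp [Fin.sum_univ_three, hA]
  · obtain ⟨s, hs⟩ := IsAlgClosed.exists_pow_nat_eq
      ((Q 0 1 + Q 1 0) ^ 2 - 4 * Q 0 0 * Q 1 1) (n := 2) two_pos
    refine ⟨![(-(Q 0 1 + Q 1 0) + s) / (2 * Q 0 0), 1, 0],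
      fun h => one_ne_zero (congrFun h 1), ?_⟩
    simp only [Fin.sum_univ_three, Matrix.cons_val_zero, Matrix.cons_val_one, Matrix.cons_val]
    field_simp
    linear_combination hs

variable (V : Verra)

lemma exists_zero_V : ∃ v : Fin 3 ⊕ Fin 3 → ℂ, (∃ i, v (Sum.inl i) ≠ 0) ∧
    (∃ i, v (Sum.inr i) ≠ 0) ∧ MvPolynomial.eval v (FP V.G) = 0 := by
  obtain ⟨y, hy, h0⟩ := exists_zero_form (fun k l => V.G 0 0 k l)
  refine ⟨Sum.elim ![1, 0, 0] y, ⟨0, one_ne_zero⟩, Function.ne_iff.1 hy, ?_⟩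
  rw [eval_FP, fm]
  refine Eq.trans ?_ h0
  simp only [Sum.elim_inl, Sum.elim_inr]
  rw [Finset.sum_eq_single 0, Finset.sum_eq_single 0]
  · refine Finset.sum_congr rfl fun k _ => Finset.sum_congr rfl fun l _ => ?_
    simp [mul_assoc]
  · intro j _ hj
    refine Finset.sum_eq_zero fun k _ => Finset.sum_eq_zero fun l _ => ?_
    have : (![1, 0, 0] : Fin 3 → ℂ) j = 0 := by fin_cases j <;> simp_all
    rw [this]
    simp
  · intro h
    exact absurd (Finset.mem_univ _) h
  · intro i _ hi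
    refine Finset.sum_eq_zero fun j _ => Finset.sum_eq_zero fun k _ =>
      Finset.sum_eq_zero fun l _ => ?_
    have : (![1, 0, 0] : Fin 3 → ℂ) i = 0 := by fin_cases i <;> simp_all
    rw [this]
    simp
  · intro h
    exact absurd (Finset.mem_univ _) h

/-- The form is not a square. -/
lemma not_square (S : MvPolynomial (Fin 3 ⊕ Fin 3) ℂ) : FP V.G ≠ S ^ 2 := by
  intro h
  obtain ⟨v, h1, h2, h3⟩ := exists_zero_V V
  obtain ⟨s, hs⟩ := V.smooth v h1 h2
  apply hs
  rw [h, map_pow] at h3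
  have h4 : MvPolynomial.eval v S = 0 := pow_eq_zero_iff (two_ne_zero) |>.1 h3
  rw [h, sq, Derivation.leibniz, map_add, smul_eq_mul, map_mul, h4]
  simp

lemma sq_cancel {a b : Bi} (h : a ^ 2 = FD V.G * b ^ 2) : b = 0 := by
  by_contra hb
  have h1 := congrArg toP h
  rw [map_mul, map_pow, map_pow, toP_FD] at h1
  have hb' : toP b ≠ 0 := fun h => hb (toP_injective (by rw [h, map_zero]))
  have h2 : toP b ^ 2 ∣ toP a ^ 2 := ⟨FP V.G, by rw [h1, mul_comm]⟩
  obtain ⟨S, hS⟩ := (UniqueFactorizationMonoid.pow_dvd_pow_iff_dvd two_ne_zero).1 h2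
  apply not_square V S
  rw [hS, mul_pow] at h1
  have h3 : toP b ^ 2 ≠ 0 := pow_ne_zero 2 hb'
  exact (mul_left_cancel₀ h3 (by rw [h1, mul_comm])).symm

instance : IsDomain (RF V.G) := by
  have h1 : ∀ z : RF V.G, QuadraticAlgebra.norm z = 0 → z = 0 := by
    intro z hz
    rw [QuadraticAlgebra.norm_def] at hz
    have h2 : z.re ^ 2 = FD V.G * z.im ^ 2 := by linear_combination hz
    have h3 := sq_cancel V h2
    rw [h3] at h2
    refine QuadraticAlgebra.ext ?_ h3
    have h4 : z.re ^ 2 = 0 := by rw [h2]; ring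
    exact pow_eq_zero_iff (two_ne_zero) |>.1 h4
  have h2 : NoZeroDivisors (RF V.G) := ⟨by
    intro a b hab
    have h3 : QuadraticAlgebra.norm a * QuadraticAlgebra.norm b = 0 := by
      rw [← map_mul, hab, QuadraticAlgebra.norm_zero]
    exact (mul_eq_zero.1 h3).imp (h1 a) (h1 b)⟩
  exact NoZeroDivisors.to_isDomain _

/-- The Verra fourfold: the double cover of the product of two planes branched along the divisor. -/
abbrev VX : Scheme.{0} := Proj (rg V.G)

/-- The generators of degree one. -/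
def gg (j : Fin 3 × Fin 3) : RF V.G := algebraMap Bi _ (uu j.1 j.2)

lemma gg_mem (j : Fin 3 × Fin 3) : gg V j ∈ rg V.G 1 :=
  ⟨uu_mem j.1 j.2, zero_mem _⟩

lemma gg_ne (j : Fin 3 × Fin 3) : gg V j ≠ 0 := fun h =>
  uu_ne_zero j.1 j.2 (congrArg QuadraticAlgebra.re h)

lemma gg_segre (i j k l : Fin 3) : gg V (i, k) * gg V (j, l) = gg V (i, l) * gg V (j, k) := by
  rw [gg, gg, gg, gg, ← map_mul, ← map_mul, segre]

open Pool.Agent.R924 in
lemma gg_cov (x : VX V) : ∃ j, x ∈ DD (rg V.G) (gg V j) := by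
  by_contra! hcon
  have h0 : ∀ j, gg V j ∈ (show ProjectiveSpectrum (rg V.G) from x).asHomogeneousIdeal.toIdeal :=
    fun j => not_not.1 (hcon j)
  set I := (show ProjectiveSpectrum (rg V.G) from x).asHomogeneousIdeal.toIdeal with hI
  have hprime : I.IsPrime := (show ProjectiveSpectrum (rg V.G) from x).isPrime
  have h1 : ∀ n, 0 < n → ∀ a ∈ bg n, algebraMap Bi (RF V.G) a ∈ I := by
    intro n hn a ha
    refine gr_induction (P := fun a _ => algebraMap Bi (RF V.G) a ∈ I) ?_ ?_ ?_ a ha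
    · rw [map_zero]
      exact zero_mem _
    · intro a _ b _ h1 h2
      rw [map_add]
      exact add_mem h1 h2
    · intro m c hm
      obtain ⟨i, k, m', rfl⟩ := exists_um m (by omega)
      have h2 : (AddMonoidAlgebra.single (um i k + m') c : Bi) =
          uu i k * AddMonoidAlgebra.single m' c := by
        rw [uu, AddMonoidAlgebra.single_mul_single, one_mul]
      rw [h2, map_mul]
      exact Ideal.mul_mem_right _ _ (h0 (i, k))
  have h2 : (QuadraticAlgebra.omega : RF V.G) ∈ I := by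
    have h3 : (QuadraticAlgebra.omega : RF V.G) * QuadraticAlgebra.omega =
        algebraMap Bi _ (FD V.G) := by
      rw [QuadraticAlgebra.omega_mul_omega_eq_mk]
      rfl
    have h4 : algebraMap Bi (RF V.G) (FD V.G) ∈ I := h1 2 two_pos _ (FD_mem V.G)
    rw [← h3] at h4
    exact (hprime.mem_or_mem h4).elim id id
  apply (show ProjectiveSpectrum (rg V.G) from x).not_irrelevant_le
  intro z hz
  classical
  rw [← DirectSum.sum_support_decompose (rg V.G) z]
  refine sum_mem fun n _ => ?_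
  change _ ∈ I
  by_cases hn : n = 0
  · subst hn
    have h5 : (DirectSum.decompose (rg V.G) z 0 : RF V.G) = 0 :=
      (HomogeneousIdeal.mem_irrelevant_iff _ _).1 hz
    rw [h5]
    exact zero_mem _
  · obtain ⟨h5, h6⟩ := SetLike.coe_mem (DirectSum.decompose (rg V.G) z n)
    set w : RF V.G := (DirectSum.decompose (rg V.G) z n : RF V.G) with hw
    have h7 : w = algebraMap Bi _ w.re + algebraMap Bi _ w.im * QuadraticAlgebra.omega := by
      rw [← Algebra.smul_def]
      exact QuadraticAlgebra.mk_eq_add_smul_omega w.re w.im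
    rw [h7]
    exact add_mem (h1 n (Nat.pos_of_ne_zero hn) _ h5) (Ideal.mul_mem_left _ _ h2)

/-- The standard charts. -/
def VF : Pool.Agent.R924.Frame (VX V) (Fin 3 × Fin 3) :=
  gframe (gg V) (gg_cov V) (gg_mem V) (gg_ne V)

/-- The divisor of `O(1, 0)`. -/
def xiD : (VF V).Div :=
  mkDiv (gg V) (gg_mem V) (gg_ne V) (gg_cov V) (0, 0) (fun j => (j.1, 0)) fun j j' =>
    ⟨(j'.1, j.2), by
      obtain ⟨a, b⟩ := j
      obtain ⟨c, d⟩ := j'
      exact gg_segre V c a 0 b⟩

/-- The divisor of `O(0, 1)`. -/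
def etD : (VF V).Div :=
  mkDiv (gg V) (gg_mem V) (gg_ne V) (gg_cov V) (0, 0) (fun j => (0, j.2)) fun j j' =>
    ⟨(j.1, j'.2), by
      obtain ⟨a, b⟩ := j
      obtain ⟨c, d⟩ := j'
      change gg V (0, d) * gg V (a, b) = gg V (a, d) * gg V (0, b)
      rw [gg_segre V 0 a d b, mul_comm]⟩

/-- The divisor of `O(1, 1)`. -/
def alD : (VF V).Div := amD (gg V) (gg_mem V) (gg_ne V) (gg_cov V) (0, 0)

lemma alD_eq : alD V = xiD V * etD V := by
  apply Subtype.ext
  funext j
  obtain ⟨a, b⟩ := j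
  change qu (gg V) (gg_mem V) (gg_ne V) (0, 0) (a, b) =
    qu (gg V) (gg_mem V) (gg_ne V) (0, 0) (a, 0) * qu (gg V) (gg_mem V) (gg_ne V) (0, 0) (0, b)
  rw [← qu_mul (gg V) (gg_mem V) (gg_ne V) (0, 0) (a, 0) (a, b)]
  congr 1
  apply qu_eq
  exact (gg_segre V a 0 b 0).trans (mul_comm _ _)

end

end Run7.h164
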