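import Pool.Agent.N212.C1
import Pool.Agent.W506.S8
import Pool.Agent.W506.S4
import Pool.Agent.W506.A
import Pool.Agent.W456.ExtZero

set_option autoImplicit false
set_option linter.unusedVariables false

/-!
The class of modules without higher cohomology with respect to a line bundle, for modules which are
direct images from the union of three charts.
-/

open CategoryTheory Limits TopologicalSpace AlgebraicGeometry Opposite

namespace Run7.h164

noncomputable section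

set_option backward.isDefEq.respectTransparency false

open Pool.Agent.W506 Pool.Agent.R924 Pool.Agent.N212

section ExtVanish

attribute [local instance] HasDerivedCategory.standard

variable {C : Type*} [Category C] [Abelian C]

/-- Vanishing of `Ext` for a class closed under cokernels. -/
theorem ext_vanish [HasExt C] (P : C → Prop) (L : C)
    (hinj : ∀ N, P N → ∃ (I : C) (f : N ⟶ I), Injective I ∧ Mono f ∧ P I)
    (hcok : ∀ S : ShortComplex C, S.ShortExact → P S.X₁ → P S.X₂ → P S.X₃)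
    (hlift : ∀ S : ShortComplex C, S.ShortExact → P S.X₁ → P S.X₂ → ∀ q : L ⟶ S.X₃,
      ∃ g : L ⟶ S.X₂, g ≫ S.g = q) :
    ∀ (n : ℕ) (N : C), P N → ∀ x : Abelian.Ext L N (n + 1), x = 0 := by
  intro n
  induction n with
  | zero =>
    intro N hN x
    obtain ⟨I, f, hI, hf, hPI⟩ := hinj N hN
    have hS : (ShortComplex.mk f (cokernel.π f) (cokernel.condition f)).ShortExact :=
      { exact := ShortComplex.exact_of_g_is_cokernel _ (cokernelIsCokernel f) }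
    obtain ⟨y, rfl⟩ := Abelian.Ext.covariant_sequence_exact₁ L hS x
      (Abelian.Ext.eq_zero_of_injective _) (zero_add 1)
    obtain ⟨q, rfl⟩ := Abelian.Ext.mk₀_bijective _ _ |>.2 y
    obtain ⟨g, hg⟩ := hlift _ hS hN hPI q
    rw [← hg, ← Abelian.Ext.mk₀_comp_mk₀,
      Abelian.Ext.comp_assoc _ _ _ (zero_add 0) (zero_add 1) (by omega),
      ShortComplex.ShortExact.comp_extClass, Abelian.Ext.comp_zero]
  | succ n ih =>
    intro N hN x
    obtain ⟨I, f, hI, hf, hPI⟩ := hinj N hN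
    have hS : (ShortComplex.mk f (cokernel.π f) (cokernel.condition f)).ShortExact :=
      { exact := ShortComplex.exact_of_g_is_cokernel _ (cokernelIsCokernel f) }
    obtain ⟨y, rfl⟩ := Abelian.Ext.covariant_sequence_exact₁ L hS x
      (Abelian.Ext.eq_zero_of_injective _) rfl
    rw [ih _ (hcok _ hS hN hPI) y, Abelian.Ext.zero_comp]

end ExtVanish

variable {X : Scheme.{0}} {J : Type} (F : Frame X J) (κ : Fin 3 → J)

/-- The union of three charts. -/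
abbrev Zo : X.Opens := F.U (κ 0) ⊔ F.U (κ 1) ⊔ F.U (κ 2)

/-- The triple intersection. -/
abbrev WZ : X.Opens := (F.U (κ 0) ⊓ F.U (κ 1)) ⊓ F.U (κ 2)

lemma z01 : WZ F κ ≤ F.U (κ 0) ⊓ F.U (κ 1) := inf_le_left

lemma z02 : WZ F κ ≤ F.U (κ 0) ⊓ F.U (κ 2) := inf_le_inf_right _ inf_le_left

lemma z12 : WZ F κ ≤ F.U (κ 1) ⊓ F.U (κ 2) := inf_le_inf_right _ inf_le_right

lemma U_le_Zo (j : Fin 3) : F.U (κ j) ≤ Zo F κ := by
  fin_cases j
  · exact le_sup_left.trans le_sup_left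
  · exact le_sup_right.trans le_sup_left
  · exact le_sup_right

lemma mem_Zo {x : X} (hx : x ∈ Zo F κ) : ∃ j, x ∈ F.U (κ j) := by
  rcases hx with (h | h) | h
  · exact ⟨0, h⟩
  · exact ⟨1, h⟩
  · exact ⟨2, h⟩

variable {F}

/-- The modules which are determined by the union of the three charts. -/
def LocZ (N : X.Modules) : Prop :=
  ∀ (j : J) (W : X.Opens), IsAffineOpen W → W ≤ F.U j →
    Function.Bijective (rs N (inf_le_left : W ⊓ Zo F κ ≤ W))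

/-- The modules without higher cohomology. -/
structure ZCls (δ : F.Div) (N : X.Modules) : Prop where
  loc : LocZ (F := F) κ N
  sum : ∀ j, SumOn N (F.U j)
  c1 : ∀ (s₀₁ : Γ(N, F.U (κ 0) ⊓ F.U (κ 1))) (s₀₂ : Γ(N, F.U (κ 0) ⊓ F.U (κ 2)))
    (s₁₂ : Γ(N, F.U (κ 1) ⊓ F.U (κ 2))),
    rs N (z02 F κ) s₀₂ = rs N (z12 F κ) s₁₂ +
      ro (z12 F κ) (Frame.tr δ (κ 1) (κ 2)) • rs N (z01 F κ) s₀₁ →
    ∃ t : ∀ j, Γ(N, F.U (κ j)),
      s₀₁ = rs N inf_le_right (t 1) - Frame.tr δ (κ 0) (κ 1) • rs N inf_le_left (t 0) ∧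
      s₀₂ = rs N inf_le_right (t 2) - Frame.tr δ (κ 0) (κ 2) • rs N inf_le_left (t 0) ∧
      s₁₂ = rs N inf_le_right (t 2) - Frame.tr δ (κ 1) (κ 2) • rs N inf_le_left (t 1)
  c2 : ∀ s : Γ(N, WZ F κ), ∃ (a₀₁ : Γ(N, F.U (κ 0) ⊓ F.U (κ 1)))
    (a₀₂ : Γ(N, F.U (κ 0) ⊓ F.U (κ 2))) (a₁₂ : Γ(N, F.U (κ 1) ⊓ F.U (κ 2))),
    s = rs N (z02 F κ) a₀₂ + rs N (z12 F κ) a₁₂ +
      ro (z12 F κ) (Frame.tr δ (κ 1) (κ 2)) • rs N (z01 F κ) a₀₁

lemma trZ_self (δ : F.Div) (i : J) : Frame.tr δ i i = 1 := by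
  apply F.inj₂ i i
  rw [Frame.ro_tr, mul_inv_cancel, Units.val_one, map_one]

lemma trZ_cocycle (δ : F.Div) (i j l : J) {V : X.Opens} (hij : V ≤ F.U i ⊓ F.U j)
    (hjl : V ≤ F.U j ⊓ F.U l) (hil : V ≤ F.U i ⊓ F.U l) :
    ro hjl (Frame.tr δ j l) * ro hij (Frame.tr δ i j) = ro hil (Frame.tr δ i l) := by
  have h0 : ro (le_inf (inf_le_left.trans inf_le_right) inf_le_right :
        (F.U i ⊓ F.U j) ⊓ F.U l ≤ F.U j ⊓ F.U l) (Frame.tr δ j l) *
      ro (inf_le_left : (F.U i ⊓ F.U j) ⊓ F.U l ≤ _) (Frame.tr δ i j) =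
      ro (le_inf (inf_le_left.trans inf_le_left) inf_le_right :
        (F.U i ⊓ F.U j) ⊓ F.U l ≤ F.U i ⊓ F.U l) (Frame.tr δ i l) := by
    apply F.inj i j l
    rw [map_mul, ro_ro, ro_ro, ro_ro, Frame.ro_tr, Frame.ro_tr, Frame.ro_tr, ← Units.val_mul]
    congr 1
    rw [mul_assoc, inv_mul_cancel_left]
  have hV : V ≤ (F.U i ⊓ F.U j) ⊓ F.U l := le_inf hij (hjl.trans inf_le_right)
  have h1 := congrArg (ro hV) h0
  rwa [map_mul, ro_ro, ro_ro, ro_ro] at h1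

lemma trZ_inv (δ : F.Div) (j l : J) {V : X.Opens} (hjl : V ≤ F.U j ⊓ F.U l)
    (hlj : V ≤ F.U l ⊓ F.U j) :
    ro hlj (Frame.tr δ l j) * ro hjl (Frame.tr δ j l) = 1 := by
  rw [trZ_cocycle δ j l j hjl hlj (le_inf (hjl.trans inf_le_left) (hjl.trans inf_le_left)),
    trZ_self, map_one]

lemma compatZ_symm (δ : F.Div) {N : X.Modules} {j l : J} (s : Γ(N, F.U j)) (t : Γ(N, F.U l))
    (h : rs N (inf_le_right : F.U j ⊓ F.U l ≤ F.U l) t =
      Frame.tr δ j l • rs N (inf_le_left : F.U j ⊓ F.U l ≤ F.U j) s) :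
    rs N (inf_le_right : F.U l ⊓ F.U j ≤ F.U j) s =
      Frame.tr δ l j • rs N (inf_le_left : F.U l ⊓ F.U j ≤ F.U l) t := by
  have hle : F.U l ⊓ F.U j ≤ F.U j ⊓ F.U l := le_inf inf_le_right inf_le_left
  have h1 := congrArg (rs N hle) h
  rw [rs_smul, rs_rs, rs_rs] at h1
  rw [h1, smul_smul]
  have h2 := trZ_inv δ j l hle le_rfl
  rw [ro_refl] at h2
  rw [h2, one_smul]

/-- Compatibility on three charts. -/
lemma compatZ_of (δ : F.Div) {N : X.Modules} (t : ∀ j, Γ(N, F.U (κ j)))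
    (h01 : rs N inf_le_right (t 1) = Frame.tr δ (κ 0) (κ 1) • rs N inf_le_left (t 0))
    (h02 : rs N inf_le_right (t 2) = Frame.tr δ (κ 0) (κ 2) • rs N inf_le_left (t 0))
    (h12 : rs N inf_le_right (t 2) = Frame.tr δ (κ 1) (κ 2) • rs N inf_le_left (t 1))
    (j l : Fin 3) : rs N (inf_le_right : F.U (κ j) ⊓ F.U (κ l) ≤ F.U (κ l)) (t l) =
      Frame.tr δ (κ j) (κ l) • rs N (inf_le_left : F.U (κ j) ⊓ F.U (κ l) ≤ F.U (κ j)) (t j) := by
  have hd : ∀ j, rs N (inf_le_right : F.U (κ j) ⊓ F.U (κ j) ≤ F.U (κ j)) (t j) =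
      Frame.tr δ (κ j) (κ j) • rs N (inf_le_left : F.U (κ j) ⊓ F.U (κ j) ≤ F.U (κ j)) (t j) := by
    intro j
    rw [trZ_self, one_smul]
  fin_cases j <;> fin_cases l
  · exact hd 0
  · exact h01
  · exact h02
  · exact compatZ_symm δ _ _ h01
  · exact hd 1
  · exact h12
  · exact compatZ_symm δ _ _ h02
  · exact compatZ_symm δ _ _ h12
  · exact hd 2

/-- Locality for arbitrary open subsets of charts: injectivity. -/
lemma LocZ.inj (haff : ∀ j, IsAffineOpen (F.U j)) {N : X.Modules} (h : LocZ (F := F) κ N)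
    {W : X.Opens} {s t : Γ(N, W)}
    (hst : rs N (inf_le_left : W ⊓ Zo F κ ≤ W) s = rs N inf_le_left t) : s = t := by
  apply ext_rs_of_mem
  intro x hx
  obtain ⟨j, hj⟩ := F.cover x
  obtain ⟨f, hle, hxf⟩ := (haff j).exists_basicOpen_le (V := W) ⟨x, hx⟩ hj
  refine ⟨_, hle, hxf, (h j _ ((haff j).basicOpen f) (X.basicOpen_le f)).1 ?_⟩
  have h1 := congrArg (rs N (inf_le_inf_right _ hle : X.basicOpen f ⊓ Zo F κ ≤ W ⊓ Zo F κ)) hst
  rw [rs_rs, rs_rs] at h1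
  rw [rs_rs, rs_rs]
  exact h1

variable [Finite J]

/-- Morphisms from line bundles are determined by the three charts. -/
lemma LocZ.hom_ext (haff : ∀ j, IsAffineOpen (F.U j)) {δ : F.Div} {N : X.Modules}
    (h : LocZ (F := F) κ N) {φ ψ : Frame.lb δ ⟶ N}
    (hφ : ∀ k, ap φ _ (Frame.lbE δ (κ k)) = ap ψ _ (Frame.lbE δ (κ k))) : φ = ψ := by
  apply Frame.lb_ext
  intro j
  apply h.inj κ haff
  apply ext_rs_of_mem
  intro x hx
  obtain ⟨k, hk⟩ := mem_Zo F κ hx.2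
  refine ⟨F.U (κ k) ⊓ F.U j, le_inf inf_le_right (inf_le_left.trans (U_le_Zo F κ k)),
    ⟨hk, hx.1⟩, ?_⟩
  rw [rs_rs, rs_rs]
  have key : ∀ φ : Frame.lb δ ⟶ N, rs N (inf_le_right : F.U (κ k) ⊓ F.U j ≤ F.U j)
      (ap φ _ (Frame.lbE δ j)) = Frame.tr δ (κ k) j • rs N (inf_le_left :
        F.U (κ k) ⊓ F.U j ≤ F.U (κ k)) (ap φ _ (Frame.lbE δ (κ k))) := by
    intro φ
    rw [← ap_rs, ← ap_rs, ← map_smul, ← Frame.lb_compat δ (κ k) j]
  exact (key φ).trans (by rw [hφ k]; exact (key ψ).symm)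

/-- Morphisms from line bundles are given by compatible families on the three charts. -/
lemma LocZ.exists_hom (haff : ∀ j, IsAffineOpen (F.U j))
    (hinf : ∀ i j, IsAffineOpen (F.U i ⊓ F.U j)) {δ : F.Div} {N : X.Modules}
    (h : LocZ (F := F) κ N) (t : ∀ j, Γ(N, F.U (κ j)))
    (ht : ∀ j l, rs N (inf_le_right : F.U (κ j) ⊓ F.U (κ l) ≤ F.U (κ l)) (t l) =
      Frame.tr δ (κ j) (κ l) • rs N (inf_le_left : F.U (κ j) ⊓ F.U (κ l) ≤ F.U (κ j)) (t j)) :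
    ∃ φ : Frame.lb δ ⟶ N, ∀ k, ap φ _ (Frame.lbE δ (κ k)) = t k := by
  -- extension to all charts
  have h1 : ∀ j, ∃ s : Γ(N, F.U j), ∀ k, rs N (inf_le_right : F.U (κ k) ⊓ F.U j ≤ F.U j) s =
      Frame.tr δ (κ k) j • rs N (inf_le_left : F.U (κ k) ⊓ F.U j ≤ F.U (κ k)) (t k) := by
    intro j
    obtain ⟨s', hs'⟩ := exists_glue (M := N) (V := F.U j ⊓ Zo F κ)
      (fun k : Fin 3 => F.U (κ k) ⊓ F.U j)
      (fun k => le_inf inf_le_right (inf_le_left.trans (U_le_Zo F κ k)))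
      (fun x hx => by
        obtain ⟨k, hk⟩ := mem_Zo F κ hx.2
        exact Opens.mem_iSup.2 ⟨k, hk, hx.1⟩)
      (fun k => Frame.tr δ (κ k) j •
        rs N (inf_le_left : F.U (κ k) ⊓ F.U j ≤ F.U (κ k)) (t k)) (by
        intro k l
        rw [rs_smul, rs_smul, rs_rs, rs_rs]
        have e1 := congrArg (rs N (le_inf (inf_le_left.trans inf_le_left)
          (inf_le_right.trans inf_le_left) :
          (F.U (κ k) ⊓ F.U j) ⊓ (F.U (κ l) ⊓ F.U j) ≤ F.U (κ k) ⊓ F.U (κ l))) (ht k l)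
        rw [rs_rs, rs_smul, rs_rs] at e1
        rw [e1, smul_smul]
        congr 1
        exact (trZ_cocycle δ (κ k) (κ l) j _ _ _).symm)
    obtain ⟨s, hs⟩ := (h j _ (haff j) le_rfl).2 s'
    refine ⟨s, fun k => ?_⟩
    rw [← hs' k, ← hs, rs_rs]
  choose s hs using h1
  obtain ⟨φ, hφ⟩ := Frame.lb_hom δ N s (by
    intro i j
    apply (h i _ (hinf i j) inf_le_left).1
    apply ext_rs_of_mem
    intro x hx
    obtain ⟨k, hk⟩ := mem_Zo F κ hx.2
    refine ⟨F.U (κ k) ⊓ (F.U i ⊓ F.U j), le_inf inf_le_right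
      (inf_le_left.trans (U_le_Zo F κ k)), ⟨hk, hx.1⟩, ?_⟩
    simp only [rs_rs, rs_smul, ro_ro]
    have e1 := congrArg (rs N (le_inf inf_le_left (inf_le_right.trans inf_le_right) :
      F.U (κ k) ⊓ (F.U i ⊓ F.U j) ≤ F.U (κ k) ⊓ F.U j)) (hs j k)
    have e2 := congrArg (rs N (le_inf inf_le_left (inf_le_right.trans inf_le_left) :
      F.U (κ k) ⊓ (F.U i ⊓ F.U j) ≤ F.U (κ k) ⊓ F.U i)) (hs i k)
    rw [rs_rs, rs_smul, rs_rs] at e1 e2
    rw [e1, e2, smul_smul]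
    congr 1
    exact (trZ_cocycle δ (κ k) i j _ _ _).symm)
  refine ⟨φ, fun k => ?_⟩
  rw [hφ]
  have e1 := hs (κ k) k
  rw [trZ_self, one_smul] at e1
  have e2 := congrArg (rs N (le_inf le_rfl le_rfl : F.U (κ k) ≤ F.U (κ k) ⊓ F.U (κ k))) e1
  rwa [rs_rs, rs_rs, rs_refl, rs_refl] at e2

variable {α : F.Div} (A : Frame.Ample F α)
  (hZ : ∀ (j : J) (W : X.Opens), IsAffineOpen W → W ≤ F.U j → IsAffineOpen (W ⊓ Zo F κ))

omit [Finite J] in
include A in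
lemma isAffine_WZ : IsAffineOpen (WZ F κ) := by
  have h1 : X.basicOpen (ro (inf_le_right : F.U (κ 0) ⊓ F.U (κ 1) ≤ F.U (κ 1))
      (A.co (κ 1) (κ 2))) = WZ F κ := by
    rw [basicOpen_ro, A.basicOpen_co, ← inf_assoc]
    congr 1
    exact inf_eq_left.2 inf_le_right
  rw [← h1]
  exact (A.isAffineOpen_inf (κ 0) (κ 1)).basicOpen _

section SES

variable (S : ShortComplex X.Modules) (hS : S.ShortExact) {δ : F.Div}

omit [Finite J] in
lemma ap_fg_zero (U : X.Opens) (a : Γ(S.X₁, U)) : ap S.g U (ap S.f U a) = 0 := by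
  rw [← ap_comp, S.zero]
  rfl

omit [Finite J] in
include hS hZ in
/-- Quotients are determined by the three charts. -/
theorem LocZ.coker (h₁ : LocZ (F := F) κ S.X₁) (hs : ∀ j, SumOn S.X₁ (F.U j))
    (h₂ : LocZ (F := F) κ S.X₂) : LocZ (F := F) κ S.X₃ := by
  have := hS.mono_f
  intro j W hW hle
  constructor
  · rw [injective_iff_map_eq_zero]
    intro s hs0
    obtain ⟨s', rfl⟩ := ses_lift S hS (hs j) hW hle s
    rw [← ap_rs] at hs0
    obtain ⟨a, ha⟩ := ap_exact S hS.exact _ _ hs0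
    obtain ⟨a', rfl⟩ := (h₁ j W hW hle).2 a
    have h3 : ap S.f W a' = s' := by
      apply (h₂ j W hW hle).1
      rw [← ap_rs, ha]
    rw [← h3, ap_fg_zero S]
  · intro s
    obtain ⟨s', rfl⟩ := ses_lift S hS (hs j) (hZ j W hW hle) (inf_le_left.trans hle) s
    obtain ⟨s'', rfl⟩ := (h₂ j W hW hle).2 s'
    exact ⟨ap S.g W s'', by rw [← ap_rs]⟩

include A hS hZ in
/-- Lifting of morphisms from the line bundle. -/
theorem ZCls.lift (h : ZCls κ δ S.X₁) (h₂ : LocZ (F := F) κ S.X₂) (q : Frame.lb δ ⟶ S.X₃) :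
    ∃ g : Frame.lb δ ⟶ S.X₂, g ≫ S.g = q := by
  have := hS.mono_f
  have hz := ap_fg_zero S
  have h1 : ∀ j, ∃ t, ap S.g (F.U (κ j)) t = ap q _ (Frame.lbE δ (κ j)) := fun j =>
    ses_lift S hS (h.sum (κ j)) (A.aff (κ j)) le_rfl _
  choose g hg using h1
  have h2 : ∀ j l, ∃ f, ap S.f (F.U (κ j) ⊓ F.U (κ l)) f = rs _ inf_le_right (g l) -
      Frame.tr δ (κ j) (κ l) • rs _ inf_le_left (g j) := by
    intro j l
    apply ap_exact S hS.exact
    rw [map_sub, map_smul, ap_rs, ap_rs, hg, hg, sub_eq_zero, ← ap_rs, ← ap_rs,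
      Frame.lb_compat δ (κ j) (κ l), map_smul]
  choose f hf using h2
  obtain ⟨t, ht01, ht02, ht12⟩ := h.c1 (f 0 1) (f 0 2) (f 1 2) (by
    apply ap_injective S.f
    rw [map_add, map_smul, ap_rs, ap_rs, ap_rs, hf, hf, hf, map_sub, map_sub, map_sub, rs_smul,
      rs_smul, rs_smul, rs_rs, rs_rs, rs_rs, rs_rs, rs_rs, rs_rs, smul_sub, smul_smul,
      trZ_cocycle δ (κ 0) (κ 1) (κ 2) (z01 F κ) (z12 F κ) (z02 F κ)]
    abel)
  have key : ∀ j l, f j l = rs _ inf_le_right (t l) -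
        Frame.tr δ (κ j) (κ l) • rs _ inf_le_left (t j) →
      rs _ (inf_le_right : F.U (κ j) ⊓ F.U (κ l) ≤ F.U (κ l)) (g l - ap S.f _ (t l)) =
      Frame.tr δ (κ j) (κ l) •
        rs _ (inf_le_left : F.U (κ j) ⊓ F.U (κ l) ≤ F.U (κ j)) (g j - ap S.f _ (t j)) := by
    intro j l hjl
    have h3 := hf j l
    rw [hjl, map_sub, map_smul, ap_rs, ap_rs] at h3
    rw [map_sub, map_sub, smul_sub, sub_eq_sub_iff_sub_eq_sub, ← h3]
  obtain ⟨φ, hφ⟩ := h₂.exists_hom κ A.aff A.isAffineOpen_inf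
    (fun j => g j - ap S.f _ (t j))
    (compatZ_of κ δ _ (key 0 1 ht01) (key 0 2 ht02) (key 1 2 ht12))
  have h4 : LocZ (F := F) κ S.X₃ := by
    exact LocZ.coker κ hZ S hS h.loc h.sum h₂
  refine ⟨φ, h4.hom_ext κ A.aff fun j => ?_⟩
  rw [ap_comp, hφ, map_sub, hg, hz, sub_zero]

omit [Finite J] in
include A hS hZ in
/-- Quotients. -/
theorem ZCls.coker (h₁ : ZCls κ δ S.X₁) (h₂ : ZCls κ δ S.X₂) : ZCls κ δ S.X₃ where
  loc := LocZ.coker κ hZ S hS h₁.loc h₁.sum h₂.loc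
  sum j := sumOn_coker S hS (h₁.sum j) (h₂.sum j)
  c1 := by
    intro s₀₁ s₀₂ s₁₂ hs
    obtain ⟨g₀₁, rfl⟩ := ses_lift S hS (h₁.sum (κ 0)) (A.isAffineOpen_inf (κ 0) (κ 1))
      inf_le_left s₀₁
    obtain ⟨g₀₂, rfl⟩ := ses_lift S hS (h₁.sum (κ 0)) (A.isAffineOpen_inf (κ 0) (κ 2))
      inf_le_left s₀₂
    obtain ⟨g₁₂, rfl⟩ := ses_lift S hS (h₁.sum (κ 1)) (A.isAffineOpen_inf (κ 1) (κ 2))
      inf_le_left s₁₂
    have := hS.mono_f
    have hz := ap_fg_zero S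
    obtain ⟨e, he⟩ := ap_exact S hS.exact (WZ F κ) (rs _ (z02 F κ) g₀₂ - rs _ (z12 F κ) g₁₂ -
      ro (z12 F κ) (Frame.tr δ (κ 1) (κ 2)) • rs _ (z01 F κ) g₀₁) (by
        rw [map_sub, map_sub, map_smul, ap_rs, ap_rs, ap_rs, hs]
        abel)
    obtain ⟨a₀₁, a₀₂, a₁₂, ha⟩ := h₁.c2 e
    obtain ⟨t, h01, h02, h12⟩ := h₂.c1 (g₀₁ + ap S.f _ a₀₁) (g₀₂ - ap S.f _ a₀₂)
      (g₁₂ + ap S.f _ a₁₂) (by
        have h3 := congrArg (ap S.f (WZ F κ)) ha
        rw [he, map_add, map_add, map_smul, ap_rs, ap_rs, ap_rs] at h3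
        rw [map_sub, map_add, map_add, smul_add]
        have h4 : rs _ (z02 F κ) g₀₂ = (rs _ (z02 F κ) (ap S.f _ a₀₂) +
          rs _ (z12 F κ) (ap S.f _ a₁₂) +
          ro (z12 F κ) (Frame.tr δ (κ 1) (κ 2)) • rs _ (z01 F κ) (ap S.f _ a₀₁)) +
          rs _ (z12 F κ) g₁₂ +
          ro (z12 F κ) (Frame.tr δ (κ 1) (κ 2)) • rs _ (z01 F κ) g₀₁ := by
          rw [← h3]
          abel
        rw [h4]
        abel)
    refine ⟨fun j => ap S.g _ (t j), ?_, ?_, ?_⟩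
    · have h5 := congrArg (ap S.g _) h01
      rw [map_add, hz, add_zero, map_sub, map_smul, ap_rs, ap_rs] at h5
      exact h5
    · have h5 := congrArg (ap S.g _) h02
      rw [map_sub, hz, sub_zero, map_sub, map_smul, ap_rs, ap_rs] at h5
      exact h5
    · have h5 := congrArg (ap S.g _) h12
      rw [map_add, hz, add_zero, map_sub, map_smul, ap_rs, ap_rs] at h5
      exact h5
  c2 := by
    intro s
    obtain ⟨g, rfl⟩ := ses_lift S hS (h₁.sum (κ 2)) (isAffine_WZ κ A) inf_le_right s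
    obtain ⟨a₀₁, a₀₂, a₁₂, ha⟩ := h₂.c2 g
    refine ⟨ap S.g _ a₀₁, ap S.g _ a₀₂, ap S.g _ a₁₂, ?_⟩
    rw [ha, map_add, map_add, map_smul, ap_rs, ap_rs, ap_rs]

end SES

theorem zcls_of_flasque (δ : F.Div) {N : X.Modules} (hN : Flasque N) (hl : LocZ (F := F) κ N) :
    ZCls κ δ N where
  loc := hl
  sum j := sumOn_of_flasque hN _
  c1 := by
    intro s₀₁ s₀₂ s₁₂ hs
    obtain ⟨t₁, ht₁⟩ := hN (F.U (κ 1)) (F.U (κ 0) ⊓ F.U (κ 1)) inf_le_right s₀₁
    obtain ⟨r, hr₁, hr₂⟩ := exists_glue₂ (M := N)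
      (le_sup_left : F.U (κ 0) ⊓ F.U (κ 2) ≤
        (F.U (κ 0) ⊓ F.U (κ 2)) ⊔ (F.U (κ 1) ⊓ F.U (κ 2))) le_sup_right le_rfl
      s₀₂ (s₁₂ + Frame.tr δ (κ 1) (κ 2) • rs N inf_le_left t₁) (by
        have hle : (F.U (κ 0) ⊓ F.U (κ 2)) ⊓ (F.U (κ 1) ⊓ F.U (κ 2)) ≤ WZ F κ :=
          le_inf (le_inf (inf_le_left.trans inf_le_left) (inf_le_right.trans inf_le_left))
            (inf_le_left.trans inf_le_right)
        have h1 := congrArg (rs N hle) hs
        rw [← ht₁] at h1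
        simp only [map_add, rs_smul, rs_rs, ro_ro] at h1 ⊢
        exact h1)
    obtain ⟨t₂, ht₂⟩ := hN (F.U (κ 2)) ((F.U (κ 0) ⊓ F.U (κ 2)) ⊔ (F.U (κ 1) ⊓ F.U (κ 2)))
      (sup_le inf_le_right inf_le_right) r
    refine ⟨fun j => match j with | 0 => 0 | 1 => t₁ | 2 => t₂, ?_, ?_, ?_⟩
    · change s₀₁ = rs N inf_le_right t₁ - Frame.tr δ (κ 0) (κ 1) • rs N inf_le_left 0
      rw [map_zero, smul_zero, sub_zero, ht₁]
    · change s₀₂ = rs N inf_le_right t₂ - Frame.tr δ (κ 0) (κ 2) • rs N inf_le_left 0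
      rw [map_zero, smul_zero, sub_zero, ← hr₁, ← ht₂, rs_rs]
    · change s₁₂ = rs N inf_le_right t₂ - Frame.tr δ (κ 1) (κ 2) • rs N inf_le_left t₁
      rw [← ht₂, rs_rs] at hr₂
      rw [hr₂]
      abel
  c2 := by
    intro s
    obtain ⟨a, ha⟩ := hN (F.U (κ 0) ⊓ F.U (κ 2)) (WZ F κ) (z02 F κ) s
    exact ⟨0, a, 0, by rw [ha, map_zero, map_zero, smul_zero, add_zero, add_zero]⟩

omit [Finite J] in
lemma locZ_jj (N : X.Modules) : LocZ (F := F) κ (jj (Zo F κ) N) := by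
  intro j W _ _
  have h1 : ∀ s, jjE (Zo F κ) N _ (rs (jj (Zo F κ) N) (inf_le_left : W ⊓ Zo F κ ≤ W) s) =
      rs N (inf_le_inf_right (Zo F κ) inf_le_left) (jjE (Zo F κ) N W s) := jjE_rs _ _ _
  have h2 := rs_bijective (N := N) (inf_le_inf_right (Zo F κ) inf_le_left :
    (W ⊓ Zo F κ) ⊓ Zo F κ ≤ W ⊓ Zo F κ) (le_inf le_rfl inf_le_right)
  constructor
  · intro s t hst
    apply (jjE (Zo F κ) N W).injective
    apply h2.1
    rw [← h1, ← h1, hst]
  · intro s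
    obtain ⟨t, ht⟩ := h2.2 (jjE (Zo F κ) N _ s)
    refine ⟨(jjE (Zo F κ) N W).symm t, (jjE (Zo F κ) N _).injective ?_⟩
    rw [h1, AddEquiv.apply_symm_apply, ht]

omit [Finite J] in
lemma flasque_jj (U : X.Opens) {N : X.Modules} (hN : Flasque N) : Flasque (jj U N) := by
  intro V W h s
  obtain ⟨t, ht⟩ := hN (V ⊓ U) (W ⊓ U) (inf_le_inf_right U h) (jjE U N W s)
  refine ⟨(jjE U N V).symm t, (jjE U N W).injective ?_⟩
  rw [jjE_rs, AddEquiv.apply_symm_apply, ht]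

open Pool.Agent.W456 in
omit [Finite J] in
lemma injective_jj (U : X.Opens) (N : X.Modules) [Injective N] : Injective (jj U N) := by
  have h1 : Injective ((Scheme.Modules.restrictFunctor U.ι).obj N) :=
    Injective.injective_of_adjoint (extAdj U.ι) N
  exact Injective.injective_of_adjoint (Scheme.Modules.restrictAdjunction U.ι) _

include A in
/-- Enough injectives in the class. -/
theorem ZCls.exists_inj {δ : F.Div} {N : X.Modules} (h : ZCls κ δ N) :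
    ∃ (I : X.Modules) (f : N ⟶ I), Injective I ∧ Mono f ∧ ZCls κ δ I := by
  let I₀ := Injective.under N
  refine ⟨jj (Zo F κ) I₀, Injective.ι N ≫ jjU (Zo F κ) I₀, injective_jj _ _, ?_,
    zcls_of_flasque κ δ (flasque_jj _ (flasque_of_injective I₀)) (locZ_jj κ I₀)⟩
  apply mono_of_ap_injective
  intro W s t hst
  apply h.loc.inj κ A.aff
  apply ap_injective (Injective.ι N)
  have h1 := congrArg (jjE (Zo F κ) I₀ W) hst
  rw [ap_comp, ap_comp, jjE_jjU, jjE_jjU] at h1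
  rw [ap_rs, ap_rs]
  exact h1

attribute [local instance] HasDerivedCategory.standard

include A hZ in
/-- Vanishing of higher cohomology. -/
theorem ZCls.hom_eq_zero {δ : F.Div} {N : X.Modules} (h : ZCls κ δ N) (n : ℕ)
    (f : sg (Frame.lb δ) ⟶ (sg N)⟦((n + 1 : ℕ) : ℤ)⟧) : f = 0 := by
  have : HasExt X.Modules := hasExt_of_hasDerivedCategory X.Modules
  have h1 := ext_vanish (C := X.Modules) (fun N => ZCls κ δ N) (Frame.lb δ)
    (fun N hN => hN.exists_inj κ A) (fun S hS h₁ h₂ => ZCls.coker κ A hZ S hS h₁ h₂)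
    (fun S hS h₁ h₂ q => ZCls.lift κ A hZ S hS h₁ h₂.loc q) n N h
  have h2 := h1 (Abelian.Ext.homAddEquiv.symm f)
  exact (AddEquiv.map_eq_zero_iff _).1 h2

end

end Run7.h164
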