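import Pool.Agent.Run7.h164.NV
import Pool.Agent.Run7.h164.VX
import Pool.Agent.Run7.h164.ZC

set_option autoImplicit false
set_option linter.unusedVariables false

/-!
Sections over intersections of charts as Laurent polynomials.
-/

open CategoryTheory Limits TopologicalSpace AlgebraicGeometry Opposite TopCat

namespace Run7.h164

noncomputable section

set_option backward.isDefEq.respectTransparency false

open Pool.Agent.W506 Pool.Agent.N212
open Pool.Agent.R924 (DD Frame)

variable {A₀ : Type} [CommRing A₀] [Algebra ℂ A₀] (V : Verra) {sd : Bool} {a : Fin 3 → A₀}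
  {M : CM V.G sd a}

/-- The sum of unit exponents. -/
def uI (I : Finset (Fin 3)) : Ex := fun i => if i ∈ I then 1 else 0

lemma uI_insert {I : Finset (Fin 3)} {k : Fin 3} (hk : k ∉ I) : uI (insert k I) = ue k + uI I := by
  funext i
  simp only [uI, ue, Pi.add_apply, Finset.mem_insert]
  by_cases h : i = k
  · subst h
    simp [hk]
  · simp [h]

lemma sum_uI (I : Finset (Fin 3)) : ∑ i, uI I i = I.card := by
  simp [uI]

lemma sum_smul_uI (r : ℕ) (I : Finset (Fin 3)) : ∑ i, (r • uI I) i = r * I.card := by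
  rw [← sum_uI, Finset.mul_sum]
  exact Finset.sum_congr rfl fun i _ => by rw [Pi.smul_apply, nsmul_eq_mul]

/-- The product of generators. -/
def gI (V : Verra) (sd : Bool) (I : Finset (Fin 3)) : RF V.G := ∏ k ∈ I, gg V (ch sd 0 k)

lemma gI_mem (I : Finset (Fin 3)) : gI V sd I ∈ rg V.G I.card := by
  induction I using Finset.induction_on with
  | empty => rw [gI, Finset.prod_empty]; exact SetLike.GradedOne.one_mem
  | insert k I hk ih =>
    rw [gI, Finset.prod_insert hk, Finset.card_insert_of_notMem hk, add_comm]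
    exact SetLike.mul_mem_graded (gg_mem V _) ih

lemma gI_one (k : Fin 3) : gI V sd {k} = gg V (ch sd 0 k) := Finset.prod_singleton _ _

lemma gg_smul (i k : Fin 3) (l : LM M) : gg V (ch sd i k) • l = a i • shL (ue k) l := by
  rw [gg, smulR_algebraMap, aB_uu]

variable (ha : a 0 = 1)

include ha

lemma gI_smul (I : Finset (Fin 3)) (l : LM M) : gI V sd I • l = shL (uI I) l := by
  induction I using Finset.induction_on with
  | empty =>
    rw [gI, Finset.prod_empty, one_smul]
    have : uI ∅ = 0 := funext fun i => by simp [uI]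
    rw [this, shL_zero]
  | insert k I hk ih =>
    rw [gI, Finset.prod_insert hk, mul_smul]
    have ih' : (∏ k ∈ I, gg V (ch sd 0 k)) • l = shL (uI I) l := ih
    rw [ih', gg_smul, ha, one_smul, shL_shL, uI_insert hk]

lemma gI_pow_smul (I : Finset (Fin 3)) (r : ℕ) (l : LM M) :
    gI V sd I ^ r • l = shL (r • uI I) l := by
  induction r with
  | zero => rw [pow_zero, one_smul, zero_smul, shL_zero]
  | succ r ih => rw [pow_succ', mul_smul, ih, gI_smul V ha, shL_shL, succ_nsmul, add_comm]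

omit ha

/-- Laurent polynomials with the exponents allowed on an intersection of charts. -/
def InI (I : Finset (Fin 3)) (j : ℤ) (l : LM M) : Prop :=
  ∀ e, co l e ≠ 0 → (∀ i, i ∉ I → 0 ≤ e i) ∧ ∑ i, e i = j

lemma exists_bd (l : LM M) : ∃ r : ℕ, ∀ e, co l e ≠ 0 → ∀ i, -(r : ℤ) ≤ e i := by
  have h1 : ∃ r : ℕ, ∀ e ∈ (show Ex →₀ M.C from l).support, ∀ i, -(r : ℤ) ≤ e i := by
    refine ⟨∑ e ∈ (show Ex →₀ M.C from l).support, ∑ i, (e i).natAbs, fun e he i => ?_⟩
    have h2 : (e i).natAbs ≤ ∑ i, (e i).natAbs :=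
      Finset.single_le_sum (f := fun i => (e i).natAbs) (fun _ _ => Nat.zero_le _)
        (Finset.mem_univ i)
    have h3 : ∑ i, (e i).natAbs ≤ ∑ e ∈ (show Ex →₀ M.C from l).support, ∑ i, (e i).natAbs :=
      Finset.single_le_sum (f := fun e : Ex => ∑ i, (e i).natAbs) (fun _ _ => Nat.zero_le _) he
    omega
  obtain ⟨r, hr⟩ := h1
  exact ⟨r, fun e he => hr e (Finsupp.mem_support_iff.2 he)⟩

lemma InI.shift {I : Finset (Fin 3)} {j : ℤ} {l : LM M} (h : InI V I j l) {r : ℕ}
    (hr : ∀ e, co l e ≠ 0 → ∀ i, -(r : ℤ) ≤ e i) :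
    shL (r • uI I) l ∈ dgL M ((r * I.card : ℕ) + j) := by
  intro e he
  rw [co_shL] at he
  obtain ⟨h1, h2⟩ := h _ he
  have h3 := hr _ he
  refine ⟨fun i => ?_, ?_⟩
  · have h4 := h1 i
    have h5 := h3 i
    simp only [Pi.add_apply, Pi.neg_apply, Pi.smul_apply, uI] at h4 h5
    by_cases hi : i ∈ I
    · simp only [hi, if_true, nsmul_eq_mul, mul_one] at h5
      omega
    · simp only [hi, if_false, smul_zero, not_false_eq_true, forall_const] at h4
      omega
  · simp only [Pi.add_apply, Pi.neg_apply, Finset.sum_add_distrib, Finset.sum_neg_distrib,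
      sum_smul_uI] at h2
    push_cast
    linarith

/-- Representation of sections. -/
def Rep {j : ℤ} {U : (VX V).Opens} (s : Γ(til (NV M) j, U)) (l : LM M) : Prop :=
  ∀ x (hx : x ∈ U), vl s x hx = (LocalizedModule.mk (S := pc x) (show (NV M).M from l) 1 : Lo (NV M) x)

include ha

/-- Sections are represented. -/
lemma exists_rep {j : ℤ} {U : (VX V).Opens} {I : Finset (Fin 3)} (hI : I.Nonempty)
    (hU : U = DD (rg V.G) (gI V sd I)) (s : Γ(til (NV M) j, U)) :
    ∃ l : LM M, InI V I j l ∧ Rep V s l := by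
  subst hU
  obtain ⟨r, m, hm, hs⟩ := exists_fraction (gI_mem V I) hI.card_pos s
  refine ⟨shL (-(r • uI I)) m, ?_, fun x hx => ?_⟩
  · intro e he
    rw [co_shL] at he
    obtain ⟨h1, h2⟩ := hm _ he
    refine ⟨fun i hi => ?_, ?_⟩
    · have h3 := h1 i
      simp only [neg_neg, Pi.add_apply, Pi.smul_apply, uI, hi, if_false, smul_zero] at h3
      omega
    · simp only [neg_neg, Pi.add_apply, Finset.sum_add_distrib, sum_smul_uI] at h2
      push_cast at h2
      linarith
  · rw [hs x hx, LocalizedModule.mk_eq]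
    refine ⟨1, ?_⟩
    change (1 : RF V.G) • (1 : RF V.G) • (m : LM M) =
      (1 : RF V.G) • gI V sd I ^ r • shL (-(r • uI I)) (m : LM M)
    rw [one_smul, one_smul, one_smul, gI_pow_smul V ha, shL_shL, add_neg_cancel, shL_zero]

/-- Every allowed Laurent polynomial represents a section. -/
lemma exists_secL {j : ℤ} {U : (VX V).Opens} {I : Finset (Fin 3)}
    (hU : U = DD (rg V.G) (gI V sd I)) {l : LM M} (hl : InI V I j l) :
    ∃ s : Γ(til (NV M) j, U), Rep V s l := by
  subst hU
  obtain ⟨r, hr⟩ := exists_bd V l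
  obtain ⟨s, hs⟩ := exists_section (N := NV M) (j := j) (DD (rg V.G) (gI V sd I)) (r * I.card)
    (shL (r • uI I) l) (gI V sd I ^ r) (hl.shift V hr)
    (by simpa using SetLike.pow_mem_graded r (gI_mem V I)) (fun x hx => (pc x).pow_mem hx r)
  refine ⟨s, fun x hx => ?_⟩
  rw [hs x hx, LocalizedModule.mk_eq]
  refine ⟨1, ?_⟩
  change (1 : RF V.G) • (1 : RF V.G) • (shL (r • uI I) l : LM M) =
      (1 : RF V.G) • gI V sd I ^ r • (l : LM M)
  rw [one_smul, one_smul, one_smul, gI_pow_smul V ha]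

lemma rep_zero {j : ℤ} {U : (VX V).Opens} {I : Finset (Fin 3)} (hI : I.Nonempty)
    (hU : U = DD (rg V.G) (gI V sd I)) {l : LM M} (hl : InI V I j l)
    (h : ∀ x (hx : x ∈ U), (LocalizedModule.mk (S := pc x) (show (NV M).M from l) 1 :
      Lo (NV M) x) = 0) : l = 0 := by
  subst hU
  obtain ⟨r, hr⟩ := exists_bd V l
  obtain ⟨n, hn⟩ := pow_smul_eq_zero (N := NV M) (gI_mem V I) hI.card_pos (hl.shift V hr)
    (fun x hx => by
      refine ⟨⟨gI V sd I ^ r, (pc x).pow_mem hx r⟩, ?_⟩
      rw [← h x hx, LocalizedModule.mk_eq]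
      refine ⟨1, ?_⟩
      change (1 : RF V.G) • (1 : RF V.G) • (shL (r • uI I) l : LM M) =
        (1 : RF V.G) • gI V sd I ^ r • (l : LM M)
      rw [one_smul, one_smul, one_smul, gI_pow_smul V ha])
  have h1 : gI V sd I ^ n • (shL (r • uI I) l : LM M) = 0 := hn
  rw [gI_pow_smul V ha, shL_shL] at h1
  have h2 := congrArg (shL (-(n • uI I + r • uI I))) h1
  rw [shL_shL, neg_add_cancel, shL_zero] at h2
  rw [h2]
  exact co_ext fun e => rfl

omit ha

lemma Rep.add {j : ℤ} {U : (VX V).Opens} {s t : Γ(til (NV M) j, U)} {l l' : LM M}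
    (h : Rep V s l) (h' : Rep V t l') : Rep V (s + t) (l + l') := by
  intro x hx
  rw [vl_add, h x hx, h' x hx, mk_add_same]

lemma Rep.neg {j : ℤ} {U : (VX V).Opens} {s : Γ(til (NV M) j, U)} {l : LM M}
    (h : Rep V s l) : Rep V (-s) (-l) := by
  intro x hx
  have h1 : vl (-s) x hx = -vl s x hx := rfl
  rw [h1, h x hx]
  exact LocalizedModule.mk_neg.symm

lemma Rep.sub {j : ℤ} {U : (VX V).Opens} {s t : Γ(til (NV M) j, U)} {l l' : LM M}
    (h : Rep V s l) (h' : Rep V t l') : Rep V (s - t) (l - l') := by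
  rw [sub_eq_add_neg, sub_eq_add_neg]
  exact h.add V (h'.neg V)

lemma Rep.rs {j : ℤ} {U W : (VX V).Opens} (hWU : W ≤ U) {s : Γ(til (NV M) j, U)} {l : LM M}
    (h : Rep V s l) : Rep V (rs (til (NV M) j) hWU s) l := fun x hx => h x (hWU hx)

lemma Rep.ext {j : ℤ} {U : (VX V).Opens} {s t : Γ(til (NV M) j, U)} {l : LM M}
    (h : Rep V s l) (h' : Rep V t l) : s = t :=
  vl_ext fun x hx => (h x hx).trans (h' x hx).symm

include ha

lemma Rep.unique {j : ℤ} {U : (VX V).Opens} {I : Finset (Fin 3)} (hI : I.Nonempty)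
    (hU : U = DD (rg V.G) (gI V sd I)) {s : Γ(til (NV M) j, U)} {l l' : LM M}
    (hl : InI V I j l) (hl' : InI V I j l') (h : Rep V s l) (h' : Rep V s l') : l = l' := by
  rw [← sub_eq_zero]
  refine rep_zero V ha hI hU (j := j) (l := l - l') ?_ ?_
  · intro e he
    rw [co_sub] at he
    by_cases h1 : co l e = 0
    · exact hl' e fun h2 => he (by rw [h1, h2, sub_zero])
    · exact hl e h1
  · intro x hx
    have h1 := (h.sub V h') x hx
    rw [sub_self, vl_zero] at h1
    exact h1.symm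

omit ha

lemma InI.mono {I I' : Finset (Fin 3)} (hI : I ⊆ I') {j : ℤ} {l : LM M} (h : InI V I j l) :
    InI V I' j l := fun e he => ⟨fun i hi => (h e he).1 i fun h' => hi (hI h'), (h e he).2⟩

lemma InI.add {I : Finset (Fin 3)} {j : ℤ} {l l' : LM M} (h : InI V I j l) (h' : InI V I j l') :
    InI V I j (l + l') := by
  intro e he
  rw [co_add] at he
  by_cases h1 : co l e = 0
  · exact h' e fun h2 => he (by rw [h1, h2, add_zero])
  · exact h e h1

/-- Transition functions acting by shifts. -/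
def ShD (V : Verra) (sd : Bool) (δ : (VF V).Div) (b : ℤ) : Prop :=
  ∀ (A₀ : Type) (_ : CommRing A₀) (_ : Algebra ℂ A₀) (a : Fin 3 → A₀) (M : CM V.G sd a), a 0 = 1 →
    ∀ (k l : Fin 3) (x : ProjectiveSpectrum.top (rg V.G))
    (hx : x ∈ (VF V).U (ch sd 0 k) ⊓ (VF V).U (ch sd 0 l)) (m : LM M),
    (fv (Frame.tr δ (ch sd 0 k) (ch sd 0 l)) x hx).val •
      (LocalizedModule.mk (S := pc x) (show (NV M).M from m) 1 : Lo (NV M) x) =
      LocalizedModule.mk (show (NV M).M from shL (b • (ue l - ue k)) m) 1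

end

end Run7.h164
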