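import Pool.Agent.Run7.h164.NX

set_option autoImplicit false
set_option linter.unusedVariables false

/-!
Vanishing of higher cohomology and computation of sections.
-/

open CategoryTheory Limits TopologicalSpace AlgebraicGeometry Opposite TopCat

namespace Run7.h164

noncomputable section

set_option backward.isDefEq.respectTransparency false

open Pool.Agent.W506 Pool.Agent.N212
open Pool.Agent.R924 (DD Frame fr fr_mul fr_one)

variable (V : Verra) {sd : Bool}

lemma U_one (k : Fin 3) : (VF V).U (kp sd k) = DD (rg V.G) (gI V sd {k}) := by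
  rw [gI_one, VF_U]

lemma U_two {k l : Fin 3} (h : k ≠ l) : (VF V).U (kp sd k) ⊓ (VF V).U (kp sd l) =
    DD (rg V.G) (gI V sd {k, l}) := by
  rw [gI, Finset.prod_pair h, ← DD_inf, VF_U, VF_U]

lemma U_three : WZ (VF V) (kp sd) = DD (rg V.G) (gI V sd Finset.univ) := by
  have h1 : gI V sd Finset.univ = gg V (ch sd 0 0) * gg V (ch sd 0 1) * gg V (ch sd 0 2) := by
    rw [gI, Fin.prod_univ_three]
  rw [h1, ← DD_inf, ← DD_inf]
  rfl

variable {A₀ : Type} [CommRing A₀] [Algebra ℂ A₀] {a : Fin 3 → A₀}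
  {M : CM V.G sd a}

/-- Truncation. -/
def fil (P : Ex → Prop) [DecidablePred P] (l : LM M) : LM M :=
  (Finsupp.filter P (show Ex →₀ M.C from l) : Ex →₀ M.C)

lemma co_fil (P : Ex → Prop) [DecidablePred P] (l : LM M) (e : Ex) :
    co (fil V P l) e = if P e then co l e else 0 := Finsupp.filter_apply _ _ _

variable (ha : a 0 = 1) {δ : (VF V).Div} {b m : ℤ} (hδ : ShD V sd δ b)

include ha hδ in
lemma rep_tr {k l : Fin 3} {W : (VX V).Opens} (hW : W ≤ (VF V).U (kp sd k) ⊓ (VF V).U (kp sd l))
    {s : Γ(til (NV M) m, W)} {t : LM M} (h : Rep V s t) :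
    Rep V (ro hW (Frame.tr δ (kp sd k) (kp sd l)) • s) (shL (b • (ue l - ue k)) t) := by
  intro x hx
  rw [vl_smul, fv_ro, h x hx]
  exact hδ _ _ _ _ M ha k l x _ t

lemma ue_same (k : Fin 3) : ue k k = 1 := Pi.single_eq_same _ _

lemma ue_ne {k i : Fin 3} (h : i ≠ k) : ue k i = 0 := Pi.single_eq_of_ne h _

lemma sum_bue (b : ℤ) (k : Fin 3) (e : Ex) : ∑ i, (b • ue k + e) i = b + ∑ i, e i := by
  simp only [Pi.add_apply, Pi.smul_apply, Finset.sum_add_distrib, smul_eq_mul, ← Finset.mul_sum,
    sum_ue, mul_one]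

lemma sum_nbue (b : ℤ) (k : Fin 3) (e : Ex) : ∑ i, (-(b • ue k) + e) i = -b + ∑ i, e i := by
  have := sum_bue (-b) k e
  rwa [neg_smul] at this

lemma bue_ne (b : ℤ) {k i : Fin 3} (h : i ≠ k) (e : Ex) : (b • ue k + e) i = e i := by
  rw [Pi.add_apply, Pi.smul_apply, ue_ne h, smul_zero, zero_add]

lemma nbue_ne (b : ℤ) {k i : Fin 3} (h : i ≠ k) (e : Ex) : (-(b • ue k) + e) i = e i := by
  have := bue_ne (-b) h e
  rwa [neg_smul] at this

include ha hδ in
/-- The associated sheaves have no higher cohomology. -/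
theorem zcls_til (hm : -2 ≤ m - b) : ZCls (F := VF V) (kp sd) δ (til (NV M) m) where
  loc := locZ_til V M ha m
  sum j := (qcOn_til (NV M) m _).sumOn
  c1 := by
    intro s₀₁ s₀₂ s₁₂ hs
    obtain ⟨l₀₁, i₀₁, r₀₁⟩ := exists_rep V ha ⟨0, by decide⟩ (U_two V (by decide)) s₀₁
    obtain ⟨l₀₂, i₀₂, r₀₂⟩ := exists_rep V ha ⟨0, by decide⟩ (U_two V (by decide)) s₀₂
    obtain ⟨l₁₂, i₁₂, r₁₂⟩ := exists_rep V ha ⟨1, by decide⟩ (U_two V (by decide)) s₁₂
    have hrel : l₀₂ = l₁₂ + shL (b • (ue 2 - ue 1)) l₀₁ := by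
      refine Rep.unique V ha (I := Finset.univ) ⟨0, Finset.mem_univ _⟩ (U_three V)
        (s := rs (til (NV M) m) (z02 (VF V) (kp sd)) s₀₂) (i₀₂.mono V (Finset.subset_univ _))
        ((i₁₂.mono V (Finset.subset_univ _)).add V ?_) (r₀₂.rs V _) ?_
      · intro e he
        rw [co_shL] at he
        obtain ⟨-, h2⟩ := i₀₁ _ he
        refine ⟨fun i hi => absurd (Finset.mem_univ i) hi, ?_⟩
        simp only [smul_sub, neg_sub, Pi.add_apply, Pi.sub_apply, Finset.sum_add_distrib,
          Finset.sum_sub_distrib, Pi.smul_apply, ← Finset.smul_sum, sum_ue] at h2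
        linarith
      · rw [hs]
        exact (r₁₂.rs V _).add V (rep_tr V ha hδ _ (r₀₁.rs V _))
    set S₀₁ : LM M := shL (-(b • ue 1)) l₀₁ with hS₀₁
    set S₀₂ : LM M := shL (-(b • ue 2)) l₀₂ with hS₀₂
    set S₁₂ : LM M := shL (-(b • ue 2)) l₁₂ with hS₁₂
    have hS : S₀₂ = S₁₂ + S₀₁ := by
      rw [hS₀₂, hrel, shL_add, shL_shL, hS₁₂, hS₀₁, smul_sub]
      congr 2
      abel
    have e01 : ∀ e, co S₀₁ e ≠ 0 → 0 ≤ e 2 ∧ ∑ i, e i = m - b := by
      intro e he
      rw [hS₀₁, co_shL, neg_neg] at he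
      obtain ⟨h1, h2⟩ := i₀₁ _ he
      have h3 := h1 2 (by decide)
      rw [bue_ne b (by decide)] at h3
      rw [sum_bue] at h2
      exact ⟨h3, by omega⟩
    have e02 : ∀ e, co S₀₂ e ≠ 0 → 0 ≤ e 1 ∧ ∑ i, e i = m - b := by
      intro e he
      rw [hS₀₂, co_shL, neg_neg] at he
      obtain ⟨h1, h2⟩ := i₀₂ _ he
      have h3 := h1 1 (by decide)
      rw [bue_ne b (by decide)] at h3
      rw [sum_bue] at h2
      exact ⟨h3, by omega⟩
    have e12 : ∀ e, co S₁₂ e ≠ 0 → 0 ≤ e 0 := by
      intro e he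
      rw [hS₁₂, co_shL, neg_neg] at he
      obtain ⟨h1, h2⟩ := i₁₂ _ he
      have h3 := h1 0 (by decide)
      rwa [bue_ne b (by decide)] at h3
    have hrel' : ∀ e, co S₀₂ e = co S₁₂ e + co S₀₁ e := fun e => by rw [hS, co_add]
    -- the solution
    let T : Fin 3 → LM M := ![-(fil V (fun e => e 0 < 0) S₀₁), fil V (fun e => 0 ≤ e 0) S₀₁,
      fil V (fun e => 0 ≤ e 0 ∧ 0 ≤ e 1) S₀₂]
    have hT : ∀ k e, co (T k) e ≠ 0 → (∀ i, i ≠ k → 0 ≤ e i) ∧ ∑ i, e i = m - b := by
      intro k e he
      fin_cases k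
      · change co (-(fil V (fun e => e 0 < 0) S₀₁)) e ≠ 0 at he
        rw [co_neg, neg_ne_zero, co_fil] at he
        split_ifs at he with h0
        · have h1 := e01 e he
          have h2 : co S₁₂ e = 0 := by
            by_contra h
            have := e12 e h
            omega
          have h3 : co S₀₂ e ≠ 0 := by rw [hrel', h2, zero_add]; exact he
          have h4 := e02 e h3
          refine ⟨fun i hi => ?_, h1.2⟩
          fin_cases i
          · exact absurd rfl hi
          · exact h4.1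
          · exact h1.1
        · exact absurd rfl he
      · change co (fil V (fun e => 0 ≤ e 0) S₀₁) e ≠ 0 at he
        rw [co_fil] at he
        split_ifs at he with h0
        · have h1 := e01 e he
          refine ⟨fun i hi => ?_, h1.2⟩
          fin_cases i
          · exact h0
          · exact absurd rfl hi
          · exact h1.1
        · exact absurd rfl he
      · change co (fil V (fun e => 0 ≤ e 0 ∧ 0 ≤ e 1) S₀₂) e ≠ 0 at he
        rw [co_fil] at he
        split_ifs at he with h0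
        · have h1 := e02 e he
          refine ⟨fun i hi => ?_, h1.2⟩
          fin_cases i
          · exact h0.1
          · exact h0.2
          · exact absurd rfl hi
        · exact absurd rfl he
    have hTI : ∀ k, InI V {k} m (shL (b • ue k) (T k)) := by
      intro k e he
      rw [co_shL] at he
      obtain ⟨h1, h2⟩ := hT k _ he
      refine ⟨fun i hi => ?_, ?_⟩
      · have hik : i ≠ k := fun h => hi (Finset.mem_singleton.2 h)
        have := h1 i hik
        rwa [nbue_ne b hik] at this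
      · rw [sum_nbue] at h2
        omega
    have q01 : S₀₁ = T 1 - T 0 := by
      refine co_ext fun e => ?_
      rw [co_sub]
      change co S₀₁ e = co (fil V (fun e => 0 ≤ e 0) S₀₁) e -
        co (-(fil V (fun e => e 0 < 0) S₀₁)) e
      rw [co_neg, co_fil, co_fil]
      by_cases h : 0 ≤ e 0
      · rw [if_pos h, if_neg (by omega), neg_zero, sub_zero]
      · rw [if_neg h, if_pos (by omega), sub_neg_eq_add, zero_add]
    have q02 : S₀₂ = T 2 - T 0 := by
      refine co_ext fun e => ?_
      rw [co_sub]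
      change co S₀₂ e = co (fil V (fun e => 0 ≤ e 0 ∧ 0 ≤ e 1) S₀₂) e -
        co (-(fil V (fun e => e 0 < 0) S₀₁)) e
      rw [co_neg, co_fil, co_fil]
      by_cases h : 0 ≤ e 0
      · rw [if_neg (by omega : ¬ e 0 < 0), neg_zero, sub_zero]
        by_cases h1 : 0 ≤ e 1
        · rw [if_pos ⟨h, h1⟩]
        · rw [if_neg (fun h' => h1 h'.2)]
          by_contra h2
          exact h1 (e02 e h2).1
      · rw [if_neg (fun h' => h h'.1), if_pos (by omega : e 0 < 0), sub_neg_eq_add, zero_add,
          hrel']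
        have h2 : co S₁₂ e = 0 := by
          by_contra h'
          exact h (e12 e h')
        rw [h2, zero_add]
    have q12 : S₁₂ = T 2 - T 1 := by
      have h1 : S₁₂ = S₀₂ - S₀₁ := by rw [hS]; abel
      rw [h1, q01, q02]
      abel
    have hsec : ∀ k, ∃ t : Γ(til (NV M) m, (VF V).U (kp sd k)),
        Rep V t (shL (b • ue k) (T k)) := fun k => exists_secL V ha (U_one V k) (hTI k)
    choose t ht using hsec
    have key : ∀ (k l : Fin 3) (s : Γ(til (NV M) m, (VF V).U (kp sd k) ⊓ (VF V).U (kp sd l)))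
        (l₀ : LM M), Rep V s l₀ → shL (-(b • ue l)) l₀ = T l - T k →
        s = rs _ inf_le_right (t l) - Frame.tr δ (kp sd k) (kp sd l) • rs _ inf_le_left (t k) := by
      intro k l s l₀ hs hl
      refine Rep.ext V hs ?_
      have h1 : l₀ = shL (b • ue l) (T l) - shL (b • (ue l - ue k)) (shL (b • ue k) (T k)) := by
        have h2 := congrArg (shL (b • ue l)) hl
        rw [shL_shL, add_neg_cancel, shL_zero, shL_sub] at h2
        rw [h2, shL_shL]
        congr 2
        rw [smul_sub]
        abel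
      rw [h1]
      refine ((ht l).rs V _).sub V ?_
      have h3 := rep_tr V ha hδ (le_refl _) ((ht k).rs V (inf_le_left :
        (VF V).U (kp sd k) ⊓ (VF V).U (kp sd l) ≤ _))
      rwa [ro_refl] at h3
    exact ⟨t, key 0 1 _ _ r₀₁ q01, key 0 2 _ _ r₀₂ q02, key 1 2 _ _ r₁₂ q12⟩
  c2 := by
    intro s
    obtain ⟨l, il, rl⟩ := exists_rep V ha ⟨0, Finset.mem_univ _⟩ (U_three V) s
    have h02 : InI V {0, 2} m (fil V (fun e => 0 ≤ e 1) l) := by
      intro e he
      rw [co_fil] at he
      split_ifs at he with h0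
      · refine ⟨fun i hi => ?_, (il e he).2⟩
        fin_cases i
        · exact absurd (by decide) hi
        · exact h0
        · exact absurd (by decide) hi
      · exact absurd rfl he
    have h12 : InI V {1, 2} m (fil V (fun e => ¬ 0 ≤ e 1 ∧ 0 ≤ e 0) l) := by
      intro e he
      rw [co_fil] at he
      split_ifs at he with h0
      · refine ⟨fun i hi => ?_, (il e he).2⟩
        fin_cases i
        · exact h0.2
        · exact absurd (by decide) hi
        · exact absurd (by decide) hi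
      · exact absurd rfl he
    have h01 : InI V {0, 1} m (shL (-(b • (ue 2 - ue 1)))
        (fil V (fun e => ¬ 0 ≤ e 1 ∧ ¬ 0 ≤ e 0) l)) := by
      intro e he
      rw [co_shL, neg_neg, co_fil] at he
      split_ifs at he with h0
      · have h1 := (il _ he).2
        have h2 : ∑ i, (b • (ue 2 - ue 1) + e) i = ∑ i, e i := by
          simp only [smul_sub, Pi.add_apply, Pi.sub_apply, Finset.sum_add_distrib,
            Finset.sum_sub_distrib, Pi.smul_apply, ← Finset.smul_sum, sum_ue, sub_self, zero_add]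
        have h3 : (b • (ue 2 - ue 1) + e) 2 = b + e 2 := by
          simp only [smul_sub, Pi.add_apply, Pi.sub_apply, Pi.smul_apply, ue_same,
            ue_ne (show (2 : Fin 3) ≠ 1 by decide), smul_eq_mul, mul_one, mul_zero, sub_zero]
        refine ⟨fun i hi => ?_, by rw [← h2]; exact h1⟩
        fin_cases i
        · exact absurd (by decide) hi
        · exact absurd (by decide) hi
        · rw [Fin.sum_univ_three, h3] at h1
          change 0 ≤ e 2
          omega
      · exact absurd rfl he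
    obtain ⟨a₀₁, r₀₁⟩ := exists_secL V ha (U_two V (by decide)) h01
    obtain ⟨a₀₂, r₀₂⟩ := exists_secL V ha (U_two V (by decide)) h02
    obtain ⟨a₁₂, r₁₂⟩ := exists_secL V ha (U_two V (by decide)) h12
    refine ⟨a₀₁, a₀₂, a₁₂, Rep.ext V rl ?_⟩
    have h4 : l = fil V (fun e => 0 ≤ e 1) l + fil V (fun e => ¬ 0 ≤ e 1 ∧ 0 ≤ e 0) l +
        shL (b • (ue 2 - ue 1)) (shL (-(b • (ue 2 - ue 1)))
          (fil V (fun e => ¬ 0 ≤ e 1 ∧ ¬ 0 ≤ e 0) l)) := by
      rw [shL_shL, add_neg_cancel, shL_zero]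
      refine co_ext fun e => ?_
      rw [co_add, co_add, co_fil, co_fil, co_fil]
      by_cases h1 : 0 ≤ e 1
      · simp [h1]
      · by_cases h0 : 0 ≤ e 0
        · simp [h1, h0]
        · simp [h1, h0]
    rw [h4]
    exact ((r₀₂.rs V _).add V (r₁₂.rs V _)).add V (rep_tr V ha hδ _ (r₀₁.rs V _))

end

end Run7.h164
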