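import Pool.Agent.Run7.h164.NY
import Pool.Agent.R924.E10

set_option autoImplicit false
set_option linter.unusedVariables false

/-!
Morphisms from line bundles to the sheaves associated with Clifford modules.
-/

open CategoryTheory Limits TopologicalSpace AlgebraicGeometry Opposite TopCat

namespace Run7.h164

noncomputable section

set_option backward.isDefEq.respectTransparency false

open Pool.Agent.W506 Pool.Agent.N212
open Pool.Agent.R924 (DD Frame sg)

variable (V : Verra) {sd : Bool}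

/-- Ampleness. -/
def AV : Frame.Ample (VF V) (alD V) := ampleD (gg V) (gg_mem V) (gg_ne V) (gg_cov V) (0, 0)

variable {A₀ : Type} [CommRing A₀] [Algebra ℂ A₀] {a : Fin 3 → A₀}
  {M : CM V.G sd a} {A₁ : Type} [CommRing A₁] [Algebra ℂ A₁] {a₁ : Fin 3 → A₁}
  {M₁ : CM V.G sd a₁}
  {δ : (VF V).Div} {b m : ℤ}

/-- Representation of morphisms. -/
def HRep (b : ℤ) (φ : Frame.lb δ ⟶ til (NV M) m) (T : LM M) : Prop :=
  ∀ k, Rep V (ap φ _ (Frame.lbE δ (kp sd k))) (shL (b • ue k) T)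

lemma HRep.add {φ ψ : Frame.lb δ ⟶ til (NV M) m} {T T' : LM M} (h : HRep V b φ T)
    (h' : HRep V b ψ T') : HRep V b (φ + ψ) (T + T') := by
  intro k
  rw [ap_add, shL_add]
  exact (h k).add V (h' k)

lemma Rep.tm {j : ℤ} {U : (VX V).Opens} {s : Γ(til (NV M) j, U)} {l : LM M} (h : Rep V s l)
    (f : CMH M M₁) : Rep V (ap (tm f j) U s) (lh f l) := by
  intro x hx
  rw [vl_tm, h x hx, lmap_mk]
  rfl

lemma lh_shL (f : CMH M M₁) (e : Ex) (l : LM M) : lh f (shL e l) = shL e (lh f l) :=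
  co_ext fun x => rfl

lemma HRep.comp {φ : Frame.lb δ ⟶ til (NV M) m} {T : LM M} (h : HRep V b φ T)
    (f : CMH M M₁) : HRep V b (φ ≫ tm f m) (lh f T) := by
  intro k
  rw [ap_comp, ← lh_shL]
  exact (h k).tm V f

variable (ha : a 0 = 1)

include ha in
lemma HRep.ext {φ ψ : Frame.lb δ ⟶ til (NV M) m} {T : LM M} (h : HRep V b φ T)
    (h' : HRep V b ψ T) : φ = ψ :=
  (locZ_til V M ha m).hom_ext (kp sd) (AV V).aff fun k => Rep.ext V (h k) (h' k)

lemma inI_of_dgL {T : LM M} (hT : T ∈ dgL M (m - b)) (k : Fin 3) :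
    InI V {k} m (shL (b • ue k) T) := by
  intro e he
  rw [co_shL] at he
  obtain ⟨h1, h2⟩ := hT _ he
  refine ⟨fun i hi => ?_, ?_⟩
  · have hik : i ≠ k := fun h => hi (Finset.mem_singleton.2 h)
    have := h1 i
    rwa [nbue_ne b hik] at this
  · rw [sum_nbue] at h2
    omega

include ha in
lemma HRep.unique {φ : Frame.lb δ ⟶ til (NV M) m} {T T' : LM M} (h : HRep V b φ T)
    (h' : HRep V b φ T') (hT : T ∈ dgL M (m - b)) (hT' : T' ∈ dgL M (m - b)) : T = T' := by
  have h1 := Rep.unique V ha ⟨0, by decide⟩ (U_one V 0) (inI_of_dgL V hT 0) (inI_of_dgL V hT' 0)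
    (h 0) (h' 0)
  have h2 := congrArg (shL (-(b • ue 0))) h1
  rwa [shL_shL, shL_shL, neg_add_cancel, shL_zero, shL_zero] at h2

variable (hδ : ShD V sd δ b)

include ha hδ in
lemma exists_homR {T : LM M} (hT : T ∈ dgL M (m - b)) :
    ∃ φ : Frame.lb δ ⟶ til (NV M) m, HRep V b φ T := by
  have h1 : ∀ k, ∃ t : Γ(til (NV M) m, (VF V).U (kp sd k)), Rep V t (shL (b • ue k) T) :=
    fun k => exists_secL V ha (U_one V k) (inI_of_dgL V hT k)
  choose t ht using h1
  obtain ⟨φ, hφ⟩ := (locZ_til V M ha m).exists_hom (kp sd) (AV V).aff (AV V).isAffineOpen_inf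
    (δ := δ) t (by
      intro j l
      refine Rep.ext V ((ht l).rs V _) ?_
      have h3 := rep_tr V ha hδ (le_refl _) ((ht j).rs V (inf_le_left :
        (VF V).U (kp sd j) ⊓ (VF V).U (kp sd l) ≤ _))
      rw [ro_refl, shL_shL] at h3
      have h4 : b • (ue l - ue j) + b • ue j = b • ue l := by
        rw [smul_sub]
        abel
      rwa [h4] at h3)
  exact ⟨φ, fun k => by rw [hφ]; exact ht k⟩

include ha hδ in
lemma exists_repH (φ : Frame.lb δ ⟶ til (NV M) m) :
    ∃ T : LM M, T ∈ dgL M (m - b) ∧ HRep V b φ T := by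
  have h1 : ∀ k, ∃ l : LM M, InI V {k} m l ∧ Rep V (ap φ _ (Frame.lbE δ (kp sd k))) l :=
    fun k => exists_rep V ha ⟨k, Finset.mem_singleton_self k⟩ (U_one V k) _
  choose l hl hr using h1
  have h2 : ∀ k, shL (-(b • ue k)) (l k) = shL (-(b • ue 0)) (l 0) := by
    intro k
    by_cases hk : k = 0
    · rw [hk]
    have h3 : Rep V (rs _ (inf_le_right : (VF V).U (kp sd 0) ⊓ (VF V).U (kp sd k) ≤ _)
        (ap φ _ (Frame.lbE δ (kp sd k)))) (shL (b • (ue k - ue 0)) (l 0)) := by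
      rw [← ap_rs, Frame.lb_compat δ (kp sd 0) (kp sd k), map_smul, ap_rs]
      have h4 := rep_tr V ha hδ (le_refl _) ((hr 0).rs V (inf_le_left :
        (VF V).U (kp sd 0) ⊓ (VF V).U (kp sd k) ≤ _))
      rwa [ro_refl] at h4
    have h5 : l k = shL (b • (ue k - ue 0)) (l 0) := by
      refine Rep.unique V ha (I := {0, k}) ⟨0, by simp⟩ (U_two V (Ne.symm hk))
        ((hl k).mono V (by simp)) ?_ ((hr k).rs V _) h3
      intro e he
      rw [co_shL] at he
      obtain ⟨h6, h7⟩ := hl 0 _ he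
      refine ⟨fun i hi => ?_, ?_⟩
      · simp only [Finset.mem_insert, Finset.mem_singleton, not_or] at hi
        have h8 := h6 i (by simpa using hi.1)
        simpa only [smul_sub, neg_sub, Pi.add_apply, Pi.sub_apply, Pi.smul_apply, ue_ne hi.1,
          ue_ne hi.2, smul_zero, sub_zero, zero_add] using h8
      · simp only [smul_sub, neg_sub, Pi.add_apply, Pi.sub_apply, Finset.sum_add_distrib,
          Finset.sum_sub_distrib, Pi.smul_apply, ← Finset.smul_sum, sum_ue] at h7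
        linarith
    rw [h5, shL_shL]
    congr 1
    rw [smul_sub]
    abel
  refine ⟨shL (-(b • ue 0)) (l 0), ?_, fun k => ?_⟩
  · intro e he
    refine ⟨fun i => ?_, ?_⟩
    · obtain ⟨k, hk⟩ : ∃ k : Fin 3, i ≠ k := by
        fin_cases i
        · exact ⟨1, by decide⟩
        · exact ⟨0, by decide⟩
        · exact ⟨0, by decide⟩
      rw [← h2 k, co_shL, neg_neg] at he
      have h3 := (hl k _ he).1 i (fun h => hk (Finset.mem_singleton.1 h))
      rwa [bue_ne b hk] at h3
    · rw [co_shL, neg_neg] at he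
      have h3 := (hl 0 _ he).2
      rw [sum_bue] at h3
      omega
  · rw [← h2 k, shL_shL, add_neg_cancel, shL_zero]
    exact hr k

/-- Morphisms as homogeneous elements. -/
def homE (m : ℤ) : (Frame.lb δ ⟶ til (NV M) m) ≃+ dgL M (m - b) where
  toFun φ := ⟨(exists_repH V ha hδ φ).choose, (exists_repH V ha hδ φ).choose_spec.1⟩
  invFun T := (exists_homR V ha hδ T.2).choose
  left_inv φ := HRep.ext V ha (exists_homR V ha hδ (exists_repH V ha hδ φ).choose_spec.1).choose_spec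
    (exists_repH V ha hδ φ).choose_spec.2
  right_inv T := Subtype.ext (HRep.unique V ha (exists_repH V ha hδ _).choose_spec.2
    (exists_homR V ha hδ T.2).choose_spec (exists_repH V ha hδ _).choose_spec.1 T.2)
  map_add' φ ψ := Subtype.ext (HRep.unique V ha (exists_repH V ha hδ (φ + ψ)).choose_spec.2
    ((exists_repH V ha hδ φ).choose_spec.2.add V (exists_repH V ha hδ ψ).choose_spec.2)
    (exists_repH V ha hδ (φ + ψ)).choose_spec.1
    (add_mem (exists_repH V ha hδ φ).choose_spec.1 (exists_repH V ha hδ ψ).choose_spec.1))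

lemma homE_rep (φ : Frame.lb δ ⟶ til (NV M) m) : HRep V b φ (homE V ha hδ m φ).1 :=
  (exists_repH V ha hδ φ).choose_spec.2

lemma homE_symm_rep (T : dgL M (m - b)) : HRep V b ((homE V ha hδ m).symm T) T.1 :=
  (exists_homR V ha hδ T.2).choose_spec

lemma homE_comp (ha₁ : a₁ 0 = 1) (φ : Frame.lb δ ⟶ til (NV M) m) (f : CMH M M₁) :
    (homE V ha₁ hδ m (φ ≫ tm f m)).1 = lh f (homE V ha hδ m φ).1 :=
  HRep.unique V ha₁ (homE_rep V ha₁ hδ _) ((homE_rep V ha hδ φ).comp V f)
    (homE V ha₁ hδ m (φ ≫ tm f m)).2 (lh_mem f (homE V ha hδ m φ).2)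

attribute [local instance] HasDerivedCategory.standard

include ha hδ in
/-- Vanishing of higher morphisms. -/
theorem hom_til_eq_zero (hm : -2 ≤ m - b) {i : ℤ} (hi : i ≠ 0)
    (f : sg (Frame.lb δ) ⟶ (sg (til (NV M) m))⟦i⟧) : f = 0 := by
  rcases lt_or_gt_of_ne hi with h | h
  · exact Pool.Agent.R924.neg_hom_eq_zero _ _ i h f
  · obtain ⟨n, rfl⟩ : ∃ n : ℕ, i = ((n + 1 : ℕ) : ℤ) := ⟨(i - 1).toNat, by omega⟩
    exact ZCls.hom_eq_zero (kp sd) (AV V) (affine_Zo V) (zcls_til V ha hδ hm) n f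

end

end Run7.h164
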