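import Pool.Agent.Run7.h164.MU

set_option autoImplicit false
set_option linter.unusedVariables false
set_option linter.unusedSectionVars false

/-!
Projections along exceptional sequences.
-/

open CategoryTheory Limits Pretriangulated Module

namespace Run7.h164

noncomputable section

universe v u

variable {C : Type u} [Category.{v} C] [Preadditive C] [HasZeroObject C] [HasShift C ℤ]
  [∀ n : ℤ, (shiftFunctor C n).Additive] [Pretriangulated C] [Linear ℂ C]
  [∀ n : ℤ, (shiftFunctor C n).Linear ℂ]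

/-- No morphisms to shifts. -/
def Hz (E F : C) : Prop := ∀ (i : ℤ) (f : E ⟶ F⟦i⟧), f = 0

/-- Two classes of objects with finite-dimensional morphisms from the first to the second. -/
structure FCl (Q P : C → Prop) : Prop where
  le : ∀ X, P X → Q X
  fe : ∀ E F, Q E → P F → FE E F
  shift : ∀ (n : ℤ) (X : C), P X → P (X⟦n⟧)
  tri : ∀ T ∈ distTriang C, P T.obj₁ → P T.obj₂ → P T.obj₃

variable {Q P : C → Prop}

/-- Projection to the orthogonal of an exceptional sequence for classes of Euler characteristic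
zero. -/
theorem FCl.proj (hc : FCl Q P) : ∀ (L : List C), (∀ O ∈ L, Exc O ∧ P O) → L.Pairwise Hz →
    ∀ X, P X → (∀ O ∈ L, eu O X = 0) → ∃ X', P X' ∧ (∀ O ∈ L, Hz O X') ∧
      (∀ E, (∀ O ∈ L, Hz E O) → Hz E X → Hz E X') ∧ (∀ E, Q E → eu E X' = eu E X) ∧
      (∀ F, P F → eu X' F = eu X F) := by
  intro L
  induction L with
  | nil =>
    intro _ _ X hX _
    exact ⟨X, hX, fun O hO => absurd hO List.not_mem_nil, fun E _ h => h, fun E _ => rfl,
      fun F _ => rfl⟩
  | cons O L ih =>
    intro hL hp X hX h0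
    obtain ⟨hO, pO⟩ := hL O List.mem_cons_self
    rw [List.pairwise_cons] at hp
    obtain ⟨X₁, m, hm, hz⟩ := exists_mut' hO (hc.fe O X (hc.le O pO) hX)
    have m0 : m = 0 := (hm.eq hO (hc.fe O X (hc.le O pO) hX) hz).trans (h0 O List.mem_cons_self)
    subst m0
    have p1 : P X₁ := hm.cls P hc.shift hc.tri pO hX
    have r1 : ∀ E, Q E → eu E X₁ = eu E X := by
      intro E hE
      have := (hm.right E (hc.fe E O hE pO) (hc.fe E X hE hX)).2
      rw [this]
      ring
    have l1 : ∀ F, P F → eu X₁ F = eu X F := by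
      intro F hF
      have := (hm.left F (hc.fe O F (hc.le O pO) hF) (hc.fe X F (hc.le X hX) hF)).2
      rw [this]
      ring
    obtain ⟨X', a1, a2, a3, a4, a5⟩ := ih (fun O' h' => hL O' (List.mem_cons_of_mem _ h')) hp.2 X₁ p1
      fun O' h' => by
        rw [r1 O' (hc.le _ (hL O' (List.mem_cons_of_mem _ h')).2)]
        exact h0 O' (List.mem_cons_of_mem _ h')
    refine ⟨X', a1, ?_, ?_, fun E hE => (a4 E hE).trans (r1 E hE), fun F hF =>
      (a5 F hF).trans (l1 F hF)⟩
    · intro O' h'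
      rcases List.mem_cons.1 h' with rfl | h''
      · exact a3 O' hp.1 hz
      · exact a2 O' h''
    · intro E h1 h2
      refine a3 E (fun O' h' => h1 O' (List.mem_cons_of_mem _ h')) ?_
      exact hm.hom_zero (h1 O List.mem_cons_self) h2

/-- Subtraction of classes. -/
theorem exists_sub (O X : C) (n : ℕ) : ∃ X', Mut O X X' n := by
  induction n with
  | zero => exact ⟨X, by simpa using Mut.refl O X⟩
  | succ n ih =>
    obtain ⟨X₁, h⟩ := ih
    obtain ⟨X₂, g', h', hT⟩ := Pretriangulated.distinguished_cocone_triangle (0 : O⟦(0 : ℤ)⟧ ⟶ X₁)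
    refine ⟨X₂, ?_⟩
    have h2 := h.trans (Mut.of_tri (0 : ℤ) hT)
    simpa using h2

lemma FCl.sub (hc : FCl Q P) {O X X' : C} {n : ℤ} (h : Mut O X X' n) (pO : P O) (pX : P X) :
    P X' ∧ (∀ E, Q E → eu E X' = eu E X - n * eu E O) ∧ (∀ F, P F → eu X' F = eu X F - n * eu O F) :=
  ⟨h.cls P hc.shift hc.tri pO pX, fun E hE => (h.right E (hc.fe E O hE pO) (hc.fe E X hE pX)).2,
    fun F hF => (h.left F (hc.fe O F (hc.le O pO) hF) (hc.fe X F (hc.le X pX) hF)).2⟩

end

end Run7.h164
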