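import Pool.Agent.Run7.h164.KS
import Pool.Agent.Run7.h164.PJ

set_option autoImplicit false
set_option linter.unusedVariables false
set_option linter.unusedSectionVars false

/-!
The exceptional sequence of six line bundles.
-/

open CategoryTheory Limits TopologicalSpace AlgebraicGeometry Opposite Pretriangulated
open Module

namespace Run7.h164

noncomputable section

set_option backward.isDefEq.respectTransparency false

open Pool.Agent.W506 Pool.Agent.N212
open Pool.Agent.R924 (DD Frame sg DCoh CohAll)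

attribute [local instance] HasDerivedCategory.standard

variable {V : Verra}

lemma hz_three (s : Bool) (c d : ℤ) :
    ∀ (i : ℤ) (f : sg (OL V c d) ⟶
      (sg (LS V 1 (c - 1 - dx s) (d - 1 - dy s)))⟦i⟧), f = 0 := by
  have ds : (dx s = 0 ∧ dy s = 1) ∨ (dx s = 1 ∧ dy s = 0) := by
    cases s
    · exact Or.inr ⟨rfl, rfl⟩
    · exact Or.inl ⟨rfl, rfl⟩
  have h := hz_third (kdL V 1 s (c - 1 + 2 * dx s) (d - 1 + 2 * dy s)) (j₃ := 0) (j₂ := 0)
    (j₁ := 0) (j₀ := 0) (E := sg (OL V c d)) rfl rfl rfl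
    (hz_NL (by omega) (by omega) (by omega)) (hz_NL (by omega) (by omega) (by omega))
    (hz_NL (by omega) (by omega) (by omega))
  have e1 : c - 1 + 2 * dx s - (0 + 1 + 1 + 1) * dx s = c - 1 - dx s := by ring
  have e2 : d - 1 + 2 * dy s - (0 + 1 + 1 + 1) * dy s = d - 1 - dy s := by ring
  rw [← e1, ← e2]
  exact h

lemma hz_b {c d p q : ℤ} (h1 : -1 ≤ p - c) (h2 : -1 ≤ q - d) (h : p - c < 0 ∨ q - d < 0) :
    Hz (sg (OL V c d)) (sg (OL V p q)) := hz_of_LS (hz_basic h1 h2 h)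

lemma hz_t (s : Bool) {c d p q : ℤ} (h1 : p = c - 2 * dx s) (h2 : q = d - 2 * dy s) :
    Hz (sg (OL V c d)) (sg (OL V p q)) := by
  subst h1 h2
  exact hz_of_LS (hz_two s c d)

lemma hz_u (s : Bool) {c d p q : ℤ} (h1 : p = c - 1 - dx s) (h2 : q = d - 1 - dy s) :
    Hz (sg (OL V c d)) (sg (OL V p q)) := by
  subst h1 h2
  exact hz_of_LS (hz_three s c d)

variable (V) in
/-- The six line bundles. -/
def L6 : List (DerivedCategory (VX V).Modules) :=
  [sg (OL V 1 2), sg (OL V 2 1), sg (OL V 1 1), sg (OL V 0 1), sg (OL V 1 0), sg (OL V 0 0)]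

lemma pw_L6 : (L6 V).Pairwise Hz := by
  unfold L6
  simp only [List.pairwise_cons, List.mem_cons, List.not_mem_nil, or_false, forall_eq_or_imp,
    forall_eq, List.Pairwise.nil, and_true, IsEmpty.forall_iff, implies_true]
  refine ⟨⟨?_, ?_, ?_, ?_, ?_⟩, ⟨?_, ?_, ?_, ?_⟩, ⟨?_, ?_, ?_⟩, ⟨?_, ?_⟩, ?_⟩
  · exact hz_b (by norm_num) (by norm_num) (by norm_num)
  · exact hz_b (by norm_num) (by norm_num) (by norm_num)
  · exact hz_b (by norm_num) (by norm_num) (by norm_num)
  · exact hz_t true (by simp [dx]) (by simp [dy])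
  · exact hz_u true (by simp [dx]) (by simp [dy])
  · exact hz_b (by norm_num) (by norm_num) (by norm_num)
  · exact hz_t false (by simp [dx]) (by simp [dy])
  · exact hz_b (by norm_num) (by norm_num) (by norm_num)
  · exact hz_u false (by simp [dx]) (by simp [dy])
  · exact hz_b (by norm_num) (by norm_num) (by norm_num)
  · exact hz_b (by norm_num) (by norm_num) (by norm_num)
  · exact hz_b (by norm_num) (by norm_num) (by norm_num)
  · exact hz_b (by norm_num) (by norm_num) (by norm_num)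
  · exact hz_b (by norm_num) (by norm_num) (by norm_num)
  · exact hz_b (by norm_num) (by norm_num) (by norm_num)

variable (V) in
/-- The complexes with coherent cohomology and finite-dimensional morphisms from all such
complexes. -/
def PF (F : DerivedCategory (VX V).Modules) : Prop := DCoh F ∧ ∀ E, DCoh E → FE E F

lemma fcl : FCl (DCoh (X := VX V)) (PF V) where
  le X h := h.1
  fe E F hE hF := hF.2 E hE
  shift n X h := ⟨dCoh_shift h.1 n, fun E hE => (h.2 E hE).shift_right n⟩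
  tri T hT h1 h2 := ⟨dCoh_tri hT h1.1 h2.1, fun E hE => FE.third_right hT (h1.2 E hE) (h2.2 E hE)⟩

lemma pf_OL {p q : ℤ} (hp : -1 ≤ p) (hq : -1 ≤ q) : PF V (sg (OL V p q)) := by
  obtain ⟨e⟩ := exists_sgIso (V := V) p q
  exact ⟨dCoh_sg (cohAll_lb _), fun E hE => (fe_line hE 1 hp hq).iso_right e.symm⟩

lemma pf_rh {sd : Bool} {α β : ℂ} (D : LMd sd V.G (pt3 α β)) : PF V (tS (rhM D) (-1)) :=
  ⟨dCoh_tS _ (pt3_zero α β) _, fun E hE => fe_rh D hE⟩

lemma mem_L6 {O : DerivedCategory (VX V).Modules} (hO : O ∈ L6 V) :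
    ∃ p q : ℤ, ((p = 1 ∧ q = 2) ∨ (p = 2 ∧ q = 1) ∨ (p = 1 ∧ q = 1) ∨ (p = 0 ∧ q = 1) ∨
      (p = 1 ∧ q = 0) ∨ (p = 0 ∧ q = 0)) ∧ O = sg (OL V p q) := by
  unfold L6 at hO
  simp only [List.mem_cons, List.not_mem_nil, or_false] at hO
  rcases hO with h | h | h | h | h | h
  · exact ⟨1, 2, by norm_num, h⟩
  · exact ⟨2, 1, by norm_num, h⟩
  · exact ⟨1, 1, by norm_num, h⟩
  · exact ⟨0, 1, by norm_num, h⟩
  · exact ⟨1, 0, by norm_num, h⟩
  · exact ⟨0, 0, by norm_num, h⟩

lemma exc_L6 : ∀ O ∈ L6 V, Exc O ∧ PF V O := by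
  intro O hO
  obtain ⟨p, q, h, rfl⟩ := mem_L6 hO
  exact ⟨exc_OL p q, pf_OL (by omega) (by omega)⟩

end

end Run7.h164
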