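import Pool.Agent.Run7.h164.SQ

set_option autoImplicit false
set_option linter.unusedVariables false
set_option linter.unusedSectionVars false

/-!
Comparison of the statements: even pairs, rationality, equivalences.
-/

open CategoryTheory Limits TopologicalSpace AlgebraicGeometry Opposite Pretriangulated
open Module

namespace Run7.h164

noncomputable section

set_option backward.isDefEq.respectTransparency false

attribute [local instance] HasDerivedCategory.standard

variable {V : Verra}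

lemma kuS_shift (S : Set (ℕ × ℕ)) (n : ℤ) (E : DerivedCategory (VX V).Modules) (h : KuS V S E) :
    KuS V S (E⟦n⟧) := by
  refine ⟨dCoh_shift h.1 n, fun p q hS i f => ?_⟩
  have h1 := h.2 p q hS (n + i) (f ≫ ((shiftFunctorAdd' _ n i (n + i) rfl).app E).inv)
  rw [← cancel_mono ((shiftFunctorAdd' _ n i (n + i) rfl).app E).inv, h1, zero_comp]

lemma ku_shift (V : ST.Verra) (S : Set (ℕ × ℕ)) : ∀ (n : ℤ) (E : ST.D V.Y), ST.Ku V.Y S E →
    ST.Ku V.Y S (E⟦n⟧) := by
  rw [Y_eq]
  exact fun n E h => (ku_iff S _).2 (kuS_shift S n E ((ku_iff S E).1 h))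

lemma rational_of (h : IsRat V) : ST.Rational (devY V) := by
  obtain ⟨e, he⟩ := h
  exact ⟨inferInstanceAs (IrreducibleSpace (VX V)), e, he⟩

lemma ST.Rational.birational {Y Y' : ST.Charted} (h : ST.Rational Y) (h' : ST.Rational Y') :
    ST.Birational Y Y' := by
  obtain ⟨i, e, he⟩ := h
  obtain ⟨i', e', he'⟩ := h'
  exact ⟨i, i', e.trans e'.symm, fun c => by
    rw [RingEquiv.trans_apply, he, ← he', RingEquiv.symm_apply_apply]⟩

lemma rat_of_noPair (V : ST.Verra) (S : Set (ℕ × ℕ))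
    (hS : ∀ V : Verra, NoSec V false → NoSec V true →
      ∃ A B, ST.EvenPair (ST.Ku (devY V) S) A B) :
    (¬ ∃ A B, ST.EvenPair (ST.Ku V.Y S) A B) → ST.Rational V.Y := by
  rw [Y_eq]
  intro h
  by_cases h0 : NoSec (toV V) false
  · by_cases h1 : NoSec (toV V) true
    · exact absurd (hS _ h0 h1) h
    · exact rational_of (isRat_of_sec _ h1)
  · exact rational_of (isRat_of_sec _ h0)

lemma evenPair_iff {Y : ST.Charted} (P : ObjectProperty (ST.D Y)) (A B : ST.D Y) :
    ST.EvenPair P A B ↔ EvPair P A B :=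
  ⟨fun h => ⟨h.memA, h.memB, h.selfA, h.selfB, h.ab, h.ba, h.evenA, h.evenB⟩,
    fun h => ⟨h.memA, h.memB, h.selfA, h.selfB, h.ab, h.ba, h.evenA, h.evenB⟩⟩

/-- The theorem for arbitrary sets of line bundles with enough even pairs. -/
theorem main_gen (S : Set (ℕ × ℕ))
    (hS : ∀ V : Verra, NoSec V false → NoSec V true →
      ∃ A B, ST.EvenPair (ST.Ku (devY V) S) A B)
    (V V' : ST.Verra) (Φ : (ST.Ku V.Y S).FullSubcategory ⥤ (ST.Ku V'.Y S).FullSubcategory)
    [Φ.IsEquivalence] [Φ.Additive] [Φ.Linear ℂ] (hΦ : ST.CommShift Φ)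
    (h : ¬ ∃ A B, ST.EvenPair (ST.Ku V.Y S) A B) :
    ST.Rational V.Y ∧ ST.Rational V'.Y ∧ ST.Birational V.Y V'.Y := by
  have r1 := rat_of_noPair V S hS h
  have r2 := rat_of_noPair V' S hS fun ⟨A, B, hAB⟩ => by
    obtain ⟨A', B', h'⟩ := EvPair.pull Φ hΦ (ku_shift V S) ((evenPair_iff _ _ _).1 hAB)
    exact h ⟨A', B', (evenPair_iff _ _ _).2 h'⟩
  exact ⟨r1, r2, r1.birational r2⟩

/-- Even pairs for the literal definition. -/
theorem exists_pair4 (V : Verra) (h0 : NoSec V false) (h1 : NoSec V true) :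
    ∃ A B, ST.EvenPair (ST.Ku (devY V) S4) A B := by
  obtain ⟨A, B, h⟩ := exists_evPair h0 h1
  have hk : ∀ E, ST.Ku (devY V) S4 E ↔ KuP V E := fun E => (ku_iff S4 E).trans (kuS4_iff E)
  refine ⟨A, B, (hk A).2 h.memA, (hk B).2 h.memB, ?_, ?_, ?_, ?_, ?_, ?_⟩
  · rw [chi_eq]; exact h.selfA
  · rw [chi_eq]; exact h.selfB
  · rw [chi_eq]; exact h.ab
  · rw [chi_eq]; exact h.ba
  · intro E hE
    rw [chi_eq]
    exact h.evenA E ((hk E).1 hE)
  · intro E hE
    rw [chi_eq]
    exact h.evenB E ((hk E).1 hE)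

end

end Run7.h164
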