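import Pool.Agent.Run7.h164.PK
import Pool.Agent.Run7.h164.SR

set_option autoImplicit false
set_option linter.unusedVariables false
set_option linter.unusedSectionVars false

/-!
Even pairs in the Kuznetsov component of K3 type.
-/

open CategoryTheory Limits TopologicalSpace AlgebraicGeometry Opposite Pretriangulated
open Module

namespace Run7.h164

noncomputable section

set_option backward.isDefEq.respectTransparency false

open Pool.Agent.W506 Pool.Agent.N212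
open Pool.Agent.R924 (DD Frame sg DCoh CohAll)

attribute [local instance] HasDerivedCategory.standard

variable {V : Verra}

lemma eu_OO {p q : ℤ} (hp : -1 ≤ p) (hq : -1 ≤ q) (a b : ℤ) :
    4 * eu (sg (OL V a b)) (sg (OL V p q)) =
      (p - a + 1) * (p - a + 2) * (q - b + 1) * (q - b + 2) +
      (p - a) * (p - a + 1) * (q - b) * (q - b + 1) := by
  obtain ⟨e⟩ := exists_sgIso (V := V) p q
  rw [eu_iso_right e, eu_OL hp hq]

lemma eu_ro {sd : Bool} {α β : ℂ} (D : LMd sd V.G (pt3 α β)) {p q : ℤ} (hp : -1 ≤ p)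
    (hq : -1 ≤ q) : eu (tS (rhM D) (-1)) (sg (OL V p q)) = (dD sd p q + 1) * (dD sd p q + 2) := by
  obtain ⟨e⟩ := exists_sgIso (V := V) p q
  rw [eu_iso_right e, eu_rl D hp hq]
  ring

/-- The projection of an object of even type. -/
structure Pr6 (X u X' : DerivedCategory (VX V).Modules) : Prop where
  pf : PF V X'
  hz : ∀ O ∈ L6 V, Hz O X'
  right : ∀ E, DCoh E → eu E X' = eu E X - 2 * eu E u
  left : ∀ F, PF V F → eu X' F = eu X F - 2 * eu u F

lemma exists_pr6 {X u : DerivedCategory (VX V).Modules} (hX : PF V X) (hu : PF V u)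
    (h : ∀ O ∈ L6 V, eu O X = 2 * eu O u) : ∃ X', Pr6 X u X' := by
  obtain ⟨X₁, hm⟩ := exists_sub u X 2
  obtain ⟨a1, a2, a3⟩ := fcl.sub hm hu hX
  obtain ⟨X', b1, b2, -, b4, b5⟩ := fcl.proj (L6 V) exc_L6 pw_L6 X₁ a1 fun O hO => by
    rw [a2 O (exc_L6 O hO).2.1, h O hO]
    push_cast
    ring
  exact ⟨X', b1, b2, fun E hE => by rw [b4 E hE, a2 E hE]; push_cast; ring,
    fun F hF => by rw [b5 F hF, a3 F hF]; push_cast; ring⟩

/-- The line bundles of the component of K3 type. -/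
def S6 : Set (ℕ × ℕ) := {(0, 0), (1, 0), (0, 1), (1, 1), (2, 1), (1, 2)}

lemma ku6 {X : DerivedCategory (VX V).Modules} (h : DCoh X) (hz : ∀ O ∈ L6 V, Hz O X) :
    KuS V S6 X := by
  refine ⟨h, fun p q hS => ?_⟩
  have key : sg (OL V (p : ℤ) (q : ℤ)) ∈ L6 V := by
    unfold L6
    simp only [S6, Set.mem_insert_iff, Set.mem_singleton_iff, Prod.mk.injEq] at hS
    simp only [List.mem_cons, List.not_mem_nil, or_false]
    rcases hS with ⟨rfl, rfl⟩ | ⟨rfl, rfl⟩ | ⟨rfl, rfl⟩ | ⟨rfl, rfl⟩ | ⟨rfl, rfl⟩ | ⟨rfl, rfl⟩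
    · exact Or.inr (Or.inr (Or.inr (Or.inr (Or.inr rfl))))
    · exact Or.inr (Or.inr (Or.inr (Or.inr (Or.inl rfl))))
    · exact Or.inr (Or.inr (Or.inr (Or.inl rfl)))
    · exact Or.inr (Or.inr (Or.inl rfl))
    · exact Or.inr (Or.inl rfl)
    · exact Or.inl rfl
  exact hz _ key

lemma pr_false {α β : ℂ} (D : LMd false V.G (pt3 α β)) :
    ∃ X', Pr6 (tS (rhM D) (-1)) (sg (OL V (-1) 0)) X' := by
  refine exists_pr6 (pf_rh D) (pf_OL (by norm_num) (by norm_num)) fun O hO => ?_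
  obtain ⟨p, q, h, rfl⟩ := mem_L6 hO
  have e1 := eu_OO (V := V) (p := -1) (q := 0) (by norm_num) (by norm_num) p q
  rw [eu_lr D]
  change q * (q - 1) = _
  rcases h with ⟨rfl, rfl⟩ | ⟨rfl, rfl⟩ | ⟨rfl, rfl⟩ | ⟨rfl, rfl⟩ | ⟨rfl, rfl⟩ | ⟨rfl, rfl⟩ <;>
    norm_num at e1 ⊢ <;> linarith

lemma pr_true {α β : ℂ} (D : LMd true V.G (pt3 α β)) :
    ∃ X', Pr6 (tS (rhM D) (-1)) (sg (OL V 0 (-1))) X' := by
  refine exists_pr6 (pf_rh D) (pf_OL (by norm_num) (by norm_num)) fun O hO => ?_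
  obtain ⟨p, q, h, rfl⟩ := mem_L6 hO
  have e1 := eu_OO (V := V) (p := 0) (q := -1) (by norm_num) (by norm_num) p q
  rw [eu_lr D]
  change p * (p - 1) = _
  rcases h with ⟨rfl, rfl⟩ | ⟨rfl, rfl⟩ | ⟨rfl, rfl⟩ | ⟨rfl, rfl⟩ | ⟨rfl, rfl⟩ | ⟨rfl, rfl⟩ <;>
    norm_num at e1 ⊢ <;> linarith

/-- Euler characteristics of projections. -/
lemma Pr6.eu {X u X' Y w Y' : DerivedCategory (VX V).Modules} (h : Pr6 X u X') (h' : Pr6 Y w Y')
    (pX : PF V X) (pu : PF V u) (pY : PF V Y) (pw : PF V w) :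
    Run7.h164.eu X' Y' = Run7.h164.eu X Y - 2 * Run7.h164.eu X w -
      2 * (Run7.h164.eu u Y - 2 * Run7.h164.eu u w) := by
  rw [h'.right X' h.pf.1, h.left Y pY, h.left w pw]
  ring

/-- Even pairs in the component of K3 type. -/
theorem exists_ev6 (h0 : NoSec V false) (h1 : NoSec V true) :
    ∃ A B, EvPair (KuS V S6) A B := by
  obtain ⟨α, β, ⟨D⟩⟩ := exists_LMd (sd := false) (V := V) h1
  obtain ⟨γ, δ, ⟨D'⟩⟩ := exists_LMd (sd := true) (V := V) h0
  obtain ⟨A, hA⟩ := pr_false D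
  obtain ⟨B, hB⟩ := pr_true D'
  have pX := pf_rh D
  have pY := pf_rh D'
  have pu : PF V (sg (OL V (-1) 0)) := pf_OL (by norm_num) (by norm_num)
  have pw : PF V (sg (OL V 0 (-1))) := pf_OL (by norm_num) (by norm_num)
  have uu := eu_OO (V := V) (p := -1) (q := 0) (by norm_num) (by norm_num) (-1) 0
  have ww := eu_OO (V := V) (p := 0) (q := -1) (by norm_num) (by norm_num) 0 (-1)
  have uw := eu_OO (V := V) (p := 0) (q := -1) (by norm_num) (by norm_num) (-1) 0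
  have wu := eu_OO (V := V) (p := -1) (q := 0) (by norm_num) (by norm_num) 0 (-1)
  have xu : eu (tS (rhM D) (-1)) (sg (OL V (-1) 0)) = (0 + 1) * (0 + 2) :=
    eu_ro D (by norm_num) (by norm_num)
  have xw : eu (tS (rhM D) (-1)) (sg (OL V 0 (-1))) = (-1 + 1) * (-1 + 2) :=
    eu_ro D (by norm_num) (by norm_num)
  have yu : eu (tS (rhM D') (-1)) (sg (OL V (-1) 0)) = (-1 + 1) * (-1 + 2) :=
    eu_ro D' (by norm_num) (by norm_num)
  have yw : eu (tS (rhM D') (-1)) (sg (OL V 0 (-1))) = (0 + 1) * (0 + 2) :=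
    eu_ro D' (by norm_num) (by norm_num)
  have ux : eu (sg (OL V (-1) 0)) (tS (rhM D) (-1)) = 0 * (0 - 1) := eu_lr D _ _
  have wx : eu (sg (OL V 0 (-1))) (tS (rhM D) (-1)) = -1 * (-1 - 1) := eu_lr D _ _
  have uy : eu (sg (OL V (-1) 0)) (tS (rhM D') (-1)) = -1 * (-1 - 1) := eu_lr D' _ _
  have wy : eu (sg (OL V 0 (-1))) (tS (rhM D') (-1)) = 0 * (0 - 1) := eu_lr D' _ _
  have eAA := hA.eu hA pX pu pX pu
  have eBB := hB.eu hB pY pw pY pw
  have eAB := hA.eu hB pX pu pY pw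
  have eBA := hB.eu hA pY pw pX pu
  rw [eu_self, xu, ux] at eAA
  rw [eu_self, yw, wy] at eBB
  rw [eu_cross D D', xw, uy] at eAB
  rw [eu_cross D' D, yu, wx] at eBA
  have n1 : (Int.negOnePow 1 : ℤ) = -1 := by simp
  refine ⟨A, B⟦(1 : ℤ)⟧, ku6 hA.pf.1 hA.hz, kuS_shift S6 1 B (ku6 hB.pf.1 hB.hz), ?_, ?_, ?_, ?_,
    ?_, ?_⟩
  · norm_num at uu
    linarith
  · rw [eu_shift_right, eu_shift_left, n1]
    norm_num at ww
    linarith
  · rw [eu_shift_right, n1]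
    norm_num at uw
    linarith
  · rw [eu_shift_left, n1]
    norm_num at wu
    linarith
  · intro E hE
    rw [hA.right E hE.1]
    exact (even_rh h0 (noSq h1) D hE.1).sub (even_two_mul _)
  · intro E hE
    rw [eu_shift_right, n1, hB.right E hE.1]
    exact ((even_rh h1 (noSq h0) D' hE.1).sub (even_two_mul _)).mul_left _

/-- Even pairs for the component of K3 type. -/
theorem exists_pair6 (V : Verra) (h0 : NoSec V false) (h1 : NoSec V true) :
    ∃ A B, ST.EvenPair (ST.Ku (devY V) S6) A B := by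
  obtain ⟨A, B, h⟩ := exists_ev6 h0 h1
  have hk : ∀ E, ST.Ku (devY V) S6 E ↔ KuS V S6 E := fun E => ku_iff S6 E
  refine ⟨A, B, (hk A).2 h.memA, (hk B).2 h.memB, ?_, ?_, ?_, ?_, ?_, ?_⟩
  · rw [chi_eq]; exact h.selfA
  · rw [chi_eq]; exact h.selfB
  · rw [chi_eq]; exact h.ab
  · rw [chi_eq]; exact h.ba
  · intro E hE
    rw [chi_eq]
    exact h.evenA E ((hk E).1 hE)
  · intro E hE
    rw [chi_eq]
    exact h.evenB E ((hk E).1 hE)

end

end Run7.h164
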