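import Pool.Agent.Run7.h164.PL

set_option autoImplicit false
set_option linter.unusedVariables false
set_option linter.unusedSectionVars false

/-!
Even triples in the Kuznetsov component of K3 type.
-/

open CategoryTheory Limits TopologicalSpace AlgebraicGeometry Opposite Pretriangulated
open Module

namespace Run7.h164

noncomputable section

set_option backward.isDefEq.respectTransparency false

open Pool.Agent.W506 Pool.Agent.N212
open Pool.Agent.R924 (DD Frame sg DCoh CohAll)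

attribute [local instance] HasDerivedCategory.standard

section Abs

universe v u

variable {C : Type u} [Category.{v} C] [Preadditive C] [HasZeroObject C] [HasShift C ℤ]
  [∀ n : ℤ, (shiftFunctor C n).Additive] [Pretriangulated C] [Linear ℂ C]
  [∀ n : ℤ, (shiftFunctor C n).Linear ℂ]

/-- Integral combinations of classes. -/
theorem exists_lin (O X : C) (n : ℤ) : ∃ X', Mut O X X' n := by
  induction n using Int.induction_on with
  | zero => exact ⟨X, Mut.refl O X⟩
  | succ n ih =>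
    obtain ⟨X₁, h⟩ := ih
    obtain ⟨X₂, g', h', hT⟩ := Pretriangulated.distinguished_cocone_triangle (0 : O⟦(0 : ℤ)⟧ ⟶ X₁)
    refine ⟨X₂, ?_⟩
    have h2 := h.trans (Mut.of_tri (0 : ℤ) hT)
    simpa using h2
  | pred n ih =>
    obtain ⟨X₁, h⟩ := ih
    obtain ⟨X₂, g', h', hT⟩ := Pretriangulated.distinguished_cocone_triangle (0 : O⟦(1 : ℤ)⟧ ⟶ X₁)
    refine ⟨X₂, ?_⟩
    have h2 := h.trans (Mut.of_tri (1 : ℤ) hT)
    simpa [sub_eq_add_neg] using h2

end Abs

variable {V : Verra}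

/-- The class of the spherical type. -/
structure K6 (K : DerivedCategory (VX V).Modules) : Prop where
  pf : PF V K
  hz : ∀ O ∈ L6 V, Hz O K
  right : ∀ E, DCoh E → eu E K = eu E (sg (OL V 1 (-1))) - eu E (sg (OL V (-1) 0)) -
    eu E (sg (OL V 0 1)) + 3 * eu E (sg (OL V 0 0))
  left : ∀ F, PF V F → eu K F = eu (sg (OL V 1 (-1))) F - eu (sg (OL V (-1) 0)) F -
    eu (sg (OL V 0 1)) F + 3 * eu (sg (OL V 0 0)) F

lemma exists_k6 : ∃ K, K6 (V := V) K := by
  have pz : PF V (sg (OL V 1 (-1))) := pf_OL (by norm_num) (by norm_num)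
  have pu : PF V (sg (OL V (-1) 0)) := pf_OL (by norm_num) (by norm_num)
  have py : PF V (sg (OL V 0 1)) := pf_OL (by norm_num) (by norm_num)
  have po : PF V (sg (OL V 0 0)) := pf_OL (by norm_num) (by norm_num)
  obtain ⟨X₁, m1⟩ := exists_lin (sg (OL V (-1) 0)) (sg (OL V 1 (-1))) 1
  obtain ⟨a1, a2, a3⟩ := fcl.sub m1 pu pz
  obtain ⟨X₂, m2⟩ := exists_lin (sg (OL V 0 1)) X₁ 1
  obtain ⟨b1, b2, b3⟩ := fcl.sub m2 py a1
  obtain ⟨X₃, m3⟩ := exists_lin (sg (OL V 0 0)) X₂ (-3)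
  obtain ⟨c1, c2, c3⟩ := fcl.sub m3 po b1
  have r : ∀ E, DCoh E → eu E X₃ = eu E (sg (OL V 1 (-1))) - eu E (sg (OL V (-1) 0)) -
      eu E (sg (OL V 0 1)) + 3 * eu E (sg (OL V 0 0)) := by
    intro E hE
    rw [c2 E hE, b2 E hE, a2 E hE]
    ring
  have l : ∀ F, PF V F → eu X₃ F = eu (sg (OL V 1 (-1))) F - eu (sg (OL V (-1) 0)) F -
      eu (sg (OL V 0 1)) F + 3 * eu (sg (OL V 0 0)) F := by
    intro F hF
    rw [c3 F hF, b3 F hF, a3 F hF]
    ring
  obtain ⟨K, d1, d2, -, d4, d5⟩ := fcl.proj (L6 V) exc_L6 pw_L6 X₃ c1 fun O hO => by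
    rw [r O (exc_L6 O hO).2.1]
    obtain ⟨p, q, h, rfl⟩ := mem_L6 hO
    have e1 := eu_OO (V := V) (p := 1) (q := -1) (by norm_num) (by norm_num) p q
    have e2 := eu_OO (V := V) (p := -1) (q := 0) (by norm_num) (by norm_num) p q
    have e3 := eu_OO (V := V) (p := 0) (q := 1) (by norm_num) (by norm_num) p q
    have e4 := eu_OO (V := V) (p := 0) (q := 0) (by norm_num) (by norm_num) p q
    rcases h with ⟨rfl, rfl⟩ | ⟨rfl, rfl⟩ | ⟨rfl, rfl⟩ | ⟨rfl, rfl⟩ | ⟨rfl, rfl⟩ | ⟨rfl, rfl⟩ <;>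
      norm_num at e1 e2 e3 e4 <;> linarith
  exact ⟨K, d1, d2, fun E hE => (d4 E hE).trans (r E hE), fun F hF => (d5 F hF).trans (l F hF)⟩

/-- Even triples. -/
structure EvTri (P : ObjectProperty (DerivedCategory (VX V).Modules))
    (A B L : DerivedCategory (VX V).Modules) : Prop where
  pair : EvPair P A B
  memL : P L
  selfL : eu L L = -2
  al : eu A L = 0
  la : eu L A = 0
  bl : eu B L = 0
  lb : eu L B = 0

end

end Run7.h164
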