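import Pool.Agent.Run7.h164.PM

set_option autoImplicit false
set_option linter.unusedVariables false
set_option linter.unusedSectionVars false

/-!
Even triples in the Kuznetsov component of K3 type.
-/

open CategoryTheory Limits TopologicalSpace AlgebraicGeometry Opposite Pretriangulated
open Module

namespace Run7.h164

noncomputable section

set_option backward.isDefEq.respectTransparency false

open Pool.Agent.W506 Pool.Agent.N212
open Pool.Agent.R924 (DD Frame sg DCoh CohAll)

attribute [local instance] HasDerivedCategory.standard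

variable {V : Verra}

/-- The Euler characteristic of a line bundle. -/
lemma eu_val {a b p q n : ℤ} (hp : -1 ≤ p) (hq : -1 ≤ q)
    (h : (p - a + 1) * (p - a + 2) * (q - b + 1) * (q - b + 2) +
      (p - a) * (p - a + 1) * (q - b) * (q - b + 1) = 4 * n) :
    eu (sg (OL V a b)) (sg (OL V p q)) = n := by
  have := eu_OO (V := V) hp hq a b
  omega

lemma K6.kk {K : DerivedCategory (VX V).Modules} (h : K6 K) : eu K K = 2 := by
  have pz : PF V (sg (OL V 1 (-1))) := pf_OL (by norm_num) (by norm_num)
  have pu : PF V (sg (OL V (-1) 0)) := pf_OL (by norm_num) (by norm_num)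
  have py : PF V (sg (OL V 0 1)) := pf_OL (by norm_num) (by norm_num)
  have po : PF V (sg (OL V 0 0)) := pf_OL (by norm_num) (by norm_num)
  rw [h.right K h.pf.1, h.left _ pz, h.left _ pu, h.left _ py, h.left _ po,
    eu_val (V := V) (a := 1) (b := -1) (p := 1) (q := -1) (n := 1) (by norm_num) (by norm_num) (by norm_num),
    eu_val (V := V) (a := -1) (b := 0) (p := 1) (q := -1) (n := 0) (by norm_num) (by norm_num) (by norm_num),
    eu_val (V := V) (a := 0) (b := 1) (p := 1) (q := -1) (n := 1) (by norm_num) (by norm_num) (by norm_num),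
    eu_val (V := V) (a := 0) (b := 0) (p := 1) (q := -1) (n := 0) (by norm_num) (by norm_num) (by norm_num),
    eu_val (V := V) (a := 1) (b := -1) (p := -1) (q := 0) (n := 1) (by norm_num) (by norm_num) (by norm_num),
    eu_val (V := V) (a := -1) (b := 0) (p := -1) (q := 0) (n := 1) (by norm_num) (by norm_num) (by norm_num),
    eu_val (V := V) (a := 0) (b := 1) (p := -1) (q := 0) (n := 0) (by norm_num) (by norm_num) (by norm_num),
    eu_val (V := V) (a := 0) (b := 0) (p := -1) (q := 0) (n := 0) (by norm_num) (by norm_num) (by norm_num),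
    eu_val (V := V) (a := 1) (b := -1) (p := 0) (q := 1) (n := 0) (by norm_num) (by norm_num) (by norm_num),
    eu_val (V := V) (a := -1) (b := 0) (p := 0) (q := 1) (n := 10) (by norm_num) (by norm_num) (by norm_num),
    eu_val (V := V) (a := 0) (b := 1) (p := 0) (q := 1) (n := 1) (by norm_num) (by norm_num) (by norm_num),
    eu_val (V := V) (a := 0) (b := 0) (p := 0) (q := 1) (n := 3) (by norm_num) (by norm_num) (by norm_num),
    eu_val (V := V) (a := 1) (b := -1) (p := 0) (q := 0) (n := 0) (by norm_num) (by norm_num) (by norm_num),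
    eu_val (V := V) (a := -1) (b := 0) (p := 0) (q := 0) (n := 3) (by norm_num) (by norm_num) (by norm_num),
    eu_val (V := V) (a := 0) (b := 1) (p := 0) (q := 0) (n := 0) (by norm_num) (by norm_num) (by norm_num),
    eu_val (V := V) (a := 0) (b := 0) (p := 0) (q := 0) (n := 1) (by norm_num) (by norm_num) (by norm_num)]
  norm_num

/-- Pairings with the projections of the first kind. -/
lemma K6.ka {K : DerivedCategory (VX V).Modules} (h : K6 K) {α β : ℂ}
    {D : LMd false V.G (pt3 α β)} {A : DerivedCategory (VX V).Modules}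
    (hA : Pr6 (tS (rhM D) (-1)) (sg (OL V (-1) 0)) A) : eu K A = 2 ∧ eu A K = 2 := by
  have pz : PF V (sg (OL V 1 (-1))) := pf_OL (by norm_num) (by norm_num)
  have pu : PF V (sg (OL V (-1) 0)) := pf_OL (by norm_num) (by norm_num)
  have py : PF V (sg (OL V 0 1)) := pf_OL (by norm_num) (by norm_num)
  have po : PF V (sg (OL V 0 0)) := pf_OL (by norm_num) (by norm_num)
  have pX := pf_rh D
  constructor
  · rw [hA.right K h.pf.1, h.left _ pX, h.left _ pu, eu_lr D, eu_lr D, eu_lr D, eu_lr D,
      eu_val (V := V) (a := 1) (b := -1) (p := -1) (q := 0) (n := 1) (by norm_num) (by norm_num) (by norm_num),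
      eu_val (V := V) (a := -1) (b := 0) (p := -1) (q := 0) (n := 1) (by norm_num) (by norm_num) (by norm_num),
      eu_val (V := V) (a := 0) (b := 1) (p := -1) (q := 0) (n := 0) (by norm_num) (by norm_num) (by norm_num),
      eu_val (V := V) (a := 0) (b := 0) (p := -1) (q := 0) (n := 0) (by norm_num) (by norm_num) (by norm_num)]
    simp only [dD, Bool.false_eq_true, if_false]
    norm_num
  · rw [hA.left K h.pf, h.right _ pX.1, h.right _ pu.1,
      eu_ro D (p := 1) (q := -1) (by norm_num) (by norm_num),
      eu_ro D (p := -1) (q := 0) (by norm_num) (by norm_num),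
      eu_ro D (p := 0) (q := 1) (by norm_num) (by norm_num),
      eu_ro D (p := 0) (q := 0) (by norm_num) (by norm_num),
      eu_val (V := V) (a := -1) (b := 0) (p := 1) (q := -1) (n := 0) (by norm_num) (by norm_num) (by norm_num),
      eu_val (V := V) (a := -1) (b := 0) (p := -1) (q := 0) (n := 1) (by norm_num) (by norm_num) (by norm_num),
      eu_val (V := V) (a := -1) (b := 0) (p := 0) (q := 1) (n := 10) (by norm_num) (by norm_num) (by norm_num),
      eu_val (V := V) (a := -1) (b := 0) (p := 0) (q := 0) (n := 3) (by norm_num) (by norm_num) (by norm_num)]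
    simp only [dD, Bool.false_eq_true, if_false]
    norm_num

/-- Pairings with the projections of the second kind. -/
lemma K6.kb {K : DerivedCategory (VX V).Modules} (h : K6 K) {α β : ℂ}
    {D : LMd true V.G (pt3 α β)} {B : DerivedCategory (VX V).Modules}
    (hB : Pr6 (tS (rhM D) (-1)) (sg (OL V 0 (-1))) B) : eu K B = -2 ∧ eu B K = -2 := by
  have pz : PF V (sg (OL V 1 (-1))) := pf_OL (by norm_num) (by norm_num)
  have pw : PF V (sg (OL V 0 (-1))) := pf_OL (by norm_num) (by norm_num)
  have pu : PF V (sg (OL V (-1) 0)) := pf_OL (by norm_num) (by norm_num)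
  have py : PF V (sg (OL V 0 1)) := pf_OL (by norm_num) (by norm_num)
  have po : PF V (sg (OL V 0 0)) := pf_OL (by norm_num) (by norm_num)
  have pX := pf_rh D
  constructor
  · rw [hB.right K h.pf.1, h.left _ pX, h.left _ pw, eu_lr D, eu_lr D, eu_lr D, eu_lr D,
      eu_val (V := V) (a := 1) (b := -1) (p := 0) (q := -1) (n := 0) (by norm_num) (by norm_num) (by norm_num),
      eu_val (V := V) (a := -1) (b := 0) (p := 0) (q := -1) (n := 0) (by norm_num) (by norm_num) (by norm_num),
      eu_val (V := V) (a := 0) (b := 1) (p := 0) (q := -1) (n := 0) (by norm_num) (by norm_num) (by norm_num),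
      eu_val (V := V) (a := 0) (b := 0) (p := 0) (q := -1) (n := 0) (by norm_num) (by norm_num) (by norm_num)]
    simp only [dD, if_true]
    norm_num
  · rw [hB.left K h.pf, h.right _ pX.1, h.right _ pw.1,
      eu_ro D (p := 1) (q := -1) (by norm_num) (by norm_num),
      eu_ro D (p := -1) (q := 0) (by norm_num) (by norm_num),
      eu_ro D (p := 0) (q := 1) (by norm_num) (by norm_num),
      eu_ro D (p := 0) (q := 0) (by norm_num) (by norm_num),
      eu_val (V := V) (a := 0) (b := -1) (p := 1) (q := -1) (n := 3) (by norm_num) (by norm_num) (by norm_num),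
      eu_val (V := V) (a := 0) (b := -1) (p := -1) (q := 0) (n := 0) (by norm_num) (by norm_num) (by norm_num),
      eu_val (V := V) (a := 0) (b := -1) (p := 0) (q := 1) (n := 6) (by norm_num) (by norm_num) (by norm_num),
      eu_val (V := V) (a := 0) (b := -1) (p := 0) (q := 0) (n := 3) (by norm_num) (by norm_num) (by norm_num)]
    simp only [dD, if_true]
    norm_num

end

end Run7.h164
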