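import Pool.Agent.Run7.h164.ST

set_option autoImplicit false

/-!
Even triples.
-/

open CategoryTheory AlgebraicGeometry

namespace Run7.h164.ST

noncomputable section

set_option backward.isDefEq.respectTransparency false

variable {Y : Charted}

/-- Even triples: isotropic objects `A`, `B` with pairing two which have even pairing with all
objects, and an object `L` orthogonal to both with self-pairing minus two. -/
structure EvenTriple (P : ObjectProperty (D Y)) (A B L : D Y) : Prop where
  pair : EvenPair P A B
  memL : P L
  selfL : chi L L = -2
  al : chi A L = 0
  la : chi L A = 0
  bl : chi B L = 0
  lb : chi L B = 0

end

end Run7.h164.ST
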