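import Pool.Agent.Run7.h164.PN
import Pool.Agent.Run7.h164.SU

set_option autoImplicit false
set_option linter.unusedVariables false
set_option linter.unusedSectionVars false

/-!
Even triples in the Kuznetsov component of K3 type: the theorem.
-/

open CategoryTheory Limits TopologicalSpace AlgebraicGeometry Opposite Pretriangulated
open Module

namespace Run7.h164

noncomputable section

set_option backward.isDefEq.respectTransparency false

section Tr

universe v u v' u'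

variable {C : Type u} [Category.{v} C] [Preadditive C] [Linear ℂ C] [HasShift C ℤ]
  {D : Type u'} [Category.{v'} D] [Preadditive D] [Linear ℂ D] [HasShift D ℤ]
  {P : ObjectProperty C} {Q : ObjectProperty D}

/-- Even triples. -/
structure EvTriple (P : ObjectProperty C) (A B L : C) : Prop where
  pair : EvPair P A B
  memL : P L
  selfL : eu L L = -2
  al : eu A L = 0
  la : eu L A = 0
  bl : eu B L = 0
  lb : eu L B = 0

lemma EvTriple.pull (Φ : P.FullSubcategory ⥤ Q.FullSubcategory) [Φ.IsEquivalence] [Φ.Additive]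
    [Φ.Linear ℂ] (h : ShC Φ) (hP : ∀ (n : ℤ) (E : C), P E → P (E⟦n⟧)) {A B L : D}
    (hh : EvTriple Q A B L) : ∃ A' B' L' : C, EvTriple P A' B' L' := by
  have hAB := hh.pair
  let A₁ : P.FullSubcategory := Φ.objPreimage ⟨A, hAB.memA⟩
  let B₁ : P.FullSubcategory := Φ.objPreimage ⟨B, hAB.memB⟩
  let L₁ : P.FullSubcategory := Φ.objPreimage ⟨L, hh.memL⟩
  let a : (Φ.obj A₁).obj ≅ A := Q.ι.mapIso (Φ.objObjPreimageIso ⟨A, hAB.memA⟩)
  let b : (Φ.obj B₁).obj ≅ B := Q.ι.mapIso (Φ.objObjPreimageIso ⟨B, hAB.memB⟩)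
  let l : (Φ.obj L₁).obj ≅ L := Q.ι.mapIso (Φ.objObjPreimageIso ⟨L, hh.memL⟩)
  refine ⟨A₁.obj, B₁.obj, L₁.obj, ⟨A₁.property, B₁.property, ?_, ?_, ?_, ?_, ?_, ?_⟩,
    L₁.property, ?_, ?_, ?_, ?_, ?_⟩
  · rw [eu_fs Φ h hP, eu_iso2 a a, hAB.selfA]
  · rw [eu_fs Φ h hP, eu_iso2 b b, hAB.selfB]
  · rw [eu_fs Φ h hP, eu_iso2 a b, hAB.ab]
  · rw [eu_fs Φ h hP, eu_iso2 b a, hAB.ba]
  · intro E hE
    rw [eu_fs Φ h hP ⟨E, hE⟩ A₁, eu_iso_right a]
    exact hAB.evenA _ (Φ.obj ⟨E, hE⟩).property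
  · intro E hE
    rw [eu_fs Φ h hP ⟨E, hE⟩ B₁, eu_iso_right b]
    exact hAB.evenB _ (Φ.obj ⟨E, hE⟩).property
  · rw [eu_fs Φ h hP, eu_iso2 l l, hh.selfL]
  · rw [eu_fs Φ h hP, eu_iso2 a l, hh.al]
  · rw [eu_fs Φ h hP, eu_iso2 l a, hh.la]
  · rw [eu_fs Φ h hP, eu_iso2 b l, hh.bl]
  · rw [eu_fs Φ h hP, eu_iso2 l b, hh.lb]

end Tr

open Pool.Agent.W506 Pool.Agent.N212
open Pool.Agent.R924 (DD Frame sg DCoh CohAll)

attribute [local instance] HasDerivedCategory.standard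

/-- Even triples in the component of K3 type, with even pairings with all coherent complexes. -/
theorem exists_tri6 {V : Verra} (h0 : NoSec V false) (h1 : NoSec V true) :
    ∃ A B L : DerivedCategory (VX V).Modules, KuS V S6 A ∧ KuS V S6 B ∧ KuS V S6 L ∧
      (∀ E, DCoh E → Even (eu E A) ∧ Even (eu E B)) ∧ eu A A = 0 ∧ eu B B = 0 ∧ eu A B = 2 ∧
      eu B A = 2 ∧ eu L L = -2 ∧ eu A L = 0 ∧ eu L A = 0 ∧ eu B L = 0 ∧ eu L B = 0 := by
  obtain ⟨α, β, ⟨D⟩⟩ := exists_LMd (sd := false) (V := V) h1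
  obtain ⟨γ, δ, ⟨D'⟩⟩ := exists_LMd (sd := true) (V := V) h0
  obtain ⟨A, hA⟩ := pr_false D
  obtain ⟨B, hB⟩ := pr_true D'
  obtain ⟨K, hK⟩ := exists_k6 (V := V)
  have pX := pf_rh D
  have pY := pf_rh D'
  have pu : PF V (sg (OL V (-1) 0)) := pf_OL (by norm_num) (by norm_num)
  have pw : PF V (sg (OL V 0 (-1))) := pf_OL (by norm_num) (by norm_num)
  have eAA := hA.eu hA pX pu pX pu
  have eBB := hB.eu hB pY pw pY pw
  have eAB := hA.eu hB pX pu pY pw
  have eBA := hB.eu hA pY pw pX pu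
  rw [eu_self, eu_ro D (by norm_num) (by norm_num), eu_lr D,
    eu_val (n := 1) (by norm_num) (by norm_num) (by norm_num)] at eAA
  rw [eu_self, eu_ro D' (by norm_num) (by norm_num), eu_lr D',
    eu_val (n := 1) (by norm_num) (by norm_num) (by norm_num)] at eBB
  rw [eu_cross D D', eu_ro D (by norm_num) (by norm_num), eu_lr D',
    eu_val (n := 0) (by norm_num) (by norm_num) (by norm_num)] at eAB
  rw [eu_cross D' D, eu_ro D' (by norm_num) (by norm_num), eu_lr D,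
    eu_val (n := 0) (by norm_num) (by norm_num) (by norm_num)] at eBA
  simp only [dD, Bool.false_eq_true, if_false, if_true] at eAA eBB eAB eBA
  norm_num at eAA eBB eAB eBA
  obtain ⟨ka, ak⟩ := hK.ka hA
  obtain ⟨kb, bk⟩ := hK.kb hB
  have kk := hK.kk
  have n1 : (Int.negOnePow 1 : ℤ) = -1 := by simp
  set B' : DerivedCategory (VX V).Modules := B⟦(1 : ℤ)⟧ with hB'
  have pB' : PF V B' := fcl.shift 1 B hB.pf
  have r : ∀ E, eu E B' = -eu E B := fun E => by rw [hB', eu_shift_right, n1]; ring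
  have l : ∀ F, eu B' F = -eu B F := fun F => by rw [hB', eu_shift_left, n1]; ring
  obtain ⟨X₁, m1⟩ := exists_lin A K 1
  obtain ⟨a1, a2, a3⟩ := fcl.sub m1 hA.pf hK.pf
  obtain ⟨X₂, m2⟩ := exists_lin B' X₁ 1
  obtain ⟨b1, b2, b3⟩ := fcl.sub m2 pB' a1
  have zB' : ∀ O ∈ L6 V, Hz O B' := fun O hO => hom_shift_right (hB.hz O hO) 1
  have z2 : ∀ O ∈ L6 V, Hz O X₂ := fun O hO =>
    m2.hom_zero (zB' O hO) (m1.hom_zero (hA.hz O hO) (hK.hz O hO))
  have right : ∀ E, DCoh E → eu E X₂ = eu E K - eu E A + eu E B := fun E hE => by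
    rw [b2 E hE, a2 E hE, r]
    ring
  have left : ∀ F, PF V F → eu X₂ F = eu K F - eu A F + eu B F := fun F hF => by
    rw [b3 F hF, a3 F hF, l]
    ring
  have cA := hA.pf.1
  have cB := hB.pf.1
  have cK := hK.pf.1
  refine ⟨A, B', X₂, ku6 hA.pf.1 hA.hz, ku6 pB'.1 zB', ku6 b1.1 z2, fun E hE => ⟨?_, ?_⟩, eAA, ?_,
    ?_, ?_, ?_, ?_, ?_, ?_, ?_⟩
  · rw [hA.right E hE]
    exact (even_rh h0 (noSq h1) D hE).sub (even_two_mul _)
  · rw [r, hB.right E hE]
    exact ((even_rh h1 (noSq h0) D' hE).sub (even_two_mul _)).neg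
  · rw [r, l, eBB]
    norm_num
  · rw [r, eAB]
    norm_num
  · rw [l, eBA]
    norm_num
  · rw [right X₂ b1.1, left K hK.pf, left A hA.pf, left B hB.pf, kk, ak, bk, ka, kb, eAA, eBB,
      eAB, eBA]
    norm_num
  · rw [right A cA, ak, eAA, eAB]
    norm_num
  · rw [left A hA.pf, ka, eAA, eBA]
    norm_num
  · rw [l, right B cB, bk, eBA, eBB]
    norm_num
  · rw [r, left B hB.pf, kb, eAB, eBB]
    norm_num

end

end Run7.h164
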