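import Pool.Agent.Run7.h164.PO

set_option autoImplicit false
set_option linter.unusedVariables false
set_option linter.unusedSectionVars false

/-!
The theorem for components without even triples.
-/

open CategoryTheory Limits TopologicalSpace AlgebraicGeometry Opposite Pretriangulated
open Module

namespace Run7.h164

noncomputable section

set_option backward.isDefEq.respectTransparency false

attribute [local instance] HasDerivedCategory.standard

variable {V : Verra}

lemma kuS_mono {S T : Set (ℕ × ℕ)} (h : S ⊆ T) {E : DerivedCategory (VX V).Modules}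
    (hE : KuS V T E) : KuS V S E := ⟨hE.1, fun p q hS => hE.2 p q (h hS)⟩

lemma evenTriple_iff {Y : ST.Charted} (P : ObjectProperty (ST.D Y)) (A B L : ST.D Y) :
    ST.EvenTriple P A B L ↔ EvTriple P A B L :=
  ⟨fun h => ⟨(evenPair_iff P A B).1 h.pair, h.memL, h.selfL, h.al, h.la, h.bl, h.lb⟩,
    fun h => ⟨(evenPair_iff P A B).2 h.pair, h.memL, h.selfL, h.al, h.la, h.bl, h.lb⟩⟩

/-- Even triples in all components for subsets of the six line bundles. -/
theorem exists_triple (S : Set (ℕ × ℕ)) (hS : S ⊆ S6) (V : Verra) (h0 : NoSec V false)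
    (h1 : NoSec V true) : ∃ A B L, ST.EvenTriple (ST.Ku (devY V) S) A B L := by
  obtain ⟨A, B, L, mA, mB, mL, ev, aa, bb, ab, ba, ll, al, la, bl, lb⟩ := exists_tri6 h0 h1
  refine ⟨A, B, L, ⟨(ku_iff S A).2 (kuS_mono hS mA), (ku_iff S B).2 (kuS_mono hS mB), ?_, ?_, ?_,
    ?_, ?_, ?_⟩, (ku_iff S L).2 (kuS_mono hS mL), ?_, ?_, ?_, ?_, ?_⟩
  · rw [chi_eq]; exact aa
  · rw [chi_eq]; exact bb
  · rw [chi_eq]; exact ab
  · rw [chi_eq]; exact ba
  · intro E hE
    rw [chi_eq]
    exact (ev E ((ku_iff S E).1 hE).1).1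
  · intro E hE
    rw [chi_eq]
    exact (ev E ((ku_iff S E).1 hE).1).2
  · rw [chi_eq]; exact ll
  · rw [chi_eq]; exact al
  · rw [chi_eq]; exact la
  · rw [chi_eq]; exact bl
  · rw [chi_eq]; exact lb

lemma rat_of_noTriple (V : ST.Verra) (S : Set (ℕ × ℕ)) (hS : S ⊆ S6) :
    (¬ ∃ A B L, ST.EvenTriple (ST.Ku V.Y S) A B L) → ST.Rational V.Y := by
  rw [Y_eq]
  intro h
  by_cases h0 : NoSec (toV V) false
  · by_cases h1 : NoSec (toV V) true
    · exact absurd (exists_triple S hS _ h0 h1) h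
    · exact rational_of (isRat_of_sec _ h1)
  · exact rational_of (isRat_of_sec _ h0)

/-- The theorem. -/
theorem main_triple (S : Set (ℕ × ℕ)) (hS : S ⊆ S6) (V V' : ST.Verra)
    (Φ : (ST.Ku V.Y S).FullSubcategory ⥤ (ST.Ku V'.Y S).FullSubcategory)
    [Φ.IsEquivalence] [Φ.Additive] [Φ.Linear ℂ] (hΦ : ST.CommShift Φ)
    (h : ¬ ∃ A B L, ST.EvenTriple (ST.Ku V.Y S) A B L) :
    ST.Rational V.Y ∧ ST.Rational V'.Y ∧ ST.Birational V.Y V'.Y := by
  have r1 := rat_of_noTriple V S hS h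
  have r2 := rat_of_noTriple V' S hS fun ⟨A, B, L, hh⟩ => by
    obtain ⟨A', B', L', h'⟩ := EvTriple.pull Φ hΦ (ku_shift V S) ((evenTriple_iff _ _ _ _).1 hh)
    exact h ⟨A', B', L', (evenTriple_iff _ _ _ _).2 h'⟩
  exact ⟨r1, r2, r1.birational r2⟩

end

end Run7.h164
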