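import Pool.Agent.Run7.h164.KP

set_option autoImplicit false
set_option linter.unusedVariables false
set_option linter.unusedSectionVars false

/-!
Verra fourfolds are integral.
-/

open CategoryTheory Limits TopologicalSpace AlgebraicGeometry Opposite

namespace Run7.h164

noncomputable section

set_option backward.isDefEq.respectTransparency false

open Pool.Agent.W506 (ro ro_ro ro_refl)
open Pool.Agent.R924 (DD Frame)

variable (V : Verra)

/-- The generic point. -/
def etaP : ProjectiveSpectrum (rg V.G) where
  asHomogeneousIdeal := ⊥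
  isPrime := by
    rw [HomogeneousIdeal.toIdeal_bot]
    exact Ideal.isPrime_bot
  not_irrelevant_le := by
    intro h
    have h1 : gg V (0, 0) ∈ HomogeneousIdeal.irrelevant (rg V.G) := by
      rw [HomogeneousIdeal.mem_irrelevant_iff, GradedRing.proj_apply]
      exact DirectSum.decompose_of_mem_ne (rg V.G) (gg_mem V (0, 0)) one_ne_zero
    have h2 := h h1
    have h3 : gg V (0, 0) ∈ (⊥ : HomogeneousIdeal (rg V.G)).toIdeal := h2
    rw [HomogeneousIdeal.toIdeal_bot, Ideal.mem_bot] at h3
    exact gg_ne V _ h3

lemma etaP_mem {U : Set (ProjectiveSpectrum (rg V.G))} (hU : IsOpen U) (hne : U.Nonempty) :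
    etaP V ∈ U := by
  obtain ⟨y, hy⟩ := hne
  have h1 : etaP V ≤ y := by
    rw [← ProjectiveSpectrum.as_ideal_le_as_ideal]
    exact bot_le
  rw [ProjectiveSpectrum.le_iff_mem_closure] at h1
  obtain ⟨z, hz, hz'⟩ := mem_closure_iff.1 h1 U hU hy
  rwa [Set.mem_singleton_iff.1 hz'] at hz

instance : IrreducibleSpace (VX V) where
  isPreirreducible_univ := by
    rintro U U' hU hU' ⟨x, -, hx⟩ ⟨x', -, hx'⟩
    exact ⟨etaP V, trivial, etaP_mem V hU ⟨x, hx⟩, etaP_mem V hU' ⟨x', hx'⟩⟩
  toNonempty := ⟨etaP V⟩

lemma isDomain_atPrime (x : ProjectiveSpectrum (rg V.G)) :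
    IsDomain (HomogeneousLocalization.AtPrime (rg V.G) x.asHomogeneousIdeal.toIdeal) := by
  have h0 : x.asHomogeneousIdeal.toIdeal.primeCompl ≤ nonZeroDivisors (RF V.G) := by
    intro z hz
    refine mem_nonZeroDivisors_of_ne_zero ?_
    rintro rfl
    exact hz (zero_mem _)
  have h1 : IsDomain (Localization x.asHomogeneousIdeal.toIdeal.primeCompl) :=
    IsLocalization.isDomain_localization h0
  exact (HomogeneousLocalization.val_injective x.asHomogeneousIdeal.toIdeal.primeCompl).isDomain
    (algebraMap (HomogeneousLocalization (rg V.G) x.asHomogeneousIdeal.toIdeal.primeCompl)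
      (Localization x.asHomogeneousIdeal.toIdeal.primeCompl))

instance : AlgebraicGeometry.IsReduced (VX V) := by
  have h : ∀ x : VX V, _root_.IsReduced ((VX V).presheaf.stalk x) := by
    intro x
    have h1 := isDomain_atPrime V x
    let e := (Proj.stalkIso (rg V.G) x).commRingCatIsoToRingEquiv
    exact isReduced_of_injective e.toRingHom e.injective
  exact isReduced_of_isReduced_stalk (VX V)

instance : IsIntegral (VX V) := isIntegral_of_irreducibleSpace_of_isReduced (VX V)

end

end Run7.h164
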