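import Pool.Agent.Run7.h164.RA

set_option autoImplicit false
set_option linter.unusedVariables false
set_option linter.unusedSectionVars false

/-!
Rational function fields.
-/

open Cardinal

namespace Run7.h164

noncomputable section

/-- A field of transcendence degree at least four generated by four elements. -/
theorem rational_of_gen {L : Type} [Field L] [Algebra ℂ L] (x t : Fin 4 → L)
    (hx : AlgebraicIndependent ℂ x) (ht : IntermediateField.adjoin ℂ (Set.range t) = ⊤) :
    Nonempty (L ≃ₐ[ℂ] FractionRing (MvPolynomial (Fin 4) ℂ)) := by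
  have hal : Algebra.IsAlgebraic (Algebra.adjoin ℂ (Set.range t)) L := by
    refine ⟨fun z => ?_⟩
    have hz : z ∈ IntermediateField.adjoin ℂ (Set.range t) := by rw [ht]; trivial
    rw [IntermediateField.mem_adjoin_iff_div] at hz
    obtain ⟨a, ha, b, hb, rfl⟩ := hz
    have h1 : IsAlgebraic (Algebra.adjoin ℂ (Set.range t)) a :=
      isAlgebraic_algebraMap (⟨a, ha⟩ : Algebra.adjoin ℂ (Set.range t))
    have h2 : IsAlgebraic (Algebra.adjoin ℂ (Set.range t)) b :=
      isAlgebraic_algebraMap (⟨b, hb⟩ : Algebra.adjoin ℂ (Set.range t))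
    rw [div_eq_mul_inv]
    exact h1.mul h2.inv
  have hb : IsTranscendenceBasis ℂ t :=
    Algebra.IsAlgebraic.isTranscendenceBasis_of_lift_le_trdeg_of_finite ℂ t hx.lift_cardinalMk_le_trdeg
  exact ⟨(hb.1.aevalEquivField.trans ((IntermediateField.equivOfEq ht).trans
    IntermediateField.topEquiv)).symm⟩

end

end Run7.h164
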