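import Pool.Agent.Run7.h164.RB

set_option autoImplicit false
set_option linter.unusedVariables false
set_option linter.unusedSectionVars false

/-!
Stereographic projection; nondegeneracy of the generic form.
-/

open Cardinal

namespace Run7.h164

noncomputable section

section Sub2

variable {B : Type} [CommRing B] [Algebra ℂ B]

/-- Substitution in polynomials in two variables. -/
def sub2 (p q : B) : R2 →ₐ[ℂ] B :=
  Polynomial.eval₂AlgHom (Polynomial.aeval p : Polynomial ℂ →ₐ[ℂ] B) q
    (fun _ => Commute.all _ _)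

lemma sub2_X (p q : B) : sub2 p q Polynomial.X = q := Polynomial.eval₂_X _ _

lemma sub2_CX (p q : B) : sub2 p q (Polynomial.C Polynomial.X) = p :=
  (Polynomial.eval₂_C _ _).trans (Polynomial.aeval_X p)

lemma sub2_ext {φ ψ : R2 →ₐ[ℂ] B} (h1 : φ (Polynomial.C Polynomial.X) =
    ψ (Polynomial.C Polynomial.X)) (h2 : φ Polynomial.X = ψ Polynomial.X) (r : R2) :
    φ r = ψ r := by
  induction r using Polynomial.induction_on' with
  | add p q hp hq => rw [map_add, map_add, hp, hq]
  | monomial n c =>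
    rw [← Polynomial.C_mul_X_pow_eq_monomial, map_mul, map_mul, map_pow, map_pow, h2]
    congr 1
    induction c using Polynomial.induction_on' with
    | add p q hp hq => rw [map_add, map_add, map_add, hp, hq]
    | monomial m z =>
      rw [← Polynomial.C_mul_X_pow_eq_monomial, map_mul, map_mul, map_mul, map_pow, map_pow,
        map_pow, h1]
      congr 1
      exact (φ.commutes z).trans (ψ.commutes z).symm

lemma sub2_map {B' : Type} [CommRing B'] [Algebra ℂ B'] (φ : B →ₐ[ℂ] B') (p q : B) (r : R2) :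
    φ (sub2 p q r) = sub2 (φ p) (φ q) r :=
  sub2_ext (φ := φ.comp (sub2 p q)) (by
    change φ (sub2 p q _) = _
    rw [sub2_CX, sub2_CX]) (by
    change φ (sub2 p q _) = _
    rw [sub2_X, sub2_X]) r

lemma sub2_aG (p q : B) (i : Fin 3) : sub2 p q (aG i) = (![1, p, q] : Fin 3 → B) i := by
  fin_cases i
  · exact map_one _
  · exact sub2_CX p q
  · exact sub2_X p q

lemma sub2_gG (V : Verra) (sd : Bool) (p q : B) (k l : Fin 3) :
    sub2 p q (gG V sd k l) = gk V.G sd ![1, p, q] k l := by
  rw [gG, map_gk]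
  congr 1
  funext i
  exact sub2_aG p q i

lemma sub2_eval (α β : ℂ) (t : R2) : sub2 α β t = (t.map (Polynomial.evalRingHom α)).eval β := by
  change Polynomial.eval₂ _ _ t = _
  rw [Polynomial.eval_map]
  congr 1

lemma exists_sub2_ne {t : R2} (ht : t ≠ 0) : ∃ α β : ℂ, sub2 α β t ≠ 0 := by
  by_contra! h
  apply ht
  ext n : 1
  apply Polynomial.funext
  intro α
  have h1 : t.map (Polynomial.evalRingHom α) = 0 := by
    apply Polynomial.funext
    intro β
    rw [← sub2_eval, h, Polynomial.eval_zero]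
  have h2 := congrArg (fun p => Polynomial.coeff p n) h1
  rw [Polynomial.coeff_zero, Polynomial.eval_zero]
  exact (Polynomial.coeff_map _ _).symm.trans h2

lemma sub2_mem {L : Type} [Field L] [Algebra ℂ L] (F : IntermediateField ℂ L) {p q : L}
    (hp : p ∈ F) (hq : q ∈ F) (r : R2) : sub2 p q r ∈ F := by
  induction r using Polynomial.induction_on' with
  | add p q hp hq => rw [map_add]; exact add_mem hp hq
  | monomial n c =>
    rw [← Polynomial.C_mul_X_pow_eq_monomial, map_mul, map_pow, sub2_X]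
    refine mul_mem ?_ (pow_mem hq n)
    induction c using Polynomial.induction_on' with
    | add p q hp hq => rw [map_add, map_add]; exact add_mem hp hq
    | monomial m z =>
      rw [← Polynomial.C_mul_X_pow_eq_monomial, map_mul, map_mul, map_pow, map_pow, sub2_CX]
      refine mul_mem ?_ (pow_mem hp m)
      have h1 : sub2 p q (Polynomial.C (Polynomial.C z)) = algebraMap ℂ L z :=
        (sub2 p q).commutes z
      rw [h1]
      exact F.algebraMap_mem z

end Sub2

section Rad

variable {V : Verra} {sd : Bool}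

/-- The generic form is nondegenerate. -/
theorem rad {v : Fin 3 → R2} (hv : v ≠ 0) : ∃ k, ∑ l, gG V sd k l * v l ≠ 0 := by
  by_contra! h
  obtain ⟨k₀, hk₀⟩ := Function.ne_iff.1 hv
  obtain ⟨α, β, hαβ⟩ := exists_sub2_ne hk₀
  set x : Fin 3 → ℂ := pt3 α β with hx
  set y : Fin 3 → ℂ := fun k => sub2 α β (v k) with hy
  have hk : ∀ k, ∑ l, gk V.G sd x k l * y l = 0 := by
    intro k
    have h1 := congrArg (sub2 α β) (h k)
    rw [map_sum, map_zero] at h1
    rw [← h1]
    refine Finset.sum_congr rfl fun l _ => ?_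
    rw [map_mul, sub2_gG]
    rfl
  have hc : ∀ c : Fin 3, c ≠ 0 → ∑ k, ∑ l, y k * y l * dB V sd x (Pi.single c 1) k l = 0 := by
    intro c hc
    let e : Fin 3 → ℂ := Pi.single c 1
    let p : Polynomial ℂ := Polynomial.C α + Polynomial.X * Polynomial.C (e 1)
    let q : Polynomial ℂ := Polynomial.C β + Polynomial.X * Polynomial.C (e 2)
    let W : Fin 3 → Polynomial ℂ := fun k => sub2 p q (v k)
    have hW : ∀ k, (W k).eval 0 = y k := by
      intro k
      have h1 := sub2_map (Polynomial.aeval (0 : ℂ)) p q (v k)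
      have h2 : Polynomial.aeval (0 : ℂ) p = α := by
        simp [p]
      have h3 : Polynomial.aeval (0 : ℂ) q = β := by
        simp [q]
      rw [h2, h3] at h1
      change Polynomial.eval 0 (sub2 p q (v k)) = sub2 α β (v k)
      rw [← h1, Polynomial.coe_aeval_eq_eval]
    have ha : (![1, p, q] : Fin 3 → Polynomial ℂ) =
        fun j => Polynomial.C (x j) + Polynomial.X * Polynomial.C (e j) := by
      have e0 : e 0 = 0 := Pi.single_eq_of_ne (Ne.symm hc) _
      funext j
      fin_cases j
      · change (1 : Polynomial ℂ) = Polynomial.C 1 + Polynomial.X * Polynomial.C (e 0)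
        rw [e0]
        simp
      · rfl
      · rfl
    have hG : ∀ k, ∑ l, gk V.G sd (fun j => Polynomial.C (x j) + Polynomial.X * Polynomial.C (e j))
        k l * W l = 0 := by
      intro k
      have h1 := congrArg (sub2 p q) (h k)
      rw [map_sum, map_zero] at h1
      rw [← h1, ← ha]
      refine Finset.sum_congr rfl fun l _ => ?_
      rw [map_mul, sub2_gG]
    have hD : ∀ k, ∑ l, (dB V sd x e k l * y l +
        gk V.G sd x k l * (Polynomial.derivative (W l)).eval 0) = 0 := by
      intro k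
      have h1 := congrArg (fun r => (Polynomial.derivative r).eval 0) (hG k)
      simp only [map_sum, Polynomial.derivative_mul, Polynomial.eval_finsetSum,
        Polynomial.eval_add, Polynomial.eval_mul, map_zero, Polynomial.eval_zero] at h1
      rw [← h1]
      refine Finset.sum_congr rfl fun l _ => ?_
      rw [deriv_gk, hW, eval_gk]
      congr 3
      funext j
      rw [zero_mul, add_zero]
    have hS : ∑ k, y k * ∑ l, (dB V sd x e k l * y l +
        gk V.G sd x k l * (Polynomial.derivative (W l)).eval 0) =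
        ∑ k, ∑ l, y k * y l * dB V sd x e k l +
          ∑ l, (Polynomial.derivative (W l)).eval 0 * ∑ k, gk V.G sd x l k * y k := by
      have h1 : ∑ l, (Polynomial.derivative (W l)).eval 0 * ∑ k, gk V.G sd x l k * y k =
          ∑ k, ∑ l, y k * (gk V.G sd x k l * (Polynomial.derivative (W l)).eval 0) := by
        simp only [Finset.mul_sum]
        rw [Finset.sum_comm]
        refine Finset.sum_congr rfl fun k _ => Finset.sum_congr rfl fun l _ => ?_
        rw [gk_symm V sd x l k]
        ring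
      rw [h1, ← Finset.sum_add_distrib]
      refine Finset.sum_congr rfl fun k _ => ?_
      rw [← Finset.sum_add_distrib, Finset.mul_sum]
      refine Finset.sum_congr rfl fun l _ => ?_
      ring
    have h1 : ∑ k, y k * ∑ l, (dB V sd x e k l * y l +
        gk V.G sd x k l * (Polynomial.derivative (W l)).eval 0) = 0 :=
      Finset.sum_eq_zero fun k _ => by rw [hD, mul_zero]
    have h2 : ∑ l, (Polynomial.derivative (W l)).eval 0 * ∑ k, gk V.G sd x l k * y k = 0 :=
      Finset.sum_eq_zero fun k _ => by rw [hk, mul_zero]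
    rw [h1, h2, add_zero] at hS
    exact hS.symm
  have h0 : ∑ k, ∑ l, y k * y l * dB V sd x (Pi.single 0 1) k l = 0 := by
    have h1 : ∑ i, x i * ∑ k, ∑ l, y k * y l * dB V sd x (Pi.single i 1) k l = 0 := by
      have h2 : ∑ i, x i * ∑ k, ∑ l, y k * y l * dB V sd x (Pi.single i 1) k l =
          ∑ k, ∑ l, y k * y l * ∑ i, x i * dB V sd x (Pi.single i 1) k l := by
        simp only [Finset.mul_sum]
        rw [Finset.sum_comm]
        refine Finset.sum_congr rfl fun k _ => ?_
        rw [Finset.sum_comm]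
        refine Finset.sum_congr rfl fun l _ => Finset.sum_congr rfl fun i _ => ?_
        ring
      rw [h2]
      simp only [sum_dB, dB_self]
      have h3 : ∀ k, ∑ l, y k * y l * (2 * gk V.G sd x k l) =
          2 * y k * ∑ l, gk V.G sd x k l * y l := by
        intro k
        rw [Finset.mul_sum]
        exact Finset.sum_congr rfl fun l _ => by ring
      exact Finset.sum_eq_zero fun k _ => by rw [h3, hk, mul_zero]
    rw [Fin.sum_univ_three, hc 1 (by decide), hc 2 (by decide), mul_zero, mul_zero, add_zero,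
      add_zero] at h1
    have h2 : x 0 = 1 := rfl
    rwa [h2, one_mul] at h1
  have hs : ∃ s, dv s (ptS sd x y) (FP V.G) ≠ 0 := by
    have hx0 : ∃ i, x i ≠ 0 := ⟨0, one_ne_zero⟩
    have hy0 : ∃ k, y k ≠ 0 := ⟨k₀, hαβ⟩
    cases sd
    · exact V.smooth (ptS false x y) hx0 hy0
    · exact V.smooth (ptS true x y) hy0 hx0
  obtain ⟨s, hs⟩ := hs
  rcases cases_sI sd s with ⟨i, rfl⟩ | ⟨k, rfl⟩
  · rw [dv_sI] at hs
    by_cases hi : i = 0
    · subst hi
      exact hs h0
    · exact hs (hc i hi)
  · rw [dv_oI, hk, mul_zero] at hs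
    exact hs rfl

end Rad

section Stereo

variable {L : Type} [Field L] [Algebra ℂ L] (F : IntermediateField ℂ L)

/-- Stereographic projection. -/
theorem stereo {g : Fin 3 → Fin 3 → L} (hs : ∀ k l, g k l = g l k) (hgF : ∀ k l, g k l ∈ F)
    {w w₀ : L} {y v : Fin 3 → L} (hw : w ^ 2 = ∑ k, ∑ l, g k l * (y k * y l))
    (hw₀ : w₀ ^ 2 = ∑ k, ∑ l, g k l * (v k * v l)) (hw₀F : w₀ ∈ F) (hvF : ∀ k, v k ∈ F)
    (hy0 : y 0 = 1) {k₀ : Fin 3} (hv : v k₀ ≠ 0) (hy : y k₀ ≠ 0)
    (hd : w * v k₀ - w₀ * y k₀ ≠ 0) (hB : w₀ * w - ∑ k, ∑ l, g k l * (v k * y l) ≠ 0)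
    (haF : ∀ k, (y k * v k₀ - v k * y k₀) / (w * v k₀ - w₀ * y k₀) ∈ F) :
    w ∈ F ∧ ∀ k, y k ∈ F := by
  set d := w * v k₀ - w₀ * y k₀ with hdd
  set a : Fin 3 → L := fun k => (y k * v k₀ - v k * y k₀) / d with haa
  have he : ∀ k, d * a k = y k * v k₀ - v k * y k₀ := fun k => mul_div_cancel₀ _ hd
  have h2 : (2 : L) ≠ 0 := by
    have : (2 : L) = algebraMap ℂ L 2 := (map_ofNat (algebraMap ℂ L) 2).symm
    rw [this]
    exact (map_ne_zero _).2 two_ne_zero
  set Bd := w₀ - ∑ k, ∑ l, g k l * (v k * a l) with hBd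
  set Qd := 1 - ∑ k, ∑ l, g k l * (a k * a l) with hQd
  have e1 : d * Bd = v k₀ * (w₀ * w - ∑ k, ∑ l, g k l * (v k * y l)) := by
    have h3 : d * Bd = d * w₀ - ∑ k, ∑ l, g k l * (v k * (d * a l)) := by
      rw [hBd, mul_sub, Finset.mul_sum]
      congr 1
      refine Finset.sum_congr rfl fun k _ => ?_
      rw [Finset.mul_sum]
      exact Finset.sum_congr rfl fun l _ => by ring
    rw [h3]
    simp only [he]
    simp only [Fin.sum_univ_three] at hw₀ ⊢
    rw [hdd]
    linear_combination (-y k₀) * hw₀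
  have e2 : d * (2 * y k₀ * Bd + d * Qd) = 0 := by
    have h3 : d * (2 * y k₀ * Bd + d * Qd) = 2 * y k₀ * (d * Bd) +
        (d ^ 2 - ∑ k, ∑ l, g k l * ((d * a k) * (d * a l))) := by
      have h4 : ∑ k, ∑ l, g k l * ((d * a k) * (d * a l)) =
          d ^ 2 * ∑ k, ∑ l, g k l * (a k * a l) := by
        rw [Finset.mul_sum]
        refine Finset.sum_congr rfl fun k _ => ?_
        rw [Finset.mul_sum]
        exact Finset.sum_congr rfl fun l _ => by ring
      rw [h4, hQd]
      ring
    rw [h3, e1]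
    simp only [he]
    simp only [Fin.sum_univ_three, hs 1 0, hs 2 0, hs 2 1] at hw hw₀ ⊢
    rw [hdd]
    linear_combination (v k₀ ^ 2) * hw + (y k₀ ^ 2) * hw₀
  have e3 := (mul_eq_zero.1 e2).resolve_left hd
  have hQ : Qd ≠ 0 := by
    intro h
    rw [h, mul_zero, add_zero] at e3
    have h3 := (mul_eq_zero.1 e3).resolve_left (mul_ne_zero h2 hy)
    rw [h3, mul_zero] at e1
    exact mul_ne_zero hv hB e1.symm
  have hBF : Bd ∈ F := sub_mem hw₀F (sum_mem fun k _ => sum_mem fun l _ =>
    mul_mem (hgF k l) (mul_mem (hvF k) (haF l)))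
  have hQF : Qd ∈ F := sub_mem (one_mem _) (sum_mem fun k _ => sum_mem fun l _ =>
    mul_mem (hgF k l) (mul_mem (haF k) (haF l)))
  have h2F : (2 : L) ∈ F := by
    have h3 : (2 : L) = 1 + 1 := by norm_num
    rw [h3]
    exact add_mem (one_mem _) (one_mem _)
  have hr : d / y k₀ ∈ F := by
    have h3 : d / y k₀ = -(2 * Bd / Qd) := by
      rw [div_eq_iff hy, neg_mul, div_mul_eq_mul_div, ← neg_div, eq_div_iff hQ]
      linear_combination e3
    rw [h3]
    exact neg_mem (div_mem (mul_mem h2F hBF) hQF)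
  have hyF' : ∀ k, y k / y k₀ ∈ F := by
    intro k
    have h3 : y k / y k₀ = (v k + (d / y k₀) * a k) / v k₀ := by
      rw [div_eq_iff hy, div_mul_eq_mul_div, eq_div_iff hv, add_mul, div_mul_eq_mul_div,
        div_mul_cancel₀ _ hy, he]
      ring
    rw [h3]
    exact div_mem (add_mem (hvF k) (mul_mem hr (haF k))) (hvF k₀)
  have hwF' : w / y k₀ ∈ F := by
    have h3 : w / y k₀ = (w₀ + d / y k₀) / v k₀ := by
      rw [div_eq_iff hy, div_mul_eq_mul_div, eq_div_iff hv, add_mul, div_mul_cancel₀ _ hy, hdd]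
      ring
    rw [h3]
    exact div_mem (add_mem hw₀F hr) (hvF k₀)
  have hμ : y k₀ ∈ F := by
    have h3 := hyF' 0
    rw [hy0] at h3
    have h4 := inv_mem h3
    rwa [one_div, inv_inv] at h4
  refine ⟨?_, fun k => ?_⟩
  · have := mul_mem hwF' hμ
    rwa [div_mul_cancel₀ _ hy] at this
  · have := mul_mem (hyF' k) hμ
    rwa [div_mul_cancel₀ _ hy] at this

end Stereo

end

end Run7.h164
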