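import Pool.Agent.Run7.h164.RC

set_option autoImplicit false
set_option linter.unusedVariables false
set_option linter.unusedSectionVars false

/-!
Rationality of Verra fourfolds with a section: algebra.
-/

open Cardinal

namespace Run7.h164

noncomputable section

open MvPolynomial (X C)

lemma fm_false (V : Verra) {B : Type} [CommRing B] [Algebra ℂ B] (x y : Fin 3 → B) :
    fm V.G x y = ∑ k, ∑ l, gk V.G false x k l * (y k * y l) := by
  have h1 : ∀ k l, gk V.G false x k l * (y k * y l) =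
      ∑ i, ∑ j, V.G i j k l • (x i * x j * y k * y l) := by
    intro k l
    rw [gk, Finset.sum_mul]
    refine Finset.sum_congr rfl fun i _ => ?_
    rw [Finset.sum_mul]
    refine Finset.sum_congr rfl fun j _ => ?_
    rw [smul_mul_assoc, mul_assoc (x i * x j)]
    rfl
  simp only [h1]
  exact sum4_comm _

lemma fm_true (V : Verra) {B : Type} [CommRing B] [Algebra ℂ B] (x y : Fin 3 → B) :
    fm V.G x y = ∑ k, ∑ l, gk V.G true y k l * (x k * x l) := by
  rw [fm_false]
  exact (swap_form V false y x).symm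

variable (V : Verra) (sd : Bool)

/-- Polynomials on the base as polynomials on the chart. -/
def io : R2 →ₐ[ℂ] P4 := sub2 (X (s0 sd)) (X (s1 sd))

lemma bvv_eq : (![1, X (s0 sd), X (s1 sd)] : Fin 3 → P4) = bvv sd := by
  funext i
  fin_cases i
  · exact (bvv_zero sd).symm
  · exact (bvv_one sd).symm
  · exact (bvv_two sd).symm

lemma fch_gk : fch V 0 0 = ∑ k, ∑ l, io sd (gG V sd k l) * (fvv sd 0 k * fvv sd 0 l) := by
  have h1 : ∀ k l, io sd (gG V sd k l) = gk V.G sd (bvv sd) k l := by
    intro k l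
    rw [io, sub2_gG, bvv_eq]
  simp only [h1]
  cases sd
  · exact fm_false V _ _
  · exact fm_true V _ _

lemma sbs_io (α β : ℂ) (r : R2) : sbs (s1 sd) β (sbs (s0 sd) α (io sd r)) = C (sub2 α β r) := by
  rw [io, sub2_map, sub2_map, sbs_same, sbs_ne (s1_ne sd), sbs_C, sbs_same]
  exact (sub2_map (Algebra.ofId ℂ P4) α β r).symm

lemma io_inj {r : R2} (h : io sd r = 0) : r = 0 := by
  by_contra hr
  obtain ⟨α, β, hαβ⟩ := exists_sub2_ne hr
  have h1 := sbs_io sd α β r
  rw [h, map_zero, map_zero] at h1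
  exact hαβ (MvPolynomial.C_injective _ _ (by rw [← h1, map_zero]))

lemma io_indep {c : Fin 3 → R2} (h : ∑ l, io sd (c l) * fvv sd 0 l = 0) (l : Fin 3) : c l = 0 := by
  by_contra hl
  obtain ⟨α, β, hαβ⟩ := exists_sub2_ne hl
  have h1 := congrArg (fun p => sbs (s1 sd) β (sbs (s0 sd) α p)) h
  simp only [map_sum, map_mul, sbs_io, map_zero, (sbs_fvv sd _ _ _).1, (sbs_fvv sd _ _ _).2] at h1
  refine lin_fvv sd (L := fun l => sub2 α β (c l)) ⟨l, hαβ⟩ 0 ?_
  rw [← h1]
  exact Finset.sum_congr rfl fun l _ => MvPolynomial.smul_eq_C_mul _ _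

variable {V sd}

/-- Sections over the ring of polynomials. -/
lemma exists_int (h : ¬ NoSec V sd) : ∃ (W : R2) (v : Fin 3 → R2), v ≠ 0 ∧
    W ^ 2 = ∑ k, ∑ l, gG V sd k l * (v k * v l) := by
  rw [NoSec, AnG] at h
  push Not at h
  obtain ⟨w, v, hwv, hv⟩ := h
  obtain ⟨b, hb⟩ := IsLocalization.exist_integer_multiples_of_finite (nonZeroDivisors R2)
    (fun o : Option (Fin 3) => o.elim w v)
  obtain ⟨W, hW⟩ := hb none
  choose v' hv' using fun k => hb (some k)
  have hb0 : algebraMap R2 K2 (b : R2) ≠ 0 := by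
    intro h0
    exact nonZeroDivisors.coe_ne_zero b ((IsFractionRing.injective R2 K2) (by rw [h0, map_zero]))
  have hW' : algebraMap R2 K2 W = algebraMap R2 K2 (b : R2) * w := by
    rw [hW, Algebra.smul_def]
    rfl
  have hv'' : ∀ k, algebraMap R2 K2 (v' k) = algebraMap R2 K2 (b : R2) * v k := by
    intro k
    rw [hv', Algebra.smul_def]
    rfl
  refine ⟨W, v', ?_, ?_⟩
  · rintro rfl
    apply hv
    funext k
    have h1 := hv'' k
    rw [Pi.zero_apply, map_zero] at h1
    exact (mul_eq_zero.1 h1.symm).resolve_left hb0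
  · apply IsFractionRing.injective R2 K2
    rw [map_pow, hW', map_sum]
    have h1 : ∀ k, algebraMap R2 K2 (∑ l, gG V sd k l * (v' k * v' l)) =
        (algebraMap R2 K2 (b : R2)) ^ 2 * ∑ l, algebraMap R2 K2 (gG V sd k l) * (v k * v l) := by
      intro k
      rw [map_sum, Finset.mul_sum]
      refine Finset.sum_congr rfl fun l _ => ?_
      rw [map_mul, map_mul, hv'', hv'']
      ring
    simp only [h1]
    rw [← Finset.mul_sum, ← hwv]
    ring

/-- Rationality of the function field. -/
theorem rational_alg (h : ¬ NoSec V sd) {L : Type} [Field L] [Algebra ℂ L]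
    (τ : Qch V 0 0 →+* L) (hτ : Function.Injective τ)
    (hc : ∀ c : ℂ, τ (algebraMap P4 _ (C c)) = algebraMap ℂ L c)
    (hsurj : ∀ z : L, ∃ a b : Qch V 0 0, z = τ a / τ b) :
    Nonempty (L ≃ₐ[ℂ] FractionRing (MvPolynomial (Fin 4) ℂ)) := by
  obtain ⟨W, v, hv, hWv⟩ := exists_int h
  let T : P4 →ₐ[ℂ] L := { toRingHom := τ.comp (algebraMap P4 (Qch V 0 0)), commutes' := hc }
  have hT : ∀ p, T p = τ (algebraMap P4 (Qch V 0 0) p) := fun p => rfl
  set w : L := τ QuadraticAlgebra.omega with hw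
  have hmk : ∀ q : Qch V 0 0, τ q = T q.re + T q.im * w := by
    intro q
    have h1 : q = algebraMap P4 _ q.re + algebraMap P4 _ q.im * QuadraticAlgebra.omega := by
      rw [← Algebra.smul_def]
      exact QuadraticAlgebra.mk_eq_add_smul_omega q.re q.im
    conv_lhs => rw [h1]
    rw [map_add, map_mul]
    rfl
  have hind : ∀ p p' : P4, T p + T p' * w = 0 → p = 0 ∧ p' = 0 := by
    intro p p' h0
    have h1 : τ (⟨p, p'⟩ : Qch V 0 0) = 0 := (hmk _).trans h0
    have h2 : (⟨p, p'⟩ : Qch V 0 0) = 0 := hτ (by rw [h1, map_zero])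
    exact ⟨congrArg QuadraticAlgebra.re h2, congrArg QuadraticAlgebra.im h2⟩
  have hTinj : ∀ p, T p = 0 → p = 0 := fun p hp => (hind p 0 (by
    rw [hp, map_zero, zero_mul, add_zero])).1
  -- the data
  let g : Fin 3 → Fin 3 → L := fun k l => T (io sd (gG V sd k l))
  let y : Fin 3 → L := fun k => T (fvv sd 0 k)
  let v' : Fin 3 → L := fun k => T (io sd (v k))
  let w₀ : L := T (io sd W)
  have hww : w ^ 2 = ∑ k, ∑ l, g k l * (y k * y l) := by
    have h1 : w ^ 2 = T (fch V 0 0) := by
      rw [hw, sq, ← map_mul, QuadraticAlgebra.omega_mul_omega_eq_mk]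
      rfl
    rw [h1, fch_gk V sd]
    simp only [map_sum, map_mul]
    rfl
  have hw₀ : w₀ ^ 2 = ∑ k, ∑ l, g k l * (v' k * v' l) := by
    have h1 := congrArg (fun r => T (io sd r)) hWv
    simp only [map_pow, map_sum, map_mul] at h1
    exact h1
  obtain ⟨k₀, hk₀⟩ := Function.ne_iff.1 hv
  have hvk : v' k₀ ≠ 0 := fun h0 => hk₀ (io_inj sd (hTinj _ h0))
  have hyk : y k₀ ≠ 0 := by
    intro h0
    have h1 := hTinj _ h0
    have h2 := lin_fvv sd (L := Pi.single k₀ 1) ⟨k₀, by rw [Pi.single_eq_same]; exact one_ne_zero⟩ 0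
    apply h2
    rw [Finset.sum_eq_single k₀]
    · rw [h1, smul_zero]
    · intro j _ hj
      rw [Pi.single_eq_of_ne hj, zero_smul]
    · intro h
      exact absurd (Finset.mem_univ _) h
  have hd : w * v' k₀ - w₀ * y k₀ ≠ 0 := by
    intro h0
    have h1 : T (-(io sd W * fvv sd 0 k₀)) + T (io sd (v k₀)) * w = 0 := by
      rw [← h0, map_neg, map_mul]
      ring
    exact hk₀ (io_inj sd (hind _ _ h1).2)
  have hB : w₀ * w - ∑ k, ∑ l, g k l * (v' k * y l) ≠ 0 := by
    intro h0
    have h1 : T (-(∑ k, ∑ l, io sd (gG V sd k l) * (io sd (v k) * fvv sd 0 l))) +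
        T (io sd W) * w = 0 := by
      rw [← h0, map_neg]
      simp only [map_sum, map_mul]
      rw [add_comm, ← sub_eq_add_neg]
    have h2 := (hind _ _ h1).1
    rw [neg_eq_zero, Finset.sum_comm] at h2
    have h3 : ∑ l, io sd (∑ k, gG V sd l k * v k) * fvv sd 0 l = 0 := by
      rw [← h2]
      refine Finset.sum_congr rfl fun l _ => ?_
      rw [map_sum, Finset.sum_mul]
      refine Finset.sum_congr rfl fun k _ => ?_
      rw [map_mul]
      have h4 : gG V sd l k = gG V sd k l := gk_symm V sd aG l k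
      rw [h4]
      ring
    obtain ⟨k, hk⟩ := rad hv
    exact hk (io_indep sd h3 k)
  -- the generators
  let a : Fin 3 → L := fun k => (y k * v' k₀ - v' k * y k₀) / (w * v' k₀ - w₀ * y k₀)
  let t : Fin 4 → L := ![T (X (s0 sd)), T (X (s1 sd)), a (k₀.succAbove 0), a (k₀.succAbove 1)]
  set F := IntermediateField.adjoin ℂ (Set.range t) with hF
  have ht : ∀ i, t i ∈ F := fun i => IntermediateField.subset_adjoin ℂ _ ⟨i, rfl⟩
  have haF : ∀ k, a k ∈ F := by
    intro k
    rcases Fin.eq_self_or_eq_succAbove k₀ k with rfl | ⟨j, rfl⟩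
    · have h1 : a k = 0 := by
        change (y k * v' k - v' k * y k) / _ = 0
        rw [mul_comm, sub_self, zero_div]
      rw [h1]
      exact zero_mem _
    · fin_cases j
      · exact ht 2
      · exact ht 3
  have hioF : ∀ r, T (io sd r) ∈ F := by
    intro r
    rw [io, sub2_map]
    exact sub2_mem F (ht 0) (ht 1) r
  have hsy : ∀ k l, g k l = g l k := by
    intro k l
    change T (io sd (gG V sd k l)) = T (io sd (gG V sd l k))
    have h4 : gG V sd k l = gG V sd l k := gk_symm V sd aG k l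
    rw [h4]
  obtain ⟨hwF, hyF⟩ := stereo F hsy (fun k l => hioF _) hww hw₀ (hioF _) (fun k => hioF _)
    (by
      change T (fvv sd 0 0) = 1
      rw [fvv_self, map_one]) hvk hyk hd hB haF
  have hXF : ∀ i : Fin 4, T (X i) ∈ F := by
    have e1 : T (X (s0 sd)) ∈ F := ht 0
    have e2 : T (X (s1 sd)) ∈ F := ht 1
    have e3 : T (fvv sd 0 1) ∈ F := hyF 1
    have e4 : T (fvv sd 0 2) ∈ F := hyF 2
    cases sd
    · have f3 : fvv false 0 1 = X 2 := yv_sA 0 0
      have f4 : fvv false 0 2 = X 3 := yv_sA 0 1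
      rw [f3] at e3
      rw [f4] at e4
      intro i
      fin_cases i
      · exact e1
      · exact e2
      · exact e3
      · exact e4
    · have f3 : fvv true 0 1 = X 0 := xv_sA 0 0
      have f4 : fvv true 0 2 = X 1 := xv_sA 0 1
      rw [f3] at e3
      rw [f4] at e4
      intro i
      fin_cases i
      · exact e3
      · exact e4
      · exact e1
      · exact e2
  have hPF : ∀ p : P4, T p ∈ F := by
    intro p
    induction p using MvPolynomial.induction_on with
    | C c =>
      have h1 : T (C c) = algebraMap ℂ L c := T.commutes c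
      rw [h1]
      exact F.algebraMap_mem c
    | add p q hp hq => rw [map_add]; exact add_mem hp hq
    | mul_X p n hp => rw [map_mul]; exact mul_mem hp (hXF n)
  have hQF : ∀ q : Qch V 0 0, τ q ∈ F := fun q => by
    rw [hmk]
    exact add_mem (hPF _) (mul_mem (hPF _) hwF)
  have htop : F = ⊤ := by
    rw [eq_top_iff]
    intro z _
    obtain ⟨p, q, rfl⟩ := hsurj z
    exact div_mem (hQF p) (hQF q)
  refine rational_of_gen (fun i => T (X i)) t ?_ htop
  rw [algebraicIndependent_iff_injective_aeval]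
  have h1 : (MvPolynomial.aeval (fun i => T (X i)) : P4 →ₐ[ℂ] L) = T := by
    apply MvPolynomial.algHom_ext
    intro i
    rw [MvPolynomial.aeval_X]
  rw [h1, injective_iff_map_eq_zero]
  exact hTinj

end

end Run7.h164
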