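import Pool.Agent.Run7.h164.RD

set_option autoImplicit false
set_option linter.unusedVariables false
set_option linter.unusedSectionVars false

/-!
Function fields of Verra fourfolds.
-/

open CategoryTheory Limits TopologicalSpace AlgebraicGeometry Opposite

namespace Run7.h164

noncomputable section

set_option backward.isDefEq.respectTransparency false

open Pool.Agent.W506 (ro ro_ro ro_refl)
open Pool.Agent.R924 (DD Frame fr)

variable (V : Verra)

/-- The constants in the function field. -/
def kF : ℂ →+* (VX V).functionField :=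
  ((VX V).presheaf.germ ⊤ (genericPoint (VX V)) trivial).hom.comp (kS V)

/-- Rationality: the function field is a field of rational functions in four variables. -/
def IsRat : Prop := ∃ e : (VX V).functionField ≃+* FractionRing (MvPolynomial (Fin 4) ℂ),
  ∀ c : ℂ, e (kF V c) = algebraMap ℂ _ c

/-- Birationality: the function fields are isomorphic over the complex numbers. -/
def Birat (V V' : Verra) : Prop := ∃ e : (VX V).functionField ≃+* (VX V').functionField,
  ∀ c : ℂ, e (kF V c) = kF V' c

lemma IsRat.birat {V V' : Verra} (h : IsRat V) (h' : IsRat V') : Birat V V' := by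
  obtain ⟨e, he⟩ := h
  obtain ⟨e', he'⟩ := h'
  exact ⟨e.trans e'.symm, fun c => by
    rw [RingEquiv.trans_apply, he, ← he', RingEquiv.symm_apply_apply]⟩

instance (j : Fin 3 × Fin 3) : Nonempty ((VF V).U j) :=
  ⟨⟨etaP V, fun h => by
    have h3 : gg V j ∈ (⊥ : HomogeneousIdeal (rg V.G)).toIdeal := h
    rw [HomogeneousIdeal.toIdeal_bot, Ideal.mem_bot] at h3
    exact gg_ne V _ h3⟩⟩

/-- Verra fourfolds with a rational section are rational. -/
theorem isRat_of_sec {sd : Bool} (h : ¬ NoSec V sd) : IsRat V := by
  let U := (VF V).U (0, 0)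
  have hU : IsAffineOpen U := (AV V).aff (0, 0)
  let γ : Γ(VX V, U) →+* (VX V).functionField := ((VX V).germToFunctionField U).hom
  have hγ : Function.Injective γ := (VX V).germToFunctionField_injective U
  let τ : Qch V 0 0 →+* (VX V).functionField := γ.comp (chQ V 0 0).symm.toRingHom
  let _ : Algebra ℂ (VX V).functionField := (kF V).toAlgebra
  have hτ : Function.Injective τ := hγ.comp (chQ V 0 0).symm.injective
  have hc : ∀ c : ℂ, τ (algebraMap P4 _ (MvPolynomial.C c)) = kF V c := by
    intro c
    have h1 : (chQ V 0 0).symm (algebraMap P4 _ (MvPolynomial.C c)) =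
        ro (le_top : U ≤ ⊤) (kS V c) := by
      rw [RingEquiv.symm_apply_eq, kS_res V (0, 0) c, chQ_fr, rhoC_apply]
      refine QuadraticAlgebra.ext ?_ ?_
      · change MvPolynomial.C c = evB (xv 0) (yv 0) (algebraMap ℂ Bi c)
        rw [AlgHom.commutes]
        rfl
      · change (0 : P4) = evB (xv 0) (yv 0) (0 : Bi)
        rw [map_zero]
    change γ ((chQ V 0 0).symm _) = _
    rw [h1]
    exact TopCat.Presheaf.germ_res_apply (VX V).presheaf (homOfLE (le_top : U ≤ ⊤)) _ _ (kS V c)
  have hfr : IsFractionRing Γ(VX V, U) (VX V).functionField :=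
    functionField_isFractionRing_of_isAffineOpen (VX V) U hU
  have hsurj : ∀ z : (VX V).functionField, ∃ a b : Qch V 0 0, z = τ a / τ b := by
    intro z
    obtain ⟨x, y, -, hxy⟩ := IsFractionRing.div_surjective (A := Γ(VX V, U)) z
    refine ⟨chQ V 0 0 x, chQ V 0 0 y, ?_⟩
    change z = γ ((chQ V 0 0).symm (chQ V 0 0 x)) / γ ((chQ V 0 0).symm (chQ V 0 0 y))
    rw [RingEquiv.symm_apply_apply, RingEquiv.symm_apply_apply, ← hxy]
    rfl
  obtain ⟨e⟩ := rational_alg h τ hτ hc hsurj
  exact ⟨e.toRingEquiv, fun c => e.commutes c⟩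

end

end Run7.h164
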