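import Pool.Agent.Run7.h164.ST
import Pool.Agent.Run7.h164.FN

set_option autoImplicit false
set_option linter.unusedVariables false
set_option linter.unusedSectionVars false

/-!
Comparison of the definitions used in the statements with those used in the proofs.
-/

open CategoryTheory Limits TopologicalSpace AlgebraicGeometry Opposite Pretriangulated
open Module

namespace Run7.h164

noncomputable section

set_option backward.isDefEq.respectTransparency false

open Pool.Agent.W506 (rs ro ap rs_rs ro_ro ro_refl rs_refl QCOn ap_rs rs_smul ap_ext)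
open Pool.Agent.R924 (DD Frame DCoh CohAll fr IsGen isGen_of isIso_of_local)

attribute [local instance] HasDerivedCategory.standard

/-- Uniqueness of the grading. -/
lemma grading_unique {A : Type} [CommRing A] [Algebra ℂ A] {𝒜 : ℕ → Submodule ℂ A}
    (a b : GradedAlgebra 𝒜) : a = b := by
  have h : ∀ (a b : GradedAlgebra 𝒜),
      a.toDecomposition = b.toDecomposition → a = b := by
    intro a b hab
    cases a
    cases b
    congr
  exact h a b (Subsingleton.elim _ _)

/-- The data of the proofs. -/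
def toV (V : ST.Verra) : Verra := ⟨V.G, V.symm₁, V.symm₂, V.smooth⟩

/-- The grading of the proofs. -/
@[instance_reducible]
def gInst (G : ST.Coef) : GradedAlgebra (ST.gr G) := (inferInstance : GradedAlgebra (rg G))

/-- The charted scheme of the proofs. -/
def devY (V : Verra) : ST.Charted where
  X := VX V
  k := kS V
  U j := (VF V).U j
  fn j a := qf V j a

lemma devY_eq (V : Verra) : devY V = ST.projY (rg V.G) (gg V) (gg_mem V) := rfl

lemma projY_eq (V : ST.Verra) :
    @ST.projY _ _ _ (ST.gr V.G) (gInst V.G) (ST.gen V.G) (ST.gen_mem V.G) =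
      ST.projY (rg V.G) (gg (toV V)) (gg_mem (toV V)) := rfl

/-- The charted schemes agree. -/
theorem Y_eq (V : ST.Verra) : V.Y = devY (toV V) := by
  have h1 : V.Y = @ST.projY _ _ _ (ST.gr V.G) (gInst V.G) (ST.gen V.G) (ST.gen_mem V.G) := by
    rw [grading_unique (gInst V.G) (ST.instGradedAlgebraNatComplexRing2Gr V.G)]
    rfl
  rw [h1, projY_eq]
  rfl

lemma coherent_iff {X : Scheme.{0}} (M : X.Modules) : ST.Coherent M ↔ CohAll M := by
  constructor
  · intro h W hW
    exact ⟨⟨fun W' hW' hle f s => ((h W' hW').2 f).1 s, fun W' hW' hle f t ht =>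
      ((h W' hW').2 f).2 t ht⟩, (h W hW).1⟩
  · intro h W hW
    exact ⟨(h W hW).2, fun f => ⟨fun s => (h W hW).1.ext W hW le_rfl f s,
      fun t ht => (h W hW).1.uniq W hW le_rfl f t ht⟩⟩

lemma coh_iff {V : Verra} (E : DerivedCategory (VX V).Modules) :
    ST.Coh (Y := devY V) E ↔ DCoh E := by
  constructor
  · rintro ⟨h1, n, hn⟩
    obtain ⟨m, hm⟩ : ∃ m : ℕ, n ≤ m := ⟨n.toNat, Int.self_le_toNat n⟩
    refine ⟨fun i => (coherent_iff _).1 (h1 i), -(m : ℤ), 2 * m + 1, fun i hi => ?_,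
      fun i hi => ?_⟩
    · refine hn i ?_
      have : |i| = -i := abs_of_neg (by omega)
      omega
    · refine hn i ?_
      push_cast at hi
      have : |i| = i := abs_of_pos (by omega)
      omega
  · rintro ⟨h1, a, n, h2, h3⟩
    refine ⟨fun i => (coherent_iff _).2 (h1 i), |a| + n, fun i hi => ?_⟩
    rcases lt_or_ge i a with h | h
    · exact h2 i h
    · refine h3 i ?_
      by_contra hc
      have h4 : |i| ≤ |a| + n := by
        rw [abs_le]
        constructor
        · have := neg_abs_le a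
          omega
        · have := le_abs_self a
          omega
      omega

/-! ### Line bundles -/

variable {V : Verra}

lemma tr_OL (p q : ℕ) (i k i' k' : Fin 3) :
    Frame.tr (xiD V ^ (p : ℤ) * etD V ^ (q : ℤ)) (i, k) (i', k') =
      ro inf_le_left (qf V (i, k) (i', k)) ^ p * ro inf_le_left (qf V (i, k) (i, k')) ^ q := by
  apply (VF V).inj₂
  rw [Frame.ro_tr, map_mul, map_pow, map_pow, ro_ro, ro_ro]
  let u : (Γ(VX V, (VF V).T))ˣ := qu (gg V) (gg_mem V) (gg_ne V) (i, k) (i', k)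
  let v : (Γ(VX V, (VF V).T))ˣ := qu (gg V) (gg_mem V) (gg_ne V) (i, k) (i, k')
  have h1 : (xiD V ^ (p : ℤ) * etD V ^ (q : ℤ)).1 (i', k') *
      ((xiD V ^ (p : ℤ) * etD V ^ (q : ℤ)).1 (i, k))⁻¹ = u ^ p * v ^ q := by
    rw [zpow_natCast, zpow_natCast]
    change (xiD V).1 (i', k') ^ p * (etD V).1 (i', k') ^ q *
      ((xiD V).1 (i, k) ^ p * (etD V).1 (i, k) ^ q)⁻¹ = _
    have e1 : (xiD V).1 (i', k') = (xiD V).1 (i, k) * u := by
      change qu (gg V) (gg_mem V) (gg_ne V) (0, 0) (i', 0) =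
        qu (gg V) (gg_mem V) (gg_ne V) (0, 0) (i, 0) *
          qu (gg V) (gg_mem V) (gg_ne V) (i, k) (i', k)
      rw [← qu_mul (gg V) (gg_mem V) (gg_ne V) (0, 0) (i, 0) (i', 0)]
      congr 1
      apply qu_eq
      exact gg_segre V i' i 0 k
    have e2 : (etD V).1 (i', k') = (etD V).1 (i, k) * v := by
      change qu (gg V) (gg_mem V) (gg_ne V) (0, 0) (0, k') =
        qu (gg V) (gg_mem V) (gg_ne V) (0, 0) (0, k) *
          qu (gg V) (gg_mem V) (gg_ne V) (i, k) (i, k')
      rw [← qu_mul (gg V) (gg_mem V) (gg_ne V) (0, 0) (0, k) (0, k')]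
      congr 1
      apply qu_eq
      rw [gg_segre V 0 i k' k, mul_comm]
    rw [e1, e2, mul_pow, mul_pow, mul_mul_mul_comm, mul_comm (_ ^ p * _ ^ q) (u ^ p * v ^ q),
      mul_inv_cancel_right]
  rw [h1, Units.val_mul, Units.val_pow_eq_pow_val, Units.val_pow_eq_pow_val]
  rfl

lemma lbE_gen (δ : (VF V).Div) (j : Fin 3 × Fin 3) (W : (VX V).Opens) (h : W ≤ (VF V).U j) :
    Function.Bijective fun f : Γ(VX V, W) => f • rs (Frame.lb δ) h (Frame.lbE δ j) := by
  have hg := Frame.isGen_lbE δ j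
  exact ⟨fun a b hab => hg.smul_inj h hab, fun s => hg.exists_smul h s⟩

lemma isO_aux (p q : ℕ) (i k i' k' : Fin 3) (W : (VX V).Opens) (h : W ≤ (VF V).U (i, k))
    (h' : W ≤ (VF V).U (i', k')) :
    rs (OL V p q) h' (Frame.lbE (xiD V ^ (p : ℤ) * etD V ^ (q : ℤ)) (i', k')) =
      (ro h (qf V (i, k) (i', k)) ^ p * ro h (qf V (i, k) (i, k')) ^ q) •
        rs (OL V p q) h (Frame.lbE (xiD V ^ (p : ℤ) * etD V ^ (q : ℤ)) (i, k)) := by
  have h1 := Frame.lb_compat (xiD V ^ (p : ℤ) * etD V ^ (q : ℤ)) (i, k) (i', k')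
  have h2 := congrArg (rs (Frame.lb (xiD V ^ (p : ℤ) * etD V ^ (q : ℤ))) (le_inf h h')) h1
  rw [rs_rs, rs_smul, rs_rs, tr_OL, map_mul, map_pow, map_pow, ro_ro, ro_ro] at h2
  exact h2

lemma isO_OL (p q : ℕ) : ST.IsO (devY V) p q (OL V p q) :=
  ⟨Frame.lbE _, fun j W h => lbE_gen _ j W h, fun i k i' k' W h h' => isO_aux p q i k i' k' W h h'⟩

lemma iso_of_isO {p q : ℕ} {L : (VX V).Modules} (h : ST.IsO (devY V) p q L) :
    Nonempty (OL V p q ≅ L) := by
  obtain ⟨e, h1, h2⟩ := h
  obtain ⟨φ, hφ⟩ := Frame.lb_hom (xiD V ^ (p : ℤ) * etD V ^ (q : ℤ)) L e (by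
    rintro ⟨i, k⟩ ⟨i', k'⟩
    rw [tr_OL]
    exact h2 i k i' k' _ inf_le_left inf_le_right)
  have : IsIso φ := by
    apply isIso_of_local
    intro x
    obtain ⟨j, hj⟩ := (VF V).cover x
    refine ⟨(VF V).U j, hj, fun W hW => ?_⟩
    have h3 := lbE_gen (xiD V ^ (p : ℤ) * etD V ^ (q : ℤ)) j W hW
    have h4 : Function.Bijective fun f : Γ(VX V, W) => f • rs L hW (e j) := h1 j W hW
    have h5 : (fun f : Γ(VX V, W) => f • rs L hW (e j)) =
        ap φ W ∘ (fun f : Γ(VX V, W) => f • rs _ hW (Frame.lbE _ j)) := by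
      funext f
      change _ = ap φ W (f • rs _ hW (Frame.lbE _ j))
      rw [map_smul, ap_rs, hφ]
    rw [h5] at h4
    exact (Function.Bijective.of_comp_iff _ h3).1 h4
  exact ⟨asIso φ⟩

/-- The Kuznetsov components for arbitrary sets of line bundles. -/
def KuS (V : Verra) (S : Set (ℕ × ℕ)) : ObjectProperty (DerivedCategory (VX V).Modules) :=
  fun E => DCoh E ∧ ∀ p q : ℕ, (p, q) ∈ S → ∀ (i : ℤ)
    (f : Pool.Agent.R924.sg (OL V p q) ⟶ E⟦i⟧), f = 0

lemma ku_iff (S : Set (ℕ × ℕ)) (E : DerivedCategory (VX V).Modules) :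
    ST.Ku (devY V) S E ↔ KuS V S E := by
  constructor
  · rintro ⟨h1, h2⟩
    exact ⟨(coh_iff E).1 h1, fun p q hS i f => h2 p q _ hS (isO_OL p q) i f⟩
  · rintro ⟨h1, h2⟩
    refine ⟨(coh_iff E).2 h1, fun p q L hS hL i f => ?_⟩
    obtain ⟨φ⟩ := iso_of_isO hL
    let ψ : Pool.Agent.R924.sg (OL V p q) ≅ Pool.Agent.R924.sg L :=
      (DerivedCategory.singleFunctor _ 0).mapIso φ
    have h3 : ψ.hom ≫ (show Pool.Agent.R924.sg L ⟶ (show DerivedCategory (VX V).Modules from E)⟦i⟧
      from f) = 0 := h2 p q hS i _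
    exact (cancel_epi ψ.hom).1 (h3.trans comp_zero.symm)

/-- The set of line bundles of the literal definition. -/
def S4 : Set (ℕ × ℕ) := {(0, 0), (1, 0), (0, 1), (1, 1)}

lemma kuS4_iff (E : DerivedCategory (VX V).Modules) : KuS V S4 E ↔ KuP V E := by
  constructor
  · rintro ⟨h1, h2⟩
    refine ⟨h1, fun p q hp hq i f => ?_⟩
    rcases hp with rfl | rfl <;> rcases hq with rfl | rfl
    · exact h2 0 0 (by simp [S4]) i f
    · exact h2 0 1 (by simp [S4]) i f
    · exact h2 1 0 (by simp [S4]) i f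
    · exact h2 1 1 (by simp [S4]) i f
  · rintro ⟨h1, h2⟩
    refine ⟨h1, fun p q hS i f => ?_⟩
    simp only [S4, Set.mem_insert_iff, Set.mem_singleton_iff, Prod.mk.injEq] at hS
    exact h2 p q (by omega) (by omega) i f

/-! ### Euler characteristics -/

lemma linear_ext {C : Type*} [Category C] [Preadditive C] {L L' : Linear ℂ C}
    (h : ∀ (X Y : C) (c : ℂ) (f : X ⟶ Y),
      (L.homModule X Y).toSMul.smul c f = (L'.homModule X Y).toSMul.smul c f) : L = L' := by
  have h1 : L.homModule = L'.homModule := by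
    funext X Y
    exact Module.ext' _ _ fun c f => h X Y c f
  cases L
  cases L'
  cases h1
  rfl

lemma lin_eq (V : Verra) : ST.lin (X := VX V) (kS V) = linV V := by
  apply linear_ext
  intro M N c φ
  apply ap_ext
  intro U s
  have h1 := (ST.exists_linear (X := VX V) (kS V)).choose_spec M N c φ U s
  refine Eq.trans h1 ?_
  symm
  change ap (Pool.Agent.W456.smulEnd (kS V c) M ≫ φ) U s = _
  change φ.app U ((Pool.Agent.W456.smulEnd (kS V c) M).app U s) = _
  rw [Pool.Agent.W456.smulEnd_app, Scheme.Modules.Hom.app_smul]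
  rfl

/-- The Euler characteristic with respect to a linear structure. -/
def euL (L : Linear ℂ (VX V).Modules) (E F : DerivedCategory (VX V).Modules) : ℤ :=
  letI := L
  chiZ fun i => finrank ℂ (E ⟶ F⟦i⟧)

lemma chi_euL (E F : DerivedCategory (VX V).Modules) :
    ST.chi (Y := devY V) E F = euL (ST.lin (X := VX V) (kS V)) E F := rfl

lemma chi_eq (E F : DerivedCategory (VX V).Modules) :
    ST.chi (Y := devY V) E F = eu E F := by
  rw [chi_euL, lin_eq]
  rfl

end

end Run7.h164
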