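import Pool.Agent.Run7.h164.DR
import Pool.Agent.W456.Geo1

set_option autoImplicit false

/-!
Verra fourfolds, their line bundles, derived categories and Kuznetsov components.
-/

open CategoryTheory AlgebraicGeometry

namespace Run7.h164.ST

noncomputable section

set_option backward.isDefEq.respectTransparency false

/-! ### The fourfolds -/

/-- The monomials `x ^ m * y ^ n` in `x 0, x 1, x 2, y 0, y 1, y 2` of the same degree in `x` and in
`y`, as pairs `(m, n)` of exponents. -/
def monos : AddSubmonoid ((Fin 3 → ℕ) × (Fin 3 → ℕ)) where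
  carrier := {p | ∑ i, p.1 i = ∑ i, p.2 i}
  add_mem' {p q} hp hq := by
    change ∑ i, (p.1 i + q.1 i) = ∑ i, (p.2 i + q.2 i)
    rw [Finset.sum_add_distrib, Finset.sum_add_distrib]
    exact congrArg₂ _ hp hq
  zero_mem' := rfl

/-- The type of these monomials. -/
def Mono : Type := monos

instance : AddCommMonoid Mono := (inferInstance : AddCommMonoid monos)

/-- The algebra spanned by these monomials. -/
abbrev BB : Type := AddMonoidAlgebra ℂ Mono

/-- The degree in `x`, which is also the degree in `y`. -/
def deg (m : Mono) : ℕ := ∑ i, (show monos from m).1.1 i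

/-- The monomial `x i * y k`. -/
def xyM (i k : Fin 3) : Mono := ⟨(Pi.single i 1, Pi.single k 1), by
  change ∑ j, (Pi.single i 1 : Fin 3 → ℕ) j = ∑ j, (Pi.single k 1 : Fin 3 → ℕ) j
  simp⟩

/-- The monomial `x i * y k` as an element of the algebra. -/
def xy (i k : Fin 3) : BB := AddMonoidAlgebra.single (xyM i k) 1

/-- The polynomials of bidegree `(n, n)`. -/
def gB (n : ℕ) : Submodule ℂ BB := AddMonoidAlgebra.gradeBy ℂ deg n

/-- The polynomials of bidegree `(n - 1, n - 1)`. -/
def gB' : ℕ → Submodule ℂ BB
  | 0 => ⊥
  | n + 1 => gB n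

/-- Coefficients of forms of bidegree `(2, 2)`. -/
abbrev Coef : Type := Fin 3 → Fin 3 → Fin 3 → Fin 3 → ℂ

/-- The form of bidegree `(2, 2)` with given coefficients, as an element of the algebra. -/
def form (G : Coef) : BB := ∑ i, ∑ j, ∑ k, ∑ l, G i j k l • (xy i k * xy j l)

/-- The ring obtained by adjoining a square root `w` of the form `F` with coefficients `G`:
the elements `a + b * w` with `a, b` in `BB` and `w ^ 2 = F`. -/
def Ring2 (G : Coef) : Type := QuadraticAlgebra BB (form G) 0

instance (G : Coef) : CommRing (Ring2 G) :=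
  (inferInstance : CommRing (QuadraticAlgebra BB (form G) 0))

instance (G : Coef) : Algebra ℂ (Ring2 G) :=
  (inferInstance : Algebra ℂ (QuadraticAlgebra BB (form G) 0))

/-- The grading of this ring: `a + b * w` with `a` of bidegree `(n, n)` and `b` of bidegree
`(n - 1, n - 1)`. -/
def gr (G : Coef) (n : ℕ) : Submodule ℂ (Ring2 G) where
  carrier := {z | QuadraticAlgebra.re z ∈ gB n ∧ QuadraticAlgebra.im z ∈ gB' n}
  add_mem' ha hb := ⟨add_mem ha.1 hb.1, add_mem ha.2 hb.2⟩
  zero_mem' := ⟨zero_mem _, zero_mem _⟩
  smul_mem' c _ ha := ⟨Submodule.smul_mem _ c ha.1, Submodule.smul_mem _ c ha.2⟩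

theorem nonempty_gr (G : Coef) : Nonempty (GradedAlgebra (gr G)) :=
  ⟨(inferInstance : GradedAlgebra (rg G))⟩

instance (G : Coef) : GradedAlgebra (gr G) := (nonempty_gr G).some

/-- The element `x i * y k` of degree one, for `j = (i, k)`. -/
def gen (G : Coef) (j : Fin 3 × Fin 3) : Ring2 G := QuadraticAlgebra.mk (xy j.1 j.2) 0

theorem gen_mem (G : Coef) (j : Fin 3 × Fin 3) : gen G j ∈ gr G 1 :=
  ⟨uu_mem j.1 j.2, zero_mem _⟩

/-! ### Functions and sections -/

section Sections

/-- The ring of functions on an open subset. -/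
def Fn (X : Scheme.{0}) (U : X.Opens) : Type := Γ(X, U)

instance (X : Scheme.{0}) (U : X.Opens) : CommRing (Fn X U) := (inferInstance : CommRing Γ(X, U))

/-- The ring of global functions. -/
def Glob (X : Scheme.{0}) : Type := Fn X ⊤

instance (X : Scheme.{0}) : CommRing (Glob X) := (inferInstance : CommRing (Fn X ⊤))

variable {X : Scheme.{0}}

/-- Sections of a module over an open subset. -/
def Sec (M : X.Modules) (U : X.Opens) : Type := Γ(M, U)

instance (M : X.Modules) (U : X.Opens) : AddCommGroup (Sec M U) :=
  (inferInstance : AddCommGroup Γ(M, U))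

instance (M : X.Modules) (U : X.Opens) : Module (Fn X U) (Sec M U) :=
  (inferInstance : Module Γ(X, U) Γ(M, U))

/-- Restriction of functions. -/
def ro {U V : X.Opens} (h : V ≤ U) (f : Fn X U) : Fn X V := X.presheaf.map (homOfLE h).op f

/-- Restriction of global functions. -/
def rg (U : X.Opens) (f : Glob X) : Fn X U := ro (le_top : U ≤ ⊤) f

/-- Restriction of sections. -/
def rs (M : X.Modules) {U V : X.Opens} (h : V ≤ U) (s : Sec M U) : Sec M V :=
  M.presheaf.map (homOfLE h).op s

/-- Morphisms of modules on sections. -/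
def ap {M N : X.Modules} (φ : M ⟶ N) (U : X.Opens) (s : Sec M U) : Sec N U := φ.app U s

/-- The open subset where a function does not vanish. -/
def bo {U : X.Opens} (f : Fn X U) : X.Opens := X.basicOpen f

theorem bo_le {U : X.Opens} (f : Fn X U) : bo f ≤ U := X.basicOpen_le f

/-- Coherent modules: over each affine open subset, the sections form a finitely generated module,
and its localizations are the sections over the basic open subsets. -/
def Coherent (M : X.Modules) : Prop := ∀ W : X.Opens, IsAffineOpen W →
  Module.Finite (Fn X W) (Sec M W) ∧ ∀ f : Fn X W,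
    (∀ s : Sec M (bo f), ∃ (n : ℕ) (t : Sec M W), rs M (bo_le f) t = ro (bo_le f) f ^ n • s) ∧
    ∀ t : Sec M W, rs M (bo_le f) t = 0 → ∃ n : ℕ, f ^ n • t = 0

/-- The modules of sections are vector spaces over the complex numbers. -/
theorem exists_linear (k : ℂ →+* Glob X) : ∃ _ : Linear ℂ X.Modules,
    ∀ (M N : X.Modules) (c : ℂ) (φ : M ⟶ N) (U : X.Opens) (s : Sec M U),
      ap (c • φ) U s = rg U (k c) • ap φ U s :=
  ⟨Linear.ofRingMorphism ((Pool.Agent.W456.gammaCenter X).comp k), fun M N c φ U s => by
    change φ.app U ((Pool.Agent.W456.smulEnd (k c) M).app U s) = _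
    rw [Pool.Agent.W456.smulEnd_app, Scheme.Modules.Hom.app_smul]
    rfl⟩

/-- The linear structure on the category of modules given by a ring homomorphism from the complex
numbers to the global functions. -/
@[implicit_reducible]
def lin (k : ℂ →+* Glob X) : Linear ℂ X.Modules := (exists_linear k).choose

variable (X) in
/-- The function field. -/
def FF [IrreducibleSpace X] : Type := X.functionField

instance [IrreducibleSpace X] : CommRing (FF X) := (inferInstance : CommRing X.functionField)

/-- The germ of a global function at the generic point. -/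
def germ [IrreducibleSpace X] : Glob X →+* FF X :=
  (X.presheaf.germ ⊤ (genericPoint X) trivial).hom

end Sections

/-- A scheme with a homomorphism from the complex numbers to the ring of its global functions, with
nine open subsets and with functions on them. -/
structure Charted where
  /-- the scheme -/
  X : Scheme.{0}
  /-- the constants -/
  k : ℂ →+* Glob X
  /-- the open subset where `x i * y k` does not vanish, for `j = (i, k)` -/
  U : Fin 3 × Fin 3 → X.Opens
  /-- the function `(x a * y b) / (x i * y k)`, for `j = (i, k)` and the argument `(a, b)` -/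
  fn : ∀ j : Fin 3 × Fin 3, Fin 3 × Fin 3 → Fn X (U j)

/-- The ring homomorphism given by a morphism to the spectrum of the complex numbers. -/
def consts {X : Scheme.{0}} (π : X ⟶ Spec (CommRingCat.of ℂ)) : ℂ →+* Glob X :=
  ((Scheme.ΓSpecIso (CommRingCat.of ℂ)).inv ≫ π.appTop).hom

section Proj

variable {A : Type} [CommRing A] [Algebra ℂ A] (𝒜 : ℕ → Submodule ℂ A) [GradedAlgebra 𝒜]

/-- The structure morphism of the projective spectrum of a graded algebra. -/
def toC : Proj 𝒜 ⟶ Spec (CommRingCat.of ℂ) :=
  Proj.toSpecZero 𝒜 ≫ Spec.map (CommRingCat.ofHom (algebraMap ℂ (𝒜 0)))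

variable {𝒜}

/-- The quotient `b / a` of elements of degree one, as a function where `a` does not vanish. -/
def quo {a b : A} (ha : a ∈ 𝒜 1) (hb : b ∈ 𝒜 1) : Fn (Proj 𝒜) (Proj.basicOpen 𝒜 a) :=
  Proj.awayToSection 𝒜 a (HomogeneousLocalization.Away.mk 𝒜 ha 1 b hb)

variable (𝒜)

/-- The projective spectrum of a graded algebra, with the open subsets where nine given elements of
degree one do not vanish and with the quotients of these elements. -/
def projY (g : Fin 3 × Fin 3 → A) (hg : ∀ j, g j ∈ 𝒜 1) : Charted where
  X := Proj 𝒜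
  k := consts (toC 𝒜)
  U j := Proj.basicOpen 𝒜 (g j)
  fn j a := quo (hg j) (hg a)

end Proj

/-- The form of bidegree `(2, 2)` with given coefficients, as a polynomial. -/
def poly (G : Coef) : MvPolynomial (Fin 3 ⊕ Fin 3) ℂ :=
  ∑ i, ∑ j, ∑ k, ∑ l, G i j k l • (MvPolynomial.X (Sum.inl i) * MvPolynomial.X (Sum.inl j) *
    MvPolynomial.X (Sum.inr k) * MvPolynomial.X (Sum.inr l))

/-- The data of a Verra fourfold: a form of bidegree `(2, 2)`, given by its symmetric coefficients,
which defines a smooth divisor in the product of two projective planes. -/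
structure Verra where
  /-- the coefficients -/
  G : Coef
  symm₁ : ∀ i j k l, G i j k l = G j i k l
  symm₂ : ∀ i j k l, G i j k l = G i j l k
  smooth : ∀ v : Fin 3 ⊕ Fin 3 → ℂ, (∃ i, v (Sum.inl i) ≠ 0) → (∃ i, v (Sum.inr i) ≠ 0) →
    ∃ s, MvPolynomial.eval v (MvPolynomial.pderiv s (poly G)) ≠ 0

/-- The Verra fourfold given by these data: the double cover `w ^ 2 = F` of the product of two
projective planes, as the projective spectrum of the graded ring above. -/
def Verra.Y (V : Verra) : Charted := projY (gr V.G) (gen V.G) (gen_mem V.G)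

/-! ### Birational geometry -/

/-- Rationality: the function field is isomorphic over the complex numbers to the field of rational
functions in four variables. -/
def Rational (Y : Charted) : Prop :=
  ∃ (_ : IrreducibleSpace Y.X) (e : FF Y.X ≃+* FractionRing (MvPolynomial (Fin 4) ℂ)),
    ∀ c : ℂ, e (germ (Y.k c)) = algebraMap ℂ _ c

/-- Birationality: the function fields are isomorphic over the complex numbers. -/
def Birational (Y Y' : Charted) : Prop :=
  ∃ (_ : IrreducibleSpace Y.X) (_ : IrreducibleSpace Y'.X) (e : FF Y.X ≃+* FF Y'.X),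
    ∀ c : ℂ, e (germ (Y.k c)) = germ (Y'.k c)

variable (Y : Charted)

instance : Linear ℂ Y.X.Modules := lin Y.k

/-- The line bundle `O(p, q)`, up to isomorphism: it has generators `e (i, k)` over the charts, which
stand for `x i ^ p * y k ^ q`. -/
def IsO (p q : ℕ) (L : Y.X.Modules) : Prop := ∃ e : ∀ j, Sec L (Y.U j),
  (∀ (j) (W : Y.X.Opens) (h : W ≤ Y.U j), Function.Bijective
    fun f : Fn Y.X W => f • rs L h (e j)) ∧
  ∀ (i k i' k' : Fin 3) (W : Y.X.Opens) (h : W ≤ Y.U (i, k)) (h' : W ≤ Y.U (i', k')),
    rs L h' (e (i', k')) = (ro h (Y.fn (i, k) (i', k)) ^ p * ro h (Y.fn (i, k) (i, k')) ^ q) •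
      rs L h (e (i, k))

/-! ### Derived categories -/

attribute [local instance] HasDerivedCategory.standard

/-- The derived category of modules. -/
def D : Type 1 := DerivedCategory Y.X.Modules

instance : Category (D Y) := (inferInstance : Category (DerivedCategory Y.X.Modules))

instance : Preadditive (D Y) := (inferInstance : Preadditive (DerivedCategory Y.X.Modules))

instance : Linear ℂ (D Y) := (inferInstance : Linear ℂ (DerivedCategory Y.X.Modules))

instance : HasShift (D Y) ℤ := (inferInstance : HasShift (DerivedCategory Y.X.Modules) ℤ)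

variable {Y}

/-- A module as a complex in degree zero. -/
def sg (M : Y.X.Modules) : D Y := (DerivedCategory.singleFunctor Y.X.Modules 0).obj M

/-- The cohomology modules. -/
def Hh (i : ℤ) (E : D Y) : Y.X.Modules := (DerivedCategory.homologyFunctor Y.X.Modules i).obj E

/-- Bounded complexes with coherent cohomology. -/
def Coh (E : D Y) : Prop :=
  (∀ i, Coherent (Hh i E)) ∧ ∃ n : ℤ, ∀ i, n < |i| → Limits.IsZero (Hh i E)

variable (Y)

/-- The bounded complexes with coherent cohomology without morphisms from the shifts of the line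
bundles `O(p, q)` with `(p, q)` in `S`. -/
def Ku (S : Set (ℕ × ℕ)) : ObjectProperty (D Y) := fun E => Coh E ∧
  ∀ (p q : ℕ) (L : Y.X.Modules), (p, q) ∈ S → IsO Y p q L → ∀ (i : ℤ) (f : sg L ⟶ E⟦i⟧), f = 0

variable {Y} {Y' : Charted}

/-- The Euler characteristic. -/
def chi (E F : D Y) : ℤ := ∑ᶠ i : ℤ, (Int.negOnePow i : ℤ) * (Module.finrank ℂ (E ⟶ F⟦i⟧) : ℤ)

/-- Even pairs: isotropic objects with pairing two which have even pairing with all objects. -/
structure EvenPair (P : ObjectProperty (D Y)) (A B : D Y) : Prop where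
  memA : P A
  memB : P B
  selfA : chi A A = 0
  selfB : chi B B = 0
  ab : chi A B = 2
  ba : chi B A = 2
  evenA : ∀ E, P E → Even (chi E A)
  evenB : ∀ E, P E → Even (chi E B)

/-- Functors commuting with the shift on objects. -/
def CommShift {P : ObjectProperty (D Y)} {P' : ObjectProperty (D Y')}
    (Φ : P.FullSubcategory ⥤ P'.FullSubcategory) : Prop :=
  ∀ E E' : P.FullSubcategory, Nonempty (E'.obj ≅ E.obj⟦(1 : ℤ)⟧) →
    Nonempty ((Φ.obj E').obj ≅ (Φ.obj E).obj⟦(1 : ℤ)⟧)

end

end Run7.h164.ST
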