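import Pool.Agent.Run7.h164.ST
import Mathlib.LinearAlgebra.Matrix.Determinant.Basic

set_option autoImplicit false

/-!
Categories with the numerical structure of the derived category of a K3 surface.
-/

open CategoryTheory AlgebraicGeometry Matrix

namespace Run7.h164.ST

noncomputable section

set_option backward.isDefEq.respectTransparency false

universe v u

/-- The Euler characteristic in a linear category with shifts. -/
def chiC {𝒟 : Type u} [Category.{v} 𝒟] [Preadditive 𝒟] [Linear ℂ 𝒟] [HasShift 𝒟 ℤ] (E F : 𝒟) : ℤ :=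
  ∑ᶠ i : ℤ, (Int.negOnePow i : ℤ) * (Module.finrank ℂ (E ⟶ F⟦i⟧) : ℤ)

/-- The Mukai pairing on `ℤ ⊕ N ⊕ ℤ`, where `N` is the lattice with Gram matrix `G`. -/
def mukai {r : ℕ} (G : Matrix (Fin r) (Fin r) ℤ) (x y : ℤ × (Fin r → ℤ) × ℤ) : ℤ :=
  x.2.1 ⬝ᵥ (G *ᵥ y.2.1) - x.1 * y.2.2 - x.2.2 * y.1

/-- The numerical structure of the derived category of a K3 surface whose Néron-Severi lattice `N`
has Gram matrix `G`: the Mukai vectors of the objects are the elements of `ℤ ⊕ N ⊕ ℤ`, and minus the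
Mukai pairing is the Euler characteristic. -/
structure K3Cat (𝒟 : Type u) [Category.{v} 𝒟] [Preadditive 𝒟] [Linear ℂ 𝒟] [HasShift 𝒟 ℤ] {r : ℕ}
    (G : Matrix (Fin r) (Fin r) ℤ) where
  /-- the Mukai vector -/
  vec : 𝒟 → ℤ × (Fin r → ℤ) × ℤ
  surj : Function.Surjective vec
  euler : ∀ E F : 𝒟, chiC E F = - mukai G (vec E) (vec F)

/-- Even triples of Mukai vectors. -/
structure EvenVectors {r : ℕ} (G : Matrix (Fin r) (Fin r) ℤ) (x y l : ℤ × (Fin r → ℤ) × ℤ) :
    Prop where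
  xx : mukai G x x = 0
  yy : mukai G y y = 0
  xy : mukai G x y = 2
  yx : mukai G y x = 2
  ll : mukai G l l = 2
  xl : mukai G x l = 0
  lx : mukai G l x = 0
  yl : mukai G y l = 0
  ly : mukai G l y = 0
  evenx : ∀ w, Even (mukai G w x)
  eveny : ∀ w, Even (mukai G w y)

variable {Y : Charted}

/-- Functors commuting with the shift on objects. -/
def CommShiftTo {P : ObjectProperty (D Y)} {𝒟 : Type u} [Category.{v} 𝒟] [Preadditive 𝒟]
    [HasShift 𝒟 ℤ] (Φ : P.FullSubcategory ⥤ 𝒟) : Prop :=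
  ∀ E E' : P.FullSubcategory, Nonempty (E'.obj ≅ E.obj⟦(1 : ℤ)⟧) →
    Nonempty (Φ.obj E' ≅ (Φ.obj E)⟦(1 : ℤ)⟧)

end

end Run7.h164.ST
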